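import Pool.Agent.Lib.MP_b6d339_lc.Pos.XTree

/-!
# Erdős 592, positive side: the checker for decision trees of patterns
-/

namespace MPb6P

/-! ## automata as rows of masks -/

/-- rows of an automaton: for each state the mask of the successors, in base `2 ^ m`, for the
letters in the ranges `[1,1], [2,2], [3,3], [1,2], [2,3], [1,3]`; accepting states -/
structure TD where
  m : ℕ
  r1 : ℕ
  r2 : ℕ
  r3 : ℕ
  r12 : ℕ
  r23 : ℕ
  r123 : ℕ
  ac : ℕ

/-- a row -/
def rw (m r q : ℕ) : ℕ := Nat.mod (Nat.shiftRight r (Nat.mul m q)) (Nat.pow 2 m)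

/-- the rows for a letter -/
noncomputable def selM (lo : ℕ) (r1 r2 r3 : ℕ) : ℕ :=
  match lo with
  | 0 => r3
  | 1 => r1
  | 2 => r2
  | _ + 3 => r3

/-- the rows for a range -/
noncomputable def TD.sel (t : TD) (lo hi : ℕ) (k : ℕ → ℕ → Bool) : Bool :=
  match t with
  | ⟨m, r1, r2, r3, r12, r23, r123, _⟩ => frc m fun m => frc (cond (Nat.beq lo hi)
      (selM lo r1 r2 r3) (cond (Nat.beq lo 2) r23 (cond (Nat.beq hi 2) r12 r123))) fun r => k m r

/-- the rows for a range -/
noncomputable def TD.row (t : TD) (lo hi : ℕ) : ℕ :=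
  cond (Nat.beq lo hi) (selM lo t.r1 t.r2 t.r3)
    (cond (Nat.beq lo 2) t.r23 (cond (Nat.beq hi 2) t.r12 t.r123))

theorem TD.sel_eq (t : TD) (lo hi : ℕ) (k : ℕ → ℕ → Bool) :
    t.sel lo hi k = k t.m (t.row lo hi) := rfl

/-- the rows contain the automaton -/
structure TDs (t : TD) (nx : ℕ → ℕ → ℕ) (n : ℕ) : Prop where
  lt : ∀ q < n, ∀ v, 1 ≤ v → v ≤ 3 → nx q v < n
  c1 : ∀ q < n, (rw t.m t.r1 q).testBit (nx q 1) = true
  c2 : ∀ q < n, (rw t.m t.r2 q).testBit (nx q 2) = true
  c3 : ∀ q < n, (rw t.m t.r3 q).testBit (nx q 3) = true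
  c121 : ∀ q < n, (rw t.m t.r12 q).testBit (nx q 1) = true
  c122 : ∀ q < n, (rw t.m t.r12 q).testBit (nx q 2) = true
  c232 : ∀ q < n, (rw t.m t.r23 q).testBit (nx q 2) = true
  c233 : ∀ q < n, (rw t.m t.r23 q).testBit (nx q 3) = true
  c1231 : ∀ q < n, (rw t.m t.r123 q).testBit (nx q 1) = true
  c1232 : ∀ q < n, (rw t.m t.r123 q).testBit (nx q 2) = true
  c1233 : ∀ q < n, (rw t.m t.r123 q).testBit (nx q 3) = true

/-- all accepted words have labels -/
def TD.ok (M : ℕ) (t : TD) : Prop :=
  ∃ (nx : ℕ → ℕ → ℕ) (n : ℕ), 0 < n ∧ TDs t nx n ∧ ∀ w : List ℕ, (∀ x ∈ w, 1 ≤ x ∧ x ≤ 3) →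
    t.ac.testBit (w.foldl nx 0) = true → Lab3 M w

theorem TD.ok.mono {M M' : ℕ} (h : M ≤ M') {t : TD} (ht : t.ok M) : t.ok M' := by
  obtain ⟨nx, n, h1, h2, h3⟩ := ht
  exact ⟨nx, n, h1, h2, fun w hw ha => (h3 w hw ha).mono h⟩

/-- check of the rows of one state -/
noncomputable def tdQ (n a b c s1 s2 s3 s12 s23 s123 : ℕ) : Bool :=
  band (Nat.ble (Nat.succ a) n) (band (Nat.ble (Nat.succ b) n) (band (Nat.ble (Nat.succ c) n)
    (band (tb s1 a) (band (tb s2 b) (band (tb s3 c) (band (tb s12 a) (band (tb s12 b)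
      (band (tb s23 b) (band (tb s23 c) (band (tb s123 a) (band (tb s123 b) (tb s123 c))))))))))))

/-- the rows contain a narrow automaton -/
noncomputable def tdB (n : ℕ) (t : TD) (d : DF) : Bool :=
  match t with
  | ⟨m, r1, r2, r3, r12, r23, r123, ac⟩ => match d with
    | ⟨dl, ac'⟩ => band (Nat.ble 1 n) (band (Nat.beq ac ac') (allB (fun q =>
        frc (nxN dl q 0) fun a => frc (nxN dl q 6) fun b => frc (nxN dl q 12) fun c =>
          tdQ n a b c (rw m r1 q) (rw m r2 q) (rw m r3 q) (rw m r12 q) (rw m r23 q)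
            (rw m r123 q)) n))

/-- the rows contain a wide automaton -/
noncomputable def tdW (n : ℕ) (t : TD) (d : DW) : Bool :=
  match t with
  | ⟨m, r1, r2, r3, r12, r23, r123, ac⟩ => match d with
    | ⟨dl, ac'⟩ => band (Nat.ble 1 n) (band (Nat.beq ac ac') (allB (fun q =>
        frc (nxW dl q 0) fun a => frc (nxW dl q 10) fun b => frc (nxW dl q 20) fun c =>
          tdQ n a b c (rw m r1 q) (rw m r2 q) (rw m r3 q) (rw m r12 q) (rw m r23 q)
            (rw m r123 q)) n))

theorem TDs_of {t : TD} {nx : ℕ → ℕ → ℕ} {n : ℕ} (h : ∀ q < n, tdQ n (nx q 1) (nx q 2) (nx q 3)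
    (rw t.m t.r1 q) (rw t.m t.r2 q) (rw t.m t.r3 q) (rw t.m t.r12 q) (rw t.m t.r23 q)
    (rw t.m t.r123 q) = true) : TDs t nx n := by
  have h' : ∀ q < n, _ := fun q hq => by
    have := h q hq
    simp only [tdQ, band_eq, tb_eq, Bool.and_eq_true, bles_eq] at this
    exact this
  refine ⟨?_, ?_, ?_, ?_, ?_, ?_, ?_, ?_, ?_, ?_, ?_⟩
  · intro q hq v h1 h2
    obtain ⟨a, b, c, _⟩ := h' q hq
    have : v = 1 ∨ v = 2 ∨ v = 3 := by omega
    rcases this with rfl | rfl | rfl
    · exact a
    · exact b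
    · exact c
  · intro q hq; exact (h' q hq).2.2.2.1
  · intro q hq; exact (h' q hq).2.2.2.2.1
  · intro q hq; exact (h' q hq).2.2.2.2.2.1
  · intro q hq; exact (h' q hq).2.2.2.2.2.2.1
  · intro q hq; exact (h' q hq).2.2.2.2.2.2.2.1
  · intro q hq; exact (h' q hq).2.2.2.2.2.2.2.2.1
  · intro q hq; exact (h' q hq).2.2.2.2.2.2.2.2.2.1
  · intro q hq; exact (h' q hq).2.2.2.2.2.2.2.2.2.2.1
  · intro q hq; exact (h' q hq).2.2.2.2.2.2.2.2.2.2.2.1
  · intro q hq; exact (h' q hq).2.2.2.2.2.2.2.2.2.2.2.2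

theorem tdB_spec {M n : ℕ} {t : TD} {d : DF} (h : tdB n t d = true) (hd : d.ok M) : t.ok M := by
  obtain ⟨m, r1, r2, r3, r12, r23, r123, ac⟩ := t
  obtain ⟨dl, ac'⟩ := d
  simp only [tdB, band_eq, Bool.and_eq_true, ble_eq', beq_eq, frc_eq] at h
  obtain ⟨h1, h2, h3⟩ := h
  refine ⟨DF.nx ⟨dl, ac'⟩, n, by omega, TDs_of fun q hq => allB_spec h3 hq, ?_⟩
  intro w hw ha
  refine hd w hw ?_
  rw [← h2]
  exact ha

theorem tdW_spec {M n : ℕ} {t : TD} {d : DW} (h : tdW n t d = true) (hd : d.ok M) : t.ok M := by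
  obtain ⟨m, r1, r2, r3, r12, r23, r123, ac⟩ := t
  obtain ⟨dl, ac'⟩ := d
  simp only [tdW, band_eq, Bool.and_eq_true, ble_eq', beq_eq, frc_eq] at h
  obtain ⟨h1, h2, h3⟩ := h
  refine ⟨DW.nx ⟨dl, ac'⟩, n, by omega, TDs_of fun q hq => allB_spec h3 hq, ?_⟩
  intro w hw ha
  refine hd w hw ?_
  rw [← h2]
  exact ha

theorem TDs.row {t : TD} {nx : ℕ → ℕ → ℕ} {n : ℕ} (h : TDs t nx n) {lo hi v q : ℕ} (hq : q < n)
    (h1 : lo ≤ v) (h2 : v ≤ hi) (h3 : 1 ≤ v) (h4 : v ≤ 3) :
    (rw t.m (t.row lo hi) q).testBit (nx q v) = true := by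
  unfold TD.row
  cases e1 : Nat.beq lo hi with
  | true =>
    have e1' : lo = hi := beq_eq.1 e1
    have : v = lo := by omega
    subst this
    rw [cond_true]
    have : v = 1 ∨ v = 2 ∨ v = 3 := by omega
    rcases this with rfl | rfl | rfl
    · exact h.c1 q hq
    · exact h.c2 q hq
    · exact h.c3 q hq
  | false =>
    rw [cond_false]
    cases e2 : Nat.beq lo 2 with
    | true =>
      rw [cond_true]
      have e2' : lo = 2 := beq_eq.1 e2
      have : v = 2 ∨ v = 3 := by omega
      rcases this with rfl | rfl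
      · exact h.c232 q hq
      · exact h.c233 q hq
    | false =>
      rw [cond_false]
      cases e3 : Nat.beq hi 2 with
      | true =>
        rw [cond_true]
        have e3' : hi = 2 := beq_eq.1 e3
        have : v = 1 ∨ v = 2 := by omega
        rcases this with rfl | rfl
        · exact h.c121 q hq
        · exact h.c122 q hq
      | false =>
        rw [cond_false]
        have : v = 1 ∨ v = 2 ∨ v = 3 := by omega
        rcases this with rfl | rfl | rfl
        · exact h.c1231 q hq
        · exact h.c1232 q hq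
        · exact h.c1233 q hq

/-- a bound for the number of states -/
@[irreducible] def dfu : ℕ := 1024

/-- successors of the states of `Q`, added to `acc` -/
noncomputable def dst (f m r : ℕ) : ℕ → ℕ → (ℕ → Bool) → Bool :=
  Nat.rec (motive := fun _ => ℕ → ℕ → (ℕ → Bool) → Bool)
    (fun _ _ _ => false)
    (fun _ ih Q acc k => cond (Nat.beq Q 0) (k acc) (frc (Nat.log2 Q) fun q =>
      frc (Nat.xor Q (Nat.pow 2 q)) fun Q' => frc (Nat.lor acc (rw m r q)) fun a =>
        ih Q' a k)) f

theorem dst_spec {f m r : ℕ} : ∀ {Q acc : ℕ} {k : ℕ → Bool}, dst f m r Q acc k = true →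
    ∃ R, k R = true ∧ (∀ b, acc.testBit b = true → R.testBit b = true) ∧
      (∀ q b, Q.testBit q = true → (rw m r q).testBit b = true → R.testBit b = true) := by
  induction f with
  | zero => intro Q acc k h; exact absurd (show false = true from h) (by simp)
  | succ f ih =>
    intro Q acc k h
    have h' : cond (Nat.beq Q 0) (k acc) (dst f m r (Q ^^^ 2 ^ Nat.log2 Q)
      (acc ||| rw m r (Nat.log2 Q)) k) = true := h
    cases h0 : Nat.beq Q 0 with
    | true =>
      rw [h0] at h'
      have : Q = 0 := beq_eq.1 h0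
      subst this
      refine ⟨acc, h', fun b hb => hb, fun q b hq => ?_⟩
      rw [Nat.zero_testBit] at hq
      exact absurd hq (by simp)
    | false =>
      rw [h0, cond_false] at h'
      obtain ⟨R, r1, r2, r3⟩ := ih h'
      refine ⟨R, r1, fun b hb => r2 b (by rw [Nat.testBit_or, hb]; rfl), ?_⟩
      intro q b hq hb
      by_cases hq2 : q = Nat.log2 Q
      · subst hq2
        exact r2 b (by rw [Nat.testBit_or, hb, Bool.or_true])
      · refine r3 q b ?_ hb
        rw [Nat.testBit_xor, hq, Nat.testBit_two_pow_of_ne (Ne.symm hq2)]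
        rfl

/-- closure under the letters of a block -/
noncomputable def blkC (g m rA rB : ℕ) (f : ℕ) : ℕ → ℕ → (ℕ → ℕ → Bool) → Bool :=
  Nat.rec (motive := fun _ => ℕ → ℕ → (ℕ → ℕ → Bool) → Bool) (fun _ _ _ => false)
    (fun _ ih A B k => dst g m rA A B fun B' => dst g m rB B' A fun A' =>
      cond (band (Nat.beq A A') (Nat.beq B B')) (k A B) (ih A' B' k)) f

theorem blkC_spec {g m rA rB : ℕ} {f : ℕ} : ∀ {A B : ℕ} {k : ℕ → ℕ → Bool},
    blkC g m rA rB f A B k = true → ∃ A' B', k A' B' = true ∧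
      (∀ b, A.testBit b = true → A'.testBit b = true) ∧
      (∀ q b, A'.testBit q = true → (rw m rA q).testBit b = true → B'.testBit b = true) ∧
      (∀ q b, B'.testBit q = true → (rw m rB q).testBit b = true → A'.testBit b = true) := by
  induction f with
  | zero => intro A B k h; exact absurd (show false = true from h) (by simp)
  | succ f ih =>
    intro A B k h
    have h' : dst g m rA A B (fun B' => dst g m rB B' A fun A' =>
      cond (band (Nat.beq A A') (Nat.beq B B')) (k A B) (blkC g m rA rB f A' B' k)) = true := h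
    obtain ⟨B', b1, b2, b3⟩ := dst_spec h'
    obtain ⟨A', a1, a2, a3⟩ := dst_spec b1
    cases e : band (Nat.beq A A') (Nat.beq B B') with
    | true =>
      rw [e, cond_true] at a1
      rw [band_eq, Bool.and_eq_true, beq_eq, beq_eq] at e
      obtain ⟨rfl, rfl⟩ := e
      exact ⟨A, B, a1, fun b hb => hb, b3, a3⟩
    | false =>
      rw [e, cond_false] at a1
      obtain ⟨A2, B2, c1, c2, c3, c4⟩ := ih a1
      exact ⟨A2, B2, c1, fun b hb => c2 b (a2 b hb), c3, c4⟩

/-- the gap after an entry with parity `e` and block `b` -/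
noncomputable def gapT (g : ℕ) (t : TD) (e b : ℕ) (s : List PE) (Q : ℕ) (k : ℕ → Bool) : Bool :=
  match s with
  | [] => false
  | ⟨e', _, _, _⟩ :: _ => cond (Nat.beq b 0) (k Q) (frc (Nat.sub 1 e) fun pe =>
      frc (lvB b pe) fun va => frc (lvB b e) fun vb =>
        t.sel 1 va fun m rA => t.sel 1 vb fun _ rB =>
          blkC g m rA rB g Q 0 fun A B => cond (Nat.beq e' pe) (k A) (k B))

/-- the automaton accepts all words with the pattern, from the entries `s` and the states `Q` on -/
noncomputable def tplS (g : ℕ) (t : TD) (s : List PE) : ℕ → Bool :=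
  List.rec (motive := fun _ => ℕ → Bool) (fun _ => false)
    (fun x s' ih Q => match x with
      | ⟨e, lo, hi, b⟩ => match s' with
        | [] => false
        | ⟨e', lo', hi', b'⟩ :: s'' => match s'' with
          | [] => band (Nat.beq b 0) (band (Nat.beq b' 0) (match t with
            | ⟨_, _, _, _, _, _, _, ac⟩ => Nat.beq (Nat.land Q ac) Q))
          | z :: s3 => t.sel lo hi fun m r => dst g m r Q 0 fun Q1 =>
              gapT g t e b (⟨e', lo', hi', b'⟩ :: z :: s3) Q1 ih) s

/-- the automaton accepts all words with the pattern -/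
noncomputable def tplP (g : ℕ) (t : TD) (p : List PE) : Bool :=
  match p with
  | [] => false
  | ⟨_, _, _, b0⟩ :: p' => match p' with
    | [] => false
    | ⟨_, _, _, b⟩ :: s => band (Nat.beq b0 0) (match s with
      | [] => false
      | x :: s' => match s' with
        | [] => false
        | y :: s'' => gapT g t 1 b (x :: y :: s'') 1 fun Q => tplS g t (x :: y :: s'') Q)

section tpl

variable {w : List ℕ} {nx : ℕ → ℕ → ℕ} {n : ℕ} {t : TD}

/-- the state before the letter `i` of the word with the core `w` -/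
def rho (nx : ℕ → ℕ → ℕ) (w : List ℕ) (i : ℕ) : ℕ := (w.take (i - 2)).foldl nx 0

theorem rho_succ {i : ℕ} (h1 : 2 ≤ i) (h2 : i < w.length + 2) :
    rho nx w (i + 1) = nx (rho nx w i) ((cw w).getD i 0) := by
  unfold rho
  rw [show i + 1 - 2 = (i - 2) + 1 from by omega, List.take_add_one,
    List.getElem?_eq_getElem (by omega), List.foldl_append, cw_getD_two h1 h2,
    List.getD_eq_getElem _ _ (by omega)]
  rfl

theorem cw_letter (hw : ∀ x ∈ w, 1 ≤ x ∧ x ≤ 3) {i : ℕ} (h1 : 2 ≤ i) (h2 : i < w.length + 2) :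
    1 ≤ (cw w).getD i 0 ∧ (cw w).getD i 0 ≤ 3 := by
  rw [cw_getD_two h1 h2, List.getD_eq_getElem _ _ (by omega)]
  exact hw _ (List.getElem_mem _)

theorem rho_lt (hn : 0 < n) (ht : TDs t nx n) (hw : ∀ x ∈ w, 1 ≤ x ∧ x ≤ 3) (i : ℕ) :
    rho nx w i < n := by
  unfold rho
  have key : ∀ l : List ℕ, (∀ x ∈ l, 1 ≤ x ∧ x ≤ 3) → ∀ q < n, l.foldl nx q < n := by
    intro l
    induction l with
    | nil => intro _ q hq; exact hq
    | cons a l ih =>
      intro hl q hq
      exact ih (fun x hx => hl x (by simp [hx])) _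
        (ht.lt q hq a (hl a (by simp)).1 (hl a (by simp)).2)
  exact key _ (fun x hx => hw x (List.mem_of_mem_take hx)) 0 hn

theorem gapT_spec (hn : 0 < n) (ht : TDs t nx n) (hw : ∀ x ∈ w, 1 ≤ x ∧ x ≤ 3) {g e b i Q : ℕ}
    {s : List PE} {k : ℕ → Bool} (hi : 1 ≤ i) (he : i % 2 = e)
    (hs : ∀ j, Mt (cw w) s j → j + 2 ≤ (cw w).length)
    (hQ : Q.testBit (rho nx w (i + 1)) = true) (h : gapT g t e b s Q k = true)
    (hg : Gap (cw w) b i (Mt (cw w) s)) :
    ∃ j Q', k Q' = true ∧ i < j ∧ Mt (cw w) s j ∧ Q'.testBit (rho nx w j) = true := by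
  rcases s with _ | ⟨⟨e', lo', hi', b'⟩, s'⟩
  · exact absurd (show false = true from h) (by simp)
  · have h' : cond (Nat.beq b 0) (k Q) (blkC g t.m (t.row 1 (lvB b (1 - e))) (t.row 1 (lvB b e)) g Q
      0 fun A B => cond (Nat.beq e' (1 - e)) (k A) (k B)) = true := h
    rcases hg with ⟨hb, hg⟩ | ⟨hb, j, g1, g2, g3⟩
    · rw [hb] at h'
      exact ⟨i + 1, Q, h', by omega, hg, hQ⟩
    · rw [beq_ff.2 hb, cond_false] at h'
      obtain ⟨A, B, k1, k2, k3, k4⟩ := blkC_spec h'
      have hj := hs j g3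
      rw [cw_length] at hj
      have hj2 := g3.2.1
      simp only at hj2
      have inv : ∀ d, i + 1 + d ≤ j → (if d % 2 = 0 then A else B).testBit
          (rho nx w (i + 1 + d)) = true := by
        intro d
        induction d with
        | zero => intro _; rw [if_pos rfl]; exact k2 _ hQ
        | succ d ih =>
          intro hd
          have h1 := ih (by omega)
          have h2 := g2 (i + 1 + d) (by omega) (by omega)
          have h3 := cw_letter hw (i := i + 1 + d) (by omega) (by omega)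
          rw [show i + 1 + (d + 1) = i + 1 + d + 1 from by omega,
            rho_succ (by omega) (by omega)]
          have hlt := rho_lt hn ht hw (i + 1 + d)
          rcases Nat.mod_two_eq_zero_or_one d with hp | hp
          · rw [if_pos hp] at h1
            rw [if_neg (by omega)]
            refine k3 _ _ h1 (ht.row hlt h3.1 ?_ h3.1 h3.2)
            rw [lvB_eq (m := i + 1 + d) (by omega)]
            exact h2.2
          · rw [if_neg (by omega)] at h1
            rw [if_pos (by omega)]
            refine k4 _ _ h1 (ht.row hlt h3.1 ?_ h3.1 h3.2)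
            rw [lvB_eq (m := i + 1 + d) (by omega)]
            exact h2.2
      have h5 := inv (j - (i + 1)) (by omega)
      rw [show i + 1 + (j - (i + 1)) = j from by omega] at h5
      cases h6 : Nat.beq e' (1 - e) with
      | true =>
        have h6' : e' = 1 - e := beq_eq.1 h6
        rw [h6, cond_true] at k1
        rw [if_pos (by omega)] at h5
        exact ⟨j, A, k1, g1, g3, h5⟩
      | false =>
        have h6' : e' ≠ 1 - e := beq_ff.1 h6
        rw [h6, cond_false] at k1
        rw [if_neg (by omega)] at h5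
        exact ⟨j, B, k1, g1, g3, h5⟩

theorem Mt_two {u : List ℕ} {x y : PE} {s : List PE} {j : ℕ} (h : Mt u (x :: y :: s) j) :
    j + 2 ≤ u.length := by
  rw [Mt_cons] at h
  obtain ⟨_, _, _, _, h⟩ := h
  rcases h with ⟨_, h⟩ | ⟨_, j', h1, _, h⟩
  · have := h.1; omega
  · have := h.1; omega

theorem tplS_spec {g : ℕ} (hn : 0 < n) (ht : TDs t nx n) (hw : ∀ x ∈ w, 1 ≤ x ∧ x ≤ 3) (s : List PE) :
    ∀ {Q i : ℕ}, tplS g t s Q = true → 2 ≤ i → Mt (cw w) s i → Q.testBit (rho nx w i) = true →
      t.ac.testBit (w.foldl nx 0) = true := by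
  induction s with
  | nil => intro Q i h; exact absurd (show false = true from h) (by simp)
  | cons x s ih =>
    intro Q i h hi hm hQ
    obtain ⟨e, lo, hii, b⟩ := x
    rcases s with _ | ⟨⟨e', lo', hi', b'⟩, _ | ⟨z, s3⟩⟩
    · exact absurd (show false = true from h) (by simp)
    · obtain ⟨m0, r1, r2, r3, r12, r23, r123, ac⟩ := t
      have h' : band (Nat.beq b 0) (band (Nat.beq b' 0) (Nat.beq (Nat.land Q ac) Q)) = true := h
      rw [band_eq, Bool.and_eq_true, band_eq, Bool.and_eq_true, beq_eq, beq_eq, beq_eq] at h'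
      obtain ⟨rfl, rfl, h3⟩ := h'
      obtain ⟨m1, m2, m3, m4, m5⟩ := hm
      rcases m5 with ⟨_, m5⟩ | ⟨m5, _⟩
      · obtain ⟨n1, n2, n3, n4, n5⟩ := m5
        rcases n5 with ⟨_, n5⟩ | ⟨n5, _⟩
        · have h5 : i + 1 + 1 = (cw w).length := n5
          rw [cw_length] at h5
          have h6 : rho nx w i = w.foldl nx 0 := by
            unfold rho
            rw [List.take_of_length_le (by omega)]
          rw [h6] at hQ
          have h7 : (Q &&& ac).testBit (w.foldl nx 0) = true := by
            have h3' : Q &&& ac = Q := h3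
            rw [h3']; exact hQ
          rw [Nat.testBit_and, Bool.and_eq_true] at h7
          exact h7.2
        · exact absurd rfl n5
      · exact absurd rfl m5
    · have h' : dst g t.m (t.row lo hii) Q 0 (fun Q1 =>
        gapT g t e b (⟨e', lo', hi', b'⟩ :: z :: s3) Q1 (tplS g t (⟨e', lo', hi', b'⟩ :: z :: s3)))
        = true := h
      obtain ⟨R, q1, _, q3⟩ := dst_spec h'
      rw [Mt_cons] at hm
      obtain ⟨m1, m2, m3, m4, m5⟩ := hm
      have hlen : i + 2 < (cw w).length := by
        rcases m5 with ⟨_, m5⟩ | ⟨_, j, m6, _, m5⟩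
        · have := Mt_two m5; omega
        · have := Mt_two m5; omega
      rw [cw_length] at hlen
      have h3 := cw_letter hw (i := i) hi (by omega)
      have h4 : R.testBit (rho nx w (i + 1)) = true := by
        rw [rho_succ hi (by omega)]
        exact q3 _ _ hQ (ht.row (rho_lt hn ht hw i) m3 m4 h3.1 h3.2)
      obtain ⟨j, Q', k1, k2, k3, k4⟩ := gapT_spec hn ht hw (by omega) m2
        (fun j hj => Mt_two hj) h4 q1 m5
      exact ih k1 (by omega) k3 k4

theorem tplP_spec {g : ℕ} (hn : 0 < n) (ht : TDs t nx n) (hw : ∀ x ∈ w, 1 ≤ x ∧ x ≤ 3) {p : List PE}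
    (h : tplP g t p = true) (hm : Mt (cw w) p 0) : t.ac.testBit (w.foldl nx 0) = true := by
  rcases p with _ | ⟨⟨e0, l0, h0, b0⟩, _ | ⟨⟨e1, l1, h1, b⟩, _ | ⟨x, _ | ⟨y, s⟩⟩⟩⟩
  · exact absurd (show false = true from h) (by simp)
  · exact absurd (show false = true from h) (by simp)
  · have h' : band (Nat.beq b0 0) false = true := h
    rw [band_eq, Bool.and_false] at h'
    exact absurd h' (by simp)
  · have h' : band (Nat.beq b0 0) false = true := h
    rw [band_eq, Bool.and_false] at h'
    exact absurd h' (by simp)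
  · have h' : band (Nat.beq b0 0) (gapT g t 1 b (x :: y :: s) 1 fun Q => tplS g t (x :: y :: s) Q)
      = true := h
    rw [band_eq, Bool.and_eq_true, beq_eq] at h'
    obtain ⟨rfl, h2⟩ := h'
    rw [Mt_cons] at hm
    obtain ⟨m1, m2, m3, m4, m5⟩ := hm
    rcases m5 with ⟨_, m5⟩ | ⟨m5, _⟩
    · rw [Mt_cons] at m5
      obtain ⟨n1, n2, n3, n4, n5⟩ := m5
      obtain ⟨j, Q', k1, k2, k3, k4⟩ := gapT_spec (i := 1) hn ht hw (by omega) rfl
        (fun j hj => Mt_two hj) (by
          show (1 : ℕ).testBit ((w.take 0).foldl nx 0) = true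
          rw [List.take_zero, List.foldl_nil]
          decide) h2 n5
      exact tplS_spec hn ht hw _ k1 (by omega) k3 k4
    · exact absurd rfl m5

theorem TD.ok.pok {g M : ℕ} {t : TD} (ht : t.ok M) {p : List PE} (h : tplP g t p = true) : POK M p := by
  obtain ⟨nx, n, h1, h2, h3⟩ := ht
  intro w hw hm
  exact h3 w hw (tplP_spec h1 h2 hw h hm)

end tpl

/-! ## trees -/

/-- decision trees: a path, a template, a known pattern, or a rule with one, two or three children -/
inductive XT where
  | lp (path : ℕ)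
  | lt (k : ℕ)
  | rf (k : ℕ)
  | s1 (c : ℕ) (a : XT)
  | s2 (c : ℕ) (a b : XT)
  | s3 (c : ℕ) (a b d : XT)

/-- a rule: `c = 64 * kind + position` -/
noncomputable def app (c : ℕ) (p : List PE) (K : KC) : Bool :=
  frc (Nat.div c 64) fun kd => frc (Nat.succ (Nat.mod c 64)) fun n => walk n kd p K

/-- the checker -/
noncomputable def chkT (K0 : ℕ) (tp : BT TD) (ps : BT (List PE)) (t : XT) : List PE → Bool :=
  XT.rec (motive := fun _ => List PE → Bool)
    (fun path p => chkPN K0 path p)
    (fun k p => tplP dfu (tp.get k) p)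
    (fun k p => eqP p (ps.get k))
    (fun c _ a p => app c p fun j s => match j with
      | 0 => a s
      | _ + 1 => false)
    (fun c _ _ a b p => app c p fun j s => match j with
      | 0 => a s
      | 1 => b s
      | _ + 2 => false)
    (fun c _ _ _ a b d p => app c p fun j s => match j with
      | 0 => a s
      | 1 => b s
      | 2 => d s
      | _ + 3 => false) t

theorem app_spec {u : List ℕ} {c i : ℕ} {p : List PE} {K : KC} (h : app c p K = true)
    (hm : Mt u p i) : ∃ j s, K j s = true ∧ Mt u s i := by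
  have h' : walk (Nat.succ (c % 64)) (c / 64) p K = true := h
  exact walk_spec h' hm

theorem chkT_spec {K0 M : ℕ} {tp : BT TD} {ps : BT (List PE)} (hK : 2 * K0 + 1 ≤ M)
    (htp : ∀ k, (tp.get k).ok M) (hps : ∀ k, POK M (ps.get k)) (t : XT) :
    ∀ {p : List PE}, chkT K0 tp ps t p = true → POK M p := by
  induction t with
  | lp path => intro p h; exact (chkPN_spec h).mono hK
  | lt k => intro p h; exact (htp k).pok h
  | rf k =>
    intro p h
    have : p = ps.get k := eqP_spec h
    rw [this]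
    exact hps k
  | s1 c a iha =>
    intro p h w hw hm
    have h' : app c p (fun j s => match j with
      | 0 => chkT K0 tp ps a s
      | _ + 1 => false) = true := h
    obtain ⟨j, s, k1, k2⟩ := app_spec h' hm
    rcases j with _ | j
    · exact iha k1 w hw k2
    · exact absurd k1 (by simp)
  | s2 c a b iha ihb =>
    intro p h w hw hm
    have h' : app c p (fun j s => match j with
      | 0 => chkT K0 tp ps a s
      | 1 => chkT K0 tp ps b s
      | _ + 2 => false) = true := h
    obtain ⟨j, s, k1, k2⟩ := app_spec h' hm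
    rcases j with _ | _ | j
    · exact iha k1 w hw k2
    · exact ihb k1 w hw k2
    · exact absurd k1 (by simp)
  | s3 c a b d iha ihb ihd =>
    intro p h w hw hm
    have h' : app c p (fun j s => match j with
      | 0 => chkT K0 tp ps a s
      | 1 => chkT K0 tp ps b s
      | 2 => chkT K0 tp ps d s
      | _ + 3 => false) = true := h
    obtain ⟨j, s, k1, k2⟩ := app_spec h' hm
    rcases j with _ | _ | _ | j
    · exact iha k1 w hw k2
    · exact ihb k1 w hw k2
    · exact ihd k1 w hw k2
    · exact absurd k1 (by simp)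

/-- the checker for a pattern which is not in normal form -/
noncomputable def chkX (K0 : ℕ) (tp : BT TD) (ps : BT (List PE)) (t : XT) (p : List PE) : Bool :=
  nrmP p (chkT K0 tp ps t)

theorem chkX_spec {K0 M : ℕ} {tp : BT TD} {ps : BT (List PE)} {t : XT} {p : List PE}
    (h : chkX K0 tp ps t p = true) (hK : 2 * K0 + 1 ≤ M)
    (htp : ∀ k, (tp.get k).ok M) (hps : ∀ k, POK M (ps.get k)) : POK M p := by
  unfold chkX at h
  rw [nrmP_eq] at h
  exact chkT_spec hK htp hps t h

/-- no words have the empty pattern -/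
theorem POK_nil (M : ℕ) : POK M [] := by
  intro w _ hm
  have : 0 = (cw w).length := hm
  rw [cw_length] at this
  omega

/-- an automaton without accepted words -/
def tdE : TD := ⟨1, 1, 1, 1, 1, 1, 1, 0⟩

theorem tdE_ok (M : ℕ) : tdE.ok M := by
  refine ⟨fun _ _ => 0, 1, by norm_num, ?_, ?_⟩
  · constructor
    · intro q _ v _ _
      norm_num
    all_goals
      intro q hq
      have : q = 0 := by omega
      subst this
      decide
  · intro w _ h
    have h' : (0 : ℕ).testBit (w.foldl (fun _ _ => 0) 0) = true := h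
    rw [Nat.zero_testBit] at h'
    exact absurd h' (by simp)

/-- no known patterns -/
def noP : BT (List PE) := .leaf []

theorem noP_ok (M k : ℕ) : POK M (noP.get k) := POK_nil M

/-! ## the root -/

theorem Mt_root {w : List ℕ} (hw : ∀ x ∈ w, 1 ≤ x ∧ x ≤ 3) (ho : w.length % 2 = 1) :
    Mt (cw w) rootP 0 := by
  have hl := cw_length w
  refine ⟨by omega, rfl, ?_, ?_, Or.inl ⟨rfl, by omega, rfl, ?_, ?_, Or.inr ⟨by norm_num,
    w.length + 2, by omega, ?_, by omega, by show (w.length + 2) % 2 = 1; omega, ?_, ?_,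
    Or.inl ⟨rfl, by omega, by show (w.length + 2 + 1) % 2 = 0; omega, ?_, ?_,
      Or.inl ⟨rfl, by show w.length + 2 + 1 + 1 = _; omega⟩⟩⟩⟩⟩
  · rw [cw_getD_four (by omega) (by omega)]
  · rw [cw_getD_four (by omega) (by omega)]
  · rw [cw_getD_four (by omega) (by omega)]
  · rw [cw_getD_four (by omega) (by omega)]
  · intro m h1 h2
    have h3 := cw_letter hw (i := m) (by omega) h2
    refine ⟨h3.1, ?_⟩
    have : blv 15 m = 3 := by
      unfold blv
      split_ifs <;> rfl
    show _ ≤ blv 15 m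
    rw [this]
    exact h3.2
  · rw [cw_getD_four (by omega) (by omega)]
  · rw [cw_getD_four (by omega) (by omega)]
  · rw [cw_getD_four (by omega) (by omega)]
  · rw [cw_getD_four (by omega) (by omega)]

/-- **Three levels, from a decision tree of patterns.** -/
theorem TT3_of_root {M : ℕ} (h : POK M rootP) : TT 3 :=
  TT_of_self (self3_of (M1 := M) (M2 := 8) (fun w hw ho => h w hw (Mt_root hw ho))
    (fun u hv he => even_self 3 u hv he))

end MPb6P
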