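import Pool.Agent.Lib.MP_b6d339_lc.Pos.TQ4

/-!
# Erdős 592, positive side: soundness of packed templates
-/

namespace MPb6P

theorem wvalid_of {M : ℕ} {C : CT} (hrole : ∀ R : Fin 3, RoleP M (C.rl R) R.1 C.prom)
    (hcom : ∀ R R', R ≠ R' → ∀ l, (C.rl R).kd l ≠ 0 → (C.rl R').kd l ≠ 0 →
      ComP R R' (C.rl R) (C.rl R') l)
    (htim : ∀ R e, e < 2 → ∀ l, (C.rl R).kd l ≠ 0 → ((C.rl R).kd l = 1 → e = (C.rl R).pi l) →
      TimP (C.rl R) (C.rl (oth R e).1) (oth R e).2 l)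
    (hr : ∀ h ∈ C.prom, h.r < 3) : WValid M C.toW := by
  have hkd : ∀ R l, C.toW.kd R l = (C.rl R).kd l := fun R l => rfl
  have hpi : ∀ R l, C.toW.pi R l = (C.rl R).pi l := fun R l => rfl
  have hl1 : ∀ R, C.toW.l1 R = (C.rl R).l1 := fun R => rfl
  have hl2 : ∀ R, C.toW.l2 R = (C.rl R).l2 := fun R => rfl
  have hM : ∀ R l, (C.rl R).kd l ≠ 0 → l ≤ M := by
    intro R l hl
    have u := kd_ne hl
    have h2 := (hrole R).bd
    by_contra hcon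
    have h3 : (C.rl R).us < 2 ^ l := lt_of_lt_of_le h2 (Nat.pow_le_pow_right (by norm_num) (by omega))
    rw [Nat.testBit_lt_two_pow h3] at u
    exact absurd u (by decide)
  refine ⟨?_, ?_, ?_, ?_, ?_, ?_, ?_, ?_⟩
  · intro R
    rw [hkd]
    unfold CRole.kd
    rw [(hrole R).zero]
    rfl
  · intro R l hl
    exact hM R l hl
  · intro R l hl
    rw [hkd] at hl
    obtain ⟨u1, u2⟩ := kd_one.1 hl
    have h3 := (hrole R).cut l u1 u2
    rw [hpi]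
    unfold CRole.pi
    rcases hA : (C.rl R).a0.testBit l with _ | _ <;> rcases hB : (C.rl R).a1.testBit l with _ | _ <;>
      rw [hA, hB] at h3 <;> simp_all
  · intro R R' hne l h1 h2
    exact hcom R R' hne l h1 h2
  · intro R l hl e he hce
    exact htim R e he l hl hce
  · intro R
    exact ⟨(hrole R).lt, (hrole R).k1, (hrole R).k2⟩
  · intro h hh hf R hR
    obtain ⟨c1, c2, c3, c4⟩ := (hrole R).prk h hh hf hR
    refine ⟨c1, ?_, c3, ?_⟩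
    · rw [hkd]
      unfold CRole.kd
      rw [c2]
      rfl
    · rw [hpi, hl1, hl2]
      exact c4
  · intro h hh
    exact hr h hh

/-- the label template of a certificate -/
noncomputable def ctQ (ca pa cb pb cc pc : ℕ) : CT :=
  ⟨crQ ca, crQ cb, crQ cc, prQ 0 pa ++ prQ 1 pb ++ prQ 2 pc⟩

theorem pwQ_r (r p k : ℕ) : (pwQ r p k).r = r := rfl

theorem ctQ_mem {ca pa cb pb cc pc : ℕ} {h : WProm} :
    h ∈ (ctQ ca pa cb pb cc pc).prom ↔ h ∈ prQ 0 pa ∨ h ∈ prQ 1 pb ∨ h ∈ prQ 2 pc := by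
  show h ∈ prQ 0 pa ++ prQ 1 pb ++ prQ 2 pc ↔ _
  rw [List.mem_append, List.mem_append, or_assoc]

theorem rod_ok {ca pa cb pb cc pc : ℕ} (h0 : pnQ pa ≤ 32) (h1 : pnQ pb ≤ 32) (h2 : pnQ pc ≤ 32) :
    RoD (ctQ ca pa cb pb cc pc) 0 pa ∧ RoD (ctQ ca pa cb pb cc pc) 1 pb ∧
      RoD (ctQ ca pa cb pb cc pc) 2 pc := by
  refine ⟨⟨h0, ?_, ?_⟩, ⟨h1, ?_, ?_⟩, ⟨h2, ?_, ?_⟩⟩
  · intro h hh hr
    rcases ctQ_mem.1 hh with h3 | h3 | h3
    · exact prQ_mem.1 h3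
    · obtain ⟨k, -, rfl⟩ := prQ_mem.1 h3
      exact absurd hr (by rw [pwQ_r]; decide)
    · obtain ⟨k, -, rfl⟩ := prQ_mem.1 h3
      exact absurd hr (by rw [pwQ_r]; decide)
  · intro k hk
    exact ctQ_mem.2 (Or.inl (prQ_mem.2 ⟨k, hk, rfl⟩))
  · intro h hh hr
    rcases ctQ_mem.1 hh with h3 | h3 | h3
    · obtain ⟨k, -, rfl⟩ := prQ_mem.1 h3
      exact absurd hr (by rw [pwQ_r]; decide)
    · exact prQ_mem.1 h3
    · obtain ⟨k, -, rfl⟩ := prQ_mem.1 h3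
      exact absurd hr (by rw [pwQ_r]; decide)
  · intro k hk
    exact ctQ_mem.2 (Or.inr (Or.inl (prQ_mem.2 ⟨k, hk, rfl⟩)))
  · intro h hh hr
    rcases ctQ_mem.1 hh with h3 | h3 | h3
    · obtain ⟨k, -, rfl⟩ := prQ_mem.1 h3
      exact absurd hr (by rw [pwQ_r]; decide)
    · obtain ⟨k, -, rfl⟩ := prQ_mem.1 h3
      exact absurd hr (by rw [pwQ_r]; decide)
    · exact prQ_mem.1 h3
  · intro k hk
    exact ctQ_mem.2 (Or.inr (Or.inr (prQ_mem.2 ⟨k, hk, rfl⟩)))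

theorem roQ_spec {c p : ℕ}
    {k : ℕ → ℕ → ℕ → ℕ → ℕ → ℕ → ℕ → ℕ → ℕ → ℕ → ℕ → ℕ → ℕ → Bool} (h : roQ c p k = true) :
    pnQ p ≤ 32 ∧ vrQ (crQ c).us (crQ c).ct (crQ c).a0 (crQ c).a1 (crQ c).l1 (crQ c).l2 (pnQ p) (pfQ p)
      (peQ p) (ppQ p) = true ∧
      k (crQ c).us (crQ c).ct (crQ c).a0 (crQ c).a1 (crQ c).l1 (crQ c).l2 (pfQ p)
        (Nat.sub (Nat.pow 2 (pfQ p)) 1) (mkQ 0 p) (mkQ 1 p) (psQ p) (plQ p) (pgQ p) = true := by
  have h' : band (Nat.ble (pnQ p) 32) (band (vrQ (crQ c).us (crQ c).ct (crQ c).a0 (crQ c).a1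
      (crQ c).l1 (crQ c).l2 (pnQ p) (pfQ p) (peQ p) (ppQ p))
      (k (crQ c).us (crQ c).ct (crQ c).a0 (crQ c).a1 (crQ c).l1 (crQ c).l2 (pfQ p)
        (Nat.sub (Nat.pow 2 (pfQ p)) 1) (pdQ p) (peQ p) (psQ p) (plQ p) (pgQ p))) = true := h
  rw [band_eq, band_eq, Bool.and_eq_true, Bool.and_eq_true] at h'
  exact ⟨ble_eq'.1 h'.1, h'.2.1, h'.2.2⟩

/-- the bound of labels for one core word -/
theorem lab_of_roles {M : ℕ} {C : CT} (hv : WValid M C.toW) {w : List ℕ}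
    (h : ∀ R, ∃ s, RP C R ([4, 4] ++ w ++ [4, 4]) s ∧ RAcc C R s) : Lab3 M w := by
  intro hval
  have hu : 2 ≤ (cw w).length := hval.1
  have hlab : ∀ R, ∃ lab : ℕ → ℕ, WLab 3 C.toW (cw w) R lab := by
    intro R
    obtain ⟨s, a, b⟩ := h R
    exact wlab_of_RP hu a b
  choose lab hlab using hlab
  exact ⟨lab, self_of_wlab hv hval hlab⟩

theorem l64 (c i : ℕ) : Nat.mod (Nat.shiftRight c i) 64 < 64 := Nat.mod_lt _ (by norm_num)

/-- **soundness of packed template certificates** -/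
theorem tqOK_spec {M : ℕ} (hM : 63 ≤ M) {T : TQ} (h : tqOK T = true) : T.df.ok M := by
  obtain ⟨⟨ca, pa, sa, ta0, ta1, pa0, pa1, qa0, qa1⟩, ⟨cb, pb, sb, tb0, tb1, pb0, pb1, qb0, qb1⟩,
    ⟨cc, pc, sc, tc0, tc1, pc0, pc1, qc0, qc1⟩, ⟨dl, ac⟩⟩ := T
  unfold tqOK tqC at h
  dsimp only at h
  obtain ⟨n0, v0, h⟩ := roQ_spec h
  obtain ⟨n1, v1, h⟩ := roQ_spec h
  obtain ⟨n2, v2, h⟩ := roQ_spec h
  obtain ⟨R0, R1, R2⟩ := rod_ok (ca := ca) (cb := cb) (cc := cc) n0 n1 n2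
  set C : CT := ctQ ca pa cb pb cc pc with hCdef
  rw [band_eq, band_eq, band_eq, Bool.and_eq_true, Bool.and_eq_true, Bool.and_eq_true] at h
  obtain ⟨hm, r0, r1, r2⟩ := h
  obtain ⟨m1, hm⟩ := lor_zero (beq_eq.1 hm)
  obtain ⟨m2, hm⟩ := lor_zero hm
  obtain ⟨m3, hm⟩ := lor_zero hm
  obtain ⟨m4, hm⟩ := lor_zero hm
  obtain ⟨m5, hm⟩ := lor_zero hm
  obtain ⟨m6, hm⟩ := lor_zero hm
  obtain ⟨m7, hm⟩ := lor_zero hm
  obtain ⟨m8, m9⟩ := lor_zero hm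
  have hv : WValid M C.toW := by
    apply wvalid_of
    · intro R
      fin_cases R
      · exact vrQ_spec hM R0 v0
      · exact vrQ_spec hM R1 v1
      · exact vrQ_spec hM R2 v2
    · intro R R' hne l h1 h2
      fin_cases R <;> fin_cases R'
      · exact absurd rfl hne
      · exact com_AB m1 h1 h2
      · exact com_AC m2 h1 h2
      · exact (com_AB m1 h2 h1).symm
      · exact absurd rfl hne
      · exact com_BC m3 h1 h2
      · exact (com_AC m2 h2 h1).symm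
      · exact (com_BC m3 h2 h1).symm
      · exact absurd rfl hne
    · intro R e he l h1 h2
      have h3 : e = 0 ∨ e = 1 := by omega
      fin_cases R <;> rcases h3 with rfl | rfl
      · exact t0Q_spec (s0Q_bit h1 h2) m4
      · exact t0Q_spec (s1Q_bit h1 h2) m5
      · exact t0Q_spec (s0Q_bit h1 h2) m6
      · exact t1Q_spec (s1Q_bit h1 h2) m7
      · exact t1Q_spec (s0Q_bit h1 h2) m8
      · exact t1Q_spec (s1Q_bit h1 h2) m9
    · intro q hq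
      rcases ctQ_mem.1 hq with h3 | h3 | h3 <;> obtain ⟨k, -, rfl⟩ := prQ_mem.1 h3 <;>
        rw [pwQ_r] <;> norm_num
  intro w hw ha
  apply lab_of_roles hv
  intro R
  fin_cases R
  · exact rlQ_spec (R := 0) (by norm_num) (R0.step (by norm_num) (by norm_num) rfl R1)
      (R0.step (by norm_num) (by norm_num) rfl R2) r0 rfl rfl (l64 ca 256) (l64 ca 262)
      (fun g hg => R0.flags hg) w hw ha
  · exact rlQ_spec (R := 1) (by norm_num) (R1.step (by norm_num) (by norm_num) rfl R0)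
      (R1.step (by norm_num) (by norm_num) rfl R2) r1 rfl rfl (l64 cb 256) (l64 cb 262)
      (fun g hg => R1.flags hg) w hw ha
  · exact rlQ_spec (R := 2) (by norm_num) (R2.step (by norm_num) (by norm_num) rfl R0)
      (R2.step (by norm_num) (by norm_num) rfl R1) r2 rfl rfl (l64 cc 256) (l64 cc 262)
      (fun g hg => R2.flags hg) w hw ha

end MPb6P
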