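import Pool.Agent.Lib.MP_b6d339_lc.Pos.YFin
import Pool.Agent.Lib.MP_b6d339_lc.Pos.TQ5

/-!
# Erdős 592, positive side: items of packed templates
-/

namespace MPb6P

theorem iqf {b n : ℕ} {t : TQ} (h : tqOK t = true) : (Itm.fwd b n t.df).ok 206 :=
  tqOK_spec (M := 206) (by norm_num) h

theorem iqb {b n : ℕ} {t : TQ} (h : tqOK t = true) : (Itm.bwd b n t.df).ok 206 :=
  ⟨99, tqOK_spec (M := 99) (by norm_num) h, by norm_num⟩

theorem iqfM {M b n : ℕ} {t : TQ} (hM : 206 ≤ M) (h : tqOK t = true) :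
    (Itm.fwd b n t.df).ok M :=
  tqOK_spec (M := M) (by omega) h

theorem iqbM {M b n : ℕ} {t : TQ} (hM : 206 ≤ M) (h : tqOK t = true) :
    (Itm.bwd b n t.df).ok M :=
  ⟨99, tqOK_spec (M := 99) (by norm_num) h, by omega⟩

end MPb6P
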