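import Pool.Agent.Lib.MP_b6d339_lc.Pos.Defs

/-!
# Erdős 592, positive side: the embedding of the physical elements
-/

open Filter Ordinal

namespace MPb6P

theorem d1_rkL_replicate (a l : ℕ) (r : List ℕ) :
    rkL (List.replicate a l ++ r) = rkL r + ω ^ (l : Ordinal.{0}) * (a : Ordinal.{0}) := by
  induction a with
  | zero =>
    rw [List.replicate_zero, List.nil_append, Nat.cast_zero, mul_zero, add_zero]
  | succ a ih =>
    rw [List.replicate_succ, List.cons_append]
    change rkL (List.replicate a l ++ r) + ω ^ (l : Ordinal.{0}) = _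
    rw [ih, Nat.cast_succ, mul_add, mul_one, add_assoc]

theorem d1_rkL_pstep_mono (L : List ℕ) {a b : ℕ} (hab : a ≤ b) :
    rkL (pstep L a) ≤ rkL (pstep L b) := by
  rcases L with _ | ⟨l, r⟩
  · exact le_rfl
  · rcases l with _ | l
    · exact le_rfl
    · change rkL (List.replicate a l ++ r) ≤ rkL (List.replicate b l ++ r)
      rw [d1_rkL_replicate, d1_rkL_replicate]
      have h : (a : Ordinal.{0}) ≤ (b : Ordinal.{0}) := Nat.cast_le.2 hab
      gcongr

theorem d1_rkL_pstep_lt {L : List ℕ} (hL : L ≠ []) (a : ℕ) : rkL (pstep L a) < rkL L := by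
  rcases L with _ | ⟨l, r⟩
  · exact absurd rfl hL
  · rcases l with _ | l
    · change rkL r < rkL r + ω ^ ((0 : ℕ) : Ordinal.{0})
      rw [Nat.cast_zero, opow_zero]
      exact lt_add_of_pos_right _ zero_lt_one
    · change rkL (List.replicate a l ++ r) < rkL r + ω ^ ((l + 1 : ℕ) : Ordinal.{0})
      rw [d1_rkL_replicate]
      have h1 : ω ^ (l : Ordinal.{0}) * (a : Ordinal.{0}) < ω ^ ((l + 1 : ℕ) : Ordinal.{0}) := by
        have h2 : ω ^ ((l + 1 : ℕ) : Ordinal.{0}) = ω ^ (l : Ordinal.{0}) * ω := by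
          rw [Nat.cast_succ, opow_add, opow_one]
        rw [h2]
        exact mul_lt_mul_of_pos_left (natCast_lt_omega0 a) (opow_pos _ omega0_pos)
      exact (add_lt_add_iff_left _).2 h1

theorem d1_step {L s : List ℕ} {a : ℕ} (h : emb (pstep L a) s < ω ^ rkL (pstep L a)) :
    emb L (a :: s) < ω ^ rkL (pstep L a) * ((a + 1 : ℕ) : Ordinal.{0}) := by
  change ω ^ rkL (pstep L a) * (a : Ordinal.{0}) + emb (pstep L a) s < _
  rw [Nat.cast_succ, mul_add, mul_one]
  exact (add_lt_add_iff_left _).2 h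

/-- D1a. Induction on `Cmp`: `L = 0 :: r`: `ω ^ rkL r * a + emb r s < ω ^ rkL r * (a + 1) ≤
ω ^ (rkL r + 1)`; `L = (l+1) :: r`: `rkL (replicate a l ++ r) = rkL r + ω ^ l * a`. -/
theorem emb_lt {L s : List ℕ} (h : Cmp L s) : emb L s < ω ^ rkL L := by
  induction h with
  | nil =>
    change (0 : Ordinal.{0}) < ω ^ (0 : Ordinal.{0})
    rw [opow_zero]
    exact zero_lt_one
  | @cons L a s hL _ ih =>
    refine (d1_step ih).trans_le ?_
    have h1 : rkL (pstep L a) + 1 ≤ rkL L := Order.add_one_le_of_lt (d1_rkL_pstep_lt hL a)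
    calc ω ^ rkL (pstep L a) * ((a + 1 : ℕ) : Ordinal.{0}) ≤ ω ^ rkL (pstep L a) * ω :=
          mul_le_mul_right (natCast_lt_omega0 (a + 1)).le _
      _ = ω ^ (rkL (pstep L a) + 1) := by rw [opow_add, opow_one]
      _ ≤ ω ^ rkL L := opow_le_opow_right omega0_pos h1

/-- D1b. `s < t` is the lexicographic order of `List ℕ`; `Cmp L` is prefix free, so there is a
first difference `a < b`, and `emb (a::s') < ω ^ rkL (pstep L a) * (a+1) ≤
ω ^ rkL (pstep L b) * b ≤ emb (b::t')`, because `rkL (pstep L ·)` is monotone. -/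
theorem emb_lt_emb {L s t : List ℕ} (hs : Cmp L s) (ht : Cmp L t) (hst : s < t) :
    emb L s < emb L t := by
  induction hs generalizing t with
  | nil =>
    cases ht with
    | nil => exact absurd hst (lt_irrefl _)
    | cons h _ => exact absurd rfl h
  | @cons L a s hL hs ih =>
    cases ht with
    | nil => exact absurd rfl hL
    | @cons _ b t _ ht =>
      rcases List.cons_lt_cons_iff.1 hst with hab | ⟨rfl, hst'⟩
      · refine (d1_step (emb_lt hs)).trans_le ?_
        change _ ≤ ω ^ rkL (pstep L b) * (b : Ordinal.{0}) + emb (pstep L b) t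
        have h1 : ω ^ rkL (pstep L a) ≤ ω ^ rkL (pstep L b) :=
          opow_le_opow_right omega0_pos (d1_rkL_pstep_mono L hab.le)
        have h2 : ((a + 1 : ℕ) : Ordinal.{0}) ≤ (b : Ordinal.{0}) := Nat.cast_le.2 hab
        calc ω ^ rkL (pstep L a) * ((a + 1 : ℕ) : Ordinal.{0})
            ≤ ω ^ rkL (pstep L b) * (b : Ordinal.{0}) := mul_le_mul' h1 h2
          _ ≤ ω ^ rkL (pstep L b) * (b : Ordinal.{0}) + emb (pstep L b) t := le_self_add
      · change ω ^ rkL (pstep L a) * (a : Ordinal.{0}) + emb (pstep L a) s <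
          ω ^ rkL (pstep L a) * (a : Ordinal.{0}) + emb (pstep L a) t
        exact (add_lt_add_iff_left _).2 (ih ht hst')

end MPb6P
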