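import Pool.Agent.Lib.MP_b6d339_lc.Pos.Defs
import Pool.Agent.Lib.MP_b6d339_lc.Pos.D1

/-!
# Erdős 592, positive side: back to the ordinal
-/

open Filter Ordinal

namespace MPb6P

/-- D3. -/
theorem indep_of_Emb (D : ℕ) (G : SimpleGraph (ω ^ (ω ^ (D : Ordinal.{0})) : Ordinal.{0}).ToType)
    (X : Set (List ℕ)) (hX : ∀ s ∈ X, Cmp [D] s)
    (hE : Emb X [] (ω ^ (ω ^ (D : Ordinal.{0})))) (hr : ∀ s ∈ X, ∀ t ∈ X, ¬ Blue D G s t) :
    ∃ H : Set (ω ^ (ω ^ (D : Ordinal.{0})) : Ordinal.{0}).ToType,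
      typeLT H = ω ^ (ω ^ (D : Ordinal.{0})) ∧ ∀ x ∈ H, ∀ y ∈ H, ¬ G.Adj x y := by
  obtain ⟨f, hf, hfX⟩ := hE
  set μ : Ordinal.{0} := ω ^ (ω ^ (D : Ordinal.{0})) with hμ
  have hrk : rkL [D] = ω ^ (D : Ordinal.{0}) := by
    simp [rkL]
  have hlt : ∀ a < μ, emb [D] (f a) < μ := by
    intro a ha
    have := emb_lt (hX _ (hfX a ha).1)
    rw [hrk] at this
    exact this
  have hmono : ∀ a b, a < b → b < μ → emb [D] (f a) < emb [D] (f b) := by
    intro a b hab hb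
    exact emb_lt_emb (hX _ (hfX a (hab.trans hb)).1) (hX _ (hfX b hb).1) (hf a b hab hb)
  -- the map from `Iio μ`
  let g : Set.Iio μ → μ.ToType := fun a => Ordinal.ToType.mk ⟨emb [D] (f a.1), hlt a.1 a.2⟩
  have hg : StrictMono g := by
    intro a b hab
    have h1 : emb [D] (f a.1) < emb [D] (f b.1) := hmono a.1 b.1 hab b.2
    exact Ordinal.ToType.mk.strictMono h1
  have hgval : ∀ a : Set.Iio μ, ((g a : μ.ToType) : Ordinal.{0}) = emb [D] (f a.1) := by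
    intro a
    simp [g]
  refine ⟨Set.range g, ?_, ?_⟩
  · have e1 : Set.Iio μ ≃o Set.range g :=
      { Equiv.ofInjective g hg.injective with
        map_rel_iff' := by
          intro a b
          exact hg.le_iff_le }
    have e2 : μ.ToType ≃o Set.range g := Ordinal.ToType.mk.symm.trans e1
    have h3 : typeLT μ.ToType = typeLT (Set.range g) :=
      Ordinal.type_eq.2 ⟨e2.toRelIsoLT⟩
    rw [← h3, Ordinal.type_toType]
  · rintro x ⟨a, rfl⟩ y ⟨b, rfl⟩ hadj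
    exact hr _ (hfX a.1 a.2).1 _ (hfX b.1 b.2).1
      ⟨g a, g b, hadj, hgval a, hgval b, hX _ (hfX a.1 a.2).1, hX _ (hfX b.1 b.2).1⟩

end MPb6P
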