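import Pool.Agent.Lib.MP_b6d339_lc.Pos.Defs

/-!
# Erdős 592, positive side: generic macro moves
-/

open Filter Ordinal

namespace MPb6P

/-- `norm` does not change the to-do list. -/
theorem d4_norm_todo (S : PS) : S.norm.todo = S.todo := by
  unfold PS.norm
  cases h : S.todo with
  | nil => simp
  | cons e r =>
    simp only
    split_ifs <;> simp [h]

/-- after `norm`, a state in the middle of a macro move has something to do. -/
theorem d4_norm_go (S : PS) (h : S.norm.go = true) : S.norm.todo ≠ [] := by
  intro h0
  rw [d4_norm_todo] at h0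
  unfold PS.norm at h
  rw [h0] at h
  simp at h

theorem d4_rkL_replicate (l : ℕ) (a : ℕ) (r : List ℕ) :
    rkL (List.replicate a l ++ r) = rkL r + ω ^ (l : Ordinal.{0}) * (a : Ordinal.{0}) := by
  induction a with
  | zero => simp
  | succ a ih =>
    rw [List.replicate_succ, List.cons_append, rkL, ih, Nat.cast_succ, mul_add, mul_one, add_assoc]

theorem d4_rkL_lt (l : ℕ) (a : ℕ) (r : List ℕ) :
    rkL (List.replicate a l ++ r) < rkL ((l + 1) :: r) := by
  rw [d4_rkL_replicate, rkL]
  refine (add_lt_add_iff_left _).2 ?_
  have h1 : ω ^ (l : Ordinal.{0}) * (a : Ordinal.{0}) < ω ^ (l : Ordinal.{0}) * ω :=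
    mul_lt_mul_of_pos_left (natCast_lt_omega0 a) (opow_pos _ omega0_pos)
  have h2 : ω ^ (l : Ordinal.{0}) * ω = ω ^ (((l + 1 : ℕ)) : Ordinal.{0}) := by
    rw [Nat.cast_succ, opow_add, opow_one]
  rwa [h2] at h1

theorem d4_subs_map (l : ℕ) (ad P : List ℕ) (a : ℕ) :
    (subs l ad P a).map Ent.lv = List.replicate a l := by
  unfold subs
  rw [List.map_map]
  rw [List.eq_replicate_iff]
  constructor
  · simp
  · intro b hb
    rw [List.mem_map] at hb
    obtain ⟨i, -, rfl⟩ := hb
    rfl

/-- the measure -/
noncomputable def d4_meas (S : PS) : Ordinal.{0} ×ₗ ℕ :=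
  toLex (rkL (S.todo.map Ent.lv), S.need - S.res.length)

theorem d4_step (S : PS) (hS : S.todo ≠ []) (a : ℕ) (hgo : S.go = true)
    (h : (S.draw a).go = true) : (S.draw a).todo ≠ [] ∧ d4_meas (S.draw a) < d4_meas S := by
  cases hT : S.todo with
  | nil => exact absurd hT hS
  | cons e r =>
    unfold PS.draw at h ⊢
    rw [hT] at h ⊢
    simp only at h ⊢
    by_cases h0 : e.lv = 0
    · simp only [h0, if_true] at h ⊢
      refine ⟨d4_norm_go _ h, ?_⟩
      unfold d4_meas
      rw [Prod.Lex.toLex_lt_toLex]
      left
      rw [d4_norm_todo, hT]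
      simp only [List.map_cons, rkL, h0, Nat.cast_zero, opow_zero]
      exact lt_add_of_pos_right _ one_pos
    · obtain ⟨l, hl⟩ := Nat.exists_eq_succ_of_ne_zero h0
      simp only [h0, if_false] at h ⊢
      by_cases h1 : e.ds = true
      · simp only [h1, if_true] at h ⊢
        by_cases h2 : S.res.length < S.need
        · simp only [h2, if_true] at h ⊢
          refine ⟨by simp, ?_⟩
          unfold d4_meas
          rw [Prod.Lex.toLex_lt_toLex]
          right
          refine ⟨by simp only [hT], ?_⟩
          have h3 : (PS.mk S.seq (e :: r) S.pend (S.res ++ [a]) S.go).need = S.need := rfl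
          simp only [h3, List.length_append, List.length_singleton]
          omega
        · simp only [h2, if_false] at h ⊢
          refine ⟨d4_norm_go _ h, ?_⟩
          unfold d4_meas
          rw [Prod.Lex.toLex_lt_toLex]
          left
          rw [d4_norm_todo, hT]
          simp only [List.map_append, d4_subs_map, List.map_cons, hl, Nat.succ_eq_add_one,
            Nat.add_sub_cancel]
          exact d4_rkL_lt l a _
      · simp only [h1] at h ⊢
        refine ⟨d4_norm_go _ (by simpa using h), ?_⟩
        unfold d4_meas
        rw [Prod.Lex.toLex_lt_toLex]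
        left
        simp only [Bool.false_eq_true, if_false]
        rw [d4_norm_todo, hT]
        simp only [List.map_append, d4_subs_map, List.map_cons, hl, Nat.succ_eq_add_one,
          Nat.add_sub_cancel]
        exact d4_rkL_lt l a _

/-- D4. Generic macro moves exist: termination by the pair (`rkL (todo.map lv)`,
`need - res.length`), lexicographically; at every draw take a number `> N` and larger than the
previous draw in the `UU`-large set given by `hstep`. -/
theorem exists_mac (S : PS) (hgo : S.go = true) (P : PS → Prop) (hP : P S)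
    (hstep : ∀ T : PS, T.go = true → P T → ∀ᶠ a in (UU : Filter ℕ), P (T.draw a)) (N : ℕ)
    (htodo : S.todo ≠ []) :
    ∃ ds S', IsMac S ds S' ∧ P S' ∧ (∀ a ∈ ds, N < a) ∧ ds.Pairwise (· < ·) := by
  have key : ∀ x : Ordinal.{0} ×ₗ ℕ, ∀ T : PS, d4_meas T = x → T.go = true → P T → T.todo ≠ [] →
      ∀ M : ℕ, ∃ ds S', IsMac T ds S' ∧ P S' ∧ (∀ a ∈ ds, M < a) ∧ ds.Pairwise (· < ·) := by
    intro x
    induction x using WellFoundedLT.induction with
    | ind x ih =>
      intro T hx hT hPT hne M
      have hM : ∀ᶠ a in (UU : Filter ℕ), M < a := by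
        have h1 : (UU : Filter ℕ) ≤ Filter.cofinite := Filter.hyperfilter_le_cofinite
        have h2 : ∀ᶠ a in (Filter.cofinite : Filter ℕ), M < a := by
          rw [Nat.cofinite_eq_atTop]
          exact Filter.eventually_gt_atTop M
        exact h1 h2
      obtain ⟨a, ha, hMa⟩ := ((hstep T hT hPT).and hM).exists
      by_cases hg : (T.draw a).go = true
      · obtain ⟨hne', hlt⟩ := d4_step T hne a hT hg
        obtain ⟨ds, S', ⟨hm1, hm2, hm3⟩, hPS, hds, hpw⟩ :=
          ih (d4_meas (T.draw a)) (hx ▸ hlt) (T.draw a) rfl hg ha hne' a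
        refine ⟨a :: ds, S', ⟨?_, hm2, ?_⟩, hPS, ?_, ?_⟩
        · simpa using hm1
        · intro t ht hne''
          cases t with
          | nil => simpa using hT
          | cons b t =>
            rw [List.cons_prefix_cons] at ht
            obtain ⟨rfl, ht⟩ := ht
            simp only [List.foldl_cons]
            exact hm3 t ht (fun h => hne'' (by rw [h]))
        · intro b hb
          rcases List.mem_cons.1 hb with rfl | hb
          · exact hMa
          · exact hMa.trans (hds b hb)
        · exact List.pairwise_cons.2 ⟨fun b hb => hds b hb, hpw⟩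
      · refine ⟨[a], T.draw a, ⟨rfl, by simpa using hg, ?_⟩, ha, by simpa using hMa, by simp⟩
        intro t ht hne''
        cases t with
        | nil => simpa using hT
        | cons b t =>
          rw [List.cons_prefix_cons] at ht
          obtain ⟨rfl, ht⟩ := ht
          rw [List.prefix_nil] at ht
          exact absurd (by rw [ht]) hne''
  exact key _ S rfl hgo hP htodo N

end MPb6P
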