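import Pool.Agent.Lib.MP_b6d339_lc.Pos.Defs
import Pool.Agent.Lib.MP_b6d339_lc.Pos.D4
/-!
# Erdős 592, positive side: Builder
-/

open Filter Ordinal

namespace MPb6P

/-- the property of the step from the nodes `≤ k` to the node `k + 1` -/
def d6_Step (node : ℕ → PS) (dr : ℕ → List ℕ) (k : ℕ) : Prop :=
  ((node (par k)).todo = [] → node (k + 1) = node (par k)) ∧
    ((node (par k)).todo ≠ [] → IsMac ((node (par k)).beg (dec k)) (dr k) (node (k + 1)) ∧
        (∀ a ∈ dr k, k < a) ∧ (dr k).Pairwise (· < ·))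

/-- the invariant of the construction -/
structure d6_Good (D : ℕ) (Bl : List ℕ → List ℕ → Prop) (k : ℕ) (node : ℕ → PS)
    (dr : ℕ → List ℕ) : Prop where
  zero : node 0 = PS.root D
  go : ∀ i ≤ k, (node i).go = false
  wc : ∀ i ≤ k, ¬ WC Bl (node i)
  w : ∀ i ≤ k, ∀ j ≤ k, ¬ W Bl (node i) (node j)
  step : ∀ i < k, d6_Step node dr i

theorem d6_par_le (k : ℕ) : par k ≤ k := Nat.unpair_left_le k

theorem d6_beg_go (S : PS) (δ : List ℕ) (h : S.todo ≠ []) : (S.beg δ).go = true := by
  unfold PS.beg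
  cases hS : S.todo with
  | nil => exact absurd hS h
  | cons e r => by_cases he : e.lv = 0 <;> simp [he]

theorem d6_beg_todo (S : PS) (δ : List ℕ) (h : S.todo ≠ []) : (S.beg δ).todo ≠ [] := by
  unfold PS.beg
  cases hS : S.todo with
  | nil => exact absurd hS h
  | cons e r => by_cases he : e.lv = 0 <;> simp [he]

/-- the macro move to the new node -/
theorem d6_new {D : ℕ} {Bl : List ℕ → List ℕ → Prop} {k : ℕ} {node : ℕ → PS}
    {dr : ℕ → List ℕ} (h : d6_Good D Bl k node dr) :
    ∃ (S : PS) (ds : List ℕ),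
      ((node (par k)).todo = [] → S = node (par k)) ∧
      ((node (par k)).todo ≠ [] → IsMac ((node (par k)).beg (dec k)) ds S ∧
        (∀ a ∈ ds, k < a) ∧ ds.Pairwise (· < ·)) ∧
      S.go = false ∧ ¬ WC Bl S ∧ ¬ W Bl S S ∧
      ∀ j ≤ k, ¬ W Bl S (node j) ∧ ¬ W Bl (node j) S := by
  have hp := d6_par_le k
  by_cases ht : (node (par k)).todo = []
  · refine ⟨node (par k), [], fun _ => rfl, fun h' => absurd ht h', h.go _ hp, h.wc _ hp,
      h.w _ hp _ hp, fun j hj => ⟨h.w _ hp _ hj, h.w _ hj _ hp⟩⟩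
  · obtain ⟨ds, S, hM, hP, hN, hpw⟩ := exists_mac ((node (par k)).beg (dec k))
      (d6_beg_go _ _ ht)
      (fun T => (∀ j ≤ k, ¬ W Bl T (node j) ∧ ¬ W Bl (node j) T) ∧ ¬ WC Bl T)
      ⟨fun j hj => ⟨fun hw => h.w _ hp _ hj (W.begA (dec k) (h.go _ hp) (h.go _ hj) ht hw),
        fun hw => h.w _ hj _ hp (W.begB (dec k) (h.go _ hj) (h.go _ hp) ht hw)⟩,
        fun hw => h.wc _ hp (WC.beg (dec k) (h.go _ hp) ht hw)⟩
      (by
        intro T hT hPT
        have h1 : ∀ j ∈ Set.Iic k, ∀ᶠ a in (UU : Filter ℕ),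
            ¬ W Bl (T.draw a) (node j) ∧ ¬ W Bl (node j) (T.draw a) := by
          intro j hj
          have hjk : j ≤ k := hj
          refine Filter.Eventually.and ?_ ?_
          · rw [Ultrafilter.eventually_not]
            intro hev
            exact (hPT.1 j hjk).1 (W.drawA {a | W Bl (T.draw a) (node j)} hT (h.go _ hjk) hev
              (fun a ha => ha))
          · rw [Ultrafilter.eventually_not]
            intro hev
            exact (hPT.1 j hjk).2 (W.drawB {a | W Bl (node j) (T.draw a)} (h.go _ hjk) hT hev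
              (fun a ha => ha))
        have h2 : ∀ᶠ a in (UU : Filter ℕ), ∀ j ∈ Set.Iic k,
            ¬ W Bl (T.draw a) (node j) ∧ ¬ W Bl (node j) (T.draw a) :=
          (Filter.eventually_all_finite (Set.finite_Iic k)).mpr h1
        have h3 : ∀ᶠ a in (UU : Filter ℕ), ¬ WC Bl (T.draw a) := by
          rw [Ultrafilter.eventually_not]
          intro hev
          exact hPT.2 (WC.draw {a | WC Bl (T.draw a)} hT hev (fun a ha => ha))
        filter_upwards [h2, h3] with a ha2 ha3
        exact ⟨fun j hj => ha2 j hj, ha3⟩)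
      k (d6_beg_todo _ _ ht)
    refine ⟨S, ds, fun h' => absurd h' ht, fun _ => ⟨hM, hN, hpw⟩, hM.2.1, hP.2, ?_, hP.1⟩
    intro hw
    exact hP.2 (WC.split hM.2.1 hw)

theorem d6_extend {D : ℕ} {Bl : List ℕ → List ℕ → Prop} {k : ℕ} {node : ℕ → PS}
    {dr : ℕ → List ℕ} (h : d6_Good D Bl k node dr) :
    ∃ (S : PS) (ds : List ℕ),
      d6_Good D Bl (k + 1) (Function.update node (k + 1) S) (Function.update dr k ds) := by
  obtain ⟨S, ds, h1, h2, h3, h4, h5, h6⟩ := d6_new h
  refine ⟨S, ds, ?_, ?_, ?_, ?_, ?_⟩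
  · rw [Function.update_of_ne (by omega)]; exact h.zero
  · intro i hi
    rcases eq_or_lt_of_le hi with rfl | hi
    · rw [Function.update_self]; exact h3
    · rw [Function.update_of_ne (by omega)]; exact h.go i (by omega)
  · intro i hi
    rcases eq_or_lt_of_le hi with rfl | hi
    · rw [Function.update_self]; exact h4
    · rw [Function.update_of_ne (by omega)]; exact h.wc i (by omega)
  · intro i hi j hj
    rcases eq_or_lt_of_le hi with rfl | hi
    · rcases eq_or_lt_of_le hj with rfl | hj
      · rw [Function.update_self]; exact h5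
      · rw [Function.update_self, Function.update_of_ne (by omega)]; exact (h6 j (by omega)).1
    · rcases eq_or_lt_of_le hj with rfl | hj
      · rw [Function.update_self, Function.update_of_ne (by omega)]; exact (h6 i (by omega)).2
      · rw [Function.update_of_ne (by omega), Function.update_of_ne (by omega)]
        exact h.w i (by omega) j (by omega)
  · intro i hi
    have hpi := d6_par_le i
    have hpk := d6_par_le k
    unfold d6_Step
    rcases eq_or_lt_of_le (Nat.lt_succ_iff.mp hi) with rfl | hi'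
    · rw [Function.update_self, Function.update_self, Function.update_of_ne (by omega)]
      exact ⟨h1, h2⟩
    · rw [Function.update_of_ne (show par i ≠ k + 1 by omega),
        Function.update_of_ne (show i + 1 ≠ k + 1 by omega),
        Function.update_of_ne (show i ≠ k by omega)]
      exact h.step i hi'

/-- D6. Builder's nodes. Recursion on `k` with the invariant: for all `i, j ≤ k`,
`¬ W Bl (node i) (node j)`, `¬ WC Bl (node i)`, `(node i).go = false`. Node `k+1` is obtained from
`exists_mac` with `P T := (∀ j ≤ k, ¬ W Bl T (node j) ∧ ¬ W Bl (node j) T) ∧ ¬ WC Bl T`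
(negate the rules `begA`, `begB`, `WC.beg`, `drawA`, `drawB`, `WC.draw`; a finite intersection of
`UU`-large sets; `UU` is an ultrafilter, so `{a | W …} ∉ UU` gives `∀ᶠ a, ¬ W …`). The pair
`(k+1, k+1)` by `WC.split`. -/
theorem builder (D : ℕ) (Bl : List ℕ → List ℕ → Prop) (h : ¬ WC Bl (PS.root D)) :
    ∃ (node : ℕ → PS) (dr : ℕ → List ℕ), node 0 = PS.root D ∧ (∀ k, (node k).go = false) ∧
      (∀ k, (node (par k)).todo = [] → node (k + 1) = node (par k)) ∧
      (∀ k, (node (par k)).todo ≠ [] → IsMac ((node (par k)).beg (dec k)) (dr k) (node (k + 1)) ∧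
        (∀ a ∈ dr k, k < a) ∧ (dr k).Pairwise (· < ·)) ∧
      ∀ i j, ¬ W Bl (node i) (node j) := by
  classical
  -- the states of the construction
  let St : ℕ → Type := fun k => {x : (ℕ → PS) × (ℕ → List ℕ) // d6_Good D Bl k x.1 x.2}
  have hroot : (PS.root D).go = false := rfl
  have g0 : d6_Good D Bl 0 (fun _ => PS.root D) (fun _ => []) := by
    refine ⟨rfl, fun i _ => hroot, fun i _ => h, fun i _ j _ hw => h (WC.split hroot hw), ?_⟩
    intro i hi
    exact absurd hi (Nat.not_lt_zero i)
  have hex : ∀ k (x : St k), ∃ y : St (k + 1),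
      (∀ i ≤ k, y.1.1 i = x.1.1 i) ∧ (∀ i < k, y.1.2 i = x.1.2 i) := by
    intro k x
    obtain ⟨S, ds, hg⟩ := d6_extend x.2
    refine ⟨⟨(Function.update x.1.1 (k + 1) S, Function.update x.1.2 k ds), hg⟩, ?_, ?_⟩
    · intro i hi
      exact Function.update_of_ne (by omega) _ _
    · intro i hi
      exact Function.update_of_ne (by omega) _ _
  choose nxt hn1 hn2 using hex
  let F : ∀ k, St k := fun k => Nat.rec (motive := St) ⟨((fun _ => PS.root D), (fun _ => [])), g0⟩
    (fun k x => nxt k x) k
  have hF : ∀ k, F (k + 1) = nxt k (F k) := fun k => rfl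
  have hnode : ∀ k m, k ≤ m → (F m).1.1 k = (F k).1.1 k := by
    intro k m hm
    induction m, hm using Nat.le_induction with
    | base => rfl
    | succ m hm ih => rw [hF, hn1 m (F m) k hm, ih]
  have hdr : ∀ k m, k + 1 ≤ m → (F m).1.2 k = (F (k + 1)).1.2 k := by
    intro k m hm
    induction m, hm using Nat.le_induction with
    | base => rfl
    | succ m hm ih => rw [hF, hn2 m (F m) k hm, ih]
  have hstep : ∀ k, d6_Step (fun k => (F k).1.1 k) (fun k => (F (k + 1)).1.2 k) k := by
    intro k
    have h1 := (F (k + 1)).2.step k (Nat.lt_succ_self k)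
    have hp := d6_par_le k
    unfold d6_Step at h1 ⊢
    rw [hnode (par k) (k + 1) (by omega)] at h1
    exact h1
  refine ⟨fun k => (F k).1.1 k, fun k => (F (k + 1)).1.2 k, (F 0).2.zero,
    fun k => (F k).2.go k le_rfl, fun k => (hstep k).1, fun k => (hstep k).2, ?_⟩
  intro i j
  have h1 := (F (max i j)).2.w i (le_max_left _ _) j (le_max_right _ _)
  rwa [hnode i _ (le_max_left _ _), hnode j _ (le_max_right _ _)] at h1

end MPb6P
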