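import Pool.Agent.Lib.MP_b6d339_lc.Pos.Defs

/-!
# Erdős 592, positive side: types of unions
-/

open Filter Ordinal

namespace MPb6P

theorem d2_lex {p : List ℕ} {m n : ℕ} (hmn : m < n) {s t : List ℕ}
    (hs : p ++ [m] <+: s) (ht : p ++ [n] <+: t) : s < t := by
  obtain ⟨s', rfl⟩ := hs
  obtain ⟨t', rfl⟩ := ht
  simp only [List.append_assoc, List.singleton_append]
  induction p with
  | nil => exact List.Lex.rel hmn
  | cons a p ih => exact List.Lex.cons ih

noncomputable def d2_S (e : ℕ → Ordinal.{0}) : ℕ → Ordinal.{0}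
  | 0 => 0
  | n + 1 => d2_S e n + ω ^ e n

theorem d2_S_mono (e : ℕ → Ordinal.{0}) : Monotone (d2_S e) :=
  monotone_nat_of_le_succ fun _ => le_self_add

theorem d2_S_large (e : ℕ → Ordinal.{0}) (θ' : Ordinal.{0}) (he : ∀ N, ∃ k ≥ N, e k = θ')
    (m : ℕ) : ∃ n, ω ^ θ' * (m : Ordinal.{0}) ≤ d2_S e n := by
  induction m with
  | zero => exact ⟨0, by simp⟩
  | succ m ih =>
    obtain ⟨n, hn⟩ := ih
    obtain ⟨k, hk, hek⟩ := he n
    refine ⟨k + 1, ?_⟩
    have h1 : ω ^ θ' * ((m + 1 : ℕ) : Ordinal.{0}) = ω ^ θ' * (m : Ordinal.{0}) + ω ^ θ' := by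
      rw [Nat.cast_succ, mul_add_one]
    rw [h1]
    change _ ≤ d2_S e k + ω ^ e k
    rw [hek]
    exact add_le_add_left (hn.trans (d2_S_mono e hk)) _

/-- D2. For every `θ' < θ` there are infinitely many children containing `ω ^ θ'`. Proof: take a
sequence `θ_k < θ` (constant if `θ` is a successor, cofinal and increasing if `θ` is a limit; `θ` is
countable) such that `ω ^ θ = sup_n S n`, `S n = ∑_{k<n} ω ^ θ_k`; choose `n_0 < n_1 < …` with
`Emb X (p ++ [n_k]) (ω ^ θ_k)` and put the pieces one after the other (every `x < ω ^ θ` is uniquely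
`S n + y`, `y < ω ^ θ_n`). `MPb6.fs` and `path` in `Tree.lean` (negative side) may be useful. -/
theorem Emb.of_children {X : Set (List ℕ)} {p : List ℕ} {θ : Ordinal.{0}} (h0 : θ ≠ 0)
    (hc : θ.card ≤ Cardinal.aleph0)
    (h : ∀ θ' < θ, ∀ N : ℕ, ∃ n ≥ N, Emb X (p ++ [n]) (ω ^ θ')) : Emb X p (ω ^ θ) := by
  classical
  -- enumeration
  have hcount : (Set.Iio θ).Countable := by
    rw [← Cardinal.le_aleph0_iff_set_countable]
    rw [Cardinal.mk_Iio_ordinal θ]
    exact Cardinal.lift_le_aleph0.2 hc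
  have hne : (Set.Iio θ).Nonempty := ⟨0, pos_iff_ne_zero.mpr h0⟩
  obtain ⟨e0, he0⟩ := hcount.exists_eq_range hne
  set e : ℕ → Ordinal.{0} := fun k => e0 (Nat.unpair k).1 with he
  have helt : ∀ k, e k < θ := by
    intro k
    have : e0 (Nat.unpair k).1 ∈ Set.Iio θ := by rw [he0]; exact ⟨_, rfl⟩
    exact this
  have hinf : ∀ θ' < θ, ∀ N, ∃ k ≥ N, e k = θ' := by
    intro θ' hθ' N
    have : θ' ∈ Set.range e0 := by rw [← he0]; exact hθ'
    obtain ⟨i, hi⟩ := this
    refine ⟨Nat.pair i N, Nat.right_le_pair i N, ?_⟩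
    simp [he, hi]
  -- choose the children
  have hch : ∀ k N : ℕ, ∃ n ≥ N, Emb X (p ++ [n]) (ω ^ e k) := fun k N => h (e k) (helt k) N
  choose g hg1 hg2 using hch
  let nn : ℕ → ℕ := fun k => Nat.rec (g 0 0) (fun k r => g (k + 1) (r + 1)) k
  have hnn0 : ∀ k, Emb X (p ++ [nn k]) (ω ^ e k) := by
    intro k
    cases k with
    | zero => exact hg2 0 0
    | succ k => exact hg2 (k + 1) (nn k + 1)
  have hnnm : StrictMono nn := strictMono_nat_of_lt_succ fun k => by
    have : nn (k + 1) ≥ nn k + 1 := hg1 (k + 1) (nn k + 1)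
    omega
  choose F hF1 hF2 using hnn0
  have hex : ∀ x < ω ^ θ, ∃ n, x < d2_S e (n + 1) := by
    intro x hx
    obtain ⟨c, hc', m, hm⟩ := (Ordinal.lt_omega0_opow h0).1 hx
    obtain ⟨n, hn⟩ := d2_S_large e c (hinf c hc') m
    exact ⟨n, hm.trans_le (hn.trans (d2_S_mono e (Nat.le_succ n)))⟩
  let N : Ordinal.{0} → ℕ := fun x => if hx : ∃ n, x < d2_S e (n + 1) then Nat.find hx else 0
  have hN1 : ∀ x < ω ^ θ, x < d2_S e (N x + 1) := by
    intro x hx
    have hx' := hex x hx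
    simp only [N, dif_pos hx']
    exact Nat.find_spec hx'
  have hN2 : ∀ x < ω ^ θ, d2_S e (N x) ≤ x := by
    intro x hx
    have hx' := hex x hx
    by_contra hlt
    push Not at hlt
    have hNx : N x = Nat.find hx' := by simp only [N, dif_pos hx']
    rcases Nat.eq_zero_or_pos (N x) with h0 | h0
    · rw [h0] at hlt
      exact absurd hlt (not_lt.mpr zero_le)
    · have h1 : N x - 1 + 1 = N x := by omega
      have h2 : x < d2_S e ((N x - 1) + 1) := by rw [h1]; exact hlt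
      have h3 : Nat.find hx' ≤ N x - 1 := Nat.find_min' hx' h2
      omega
  have hN3 : ∀ x < ω ^ θ, x - d2_S e (N x) < ω ^ e (N x) := by
    intro x hx
    rw [Ordinal.sub_lt_of_le (hN2 x hx)]
    exact hN1 x hx
  refine ⟨fun x => F (N x) (x - d2_S e (N x)), ?_, ?_⟩
  · intro a b hab hb
    have ha : a < ω ^ θ := hab.trans hb
    rcases lt_trichotomy (N a) (N b) with hlt | heq | hgt
    · exact d2_lex (hnnm hlt) (hF2 (N a) _ (hN3 a ha)).2 (hF2 (N b) _ (hN3 b hb)).2
    · change F (N a) (a - d2_S e (N a)) < F (N b) (b - d2_S e (N b))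
      have hb3 := hN3 b hb
      have ha2 := hN2 a ha
      rw [← heq] at hb3 ⊢
      refine hF1 (N a) _ _ ?_ hb3
      rw [Ordinal.sub_lt_of_le ha2]
      have hb2 := hN2 b hb
      rw [← heq] at hb2
      rw [Ordinal.add_sub_cancel_of_le hb2]
      exact hab
    · exfalso
      have h1 : b < d2_S e (N b + 1) := hN1 b hb
      have h2 : d2_S e (N b + 1) ≤ d2_S e (N a) := d2_S_mono e hgt
      exact absurd (hab.trans (h1.trans_le (h2.trans (hN2 a ha)))) (lt_irrefl _)
  · intro a ha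
    exact ⟨(hF2 (N a) _ (hN3 a ha)).1, (List.prefix_append p [nn (N a)]).trans (hF2 (N a) _ (hN3 a ha)).2⟩

end MPb6P
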