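import Pool.Agent.Lib.MP_b6d339_lc.Pos.Defs

/-!
# Erdős 592, positive side: the effect of a macro move
-/

open Filter Ordinal

namespace MPb6P

/-- D5a. -/
theorem low_lt (l : ℕ) (δ : List ℕ) : low l δ < ω ^ (l : Ordinal.{0}) := by
  induction l generalizing δ with
  | zero =>
    rw [low, Nat.cast_zero, opow_zero]
    exact zero_lt_one
  | succ l ih =>
    rw [low]
    have h1 : (ω : Ordinal.{0}) ^ (l : Ordinal.{0}) * ((δ.headD 0 : ℕ) : Ordinal.{0})
        + low l δ.tail < ω ^ (l : Ordinal.{0}) * ((δ.headD 0 : ℕ) : Ordinal.{0})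
        + ω ^ (l : Ordinal.{0}) := (add_lt_add_iff_left _).2 (ih _)
    refine h1.trans_le ?_
    have h2 : (ω : Ordinal.{0}) ^ (l : Ordinal.{0}) * ((δ.headD 0 : ℕ) : Ordinal.{0})
        + ω ^ (l : Ordinal.{0})
        = ω ^ (l : Ordinal.{0}) * (((δ.headD 0 + 1 : ℕ)) : Ordinal.{0}) := by
      rw [Nat.cast_add, Nat.cast_one, mul_add, mul_one]
    rw [h2]
    have h3 : ((l + 1 : ℕ) : Ordinal.{0}) = (l : Ordinal.{0}) + 1 := by push_cast; rfl
    rw [h3, opow_add, opow_one]
    exact mul_le_mul_right (natCast_lt_omega0 _).le _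

/-- D5b. -/
theorem exists_low (l : ℕ) (θ : Ordinal.{0}) (h : θ < ω ^ (l : Ordinal.{0})) :
    ∃ δ : List ℕ, θ ≤ low l δ := by
  induction l generalizing θ with
  | zero =>
    rw [Nat.cast_zero, opow_zero, Order.lt_one_iff] at h
    exact ⟨[], by rw [h]; exact bot_le⟩
  | succ l ih =>
    have h3 : ((l + 1 : ℕ) : Ordinal.{0}) = (l : Ordinal.{0}) + 1 := by push_cast; rfl
    rw [h3, opow_add, opow_one] at h
    have hne : (ω : Ordinal.{0}) ^ (l : Ordinal.{0}) ≠ 0 := opow_ne_zero _ omega0_ne_zero
    have hq : θ / ω ^ (l : Ordinal.{0}) < ω := (lt_mul_iff_div_lt hne).1 h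
    obtain ⟨n, hn⟩ := lt_omega0.1 hq
    obtain ⟨δ, hδ⟩ := ih (θ % ω ^ (l : Ordinal.{0})) (mod_lt _ hne)
    refine ⟨n :: δ, ?_⟩
    rw [low, List.headD_cons, List.tail_cons, ← hn]
    conv_lhs => rw [← Ordinal.div_add_mod θ (ω ^ (l : Ordinal.{0}))]
    exact add_le_add_right hδ _

theorem d5_norm_todo (S : PS) : S.norm.todo = S.todo := by
  obtain ⟨seq, todo, pend, res, go⟩ := S
  unfold PS.norm
  cases todo with
  | nil => rfl
  | cons e r => dsimp only; split <;> rfl

theorem d5_norm_res (S : PS) : S.norm.res = S.res := by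
  obtain ⟨seq, todo, pend, res, go⟩ := S
  unfold PS.norm
  cases todo with
  | nil => rfl
  | cons e r => dsimp only; split <;> rfl

theorem d5_norm_pend (S : PS) : S.norm.pend = S.pend := by
  obtain ⟨seq, todo, pend, res, go⟩ := S
  unfold PS.norm
  cases todo with
  | nil => rfl
  | cons e r => dsimp only; split <;> rfl

theorem d5_norm_nil {S : PS} (h : S.todo = []) : S.norm.go = false := by
  obtain ⟨seq, todo, pend, res, go⟩ := S
  dsimp only at h
  subst h
  rfl

/-- an undesignated state: `norm` stops only if nothing is left -/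
theorem d5_norm_fin {S : PS} (hgo : S.go = true) (hd : ∀ e ∈ S.todo, e.ds = false)
    (h : S.norm.go = false) : S.todo = [] := by
  obtain ⟨seq, todo, pend, res, go⟩ := S
  dsimp only at hgo hd ⊢
  unfold PS.norm at h
  cases todo with
  | nil => rfl
  | cons e r =>
    exfalso
    have he : e.ds = false := hd e (List.mem_cons_self ..)
    dsimp only at h
    rw [if_neg (by rw [he]; simp)] at h
    dsimp only at h
    rw [hgo] at h
    exact Bool.noConfusion h

theorem d5_subs_nil_ds {l : ℕ} {ad : List ℕ} {a : ℕ} {x : Ent} (hx : x ∈ subs l ad [] a) :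
    x.ds = false := by
  unfold subs at hx
  obtain ⟨i, -, rfl⟩ := List.mem_map.1 hx
  simp

/-- one draw from an undesignated state -/
theorem d5_draw_fin {T : PS} (a : ℕ) (hd : ∀ e ∈ T.todo, e.ds = false) (hgo : T.go = true)
    (hne : T.todo ≠ []) :
    (∀ e ∈ (T.draw a).todo, e.ds = false) ∧ ((T.draw a).go = false → (T.draw a).todo = []) := by
  obtain ⟨seq, todo, pend, res, go⟩ := T
  dsimp only at hd hgo hne
  cases todo with
  | nil => exact absurd rfl hne
  | cons e r =>
    have he : e.ds = false := hd e (List.mem_cons_self ..)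
    have hr : ∀ x ∈ r, x.ds = false := fun x hx => hd x (List.mem_cons_of_mem _ hx)
    unfold PS.draw
    dsimp only
    by_cases h0 : e.lv = 0
    · rw [if_pos h0, d5_norm_todo]
      exact ⟨hr, fun h => d5_norm_fin hgo hr h⟩
    · have hf : ¬ e.ds = true := by rw [he]; simp
      rw [if_neg h0, if_neg hf, d5_norm_todo]
      have hr' : ∀ x ∈ subs (e.lv - 1) e.ad [] a ++ r, x.ds = false := by
        intro x hx
        rcases List.mem_append.1 hx with h | h
        · exact d5_subs_nil_ds h
        · exact hr x h
      exact ⟨hr', fun h => d5_norm_fin hgo hr' h⟩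

theorem d5_prefix_tail {T : PS} {a : ℕ} {ds : List ℕ}
    (hp : ∀ t, t <+: (a :: ds) → t ≠ (a :: ds) → (t.foldl PS.draw T).go = true) :
    T.go = true ∧ ∀ t, t <+: ds → t ≠ ds → (t.foldl PS.draw (T.draw a)).go = true := by
  constructor
  · exact hp [] List.nil_prefix (by simp)
  · intro t ht hne
    have h := hp (a :: t) (by simpa using ht) (by simpa using hne)
    simpa using h

theorem d5_fin : ∀ (ds : List ℕ) (T : PS), (∀ e ∈ T.todo, e.ds = false) →
    (T.go = false → T.todo = []) →
    (∀ t, t <+: ds → t ≠ ds → (t.foldl PS.draw T).go = true) →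
    (ds.foldl PS.draw T).go = false → (ds.foldl PS.draw T).todo = [] := by
  intro ds
  induction ds with
  | nil =>
    intro T _ h2 _ h4
    exact h2 h4
  | cons a ds ih =>
    intro T h1 _ h3 h4
    obtain ⟨hgo, hp⟩ := d5_prefix_tail h3
    rw [List.foldl_cons] at h4 ⊢
    by_cases hne : T.todo = []
    · have hdr : T.draw a = T := by
        unfold PS.draw
        rw [hne]
      rw [hdr] at h4 hp ⊢
      exact ih T h1 (fun _ => hne) hp h4
    · obtain ⟨g1, g2⟩ := d5_draw_fin a h1 hgo hne
      exact ih _ g1 g2 hp h4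

/-- D5c. No designated entry left: the macro move finishes the element. -/
theorem mac_fin {S S' : PS} {ds : List ℕ} (h : IsMac S ds S') (hgo : S.go = true)
    (hS : S.todo ≠ []) (hd : ∀ e ∈ S.todo, e.ds = false) : S'.todo = [] := by
  obtain ⟨h1, h2, h3⟩ := h
  subst h1
  exact d5_fin ds S hd (fun h => by rw [hgo] at h; exact Bool.noConfusion h) h3 h2

/-! ### Counting designated entries -/

theorem d5_lo_append {l : ℕ} (L r : List Ent) (hL : ∀ x ∈ L, x.lv = l) :
    lo (L ++ r) = lo r + ω ^ (l : Ordinal.{0}) * ((L.countP (fun x => x.ds) : ℕ) : Ordinal.{0}) := by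
  induction L with
  | nil => simp
  | cons e L ih =>
    have he : e.lv = l := hL e (List.mem_cons_self ..)
    have ih' := ih (fun x hx => hL x (List.mem_cons_of_mem _ hx))
    rw [List.cons_append, lo]
    by_cases hd : e.ds = true
    · rw [if_pos hd, ih', List.countP_cons_of_pos hd, he, Nat.cast_add, Nat.cast_one, mul_add,
        mul_one, add_assoc]
    · rw [if_neg hd, ih', List.countP_cons_of_neg hd]

theorem d5_split (L : List Ent) : ∀ n : ℕ, L.countP (fun x => x.ds) = n + 1 →
    ∃ F1 e1 r1, L = F1 ++ e1 :: r1 ∧ (∀ x ∈ F1, Ent.ds x = false) ∧ Ent.ds e1 = true ∧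
      List.countP (fun x => Ent.ds x) r1 = n := by
  induction L with
  | nil => intro n h; simp at h
  | cons e L ih =>
    intro n h
    by_cases hd : e.ds = true
    · rw [List.countP_cons_of_pos hd] at h
      exact ⟨[], e, L, rfl, by simp, hd, Nat.succ.inj h⟩
    · rw [List.countP_cons_of_neg hd] at h
      obtain ⟨F1, e1, r1, h1, h2, h3, h4⟩ := ih n h
      refine ⟨e :: F1, e1, r1, by rw [h1]; rfl, ?_, h3, h4⟩
      intro x hx
      rcases List.mem_cons.1 hx with rfl | hx
      · simpa using hd
      · exact h2 x hx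

theorem d5_count_subs {l : ℕ} {ad : List ℕ} {P : List ℕ} {a : ℕ} (hP : P.Nodup)
    (ha : ∀ x ∈ P, x < a) : (subs l ad P a).countP (fun x => x.ds) = P.length := by
  unfold subs
  rw [List.countP_map]
  have h1 : List.countP ((fun x => Ent.ds x) ∘ fun i => (⟨l, ad ++ [i], decide (i ∈ P)⟩ : Ent))
      (List.range a) = List.countP (fun i => decide (i ∈ P)) (List.range a) := rfl
  rw [h1, List.countP_eq_length_filter]
  apply List.Perm.length_eq
  refine (List.perm_ext_iff_of_nodup (List.nodup_range.filter _) hP).2 ?_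
  intro x
  rw [List.mem_filter, List.mem_range, decide_eq_true_iff]
  exact ⟨fun h => h.2, fun h => ⟨ha x h, h⟩⟩

theorem d5_subs_lv {l : ℕ} {ad : List ℕ} {P : List ℕ} {a : ℕ} {x : Ent}
    (hx : x ∈ subs l ad P a) : x.lv = l := by
  unfold subs at hx
  obtain ⟨i, -, rfl⟩ := List.mem_map.1 hx
  rfl

theorem d5_norm_go {S : PS} {F : List Ent} {e : Ent} {r : List Ent} (hS : S.todo = F ++ e :: r)
    (hF : ∀ x ∈ F, x.ds = false) (he : e.ds = true) (hgo : S.go = true) :
    (S.norm.go = false → F = [] ∧ e.lv = 0) ∧ (S.norm.go = true → F ≠ [] ∨ e.lv ≠ 0) := by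
  obtain ⟨seq, todo, pend, res, go⟩ := S
  dsimp only at hS hgo
  subst hS
  subst hgo
  cases F with
  | nil =>
    unfold PS.norm
    dsimp only [List.nil_append]
    by_cases h0 : e.lv = 0
    · rw [if_pos ⟨h0, he⟩]
      exact ⟨fun _ => ⟨rfl, h0⟩, fun h => Bool.noConfusion h⟩
    · rw [if_neg (fun h => h0 h.1)]
      exact ⟨fun h => Bool.noConfusion h, fun _ => Or.inr h0⟩
  | cons f F =>
    unfold PS.norm
    dsimp only [List.cons_append]
    have hf : f.ds = false := hF f (List.mem_cons_self ..)
    rw [if_neg (by rw [hf]; simp)]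
    exact ⟨fun h => Bool.noConfusion h, fun _ => Or.inl (by simp)⟩

theorem d5_key : ∀ (ds : List ℕ) (T : PS) (F : List Ent) (e : Ent) (r : List Ent),
    T.todo = F ++ e :: r → (∀ x ∈ F, x.ds = false) → e.ds = true →
    (∀ t, t <+: ds → t ≠ ds → (t.foldl PS.draw T).go = true) →
    (ds.foldl PS.draw T).go = false →
    (T.go = false → F = [] ∧ e.lv = 0) → (T.go = true → F ≠ [] ∨ e.lv ≠ 0) →
    (T.res ≠ [] → F = [] ∧ e.lv ≠ 0) → T.res.length ≤ T.need →
    (T.res ++ ds).Pairwise (· < ·) →
    ∃ e' r', (ds.foldl PS.draw T).todo = e' :: r' ∧ e'.lv = 0 ∧ e'.ds = true ∧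
      (ds.foldl PS.draw T).res = [] ∧ lo r' = lo r + low e.lv T.pend := by
  intro ds
  induction ds with
  | nil =>
    intro T F e r hT hF he _ h2 h3 _ h5 _ _
    obtain ⟨rfl, hlv⟩ := h3 h2
    refine ⟨e, r, hT, hlv, he, ?_, ?_⟩
    · by_contra hne
      exact (h5 hne).2 hlv
    · rw [hlv, low, add_zero]
  | cons a ds ih =>
    intro T F e r hT hF he h1 h2 h3 h4 h5 h6 h7
    obtain ⟨hgo, hp⟩ := d5_prefix_tail h1
    rw [List.foldl_cons] at h2 ⊢
    cases F with
    | cons f F =>
      have hf : f.ds = false := hF f (List.mem_cons_self ..)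
      have hF' : ∀ x ∈ F, x.ds = false := fun x hx => hF x (List.mem_cons_of_mem _ hx)
      have hres : T.res = [] := by
        by_contra hne
        exact absurd (h5 hne).1 (by simp)
      have hpw : ds.Pairwise (· < ·) := by
        rw [hres, List.nil_append] at h7
        exact (List.pairwise_cons.1 h7).2
      by_cases h0 : f.lv = 0
      · have hdr : T.draw a = PS.norm { T with todo := F ++ e :: r, seq := T.seq ++ [a] } := by
          unfold PS.draw
          rw [hT, List.cons_append]
          dsimp only
          rw [if_pos h0]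
        have hgo' := d5_norm_go (S := { T with todo := F ++ e :: r, seq := T.seq ++ [a] })
          (F := F) (e := e) (r := r) rfl hF' he hgo
        rw [← hdr] at hgo'
        have hpend : (T.draw a).pend = T.pend := by rw [hdr, d5_norm_pend]
        have hres' : (T.draw a).res = [] := by rw [hdr, d5_norm_res]; exact hres
        have := ih (T.draw a) F e r (by rw [hdr, d5_norm_todo]) hF' he hp h2 hgo'.1 hgo'.2
          (fun h => absurd hres' h) (by rw [hres']; exact Nat.zero_le _)
          (by rw [hres']; exact hpw)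
        rw [hpend] at this
        exact this
      · have hdr : T.draw a = PS.norm { T with
            seq := T.seq ++ [a], todo := subs (f.lv - 1) f.ad [] a ++ (F ++ e :: r) } := by
          unfold PS.draw
          rw [hT, List.cons_append]
          dsimp only
          rw [if_neg h0, if_neg (by rw [hf]; simp)]
        have hF'' : ∀ x ∈ subs (f.lv - 1) f.ad [] a ++ F, x.ds = false := by
          intro x hx
          rcases List.mem_append.1 hx with h | h
          · exact d5_subs_nil_ds h
          · exact hF' x h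
        have htodo : subs (f.lv - 1) f.ad [] a ++ (F ++ e :: r)
            = (subs (f.lv - 1) f.ad [] a ++ F) ++ e :: r := by rw [List.append_assoc]
        have hgo' := d5_norm_go (S := { T with
            seq := T.seq ++ [a], todo := subs (f.lv - 1) f.ad [] a ++ (F ++ e :: r) })
          (F := subs (f.lv - 1) f.ad [] a ++ F) (e := e) (r := r) htodo hF'' he hgo
        rw [← hdr] at hgo'
        have hpend : (T.draw a).pend = T.pend := by rw [hdr, d5_norm_pend]
        have hres' : (T.draw a).res = [] := by rw [hdr, d5_norm_res]; exact hres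
        have := ih (T.draw a) (subs (f.lv - 1) f.ad [] a ++ F) e r
          (by rw [hdr, d5_norm_todo]; exact htodo) hF'' he hp h2 hgo'.1 hgo'.2
          (fun h => absurd hres' h) (by rw [hres']; exact Nat.zero_le _)
          (by rw [hres']; exact hpw)
        rw [hpend] at this
        exact this
    | nil =>
      have hlv : e.lv ≠ 0 := by
        rcases h4 hgo with h | h
        · exact absurd rfl h
        · exact h
      rw [List.nil_append] at hT
      by_cases hlen : T.res.length < T.need
      · have hdr : T.draw a = { T with res := T.res ++ [a] } := by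
          unfold PS.draw
          rw [hT]
          dsimp only
          rw [if_neg hlv, if_pos he, if_pos hlen]
        have hgo' : (T.draw a).go = true := by rw [hdr]; exact hgo
        have hpend : (T.draw a).pend = T.pend := by rw [hdr]
        have hres' : (T.draw a).res = T.res ++ [a] := by rw [hdr]
        have hneed : (T.draw a).need = T.need := by unfold PS.need; rw [hpend]
        have := ih (T.draw a) [] e r (by rw [hdr]; exact hT) (by simp) he hp h2
          (fun h => by rw [hgo'] at h; exact Bool.noConfusion h) (fun _ => Or.inr hlv)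
          (fun _ => ⟨rfl, hlv⟩)
          (by rw [hres', hneed, List.length_append, List.length_singleton]; omega)
          (by rw [hres', List.append_assoc]; exact h7)
        rw [hpend] at this
        exact this
      · have hdr : T.draw a = PS.norm ⟨T.seq ++ [a], subs (e.lv - 1) e.ad T.res a ++ r,
            T.pend.tail, [], T.go⟩ := by
          unfold PS.draw
          rw [hT]
          dsimp only
          rw [if_neg hlv, if_pos he, if_neg hlen]
        have hlen' : T.res.length = T.pend.headD 0 + 1 := by
          have : T.need = T.pend.headD 0 + 1 := rfl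
          omega
        obtain ⟨l, hl⟩ : ∃ l, e.lv = l + 1 := Nat.exists_eq_succ_of_ne_zero hlv
        have hl1 : e.lv - 1 = l := by omega
        rw [hl1] at hdr
        obtain ⟨p1, p2, p3⟩ := List.pairwise_append.1 h7
        have hcnt := d5_count_subs (l := l) (ad := e.ad) (P := T.res) (a := a)
          (p1.imp (fun h => ne_of_lt h)) (fun x hx => p3 x hx a (List.mem_cons_self ..))
        rw [hlen'] at hcnt
        obtain ⟨F1, e1, r1, q1, q2, q3, q4⟩ := d5_split _ _ hcnt
        have hlvs : ∀ x ∈ subs l e.ad T.res a, x.lv = l := fun x hx => d5_subs_lv hx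
        have he1 : e1.lv = l := hlvs e1 (by rw [q1]; simp)
        have hr1 : ∀ x ∈ r1, x.lv = l := fun x hx => hlvs x (by rw [q1]; simp [hx])
        have htodo : subs l e.ad T.res a ++ r = F1 ++ e1 :: (r1 ++ r) := by
          rw [q1, List.append_assoc, List.cons_append]
        have hgo' := d5_norm_go (S := ⟨T.seq ++ [a], subs l e.ad T.res a ++ r,
            T.pend.tail, [], T.go⟩) (F := F1) (e := e1) (r := r1 ++ r) htodo q2 q3 hgo
        rw [← hdr] at hgo'
        have hpend : (T.draw a).pend = T.pend.tail := by rw [hdr, d5_norm_pend]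
        have hres' : (T.draw a).res = [] := by rw [hdr, d5_norm_res]
        obtain ⟨e', r', w1, w2, w3, w4, w5⟩ := ih (T.draw a) F1 e1 (r1 ++ r)
          (by rw [hdr, d5_norm_todo]; exact htodo) q2 q3 hp h2 hgo'.1 hgo'.2
          (fun h => absurd hres' h) (by rw [hres']; exact Nat.zero_le _)
          (by rw [hres']; exact (List.pairwise_cons.1 p2).2)
        refine ⟨e', r', w1, w2, w3, w4, ?_⟩
        rw [w5, d5_lo_append r1 r hr1, q4, hpend, he1, hl, low, add_assoc]

/-- D5d. The next designated entry is `e` (`S.todo = F ++ e :: r`, `F` undesignated): the macro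
move stops at the first designated bottom entry inside `e`. (`F ≠ []` or `e` is not a bottom entry,
because otherwise the state would be at rest.) Draws increasing, so that all reserved numbers are
smaller than the head. -/
theorem mac_next {S S' : PS} {ds : List ℕ} (h : IsMac S ds S') (hgo : S.go = true)
    (hres : S.res = []) {F : List Ent} {e : Ent} {r : List Ent} (hS : S.todo = F ++ e :: r)
    (hF : ∀ x ∈ F, x.ds = false) (he : e.ds = true) (hne : F ≠ [] ∨ e.lv ≠ 0)
    (hinc : ds.Pairwise (· < ·)) :
    ∃ e' r', S'.todo = e' :: r' ∧ e'.lv = 0 ∧ e'.ds = true ∧ S'.res = [] ∧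
      lo r' = lo r + low e.lv S.pend := by
  obtain ⟨h1, h2, h3⟩ := h
  subst h1
  exact d5_key ds S F e r hS hF he h3 h2
    (fun h => by rw [hgo] at h; exact Bool.noConfusion h) (fun _ => hne)
    (fun h => absurd hres h) (by rw [hres]; exact Nat.zero_le _) (by rw [hres]; exact hinc)

end MPb6P
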