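import Pool.Agent.Lib.MP_b6d339_lc.Pos.Defs

/-!
# Erdős 592, positive side: macro moves, physical side
-/

open Filter Ordinal

namespace MPb6P

theorem d5b_norm_seq (S : PS) : S.norm.seq = S.seq := by
  unfold PS.norm
  split
  · rfl
  · split_ifs <;> rfl

theorem d5b_norm_todo (S : PS) : S.norm.todo = S.todo := by
  unfold PS.norm
  split
  · rename_i h
    rw [h]
  · split_ifs <;> rfl

theorem d5b_subs_map (l : ℕ) (ad : List ℕ) (P : List ℕ) (a : ℕ) :
    (subs l ad P a).map Ent.lv = List.replicate a l := by
  unfold subs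
  rw [List.map_map]
  apply List.ext_getElem
  · simp
  · intro i h1 h2
    simp

/-- a draw either is idle (same sequence, same to-do list, same `go`), or draws a number. -/
theorem d5b_draw (S : PS) (a : ℕ) :
    ((S.draw a).seq = S.seq ∧ (S.draw a).todo = S.todo ∧ (S.draw a).go = S.go) ∨
      (S.todo ≠ [] ∧ (S.draw a).seq = S.seq ++ [a] ∧
        (S.draw a).todo.map Ent.lv = pstep (S.todo.map Ent.lv) a) := by
  rcases S with ⟨seq, todo, pend, res, go⟩
  rcases todo with _ | ⟨e, r⟩
  · left
    exact ⟨rfl, rfl, rfl⟩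
  · by_cases h0 : e.lv = 0
    · right
      refine ⟨List.cons_ne_nil _ _, ?_, ?_⟩
      · simp only [PS.draw, if_pos h0, d5b_norm_seq]
      · simp only [PS.draw, if_pos h0, d5b_norm_todo]
        simp only [List.map_cons, h0, pstep]
    · obtain ⟨l, hl⟩ := Nat.exists_eq_succ_of_ne_zero h0
      by_cases hd : e.ds = true
      · by_cases hr : res.length < (PS.mk seq (e :: r) pend res go).need
        · left
          simp only [PS.draw, if_neg h0, if_pos hd, if_pos hr, and_self]
        · right
          refine ⟨List.cons_ne_nil _ _, ?_, ?_⟩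
          · simp only [PS.draw, if_neg h0, if_pos hd, if_neg hr, d5b_norm_seq]
          · simp only [PS.draw, if_neg h0, if_pos hd, if_neg hr, d5b_norm_todo]
            simp only [List.map_append, d5b_subs_map, List.map_cons, hl, pstep,
              Nat.succ_eq_add_one, Nat.add_sub_cancel]
      · right
        refine ⟨List.cons_ne_nil _ _, ?_, ?_⟩
        · simp only [PS.draw, if_neg h0, if_neg hd, d5b_norm_seq]
        · simp only [PS.draw, if_neg h0, if_neg hd, d5b_norm_todo]
          simp only [List.map_append, d5b_subs_map, List.map_cons, hl, pstep,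
            Nat.succ_eq_add_one, Nat.add_sub_cancel]

theorem d5b_foldl_seq (ds : List ℕ) (S : PS) : S.seq <+: (ds.foldl PS.draw S).seq := by
  induction ds generalizing S with
  | nil => exact List.prefix_rfl
  | cons a ds ih =>
    rw [List.foldl_cons]
    refine List.IsPrefix.trans ?_ (ih (S.draw a))
    rcases d5b_draw S a with h | h
    · rw [h.1]
    · rw [h.2.1]
      exact List.prefix_append _ _

theorem d5b_mac_seq (ds : List ℕ) (S : PS) (hend : (ds.foldl PS.draw S).go = false)
    (hgo : S.go = true) : ∃ a ∈ ds, S.seq ++ [a] <+: (ds.foldl PS.draw S).seq := by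
  induction ds generalizing S with
  | nil =>
    rw [List.foldl_nil, hgo] at hend
    exact absurd hend (by simp)
  | cons a ds ih =>
    rw [List.foldl_cons] at hend ⊢
    rcases d5b_draw S a with h | h
    · obtain ⟨b, hb, hb'⟩ := ih (S.draw a) hend (by rw [h.2.2, hgo])
      refine ⟨b, List.mem_cons_of_mem _ hb, ?_⟩
      rw [← h.1]
      exact hb'
    · refine ⟨a, List.mem_cons_self, ?_⟩
      rw [← h.2.1]
      exact d5b_foldl_seq ds (S.draw a)

/-- D5e. The first physical number. -/
theorem mac_seq {S S' : PS} {ds : List ℕ} (h : IsMac S ds S') (hgo : S.go = true)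
    (hS : S.todo ≠ []) : ∃ a ∈ ds, S.seq ++ [a] <+: S'.seq := by
  obtain ⟨h1, h2, -⟩ := h
  subst h1
  exact d5b_mac_seq ds S h2 hgo

/-- D5f. States reached by draws stay complete with respect to the physical to-do list: if
`Cmp (S'.todo.map lv) u` then the whole element is complete. -/
theorem mac_phys {S S' : PS} {ds : List ℕ} (h : ds.foldl PS.draw S = S') (u : List ℕ)
    (hu : Cmp (S'.todo.map Ent.lv) u) :
    ∃ v, S'.seq = S.seq ++ v ∧ Cmp (S.todo.map Ent.lv) (v ++ u) := by
  subst h
  induction ds generalizing S with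
  | nil => exact ⟨[], by simp, by simpa using hu⟩
  | cons a ds ih =>
    rw [List.foldl_cons] at hu ⊢
    obtain ⟨v, hv, hv'⟩ := ih (S := S.draw a) hu
    rcases d5b_draw S a with h | h
    · refine ⟨v, by rw [hv, h.1], ?_⟩
      rw [← h.2.1]
      exact hv'
    · refine ⟨a :: v, by rw [hv, h.2.1, List.append_assoc]; rfl, ?_⟩
      rw [h.2.2] at hv'
      refine Cmp.cons ?_ hv'
      simpa using h.1

end MPb6P
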