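import Pool.Agent.Lib.MP_b6d339_lc.Pos.Defs
import Pool.Agent.Lib.MP_b6d339_lc.Pos.D2
import Pool.Agent.Lib.MP_b6d339_lc.Pos.D5
import Pool.Agent.Lib.MP_b6d339_lc.Pos.D5b
/-!
# Erdős 592, positive side: the type of the set of leaves
-/

open Filter Ordinal

namespace MPb6P

theorem d7_opow_countable (n : ℕ) : (ω ^ (n : Ordinal.{0})).card ≤ Cardinal.aleph0 := by
  induction n with
  | zero => simp
  | succ n ih =>
    rw [Nat.cast_succ, opow_add, opow_one, card_mul, card_omega0]
    exact Cardinal.mul_le_of_le le_rfl ih le_rfl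

theorem d7_lo_countable (r : List Ent) : (lo r).card ≤ Cardinal.aleph0 := by
  induction r with
  | nil => simp [lo]
  | cons e r ih =>
    unfold lo
    split_ifs with h
    · rw [card_add]
      exact Cardinal.add_le_of_le le_rfl ih (d7_opow_countable e.lv)
    · exact ih

theorem d7_lo_eq_zero {r : List Ent} (h : lo r = 0) : ∀ e ∈ r, e.ds = false := by
  induction r with
  | nil => intro e he; simp at he
  | cons e r ih =>
    unfold lo at h
    split_ifs at h with h1
    · exfalso
      have h2 : (0 : Ordinal.{0}) < ω ^ (e.lv : Ordinal.{0}) := opow_pos _ omega0_pos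
      have h3 : ω ^ (e.lv : Ordinal.{0}) ≤ lo r + ω ^ (e.lv : Ordinal.{0}) := le_add_left le_rfl
      rw [h] at h3
      exact absurd h3 (not_le.2 h2)
    · intro x hx
      rcases List.mem_cons.1 hx with rfl | hx
      · simpa using h1
      · exact ih h x hx

theorem d7_lo_split {r : List Ent} (h : lo r ≠ 0) : ∃ F e r0, r = F ++ e :: r0 ∧
    (∀ x ∈ F, x.ds = false) ∧ e.ds = true ∧ lo r = lo r0 + ω ^ (e.lv : Ordinal.{0}) := by
  induction r with
  | nil => exact absurd rfl h
  | cons e r ih =>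
    by_cases h1 : e.ds = true
    · exact ⟨[], e, r, rfl, by simp, h1, by simp [lo, h1]⟩
    · have h2 : lo (e :: r) = lo r := by simp [lo, h1]
      rw [h2] at h
      obtain ⟨F, e', r0, h3, h4, h5, h6⟩ := ih h
      refine ⟨e :: F, e', r0, by rw [h3]; rfl, ?_, h5, by rw [h2, h6]⟩
      intro x hx
      rcases List.mem_cons.1 hx with rfl | hx
      · simpa using h1
      · exact h4 x hx

/-- there are arbitrarily large `k'` with given parent and declaration -/
theorem d7_exists (k : ℕ) (δ : List ℕ) (N : ℕ) : ∃ k' ≥ N, par k' = k ∧ dec k' = δ := by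
  refine ⟨Nat.pair k (Nat.pair (Encodable.encode δ) N), ?_, ?_, ?_⟩
  · exact (Nat.right_le_pair _ _).trans (Nat.right_le_pair _ _)
  · simp [par]
  · simp [dec]

/-- D7a. The leaves of Builder's tree contain a copy of `ω ^ ω ^ D`. Claim, by induction on
`θ = lo r`: if `(node k).todo = e :: r`, `e.lv = 0`, `e.ds`, `(node k).res = []`, then
`Emb X (node k).seq (ω ^ lo r)`. If `r` has no designated entry, any child is a leaf (D5c). Otherwise
`r = F ++ e' :: r0`, `lo r = lo r0 + ω ^ e'.lv`, every `θ' < lo r` is `≤ lo r0 + low e'.lv δ` for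
some `δ` (D5b), and for infinitely many `k'` one has `par k' = k`, `dec k' = δ`; D5d, D5e, D2. The
root is similar (`lo = ω ^ D`). -/
theorem builder_emb (D : ℕ) (hD : 1 ≤ D) (node : ℕ → PS) (dr : ℕ → List ℕ) (h0 : node 0 = PS.root D)
    (hgo : ∀ k, (node k).go = false)
    (h1 : ∀ k, (node (par k)).todo = [] → node (k + 1) = node (par k))
    (h2 : ∀ k, (node (par k)).todo ≠ [] →
      IsMac ((node (par k)).beg (dec k)) (dr k) (node (k + 1)) ∧
        (∀ a ∈ dr k, k < a) ∧ (dr k).Pairwise (· < ·)) :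
    Emb {s | ∃ k, (node k).todo = [] ∧ s = (node k).seq} [] (ω ^ (ω ^ (D : Ordinal.{0}))) := by
  set X : Set (List ℕ) := {s | ∃ k, (node k).todo = [] ∧ s = (node k).seq} with hX
  have claim : ∀ (θ : Ordinal.{0}) (k : ℕ) (e : Ent) (r : List Ent), (node k).todo = e :: r →
      e.lv = 0 → e.ds = true → (node k).res = [] → lo r = θ → Emb X (node k).seq (ω ^ θ) := by
    intro θ
    induction θ using WellFoundedLT.induction with
    | ind θ ih =>
    intro k e r htodo hlv hds hres hlo
    have hbeg : ∀ δ, ((node k).beg δ).todo = ⟨0, e.ad, false⟩ :: r ∧ ((node k).beg δ).go = true ∧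
        ((node k).beg δ).res = [] ∧ ((node k).beg δ).pend = δ ∧
        ((node k).beg δ).seq = (node k).seq := by
      intro δ
      unfold PS.beg
      rw [htodo]
      simp [hlv, hres]
    have hne : (node k).todo ≠ [] := by rw [htodo]; simp
    by_cases hθ : θ = 0
    · -- a leaf
      obtain ⟨k', -, hk1, hk2⟩ := d7_exists k [] 0
      have h3 := h2 k' (by rw [hk1]; exact hne)
      rw [hk1] at h3
      obtain ⟨b1, b2, b3, b4, b5⟩ := hbeg (dec k')
      have hleaf : (node (k' + 1)).todo = [] := by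
        refine mac_fin h3.1 b2 (by rw [b1]; simp) ?_
        rw [b1]
        intro x hx
        rcases List.mem_cons.1 hx with rfl | hx
        · rfl
        · exact d7_lo_eq_zero (hlo.trans hθ) x hx
      obtain ⟨a, -, ha⟩ := mac_seq h3.1 b2 (by rw [b1]; simp)
      rw [b5] at ha
      rw [hθ, opow_zero]
      refine ⟨fun _ => (node (k' + 1)).seq, ?_, ?_⟩
      · intro x y hxy hy
        rw [Order.lt_one_iff] at hy
        rw [hy] at hxy
        exact absurd hxy (not_lt.2 (zero_le (a := x)))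
      · intro x _
        exact ⟨⟨k' + 1, hleaf, rfl⟩, (List.prefix_append _ _).trans ha⟩
    · rw [← hlo] at hθ ⊢
      obtain ⟨F, e', r0, hr, hF, he', hlo'⟩ := d7_lo_split hθ
      refine Emb.of_children hθ (d7_lo_countable r) ?_
      intro θ' hθ' N
      -- the declaration
      obtain ⟨δ, hδ⟩ : ∃ δ : List ℕ, θ' ≤ lo r0 + low e'.lv δ := by
        rw [hlo'] at hθ'
        rcases le_or_gt θ' (lo r0) with h | h
        · exact ⟨[], h.trans (le_add_right le_rfl)⟩
        · have h3 : θ' - lo r0 < ω ^ (e'.lv : Ordinal.{0}) := by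
            rw [Ordinal.sub_lt_of_le h.le]
            exact hθ'
          obtain ⟨δ, hδ⟩ := exists_low _ _ h3
          refine ⟨δ, ?_⟩
          calc θ' = lo r0 + (θ' - lo r0) := (Ordinal.add_sub_cancel_of_le h.le).symm
            _ ≤ _ := by gcongr
      obtain ⟨k', hk0, hk1, hk2⟩ := d7_exists k δ N
      have h3 := h2 k' (by rw [hk1]; exact hne)
      rw [hk1, hk2] at h3
      obtain ⟨b1, b2, b3, b4, b5⟩ := hbeg δ
      obtain ⟨e'', r', m1, m2, m3, m4, m5⟩ := mac_next h3.1 b2 b3
        (F := ⟨0, e.ad, false⟩ :: F) (e := e') (r := r0) (by rw [b1, hr]; rfl) (by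
          intro x hx
          rcases List.mem_cons.1 hx with rfl | hx
          · rfl
          · exact hF x hx) he' (Or.inl (by simp)) h3.2.2
      rw [b4] at m5
      obtain ⟨a, ha1, ha2⟩ := mac_seq h3.1 b2 (by rw [b1]; simp)
      rw [b5] at ha2
      refine ⟨a, (hk0.trans (h3.2.1 a ha1).le), Emb.of_pre ha2 ?_⟩
      have h4 : lo r' < θ := by
        rw [← hlo, hlo', m5]
        gcongr
        exact low_lt _ _
      refine Emb.mono ?_ (ih (lo r') h4 (k' + 1) e'' r' m1 m2 m3 m4 rfl)
      exact opow_le_opow_right omega0_pos (by rw [m5]; exact hδ)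
  -- the root
  have hroot : ∀ δ, ((node 0).beg δ).todo = [⟨D, [], true⟩] ∧ ((node 0).beg δ).go = true ∧
      ((node 0).beg δ).res = [] ∧ ((node 0).beg δ).pend = δ ∧ ((node 0).beg δ).seq = [] := by
    intro δ
    rw [h0]
    unfold PS.root PS.beg
    have hD0 : D ≠ 0 := by omega
    simp [hD0]
  have hne : (node 0).todo ≠ [] := by rw [h0]; simp [PS.root]
  refine Emb.of_children (opow_pos _ omega0_pos).ne' (d7_opow_countable D) ?_
  intro θ' hθ' N
  obtain ⟨δ, hδ⟩ := exists_low _ _ hθ'
  obtain ⟨k', hk0, hk1, hk2⟩ := d7_exists 0 δ N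
  have h3 := h2 k' (by rw [hk1]; exact hne)
  rw [hk1, hk2] at h3
  obtain ⟨b1, b2, b3, b4, b5⟩ := hroot δ
  obtain ⟨e'', r', m1, m2, m3, m4, m5⟩ := mac_next h3.1 b2 b3
    (F := []) (e := ⟨D, [], true⟩) (r := []) (by rw [b1]; rfl) (by simp) rfl
    (Or.inr (by simp; omega)) h3.2.2
  rw [b4] at m5
  obtain ⟨a, ha1, ha2⟩ := mac_seq h3.1 b2 (by rw [b1]; simp)
  rw [b5] at ha2
  refine ⟨a, (hk0.trans (h3.2.1 a ha1).le), Emb.of_pre ha2 ?_⟩
  refine Emb.mono ?_ (claim (lo r') (k' + 1) e'' r' m1 m2 m3 m4 rfl)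
  refine opow_le_opow_right omega0_pos ?_
  rw [m5]
  simpa [lo] using hδ

end MPb6P
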