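import Pool.Agent.Lib.MP_b6d339_lc.Pos.Defs
import Pool.Agent.Lib.MP_b6d339_lc.Pos.D5b
/-!
# Erdős 592, positive side: leaves are complete elements
-/

open Filter Ordinal

namespace MPb6P

theorem d7b_beg (S : PS) (δ : List ℕ) :
    (S.beg δ).seq = S.seq ∧ (S.beg δ).todo.map Ent.lv = S.todo.map Ent.lv := by
  rcases S with ⟨sq, td, pe, re, go⟩
  cases td with
  | nil => exact ⟨rfl, rfl⟩
  | cons e r =>
    by_cases h : e.lv = 0
    · simp [PS.beg, h]
    · simp [PS.beg, h]

theorem d7b_all (D : ℕ) (node : ℕ → PS) (dr : ℕ → List ℕ) (h0 : node 0 = PS.root D)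
    (h1 : ∀ k, (node (par k)).todo = [] → node (k + 1) = node (par k))
    (h2 : ∀ k, (node (par k)).todo ≠ [] →
      IsMac ((node (par k)).beg (dec k)) (dr k) (node (k + 1)) ∧
        (∀ a ∈ dr k, k < a) ∧ (dr k).Pairwise (· < ·))
    (k : ℕ) : ∀ u, Cmp ((node k).todo.map Ent.lv) u → Cmp [D] ((node k).seq ++ u) := by
  induction k using Nat.strong_induction_on with
  | _ k ih =>
    intro u hu
    rcases k with _ | k
    · rw [h0] at hu ⊢
      exact hu
    · have hp : par k < k + 1 := Nat.lt_succ_of_le (Nat.unpair_left_le k)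
      by_cases hk : (node (par k)).todo = []
      · rw [h1 k hk] at hu ⊢
        exact ih _ hp u hu
      · obtain ⟨hm, -, -⟩ := h2 k hk
        obtain ⟨v, hv, hc⟩ := mac_phys hm.1 u hu
        rw [(d7b_beg _ _).2] at hc
        have := ih _ hp _ hc
        rw [hv, (d7b_beg _ _).1, List.append_assoc]
        exact this

/-- D7b. All nodes are reached from the root by draws, so finished nodes are complete elements. -/
theorem builder_cmp (D : ℕ) (node : ℕ → PS) (dr : ℕ → List ℕ) (h0 : node 0 = PS.root D)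
    (h1 : ∀ k, (node (par k)).todo = [] → node (k + 1) = node (par k))
    (h2 : ∀ k, (node (par k)).todo ≠ [] →
      IsMac ((node (par k)).beg (dec k)) (dr k) (node (k + 1)) ∧
        (∀ a ∈ dr k, k < a) ∧ (dr k).Pairwise (· < ·))
    (k : ℕ) (hk : (node k).todo = []) : Cmp [D] (node k).seq := by
  have h := d7b_all D node dr h0 h1 h2 k []
  rw [hk, List.append_nil] at h
  exact h Cmp.nil

end MPb6P
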