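import Pool.Agent.Lib.MP_b6d339_lc.Pos.Defs
import Pool.Agent.Lib.MP_b6d339_lc.Pos.D1
import Pool.Agent.Lib.MP_b6d339_lc.Pos.D3
import Pool.Agent.Lib.MP_b6d339_lc.Pos.D6
import Pool.Agent.Lib.MP_b6d339_lc.Pos.D7
import Pool.Agent.Lib.MP_b6d339_lc.Pos.D7b
/-!
# Erdős 592, positive side: the dichotomy
-/

open Filter Ordinal

namespace MPb6P

/-- **The dichotomy.** -/
theorem dichotomy (D : ℕ) (hD : 1 ≤ D)
    (G : SimpleGraph (ω ^ (ω ^ (D : Ordinal.{0})) : Ordinal.{0}).ToType) :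
    (∃ H : Set (ω ^ (ω ^ (D : Ordinal.{0})) : Ordinal.{0}).ToType,
      typeLT H = ω ^ (ω ^ (D : Ordinal.{0})) ∧ ∀ x ∈ H, ∀ y ∈ H, ¬ G.Adj x y) ∨
    WC (Blue D G) (PS.root D) := by
  by_cases h : WC (Blue D G) (PS.root D)
  · exact Or.inr h
  · obtain ⟨node, dr, h0, hgo, h1, h2, h3⟩ := builder D (Blue D G) h
    refine Or.inl (indep_of_Emb D G _ ?_ (builder_emb D hD node dr h0 hgo h1 h2) ?_)
    · rintro s ⟨k, hk, rfl⟩
      exact builder_cmp D node dr h0 h1 h2 k hk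
    · rintro s ⟨k, hk, rfl⟩ t ⟨l, hl, rfl⟩ hb
      exact h3 k l (W.win hk hl hb)

end MPb6P
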