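import Pool.Agent.Lib.MP_b6d339_lc.Pos.PDefs

/-!
# Erdős 592, positive side: from the game to a strategy
-/

open Filter Ordinal

namespace MPb6P

theorem W.symm {Bl : List ℕ → List ℕ → Prop} (hs : ∀ s t, Bl s t → Bl t s) {A B : PS}
    (h : W Bl A B) : W Bl B A := by
  induction h with
  | win h1 h2 h3 => exact W.win h2 h1 (hs _ _ h3)
  | begA δ h1 h2 h3 _ ih => exact W.begB δ h2 h1 h3 ih
  | begB δ h1 h2 h3 _ ih => exact W.begA δ h2 h1 h3 ih
  | drawA s h1 h2 h3 _ ih => exact W.drawB s h2 h1 h3 ih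
  | drawB s h1 h2 h3 _ ih => exact W.drawA s h2 h1 h3 ih

/-- ranked version of `W` -/
inductive h3_R (Bl : List ℕ → List ℕ → Prop) : Ordinal.{0} → PS → PS → Prop
  | win {α : Ordinal.{0}} {A B : PS} : A.todo = [] → B.todo = [] → Bl A.seq B.seq →
      h3_R Bl α A B
  | begA {α β : Ordinal.{0}} {A B : PS} (δ : List ℕ) : β < α → A.go = false → B.go = false →
      A.todo ≠ [] → h3_R Bl β (A.beg δ) B → h3_R Bl α A B
  | begB {α β : Ordinal.{0}} {A B : PS} (δ : List ℕ) : β < α → A.go = false → B.go = false →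
      B.todo ≠ [] → h3_R Bl β A (B.beg δ) → h3_R Bl α A B
  | drawA {α : Ordinal.{0}} {A B : PS} (s : Set ℕ) (f : ℕ → Ordinal.{0}) : (∀ a, f a < α) →
      A.go = true → B.go = false → s ∈ UU → (∀ a ∈ s, h3_R Bl (f a) (A.draw a) B) →
      h3_R Bl α A B
  | drawB {α : Ordinal.{0}} {A B : PS} (s : Set ℕ) (f : ℕ → Ordinal.{0}) : (∀ a, f a < α) →
      A.go = false → B.go = true → s ∈ UU → (∀ a ∈ s, h3_R Bl (f a) A (B.draw a)) →
      h3_R Bl α A B

theorem h3_R_symm {Bl : List ℕ → List ℕ → Prop} (hs : ∀ s t, Bl s t → Bl t s)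
    {α : Ordinal.{0}} {A B : PS} (h : h3_R Bl α A B) : h3_R Bl α B A := by
  induction h with
  | win h1 h2 h3 => exact h3_R.win h2 h1 (hs _ _ h3)
  | begA δ h0 h1 h2 h3 _ ih => exact h3_R.begB δ h0 h2 h1 h3 ih
  | begB δ h0 h1 h2 h3 _ ih => exact h3_R.begA δ h0 h2 h1 h3 ih
  | drawA s f h0 h1 h2 h3 _ ih => exact h3_R.drawB s f h0 h2 h1 h3 ih
  | drawB s f h0 h1 h2 h3 _ ih => exact h3_R.drawA s f h0 h2 h1 h3 ih

theorem h3_sup (f : ℕ → Ordinal.{0}) (a : ℕ) : f a < ⨆ a, Order.succ (f a) :=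
  (Order.lt_succ (f a)).trans_le (Ordinal.le_iSup (fun a => Order.succ (f a)) a)

theorem h3_of_W {Bl : List ℕ → List ℕ → Prop} {A B : PS} (h : W Bl A B) :
    ∃ α, h3_R Bl α A B := by
  classical
  induction h with
  | win h1 h2 h3 => exact ⟨0, h3_R.win h1 h2 h3⟩
  | begA δ h1 h2 h3 _ ih =>
    obtain ⟨β, hβ⟩ := ih
    exact ⟨Order.succ β, h3_R.begA δ (Order.lt_succ β) h1 h2 h3 hβ⟩
  | begB δ h1 h2 h3 _ ih =>
    obtain ⟨β, hβ⟩ := ih
    exact ⟨Order.succ β, h3_R.begB δ (Order.lt_succ β) h1 h2 h3 hβ⟩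
  | @drawA A B s h1 h2 h3 _ ih =>
    have hex : ∀ a, ∃ β, a ∈ s → h3_R Bl β (A.draw a) B := by
      intro a
      by_cases ha : a ∈ s
      · obtain ⟨β, hβ⟩ := ih a ha
        exact ⟨β, fun _ => hβ⟩
      · exact ⟨0, fun h => absurd h ha⟩
    choose f hf using hex
    exact ⟨⨆ a, Order.succ (f a), h3_R.drawA s f (h3_sup f) h1 h2 h3 hf⟩
  | @drawB A B s h1 h2 h3 _ ih =>
    have hex : ∀ a, ∃ β, a ∈ s → h3_R Bl β A (B.draw a) := by
      intro a
      by_cases ha : a ∈ s
      · obtain ⟨β, hβ⟩ := ih a ha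
        exact ⟨β, fun _ => hβ⟩
      · exact ⟨0, fun h => absurd h ha⟩
    choose f hf using hex
    exact ⟨⨆ a, Order.succ (f a), h3_R.drawB s f (h3_sup f) h1 h2 h3 hf⟩

/-- the position is won -/
def h3_Wn (Bl : List ℕ → List ℕ → Prop) (P : Pos) : Prop := ∃ α, h3_R Bl α P.1 P.2

/-- the rank of a position -/
noncomputable def h3_rk (Bl : List ℕ → List ℕ → Prop) (P : Pos) : Ordinal.{0} :=
  sInf {α | h3_R Bl α P.1 P.2}

theorem h3_rk_spec {Bl : List ℕ → List ℕ → Prop} {P : Pos} (h : h3_Wn Bl P) :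
    h3_R Bl (h3_rk Bl P) P.1 P.2 := csInf_mem (s := {α | h3_R Bl α P.1 P.2}) h

theorem h3_rk_le {Bl : List ℕ → List ℕ → Prop} {P : Pos} {α : Ordinal.{0}}
    (h : h3_R Bl α P.1 P.2) : h3_rk Bl P ≤ α := csInf_le' h

/-- the position after the beginning of a macro move -/
def h3_mv (P : Pos) (mv : Bool × List ℕ) : Pos :=
  if mv.1 then (P.1.beg mv.2, P.2) else (P.1, P.2.beg mv.2)

/-- a good choice of a macro move -/
def h3_ok (D : ℕ) (Bl : List ℕ → List ℕ → Prop) (P : Pos) (mv : Bool × List ℕ) : Prop :=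
  ((mv.1 = true → P.1.todo ≠ []) ∧ (mv.1 = false → P.2.todo ≠ [])) ∧ h3_Wn Bl (h3_mv P mv) ∧
    h3_rk Bl (h3_mv P mv) < h3_rk Bl P ∧ (P = (PS.root D, PS.root D) → mv.1 = true)

theorem h3_exists_mv (D : ℕ) {Bl : List ℕ → List ℕ → Prop} (hs : ∀ s t, Bl s t → Bl t s)
    {P : Pos} (h : h3_Wn Bl P) (h1 : P.1.go = false) (h2 : P.2.go = false)
    (h3 : P.1.todo ≠ [] ∨ P.2.todo ≠ []) : ∃ mv, h3_ok D Bl P mv := by
  obtain ⟨A, B⟩ := P
  have hR := h3_rk_spec h
  change A.go = false at h1
  change B.go = false at h2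
  change A.todo ≠ [] ∨ B.todo ≠ [] at h3
  change h3_R Bl (h3_rk Bl (A, B)) A B at hR
  have hbegA : ∀ (β : Ordinal.{0}) (δ : List ℕ), β < h3_rk Bl (A, B) → A.todo ≠ [] →
      h3_R Bl β (A.beg δ) B → ∃ mv, h3_ok D Bl (A, B) mv := by
    intro β δ hβ hA hR'
    refine ⟨(true, δ), ⟨fun _ => hA, fun h => Bool.noConfusion h⟩, ⟨β, hR'⟩, ?_, fun _ => rfl⟩
    exact (h3_rk_le (P := h3_mv (A, B) (true, δ)) hR').trans_lt hβ
  generalize hα : h3_rk Bl (A, B) = α at hR
  cases hR with
  | win h4 h5 _ => exact (h3.elim (fun h => h h4) (fun h => h h5)).elim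
  | begA δ hβ _ _ h5 h6 =>
    rw [← hα] at hβ
    exact hbegA _ δ hβ h5 h6
  | begB δ hβ _ _ h5 h6 =>
    rw [← hα] at hβ
    by_cases hroot : (A, B) = (PS.root D, PS.root D)
    · have hAB : A = B := by
        have hA : A = PS.root D := congrArg Prod.fst hroot
        have hB : B = PS.root D := congrArg Prod.snd hroot
        rw [hA, hB]
      subst hAB
      exact hbegA _ δ hβ h5 (h3_R_symm hs h6)
    · refine ⟨(false, δ), ⟨fun h => Bool.noConfusion h, fun _ => h5⟩, ⟨_, h6⟩, ?_,
        fun h => absurd h hroot⟩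
      exact (h3_rk_le (P := h3_mv (A, B) (false, δ)) h6).trans_lt hβ
  | drawA s f _ h4 _ _ _ => rw [h1] at h4; exact absurd h4 (by decide)
  | drawB s f _ _ h5 _ _ => rw [h2] at h5; exact absurd h5 (by decide)

open Classical in
/-- the strategy -/
noncomputable def h3_st (D : ℕ) (Bl : List ℕ → List ℕ → Prop) : Strat := fun P =>
  if h : ∃ mv, h3_ok D Bl P mv then h.choose
  else if P.1.todo = [] then (false, []) else (true, [])

theorem h3_st_ok (D : ℕ) (Bl : List ℕ → List ℕ → Prop) : StratOK (h3_st D Bl) := by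
  intro P hP
  by_cases h : ∃ mv, h3_ok D Bl P mv
  · have h1 : h3_st D Bl P = h.choose := by
      unfold h3_st
      rw [dif_pos h]
    rw [h1]
    exact h.choose_spec.1
  · by_cases h0 : P.1.todo = []
    · have h1 : h3_st D Bl P = (false, []) := by
        unfold h3_st
        rw [dif_neg h, if_pos h0]
      rw [h1]
      refine ⟨fun h => absurd h (by decide), fun _ => ?_⟩
      exact hP.resolve_left (fun h => h h0)
    · have h1 : h3_st D Bl P = (true, []) := by
        unfold h3_st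
        rw [dif_neg h, if_neg h0]
      rw [h1]
      exact ⟨fun _ => h0, fun h => absurd h (by decide)⟩

theorem h3_beg (S : PS) (δ : List ℕ) (h : S.todo ≠ []) :
    (S.beg δ).go = true ∧ (S.beg δ).todo ≠ [] := by
  obtain ⟨seq, todo, pend, res, go⟩ := S
  cases todo with
  | nil => exact absurd rfl h
  | cons e r =>
    unfold PS.beg
    dsimp only
    split_ifs
    · exact ⟨rfl, List.cons_ne_nil _ _⟩
    · exact ⟨rfl, List.cons_ne_nil _ _⟩

theorem h3_norm (S : PS) : S.norm.go = true → S.norm.todo ≠ [] := by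
  obtain ⟨seq, todo, pend, res, go⟩ := S
  cases todo with
  | nil =>
    intro h
    exact absurd h (by simp [PS.norm])
  | cons e r =>
    unfold PS.norm
    dsimp only
    split_ifs
    · intro _
      exact List.cons_ne_nil _ _
    · intro _
      exact List.cons_ne_nil _ _

theorem h3_draw (S : PS) (a : ℕ) (h : S.go = true → S.todo ≠ []) :
    (S.draw a).go = true → (S.draw a).todo ≠ [] := by
  obtain ⟨seq, todo, pend, res, go⟩ := S
  cases todo with
  | nil => exact h
  | cons e r =>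
    unfold PS.draw
    dsimp only
    split_ifs
    · exact h3_norm _
    · intro _
      exact List.cons_ne_nil _ _
    · exact h3_norm _
    · exact h3_norm _

/-- admissible positions -/
structure h3_G (P : Pos) : Prop where
  one : ¬ (P.1.go = true ∧ P.2.go = true)
  fst : P.1.go = true → P.1.todo ≠ []
  snd : P.2.go = true → P.2.todo ≠ []

theorem h3_isEmpty {α : Type} (l : List α) : l.isEmpty = false ↔ l ≠ [] := by
  cases l with
  | nil => simp
  | cons a l => simp

theorem h3_auto (D : ℕ) {Bl : List ℕ → List ℕ → Prop} (hs : ∀ s t, Bl s t → Bl t s)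
    {Q : Pos} (h : h3_Wn Bl Q) (hG : h3_G Q) :
    h3_Wn Bl (autoP (h3_st D Bl) Q) ∧ h3_rk Bl (autoP (h3_st D Bl) Q) ≤ h3_rk Bl Q ∧
      h3_G (autoP (h3_st D Bl) Q) ∧ ((autoP (h3_st D Bl) Q).1.go = false →
        (autoP (h3_st D Bl) Q).2.go = false → (autoP (h3_st D Bl) Q).1.todo = [] ∧
          (autoP (h3_st D Bl) Q).2.todo = []) := by
  by_cases hc : Q.1.go = false ∧ Q.2.go = false ∧
      (Q.1.todo.isEmpty = false ∨ Q.2.todo.isEmpty = false)
  · obtain ⟨h1, h2, h3⟩ := hc
    have h3' : Q.1.todo ≠ [] ∨ Q.2.todo ≠ [] :=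
      h3.imp (h3_isEmpty _).1 (h3_isEmpty _).1
    have hex := h3_exists_mv D hs h h1 h2 h3'
    have hst : h3_st D Bl Q = hex.choose := by
      unfold h3_st
      rw [dif_pos hex]
    have hauto : autoP (h3_st D Bl) Q = h3_mv Q hex.choose := by
      unfold autoP h3_mv
      rw [if_pos ⟨h1, h2, h3⟩, hst]
    obtain ⟨⟨ht1, ht2⟩, hW, hlt, _⟩ := hex.choose_spec
    rw [hauto]
    refine ⟨hW, hlt.le, ?_⟩
    generalize hex.choose = mv at ht1 ht2
    obtain ⟨b, δ⟩ := mv
    cases b with
    | true =>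
      change h3_G (Q.1.beg δ, Q.2) ∧ ((Q.1.beg δ).go = false → Q.2.go = false →
        (Q.1.beg δ).todo = [] ∧ Q.2.todo = [])
      have hb := h3_beg Q.1 δ (ht1 rfl)
      refine ⟨⟨?_, fun _ => hb.2, hG.snd⟩, ?_⟩
      · rintro ⟨_, h5⟩
        change Q.2.go = true at h5
        rw [h2] at h5
        exact absurd h5 (by decide)
      · intro h5
        rw [hb.1] at h5
        exact absurd h5 (by decide)
    | false =>
      change h3_G (Q.1, Q.2.beg δ) ∧ (Q.1.go = false → (Q.2.beg δ).go = false →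
        Q.1.todo = [] ∧ (Q.2.beg δ).todo = [])
      have hb := h3_beg Q.2 δ (ht2 rfl)
      refine ⟨⟨?_, hG.fst, fun _ => hb.2⟩, ?_⟩
      · rintro ⟨h5, _⟩
        change Q.1.go = true at h5
        rw [h1] at h5
        exact absurd h5 (by decide)
      · intro _ h5
        rw [hb.1] at h5
        exact absurd h5 (by decide)
  · have hauto : autoP (h3_st D Bl) Q = Q := by
      unfold autoP
      rw [if_neg hc]
    rw [hauto]
    refine ⟨h, le_rfl, hG, fun h1 h2 => ?_⟩
    by_contra h3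
    apply hc
    refine ⟨h1, h2, ?_⟩
    by_contra h4
    rw [not_or, h3_isEmpty, h3_isEmpty, not_not, not_not] at h4
    exact h3 h4

theorem h3_pos_append (σ : Strat) (D : ℕ) (ν : List ℕ) (a : ℕ) :
    pos σ D (ν ++ [a]) = autoP σ (stepP (pos σ D ν) a) := by
  unfold pos
  rw [List.foldl_append]
  rfl

theorem h3_win (D : ℕ) {Bl : List ℕ → List ℕ → Prop} (hs : ∀ s t, Bl s t → Bl t s)
    (α : Ordinal.{0}) : ∀ ν : List ℕ, h3_rk Bl (pos (h3_st D Bl) D ν) = α →
      h3_Wn Bl (pos (h3_st D Bl) D ν) → h3_G (pos (h3_st D Bl) D ν) →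
      ((pos (h3_st D Bl) D ν).1.go = false → (pos (h3_st D Bl) D ν).2.go = false →
        (pos (h3_st D Bl) D ν).1.todo = [] ∧ (pos (h3_st D Bl) D ν).2.todo = []) →
      WinT (Tm (h3_st D Bl) D) (fun ν => Bl (pos (h3_st D Bl) D ν).1.seq
        (pos (h3_st D Bl) D ν).2.seq) ν := by
  induction α using WellFoundedLT.induction with
  | ind α ih =>
    intro ν hα hW hG hN
    have hR := h3_rk_spec hW
    -- the step
    have hstep : ∀ (a : ℕ) (β : Ordinal.{0}), β < α →
        h3_R Bl β (stepP (pos (h3_st D Bl) D ν) a).1 (stepP (pos (h3_st D Bl) D ν) a).2 →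
        h3_G (stepP (pos (h3_st D Bl) D ν) a) →
        WinT (Tm (h3_st D Bl) D) (fun ν => Bl (pos (h3_st D Bl) D ν).1.seq
          (pos (h3_st D Bl) D ν).2.seq) (ν ++ [a]) := by
      intro a β hβ hR' hG'
      obtain ⟨h1, h2, h3, h4⟩ := h3_auto D hs (Q := stepP (pos (h3_st D Bl) D ν) a) ⟨β, hR'⟩ hG'
      rw [← h3_pos_append] at h1 h2 h3 h4
      exact ih _ ((h2.trans (h3_rk_le hR')).trans_lt hβ) (ν ++ [a]) rfl h1 h3 h4
    rw [hα] at hR
    cases hR with
    | win h4 h5 h6 =>
      have hg1 : (pos (h3_st D Bl) D ν).1.go = false := by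
        by_contra hg
        exact hG.fst (by simpa using hg) h4
      have hg2 : (pos (h3_st D Bl) D ν).2.go = false := by
        by_contra hg
        exact hG.snd (by simpa using hg) h5
      exact WinT.leaf ⟨hg1, hg2⟩ h6
    | begA δ _ h1 h2 h5 _ => exact absurd (hN h1 h2).1 h5
    | begB δ _ h1 h2 h5 _ => exact absurd (hN h1 h2).2 h5
    | drawA s f hf h1 h2 h3 h4 =>
      refine WinT.node s ?_ h3 ?_
      · rintro ⟨h5, _⟩
        rw [h1] at h5
        exact absurd h5 (by decide)
      · intro a ha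
        have hst : stepP (pos (h3_st D Bl) D ν) a =
            ((pos (h3_st D Bl) D ν).1.draw a, (pos (h3_st D Bl) D ν).2) := by
          unfold stepP
          rw [h1]
          rfl
        refine hstep a (f a) (hf a) ?_ ?_
        · rw [hst]
          exact h4 a ha
        · rw [hst]
          refine ⟨?_, h3_draw _ a hG.fst, hG.snd⟩
          rintro ⟨_, h5⟩
          change (pos (h3_st D Bl) D ν).2.go = true at h5
          rw [h2] at h5
          exact absurd h5 (by decide)
    | drawB s f hf h1 h2 h3 h4 =>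
      refine WinT.node s ?_ h3 ?_
      · rintro ⟨_, h5⟩
        rw [h2] at h5
        exact absurd h5 (by decide)
      · intro a ha
        have hst : stepP (pos (h3_st D Bl) D ν) a =
            ((pos (h3_st D Bl) D ν).1, (pos (h3_st D Bl) D ν).2.draw a) := by
          unfold stepP
          rw [h1]
          rfl
        refine hstep a (f a) (hf a) ?_ ?_
        · rw [hst]
          exact h4 a ha
        · rw [hst]
          refine ⟨?_, hG.fst, h3_draw _ a hG.snd⟩
          rintro ⟨h5, _⟩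
          change (pos (h3_st D Bl) D ν).1.go = true at h5
          rw [h1] at h5
          exact absurd h5 (by decide)

/-- H3. A positional strategy. Proof. Give every position with `W` an ordinal rank (stages of the
inductive definition; e.g. define `Wr α A B` by recursion on `α`: one of the five rules leads to
positions of smaller stage, and show `W A B ↔ ∃ α, Wr α A B`). `σ P` := a move `begA`/`begB` to a
position of smaller rank, if there is one. At the root take the move for the first player (use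
`W.symm` if the rule was `begB`; `W Bl (root D) (root D)` cannot come from `win` since `D`'s entry is
there, nor from draws). If `(A, B)` is at rest, not both finished, then `W` comes from `begA` or
`begB`, which begin an unfinished player. `WinT` by induction on the rank: claim: if `¬` both at rest
after `autoP`, and `W` holds at `pos σ D ν`, then `WinT … ν`. (Positions in which both players are in
the middle of a move do not occur: at most one `go` is true along `pos`.) -/
theorem exists_strat (D : ℕ) (Bl : List ℕ → List ℕ → Prop) (hs : ∀ s t, Bl s t → Bl t s)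
    (h : W Bl (PS.root D) (PS.root D)) :
    ∃ σ : Strat, StratOK σ ∧ (σ (PS.root D, PS.root D)).1 = true ∧
      WinT (Tm σ D) (fun ν => Bl (pos σ D ν).1.seq (pos σ D ν).2.seq) [] := by
  have hW : h3_Wn Bl (PS.root D, PS.root D) := h3_of_W h
  have hne : (PS.root D).todo ≠ [] := List.cons_ne_nil _ _
  refine ⟨h3_st D Bl, h3_st_ok D Bl, ?_, ?_⟩
  · have hex := h3_exists_mv D hs hW rfl rfl (Or.inl hne)
    have hst : h3_st D Bl (PS.root D, PS.root D) = hex.choose := by
      unfold h3_st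
      rw [dif_pos hex]
    rw [hst]
    exact hex.choose_spec.2.2.2 rfl
  · have hG : h3_G (PS.root D, PS.root D) := by
      refine ⟨?_, fun _ => hne, fun _ => hne⟩
      rintro ⟨h1, _⟩
      exact Bool.noConfusion h1
    obtain ⟨h1, _, h3, h4⟩ := h3_auto D hs hW hG
    exact h3_win D hs _ [] rfl h1 h3 h4

end MPb6P
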