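import Pool.Agent.Lib.MP_b6d339_lc.Pos.KDefs
import Pool.Agent.Lib.MP_b6d339_lc.Pos.H3

/-!
# Erdős 592, positive side: common beginning, normalised states, who finishes last
-/

open Filter Ordinal

namespace MPb6P

theorem k1_norm (S : PS) (h : S.res = []) : Nrm S.norm := by
  obtain ⟨seq, todo, pend, res, go⟩ := S
  change res = [] at h
  subst h
  cases todo with
  | nil => exact ⟨fun _ => rfl, fun h => Bool.noConfusion h, fun _ => rfl, fun _ _ _ _ => rfl⟩
  | cons e r =>
    by_cases hc : e.lv = 0 ∧ e.ds = true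
    · have h1 : PS.norm ⟨seq, e :: r, pend, [], go⟩ = ⟨seq, e :: r, pend, [], false⟩ := by
        unfold PS.norm
        dsimp only
        rw [if_pos hc]
      rw [h1]
      exact ⟨fun h => absurd h (List.cons_ne_nil _ _), fun h => Bool.noConfusion h,
        fun _ => rfl, fun _ _ _ _ => rfl⟩
    · have h1 : PS.norm ⟨seq, e :: r, pend, [], go⟩ = ⟨seq, e :: r, pend, [], go⟩ := by
        unfold PS.norm
        dsimp only
        rw [if_neg hc]
      rw [h1]
      refine ⟨fun h => absurd h (List.cons_ne_nil _ _), fun _ e' r' he => ?_,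
        fun _ => rfl, fun _ _ _ _ => rfl⟩
      have he' : e = e' := (List.cons.inj he).1
      rw [← he']
      exact hc

theorem Nrm.beg {S : PS} (h : Nrm S) (hg : S.go = false) (ht : S.todo ≠ [])
    (δ : List ℕ) : Nrm (S.beg δ) := by
  obtain ⟨_, _, h3, _⟩ := h
  have hres := h3 hg
  obtain ⟨seq, todo, pend, res, go⟩ := S
  change res = [] at hres
  subst hres
  cases todo with
  | nil => exact absurd rfl ht
  | cons e r =>
    by_cases hc : e.lv = 0
    · have h1 : PS.beg ⟨seq, e :: r, pend, [], go⟩ δ =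
          ⟨seq, ⟨0, e.ad, false⟩ :: r, δ, [], true⟩ := by
        unfold PS.beg
        dsimp only
        rw [if_pos hc]
      rw [h1]
      refine ⟨fun h => absurd h (List.cons_ne_nil _ _), fun _ e' r' he => ?_,
        fun h => Bool.noConfusion h, fun _ _ _ _ => rfl⟩
      have he' : (⟨0, e.ad, false⟩ : Ent) = e' := (List.cons.inj he).1
      rw [← he']
      rintro ⟨_, h5⟩
      exact Bool.noConfusion h5
    · have h1 : PS.beg ⟨seq, e :: r, pend, [], go⟩ δ = ⟨seq, e :: r, δ, [], true⟩ := by
        unfold PS.beg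
        dsimp only
        rw [if_neg hc]
      rw [h1]
      refine ⟨fun h => absurd h (List.cons_ne_nil _ _), fun _ e' r' he => ?_,
        fun h => Bool.noConfusion h, fun _ _ _ _ => rfl⟩
      have he' : e = e' := (List.cons.inj he).1
      rw [← he']
      rintro ⟨h5, _⟩
      exact hc h5

theorem Nrm.draw {S : PS} (h : Nrm S) (hg : S.go = true) (a : ℕ) : Nrm (S.draw a) := by
  obtain ⟨_, _, _, h4⟩ := id h
  obtain ⟨seq, todo, pend, res, go⟩ := S
  change go = true at hg
  subst hg
  cases todo with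
  | nil => exact h
  | cons e r =>
    have h4' := h4 e r rfl
    change (e.lv = 0 ∨ e.ds = false) → res = [] at h4'
    unfold PS.draw
    dsimp only
    split_ifs with h5 h6 h7
    · exact k1_norm _ (h4' (Or.inl h5))
    · refine ⟨fun h => absurd h (List.cons_ne_nil _ _), fun _ e' r' he => ?_,
        fun h => Bool.noConfusion h, fun e' r' he hh => ?_⟩
      · have he' : e = e' := (List.cons.inj he).1
        rw [← he']
        rintro ⟨h8, _⟩
        exact h5 h8
      · have he' : e = e' := (List.cons.inj he).1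
        rw [← he'] at hh
        rcases hh with hh | hh
        · exact absurd hh h5
        · rw [h6] at hh
          exact Bool.noConfusion hh
    · exact k1_norm _ rfl
    · have h8 : e.ds = false := by
        cases hd : e.ds with
        | true => exact absurd hd h6
        | false => rfl
      exact k1_norm _ (h4' (Or.inr h8))

theorem WL.toW {Bl : List ℕ → List ℕ → Prop} {A B : PS} (h : WL Bl A B) : W Bl A B := by
  induction h with
  | endB _ _ h => exact h
  | begA δ h1 h2 h3 _ ih => exact W.begA δ h1 h2 h3 ih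
  | begB δ h1 h2 h3 _ ih => exact W.begB δ h1 h2 h3 ih
  | drawA s h1 h2 h3 _ ih => exact W.drawA s h1 h2 h3 ih
  | drawB s h1 h2 h3 _ ih => exact W.drawB s h1 h2 h3 ih

theorem k1_nonempty {s : Set ℕ} (hs : s ∈ UU) : ∃ a, a ∈ s := by
  have h := (UU : Ultrafilter ℕ).neBot
  exact Filter.nonempty_of_mem (f := (UU : Filter ℕ)) hs

/-- the last finisher is not finished (induction on `WL`) -/
theorem WL.todo_ne {Bl : List ℕ → List ℕ → Prop} {A B : PS} (h : WL Bl A B) (hA : Nrm A) :
    A.todo ≠ [] := by
  induction h with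
  | endB _ h _ => exact h
  | begA δ _ _ h _ _ => exact h
  | begB δ _ _ _ _ ih => exact ih hA
  | drawA s h1 _ _ _ _ =>
    intro h
    have h2 := hA.1 h
    rw [h1] at h2
    exact Bool.noConfusion h2
  | drawB s _ _ h3 _ ih =>
    obtain ⟨a, ha⟩ := k1_nonempty h3
    exact ih a ha hA

theorem k1_norm_fill (S : PS) (hg : S.go = true) (hd : ∀ e ∈ S.todo, e.ds = false) :
    (∀ e ∈ S.norm.todo, e.ds = false) ∧ (S.norm.go = true ∨ S.norm.todo = []) := by
  obtain ⟨seq, todo, pend, res, go⟩ := S
  change go = true at hg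
  subst hg
  cases todo with
  | nil => exact ⟨hd, Or.inr rfl⟩
  | cons e r =>
    have hc : ¬ (e.lv = 0 ∧ e.ds = true) := by
      rintro ⟨_, h⟩
      have h2 := hd e List.mem_cons_self
      rw [h] at h2
      exact Bool.noConfusion h2
    have h1 : PS.norm ⟨seq, e :: r, pend, res, true⟩ = ⟨seq, e :: r, pend, res, true⟩ := by
      unfold PS.norm
      dsimp only
      rw [if_neg hc]
    rw [h1]
    exact ⟨hd, Or.inl rfl⟩

theorem k1_draw_fill (S : PS) (hg : S.go = true) (hd : ∀ e ∈ S.todo, e.ds = false) (a : ℕ) :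
    (∀ e ∈ (S.draw a).todo, e.ds = false) ∧ ((S.draw a).go = true ∨ (S.draw a).todo = []) := by
  obtain ⟨seq, todo, pend, res, go⟩ := S
  change go = true at hg
  subst hg
  cases todo with
  | nil => exact ⟨hd, Or.inr rfl⟩
  | cons e r =>
    have he : e.ds = false := hd e List.mem_cons_self
    have hr : ∀ e' ∈ r, e'.ds = false := fun e' h => hd e' (List.mem_cons_of_mem e h)
    have hne : ¬ e.ds = true := by
      rw [he]
      exact Bool.false_ne_true
    by_cases h5 : e.lv = 0
    · have h1 : PS.draw ⟨seq, e :: r, pend, res, true⟩ a =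
          PS.norm ⟨seq ++ [a], r, pend, res, true⟩ := by
        unfold PS.draw
        dsimp only
        rw [if_pos h5]
      rw [h1]
      exact k1_norm_fill _ rfl hr
    · have h1 : PS.draw ⟨seq, e :: r, pend, res, true⟩ a =
          PS.norm ⟨seq ++ [a], subs (e.lv - 1) e.ad [] a ++ r, pend, res, true⟩ := by
        unfold PS.draw
        dsimp only
        rw [if_neg h5, if_neg hne]
      rw [h1]
      refine k1_norm_fill _ rfl ?_
      intro e' h
      rcases List.mem_append.1 h with h | h
      · unfold subs at h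
        obtain ⟨i, _, rfl⟩ := List.mem_map.1 h
        simp
      · exact hr e' h

/-- if nothing designated is left, `A` would finish before `B`, contradiction (if `B` has not
finished). Induction on `WL`: since `A.go = true` only `drawA` is possible (or `endB`). -/
theorem WL.false_of_fill {Bl : List ℕ → List ℕ → Prop} {A B : PS} (h : WL Bl A B) (hA : Nrm A)
    (hB : B.todo ≠ []) (hg : A.go = true) (hd : ∀ e ∈ A.todo, e.ds = false) : False := by
  induction h with
  | endB h _ _ => exact hB h
  | begA δ h _ _ _ _ => rw [hg] at h; exact Bool.noConfusion h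
  | begB δ h _ _ _ _ => rw [hg] at h; exact Bool.noConfusion h
  | drawA s _ _ h3 h4 ih =>
    obtain ⟨a, ha⟩ := k1_nonempty h3
    obtain ⟨h5, h6⟩ := k1_draw_fill _ hg hd a
    have hN := hA.draw hg a
    rcases h6 with h6 | h6
    · exact ih a ha hN hB h6 h5
    · exact (h4 a ha).todo_ne hN h6
  | drawB s h _ _ _ _ => rw [hg] at h; exact Bool.noConfusion h

theorem k1_split {s : Set ℕ} (hs : s ∈ UU) {P Q : ℕ → Prop} (h : ∀ a ∈ s, P a ∨ Q a) :
    (∃ s' ∈ UU, ∀ a ∈ s', P a) ∨ ∃ s' ∈ UU, ∀ a ∈ s', Q a := by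
  have h1 : {a | P a} ∪ {a | Q a} ∈ UU := Filter.mem_of_superset hs h
  rcases Ultrafilter.union_mem_iff.1 h1 with h2 | h2
  · exact Or.inl ⟨_, h2, fun a ha => ha⟩
  · exact Or.inr ⟨_, h2, fun a ha => ha⟩

/-- Somebody finishes last: induction on `W`; at the draws use that `UU` is an ultrafilter. If a
player has just finished, rule `endB` (or its mirror image) applies (`W.symm` is in `H3.lean`). -/
theorem WL.of_W {Bl : List ℕ → List ℕ → Prop} (hs : ∀ s t, Bl s t → Bl t s) {A B : PS}
    (h : W Bl A B) (hA : Nrm A) (hB : Nrm B) (hA0 : A.todo ≠ []) (hB0 : B.todo ≠ []) :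
    WL Bl A B ∨ WL Bl B A := by
  induction h with
  | win h _ _ => exact absurd h hA0
  | begA δ h1 h2 h3 _ ih =>
    rcases ih (hA.beg h1 h3 δ) hB (h3_beg _ δ h3).2 hB0 with h | h
    · exact Or.inl (WL.begA δ h1 h2 h3 h)
    · exact Or.inr (WL.begB δ h2 h1 h3 h)
  | begB δ h1 h2 h3 _ ih =>
    rcases ih hA (hB.beg h2 h3 δ) hA0 (h3_beg _ δ h3).2 with h | h
    · exact Or.inl (WL.begB δ h1 h2 h3 h)
    · exact Or.inr (WL.begA δ h2 h1 h3 h)
  | @drawA A B s h1 h2 h3 h4 ih =>
    have key : ∀ a ∈ s, WL Bl (A.draw a) B ∨ WL Bl B (A.draw a) := by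
      intro a ha
      by_cases h5 : (A.draw a).todo = []
      · exact Or.inr (WL.endB h5 hB0 ((h4 a ha).symm hs))
      · exact ih a ha (hA.draw h1 a) hB h5 hB0
    rcases k1_split h3 key with ⟨s', hs', h⟩ | ⟨s', hs', h⟩
    · exact Or.inl (WL.drawA s' h1 h2 hs' h)
    · exact Or.inr (WL.drawB s' h2 h1 hs' h)
  | @drawB A B s h1 h2 h3 h4 ih =>
    have key : ∀ a ∈ s, WL Bl A (B.draw a) ∨ WL Bl (B.draw a) A := by
      intro a ha
      by_cases h5 : (B.draw a).todo = []
      · exact Or.inl (WL.endB h5 hA0 (h4 a ha))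
      · exact ih a ha hA (hB.draw h2 a) hA0 h5
    rcases k1_split h3 key with ⟨s', hs', h⟩ | ⟨s', hs', h⟩
    · exact Or.inl (WL.drawB s' h1 h2 hs' h)
    · exact Or.inr (WL.drawA s' h2 h1 hs' h)

/-- a common position in which nothing designated is left cannot be won (it would end in
`Bl s s`) -/
theorem WC.false_of_fill {Bl : List ℕ → List ℕ → Prop} (hirr : ∀ s, ¬ Bl s s) {S : PS}
    (h : WC Bl S) (hS : Nrm S) (hd : ∀ e ∈ S.todo, e.ds = false) (hg : S.go = true ∨ S.todo = []) :
    False := by
  induction h with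
  | @split S h1 h2 =>
    have h0 : S.todo = [] := by
      rcases hg with h | h
      · rw [h1] at h
        exact Bool.noConfusion h
      · exact h
    cases h2 with
    | win _ _ h3 => exact hirr _ h3
    | begA δ _ _ h3 _ => exact h3 h0
    | begB δ _ _ h3 _ => exact h3 h0
    | drawA s h3 _ _ _ => rw [h1] at h3; exact Bool.noConfusion h3
    | drawB s _ h3 _ _ => rw [h1] at h3; exact Bool.noConfusion h3
  | beg δ h1 h2 _ _ =>
    rcases hg with h | h
    · rw [h1] at h
      exact Bool.noConfusion h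
    · exact h2 h
  | draw s h1 h3 _ ih =>
    obtain ⟨a, ha⟩ := k1_nonempty h3
    obtain ⟨h5, h6⟩ := k1_draw_fill _ h1 hd a
    exact ih a ha (hS.draw h1 a) h5 h6

end MPb6P
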