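import Pool.Agent.Lib.MP_b6d339_lc.Pos.KDefs

/-!
# Erdős 592, positive side: common beginning, fillers and the last phase
-/

open Filter Ordinal

namespace MPb6P

/-! ### Auxiliary facts on `norm`, `draw`, `beg` -/

theorem K2_norm_seq (S : PS) : S.norm.seq = S.seq := by
  unfold PS.norm
  split
  · rfl
  · split_ifs <;> rfl

theorem K2_norm_todo (S : PS) : S.norm.todo = S.todo := by
  unfold PS.norm
  split
  · rfl
  · split_ifs <;> rfl

theorem K2_nrm_norm (S : PS) (h : S.res = []) : Nrm S.norm := by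
  unfold PS.norm
  split
  · rename_i ht
    refine ⟨fun _ => rfl, fun hg => ?_, fun _ => h, fun _ _ _ _ => h⟩
    exact absurd hg (by simp)
  · rename_i e r ht
    split_ifs with hc
    · refine ⟨fun _ => rfl, fun hg => ?_, fun _ => h, fun _ _ _ _ => h⟩
      exact absurd hg (by simp)
    · refine ⟨fun h0 => ?_, fun _ e' r' he' => ?_, fun _ => h, fun _ _ _ _ => h⟩
      · rw [ht] at h0
        exact absurd h0 (by simp)
      · rw [ht] at he'
        obtain ⟨h1, -⟩ := List.cons.inj he'
        rw [← h1]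
        exact hc

theorem K2_subs_lv (l : ℕ) (ad P : List ℕ) (a : ℕ) :
    (subs l ad P a).map Ent.lv = List.replicate a l := by
  unfold subs
  rw [List.map_map]
  rw [List.eq_replicate_iff]
  constructor
  · simp
  · intro b hb
    rw [List.mem_map] at hb
    obtain ⟨i, -, hi⟩ := hb
    exact hi.symm

theorem K2_subs_ds (l : ℕ) (ad : List ℕ) (a : ℕ) : ∀ e ∈ subs l ad [] a, e.ds = false := by
  intro e he
  unfold subs at he
  rw [List.mem_map] at he
  obtain ⟨i, -, hi⟩ := he
  rw [← hi]
  simp

/-- a physical draw -/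
theorem K2_phys {S : PS} {e : Ent} {r : List Ent} (h : S.todo = e :: r)
    (hp : e.lv = 0 ∨ e.ds = false ∨ ¬ S.res.length < S.need) (a : ℕ) :
    (S.draw a).seq = S.seq ++ [a] ∧
      (S.draw a).todo.map Ent.lv = pstep (S.todo.map Ent.lv) a := by
  unfold PS.draw
  rw [h]
  simp only [List.map_cons]
  by_cases h0 : e.lv = 0
  · rw [if_pos h0, K2_norm_seq, K2_norm_todo, h0]
    exact ⟨rfl, rfl⟩
  · rw [if_neg h0]
    obtain ⟨l, hl⟩ := Nat.exists_eq_succ_of_ne_zero h0
    by_cases hd : e.ds = true
    · rw [if_pos hd]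
      have hn : ¬ S.res.length < S.need := by
        rcases hp with hp | hp | hp
        · exact absurd hp h0
        · rw [hd] at hp
          exact absurd hp (by simp)
        · exact hp
      rw [if_neg hn, K2_norm_seq, K2_norm_todo]
      refine ⟨rfl, ?_⟩
      simp only [List.map_append, K2_subs_lv]
      rw [hl]
      rfl
    · rw [if_neg hd, K2_norm_seq, K2_norm_todo]
      refine ⟨rfl, ?_⟩
      simp only [List.map_append, K2_subs_lv]
      rw [hl]
      rfl

/-- a reserve draw -/
theorem K2_res {S : PS} {e : Ent} {r : List Ent} (h : S.todo = e :: r) (h0 : e.lv ≠ 0)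
    (hd : e.ds = true) (hl : S.res.length < S.need) (a : ℕ) :
    (S.draw a).seq = S.seq ∧ (S.draw a).todo = S.todo := by
  unfold PS.draw
  rw [h]
  simp only
  rw [if_neg h0, if_pos hd, if_pos hl]
  exact ⟨rfl, rfl⟩

theorem K2_nrm_draw {S : PS} (h : Nrm S) (hg : S.go = true) (a : ℕ) : Nrm (S.draw a) := by
  obtain ⟨h1, h2, h3, h4⟩ := h
  unfold PS.draw
  split
  · rename_i ht
    rw [h1 ht] at hg
    exact absurd hg (by simp)
  · rename_i e r ht
    by_cases h0 : e.lv = 0
    · rw [if_pos h0]
      exact K2_nrm_norm _ (h4 e r ht (Or.inl h0))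
    · rw [if_neg h0]
      by_cases hd : e.ds = true
      · rw [if_pos hd]
        split_ifs with hl
        · refine ⟨fun h5 => ?_, fun _ e' r' he' => ?_, fun h5 => ?_, fun e' r' he' h5 => ?_⟩
          · rw [ht] at h5
            exact absurd h5 (by simp)
          · exact h2 hg e' r' he'
          · rw [hg] at h5
            exact absurd h5 (by simp)
          · rw [ht] at he'
            obtain ⟨h6, -⟩ := List.cons.inj he'
            rw [← h6] at h5
            rcases h5 with h5 | h5
            · exact absurd h5 h0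
            · rw [hd] at h5
              exact absurd h5 (by simp)
        · exact K2_nrm_norm _ rfl
      · rw [if_neg hd]
        have hd' : e.ds = false := by simpa using hd
        exact K2_nrm_norm _ (h4 e r ht (Or.inr hd'))

theorem K2_nrm_beg {S : PS} (h : Nrm S) (hg : S.go = false) (ht : S.todo ≠ [])
    (δ : List ℕ) : Nrm (S.beg δ) := by
  obtain ⟨h1, h2, h3, h4⟩ := h
  have hr := h3 hg
  unfold PS.beg
  split
  · rename_i ht'
    exact absurd ht' ht
  · rename_i e r ht'
    split_ifs with h0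
    · refine ⟨fun h5 => ?_, fun _ e' r' he' => ?_, fun h5 => ?_, fun _ _ _ _ => hr⟩
      · exact absurd h5 (by simp)
      · obtain ⟨h6, -⟩ := List.cons.inj he'
        rw [← h6]
        simp
      · exact absurd h5 (by simp)
    · refine ⟨fun h5 => ?_, fun _ e' r' he' => ?_, fun h5 => ?_, fun _ _ _ _ => hr⟩
      · exact absurd h5 ht
      · have he'' : S.todo = e' :: r' := he'
        rw [ht'] at he''
        obtain ⟨h6, -⟩ := List.cons.inj he''
        rw [← h6]
        exact fun h7 => h0 h7.1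
      · exact absurd h5 (by simp)

theorem K2_beg (S : PS) (δ : List ℕ) :
    (S.beg δ).seq = S.seq ∧ (S.beg δ).todo.map Ent.lv = S.todo.map Ent.lv := by
  unfold PS.beg
  split
  · exact ⟨rfl, rfl⟩
  · rename_i e r ht
    split_ifs with h0
    · refine ⟨rfl, ?_⟩
      rw [ht]
      simp [h0]
    · exact ⟨rfl, rfl⟩

theorem K2_ne {s : Set ℕ} (hs : s ∈ UU) : s.Nonempty := Ultrafilter.nonempty_of_mem hs

/-- `Fill` is preserved by draws (invert `W`: `A.go = true`, so it comes from `drawA`). -/
theorem Fill.draw {Bl : List ℕ → List ℕ → Prop} {A Z : PS} (h : Fill Bl A Z)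
    (hA : A.todo ≠ []) : ∀ᶠ a in (UU : Filter ℕ), Fill Bl (A.draw a) Z := by
  obtain ⟨hw, hfin, hds, hgo⟩ := h
  have hg : A.go = true := by
    rcases hgo with hgo | hgo
    · exact absurd hgo.1 hA
    · exact hgo.2
  have hex : ∃ s ∈ UU, ∀ a ∈ s, W Bl (A.draw a) Z := by
    cases hw with
    | win h1 _ _ => exact absurd h1 hA
    | begA δ h1 _ _ _ => rw [hg] at h1; exact absurd h1 (by simp)
    | begB δ h1 _ _ _ => rw [hg] at h1; exact absurd h1 (by simp)
    | drawA s _ _ hs h1 => exact ⟨s, hs, h1⟩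
    | drawB s h1 _ _ _ => rw [hg] at h1; exact absurd h1 (by simp)
  obtain ⟨s, hs, h1⟩ := hex
  refine Filter.mem_of_superset (show s ∈ (UU : Filter ℕ) from hs) ?_
  intro a ha
  refine ⟨h1 a ha, hfin, ?_, ?_⟩
  · intro e he
    unfold PS.draw at he
    split at he
    · exact hds e he
    · rename_i e0 r ht
      have h2 : e0.ds = false := hds e0 (by rw [ht]; exact List.mem_cons_self)
      have h3 : ∀ e ∈ r, e.ds = false := fun e he =>
        hds e (by rw [ht]; exact List.mem_cons_of_mem _ he)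
      by_cases h0 : e0.lv = 0
      · rw [if_pos h0, K2_norm_todo] at he
        exact h3 e he
      · rw [if_neg h0, if_neg (by rw [h2]; simp), K2_norm_todo] at he
        rcases List.mem_append.1 he with he | he
        · exact K2_subs_ds _ _ _ e he
        · exact h3 e he
  · -- the flag
    have key : ∀ S : PS, S.go = true → (∀ e ∈ S.todo, e.ds = false) →
        (S.norm.todo = [] ∧ S.norm.go = false ∨ S.norm.todo ≠ [] ∧ S.norm.go = true) := by
      intro S hS1 hS2
      unfold PS.norm
      split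
      · rename_i ht
        exact Or.inl ⟨ht, rfl⟩
      · rename_i e r ht
        have h2 : e.ds = false := hS2 e (by rw [ht]; exact List.mem_cons_self)
        rw [if_neg (by rw [h2]; simp)]
        exact Or.inr ⟨by rw [ht]; simp, hS1⟩
    unfold PS.draw
    split
    · rename_i ht
      exact absurd ht hA
    · rename_i e0 r ht
      have h2 : e0.ds = false := hds e0 (by rw [ht]; exact List.mem_cons_self)
      have h3 : ∀ e ∈ r, e.ds = false := fun e he =>
        hds e (by rw [ht]; exact List.mem_cons_of_mem _ he)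
      by_cases h0 : e0.lv = 0
      · rw [if_pos h0]
        exact key _ hg h3
      · rw [if_neg h0, if_neg (by rw [h2]; simp)]
        refine key _ hg ?_
        intro e he
        rcases List.mem_append.1 he with he | he
        · exact K2_subs_ds _ _ _ e he
        · exact h3 e he

theorem K2_fin_aux {Bl : List ℕ → List ℕ → Prop} {A Z : PS} (h : W Bl A Z) (hA : A.todo = [])
    (hg : A.go = false) (hZ : Z.todo = []) : Bl A.seq Z.seq := by
  induction h with
  | win _ _ h => exact h
  | begA δ _ _ h1 _ _ => exact absurd hA h1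
  | begB δ _ _ h1 _ _ => exact absurd hZ h1
  | drawA s h1 _ _ _ _ => rw [hg] at h1; exact absurd h1 (by simp)
  | @drawB A' B' s _ _ hs _ ih =>
    obtain ⟨a, ha⟩ := K2_ne hs
    have h1 : B'.draw a = B' := by
      unfold PS.draw
      rw [hZ]
    have h2 := ih a ha hA hg (by rw [h1]; exact hZ)
    rwa [h1] at h2

theorem Fill.fin' {Bl : List ℕ → List ℕ → Prop} {A Z : PS} (h : Fill Bl A Z)
    (hA : A.todo = []) : Bl A.seq Z.seq := by
  refine K2_fin_aux h.w hA ?_ h.fin
  rcases h.go with h1 | h1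
  · exact h1.2
  · exact absurd hA h1.1

/-- one draw in a view `S` together with the view `X` of fillers -/
theorem K2_sync {Bl : List ℕ → List ℕ → Prop} {S X Z : PS} (hX : Fill Bl X Z) (hS : Nrm S)
    (hg : S.go = true) (sS : S.seq = X.seq) (tS : S.todo.map Ent.lv = X.todo.map Ent.lv)
    {s : Set ℕ} (hs : s ∈ UU) :
    ∃ a ∈ s, ∃ X', Fill Bl X' Z ∧ (S.draw a).seq = X'.seq ∧
      (S.draw a).todo.map Ent.lv = X'.todo.map Ent.lv := by
  have hne : S.todo ≠ [] := by
    intro h0
    rw [hS.1 h0] at hg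
    exact absurd hg (by simp)
  obtain ⟨e, r, ht⟩ := List.exists_cons_of_ne_nil hne
  by_cases hp : e.lv = 0 ∨ e.ds = false ∨ ¬ S.res.length < S.need
  · have hXne : X.todo ≠ [] := by
      intro h0
      rw [h0, ht] at tS
      simp at tS
    have h1 := hX.draw hXne
    have h2 : s ∩ {a | Fill Bl (X.draw a) Z} ∈ UU := Filter.inter_mem hs h1
    obtain ⟨a, ha1, ha2⟩ := K2_ne h2
    obtain ⟨e', r', ht'⟩ := List.exists_cons_of_ne_nil hXne
    have hd' : e'.ds = false := hX.ds e' (by rw [ht']; exact List.mem_cons_self)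
    obtain ⟨h3, h4⟩ := K2_phys ht hp a
    obtain ⟨h5, h6⟩ := K2_phys ht' (Or.inr (Or.inl hd')) a
    refine ⟨a, ha1, X.draw a, ha2, ?_, ?_⟩
    · rw [h3, h5, sS]
    · rw [h4, h6, tS]
  · rw [not_or, not_or, not_not] at hp
    obtain ⟨a, ha⟩ := K2_ne hs
    have hd : e.ds = true := by simpa using hp.2.1
    obtain ⟨h3, h4⟩ := K2_res ht hp.1 hd hp.2.2 a
    exact ⟨a, ha, X, hX, by rw [h3, sS], by rw [h4, tS]⟩

/-- Last phase, after the split of `x` and `y`: induction on `W Bl A B`. The views `X13`, `X23` of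
`x`, `y` against `z` contain only fillers and have the same physical numbers and to-do lists.
Reserve draws of `A` or `B` do not concern them; physical draws are made in both views. -/
theorem tri_of_W {Bl : List ℕ → List ℕ → Prop} {A B X13 X23 Z : PS} (h : W Bl A B)
    (h13 : Fill Bl X13 Z) (h23 : Fill Bl X23 Z) (hA : Nrm A) (hB : Nrm B)
    (sA : A.seq = X13.seq) (sB : B.seq = X23.seq) (tA : A.todo.map Ent.lv = X13.todo.map Ent.lv)
    (tB : B.todo.map Ent.lv = X23.todo.map Ent.lv) : Tri Bl := by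
  induction h generalizing X13 X23 with
  | @win A B h1 h2 h3 =>
    have h4 : X13.todo = [] := by
      rw [h1] at tA
      exact List.map_eq_nil_iff.1 tA.symm
    have h5 : X23.todo = [] := by
      rw [h2] at tB
      exact List.map_eq_nil_iff.1 tB.symm
    refine ⟨A.seq, B.seq, Z.seq, h3, ?_, ?_⟩
    · rw [sA]; exact h13.fin' h4
    · rw [sB]; exact h23.fin' h5
  | @begA A B δ h1 _ h2 _ ih =>
    obtain ⟨h3, h4⟩ := K2_beg A δ
    exact ih h13 h23 (K2_nrm_beg hA h1 h2 δ) hB (h3.trans sA) sB (h4.trans tA) tB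
  | @begB A B δ _ h1 h2 _ ih =>
    obtain ⟨h3, h4⟩ := K2_beg B δ
    exact ih h13 h23 hA (K2_nrm_beg hB h1 h2 δ) sA (h3.trans sB) tA (h4.trans tB)
  | drawA s h1 _ hs _ ih =>
    obtain ⟨a, ha, X', hX', h3, h4⟩ := K2_sync h13 hA h1 sA tA hs
    exact ih a ha hX' h23 (K2_nrm_draw hA h1 a) hB h3 sB h4 tB
  | drawB s _ h1 hs _ ih =>
    obtain ⟨a, ha, X', hX', h3, h4⟩ := K2_sync h23 hB h1 sB tB hs
    exact ih a ha h13 hX' hA (K2_nrm_draw hB h1 a) sA h3 tA h4

/-- Last phase, `x` and `y` still common: induction on `WC Bl S`. -/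
theorem tri_of_WC {Bl : List ℕ → List ℕ → Prop} {S X Z : PS} (h : WC Bl S)
    (hX : Fill Bl X Z) (hS : Nrm S) (sS : S.seq = X.seq)
    (tS : S.todo.map Ent.lv = X.todo.map Ent.lv) : Tri Bl := by
  induction h generalizing X with
  | split _ h1 => exact tri_of_W h1 hX hX hS hS sS sS tS tS
  | @beg S δ h1 h2 _ ih =>
    obtain ⟨h3, h4⟩ := K2_beg S δ
    exact ih hX (K2_nrm_beg hS h1 h2 δ) (h3.trans sS) (h4.trans tS)
  | draw s h1 hs _ ih =>
    obtain ⟨a, ha, X', hX', h3, h4⟩ := K2_sync hX hS h1 sS tS hs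
    exact ih a ha hX' (K2_nrm_draw hS h1 a) h3 h4

end MPb6P
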