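import Pool.Agent.Lib.MP_b6d339_lc.Pos.KDefs
import Pool.Agent.Lib.MP_b6d339_lc.Pos.K1
import Pool.Agent.Lib.MP_b6d339_lc.Pos.K2
/-!
# Erdős 592, positive side: common beginning, the phase in which w plays against z
-/

open Filter Ordinal

namespace MPb6P

theorem k3_norm_todo (S : PS) : (PS.norm S).todo = S.todo := by
  unfold PS.norm
  split
  · rfl
  · split_ifs <;> rfl

theorem k3_norm_seq (S : PS) : (PS.norm S).seq = S.seq := by
  unfold PS.norm
  split
  · rfl
  · split_ifs <;> rfl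

theorem k3_norm_res (S : PS) : (PS.norm S).res = S.res := by
  unfold PS.norm
  split
  · rfl
  · split_ifs <;> rfl

theorem k3_norm_go_nil (S : PS) (h : S.todo = []) : (PS.norm S).go = false := by
  unfold PS.norm
  rw [h]

theorem k3_norm_go_cons (S : PS) {e : Ent} {r : List Ent} (h : S.todo = e :: r)
    (he : e.ds = false) : (PS.norm S).go = S.go := by
  unfold PS.norm
  rw [h]
  simp [he]

theorem k3_subs_lv (l : ℕ) (ad : List ℕ) (P : List ℕ) (a : ℕ) :
    (subs l ad P a).map Ent.lv = List.replicate a l := by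
  unfold subs
  rw [List.map_map]
  apply List.ext_getElem
  · simp
  · intro i h1 h2
    simp

theorem k3_subs_ds (l : ℕ) (ad : List ℕ) (a : ℕ) : ∀ e ∈ subs l ad [] a, e.ds = false := by
  intro e he
  unfold subs at he
  rw [List.mem_map] at he
  obtain ⟨i, -, rfl⟩ := he
  simp

theorem k3_zp_lv {t t' : List Ent} (h : Zp t t') : t.map Ent.lv = t'.map Ent.lv := by
  obtain ⟨X, X', Y, Y', rfl, rfl, h1, h2, -, -⟩ := h
  simp [h1, h2]

theorem k3_zp_beg {A : PS} {t' : List Ent} (h : Zp A.todo t') (δ : List ℕ) :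
    Zp (A.beg δ).todo t' := by
  obtain ⟨X, X', Y, Y', h0, rfl, h1, h2, h3, h4⟩ := h
  unfold PS.beg
  rcases hA : A.todo with _ | ⟨e, r⟩
  · simp only
    exact ⟨X, X', Y, Y', by rw [← h0, hA], rfl, h1, h2, h3, h4⟩
  · by_cases hl : e.lv = 0
    · simp only [hl, if_true]
      rcases X with _ | ⟨x, X⟩
      · rcases Y with _ | ⟨y, Y⟩
        · simp [hA] at h0
        · rw [hA] at h0
          simp only [List.nil_append, List.cons.injEq] at h0
          obtain ⟨rfl, rfl⟩ := h0
          refine ⟨[], X', ⟨0, e.ad, false⟩ :: r, Y', rfl, rfl, h1, ?_, ?_, h4⟩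
          · rw [← h2]
            simp [hl]
          · intro z hz
            rcases List.mem_cons.1 hz with rfl | hz
            · rfl
            · exact h3 z (List.mem_cons_of_mem _ hz)
      · rw [hA] at h0
        simp only [List.cons_append, List.cons.injEq] at h0
        obtain ⟨rfl, rfl⟩ := h0
        refine ⟨⟨0, e.ad, false⟩ :: X, X', Y, Y', rfl, rfl, ?_, h2, h3, h4⟩
        rw [← h1]
        simp [hl]
    · simp only [hl, if_false]
      exact ⟨X, X', Y, Y', by rw [← h0, hA], rfl, h1, h2, h3, h4⟩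

theorem k3_beg_seq (A : PS) (δ : List ℕ) : (A.beg δ).seq = A.seq := by
  unfold PS.beg
  rcases A.todo with _ | ⟨e, r⟩
  · rfl
  · simp only
    split_ifs <;> rfl

theorem k3_beg_todo_ne {A : PS} (δ : List ℕ) (h : A.todo ≠ []) : (A.beg δ).todo ≠ [] := by
  unfold PS.beg
  rcases hA : A.todo with _ | ⟨e, r⟩
  · exact absurd hA h
  · simp only
    split_ifs
    · simp
    · simp

/-- only fillers are left -/
def K3F (A : PS) : Prop :=
  (∀ e ∈ A.todo, e.ds = false) ∧ (A.todo = [] ∧ A.go = false ∨ A.todo ≠ [] ∧ A.go = true)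

/-- drawing in a block or bottom entry -/
theorem k3_phys {T : PS} {e : Ent} {r : List Ent} (hT : T.todo = e :: r)
    (hp : ¬ (e.lv ≠ 0 ∧ e.ds = true ∧ T.res.length < T.need)) (a : ℕ) :
    ∃ Q : List Ent, ∃ U : PS, T.draw a = PS.norm U ∧ U.todo = Q ++ r ∧ U.seq = T.seq ++ [a] ∧
      U.go = T.go ∧ Q.map Ent.lv = (if e.lv = 0 then [] else List.replicate a (e.lv - 1)) ∧
      (e.ds = false → (∀ x ∈ Q, x.ds = false) ∧ U.res = T.res) := by
  unfold PS.draw
  rw [hT]
  by_cases hl : e.lv = 0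
  · simp only [hl, if_true]
    exact ⟨[], _, rfl, rfl, rfl, rfl, rfl, fun _ => ⟨by simp, rfl⟩⟩
  · by_cases hd : e.ds = true
    · have hr : ¬ T.res.length < T.need := fun h => hp ⟨hl, hd, h⟩
      simp only [hl, hd, hr, if_true, if_false]
      exact ⟨subs (e.lv - 1) e.ad T.res a, _, rfl, rfl, rfl, rfl, k3_subs_lv _ _ _ _,
        fun h => by simp at h⟩
    · simp only [hl, hd, if_false]
      exact ⟨subs (e.lv - 1) e.ad [] a, _, rfl, rfl, rfl, rfl, k3_subs_lv _ _ _ _,
        fun _ => ⟨k3_subs_ds _ _ _, rfl⟩⟩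

theorem k3_fill_norm {U : PS} (hd : ∀ e ∈ U.todo, e.ds = false) (hg : U.go = true) :
    K3F (PS.norm U) := by
  unfold K3F
  rw [k3_norm_todo]
  refine ⟨hd, ?_⟩
  rcases hU : U.todo with _ | ⟨e, r⟩
  · exact Or.inl ⟨rfl, k3_norm_go_nil _ hU⟩
  · refine Or.inr ⟨by simp, ?_⟩
    rw [k3_norm_go_cons U hU (hd e (by rw [hU]; simp)), hg]

/-- the three kinds of draws of `A` -/
theorem k3_tri {A S : PS} (hA0 : A.todo ≠ []) (hg : A.go = true) (hSg : S.go = true)
    (hSr : S.res = []) (sS : A.seq = S.seq) (hz : Zp A.todo S.todo) :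
    (∀ a, (A.draw a).todo = A.todo ∧ (A.draw a).seq = A.seq) ∨
    (∀ e ∈ A.todo, e.ds = false) ∨
    (∀ a, (A.draw a).seq = (S.draw a).seq ∧ (S.draw a).res = [] ∧
      (A.draw a).todo.map Ent.lv = (S.draw a).todo.map Ent.lv ∧
      (K3F (A.draw a) ∨
        ((S.draw a).go = true ∧ (A.draw a).todo ≠ [] ∧ Zp (A.draw a).todo (S.draw a).todo))) := by
  rcases hA : A.todo with _ | ⟨e, r⟩
  · exact absurd hA hA0
  by_cases hres : e.lv ≠ 0 ∧ e.ds = true ∧ A.res.length < A.need
  · left
    intro a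
    obtain ⟨h1, h2, h3⟩ := hres
    unfold PS.draw
    simp only [hA, h1, h2, h3, if_true, if_false, and_self]
  right
  obtain ⟨X, X', Y, Y', h0, h0', h1, h2, h3, h4⟩ := hz
  rcases X with _ | ⟨x, X⟩
  · left
    rw [← hA, h0]
    simpa using h3
  right
  rcases X' with _ | ⟨x', X'⟩
  · simp at h1
  rw [hA] at h0
  simp only [List.cons_append, List.cons.injEq] at h0
  obtain ⟨rfl, rfl⟩ := h0
  simp only [List.map_cons, List.cons.injEq] at h1
  obtain ⟨h1, h1'⟩ := h1
  have hx' : x'.ds = false := h4 x' (by simp)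
  intro a
  obtain ⟨Q, U, e1, e2, e3, e4, e5, -⟩ := k3_phys hA hres a
  obtain ⟨Q', U', e1', e2', e3', e4', e5', e6'⟩ := k3_phys (T := S) (e := x') (r := X' ++ Y')
    (by rw [h0']; rfl) (by rintro ⟨-, h, -⟩; rw [hx'] at h; exact absurd h (by simp)) a
  obtain ⟨e6', e7'⟩ := e6' hx'
  have hQ : Q.map Ent.lv = Q'.map Ent.lv := by rw [e5, e5', h1]
  have hlen : Q.length = Q'.length := by
    have := congrArg List.length hQ
    simpa using this
  rw [e1, e1', k3_norm_seq, k3_norm_seq, k3_norm_res, k3_norm_todo, k3_norm_todo, e2, e2', e3, e3',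
    e7', sS, hSr]
  refine ⟨rfl, rfl, ?_, ?_⟩
  · simp [hQ, h1', h2]
  · rcases hQX : Q ++ X with _ | ⟨q, R⟩
    · left
      have hQ0 : Q = [] := (List.append_eq_nil_iff.1 hQX).1
      have hX0 : X = [] := (List.append_eq_nil_iff.1 hQX).2
      subst hQ0 hX0
      apply k3_fill_norm
      · rw [e2]
        simpa using h3
      · rw [e4, hg]
    · right
      have hQX' : Q' ++ X' ≠ [] := by
        intro h
        have hl : (Q ++ X).length = (Q' ++ X').length := by
          have hXl := congrArg List.length h1'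
          simp only [List.length_map] at hXl
          simp [hlen, hXl]
        rw [h, hQX] at hl
        simp at hl
      rcases hQX2 : Q' ++ X' with _ | ⟨q', R'⟩
      · exact absurd hQX2 hQX'
      have hds : ∀ z ∈ Q' ++ X', z.ds = false := by
        intro z hz
        rcases List.mem_append.1 hz with hz | hz
        · exact e6' z hz
        · exact h4 z (List.mem_cons_of_mem _ hz)
      refine ⟨?_, ?_, Q ++ X, Q' ++ X', Y, Y', by simp, by simp, ?_, h2, h3, hds⟩
      · rw [k3_norm_go_cons U' (e := q') (r := R' ++ Y') ?_ ?_, e4', hSg]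
        · rw [e2', ← List.append_assoc, hQX2]; rfl
        · exact hds q' (by rw [hQX2]; simp)
      · rw [← List.append_assoc, hQX]
        simp
      · simp [hQ, h1']

theorem k3_wc_draw {Bl : List ℕ → List ℕ → Prop} {S : PS} (h : WC Bl S) (hg : S.go = true) :
    ∃ s : Set ℕ, s ∈ UU ∧ ∀ a ∈ s, WC Bl (S.draw a) := by
  cases h with
  | split h1 _ => rw [hg] at h1; simp at h1
  | beg δ h1 _ _ => rw [hg] at h1; simp at h1
  | draw s _ hs h => exact ⟨s, hs, h⟩

theorem k3_pick {s : Set ℕ} (hs : s ∈ UU) : ∃ a, a ∈ s :=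
  (Ultrafilter.nonempty_of_mem hs)

/-- `z = B` has finished, `w = A` still has designated entries: induction on `W Bl A B`. The
second view of `w` is the common state `S` (of `x` and `y`), in the middle of its first macro move;
all its designated entries come later (`Zp`, with parts `X`, `X'`, `Y`, `Y'`). `begA`: only flags
change. `drawA`, reserve draw (head of `A` designated): `S` is not concerned. `drawA`, physical draw:
if `X = []` then `Fill Bl A B` and `tri_of_WC`. Otherwise draw `a` in both views (invert `WC Bl S`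
with `S.go = true`); if the new `X` is empty then `Fill Bl (A.draw a) B` and `tri_of_WC`, otherwise
the head of `(S.draw a).todo` is in the new `X'`, hence undesignated, `(S.draw a).go = true`, and the
induction hypothesis applies. -/
theorem tri_solo {Bl : List ℕ → List ℕ → Prop} {A B S : PS} (h : W Bl A B) (hB : B.todo = [])
    (hA : Nrm A) (hBn : Nrm B) (hA0 : A.todo ≠ []) (hS : Nrm S) (hSg : S.go = true)
    (hSr : S.res = []) (hW : WC Bl S) (sS : A.seq = S.seq) (hz : Zp A.todo S.todo) : Tri Bl := by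
  induction h generalizing S with
  | win h1 _ _ => exact absurd h1 hA0
  | begA δ h1 h2 h3 h4 ih =>
    exact ih hB (hA.beg h1 h3 δ) hBn (k3_beg_todo_ne δ h3) hS hSg hSr hW
      (by rw [k3_beg_seq, sS]) (k3_zp_beg hz δ)
  | begB δ h1 h2 h3 h4 ih => exact absurd hB h3
  | drawB s h1 h2 h3 h4 ih =>
    rw [hBn.1 hB] at h2
    simp at h2
  | @drawA A B s h1 h2 h3 h4 ih =>
    rcases k3_tri hA0 h1 hSg hSr sS hz with hR | hF | hP
    · obtain ⟨a, ha⟩ := k3_pick h3
      obtain ⟨t1, t2⟩ := hR a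
      exact ih a ha hB (hA.draw h1 a) hBn (by rw [t1]; exact hA0) hS hSg hSr hW
        (by rw [t2, sS]) (by rw [t1]; exact hz)
    · exact tri_of_WC hW (X := A) (Z := B) ⟨W.drawA s h1 h2 h3 h4, hB, hF, Or.inr ⟨hA0, h1⟩⟩ hS
        sS.symm (k3_zp_lv hz).symm
    · obtain ⟨s', hs', hW'⟩ := k3_wc_draw hW hSg
      obtain ⟨a, ha, ha'⟩ := k3_pick (inter_mem h3 hs')
      obtain ⟨p1, p2, p3, p4⟩ := hP a
      rcases p4 with p4 | ⟨p4, p5, p6⟩
      · exact tri_of_WC (hW' a ha') (X := A.draw a) (Z := B) ⟨h4 a ha, hB, p4.1, p4.2⟩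
          (hS.draw hSg a) p1.symm p3.symm
      · exact ih a ha hB (hA.draw h1 a) hBn p5 (hS.draw hSg a) p4 p2 (hW' a ha') p1 p6

/-- `w = A` plays against `z = B` and finishes last: induction on `WL Bl A B`. If `B.todo = []`:
`tri_solo` and `WL.toW`. Otherwise, if `A.go = true` and nothing designated is left in `A` (before or
after the draw): `WL.false_of_fill` or `WL.todo_ne`. -/
theorem tri_duo {Bl : List ℕ → List ℕ → Prop} {A B S : PS} (h : WL Bl A B)
    (hA : Nrm A) (hBn : Nrm B) (hS : Nrm S) (hSg : S.go = true)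
    (hSr : S.res = []) (hW : WC Bl S) (sS : A.seq = S.seq) (hz : Zp A.todo S.todo) : Tri Bl := by
  induction h generalizing S with
  | endB h1 h2 h3 => exact tri_solo h3 h1 hA hBn h2 hS hSg hSr hW sS hz
  | begA δ h1 h2 h3 h4 ih =>
    exact ih (hA.beg h1 h3 δ) hBn hS hSg hSr hW (by rw [k3_beg_seq, sS]) (k3_zp_beg hz δ)
  | begB δ h1 h2 h3 h4 ih => exact ih hA (hBn.beg h2 h3 δ) hS hSg hSr hW sS hz
  | drawB s h1 h2 h3 h4 ih =>
    obtain ⟨a, ha⟩ := k3_pick h3
    exact ih a ha hA (hBn.draw h2 a) hS hSg hSr hW sS hz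
  | @drawA A B s h1 h2 h3 h4 ih =>
    have hwl : WL Bl A B := WL.drawA s h1 h2 h3 h4
    have hA0 : A.todo ≠ [] := hwl.todo_ne hA
    by_cases hB : B.todo = []
    · exact tri_solo hwl.toW hB hA hBn hA0 hS hSg hSr hW sS hz
    rcases k3_tri hA0 h1 hSg hSr sS hz with hR | hF | hP
    · obtain ⟨a, ha⟩ := k3_pick h3
      obtain ⟨t1, t2⟩ := hR a
      exact ih a ha (hA.draw h1 a) hBn hS hSg hSr hW (by rw [t2, sS]) (by rw [t1]; exact hz)
    · exact (hwl.false_of_fill hA hB h1 hF).elim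
    · obtain ⟨s', hs', hW'⟩ := k3_wc_draw hW hSg
      obtain ⟨a, ha, ha'⟩ := k3_pick (inter_mem h3 hs')
      obtain ⟨p1, p2, p3, p4⟩ := hP a
      rcases p4 with p4 | ⟨p4, p5, p6⟩
      · have hne := (h4 a ha).todo_ne (hA.draw h1 a)
        rcases p4.2 with ⟨q, -⟩ | ⟨-, q⟩
        · exact absurd q hne
        · exact ((h4 a ha).false_of_fill (hA.draw h1 a) hB q p4.1).elim
      · exact ih a ha (hA.draw h1 a) hBn (hS.draw hSg a) p4 p2 (hW' a ha') p1 p6

end MPb6P
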