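import Pool.Agent.Lib.MP_b6d339_lc.Pos.KDefs
import Pool.Agent.Lib.MP_b6d339_lc.Pos.K1
import Pool.Agent.Lib.MP_b6d339_lc.Pos.K2
import Pool.Agent.Lib.MP_b6d339_lc.Pos.K3
/-!
# Erdős 592, positive side: common beginning, conclusion
-/

open Filter Ordinal

namespace MPb6P

theorem K4_norm_todo (S : PS) : S.norm.todo = S.todo := by
  obtain ⟨q, t, p, r, g⟩ := S
  cases t with
  | nil => rfl
  | cons e t =>
    simp only [PS.norm]
    split_ifs <;> rfl

theorem K4_norm_seq (S : PS) : S.norm.seq = S.seq := by
  obtain ⟨q, t, p, r, g⟩ := S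
  cases t with
  | nil => rfl
  | cons e t =>
    simp only [PS.norm]
    split_ifs <;> rfl

theorem K4_norm_res (S : PS) : S.norm.res = S.res := by
  obtain ⟨q, t, p, r, g⟩ := S
  cases t with
  | nil => rfl
  | cons e t =>
    simp only [PS.norm]
    split_ifs <;> rfl

theorem K4_norm_go {S : PS} (hg : S.go = true) {e : Ent} {r : List Ent} (ht : S.todo = e :: r)
    (he : e.ds = false) : S.norm.go = true := by
  obtain ⟨q, t, p, r', g⟩ := S
  simp only at ht hg
  subst ht hg
  simp [PS.norm, he]

theorem K4_inv {Bl : List ℕ → List ℕ → Prop} {S : PS} (h : WC Bl S) (hg : S.go = true) :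
    ∃ s ∈ UU, ∀ a ∈ s, WC Bl (S.draw a) := by
  cases h with
  | split h1 _ => rw [hg] at h1; exact absurd h1 (by simp)
  | beg δ h1 _ _ => rw [hg] at h1; exact absurd h1 (by simp)
  | draw s _ h2 h3 => exact ⟨s, h2, h3⟩

/-- a large element of a set of the ultrafilter -/
theorem K4_large {s : Set ℕ} (h : s ∈ UU) (N : ℕ) : ∃ a ∈ s, N < a := by
  have h1 : (Set.Ioi N : Set ℕ) ∈ (UU : Filter ℕ) := by
    have : (Set.Iic N : Set ℕ).Finite := Set.finite_Iic N
    have h2 := this.compl_mem_hyperfilter
    have h3 : ((Set.Iic N)ᶜ : Set ℕ) = Set.Ioi N := by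
      ext x; simp
    rwa [h3] at h2
  have h2 : s ∩ Set.Ioi N ∈ (UU : Filter ℕ) := Filter.inter_mem h h1
  obtain ⟨a, ha⟩ := (UU : Filter ℕ).nonempty_of_mem h2
  exact ⟨a, ha.1, ha.2⟩

theorem K4_subs_lv (l : ℕ) (ad : List ℕ) (P : List ℕ) (a : ℕ) :
    (subs l ad P a).map Ent.lv = List.replicate a l := by
  unfold subs
  rw [List.map_map]
  have : (Ent.lv ∘ fun i => (⟨l, ad ++ [i], decide (i ∈ P)⟩ : Ent)) = fun _ => l := rfl
  rw [this, List.map_const', List.length_range]

theorem K4_subs_nil (l : ℕ) (ad : List ℕ) (a : ℕ) : ∀ e ∈ subs l ad [] a, e.ds = false := by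
  intro e he
  unfold subs at he
  rw [List.mem_map] at he
  obtain ⟨i, _, rfl⟩ := he
  simp

/-- the to-do list after a physical draw of an undesignated head -/
theorem K4_draw_und {S : PS} {e : Ent} {r : List Ent} (ht : S.todo = e :: r) (he : e.ds = false)
    (a : ℕ) : ∃ Z : List Ent, S.draw a = PS.norm { S with seq := S.seq ++ [a], todo := Z ++ r } ∧
      Z.map Ent.lv = (if e.lv = 0 then [] else List.replicate a (e.lv - 1)) ∧
      ∀ x ∈ Z, x.ds = false := by
  obtain ⟨q, t, p, r', g⟩ := S
  simp only at ht
  subst ht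
  by_cases h0 : e.lv = 0
  · refine ⟨[], ?_, by simp [h0], by simp⟩
    simp [PS.draw, h0]
  · refine ⟨subs (e.lv - 1) e.ad [] a, ?_, ?_, K4_subs_nil _ _ _⟩
    · simp [PS.draw, h0, he]
    · rw [K4_subs_lv, if_neg h0]

/-- a draw with a head which is not a designated bottom entry: reserve draw or physical draw -/
theorem K4_draw_V {V : PS} {e : Ent} {r : List Ent} (ht : V.todo = e :: r)
    (hb : ¬ (e.lv = 0 ∧ e.ds = true)) :
    (∀ a, (V.draw a).todo = V.todo ∧ (V.draw a).seq = V.seq) ∨
    ∀ a, ∃ Z : List Ent, (V.draw a).todo = Z ++ r ∧ (V.draw a).seq = V.seq ++ [a] ∧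
      Z.map Ent.lv = (if e.lv = 0 then [] else List.replicate a (e.lv - 1)) ∧
      ((V.go = true → ∀ x r', Z ++ r = x :: r' → x.ds = false → (V.draw a).go = true)) := by
  by_cases hd : e.ds = true
  · have h0 : e.lv ≠ 0 := fun h => hb ⟨h, hd⟩
    by_cases hr : V.res.length < V.need
    · left
      intro a
      obtain ⟨q, t, p, r', g⟩ := V
      simp only at ht hr
      subst ht
      simp [PS.draw, h0, hd, hr]
    · right
      intro a
      obtain ⟨q, t, p, r', g⟩ := V
      simp only at ht hr
      subst ht
      have e1 : (PS.draw ⟨q, e :: r, p, r', g⟩ a) =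
          PS.norm ⟨q ++ [a], subs (e.lv - 1) e.ad r' a ++ r, p.tail, [], g⟩ := by
        simp [PS.draw, h0, hd, hr]
      refine ⟨subs (e.lv - 1) e.ad r' a, ?_, ?_, ?_, ?_⟩
      · rw [e1, K4_norm_todo]
      · rw [e1, K4_norm_seq]
      · rw [K4_subs_lv, if_neg h0]
      · intro hg x r'' hx hxd
        rw [e1]
        exact K4_norm_go hg hx hxd
  · right
    intro a
    have hd' : e.ds = false := by simpa using hd
    obtain ⟨Z, h1, h2, h3⟩ := K4_draw_und ht hd' a
    refine ⟨Z, ?_, ?_, h2, ?_⟩
    · rw [h1, K4_norm_todo]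
    · rw [h1, K4_norm_seq]
    · intro hg x r'' hx hxd
      rw [h1]
      exact K4_norm_go (S := { V with seq := V.seq ++ [a], todo := Z ++ r }) hg hx hxd

/-- `w` and `z` still common (state `V`), second view of `w` is `S`: induction on `WC Bl V`. If `V`
splits: `WL.of_W` and `tri_duo` (`V.todo ≠ []` because of `hirr`). If nothing designated is left in
`V` (and `V.go = true`): `WC.false_of_fill`. -/
theorem tri_common {Bl : List ℕ → List ℕ → Prop} (hs : ∀ s t, Bl s t → Bl t s)
    (hirr : ∀ s, ¬ Bl s s) {V S : PS} (h : WC Bl V) (hV : Nrm V) (hS : Nrm S)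
    (hSg : S.go = true) (hSr : S.res = []) (hW : WC Bl S) (sS : V.seq = S.seq)
    (hz : Zp V.todo S.todo) : Tri Bl := by
  induction h generalizing S with
  | @split V hg hWV =>
    have ht : V.todo ≠ [] := by
      intro ht
      exact WC.false_of_fill hirr (WC.split hg hWV) hV (by rw [ht]; simp) (Or.inr ht)
    rcases WL.of_W hs hWV hV hV ht ht with h | h
    · exact tri_duo h hV hV hS hSg hSr hW sS hz
    · exact tri_duo h hV hV hS hSg hSr hW sS hz
  | @beg V δ hg ht _ ih =>
    have hV' := hV.beg hg ht δ
    obtain ⟨q, t, p, r', g⟩ := V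
    cases t with
    | nil => exact absurd rfl ht
    | cons e r =>
      by_cases h0 : e.lv = 0
      · have e1 : PS.beg ⟨q, e :: r, p, r', g⟩ δ = ⟨q, ⟨0, e.ad, false⟩ :: r, δ, r', true⟩ := by
          simp [PS.beg, h0]
        refine ih hV' hS hSg hSr hW ?_ ?_
        · rw [e1]; exact sS
        · rw [e1]
          obtain ⟨X, X', Y, Y', h1, h2, h3, h4, h5, h6⟩ := hz
          simp only at h1
          cases X with
          | nil =>
            rw [List.nil_append] at h1
            subst h1
            refine ⟨[], X', ⟨0, e.ad, false⟩ :: r, Y', rfl, h2, h3, ?_, ?_, h6⟩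
            · rw [← h4]
              simp [h0]
            · intro x hx
              rcases List.mem_cons.mp hx with rfl | hx
              · rfl
              · exact h5 x (List.mem_cons_of_mem _ hx)
          | cons x X =>
            rw [List.cons_append, List.cons.injEq] at h1
            obtain ⟨rfl, h1⟩ := h1
            refine ⟨⟨0, e.ad, false⟩ :: X, X', Y, Y', ?_, h2, ?_, h4, h5, h6⟩
            · simp [h1]
            · rw [← h3]
              simp [h0]
      · have e1 : PS.beg ⟨q, e :: r, p, r', g⟩ δ = ⟨q, e :: r, δ, r', true⟩ := by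
          simp [PS.beg, h0]
        refine ih hV' hS hSg hSr hW ?_ ?_
        · rw [e1]; exact sS
        · rw [e1]; exact hz
  | @draw V s hg hsU hWs ih =>
    have hWV : WC Bl V := WC.draw s hg hsU hWs
    have ht : V.todo ≠ [] := by
      intro ht
      have := hV.1 ht
      rw [hg] at this
      exact absurd this (by simp)
    obtain ⟨X, X', Y, Y', h1, h2, h3, h4, h5, h6⟩ := hz
    cases X with
    | nil =>
      exfalso
      refine WC.false_of_fill hirr hWV hV ?_ (Or.inl hg)
      rw [h1]
      simpa using h5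
    | cons e X =>
      cases X' with
      | nil => simp at h3
      | cons e' X' =>
        rw [List.cons_append] at h1 h2
        rw [List.map_cons, List.map_cons, List.cons.injEq] at h3
        obtain ⟨hlv, h3⟩ := h3
        have he' : e'.ds = false := h6 e' List.mem_cons_self
        have hb := hV.2.1 hg e _ h1
        rcases K4_draw_V h1 hb with hres | hphy
        · obtain ⟨a, ha, _⟩ := K4_large hsU 0
          have hn := hV.draw hg a
          refine ih a ha hn hS hSg hSr hW ?_ ?_
          · rw [(hres a).2]; exact sS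
          · rw [(hres a).1]
            exact ⟨e :: X, e' :: X', Y, Y', h1, h2, by simp [hlv, h3], h4, h5, h6⟩
        · obtain ⟨s', hs', hWs'⟩ := K4_inv hW hSg
          obtain ⟨a, ha, _⟩ := K4_large (Filter.inter_mem hsU hs' : s ∩ s' ∈ (UU : Filter ℕ)) 0
          obtain ⟨Z, z1, z2, z3, z4⟩ := hphy a
          obtain ⟨Z', y1, y2, y3⟩ := K4_draw_und h2 he' a
          have hn := hV.draw hg a
          have hnS := hS.draw hSg a
          have t' : (S.draw a).todo = Z' ++ (X' ++ Y') := by rw [y1, K4_norm_todo]
          have q' : (S.draw a).seq = S.seq ++ [a] := by rw [y1, K4_norm_seq]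
          have r' : (S.draw a).res = [] := by
            rw [y1, K4_norm_res]
            exact hSr
          have hZ : (Z ++ X).map Ent.lv = (Z' ++ X').map Ent.lv := by
            rw [List.map_append, List.map_append, z3, y2, hlv, h3]
          have hds : ∀ x ∈ Z' ++ X', x.ds = false := by
            intro x hx
            rcases List.mem_append.mp hx with hx | hx
            · exact y3 x hx
            · exact h6 x (List.mem_cons_of_mem _ hx)
          by_cases hX : Z' ++ X' = []
          · exfalso
            have hX2 : Z ++ X = [] := by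
              rw [hX] at hZ
              simpa using hZ
            have tV : (V.draw a).todo = Y := by
              rw [z1, ← List.append_assoc, hX2, List.nil_append]
            refine WC.false_of_fill hirr (hWs a ha.1) hn ?_ ?_
            · rw [tV]; exact h5
            · by_cases hY : Y = []
              · right
                rw [tV, hY]
              · left
                obtain ⟨y, Y1, rfl⟩ := List.exists_cons_of_ne_nil hY
                apply z4 hg y Y1
                · rw [← z1, tV]
                · exact h5 y List.mem_cons_self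
          · have g' : (S.draw a).go = true := by
              obtain ⟨x, W1, hW1⟩ := List.exists_cons_of_ne_nil hX
              rw [y1]
              refine K4_norm_go (S := { S with seq := S.seq ++ [a], todo := Z' ++ (X' ++ Y') })
                hSg (e := x) (r := W1 ++ Y') ?_ ?_
              · show Z' ++ (X' ++ Y') = _
                rw [← List.append_assoc, hW1]
                rfl
              · apply hds
                rw [hW1]
                exact List.mem_cons_self
            refine ih a ha.1 hn hnS g' r' (hWs' a ha.2) ?_ ?_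
            · rw [z2, q', sS]
            · rw [z1, t']
              exact ⟨Z ++ X, Z' ++ X', Y, Y', by simp, by simp, hZ, h4, h5, hds⟩

/-- the reserve draws at the beginning -/
theorem K4_reserve {Bl : List ℕ → List ℕ → Prop} (D : ℕ) (hD : 1 ≤ D) (δ : List ℕ) (N : ℕ) :
    ∀ (m : ℕ) (l : List ℕ), l.length + m = δ.headD 0 + 1 → (∀ x ∈ l, N < x) →
      WC Bl ⟨[], [⟨D, [], true⟩], δ, l, true⟩ →
      ∃ l' : List ℕ, l'.length = δ.headD 0 + 1 ∧ (∀ x ∈ l', N < x) ∧
        WC Bl ⟨[], [⟨D, [], true⟩], δ, l', true⟩ := by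
  intro m
  induction m with
  | zero => intro l hl hN h; exact ⟨l, by simpa using hl, hN, h⟩
  | succ m ih =>
    intro l hl hN h
    obtain ⟨s, hs, hWs⟩ := K4_inv h rfl
    obtain ⟨a, ha, haN⟩ := K4_large hs N
    have h1 := hWs a ha
    have e1 : PS.draw ⟨[], [⟨D, [], true⟩], δ, l, true⟩ a =
        ⟨[], [⟨D, [], true⟩], δ, l ++ [a], true⟩ := by
      have h0 : D ≠ 0 := by omega
      have h2 : l.length < δ.headD 0 + 1 := by omega
      simp only [PS.draw, PS.need, h0, if_false, if_true, h2]
    rw [e1] at h1
    refine ih (l ++ [a]) (by rw [List.length_append, List.length_singleton]; omega) ?_ h1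
    intro x hx
    rcases List.mem_append.mp hx with hx | hx
    · exact hN x hx
    · rw [List.mem_singleton] at hx
      rw [hx]; exact haN

theorem K4_bound (l : List ℕ) : ∃ N, ∀ x ∈ l, x ≤ N := by
  induction l with
  | nil => exact ⟨0, by simp⟩
  | cons y l ih =>
    obtain ⟨N, hN⟩ := ih
    refine ⟨max y N, fun x hx => ?_⟩
    rcases List.mem_cons.mp hx with rfl | hx
    · exact le_max_left _ _
    · exact (hN x hx).trans (le_max_right _ _)

/-- the head draw at the beginning -/
theorem K4_head (D : ℕ) (hD : 1 ≤ D) (δ l : List ℕ) (hl : l.length = δ.headD 0 + 1) (a : ℕ) :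
    PS.draw ⟨[], [⟨D, [], true⟩], δ, l, true⟩ a =
      PS.norm ⟨[a], subs (D - 1) [] l a, δ.tail, [], true⟩ := by
  have h0 : D ≠ 0 := by omega
  simp [PS.draw, PS.need, h0, hl]

theorem K4_Nrm (D : ℕ) (hD : 1 ≤ D) (δ l : List ℕ) :
    Nrm ⟨[], [⟨D, [], true⟩], δ, l, true⟩ := by
  refine ⟨by simp, ?_, by simp, ?_⟩
  · intro _ e r he
    simp only [List.cons.injEq] at he
    rw [← he.1]
    intro h
    have h1 : D = 0 := h.1
    omega
  · intro e r he h
    simp only [List.cons.injEq] at he
    rw [← he.1] at h
    simp only [Bool.true_eq_false, or_false] at h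
    omega

/-- K4. If the common root position is won by blue and `W Bl root root` fails, there is a blue
triangle. `WC Bl (root D)` comes from `beg δ`; let `V = S = (root D).beg δ` (`go = true`, to-do list
one designated block of level `D ≥ 1`). Make the `need` reserve draws for `V`, then (larger numbers)
the reserve draws for `S`, then a common head draw `a`, larger than all reserved numbers. Now
`Zp V.todo S.todo`: cut the list of the `a` sub-blocks at an index between the reserved indices of
`V` and those of `S`. If `D = 1`, the head entry of `V` may be a designated bottom entry (then `V` is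
at rest), for `S` it is not if all its reserved indices are positive. Then `tri_common`. -/
theorem tri_of_common (D : ℕ) (hD : 1 ≤ D) {Bl : List ℕ → List ℕ → Prop}
    (hs : ∀ s t, Bl s t → Bl t s) (hirr : ∀ s, ¬ Bl s s) (h : WC Bl (PS.root D))
    (hW : ¬ W Bl (PS.root D) (PS.root D)) : Tri Bl := by
  obtain ⟨δ, h1⟩ : ∃ δ, WC Bl ((PS.root D).beg δ) := by
    cases h with
    | split _ h2 => exact absurd h2 hW
    | beg δ _ _ h3 => exact ⟨δ, h3⟩
    | draw s h1 _ _ => exact absurd h1 (by simp [PS.root])
  have h0 : D ≠ 0 := by omega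
  have e1 : (PS.root D).beg δ = ⟨[], [⟨D, [], true⟩], δ, [], true⟩ := by
    simp [PS.root, PS.beg, h0]
  rw [e1] at h1
  obtain ⟨lV, v1, v2, v3⟩ := K4_reserve D hD δ 0 (δ.headD 0 + 1) [] (by simp) (by simp) h1
  obtain ⟨N, hN⟩ := K4_bound lV
  obtain ⟨lS, s1, s2, s3⟩ := K4_reserve D hD δ N (δ.headD 0 + 1) [] (by simp) (by simp) h1
  obtain ⟨N', hN'⟩ := K4_bound lS
  obtain ⟨sV, hsV, hWV⟩ := K4_inv v3 rfl
  obtain ⟨sS, hsS, hWS⟩ := K4_inv s3 rfl
  obtain ⟨a, ha, haN⟩ := K4_large (Filter.inter_mem hsV hsS : sV ∩ sS ∈ (UU : Filter ℕ))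
    (N + N' + 1)
  have eV := K4_head D hD δ lV v1 a
  have eS := K4_head D hD δ lS s1 a
  have hnV := (K4_Nrm D hD δ lV).draw rfl a
  have hnS := (K4_Nrm D hD δ lS).draw rfl a
  have wV := hWV a ha.1
  have wS := hWS a ha.2
  have hsplit : ∀ l : List ℕ, subs (D - 1) [] l a =
      (List.range (N + 1)).map (fun i => (⟨D - 1, [] ++ [i], decide (i ∈ l)⟩ : Ent)) ++
      (List.range (a - (N + 1))).map (fun i => (⟨D - 1, [] ++ [N + 1 + i],
        decide (N + 1 + i ∈ l)⟩ : Ent)) := by
    intro l
    unfold subs
    have : a = (N + 1) + (a - (N + 1)) := by omega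
    conv_lhs => rw [this, List.range_add, List.map_append, List.map_map]
    rfl
  have tS : (PS.draw ⟨[], [⟨D, [], true⟩], δ, lS, true⟩ a).todo = subs (D - 1) [] lS a := by
    rw [eS, K4_norm_todo]
  have tV : (PS.draw ⟨[], [⟨D, [], true⟩], δ, lV, true⟩ a).todo = subs (D - 1) [] lV a := by
    rw [eV, K4_norm_todo]
  have g : (PS.draw ⟨[], [⟨D, [], true⟩], δ, lS, true⟩ a).go = true := by
    rw [eS]
    refine K4_norm_go (S := ⟨[a], subs (D - 1) [] lS a, δ.tail, [], true⟩) rfl
      (e := ⟨D - 1, [] ++ [0], decide (0 ∈ lS)⟩)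
      (r := (List.range (a - 1)).map (fun i => (⟨D - 1, [] ++ [i + 1],
        decide (i + 1 ∈ lS)⟩ : Ent))) ?_ ?_
    · show subs (D - 1) [] lS a = _
      unfold subs
      have : a = (a - 1) + 1 := by omega
      conv_lhs => rw [this, List.range_succ_eq_map, List.map_cons, List.map_map]
      rfl
    · rw [decide_eq_false_iff_not]
      intro h
      have := s2 0 h
      omega
  have r : (PS.draw ⟨[], [⟨D, [], true⟩], δ, lS, true⟩ a).res = [] := by
    rw [eS, K4_norm_res]
  refine tri_common hs hirr wV hnV hnS g r wS ?_ ?_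
  · rw [eV, eS, K4_norm_seq, K4_norm_seq]
  · rw [tV, tS, hsplit lV, hsplit lS]
    refine ⟨_, _, _, _, rfl, rfl, ?_, ?_, ?_, ?_⟩
    · rw [List.map_map, List.map_map]
      rfl
    · rw [List.map_map, List.map_map]
      rfl
    · intro e he
      rw [List.mem_map] at he
      obtain ⟨i, _, rfl⟩ := he
      rw [decide_eq_false_iff_not]
      intro h
      have := hN _ h
      omega
    · intro e he
      rw [List.mem_map] at he
      obtain ⟨i, hi, rfl⟩ := he
      rw [List.mem_range] at hi
      rw [decide_eq_false_iff_not]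
      intro h
      have := s2 _ h
      omega

end MPb6P
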