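import Pool.Agent.Lib.MP_b6d339_lc.Pos.B6c
import Pool.Agent.Lib.MP_b6d339_lc.Pos.K4
import Pool.Agent.Lib.MP_b6d339_lc.Pos.D8

/-!
# Erdős 592, positive side: the positive theorem for finite levels
-/

open Filter Ordinal

namespace MPb6P

theorem toType_ext {α : Ordinal.{0}} {u v : α.ToType} (h : (u : Ordinal.{0}) = v) : u = v := by
  have h1 : u.toOrd = v.toOrd := Subtype.ext h
  exact ToType.mk.symm.injective h1

/-- **The positive theorem for finite levels.** -/
theorem arrow_of_TT (D : ℕ) (hD : 1 ≤ D) (hT : TT D) :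
    MPb6.Arrow3 (ω ^ (ω ^ (D : Ordinal.{0}))) := by
  intro G
  rcases dichotomy D hD G with h | h
  · exact Or.inl h
  · right
    have hs : ∀ s t, Blue D G s t → Blue D G t s := by
      rintro s t ⟨u, v, h1, h2, h3, h4, h5⟩
      exact ⟨v, u, h1.symm, h3, h2, h5, h4⟩
    have hirr : ∀ s, ¬ Blue D G s s := by
      rintro s ⟨u, v, h1, h2, h3, -, -⟩
      have : u = v := toType_ext (h2.trans h3.symm)
      exact G.irrefl (this ▸ h1)
    have htri : Tri (Blue D G) := by
      by_cases hW : W (Blue D G) (PS.root D) (PS.root D)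
      · exact tri_of_root D hD hT hs hW
      · exact tri_of_common D hD hs hirr h hW
    obtain ⟨x, y, z, ⟨u, v, h1, h2, h3, -, -⟩, ⟨u', w, h4, h5, h6, -, -⟩,
      ⟨v', w', h7, h8, h9, -, -⟩⟩ := htri
    have e1 : u = u' := toType_ext (h2.trans h5.symm)
    have e2 : v = v' := toType_ext (h3.trans h8.symm)
    have e3 : w = w' := toType_ext (h6.trans h9.symm)
    subst e1 e2 e3
    exact ⟨u, v, w, h1, h7, h4⟩

end MPb6P
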