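import Pool.Agent.Lib.MP_b6d339_lc.Pos.Defs

/-!
# Erdős 592, positive side: strategies, plays, events, words
-/

open Filter Ordinal

namespace MPb6P

/-! ## Trees of draws -/

/-- the node `ν` is winning: along `UU`-almost all draws a good terminal node is reached. -/
inductive WinT (tm good : List ℕ → Prop) : List ℕ → Prop
  | leaf {ν : List ℕ} : tm ν → good ν → WinT tm good ν
  | node {ν : List ℕ} (s : Set ℕ) : ¬ tm ν → s ∈ UU → (∀ a ∈ s, WinT tm good (ν ++ [a])) →
      WinT tm good ν

/-- `π` is a complete play with increasing draws from `H` -/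
structure CPlay (tm : List ℕ → Prop) (H : Set ℕ) (π : List ℕ) : Prop where
  inc : π.Pairwise (· < ·)
  mem : ∀ a ∈ π, a ∈ H
  term : tm π
  first : ∀ ν, ν <+: π → ν ≠ π → ¬ tm ν

/-- `ν` is a node with increasing draws from `H`, not beyond a terminal node -/
structure HNode (tm : List ℕ → Prop) (H : Set ℕ) (ν : List ℕ) : Prop where
  inc : ν.Pairwise (· < ·)
  mem : ∀ a ∈ ν, a ∈ H
  first : ∀ μ, μ <+: ν → μ ≠ ν → ¬ tm μ

/-- `ν` wins against all increasing draws from `H` -/
inductive HWin (tm good : List ℕ → Prop) (H : Set ℕ) : List ℕ → Prop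
  | leaf {ν : List ℕ} : tm ν → good ν → HWin tm good H ν
  | node {ν : List ℕ} : ¬ tm ν → (∀ a ∈ H, (∀ b ∈ ν, b < a) → HWin tm good H (ν ++ [a])) →
      HWin tm good H ν

/-! ## Positions -/

/-- the state of the two players of a run; `true` is the first player -/
abbrev Pos := PS × PS

/-- the state of a player -/
def side (P : Pos) (s : Bool) : PS := if s then P.1 else P.2

/-- the active player draws -/
def stepP (P : Pos) (a : ℕ) : Pos := if P.1.go then (P.1.draw a, P.2) else (P.1, P.2.draw a)

/-- a strategy: who begins the next macro move, and with which sizes -/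
abbrev Strat := Pos → Bool × List ℕ

/-- if both players are at rest and not both have finished, the strategy begins a macro move -/
def autoP (σ : Strat) (P : Pos) : Pos :=
  if P.1.go = false ∧ P.2.go = false ∧ (P.1.todo.isEmpty = false ∨ P.2.todo.isEmpty = false) then
    (if (σ P).1 then (P.1.beg (σ P).2, P.2) else (P.1, P.2.beg (σ P).2))
  else P

/-- the position after the draws `ν` -/
def pos (σ : Strat) (D : ℕ) (ν : List ℕ) : Pos :=
  ν.foldl (fun P a => autoP σ (stepP P a)) (autoP σ (PS.root D, PS.root D))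

/-- terminal nodes: both players have finished -/
def Tm (σ : Strat) (D : ℕ) (ν : List ℕ) : Prop :=
  (pos σ D ν).1.go = false ∧ (pos σ D ν).2.go = false

/-- the strategy never begins a macro move for a finished player -/
def StratOK (σ : Strat) : Prop :=
  ∀ P : Pos, (P.1.todo ≠ [] ∨ P.2.todo ≠ []) →
    ((σ P).1 = true → P.1.todo ≠ []) ∧ ((σ P).1 = false → P.2.todo ≠ [])

/-! ## Events -/

/-- one draw, with the recording of events: when the active player `s` stops, the address of his
bottom entry (`some ad` = a cut) or `none` (he has finished) is recorded. -/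
def evStep (σ : Strat) (X : Pos × List (Option (List ℕ))) (a : ℕ) :
    Pos × List (Option (List ℕ)) :=
  let P1 := stepP X.1 a
  let P2 := autoP σ P1
  let s := X.1.1.go
  (P2, if (side P2 s).go then X.2 else X.2 ++ [(side P1 s).todo.head?.map Ent.ad])

/-- the events up to the node `ν` -/
def evs (σ : Strat) (D : ℕ) (ν : List ℕ) : List (Option (List ℕ)) :=
  (ν.foldl (evStep σ) (autoP σ (PS.root D, PS.root D), [])).2

/-- length of the longest common prefix -/
def cpl : List ℕ → List ℕ → ℕ
  | a :: s, b :: t => if a = b then cpl s t + 1 else 0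
  | _, _ => 0

/-- the class of the `i`-th segment; `D + 1` stands for `∞` -/
def cls (D : ℕ) (E : List (Option (List ℕ))) (i : ℕ) : ℕ :=
  if i < 2 then D + 1 else
  match (E[i - 2]?).join, (E[i]?).join with
  | some a, some b => D - cpl a b
  | _, _ => D + 1

/-- the word of a complete play with events `E` -/
def wrd (D : ℕ) (E : List (Option (List ℕ))) : List ℕ := (List.range E.length).map (cls D E)

/-- words: at least two letters, the first two and the last two are `D + 1`, the others are in
`[1, D]` -/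
def Valid (D : ℕ) (u : List ℕ) : Prop :=
  2 ≤ u.length ∧ ∀ i, i < u.length →
    ((i < 2 ∨ u.length ≤ i + 2) → u.getD i 0 = D + 1) ∧
    (2 ≤ i → i + 2 < u.length → 1 ≤ u.getD i 0 ∧ u.getD i 0 ≤ D)

/-! ## Labellings -/

/-- the runs: `0 = (x,y)`, `1 = (x,z)`, `2 = (y,z)`; the players `x = 0, y = 1, z = 2`. The player
of the events of index `≡ i mod 2` in run `R` -/
def plr (R : Fin 3) (i : ℕ) : Fin 3 :=
  if i % 2 = 0 then (if R = 2 then 1 else 0) else (if R = 0 then 1 else 2)

/-- start label of segment `i` -/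
def stL (lab : Fin 3 → ℕ → ℕ) (R : Fin 3) (i : ℕ) : ℕ := if i < 2 then 0 else lab R (i - 2)

/-- compatibility of the word `u` (in run `R`) with the word `u'` (in run `R'`) -/
structure Compat (D : ℕ) (u : List ℕ) (lab : Fin 3 → ℕ → ℕ) (u' : List ℕ)
    (lab' : Fin 3 → ℕ → ℕ) : Prop where
  /-- equal labels in different runs: a common event of one player, unique in each run -/
  common : ∀ R R' : Fin 3, R ≠ R' → ∀ i < u.length, ∀ j < u'.length, lab R i = lab' R' j →
    plr R i = plr R' j ∧ (∀ k < u.length, lab R k = lab R i → k = i) ∧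
    (∀ k < u'.length, lab' R' k = lab' R' j → k = j) ∧ (u.length ≤ i + 2 ↔ u'.length ≤ j + 2)
  /-- timing: at an event of `p` in `R` the next event in the other run of `p` is one of `p` -/
  timing : ∀ R R' : Fin 3, R ≠ R' → ∀ i < u.length,
    (∃ j, plr R' j = plr R i) → ∃ j < u'.length, plr R' j = plr R i ∧ lab R i ≤ lab' R' j ∧
      (∀ k < j, lab' R' k < lab R i) ∧ (u.length ≤ i + 2 → lab R i = lab' R' j)
  /-- hosting -/
  host : ∀ R R' : Fin 3, R ≠ R' → ∀ i < u.length, u.getD i 0 ≤ D →
    (∃ j, plr R' j = plr R i) → ∃ j < u'.length, plr R' j = plr R i ∧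
      u.getD i 0 ≤ u'.getD j 0 ∧ stL lab R i < lab' R' j ∧ stL lab' R' j < lab R i

/-- The template theorem for `D` levels. -/
def TT (D : ℕ) : Prop :=
  ∃ (M : ℕ) (T : Type) (_ : Finite T) (tmpl : List ℕ → T) (lab : List ℕ → Fin 3 → ℕ → ℕ),
    (∀ u R i, 1 ≤ lab u R i ∧ lab u R i ≤ M) ∧
    (∀ u, Valid D u → ∀ R i j, i ≤ j → j < u.length → lab u R i ≤ lab u R j) ∧
    ∀ u u', Valid D u → Valid D u' → tmpl u = tmpl u' → Compat D u (lab u) u' (lab u')

/-- `X` before `Y`, weakly -/
def LEf (X Y : Finset ℕ) : Prop := ∀ x ∈ X, ∀ y ∈ Y, x ≤ y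

/-- `X` before `Y`, strictly -/
def LTf (X Y : Finset ℕ) : Prop := ∀ x ∈ X, ∀ y ∈ Y, x < y

end MPb6P
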