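import Pool.Agent.Lib.MP_b6d339_lc.Pos.PDefs

/-!
# Erdős 592, positive side: the key consequence of hosting
-/

namespace MPb6P

theorem C1_between : ∀ (p u v w : List ℕ), p <+: u → p <+: w → u < v → v < w → p <+: v
  | [], _, v, _, _, _, _, _ => List.nil_prefix
  | a :: p, u, v, w, hu, hw, h1, h2 => by
    obtain ⟨u', rfl⟩ := hu
    obtain ⟨w', rfl⟩ := hw
    rw [List.cons_append] at h1 h2
    cases v with
    | nil => exact absurd h1 (by simp)
    | cons b v =>
      rw [List.cons_lt_cons_iff] at h1 h2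
      have hab : a = b := by omega
      subst hab
      have h1' : p ++ u' < v := by
        rcases h1 with h | h
        · omega
        · exact h.2
      have h2' : v < p ++ w' := by
        rcases h2 with h | h
        · omega
        · exact h.2
      exact List.cons_prefix_cons.2
        ⟨rfl, C1_between p (p ++ u') v (p ++ w') (List.prefix_append _ _)
          (List.prefix_append _ _) h1' h2'⟩

theorem C1_cpl_le : ∀ (p u v : List ℕ), p <+: u → p <+: v → p.length ≤ cpl u v
  | [], _, _, _, _ => Nat.zero_le _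
  | a :: p, u, v, hu, hv => by
    obtain ⟨u', rfl⟩ := hu
    obtain ⟨v', rfl⟩ := hv
    rw [List.cons_append, List.cons_append]
    unfold cpl
    rw [if_pos rfl, List.length_cons]
    exact Nat.succ_le_succ (C1_cpl_le p _ _ (List.prefix_append _ _) (List.prefix_append _ _))

theorem C1_cpl_eq (b : ℕ) : ∀ (q u v : List ℕ), (q ++ [b]) <+: u → q <+: v →
    ¬ (q ++ [b]) <+: v → cpl u v = q.length
  | [], u, v, hu, _, hnv => by
    obtain ⟨u', rfl⟩ := hu
    cases v with
    | nil => rfl
    | cons a v =>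
      have hab : b ≠ a := by
        rintro rfl
        exact hnv ⟨v, rfl⟩
      show cpl (b :: ([] ++ u')) (a :: v) = 0
      unfold cpl
      rw [if_neg hab]
  | a :: q, u, v, hu, hv, hnv => by
    obtain ⟨u', rfl⟩ := hu
    obtain ⟨v', rfl⟩ := hv
    have hnv' : ¬ (q ++ [b]) <+: (q ++ v') := by
      rintro ⟨w, hw⟩
      exact hnv ⟨w, by rw [List.cons_append, List.cons_append, List.cons_append, hw]⟩
    have ih := C1_cpl_eq b q (q ++ [b] ++ u') (q ++ v') (List.prefix_append _ _)
      (List.prefix_append _ _) hnv'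
    show cpl (a :: (q ++ [b] ++ u')) (a :: (q ++ v')) = (a :: q).length
    unfold cpl
    rw [if_pos rfl, ih, List.length_cons]

theorem C1_lt {b b' : ℕ} (hb : b < b') : ∀ (q u v : List ℕ), (q ++ [b]) <+: u →
    (q ++ [b']) <+: v → u < v
  | [], u, v, hu, hv => by
    obtain ⟨u', rfl⟩ := hu
    obtain ⟨v', rfl⟩ := hv
    show (b :: ([] ++ u')) < (b' :: ([] ++ v'))
    rw [List.cons_lt_cons_iff]
    exact Or.inl hb
  | a :: q, u, v, hu, hv => by
    obtain ⟨u', rfl⟩ := hu
    obtain ⟨v', rfl⟩ := hv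
    have ih := C1_lt hb q (q ++ [b] ++ u') (q ++ [b'] ++ v') (List.prefix_append _ _)
      (List.prefix_append _ _)
    show (a :: (q ++ [b] ++ u')) < (a :: (q ++ [b'] ++ v'))
    rw [List.cons_lt_cons_iff]
    exact Or.inr ⟨rfl, ih⟩

/-- C1. The key consequence of hosting. The cuts of a player in one run: addresses `α 0 < α 1 < …
< α (n-1)` (lexicographic, all of length `D`) with labels `l k`, `l n` = label of his last event;
in the other run `α' k`, `l' k`. Hosting: every gate between two consecutive cuts `k-1, k` of the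
second run has in the first run a gate `j` (from cut `j-1` to cut `j`; `j = 0` and `j = n` are the
infinite ones) of class at least as big, with overlapping labels. Then the cuts of the first run
inside the block `q ++ [c]` cannot meet (in time) the cuts of the second run inside `q ++ [b]` and
those inside `q ++ [b']`, `b < b'`.
Proof. Let `x₁` be the cut of run 1 inside `q++[c]` with `l x₁ ≤ l' y₁`, `y₁` inside `q++[b]`, and
`x₂` inside `q++[c]`, `y₂` inside `q++[b']`, `l' y₂ ≤ l x₂`. Let `k-1` be the LAST cut of run 2 inside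
`q++[b]` (so `l' y₁ ≤ l' (k-1)`); `k ≤ y₂` exists, its address is between `α' y₁` and `α' y₂`, hence
extends `q`, but not `q++[b]`: `cpl = q.length`. The host `j` has `l' (k-1) < l j`, hence `x₁ < j`
(monotonicity), and (`j = 0` impossible) `l (j-1) < l' k ≤ l' y₂ ≤ l x₂`, hence `j - 1 < x₂`. So
`x₁ ≤ j - 1 < j ≤ x₂ < n`, both `α (j-1)` and `α j` lie between `α x₁` and `α x₂`, so they extend
`q++[c]`, `cpl ≥ q.length + 1`, contradiction to the class. -/
theorem no_two_meets (D : ℕ) (n n' : ℕ) (α α' : ℕ → List ℕ) (l l' : ℕ → ℕ)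
    (hα : ∀ i j, i < j → j < n → α i < α j) (hα' : ∀ i j, i < j → j < n' → α' i < α' j)
    (hD : ∀ i < n, (α i).length = D) (hD' : ∀ i < n', (α' i).length = D)
    (hl : ∀ i j, i ≤ j → j ≤ n → l i ≤ l j) (hl' : ∀ i j, i ≤ j → j ≤ n' → l' i ≤ l' j)
    (host : ∀ k, 0 < k → k < n' → ∃ j ≤ n, (j = 0 ∨ j = n ∨
      D - cpl (α' (k - 1)) (α' k) ≤ D - cpl (α (j - 1)) (α j)) ∧ l' (k - 1) < l j ∧
      (j = 0 ∨ l (j - 1) < l' k))
    (q : List ℕ) (hq : q.length < D) (c b b' : ℕ) (hb : b < b')
    (h1 : ∃ x < n, ∃ y < n', (q ++ [c]) <+: α x ∧ (q ++ [b]) <+: α' y ∧ l x ≤ l' y)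
    (h2 : ∃ x < n, ∃ y < n', (q ++ [c]) <+: α x ∧ (q ++ [b']) <+: α' y ∧ l' y ≤ l x) : False := by
  obtain ⟨x1, hx1, y1, hy1, hc1, hb1, hl1⟩ := h1
  obtain ⟨x2, hx2, y2, hy2, hc2, hb2, hl2⟩ := h2
  have hqb : ∀ (d : ℕ) (u : List ℕ), (q ++ [d]) <+: u → q <+: u := fun d u h =>
    (List.prefix_append q [d]).trans h
  have hlt : α' y1 < α' y2 := C1_lt hb q _ _ hb1 hb2
  have hnb2 : ¬ (q ++ [b]) <+: α' y2 := by
    intro h
    exact absurd (C1_lt hb q _ _ h hb2) (lt_irrefl _)
  have hy12 : y1 < y2 := by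
    rcases lt_trichotomy y1 y2 with h | h | h
    · exact h
    · rw [h] at hlt
      exact absurd hlt (lt_irrefl _)
    · exact absurd (lt_trans hlt (hα' y2 y1 h hy1)) (lt_irrefl _)
  have hex : ∃ k, y1 < k ∧ ¬ (q ++ [b]) <+: α' k := ⟨y2, hy12, hnb2⟩
  classical
  obtain ⟨k, ⟨hk1, hk2⟩, hmin⟩ : ∃ k, (y1 < k ∧ ¬ (q ++ [b]) <+: α' k) ∧
      ∀ i < k, ¬ (y1 < i ∧ ¬ (q ++ [b]) <+: α' i) :=
    ⟨Nat.find hex, Nat.find_spec hex, fun i hi => Nat.find_min hex hi⟩
  have hky : k ≤ y2 := by
    by_contra hcon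
    push Not at hcon
    exact hmin y2 hcon ⟨hy12, hnb2⟩
  have hpre : (q ++ [b]) <+: α' (k - 1) := by
    by_cases h : k - 1 = y1
    · rw [h]; exact hb1
    · by_contra hcon
      exact hmin (k - 1) (by omega) ⟨by omega, hcon⟩
  have hqk : q <+: α' k := by
    rcases Nat.lt_or_ge k y2 with h | h
    · exact C1_between q (α' y1) (α' k) (α' y2) (hqb _ _ hb1) (hqb _ _ hb2)
        (hα' _ _ hk1 (by omega)) (hα' _ _ h hy2)
    · have : k = y2 := by omega
      rw [this]
      exact hqb _ _ hb2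
  have hcpl : cpl (α' (k - 1)) (α' k) = q.length := C1_cpl_eq b q _ _ hpre hqk hk2
  obtain ⟨j, hjn, hj1, hj2, hj3⟩ := host k (by omega) (by omega)
  have e1 : l' y1 ≤ l' (k - 1) := hl' _ _ (by omega) (by omega)
  have hxj : x1 < j := by
    by_contra hcon
    push Not at hcon
    have := hl j x1 hcon (by omega)
    omega
  have e2 : l' k ≤ l' y2 := hl' _ _ hky (by omega)
  have hj3' : l (j - 1) < l' k := by
    rcases hj3 with h | h
    · omega
    · exact h
  have hjx : j - 1 < x2 := by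
    by_contra hcon
    push Not at hcon
    have := hl x2 (j - 1) hcon (by omega)
    omega
  have hj1' : D - cpl (α' (k - 1)) (α' k) ≤ D - cpl (α (j - 1)) (α j) := by
    rcases hj1 with h | h | h
    · omega
    · omega
    · exact h
  have hin : ∀ i, x1 ≤ i → i ≤ x2 → (q ++ [c]) <+: α i := by
    intro i hi1 hi2
    rcases Nat.eq_or_lt_of_le hi1 with h | h
    · rw [← h]; exact hc1
    · rcases Nat.eq_or_lt_of_le hi2 with h' | h'
      · rw [h']; exact hc2
      · exact C1_between _ (α x1) (α i) (α x2) hc1 hc2 (hα _ _ h (by omega)) (hα _ _ h' hx2)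
  have e3 := C1_cpl_le (q ++ [c]) (α (j - 1)) (α j) (hin _ (by omega) (by omega))
    (hin _ (by omega) (by omega))
  rw [List.length_append, List.length_singleton] at e3
  rw [hcpl] at hj1'
  omega

end MPb6P
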