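import Pool.Agent.Lib.MP_b6d339_lc.Pos.PDefs

/-!
# Erdős 592, positive side: merging two lists of label sets
-/

namespace MPb6P

/-- the conclusion of `merge_slots` -/
def c2_Res (A B : List (Finset ℕ)) : Prop :=
  ∃ f g : ℕ → ℕ, StrictMono f ∧ StrictMono g ∧ ∀ i < A.length, ∀ j < B.length,
      (f i < g j → LTf (A.getD i ∅) (B.getD j ∅)) ∧
      (g j < f i → LTf (B.getD j ∅) (A.getD i ∅)) ∧
      (f i = g j → ¬ LTf (A.getD i ∅) (B.getD j ∅) ∧ ¬ LTf (B.getD j ∅) (A.getD i ∅))

/-- one direction of the hypothesis -/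
def c2_Hyp (A B : List (Finset ℕ)) : Prop :=
  ∀ i j j', i < A.length → j < j' → j' < B.length →
      LTf (A.getD i ∅) (B.getD j ∅) ∨ LTf (B.getD j ∅) (A.getD i ∅) ∨
      LTf (A.getD i ∅) (B.getD j' ∅) ∨ LTf (B.getD j' ∅) (A.getD i ∅)

theorem c2_Res_symm {A B : List (Finset ℕ)} (h : c2_Res A B) : c2_Res B A := by
  obtain ⟨f, g, hf, hg, h⟩ := h
  refine ⟨g, f, hg, hf, fun j hj i hi => ?_⟩
  obtain ⟨h1, h2, h3⟩ := h i hi j hj
  exact ⟨h2, h1, fun e => ⟨(h3 e.symm).2, (h3 e.symm).1⟩⟩

/-- the shifted map -/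
def c2_sh (f : ℕ → ℕ) : ℕ → ℕ
  | 0 => 0
  | i + 1 => f i + 1

theorem c2_sh_mono {f : ℕ → ℕ} (hf : StrictMono f) : StrictMono (c2_sh f) := by
  refine strictMono_nat_of_lt_succ fun n => ?_
  cases n with
  | zero => exact Nat.succ_pos _
  | succ n => exact Nat.succ_lt_succ (hf (Nat.lt_succ_self n))

/-- the first set of `A` goes first -/
theorem c2_left {a : Finset ℕ} {A B : List (Finset ℕ)} (h : c2_Res A B)
    (ha : ∀ j < B.length, LTf a (B.getD j ∅)) : c2_Res (a :: A) B := by
  obtain ⟨f, g, hf, hg, h⟩ := h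
  refine ⟨c2_sh f, fun j => g j + 1, c2_sh_mono hf, fun i j hij => Nat.succ_lt_succ (hg hij), ?_⟩
  intro i hi j hj
  cases i with
  | zero =>
    refine ⟨fun _ => ?_, fun h0 => ?_, fun h0 => ?_⟩
    · simpa using ha j hj
    · exact absurd h0 (Nat.not_lt_zero _)
    · exact absurd h0 (Nat.succ_ne_zero _).symm
  | succ i =>
    obtain ⟨h1, h2, h3⟩ := h i (by simpa using hi) j hj
    refine ⟨fun h0 => ?_, fun h0 => ?_, fun h0 => ?_⟩
    · simpa using h1 (Nat.lt_of_succ_lt_succ h0)
    · simpa using h2 (Nat.lt_of_succ_lt_succ h0)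
    · simpa using h3 (Nat.succ.inj h0)

/-- common slot -/
theorem c2_both {a b : Finset ℕ} {A B : List (Finset ℕ)} (h : c2_Res A B)
    (h1 : ¬ LTf a b) (h2 : ¬ LTf b a) (ha : ∀ j < B.length, LTf a (B.getD j ∅))
    (hb : ∀ i < A.length, LTf b (A.getD i ∅)) : c2_Res (a :: A) (b :: B) := by
  obtain ⟨f, g, hf, hg, h⟩ := h
  refine ⟨c2_sh f, c2_sh g, c2_sh_mono hf, c2_sh_mono hg, ?_⟩
  intro i hi j hj
  cases i with
  | zero =>
    cases j with
    | zero =>
      refine ⟨fun h0 => absurd h0 (Nat.lt_irrefl _), fun h0 => absurd h0 (Nat.lt_irrefl _),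
        fun _ => ?_⟩
      simpa using ⟨h1, h2⟩
    | succ j =>
      refine ⟨fun _ => ?_, fun h0 => absurd h0 (Nat.not_lt_zero _),
        fun h0 => absurd h0 (Nat.succ_ne_zero _).symm⟩
      simpa using ha j (by simpa using hj)
  | succ i =>
    cases j with
    | zero =>
      refine ⟨fun h0 => absurd h0 (Nat.not_lt_zero _), fun _ => ?_,
        fun h0 => absurd h0 (Nat.succ_ne_zero _)⟩
      simpa using hb i (by simpa using hi)
    | succ j =>
      obtain ⟨h1, h2, h3⟩ := h i (by simpa using hi) j (by simpa using hj)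
      refine ⟨fun h0 => ?_, fun h0 => ?_, fun h0 => ?_⟩
      · simpa using h1 (Nat.lt_of_succ_lt_succ h0)
      · simpa using h2 (Nat.lt_of_succ_lt_succ h0)
      · simpa using h3 (Nat.succ.inj h0)

theorem c2_nil (A : List (Finset ℕ)) : c2_Res A [] :=
  ⟨id, id, strictMono_id, strictMono_id, fun _ _ j hj => absurd hj (Nat.not_lt_zero j)⟩

theorem c2_Hyp_tailA {a : Finset ℕ} {A B : List (Finset ℕ)} (h : c2_Hyp (a :: A) B) :
    c2_Hyp A B := by
  intro i j j' hi hj hj'
  simpa using h (i + 1) j j' (by simpa using hi) hj hj'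

theorem c2_Hyp_tailB {b : Finset ℕ} {A B : List (Finset ℕ)} (h : c2_Hyp A (b :: B)) :
    c2_Hyp A B := by
  intro i j j' hi hj hj'
  simpa using h i (j + 1) (j' + 1) hi (by omega) (by simpa using hj')

/-- the members of the tail -/
theorem c2_getD_mem {B : List (Finset ℕ)} {j : ℕ} (hj : j < B.length) : B.getD j ∅ ∈ B := by
  rw [List.getD_eq_getElem B ∅ hj]
  exact List.getElem_mem hj

/-- `a < b`, `b` nonempty: `a` is before all the sets of `b :: B` -/
theorem c2_before {a b : Finset ℕ} {B : List (Finset ℕ)} (hB : (b :: B).Pairwise LEf)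
    (hb : b.Nonempty) (hab : LTf a b) : ∀ j < (b :: B).length, LTf a ((b :: B).getD j ∅) := by
  intro j hj
  cases j with
  | zero => simpa using hab
  | succ j =>
    have hj' : j < B.length := by simpa using hj
    have hle : LEf b (B.getD j ∅) := (List.pairwise_cons.1 hB).1 _ (c2_getD_mem hj')
    obtain ⟨y, hy⟩ := hb
    have : LTf a (B.getD j ∅) := fun x hx z hz => lt_of_lt_of_le (hab x hx y hy) (hle y hy z hz)
    simpa using this

/-- `a` and `b` meet: `a` is before all the sets of `B` -/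
theorem c2_meet {a b : Finset ℕ} {A B : List (Finset ℕ)} (hB : (b :: B).Pairwise LEf)
    (h : c2_Hyp (a :: A) (b :: B)) (h1 : ¬ LTf a b) (h2 : ¬ LTf b a) :
    ∀ j < B.length, LTf a (B.getD j ∅) := by
  intro j hj
  have h3 := h 0 0 (j + 1) (by simp) (Nat.succ_pos j) (by simpa using hj)
  simp only [List.getD_cons_zero, List.getD_cons_succ] at h3
  rcases h3 with h3 | h3 | h3 | h3
  · exact absurd h3 h1
  · exact absurd h3 h2
  · exact h3
  · rcases Finset.eq_empty_or_nonempty (B.getD j ∅) with h4 | ⟨z, hz⟩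
    · rw [h4]; intro x _ y hy; exact absurd hy (Finset.notMem_empty y)
    · have hle : LEf b (B.getD j ∅) := (List.pairwise_cons.1 hB).1 _ (c2_getD_mem hj)
      exact absurd (fun x hx y hy => lt_of_le_of_lt (hle x hx z hz) (h3 z hz y hy)) h2

theorem c2_main : ∀ (n : ℕ) (A B : List (Finset ℕ)), A.length + B.length ≤ n →
    A.Pairwise LEf → B.Pairwise LEf → c2_Hyp A B → c2_Hyp B A → c2_Res A B := by
  intro n
  induction n with
  | zero =>
    intro A B h _ _ _ _
    have : B = [] := List.length_eq_zero_iff.1 (by omega)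
    rw [this]; exact c2_nil A
  | succ n ih =>
    intro A B h hA hB hAB hBA
    cases A with
    | nil => exact c2_Res_symm (c2_nil B)
    | cons a A =>
      cases B with
      | nil => exact c2_nil _
      | cons b B =>
        simp only [List.length_cons] at h
        have hL : (∀ j < (b :: B).length, LTf a ((b :: B).getD j ∅)) → c2_Res (a :: A) (b :: B) :=
          fun h0 => c2_left (ih A (b :: B) (by simp only [List.length_cons]; omega)
            (List.pairwise_cons.1 hA).2 hB (c2_Hyp_tailA hAB) (c2_Hyp_tailB hBA)) h0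
        have hR : (∀ i < (a :: A).length, LTf b ((a :: A).getD i ∅)) → c2_Res (a :: A) (b :: B) :=
          fun h0 => c2_Res_symm (c2_left (c2_Res_symm (ih (a :: A) B
            (by simp only [List.length_cons]; omega) hA (List.pairwise_cons.1 hB).2
            (c2_Hyp_tailB hAB) (c2_Hyp_tailA hBA))) h0)
        rcases Finset.eq_empty_or_nonempty a with ha | ha
        · refine hL fun j _ => ?_
          rw [ha]; intro x hx; exact absurd hx (Finset.notMem_empty x)
        rcases Finset.eq_empty_or_nonempty b with hb | hb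
        · refine hR fun j _ => ?_
          rw [hb]; intro x hx; exact absurd hx (Finset.notMem_empty x)
        by_cases h1 : LTf a b
        · exact hL (c2_before hB hb h1)
        by_cases h2 : LTf b a
        · exact hR (c2_before hA ha h2)
        exact c2_both (ih A B (by omega) (List.pairwise_cons.1 hA).2 (List.pairwise_cons.1 hB).2
          (c2_Hyp_tailA (c2_Hyp_tailB hAB)) (c2_Hyp_tailA (c2_Hyp_tailB hBA))) h1 h2
          (c2_meet hB hAB h1 h2) (c2_meet hA hBA h2 h1)

/-- C2. Merging two lists of label sets into common slots. Two sets `meet` if neither is strictly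
before the other. Greedy algorithm (induction on the sum of the lengths): if `A 0` is empty put it
first, if `B 0` is empty put it first; if `A 0 < B 0` put `A 0` first; if `B 0 < A 0` put `B 0` first;
otherwise they meet: common slot. -/
theorem merge_slots (A B : List (Finset ℕ)) (hA : A.Pairwise LEf) (hB : B.Pairwise LEf)
    (hAB : ∀ i j j', i < A.length → j < j' → j' < B.length →
      LTf (A.getD i ∅) (B.getD j ∅) ∨ LTf (B.getD j ∅) (A.getD i ∅) ∨
      LTf (A.getD i ∅) (B.getD j' ∅) ∨ LTf (B.getD j' ∅) (A.getD i ∅))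
    (hBA : ∀ j i i', j < B.length → i < i' → i' < A.length →
      LTf (B.getD j ∅) (A.getD i ∅) ∨ LTf (A.getD i ∅) (B.getD j ∅) ∨
      LTf (B.getD j ∅) (A.getD i' ∅) ∨ LTf (A.getD i' ∅) (B.getD j ∅)) :
    ∃ f g : ℕ → ℕ, StrictMono f ∧ StrictMono g ∧ ∀ i < A.length, ∀ j < B.length,
      (f i < g j → LTf (A.getD i ∅) (B.getD j ∅)) ∧
      (g j < f i → LTf (B.getD j ∅) (A.getD i ∅)) ∧
      (f i = g j → ¬ LTf (A.getD i ∅) (B.getD j ∅) ∧ ¬ LTf (B.getD j ∅) (A.getD i ∅)) :=
  c2_main _ A B le_rfl hA hB hAB hBA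

end MPb6P
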