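import Pool.Agent.Lib.MP_b6d339_lc.Pos.FDefs

/-!
# Erdős 592, positive side: lexicographic order of addresses
-/

namespace MPb6P

theorem LL.lt {p q : List ℕ} (h : LL p q) : p < q := by
  obtain ⟨c, x, y, p1, q1, rfl, rfl, hxy⟩ := h
  induction c with
  | nil => exact List.Lex.rel hxy
  | cons a c ih => exact List.Lex.cons ih

theorem LL.not_pre {p q : List ℕ} (h : LL p q) : ¬ p <+: q ∧ ¬ q <+: p := by
  obtain ⟨c, x, y, p1, q1, rfl, rfl, hxy⟩ := h
  constructor
  · intro h
    rw [List.prefix_append_right_inj, List.cons_prefix_cons] at h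
    omega
  · intro h
    rw [List.prefix_append_right_inj, List.cons_prefix_cons] at h
    omega

theorem f0_of_lt : ∀ (p q : List ℕ), p < q → ¬ p <+: q → LL p q := by
  intro p
  induction p with
  | nil => intro q _ h'; exact absurd (List.nil_prefix) h'
  | cons a p ih =>
    intro q h h'
    cases q with
    | nil => exact absurd h (List.not_lt_nil _)
    | cons b q =>
      rcases List.cons_lt_cons_iff.1 h with hab | ⟨rfl, hpq⟩
      · exact ⟨[], a, b, p, q, rfl, rfl, hab⟩
      · have h2 : ¬ p <+: q := fun h3 => h' (List.cons_prefix_cons.2 ⟨rfl, h3⟩)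
        obtain ⟨c, x, y, p1, q1, rfl, rfl, hxy⟩ := ih q hpq h2
        exact ⟨a :: c, x, y, p1, q1, rfl, rfl, hxy⟩

theorem LL.of_lt {p q : List ℕ} (h : p < q) (h' : ¬ p <+: q) : LL p q := f0_of_lt p q h h'

theorem f0_irrefl {b : List ℕ} : ¬ LL b b := fun h => h.not_pre.1 (List.prefix_refl b)

/-- two entries of a list which both are prefixes of `b` are equal -/
theorem LL.unique {t : List Ent} (ht : (t.map Ent.ad).Pairwise LL) {e e' : Ent} (he : e ∈ t)
    (he' : e' ∈ t) {b : List ℕ} (hb : e.ad <+: b) (hb' : e'.ad <+: b) : e = e' := by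
  by_contra hne
  have h1 : t.Pairwise (fun e e' => LL e.ad e'.ad ∨ LL e'.ad e.ad) := by
    rw [List.pairwise_map] at ht
    exact ht.imp fun h => Or.inl h
  have : Std.Symm (fun e e' : Ent => LL e.ad e'.ad ∨ LL e'.ad e.ad) := ⟨fun _ _ h => Or.symm h⟩
  have h2 := h1.forall he he' hne
  rcases h2 with h2 | h2
  · exact f0_irrefl (h2.extend hb hb')
  · exact f0_irrefl (h2.extend hb' hb)

theorem f0_app : ∀ (q t : List ℕ), ¬ (q ++ t < q) := by
  intro q
  induction q with
  | nil => intro t; exact List.not_lt_nil _
  | cons a q ih =>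
    intro t h
    rw [List.cons_append] at h
    rcases List.cons_lt_cons_iff.1 h with h | ⟨_, h⟩
    · exact lt_irrefl _ h
    · exact ih t h

/-- if `p < q < r` and `p`, `r` extend `c` then `q` extends `c` -/
theorem pre_of_between {p q r c : List ℕ} (h1 : p < q) (h2 : q < r) (hp : c <+: p) (hr : c <+: r) :
    c <+: q := by
  by_contra hcq
  rcases lt_trichotomy c q with h | h | h
  · have h3 := (LL.of_lt h hcq).extend hr (List.prefix_refl q)
    exact lt_asymm h2 h3.lt
  · exact hcq (h ▸ List.prefix_refl c)
  · by_cases hqc : q <+: c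
    · obtain ⟨t, rfl⟩ := hqc.trans hp
      exact f0_app q t h1
    · have h3 := (LL.of_lt h hqc).extend (List.prefix_refl q) hp
      exact lt_asymm h1 h3.lt

theorem cpl_eq {c p q : List ℕ} {x y : ℕ} (hxy : x ≠ y) :
    cpl (c ++ x :: p) (c ++ y :: q) = c.length := by
  induction c with
  | nil => simp [cpl, hxy]
  | cons a c ih => simp [cpl, ih]

theorem le_cpl {c p q : List ℕ} (hp : c <+: p) (hq : c <+: q) : c.length ≤ cpl p q := by
  obtain ⟨s, rfl⟩ := hp
  obtain ⟨t, rfl⟩ := hq
  induction c with
  | nil => simp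
  | cons a c ih => simp [cpl, ih]

theorem cpl_lt {p q : List ℕ} {D : ℕ} (hp : p.length = D) (hq : q.length = D) (h : p ≠ q) :
    cpl p q < D := by
  induction p generalizing q D with
  | nil =>
    cases q with
    | nil => exact absurd rfl h
    | cons b q => simp at hp hq; omega
  | cons a p ih =>
    cases q with
    | nil => simp at hp hq; omega
    | cons b q =>
      simp only [List.length_cons] at hp hq
      by_cases hab : a = b
      · subst hab
        have h2 : p ≠ q := fun h3 => h (by rw [h3])
        have h3 := ih (q := q) (D := p.length) rfl (by omega) h2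
        simp only [cpl, if_true]
        omega
      · simp only [cpl, if_neg hab]
        omega

end MPb6P
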