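import Pool.Agent.Lib.MP_b6d339_lc.Pos.BDefs
import Pool.Agent.Lib.MP_b6d339_lc.Pos.C1
import Pool.Agent.Lib.MP_b6d339_lc.Pos.C2
import Pool.Agent.Lib.MP_b6d339_lc.Pos.F0

/-!
# Erdős 592, positive side: consequences of hosting
-/

open Filter Ordinal

namespace MPb6P

theorem B1_plr {R p : Fin 3} (hp : ∃ i, plr R i = p) :
    ∃ r < 2, ∀ i, plr R i = p ↔ i % 2 = r := by
  obtain ⟨i0, rfl⟩ := hp
  refine ⟨i0 % 2, Nat.mod_lt _ (by norm_num), fun i => ?_⟩
  unfold plr
  rcases Nat.mod_two_eq_zero_or_one i with h | h <;>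
    rcases Nat.mod_two_eq_zero_or_one i0 with h0 | h0 <;>
    rw [h, h0] <;> fin_cases R <;> simp

theorem B1_univ {tm : List ℕ → Prop} {H : Set ℕ} {π : List ℕ} (h : CPlay tm H π) :
    CPlay tm Set.univ π := ⟨h.inc, fun _ _ => trivial, h.term, h.first⟩

theorem B1_wrd_length (D : ℕ) (E : List (Option (List ℕ))) : (wrd D E).length = E.length := by
  simp [wrd]

theorem B1_wrd_getD (D : ℕ) (E : List (Option (List ℕ))) {i : ℕ} (h : i < E.length) :
    (wrd D E).getD i 0 = cls D E i := by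
  rw [List.getD_eq_getElem _ _ (by rw [B1_wrd_length]; exact h)]
  simp [wrd]

/-- the address of the event `i` -/
def B1_ad (E : List (Option (List ℕ))) (i : ℕ) : List ℕ := ((E[i]?).join).getD []

theorem B1_ad_eq {E : List (Option (List ℕ))} {i : ℕ} {a : List ℕ} (h : E[i]? = some (some a)) :
    B1_ad E i = a := by
  simp [B1_ad, h]

namespace Ctx
variable (C : Ctx)

theorem B1_run {R p : Fin 3} (hp : ∃ i, plr R i = p) {π : List ℕ} (hπ : C.cp π) :
    ∃ r n : ℕ, r < 2 ∧ (∀ i, plr R i = p ↔ i % 2 = r) ∧ 2 * n + r < (C.E π).length ∧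
      (C.E π).length ≤ 2 * n + r + 2 ∧
      (∀ k < n, ∃ a, (C.E π)[2 * k + r]? = some (some a) ∧ a.length = C.D) ∧
      (∀ i a, plr R i = p → (C.E π)[i]? = some (some a) → ∃ k < n, i = 2 * k + r) := by
  obtain ⟨r, hr, hr2⟩ := B1_plr hp
  obtain ⟨e1, e2, e3⟩ := evs_complete C.hD C.ok C.h1 (B1_univ hπ)
  have hE : C.E π = evs C.σ C.D π := rfl
  rw [hE]
  set m := (evs C.σ C.D π).length with hm
  refine ⟨r, (m - 1 - r) / 2, hr, hr2, by omega, by omega, ?_, ?_⟩
  · intro k hk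
    exact e2 _ (by omega)
  · intro i a hi ha
    rw [hr2] at hi
    have h1 : i < m := by
      by_contra h
      rw [List.getElem?_eq_none (by omega)] at ha
      simp at ha
    have h2 : i + 2 < m := by
      by_contra h
      have := e3 i h1 (by omega)
      rw [this] at ha
      simp at ha
    exact ⟨i / 2, by omega, by omega⟩

/-- B1. The cuts of `p` in `R` inside the block `q ++ [c]` do not meet (in time) the cuts of `p` in
`R'` inside `q ++ [b]` and inside `q ++ [b']`, `b < b'`. This is `no_two_meets`: the `k`-th event of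
`p` in run `R` has index `2 k + r`, `r = 0` or `1`; `n` := number of cuts of `p` (`evs_complete`: the
events `≥ length - 2` are `none`); addresses have length `D` and increase (`evs_lt`); labels increase
(`lab_mono`, `wrd_valid`); hosting from `C.compat π' π … .host R' R` (`wrd`, `cls`, `stL`;
`D + 1` = infinite). -/
theorem no_meet {R R' p : Fin 3} (hR : R ≠ R') (hp : ∃ i, plr R i = p) (hp' : ∃ i, plr R' i = p)
    {π π' : List ℕ} (hπ : C.cp π) (hπ' : C.cp π') (q : List ℕ) (hq : q.length < C.D)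
    (c b b' : ℕ) (hb : b < b')
    (h1 : ∃ i a j a', C.cut π R p i a ∧ C.cut π' R' p j a' ∧ (q ++ [c]) <+: a ∧
      (q ++ [b]) <+: a' ∧ C.L π R i ≤ C.L π' R' j)
    (h2 : ∃ i a j a', C.cut π R p i a ∧ C.cut π' R' p j a' ∧ (q ++ [c]) <+: a ∧
      (q ++ [b']) <+: a' ∧ C.L π' R' j ≤ C.L π R i) : False := by
  obtain ⟨r, n, hr, hpl, hn1, hn2, hcut, hinv⟩ := C.B1_run hp hπ
  obtain ⟨r', n', hr', hpl', hn1', hn2', hcut', hinv'⟩ := C.B1_run hp' hπ'
  have mono : ∀ {π : List ℕ} {R : Fin 3} {r n : ℕ}, C.cp π → 2 * n + r < (C.E π).length →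
      ∀ i j, i ≤ j → j ≤ n → C.L π R (2 * i + r) ≤ C.L π R (2 * j + r) := by
    intro π R r n hπ hn i j hij hj
    refine C.lab_mono _ (wrd_valid C.hD C.ok C.h1 (B1_univ hπ)) R _ _ (by omega) ?_
    rw [B1_wrd_length]
    have hE : (C.E π).length = (evs C.σ C.D π).length := rfl
    omega
  have incr : ∀ {π : List ℕ} {r n : ℕ}, C.cp π →
      (∀ k < n, ∃ a, (C.E π)[2 * k + r]? = some (some a) ∧ a.length = C.D) →
      ∀ i j, i < j → j < n → B1_ad (C.E π) (2 * i + r) < B1_ad (C.E π) (2 * j + r) := by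
    intro π r n hπ hc i j hij hj
    obtain ⟨a, ha, _⟩ := hc i (by omega)
    obtain ⟨a', ha', _⟩ := hc j hj
    rw [B1_ad_eq ha, B1_ad_eq ha']
    exact evs_lt C.hD C.ok C.h1 (B1_univ hπ) (i := 2 * i + r) (j := 2 * j + r) (by omega)
      (by omega) ha ha'
  have len : ∀ {π : List ℕ} {r n : ℕ},
      (∀ k < n, ∃ a, (C.E π)[2 * k + r]? = some (some a) ∧ a.length = C.D) →
      ∀ i < n, (B1_ad (C.E π) (2 * i + r)).length = C.D := by
    intro π r n hc i hi
    obtain ⟨a, ha, h⟩ := hc i hi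
    rw [B1_ad_eq ha, h]
  -- class of a gate between two cuts
  have gate : ∀ {π : List ℕ} {r n : ℕ},
      (∀ k < n, ∃ a, (C.E π)[2 * k + r]? = some (some a) ∧ a.length = C.D) →
      2 * n + r < (C.E π).length → ∀ k, 0 < k → k < n →
      (wrd C.D (C.E π)).getD (2 * k + r) 0 =
        C.D - cpl (B1_ad (C.E π) (2 * (k - 1) + r)) (B1_ad (C.E π) (2 * k + r)) := by
    intro π r n hc hn k h0 hk
    obtain ⟨a, ha, _⟩ := hc (k - 1) (by omega)
    obtain ⟨a', ha', _⟩ := hc k hk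
    rw [B1_wrd_getD _ _ (by omega), B1_ad_eq ha, B1_ad_eq ha']
    unfold cls
    rw [if_neg (by omega), show 2 * k + r - 2 = 2 * (k - 1) + r by omega, ha, ha']
    rfl
  refine no_two_meets C.D n n' (fun k => B1_ad (C.E π) (2 * k + r))
    (fun k => B1_ad (C.E π') (2 * k + r')) (fun k => C.L π R (2 * k + r))
    (fun k => C.L π' R' (2 * k + r')) (incr hπ hcut) (incr hπ' hcut') (len hcut) (len hcut')
    (mono hπ hn1) (mono hπ' hn1') ?_ q hq c b b' hb ?_ ?_
  · intro k hk0 hk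
    have hcomp := C.compat π' π hπ' hπ
    have hg := gate hcut' hn1' k hk0 hk
    obtain ⟨j0, g1, g2, g3, g4, g5⟩ := hcomp.host R' R hR.symm (2 * k + r')
      (by rw [B1_wrd_length]; show _ < (C.E π').length; omega)
      (by
        have : (wrd C.D (C.E π')).getD (2 * k + r') 0 ≤ C.D := by rw [hg]; omega
        exact this)
      (by
        obtain ⟨i, hi⟩ := hp
        exact ⟨i, by rw [hi]; exact ((hpl' _).mpr (by omega)).symm⟩)
    have hpk : plr R' (2 * k + r') = p := (hpl' _).mpr (by omega)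
    rw [hpk, hpl] at g2
    rw [B1_wrd_length] at g1
    change j0 < (C.E π).length at g1
    obtain ⟨j, rfl⟩ : ∃ j, j0 = 2 * j + r := ⟨j0 / 2, by omega⟩
    change (wrd C.D (C.E π')).getD (2 * k + r') 0 ≤ (wrd C.D (C.E π)).getD (2 * j + r) 0 at g3
    have s1 : stL (C.lab (wrd C.D (C.E π'))) R' (2 * k + r') = C.L π' R' (2 * (k - 1) + r') := by
      unfold stL
      rw [if_neg (by omega), show 2 * k + r' - 2 = 2 * (k - 1) + r' by omega]
      rfl
    change stL (C.lab (wrd C.D (C.E π'))) R' (2 * k + r') < C.L π R (2 * j + r) at g4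
    rw [s1] at g4
    change stL (C.lab (wrd C.D (C.E π))) R (2 * j + r) < C.L π' R' (2 * k + r') at g5
    refine ⟨j, by omega, ?_, g4, ?_⟩
    · by_cases hj0 : j = 0
      · exact Or.inl hj0
      by_cases hjn : j = n
      · exact Or.inr (Or.inl hjn)
      right; right
      rw [hg, gate hcut hn1 j (by omega) (by omega)] at g3
      exact g3
    · by_cases hj0 : j = 0
      · exact Or.inl hj0
      right
      have s2 : stL (C.lab (wrd C.D (C.E π))) R (2 * j + r) = C.L π R (2 * (j - 1) + r) := by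
        unfold stL
        rw [if_neg (by omega), show 2 * j + r - 2 = 2 * (j - 1) + r by omega]
        rfl
      rw [s2] at g5
      exact g5
  · obtain ⟨i, a, j, a', ⟨c1, c2⟩, ⟨c3, c4⟩, c5, c6, c7⟩ := h1
    obtain ⟨x, hx, rfl⟩ := hinv i a c1 c2
    obtain ⟨y, hy, rfl⟩ := hinv' j a' c3 c4
    exact ⟨x, hx, y, hy, by rw [B1_ad_eq c2]; exact c5, by rw [B1_ad_eq c4]; exact c6, c7⟩
  · obtain ⟨i, a, j, a', ⟨c1, c2⟩, ⟨c3, c4⟩, c5, c6, c7⟩ := h2
    obtain ⟨x, hx, rfl⟩ := hinv i a c1 c2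
    obtain ⟨y, hy, rfl⟩ := hinv' j a' c3 c4
    exact ⟨x, hx, y, hy, by rw [B1_ad_eq c2]; exact c5, by rw [B1_ad_eq c4]; exact c6, c7⟩

end Ctx

end MPb6P
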