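import Pool.Agent.Lib.MP_b6d339_lc.Pos.BDefs
import Pool.Agent.Lib.MP_b6d339_lc.Pos.B1
import Pool.Agent.Lib.MP_b6d339_lc.Pos.C2
import Pool.Agent.Lib.MP_b6d339_lc.Pos.F0

/-!
# Erdős 592, positive side: the choice of the reserved indices
-/

open Filter Ordinal

namespace MPb6P

namespace Ctx
variable (C : Ctx)

/-- the set of labels (role `R`) of the cuts of side `s` in `π` inside the block with address `q` -/
def LA (π : List ℕ) (R : Fin 3) (s : Bool) (q : List ℕ) : Set ℕ :=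
  {g | ∃ i a, decide (i % 2 = 0) = s ∧ (C.E π)[i]? = some (some a) ∧ q <+: a ∧ C.L π R i = g}

theorem b2_univ {π : List ℕ} (h : C.cp π) : CPlay (Tm C.σ C.D) Set.univ π :=
  ⟨h.inc, fun _ _ => trivial, h.term, h.first⟩

theorem b2_nuniv {ν : List ℕ} (h : C.hn ν) : HNode (Tm C.σ C.D) Set.univ ν :=
  ⟨h.inc, fun _ _ => trivial, h.first⟩

theorem b2_fin (π : List ℕ) (R : Fin 3) (s : Bool) (q : List ℕ) : (C.LA π R s q).Finite := by
  apply Set.Finite.subset ((Finset.range (C.E π).length).image (C.L π R)).finite_toSet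
  rintro g ⟨i, a, -, hi, -, rfl⟩
  simp only [Finset.coe_image, Finset.coe_range, Set.mem_image, Set.mem_Iio]
  exact ⟨i, (List.getElem?_eq_some_iff.1 hi).1, rfl⟩

theorem b2_plr {R p : Fin 3} {s : Bool} {i : ℕ} (hp : plrS R s = p) (hi : decide (i % 2 = 0) = s) :
    plr R i = p := by
  rw [← hp, ← hi, plrS_eq]

theorem b2_ex {R p : Fin 3} {s : Bool} (hp : plrS R s = p) : ∃ i, plr R i = p := by
  cases s
  · exact ⟨1, by rw [← hp]; simp [plrS]⟩
  · exact ⟨0, by rw [← hp]; simp [plrS]⟩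

theorem b2_le {π : List ℕ} (hπ : C.cp π) (R : Fin 3) (s : Bool) (q : List ℕ) {c c' : ℕ}
    (hc : c < c') {x y : ℕ} (hx : x ∈ C.LA π R s (q ++ [c])) (hy : y ∈ C.LA π R s (q ++ [c'])) :
    x ≤ y := by
  obtain ⟨i, a, his, hia, hqa, rfl⟩ := hx
  obtain ⟨j, b, hjs, hjb, hqb, rfl⟩ := hy
  have hLL : LL a b := LL.extend ⟨q, c, c', [], [], rfl, rfl, hc⟩ hqa hqb
  have hab : a < b := hLL.lt
  have hpar : i % 2 = j % 2 := by
    have h1 := his.trans hjs.symm
    have h2 : (i % 2 = 0) ↔ (j % 2 = 0) := by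
      simpa using h1
    omega
  have hij : i < j := by
    rcases lt_trichotomy i j with h | h | h
    · exact h
    · subst h
      rw [hia] at hjb
      simp only [Option.some.injEq] at hjb
      exact absurd hab (by rw [hjb]; exact lt_irrefl _)
    · have := evs_lt C.hD C.ok C.h1 (C.b2_univ hπ) h hpar.symm hjb hia
      exact absurd (lt_trans hab this) (lt_irrefl _)
  have hv := wrd_valid C.hD C.ok C.h1 (C.b2_univ hπ)
  refine C.lab_mono _ hv R i j hij.le ?_
  have : (wrd C.D (evs C.σ C.D π)).length = (evs C.σ C.D π).length := by simp [wrd]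
  rw [this]
  exact (List.getElem?_eq_some_iff.1 hjb).1

theorem b2_meet {R R' p : Fin 3} (hR : R ≠ R') {s s' : Bool} (hp : plrS R s = p)
    (hp' : plrS R' s' = p) {π π' : List ℕ} (hπ : C.cp π) (hπ' : C.cp π') (q : List ℕ)
    (hq : q.length < C.D) {c b b' : ℕ} (hb : b < b')
    (h1 : ¬ ∀ y ∈ C.LA π' R' s' (q ++ [b]), ∀ x ∈ C.LA π R s (q ++ [c]), y < x)
    (h2 : ¬ ∀ x ∈ C.LA π R s (q ++ [c]), ∀ y ∈ C.LA π' R' s' (q ++ [b']), x < y) : False := by
  push Not at h1 h2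
  obtain ⟨y, ⟨j, a', hjs, hja, hqa', rfl⟩, x, ⟨i, a, his, hia, hqa, rfl⟩, hxy⟩ := h1
  obtain ⟨x, ⟨i2, a2, his2, hia2, hqa2, rfl⟩, y, ⟨j2, a2', hjs2, hja2, hqa2', rfl⟩, hxy2⟩ := h2
  exact C.no_meet hR (b2_ex hp) (b2_ex hp') hπ hπ' q hq c b b' hb
    ⟨i, a, j, a', ⟨b2_plr hp his, hia⟩, ⟨b2_plr hp' hjs, hja⟩, hqa, hqa', hxy⟩
    ⟨i2, a2, j2, a2', ⟨b2_plr hp his2, hia2⟩, ⟨b2_plr hp' hjs2, hja2⟩, hqa2, hqa2', hxy2⟩

theorem b2_inc {ν π : List ℕ} (hπ : C.cp π) (hν : ν <+: π) (hnt : ¬ Tm C.σ C.D ν)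
    {s : Bool} (hs : (C.S ν s).go = true) (hres : (C.S ν s).res = []) {k k' : ℕ} (hk : k < k')
    (hk' : k' < needP (C.S ν s)) : π.getD (ν.length + k) 0 < π.getD (ν.length + k') 0 := by
  obtain ⟨P, a, hP, hPa⟩ := view_long C.hD C.ok C.h1 hπ hν hnt hs hres
  have hlen := hPa.length_le
  simp only [List.length_append, List.length_singleton] at hlen
  have hPn : P.length = needP (C.S ν s) := hP
  have h1 : ν.length + k' < π.length := by omega
  have h0 : ν.length + k < π.length := by omega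
  have hinc := List.pairwise_iff_getElem.1 hπ.inc (ν.length + k) (ν.length + k') h0 h1 (by omega)
  simpa [List.getD_eq_getElem?_getD, List.getElem?_eq_getElem h0, List.getElem?_eq_getElem h1]
    using hinc

/-- the list of the label sets -/
noncomputable def b2_A (π : List ℕ) (R : Fin 3) (s : Bool) (q : List ℕ) (m n : ℕ) : List (Finset ℕ) :=
  (List.range n).map fun k => (C.b2_fin π R s (q ++ [π.getD (m + k) 0])).toFinset

theorem b2_A_len (π : List ℕ) (R : Fin 3) (s : Bool) (q : List ℕ) (m n : ℕ) :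
    (C.b2_A π R s q m n).length = n := by simp [b2_A]

theorem b2_A_get (π : List ℕ) (R : Fin 3) (s : Bool) (q : List ℕ) (m n : ℕ) {k : ℕ} (hk : k < n) :
    (C.b2_A π R s q m n).getD k ∅ =
      (C.b2_fin π R s (q ++ [π.getD (m + k) 0])).toFinset := by
  rw [List.getD_eq_getElem?_getD]
  unfold b2_A
  rw [List.getElem?_map, List.getElem?_range hk]
  rfl

theorem b2_A_pw {ν π : List ℕ} (hπ : C.cp π) (hν : ν <+: π) (hnt : ¬ Tm C.σ C.D ν)
    {s : Bool} (hs : (C.S ν s).go = true) (hres : (C.S ν s).res = []) (R : Fin 3) (q : List ℕ) :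
    (C.b2_A π R s q ν.length (needP (C.S ν s))).Pairwise LEf := by
  unfold b2_A
  rw [List.pairwise_map]
  refine List.Pairwise.imp_of_mem ?_ List.pairwise_lt_range
  intro k k' _ hk' hkk x hx y hy
  rw [Set.Finite.mem_toFinset] at hx hy
  exact C.b2_le hπ R s q (C.b2_inc hπ hν hnt hs hres hkk (List.mem_range.1 hk')) hx hy

/-- B2. Both views have a designated block at the head: the reserved indices. For any plays
`π ⊇ ν`, `π' ⊇ ν'` let `A k` be the label set of the `k`-th reserved sub-block (`C.sureA`: it does not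
depend on `π`; finite, all labels of cuts have index `< length`), `B m` similarly. `A` and `B` are
weakly increasing (`evs_lt`, `lab_mono`: reserved indices of `π` increase, `view_long`), and by
`no_meet` no `A k` meets two `B m` and conversely. `merge_slots` gives `f`, `g`; let `h` be a strictly
increasing enumeration of elements `> N` of `H`; `P k = h (f k)`, `P' m = h (g m)`. -/
theorem exists_reserve {R R' p : Fin 3} (hR : R ≠ R') {ν ν' : List ℕ} (hν : C.hn ν)
    (hν' : C.hn ν') (hnt : ¬ Tm C.σ C.D ν) (hnt' : ¬ Tm C.σ C.D ν') {s s' : Bool}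
    (hs : (C.S ν s).go = true) (hs' : (C.S ν' s').go = true) (hres : (C.S ν s).res = [])
    (hres' : (C.S ν' s').res = []) (hp : plrS R s = p) (hp' : plrS R' s' = p)
    {e e' : Ent} {r r' : List Ent} (ht : (C.S ν s).todo = e :: r) (ht' : (C.S ν' s').todo = e' :: r')
    (hla : la e = la e') (he : e.ds = true) (he' : e'.ds = true) (N : ℕ) :
    ∃ P P' : List ℕ, P.length = needP (C.S ν s) ∧ P'.length = needP (C.S ν' s') ∧
      P.Pairwise (· < ·) ∧ P'.Pairwise (· < ·) ∧ (∀ x ∈ P, x ∈ C.H ∧ N < x) ∧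
      (∀ x ∈ P', x ∈ C.H ∧ N < x) ∧
      ∀ π π', C.cp π → C.cp π' → (ν ++ P) <+: π → (ν' ++ P') <+: π' →
        ∀ c ∈ P, ∀ c' ∈ P', ∀ g ∈ C.LA π R s (e.ad ++ [c]), ∀ g' ∈ C.LA π' R' s' (e'.ad ++ [c']),
          (c < c' → g < g') ∧ (c' < c → g' < g) ∧
          (c = c' → ¬ (∀ x ∈ C.LA π R s (e.ad ++ [c]), ∀ y ∈ C.LA π' R' s' (e'.ad ++ [c']), x < y) ∧
            ¬ (∀ x ∈ C.LA π R s (e.ad ++ [c]), ∀ y ∈ C.LA π' R' s' (e'.ad ++ [c']), y < x)) := by
  classical
  obtain ⟨π₀, hπ₀, hνπ₀⟩ := exists_cplay C.inf C.win hν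
  obtain ⟨π₁, hπ₁, hνπ₁⟩ := exists_cplay C.inf C.win hν'
  have had : e.ad = e'.ad := congrArg Prod.snd hla
  have hq : e.ad.length < C.D := by
    have hNI := nodeInv C.hD C.ok C.h1 (C.b2_nuniv hν)
    have h1 := hNI.lvl s e (by
      have : e ∈ (C.S ν s).todo := by rw [ht]; exact List.mem_cons_self
      exact this)
    obtain ⟨e2, r2, h2, h3, -⟩ := hNI.head s hs
    have h4 : (C.S ν s).todo = e2 :: r2 := h2
    rw [ht] at h4
    injection h4 with h5 h6
    subst h5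
    have : e.lv ≠ 0 := fun h => h3 ⟨h, he⟩
    omega
  set n := needP (C.S ν s) with hn
  set n' := needP (C.S ν' s') with hn'
  set A := C.b2_A π₀ R s e.ad ν.length n with hA
  set B := C.b2_A π₁ R' s' e.ad ν'.length n' with hB
  have hAlen : A.length = n := C.b2_A_len _ _ _ _ _ _
  have hBlen : B.length = n' := C.b2_A_len _ _ _ _ _ _
  have hAget : ∀ k < n, A.getD k ∅ = (C.b2_fin π₀ R s (e.ad ++ [π₀.getD (ν.length + k) 0])).toFinset :=
    fun k hk => C.b2_A_get _ _ _ _ _ _ hk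
  have hBget : ∀ k < n', B.getD k ∅ =
      (C.b2_fin π₁ R' s' (e.ad ++ [π₁.getD (ν'.length + k) 0])).toFinset :=
    fun k hk => C.b2_A_get _ _ _ _ _ _ hk
  have hApw : A.Pairwise LEf := C.b2_A_pw hπ₀ hνπ₀ hnt hs hres R e.ad
  have hBpw : B.Pairwise LEf := C.b2_A_pw hπ₁ hνπ₁ hnt' hs' hres' R' e.ad
  have hAB : ∀ i j j', i < A.length → j < j' → j' < B.length →
      LTf (A.getD i ∅) (B.getD j ∅) ∨ LTf (B.getD j ∅) (A.getD i ∅) ∨
      LTf (A.getD i ∅) (B.getD j' ∅) ∨ LTf (B.getD j' ∅) (A.getD i ∅) := by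
    intro i j j' hi hjj hj'
    rw [hAlen] at hi
    rw [hBlen] at hj'
    by_contra hcon
    push Not at hcon
    obtain ⟨-, h1, h2, -⟩ := hcon
    rw [hAget i hi, hBget j (by omega)] at h1
    rw [hAget i hi, hBget j' hj'] at h2
    unfold LTf at h1 h2
    simp only [Set.Finite.mem_toFinset] at h1 h2
    exact C.b2_meet hR hp hp' hπ₀ hπ₁ e.ad hq (C.b2_inc hπ₁ hνπ₁ hnt' hs' hres' hjj hj') h1 h2
  have hBA : ∀ j i i', j < B.length → i < i' → i' < A.length →
      LTf (B.getD j ∅) (A.getD i ∅) ∨ LTf (A.getD i ∅) (B.getD j ∅) ∨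
      LTf (B.getD j ∅) (A.getD i' ∅) ∨ LTf (A.getD i' ∅) (B.getD j ∅) := by
    intro j i i' hj hii hi'
    rw [hAlen] at hi'
    rw [hBlen] at hj
    by_contra hcon
    push Not at hcon
    obtain ⟨-, h1, h2, -⟩ := hcon
    rw [hAget i (by omega), hBget j hj] at h1
    rw [hAget i' hi', hBget j hj] at h2
    unfold LTf at h1 h2
    simp only [Set.Finite.mem_toFinset] at h1 h2
    exact C.b2_meet hR.symm hp' hp hπ₁ hπ₀ e.ad hq (C.b2_inc hπ₀ hνπ₀ hnt hs hres hii hi') h1 h2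
  obtain ⟨f, g, hf, hg, hfg⟩ := merge_slots A B hApw hBpw hAB hBA
  have hinf : {x | x ∈ C.H ∧ N < x}.Infinite := by
    have h1 : {x | x ∈ C.H ∧ N < x} = C.H \ (Finset.range (N + 1) : Set ℕ) := by
      ext x
      simp only [Set.mem_setOf_eq, Set.mem_diff, Finset.coe_range, Set.mem_Iio, not_lt]
      exact and_congr_right fun _ => Iff.rfl
    rw [h1]
    exact C.inf.diff (Finset.finite_toSet _)
  set h := Nat.nth (fun x => x ∈ C.H ∧ N < x) with hh
  have hmono : StrictMono h := Nat.nth_strictMono hinf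
  have hmem : ∀ k, h k ∈ C.H ∧ N < h k := fun k => Nat.nth_mem_of_infinite hinf k
  have hpw : ∀ (n : ℕ) (f : ℕ → ℕ), StrictMono f →
      ((List.range n).map (fun k => h (f k))).Pairwise (· < ·) := by
    intro n f hf
    rw [List.pairwise_map]
    exact List.Pairwise.imp (fun hab => hmono (hf hab)) List.pairwise_lt_range
  have hLA : ∀ (R : Fin 3) (s : Bool) (ν π π₀ : List ℕ) (q : List ℕ) (f : ℕ → ℕ), C.cp π → C.cp π₀ →
      ν <+: π₀ → (∃ (e : Ent) (r : List Ent), (C.S ν s).todo = e :: r ∧ e.ad = q) →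
      (ν ++ (List.range (needP (C.S ν s))).map (fun k => h (f k))) <+: π →
      ∀ k < needP (C.S ν s), C.LA π R s (q ++ [h (f k)]) =
        C.LA π₀ R s (q ++ [π₀.getD (ν.length + k) 0]) := by
    intro R s ν π π₀ q f hπ hπ₀ hνπ₀ htq hPπ k hk
    obtain ⟨e, r, ht, rfl⟩ := htq
    have hνπ : ν <+: π := (List.prefix_append _ _).trans hPπ
    have h1 := C.sureA ν π π₀ hπ hπ₀ hνπ hνπ₀ R s k hk
    have h2 : (((side (pos C.σ C.D ν) s).todo.head?.map Ent.ad).getD []) = e.ad := by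
      have : (side (pos C.σ C.D ν) s).todo = e :: r := ht
      rw [this]; rfl
    have h3 : π.getD (ν.length + k) 0 = h (f k) := by
      obtain ⟨t, rfl⟩ := hPπ
      rw [List.getD_eq_getElem?_getD, List.append_assoc, List.getElem?_append_right (by omega)]
      rw [Nat.add_sub_cancel_left, List.getElem?_append_left (by simpa using hk), List.getElem?_map,
        List.getElem?_range hk]
      rfl
    rw [h2, h3] at h1
    exact h1
  refine ⟨(List.range n).map (fun k => h (f k)), (List.range n').map (fun k => h (g k)), by simp,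
    by simp, hpw n f hf, hpw n' g hg, ?_, ?_, ?_⟩
  · intro x hx
    obtain ⟨k, -, rfl⟩ := List.mem_map.1 hx
    exact hmem _
  · intro x hx
    obtain ⟨k, -, rfl⟩ := List.mem_map.1 hx
    exact hmem _
  · intro π π' hπ hπ' hPπ hPπ' c hc c' hc' x hx y hy
    obtain ⟨k, hk, rfl⟩ := List.mem_map.1 hc
    obtain ⟨m, hm, rfl⟩ := List.mem_map.1 hc'
    rw [List.mem_range] at hk hm
    have e1 := hLA R s ν π π₀ e.ad f hπ hπ₀ hνπ₀ ⟨e, r, ht, rfl⟩ hPπ k hk
    have e2 := hLA R' s' ν' π' π₁ e.ad g hπ' hπ₁ hνπ₁ ⟨e', r', ht', had.symm⟩ hPπ' m hm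
    rw [← had] at hy ⊢
    rw [e1] at hx ⊢
    rw [e2] at hy ⊢
    have hfg' := hfg k (by omega) m (by omega)
    rw [hAget k hk, hBget m hm] at hfg'
    unfold LTf at hfg'
    simp only [Set.Finite.mem_toFinset] at hfg'
    obtain ⟨g1, g2, g3⟩ := hfg'
    refine ⟨?_, ?_, ?_⟩
    · intro hlt
      exact g1 (hmono.lt_iff_lt.1 hlt) x hx y hy
    · intro hlt
      exact g2 (hmono.lt_iff_lt.1 hlt) y hy x hx
    · intro heq
      obtain ⟨k1, k2⟩ := g3 (hmono.injective heq)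
      exact ⟨k1, fun hall => k2 fun y hy x hx => hall x hx y hy⟩

end Ctx

end MPb6P
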