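import Pool.Agent.Lib.MP_b6d339_lc.Pos.BDefs
import Pool.Agent.Lib.MP_b6d339_lc.Pos.B1
import Pool.Agent.Lib.MP_b6d339_lc.Pos.B2
import Pool.Agent.Lib.MP_b6d339_lc.Pos.F0

/-!
# Erdős 592, positive side: the order condition after one physical step
-/

open Filter Ordinal

namespace MPb6P

namespace Ctx
variable (C : Ctx)

theorem OrdT.symm {C : Ctx} {R R' p : Fin 3} {ν ν' : List ℕ} {n n' : ℕ} {adl : List (List ℕ)}
    (h : C.OrdT R R' p ν ν' n n' adl) : C.OrdT R' R p ν' ν n' n adl := by
  intro π π' hπ hπ' hν hν' i j a b hi hca hj hcb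
  obtain ⟨h1, h2⟩ := h π' π hπ' hπ hν' hν j i b a hj hcb hi hca
  refine ⟨h1.imp fun hh => ⟨hh.2, hh.1⟩, ?_⟩
  intro hab ha
  exact (h2 hab.symm (hab ▸ ha)).symm

theorem OrdT.mono {C : Ctx} {R R' p : Fin 3} {ν ν' μ μ' : List ℕ} {n n' m m' : ℕ}
    {adl : List (List ℕ)} (h : C.OrdT R R' p ν ν' n n' adl) (hν : ν <+: μ) (hν' : ν' <+: μ')
    (hn : n ≤ m) (hn' : n' ≤ m') : C.OrdT R R' p μ μ' m m' adl := by
  intro π π' hπ hπ' hμ hμ' i j a b hi hca hj hcb
  exact h π π' hπ hπ' (hν.trans hμ) (hν'.trans hμ') i j a b (hn.trans hi) hca (hn'.trans hj) hcb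

theorem PB3_sub {C : Ctx} {R R' p : Fin 3} {ν ν' : List ℕ} {n n' : ℕ} {q : List ℕ}
    {adl : List (List ℕ)} (h : C.OrdT R R' p ν ν' n n' (q :: adl)) :
    C.OrdT R R' p ν ν' n n' adl := by
  intro π π' hπ hπ' hμ hμ' i j a b hi hca hj hcb
  obtain ⟨h1, h2⟩ := h π π' hπ hπ' hμ hμ' i j a b hi hca hj hcb
  exact ⟨(List.pairwise_cons.mp h1).2, fun hab ha => h2 hab (List.mem_cons_of_mem _ ha)⟩

theorem PB3_list {H : Set ℕ} (hH : H.Infinite) (n : ℕ) : ∀ N : ℕ,
    ∃ P : List ℕ, P.length = n ∧ P.Pairwise (· < ·) ∧ ∀ x ∈ P, x ∈ H ∧ N < x := by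
  induction n with
  | zero => exact fun N => ⟨[], rfl, List.Pairwise.nil, by simp⟩
  | succ n ih =>
    intro N
    obtain ⟨x, hx, hNx⟩ := hH.exists_gt N
    obtain ⟨P, h1, h2, h3⟩ := ih x
    refine ⟨x :: P, by simp [h1], List.pairwise_cons.mpr ⟨fun y hy => (h3 y hy).2, h2⟩, ?_⟩
    intro y hy
    rcases List.mem_cons.mp hy with rfl | hy
    · exact ⟨hx, hNx⟩
    · exact ⟨(h3 y hy).1, hNx.trans (h3 y hy).2⟩

theorem PB3_side {R : Fin 3} {s : Bool} {i : ℕ} (h : plr R i = plrS R s) :
    decide (i % 2 = 0) = s := by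
  rw [← plrS_eq] at h
  revert h
  generalize decide (i % 2 = 0) = t
  intro h
  fin_cases R <;> cases s <;> cases t <;> first | rfl | (exfalso; revert h; decide)

theorem PB3_univ {tm : List ℕ → Prop} {H : Set ℕ} {π : List ℕ} (h : CPlay tm H π) :
    CPlay tm Set.univ π := ⟨h.inc, fun _ _ => Set.mem_univ _, h.term, h.first⟩

theorem PB3_univ' {tm : List ℕ → Prop} {H : Set ℕ} {π : List ℕ} (h : HNode tm H π) :
    HNode tm Set.univ π := ⟨h.inc, fun _ _ => Set.mem_univ _, h.first⟩

theorem PB3_prefix_snoc {ad α : List ℕ} {x y : ℕ} (hx : (ad ++ [x]) <+: α)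
    (hy : (ad ++ [y]) <+: α) : x = y := by
  have h := List.prefix_of_prefix_length_le hx hy (by simp)
  have h2 := h.eq_of_length (by simp)
  simpa using h2

/-- a future cut in the block `e.ad ++ [x]` is in a reserved block -/
theorem PB3_mem {R p : Fin 3} {ν : List ℕ} (hν : C.hn ν)
    (hnt : ¬ Tm C.σ C.D ν) {s : Bool} (hs : (C.S ν s).go = true) (hres : (C.S ν s).res = [])
    (hp : plrS R s = p) {e : Ent} {r : List Ent} (ht : (C.S ν s).todo = e :: r)
    (hlv : e.lv ≠ 0) {P : List ℕ} (hP : P.length = needP (C.S ν s)) {a : ℕ} {π : List ℕ}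
    (hπ : C.cp π) (hνπ : (ν ++ P ++ [a]) <+: π) {i : ℕ} {α : List ℕ}
    (hi : (C.E ν).length ≤ i) (hc : C.cut π R p i α) {x : ℕ} (hx : (e.ad ++ [x]) <+: α) :
    x ∈ P := by
  have hpar : decide (i % 2 = 0) = s := PB3_side (hc.1.trans hp.symm)
  obtain ⟨e0, he0, hds, hpre⟩ := future_newT C.hD C.ok C.h1 hnt hs hres hP hπ hνπ hi hpar hc.2
  have hni := nodeInv C.hD C.ok C.h1 (PB3_univ' hν)
  have hord := hni.ord s
  have ht' : (side (pos C.σ C.D ν) s).todo = e :: r := ht
  rw [ht'] at he0 hord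
  rw [List.map_cons, List.pairwise_cons] at hord
  unfold newT at he0
  simp only [if_neg hlv] at he0
  rw [List.mem_append] at he0
  rcases he0 with he0 | he0
  · unfold subs at he0
    rw [List.mem_map] at he0
    obtain ⟨y, _, rfl⟩ := he0
    have : y = x := PB3_prefix_snoc hpre hx
    subst this
    simpa using hds
  · exfalso
    have hll := hord.1 e0.ad (List.mem_map_of_mem he0)
    have h1 : e.ad <+: α := (List.prefix_append _ _).trans hx
    rcases List.prefix_or_prefix_of_prefix h1 hpre with h | h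
    · exact hll.not_pre.1 h
    · exact hll.not_pre.2 h

theorem PB3_LA {R : Fin 3} {p : Fin 3} {s : Bool} (hp : plrS R s = p) {π : List ℕ} {i : ℕ}
    {α q : List ℕ} (hc : C.cut π R p i α) (hq : q <+: α) : C.L π R i ∈ C.LA π R s q :=
  ⟨i, α, PB3_side (hc.1.trans hp.symm), hc.2, hq, rfl⟩

/-- the label set of a bottom block is a singleton -/
theorem PB3_LA_sing {R : Fin 3} {p : Fin 3} {s : Bool} (hp : plrS R s = p) {π : List ℕ}
    (hπ : C.cp π) {i : ℕ} {α : List ℕ} (hc : C.cut π R p i α) (hD : α.length = C.D) {g : ℕ}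
    (hg : g ∈ C.LA π R s α) : g = C.L π R i := by
  obtain ⟨j, b, hj, hb, hpre, rfl⟩ := hg
  have hi : decide (i % 2 = 0) = s := PB3_side (hc.1.trans hp.symm)
  have hπu := PB3_univ hπ
  obtain ⟨hc1, hc2, hc3⟩ := evs_complete C.hD C.ok C.h1 hπu
  have hjl : j < (evs C.σ C.D π).length := by
    by_contra h
    have : (evs C.σ C.D π)[j]? = none := List.getElem?_eq_none (by omega)
    have hb' : (evs C.σ C.D π)[j]? = some (some b) := hb
    rw [this] at hb'
    simp at hb'
  have hbD : b.length = C.D := by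
    by_cases h : j + 2 < (evs C.σ C.D π).length
    · obtain ⟨b', hb1, hb2⟩ := hc2 j h
      have hb' : (evs C.σ C.D π)[j]? = some (some b) := hb
      rw [hb1] at hb'
      simp only [Option.some.injEq] at hb'
      rw [← hb', hb2]
    · have hb' : (evs C.σ C.D π)[j]? = some (some b) := hb
      rw [hc3 j hjl (by omega)] at hb'
      simp at hb'
  have hab : α = b := hpre.eq_of_length (by rw [hD, hbD])
  subst hab
  have hpar : i % 2 = j % 2 := by
    have h : decide (i % 2 = 0) = decide (j % 2 = 0) := hi.trans hj.symm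
    have h2 : (i % 2 = 0) ↔ (j % 2 = 0) := by simpa using h
    omega
  rcases lt_trichotomy i j with h | h | h
  · exact absurd (evs_lt C.hD C.ok C.h1 hπu h hpar hc.2 hb) (lt_irrefl _)
  · rw [h]
  · exact absurd (evs_lt C.hD C.ok C.h1 hπu h hpar.symm hb hc.2) (lt_irrefl _)

theorem PB3_len {R p : Fin 3} {π : List ℕ} (hπ : C.cp π) {i : ℕ} {α : List ℕ}
    (hc : C.cut π R p i α) : α.length = C.D := by
  obtain ⟨hc1, hc2, hc3⟩ := evs_complete C.hD C.ok C.h1 (PB3_univ hπ)
  have hb' : (evs C.σ C.D π)[i]? = some (some α) := hc.2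
  have hjl : i < (evs C.σ C.D π).length := by
    by_contra h
    have : (evs C.σ C.D π)[i]? = none := List.getElem?_eq_none (by omega)
    rw [this] at hb'
    simp at hb'
  by_cases h : i + 2 < (evs C.σ C.D π).length
  · obtain ⟨b', hb1, hb2⟩ := hc2 i h
    rw [hb1] at hb'
    simp only [Option.some.injEq] at hb'
    rw [← hb', hb2]
  · rw [hc3 i hjl (by omega)] at hb'
    simp at hb'

/-- B3. One physical step of the player `p` in both views, with suitable reserves. Let
`e`, `e'` be the heads (`la e = la e'`). (1) `e.lv = 0`: `P = P' = []`, `newT` is the tail. (2) Exactly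
one of them, or none, is designated, `lv ≥ 1`: reserve arbitrary numbers of `H` above `N` in the
designated view; in the other view there are no future cuts in the sub-entries (`future_newT`:
future cuts are inside designated entries). (3) Both designated: `exists_reserve`. In all cases: for
two sub-entries use this; for a sub-entry and an entry of the tail, or two entries of the tail, use
the hypothesis (a prefix of the address extends `e.ad`); for `a = b` in the list: a bottom sub-entry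
`e.ad ++ [c]` (`lv = 1`) with `c ∈ P`, `c ∈ P'`: both label sets are singletons (addresses have
length `D`, so the cut is at `e.ad ++ [c]` itself, unique by `evs_lt`), neither `<` nor `>`, so they
are equal. -/
theorem ordStep {R R' p : Fin 3} (hR : R ≠ R') {ν ν' : List ℕ} (hν : C.hn ν)
    (hν' : C.hn ν') (hnt : ¬ Tm C.σ C.D ν) (hnt' : ¬ Tm C.σ C.D ν') {s s' : Bool}
    (hs : (C.S ν s).go = true) (hs' : (C.S ν' s').go = true) (hres : (C.S ν s).res = [])
    (hres' : (C.S ν' s').res = []) (hp : plrS R s = p) (hp' : plrS R' s' = p)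
    (hla : (C.S ν s).todo.map la = (C.S ν' s').todo.map la)
    (hord : C.OrdT R R' p ν ν' (C.E ν).length (C.E ν').length ((C.S ν s).todo.map Ent.ad))
    (N : ℕ) (hN : ∀ x ∈ ν, x ≤ N) (hN' : ∀ x ∈ ν', x ≤ N) :
    ∃ P P' : List ℕ, P.length = needP (C.S ν s) ∧ P'.length = needP (C.S ν' s') ∧
      P.Pairwise (· < ·) ∧ P'.Pairwise (· < ·) ∧ (∀ x ∈ P, x ∈ C.H ∧ N < x) ∧
      (∀ x ∈ P', x ∈ C.H ∧ N < x) ∧
      ∀ a ∈ C.H, N < a → (∀ x ∈ P, x < a) → (∀ x ∈ P', x < a) →
        C.OrdT R R' p (ν ++ P ++ [a]) (ν' ++ P' ++ [a]) (C.E ν).length (C.E ν').length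
          ((newT (C.S ν s).todo P a).map Ent.ad) := by
  have hni := nodeInv C.hD C.ok C.h1 (PB3_univ' hν)
  have hni' := nodeInv C.hD C.ok C.h1 (PB3_univ' hν')
  obtain ⟨e, r, ht, hne, -⟩ := hni.head s hs
  obtain ⟨e', r', ht', hne', -⟩ := hni'.head s' hs'
  have hT : (C.S ν s).todo = e :: r := ht
  have hT' : (C.S ν' s').todo = e' :: r' := ht'
  rw [hT, hT', List.map_cons, List.map_cons, List.cons.injEq] at hla
  have hlv : e.lv = e'.lv := congrArg Prod.fst hla.1
  have had : e.ad = e'.ad := congrArg Prod.snd hla.1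
  have hneed : ∀ {μ : List ℕ} {t : Bool} {f : Ent} {u : List Ent},
      (C.S μ t).todo = f :: u → f.ds = false → needP (C.S μ t) = 0 := by
    intro μ t f u hf hd
    unfold needP
    rw [hf]
    simp [hd]
  rw [hT, List.map_cons] at hord
  by_cases h0 : e.lv = 0
  · have hds : e.ds = false := by
      by_contra h
      exact hne ⟨h0, by simpa using h⟩
    have hds' : e'.ds = false := by
      by_contra h
      exact hne' ⟨hlv ▸ h0, by simpa using h⟩
    refine ⟨[], [], (hneed hT hds).symm, (hneed hT' hds').symm, List.Pairwise.nil,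
      List.Pairwise.nil, by simp, by simp, ?_⟩
    intro a _ _ _ _
    have hnew : newT (C.S ν s).todo [] a = r := by
      rw [hT]
      unfold newT
      simp [h0]
    rw [hnew]
    refine OrdT.mono (PB3_sub hord) ?_ ?_ le_rfl le_rfl
    · rw [List.append_nil]
      exact List.prefix_append _ _
    · rw [List.append_nil]
      exact List.prefix_append _ _
  · have key : ∃ P P' : List ℕ, P.length = needP (C.S ν s) ∧ P'.length = needP (C.S ν' s') ∧
        P.Pairwise (· < ·) ∧ P'.Pairwise (· < ·) ∧ (∀ x ∈ P, x ∈ C.H ∧ N < x) ∧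
        (∀ x ∈ P', x ∈ C.H ∧ N < x) ∧
        ∀ π π', C.cp π → C.cp π' → (ν ++ P) <+: π → (ν' ++ P') <+: π' →
          ∀ c ∈ P, ∀ c' ∈ P', ∀ g ∈ C.LA π R s (e.ad ++ [c]),
            ∀ g' ∈ C.LA π' R' s' (e'.ad ++ [c']),
            (c < c' → g < g') ∧ (c' < c → g' < g) ∧
            (c = c' → ¬ (∀ x ∈ C.LA π R s (e.ad ++ [c]),
                ∀ y ∈ C.LA π' R' s' (e'.ad ++ [c']), x < y) ∧
              ¬ (∀ x ∈ C.LA π R s (e.ad ++ [c]),
                ∀ y ∈ C.LA π' R' s' (e'.ad ++ [c']), y < x)) := by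
      by_cases hds : e.ds = true
      · by_cases hds' : e'.ds = true
        · exact C.exists_reserve hR hν hν' hnt hnt' hs hs' hres hres' hp hp' hT hT' hla.1 hds hds' N
        · have hds'' : e'.ds = false := by simpa using hds'
          obtain ⟨P, hP1, hP2, hP3⟩ := PB3_list C.inf (needP (C.S ν s)) N
          refine ⟨P, [], hP1, (hneed hT' hds'').symm, hP2, List.Pairwise.nil, hP3, by simp, ?_⟩
          intro π π' _ _ _ _ c _ c' hc'
          simp at hc'
      · have hds'' : e.ds = false := by simpa using hds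
        obtain ⟨P', hP1, hP2, hP3⟩ := PB3_list C.inf (needP (C.S ν' s')) N
        refine ⟨[], P', (hneed hT hds'').symm, hP1, List.Pairwise.nil, hP2, by simp, hP3, ?_⟩
        intro π π' _ _ _ _ c hc
        simp at hc
    obtain ⟨P, P', hP, hP', hPi, hPi', hPH, hPH', hkey⟩ := key
    refine ⟨P, P', hP, hP', hPi, hPi', hPH, hPH', ?_⟩
    intro a _ _ _ _ π π' hπ hπ' hνπ hνπ' i j α β hi hca hj hcb
    have hνP : (ν ++ P) <+: π := (List.prefix_append _ _).trans hνπ
    have hνP' : (ν' ++ P') <+: π' := (List.prefix_append _ _).trans hνπ'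
    have hν0 : ν <+: π := (List.prefix_append _ _).trans hνP
    have hν0' : ν' <+: π' := (List.prefix_append _ _).trans hνP'
    obtain ⟨ho1, ho2⟩ := hord π π' hπ hπ' hν0 hν0' i j α β hi hca hj hcb
    rw [List.pairwise_cons] at ho1
    have hnew : (newT (C.S ν s).todo P a).map Ent.ad =
        (List.range a).map (fun x => e.ad ++ [x]) ++ r.map Ent.ad := by
      rw [hT]
      unfold newT subs
      simp only [if_neg h0]
      rw [List.map_append, List.map_map]
      rfl
    rw [hnew]
    have hmα : ∀ x, (e.ad ++ [x]) <+: α → x ∈ P := fun x hx =>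
      C.PB3_mem hν hnt hs hres hp hT h0 hP hπ hνπ hi hca hx
    have hmβ : ∀ x, (e.ad ++ [x]) <+: β → x ∈ P' := by
      intro x hx
      rw [had] at hx
      exact C.PB3_mem hν' hnt' hs' hres' hp' hT' (hlv ▸ h0) hP' hπ' hνπ' hj hcb hx
    have hLα : ∀ x, (e.ad ++ [x]) <+: α → C.L π R i ∈ C.LA π R s (e.ad ++ [x]) := fun x hx =>
      C.PB3_LA hp hca hx
    have hLβ : ∀ x, (e.ad ++ [x]) <+: β → C.L π' R' j ∈ C.LA π' R' s' (e'.ad ++ [x]) := by
      intro x hx
      rw [had] at hx
      exact C.PB3_LA hp' hcb hx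
    refine ⟨?_, ?_⟩
    · rw [List.pairwise_append]
      refine ⟨?_, ho1.2, ?_⟩
      · rw [List.pairwise_map]
        refine List.Pairwise.imp ?_ (List.pairwise_lt_range (n := a))
        intro x y hxy
        constructor
        · intro h1 h2
          exact (hkey π π' hπ hπ' hνP hνP' x (hmα x h1) y (hmβ y h2) _ (hLα x h1) _
            (hLβ y h2)).1 hxy
        · intro h1 h2
          exact (hkey π π' hπ hπ' hνP hνP' y (hmα y h2) x (hmβ x h1) _ (hLα y h2) _
            (hLβ x h1)).2.1 hxy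
      · intro q hq q' hq'
        rw [List.mem_map] at hq
        obtain ⟨x, _, rfl⟩ := hq
        obtain ⟨g1, g2⟩ := ho1.1 q' hq'
        exact ⟨fun h => g1 ((List.prefix_append _ _).trans h),
          fun h => g2 ((List.prefix_append _ _).trans h)⟩
    · intro hab hmem
      rw [List.mem_append] at hmem
      rcases hmem with hmem | hmem
      · rw [List.mem_map] at hmem
        obtain ⟨x, _, hx⟩ := hmem
        have hDα := C.PB3_len hπ hca
        have hxα : (e.ad ++ [x]) <+: α := by rw [hx]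
        have hxβ : (e.ad ++ [x]) <+: β := by rw [hx, hab]
        obtain ⟨-, -, h3⟩ := hkey π π' hπ hπ' hνP hνP' x (hmα x hxα) x (hmβ x hxβ) _ (hLα x hxα) _
          (hLβ x hxβ)
        obtain ⟨h4, h5⟩ := h3 rfl
        have hs1 : ∀ g ∈ C.LA π R s (e.ad ++ [x]), g = C.L π R i := by
          intro g hg
          rw [hx] at hg
          exact C.PB3_LA_sing hp hπ hca hDα hg
        have hs2 : ∀ g ∈ C.LA π' R' s' (e'.ad ++ [x]), g = C.L π' R' j := by
          intro g hg
          rw [← had, hx, hab] at hg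
          exact C.PB3_LA_sing hp' hπ' hcb (hab ▸ hDα) hg
        rcases lt_trichotomy (C.L π R i) (C.L π' R' j) with h | h | h
        · exact absurd (fun g hg g' hg' => by rw [hs1 g hg, hs2 g' hg']; exact h) h4
        · exact h
        · exact absurd (fun g hg g' hg' => by rw [hs1 g hg, hs2 g' hg']; exact h) h5
      · exact ho2 hab (List.mem_cons_of_mem _ hmem)

end Ctx

end MPb6P
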