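import Pool.Agent.Lib.MP_b6d339_lc.Pos.BDefs
import Pool.Agent.Lib.MP_b6d339_lc.Pos.F0

/-!
# Erdős 592, positive side: the minimal next label
-/

open Filter Ordinal

namespace MPb6P

theorem b4_other (R : Fin 3) (s : Bool) : ∃ R' : Fin 3, R' ≠ R ∧ (∃ s', plrS R s = plrS R' s') ∧
    ∀ R'', R'' ≠ R → R'' ≠ R' → ∀ t, plrS R'' t ≠ plrS R s := by
  revert R s
  decide

theorem b4_plrS (R : Fin 3) {s t : Bool} (h : plrS R t = plrS R s) : t = s := by
  revert h
  revert R s t
  decide

namespace Ctx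
variable (C : Ctx)

theorem b4_hnu {ν : List ℕ} (h : C.hn ν) : HNode (Tm C.σ C.D) Set.univ ν :=
  ⟨h.inc, fun _ _ => trivial, h.first⟩

theorem b4_univ {π : List ℕ} (h : C.cp π) : CPlay (Tm C.σ C.D) Set.univ π :=
  ⟨h.inc, fun _ _ => trivial, h.term, h.first⟩

theorem b4_wlen (π : List ℕ) : (wrd C.D (C.E π)).length = (C.E π).length := by
  simp [wrd]

/-- the active side -/
theorem b4_go {ν : List ℕ} (hν : C.hn ν) (hnt : ¬ Tm C.σ C.D ν) :
    (C.S ν (decide ((C.E ν).length % 2 = 0))).go = true := by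
  have hN := nodeInv C.hD C.ok C.h1 (C.b4_hnu hν)
  have h1 := hN.par hnt
  have h2 := hN.act hnt false
  unfold S E
  rw [← h1]
  cases h3 : (pos C.σ C.D ν).1.go with
  | true =>
    simp only [side, if_true]
    exact h3
  | false =>
    simp only [side, Bool.false_eq_true, if_false, Bool.not_false, if_true] at h2 ⊢
    rw [h2, h3]
    rfl

/-- B4a. The minimal next label: the two runs of its player have him active, and the next event of
the other run has a label at least as big and belongs to him. `g = C.L π R n` is minimal among the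
next labels of the non terminal runs. Proof: `(C.compat π π').timing` at event `n` of run `R` gives
an event `j` of `p` in `R'` with label `≥ g`, all earlier labels `< g`; executed events of `R'` have
labels `< g` (`inv.exe`), so `j ≥ n'`, so `R'` is not terminal; by minimality `j = n'`. -/
theorem due {ν : Fin 3 → List ℕ} (inv : C.Inv ν) {R : Fin 3} (hnt : ¬ Tm C.σ C.D (ν R))
    (hmin : ∀ R' , ¬ Tm C.σ C.D (ν R') → ∀ π π', C.cp π → C.cp π' → ν R <+: π → ν R' <+: π' →
      C.L π R (C.E (ν R)).length ≤ C.L π' R' (C.E (ν R')).length) :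
    ∃ (s : Bool) (R' : Fin 3) (s' : Bool), R' ≠ R ∧ plrS R s = plrS R' s' ∧
      plr R (C.E (ν R)).length = plrS R s ∧ plr R' (C.E (ν R')).length = plrS R s ∧
      ¬ Tm C.σ C.D (ν R') ∧ (C.S (ν R) s).go = true ∧ (C.S (ν R') s').go = true ∧
      ∀ R'', R'' ≠ R → R'' ≠ R' → ∀ t, plrS R'' t ≠ plrS R s := by
  obtain ⟨R', hRR', ⟨s0, hs0⟩, hother⟩ := b4_other R (decide ((C.E (ν R)).length % 2 = 0))
  obtain ⟨π, hπ, hνπ⟩ := exists_cplay C.inf C.win (inv.hn R)
  obtain ⟨π', hπ', hνπ'⟩ := exists_cplay C.inf C.win (inv.hn R')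
  have hn : (C.E (ν R)).length < (C.E π).length :=
    evs_lt_of_nonterm C.hD C.ok C.h1 (C.b4_univ hπ) hνπ (by
      intro h
      rw [h] at hnt
      exact hnt hπ.term)
  have hpe : plr R (C.E (ν R)).length = plrS R (decide ((C.E (ν R)).length % 2 = 0)) :=
    (plrS_eq _ _).symm
  have h2 := C.b4_wlen π
  have h3 := C.b4_wlen π'
  have hj : ∃ j, plr R' j = plr R (C.E (ν R)).length := by
    rw [hpe, hs0]
    exact ⟨if s0 then 0 else 1, rfl⟩
  obtain ⟨j, hj1, hj2, hj3, hj4, -⟩ := (C.compat π π' hπ hπ').timing R R' hRR'.symm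
    (C.E (ν R)).length (by unfold E at h2 hn ⊢; omega) hj
  have hj1' : j < (C.E π').length := by
    unfold E at h3 ⊢
    omega
  have hj3' : C.L π R (C.E (ν R)).length ≤ C.L π' R' j := hj3
  have hj4' : ∀ k < j, C.L π' R' k < C.L π R (C.E (ν R)).length := hj4
  have hjn : (C.E (ν R')).length ≤ j := by
    by_contra hcon
    have := inv.exe R' R hRR' π' π hπ' hπ hνπ' hνπ j (C.E (ν R)).length (by omega) le_rfl hn
    omega
  have hnt' : ¬ Tm C.σ C.D (ν R') := by
    intro hT
    have h4 := (CPlay.node hπ' hνπ').2 hT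
    rw [h4] at hjn
    omega
  have hm := hmin R' hnt' π π' hπ hπ' hνπ hνπ'
  have hjeq : j = (C.E (ν R')).length := by
    by_contra hcon
    have := hj4' (C.E (ν R')).length (by omega)
    omega
  have hp2 : plr R' (C.E (ν R')).length = plrS R (decide ((C.E (ν R)).length % 2 = 0)) := by
    rw [← hjeq, hj2, hpe]
  refine ⟨decide ((C.E (ν R)).length % 2 = 0), R', decide ((C.E (ν R')).length % 2 = 0), hRR', ?_,
    hpe, hp2, hnt', C.b4_go (inv.hn R) hnt, C.b4_go (inv.hn R') hnt', hother⟩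
  rw [plrS_eq R' (C.E (ν R')).length, hp2]

end Ctx

end MPb6P
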