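import Pool.Agent.Lib.MP_b6d339_lc.Pos.BDefs
import Pool.Agent.Lib.MP_b6d339_lc.Pos.F0

/-!
# Erdős 592, positive side: events are fired together when due
-/

open Filter Ordinal

namespace MPb6P

theorem b4b_newT_la {t t' : List Ent} (h : t.map la = t'.map la) (P P' : List ℕ) (a : ℕ) :
    (newT t P a).map la = (newT t' P' a).map la := by
  cases t with
  | nil =>
    cases t' with
    | nil => rfl
    | cons e' r' => simp at h
  | cons e r =>
    cases t' with
    | nil => simp at h
    | cons e' r' =>
      simp only [List.map_cons, List.cons.injEq] at h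
      obtain ⟨h1, h2⟩ := h
      have hlv : e.lv = e'.lv := congrArg Prod.fst h1
      have had : e.ad = e'.ad := congrArg Prod.snd h1
      unfold newT
      simp only [hlv]
      split_ifs
      · exact h2
      · rw [List.map_append, List.map_append, h2]
        congr 1
        unfold subs
        rw [List.map_map, List.map_map]
        apply List.map_congr_left
        intro i _
        simp [la, had]

theorem b4b_ad {t t' : List Ent} (h : t.map la = t'.map la) : t.map Ent.ad = t'.map Ent.ad := by
  have h1 : ∀ u : List Ent, u.map Ent.ad = (u.map la).map Prod.snd := by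
    intro u
    rw [List.map_map]
    rfl
  rw [h1, h1, h]

theorem b4b_par (R : Fin 3) {i j : ℕ} (h : plr R i = plr R j) : i % 2 = j % 2 := by
  have hi : i % 2 = 0 ∨ i % 2 = 1 := by omega
  have hj : j % 2 = 0 ∨ j % 2 = 1 := by omega
  unfold plr at h
  rcases hi with hi | hi <;> rcases hj with hj | hj
  · omega
  · exfalso
    rw [hi, hj] at h
    revert h
    revert R
    decide
  · exfalso
    rw [hi, hj] at h
    revert h
    revert R
    decide
  · omega

namespace Ctx
variable (C : Ctx)

theorem b4b_univ {π : List ℕ} (h : C.cp π) : CPlay (Tm C.σ C.D) Set.univ π :=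
  ⟨h.inc, fun _ _ => trivial, h.term, h.first⟩

theorem b4b_hnu {ν : List ℕ} (h : C.hn ν) : HNode (Tm C.σ C.D) Set.univ ν :=
  ⟨h.inc, fun _ _ => trivial, h.first⟩

theorem b4b_wlen (π : List ℕ) : (wrd C.D (C.E π)).length = (C.E π).length := by
  simp [wrd]

theorem b4b_mono {π : List ℕ} (h : C.cp π) (R : Fin 3) {i j : ℕ} (hij : i ≤ j)
    (hj : j < (C.E π).length) : C.L π R i ≤ C.L π R j := by
  unfold L
  refine C.lab_mono _ (wrd_valid C.hD C.ok C.h1 (C.b4b_univ h)) R i j hij ?_
  have := C.b4b_wlen π
  unfold E at this hj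
  omega

theorem b4b_common {π π' : List ℕ} (h : C.cp π) (h' : C.cp π') {R R' : Fin 3} (hR : R ≠ R')
    {i j : ℕ} (hi : i < (C.E π).length) (hj : j < (C.E π').length)
    (he : C.L π R i = C.L π' R' j) :
    ((C.E π).length ≤ i + 2 ↔ (C.E π').length ≤ j + 2) := by
  have h2 := C.b4b_wlen π
  have h3 := C.b4b_wlen π'
  unfold E at h2 h3 hi hj
  have h1 := ((C.compat π π' h h').common R R' hR i (by omega) j (by omega) he).2.2.2
  unfold E
  rw [h2, h3] at h1
  exact h1

theorem b4b_timing {π π' : List ℕ} (h : C.cp π) (h' : C.cp π') {R R' : Fin 3} (hR : R ≠ R')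
    {i : ℕ} (hi : i < (C.E π).length) (hj : ∃ j, plr R' j = plr R i)
    (hfin : (C.E π).length ≤ i + 2) :
    ∃ j < (C.E π').length, plr R' j = plr R i ∧ C.L π R i = C.L π' R' j ∧
      (∀ k < j, C.L π' R' k < C.L π R i) := by
  have h2 := C.b4b_wlen π
  have h3 := C.b4b_wlen π'
  unfold E at h2 h3 hi hfin
  obtain ⟨j, h4, h5, h6, h7, h8⟩ := (C.compat π π' h h').timing R R' hR i (by omega) hj
  refine ⟨j, ?_, h5, h8 (by omega), h7⟩
  unfold E
  omega

/-- the next event of a node belongs to the active player -/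
theorem b4b_plr {ν : List ℕ} (hν : C.hn ν) (hnt : ¬ Tm C.σ C.D ν) {s : Bool}
    (hs : (C.S ν s).go = true) : s = decide ((C.E ν).length % 2 = 0) := by
  have hN := nodeInv C.hD C.ok C.h1 (C.b4b_hnu hν)
  have h1 := hN.par hnt
  have h2 := hN.act hnt true
  unfold E
  rw [← h1]
  unfold S at hs
  cases s with
  | true =>
    simp only [side, if_true] at hs
    exact hs.symm
  | false =>
    simp only [side, Bool.false_eq_true, if_false, Bool.not_true, if_true] at hs h2
    rw [h2, hs]
    rfl

/-- B4b. After the step: the event of `R'` is fired only together with the one of `R`, with equal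
labels; conversely if the labels are equal both are fired. -/
theorem fire_iff {R R' p : Fin 3} (hR : R ≠ R') {ν ν' : List ℕ} (hν : C.hn ν)
    (hν' : C.hn ν') (hnt : ¬ Tm C.σ C.D ν) (hnt' : ¬ Tm C.σ C.D ν') {s s' : Bool}
    (hs : (C.S ν s).go = true) (hs' : (C.S ν' s').go = true) (hres : (C.S ν s).res = [])
    (hres' : (C.S ν' s').res = []) (hp : plrS R s = p) (hp' : plrS R' s' = p)
    (hla : (C.S ν s).todo.map la = (C.S ν' s').todo.map la)
    {P P' : List ℕ} {a : ℕ} (hP : P.length = needP (C.S ν s)) (hP' : P'.length = needP (C.S ν' s'))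
    (hn1 : C.hn (ν ++ P ++ [a])) (hn1' : C.hn (ν' ++ P' ++ [a]))
    (hord : C.OrdT R R' p (ν ++ P ++ [a]) (ν' ++ P' ++ [a]) (C.E ν).length (C.E ν').length
      ((newT (C.S ν s).todo P a).map Ent.ad))
    {π π' : List ℕ} (hπ : C.cp π) (hπ' : C.cp π') (h1 : (ν ++ P ++ [a]) <+: π)
    (h1' : (ν' ++ P' ++ [a]) <+: π')
    (hle : C.L π R (C.E ν).length ≤ C.L π' R' (C.E ν').length) :
    (C.E (ν' ++ P' ++ [a]) ≠ C.E ν' →
      C.E (ν ++ P ++ [a]) ≠ C.E ν ∧ C.L π R (C.E ν).length = C.L π' R' (C.E ν').length) ∧
    (C.E (ν ++ P ++ [a]) ≠ C.E ν → C.L π R (C.E ν).length = C.L π' R' (C.E ν').length →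
      C.E (ν' ++ P' ++ [a]) ≠ C.E ν') := by
  have hs2 := C.b4b_plr hν hnt hs
  have hs2' := C.b4b_plr hν' hnt' hs'
  -- members of plays
  have hmem : ∀ {μ : List ℕ} {x : ℕ}, C.cp μ → x ∈ μ → x ∈ C.H := fun h hx => h.mem _ hx
  have hinc : (ν ++ P ++ [a]).Pairwise (· < ·) := hn1.inc
  have hinc' : (ν' ++ P' ++ [a]).Pairwise (· < ·) := hn1'.inc
  have hPH : ∀ x ∈ P, x ∈ C.H := fun x hx => hn1.mem x (by simp [hx])
  have hPH' : ∀ x ∈ P', x ∈ C.H := fun x hx => hn1'.mem x (by simp [hx])
  have haH : a ∈ C.H := hn1.mem a (by simp)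
  obtain ⟨-, -, -, -, -, -, v7⟩ := view_step C.hD C.ok C.h1 (H := C.H) hν hnt hs hres hP hinc
    hPH haH
  obtain ⟨-, -, -, -, -, -, w7⟩ := view_step C.hD C.ok C.h1 (H := C.H) hν' hnt' hs' hres' hP' hinc'
    hPH' haH
  have hTla : (newT (C.S ν s).todo P a).map la = (newT (C.S ν' s').todo P' a).map la :=
    b4b_newT_la hla P P' a
  have hpre1 : C.E (ν ++ P ++ [a]) <+: C.E π := evs_pre h1
  have hpre1' : C.E (ν' ++ P' ++ [a]) <+: C.E π' := evs_pre h1'
  have hνπ : ν <+: π := ((List.prefix_append _ _).trans (List.prefix_append _ _)).trans h1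
  have hνπ' : ν' <+: π' := ((List.prefix_append _ _).trans (List.prefix_append _ _)).trans h1'
  have hn : (C.E ν).length < (C.E π).length :=
    evs_lt_of_nonterm C.hD C.ok C.h1 (C.b4b_univ hπ) hνπ (by
      intro h
      rw [h] at hnt
      exact hnt hπ.term)
  have hn' : (C.E ν').length < (C.E π').length :=
    evs_lt_of_nonterm C.hD C.ok C.h1 (C.b4b_univ hπ') hνπ' (by
      intro h
      rw [h] at hnt'
      exact hnt' hπ'.term)
  obtain ⟨-, ec2, ec3⟩ := evs_complete C.hD C.ok C.h1 (C.b4b_univ hπ)
  obtain ⟨-, ec2', ec3'⟩ := evs_complete C.hD C.ok C.h1 (C.b4b_univ hπ')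
  have hplr : plr R (C.E ν).length = p := by
    rw [← plrS_eq, ← hs2, hp]
  have hplr' : plr R' (C.E ν').length = p := by
    rw [← plrS_eq, ← hs2', hp']
  -- the event at index `n`
  have hget : ∀ {μ ρ : List ℕ} {x : Option (List ℕ)}, C.E μ ++ [x] <+: C.E ρ →
      (C.E ρ)[(C.E μ).length]? = some x := by
    intro μ ρ x h
    obtain ⟨t, ht⟩ := h
    rw [← ht]
    simp
  constructor
  · intro hf
    rcases w7 with ⟨w8, -, -⟩ | ⟨w8, -, w9⟩
    · exact absurd w8 hf
    rcases w9 with w9 | w9
    · -- `T' = []`
      have hT' : newT (C.S ν' s').todo P' a = [] := w9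
      have hT : newT (C.S ν s).todo P a = [] := by
        rw [hT'] at hTla
        simpa using hTla
      rcases v7 with ⟨-, v8, -⟩ | ⟨v8, -, -⟩
      · exact absurd hT v8
      have e1 : C.E (ν ++ P ++ [a]) = C.E ν ++ [none] := by
        have := v8
        unfold S at hT
        rw [hT] at this
        exact this
      have e1' : C.E (ν' ++ P' ++ [a]) = C.E ν' ++ [none] := by
        have := w8
        unfold S at hT'
        rw [hT'] at this
        exact this
      refine ⟨by rw [e1]; simp, ?_⟩
      have g1 : (C.E π)[(C.E ν).length]? = some none := hget (by rw [← e1]; exact hpre1)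
      have g1' : (C.E π')[(C.E ν').length]? = some none := hget (by rw [← e1']; exact hpre1')
      have f1 : (C.E π).length ≤ (C.E ν).length + 2 := by
        by_contra hcon
        obtain ⟨b, hb, -⟩ := ec2 (C.E ν).length (by unfold E at hcon ⊢; omega)
        unfold E at g1 hb
        rw [g1] at hb
        simp at hb
      have f1' : (C.E π').length ≤ (C.E ν').length + 2 := by
        by_contra hcon
        obtain ⟨b, hb, -⟩ := ec2' (C.E ν').length (by unfold E at hcon ⊢; omega)
        unfold E at g1' hb
        rw [g1'] at hb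
        simp at hb
      obtain ⟨j, hj1, hj2, hj3, hj4⟩ := C.b4b_timing hπ' hπ hR.symm hn'
        ⟨(C.E ν).length, by rw [hplr, hplr']⟩ f1'
      have hpar := b4b_par R (hj2.trans (hplr'.trans hplr.symm))
      have hjn : j ≤ (C.E ν).length := by omega
      have := C.b4b_mono hπ R hjn hn
      omega
    · -- `T'` begins with a designated bottom entry
      obtain ⟨e', r', hT', he0', hed'⟩ := w9
      have hT2' : newT (C.S ν' s').todo P' a = e' :: r' := hT'
      obtain ⟨e, r, hT, hlae, hlar⟩ : ∃ e r, newT (C.S ν s).todo P a = e :: r ∧ la e = la e' ∧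
          r.map la = r'.map la := by
        rw [hT2'] at hTla
        cases hT : newT (C.S ν s).todo P a with
        | nil => rw [hT] at hTla; simp at hTla
        | cons e r =>
          rw [hT] at hTla
          simp only [List.map_cons, List.cons.injEq] at hTla
          exact ⟨e, r, rfl, hTla.1, hTla.2⟩
      have hlv : e.lv = 0 := (congrArg Prod.fst hlae).trans he0'
      have had : e.ad = e'.ad := congrArg Prod.snd hlae
      have e1' : C.E (ν' ++ P' ++ [a]) = C.E ν' ++ [some e'.ad] := by
        have := w8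
        rw [hT'] at this
        exact this
      have g1' : (C.E π')[(C.E ν').length]? = some (some e'.ad) :=
        hget (by rw [← e1']; exact hpre1')
      have f1' : (C.E ν').length + 2 < (C.E π').length := by
        by_contra hcon
        have hb := ec3' (C.E ν').length (by unfold E at hn' ⊢; omega)
          (by unfold E at hcon ⊢; omega)
        unfold E at g1' hb
        rw [g1'] at hb
        simp at hb
      have f1 : (C.E ν).length + 2 < (C.E π).length := by
        by_contra hcon
        obtain ⟨j, hj1, hj2, hj3, hj4⟩ := C.b4b_timing hπ hπ' hR hn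
          ⟨(C.E ν').length, by rw [hplr, hplr']⟩ (by omega)
        have hjn : j ≤ (C.E ν').length := by
          by_contra hjn
          have := hj4 (C.E ν').length (by omega)
          omega
        have := (C.b4b_common hπ hπ' hR hn hj1 hj3).1 (by omega)
        omega
      obtain ⟨b, hb, -⟩ := ec2 (C.E ν).length (by unfold E at f1 ⊢; omega)
      have hb2 : (C.E π)[(C.E ν).length]? = some (some b) := hb
      obtain ⟨e1, he1, he1d, he1b⟩ := future_newT C.hD C.ok C.h1 (H := C.H) hnt hs hres hP hπ h1
        (i := (C.E ν).length) le_rfl hs2.symm hb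
      have hoo := hord π π' hπ hπ' h1 h1' (C.E ν).length (C.E ν').length b e'.ad le_rfl
        ⟨hplr, hb2⟩ le_rfl ⟨hplr', g1'⟩
      rw [hT, List.map_cons, List.pairwise_cons] at hoo
      obtain ⟨⟨ho1, -⟩, ho2⟩ := hoo
      have he1' : e1 ∈ e :: r := by
        rw [← hT]
        exact he1
      rcases List.mem_cons.1 he1' with h2 | h2
      · subst h2
        obtain ⟨h3, -⟩ := fire_of_head C.hD C.ok C.h1 (H := C.H) hnt hs hres hP hπ h1
          (i := (C.E ν).length) le_rfl hs2.symm hb hT he1b hlv
        have h3' : C.E (ν ++ P ++ [a]) = C.E ν ++ [some b] := h3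
        refine ⟨by rw [h3']; simp, ?_⟩
        rcases v7 with ⟨v8, -⟩ | ⟨v8, -, -⟩
        · exfalso
          have : C.E (ν ++ P ++ [a]) = C.E ν := v8
          rw [h3'] at this
          simp at this
        · have v9 : C.E (ν ++ P ++ [a]) =
              C.E ν ++ [(newT (C.S ν s).todo P a).head?.map Ent.ad] := v8
          rw [hT, h3'] at v9
          have hbe : b = e1.ad := by simpa using v9
          exact ho2 (hbe.trans had) (by rw [hbe]; simp)
      · exfalso
        have := (ho1 e1.ad (List.mem_map_of_mem h2)).2 (by rw [had]) he1b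
        omega
  · intro hf heq
    rcases v7 with ⟨v8, -, -⟩ | ⟨v8, -, v9⟩
    · exact absurd v8 hf
    rcases v9 with v9 | v9
    · have hT : newT (C.S ν s).todo P a = [] := v9
      have hT' : newT (C.S ν' s').todo P' a = [] := by
        rw [hT] at hTla
        simpa using hTla.symm
      rcases w7 with ⟨-, w8, -⟩ | ⟨w8, -, -⟩
      · exact absurd hT' w8
      · have : C.E (ν' ++ P' ++ [a]) =
            C.E ν' ++ [(newT (C.S ν' s').todo P' a).head?.map Ent.ad] := w8
        rw [this]
        simp
    · obtain ⟨e, r, hT0, he0, hed⟩ := v9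
      have hT : newT (C.S ν s).todo P a = e :: r := hT0
      obtain ⟨e', r', hT', hlae, hlar⟩ : ∃ e' r', newT (C.S ν' s').todo P' a = e' :: r' ∧
          la e = la e' ∧ r.map la = r'.map la := by
        rw [hT] at hTla
        cases hT' : newT (C.S ν' s').todo P' a with
        | nil => rw [hT'] at hTla; simp at hTla
        | cons e' r' =>
          rw [hT'] at hTla
          simp only [List.map_cons, List.cons.injEq] at hTla
          exact ⟨e', r', rfl, hTla.1, hTla.2⟩
      have hlv : e'.lv = 0 := (congrArg Prod.fst hlae).symm.trans he0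
      have had : e.ad = e'.ad := congrArg Prod.snd hlae
      have e1 : C.E (ν ++ P ++ [a]) = C.E ν ++ [some e.ad] := by
        have := v8
        rw [hT0] at this
        exact this
      have g1 : (C.E π)[(C.E ν).length]? = some (some e.ad) :=
        hget (by rw [← e1]; exact hpre1)
      have f1 : (C.E ν).length + 2 < (C.E π).length := by
        by_contra hcon
        have hb := ec3 (C.E ν).length (by unfold E at hn ⊢; omega)
          (by unfold E at hcon ⊢; omega)
        unfold E at g1 hb
        rw [g1] at hb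
        simp at hb
      have f1' : (C.E ν').length + 2 < (C.E π').length := by
        by_contra hcon
        have := (C.b4b_common hπ hπ' hR hn hn' heq).2 (by omega)
        omega
      obtain ⟨b, hb, -⟩ := ec2' (C.E ν').length (by unfold E at f1' ⊢; omega)
      have hb2 : (C.E π')[(C.E ν').length]? = some (some b) := hb
      obtain ⟨e2, he2, he2d, he2b⟩ := future_newT C.hD C.ok C.h1 (H := C.H) hnt' hs' hres' hP' hπ'
        h1' (i := (C.E ν').length) le_rfl hs2'.symm hb
      have hoo := hord π π' hπ hπ' h1 h1' (C.E ν).length (C.E ν').length e.ad b le_rfl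
        ⟨hplr, g1⟩ le_rfl ⟨hplr', hb2⟩
      have hadl : (newT (C.S ν s).todo P a).map Ent.ad = (newT (C.S ν' s').todo P' a).map Ent.ad :=
        b4b_ad hTla
      rw [hadl, hT', List.map_cons, List.pairwise_cons] at hoo
      obtain ⟨⟨ho1, -⟩, -⟩ := hoo
      have he2' : e2 ∈ e' :: r' := by
        rw [← hT']
        exact he2
      rcases List.mem_cons.1 he2' with h2 | h2
      · subst h2
        obtain ⟨h3, -⟩ := fire_of_head C.hD C.ok C.h1 (H := C.H) hnt' hs' hres' hP' hπ' h1'
          (i := (C.E ν').length) le_rfl hs2'.symm hb hT' he2b hlv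
        have h3' : C.E (ν' ++ P' ++ [a]) = C.E ν' ++ [some b] := h3
        rw [h3']
        simp
      · exfalso
        have := (ho1 e2.ad (List.mem_map_of_mem h2)).1 (by rw [had]) he2b
        omega

end Ctx

end MPb6P
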