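import Pool.Agent.Lib.MP_b6d339_lc.Pos.BDefs
import Pool.Agent.Lib.MP_b6d339_lc.Pos.B3
import Pool.Agent.Lib.MP_b6d339_lc.Pos.B4
import Pool.Agent.Lib.MP_b6d339_lc.Pos.B4b
import Pool.Agent.Lib.MP_b6d339_lc.Pos.F0

/-!
# Erdős 592, positive side: the step
-/

open Filter Ordinal

namespace MPb6P

theorem b5_newT_la {t t' : List Ent} (h : t.map la = t'.map la) (P P' : List ℕ) (a : ℕ) :
    (newT t P a).map la = (newT t' P' a).map la := by
  cases t with
  | nil =>
    cases t' with
    | nil => rfl
    | cons e' r' => simp at h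
  | cons e r =>
    cases t' with
    | nil => simp at h
    | cons e' r' =>
      simp only [List.map_cons, List.cons.injEq] at h
      obtain ⟨h1, h2⟩ := h
      have hlv : e.lv = e'.lv := congrArg Prod.fst h1
      have had : e.ad = e'.ad := congrArg Prod.snd h1
      unfold newT
      simp only [hlv]
      split_ifs
      · exact h2
      · rw [List.map_append, List.map_append, h2]
        congr 1
        unfold subs
        rw [List.map_map, List.map_map]
        apply List.map_congr_left
        intro i _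
        simp [la, had]

theorem b5_ad {t t' : List Ent} (h : t.map la = t'.map la) : t.map Ent.ad = t'.map Ent.ad := by
  have h1 : ∀ u : List Ent, u.map Ent.ad = (u.map la).map Prod.snd := by
    intro u
    rw [List.map_map]
    rfl
  rw [h1, h1, h]

theorem b5_plrS (R : Fin 3) {s t : Bool} (h : plrS R t = plrS R s) : t = s := by
  revert h
  revert R s t
  decide

theorem b5_inc {ν P : List ℕ} {N a : ℕ} (h : ν.Pairwise (· < ·)) (hN : ∀ x ∈ ν, x ≤ N)
    (hP : P.Pairwise (· < ·)) (hNP : ∀ x ∈ P, N < x) (ha : N < a) (hPa : ∀ x ∈ P, x < a) :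
    (ν ++ P ++ [a]).Pairwise (· < ·) := by
  rw [List.append_assoc]
  rw [List.pairwise_append]
  refine ⟨h, ?_, ?_⟩
  · rw [List.pairwise_append]
    refine ⟨hP, List.pairwise_singleton _ _, ?_⟩
    intro x hx y hy
    rw [List.mem_singleton] at hy
    rw [hy]
    exact hPa x hx
  · intro x hx y hy
    rw [List.mem_append, List.mem_singleton] at hy
    have hx' := hN x hx
    rcases hy with hy | hy
    · have := hNP y hy
      omega
    · omega

namespace Ctx
variable (C : Ctx)

theorem b5_univ {π : List ℕ} (h : C.cp π) : CPlay (Tm C.σ C.D) Set.univ π :=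
  ⟨h.inc, fun _ _ => trivial, h.term, h.first⟩

theorem b5_wlen (π : List ℕ) : (wrd C.D (C.E π)).length = (C.E π).length := by
  simp [wrd]

theorem b5_mono {π : List ℕ} (h : C.cp π) (R : Fin 3) {i j : ℕ} (hij : i ≤ j)
    (hj : j < (C.E π).length) : C.L π R i ≤ C.L π R j := by
  unfold L
  refine C.lab_mono _ (wrd_valid C.hD C.ok C.h1 (C.b5_univ h)) R i j hij ?_
  have := C.b5_wlen π
  unfold E at this hj
  omega

theorem b5_common {π π' : List ℕ} (h : C.cp π) (h' : C.cp π') {R R' : Fin 3} (hR : R ≠ R')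
    {i j : ℕ} (hi : i < (C.E π).length) (hj : j < (C.E π').length)
    (he : C.L π R i = C.L π' R' j) :
    plr R i = plr R' j ∧ (∀ k < (C.E π').length, C.L π' R' k = C.L π' R' j → k = j) := by
  have h1 := (C.compat π π' h h').common R R' hR i
    (by have := C.b5_wlen π; unfold E at this hi; omega) j
    (by have := C.b5_wlen π'; unfold E at this hj; omega) he
  refine ⟨h1.1, fun k hk hk' => h1.2.2.1 k ?_ hk'⟩
  have := C.b5_wlen π'
  unfold E at this hk
  omega

theorem b5_Epre {ν π : List ℕ} (h : ν <+: π) : C.E ν <+: C.E π := evs_pre h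

/-- B5. Choose the non terminal run `R` with the minimal next label,
`due`, `ordStep`, a number `a ∈ H` above everything; `R` and `R'` are extended, the third run is
unchanged. `view_step` for both, `fire_iff`; verify the fields of `Inv`: `ord` for the runs `R`, `R'`
from `ordStep` (`OrdT.mono`, `OrdT.symm`; the addresses of `newT` are those of the new to-do list),
for the other players from the old invariant; `exe`: a newly executed event has the minimal label
`g`; in another run a future label `g` would be common (`compat … .common`), then it is fired too. -/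
theorem step {ν : Fin 3 → List ℕ} (inv : C.Inv ν) (hnt : ∃ R, ¬ Tm C.σ C.D (ν R)) :
    ∃ ν' : Fin 3 → List ℕ, C.Inv ν' ∧ (∀ R, ν R <+: ν' R) ∧ (ν 0 ≠ ν' 0 ∨ ν 1 ≠ ν' 1) := by
  classical
  -- next labels
  have hpl : ∀ R, ∃ π, C.cp π ∧ ν R <+: π := fun R => exists_cplay C.inf C.win (inv.hn R)
  choose pl hpl1 hpl2 using hpl
  obtain ⟨nl, hnl⟩ : ∃ nl : Fin 3 → ℕ, ∀ R π, C.cp π → ν R <+: π →
      C.L π R (C.E (ν R)).length = nl R := by
    refine ⟨fun R => C.L (pl R) R (C.E (ν R)).length, ?_⟩
    intro R π h1 h2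
    exact C.sureL (ν R) π (pl R) h1 (hpl1 R) h2 (hpl2 R) R _ le_rfl
  obtain ⟨R, hRnt, hRmin⟩ : ∃ R, ¬ Tm C.σ C.D (ν R) ∧
      ∀ R', ¬ Tm C.σ C.D (ν R') → nl R ≤ nl R' := by
    obtain ⟨R0, hR0⟩ := hnt
    obtain ⟨R, hR, hmin⟩ := Finset.exists_min_image
      (Finset.univ.filter fun R => ¬ Tm C.σ C.D (ν R)) nl ⟨R0, by simp [hR0]⟩
    exact ⟨R, by simpa using hR, fun R' hR' => hmin R' (by simp [hR'])⟩
  obtain ⟨s, R', s', hRR', hp, hp1, hp2, hnt', hs, hs', hother⟩ := C.due inv hRnt (by
    intro R1 hR1 π π' h1 h2 h3 h4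
    rw [hnl R π h1 h3, hnl R1 π' h2 h4]
    exact hRmin R1 hR1)
  -- a bound
  obtain ⟨N, hN, hN'⟩ : ∃ N, (∀ x ∈ ν R, x ≤ N) ∧ (∀ x ∈ ν R', x ≤ N) := by
    refine ⟨(ν R).sum + (ν R').sum, ?_, ?_⟩
    · intro x hx
      have := List.single_le_sum (fun _ _ => Nat.zero_le _) x hx
      omega
    · intro x hx
      have := List.single_le_sum (fun _ _ => Nat.zero_le _) x hx
      omega
  obtain ⟨P, P', hPl, hPl', hPi, hPi', hPH, hPH', hord⟩ := C.ordStep hRR'.symm (inv.hn R)
    (inv.hn R') hRnt hnt' hs hs' (inv.res R s) (inv.res R' s') rfl hp.symm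
    (inv.todo R R' s s' hp) (inv.ord R R' s s' hRR'.symm hp) N hN hN'
  obtain ⟨a, haH, ha⟩ : ∃ a ∈ C.H, N + P.sum + P'.sum < a := C.inf.exists_gt _
  have haN : N < a := by omega
  have haP : ∀ x ∈ P, x < a := by
    intro x hx
    have := List.single_le_sum (fun _ _ => Nat.zero_le _) x hx
    omega
  have haP' : ∀ x ∈ P', x < a := by
    intro x hx
    have := List.single_le_sum (fun _ _ => Nat.zero_le _) x hx
    omega
  have hord1 := hord a haH haN haP haP'
  clear hord
  have hincR := b5_inc (inv.hn R).inc hN hPi (fun x hx => (hPH x hx).2) haN haP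
  have hincR' := b5_inc (inv.hn R').inc hN' hPi' (fun x hx => (hPH' x hx).2) haN haP'
  obtain ⟨v1, v2, v3, v4, v5, v6, v7⟩ := view_step C.hD C.ok C.h1 (H := C.H) (inv.hn R) hRnt hs
    (inv.res R s) hPl hincR (fun x hx => (hPH x hx).1) haH
  obtain ⟨w1, w2, w3, w4, w5, w6, w7⟩ := view_step C.hD C.ok C.h1 (H := C.H) (inv.hn R') hnt' hs'
    (inv.res R' s') hPl' hincR' (fun x hx => (hPH' x hx).1) haH
  -- events
  have hfire := fun (π π' : List ℕ) (hπ : C.cp π) (hπ' : C.cp π')
      (h1 : (ν R ++ P ++ [a]) <+: π) (h1' : (ν R' ++ P' ++ [a]) <+: π') =>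
    C.fire_iff hRR'.symm (inv.hn R) (inv.hn R') hRnt hnt' hs hs' (inv.res R s) (inv.res R' s')
      (p := plrS R s) rfl hp.symm (inv.todo R R' s s' hp) hPl hPl' v1 w1 hord1 hπ hπ' h1 h1'
      (by
        rw [hnl R π hπ (((List.prefix_append _ _).trans (List.prefix_append _ _)).trans h1),
          hnl R' π' hπ' (((List.prefix_append _ _).trans (List.prefix_append _ _)).trans h1')]
        exact hRmin R' hnt')
  have hEv : (C.E (ν R ++ P ++ [a])).length ≤ (C.E (ν R)).length + 1 := by
    unfold E
    rcases v7 with h | h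
    · rw [h.1]; omega
    · rw [h.1]; simp
  have hEw : (C.E (ν R' ++ P' ++ [a])).length ≤ (C.E (ν R')).length + 1 := by
    unfold E
    rcases w7 with h | h
    · rw [h.1]; omega
    · rw [h.1]; simp
  clear v7 w7
  -- the new runs
  obtain ⟨ν', e1, e2, e3⟩ : ∃ ν' : Fin 3 → List ℕ, ν' R = ν R ++ P ++ [a] ∧
      ν' R' = ν R' ++ P' ++ [a] ∧ ∀ R1, R1 ≠ R → R1 ≠ R' → ν' R1 = ν R1 := by
    refine ⟨fun R1 => if R1 = R then ν R ++ P ++ [a] else
      if R1 = R' then ν R' ++ P' ++ [a] else ν R1, by simp, by simp [hRR'], ?_⟩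
    intro R1 h1 h2
    simp [h1, h2]
  have hpre : ∀ R1, ν R1 <+: ν' R1 := by
    intro R1
    by_cases h1 : R1 = R
    · rw [h1, e1]
      exact (List.prefix_append _ _).trans (List.prefix_append _ _)
    · by_cases h2 : R1 = R'
      · rw [h2, e2]
        exact (List.prefix_append _ _).trans (List.prefix_append _ _)
      · rw [e3 R1 h1 h2]
  have hhn : ∀ R1, C.hn (ν' R1) := by
    intro R1
    by_cases h1 : R1 = R
    · rw [h1, e1]
      exact v1
    · by_cases h2 : R1 = R'
      · rw [h2, e2]
        exact w1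
      · rw [e3 R1 h1 h2]
        exact inv.hn R1
  have hside : ∀ R1 t, plrS R1 t = plrS R s → (R1 = R ∧ t = s) ∨ (R1 = R' ∧ t = s') := by
    intro R1 t h
    by_cases h1 : R1 = R
    · subst h1
      exact Or.inl ⟨rfl, b5_plrS R1 h⟩
    · by_cases h2 : R1 = R'
      · subst h2
        exact Or.inr ⟨rfl, b5_plrS R1 (h.trans hp)⟩
      · exact absurd h (hother R1 h1 h2 t)
  have keyA : ∀ R1 t, plrS R1 t = plrS R s →
      (C.S (ν' R1) t).seq = (C.S (ν R) s).seq ++ [a] ∧
      (C.S (ν' R1) t).todo.map la = (newT (C.S (ν R) s).todo P a).map la := by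
    intro R1 t h
    rcases hside R1 t h with ⟨h1, h2⟩ | ⟨h1, h2⟩
    · subst h1 h2
      rw [e1]
      exact ⟨v2, v5⟩
    · subst h1 h2
      rw [e2]
      refine ⟨?_, ?_⟩
      · rw [inv.seqs R R1 s t hp]
        exact w2
      · exact Eq.trans w5 (b5_newT_la (inv.todo R R1 s t hp).symm P' P a)
  have hnot : ∀ t u : Bool, t ≠ u → t = !u := by decide
  have keyB : ∀ R1 t, plrS R1 t ≠ plrS R s →
      (C.S (ν' R1) t).seq = (C.S (ν R1) t).seq ∧
      (C.S (ν' R1) t).todo.map la = (C.S (ν R1) t).todo.map la := by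
    intro R1 t h
    by_cases h1 : R1 = R
    · subst h1
      have ht : t = !s := hnot t s (fun h' => h (by rw [h']))
      subst ht
      rw [e1]
      exact ⟨v3, v6⟩
    · by_cases h2 : R1 = R'
      · subst h2
        have ht : t = !s' := hnot t s' (fun h' => h (by rw [h', hp]))
        subst ht
        rw [e2]
        exact ⟨w3, w6⟩
      · rw [e3 R1 h1 h2]
        exact ⟨rfl, rfl⟩
  have hElen : ∀ R1, (C.E (ν R1)).length ≤ (C.E (ν' R1)).length :=
    fun R1 => (C.b5_Epre (hpre R1)).length_le
  -- the label of a newly executed event is the minimal one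
  have hnew : ∀ R1 π i, C.cp π → ν' R1 <+: π → (C.E (ν R1)).length ≤ i →
      i < (C.E (ν' R1)).length → (R1 = R ∨ R1 = R') ∧ i = (C.E (ν R1)).length ∧
        C.L π R1 i = nl R := by
    intro R1 π i hπ hpi h1 h2
    by_cases hR1 : R1 = R
    · subst hR1
      rw [e1] at h2
      have hi : i = (C.E (ν R1)).length := by omega
      refine ⟨Or.inl rfl, hi, ?_⟩
      rw [hi]
      exact hnl R1 π hπ ((hpre R1).trans hpi)
    · by_cases hR2 : R1 = R'
      · subst hR2
        have h2' := h2
        rw [e2] at h2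
        have hi : i = (C.E (ν R1)).length := by omega
        refine ⟨Or.inr rfl, hi, ?_⟩
        obtain ⟨π0, hπ0, hπ0'⟩ := exists_cplay C.inf C.win (hhn R)
        have h3 := (hfire π0 π hπ0 hπ (by rw [← e1]; exact hπ0') (by rw [← e2]; exact hpi)).1
          (by
            intro h4
            rw [h4] at h2
            omega)
        rw [hi, ← h3.2]
        exact hnl R π0 hπ0 ((hpre R).trans hπ0')
      · rw [e3 R1 hR1 hR2] at h2
        omega
  refine ⟨ν', ?_, hpre, ?_⟩
  · refine ⟨hhn, ?_, ?_, ?_, ?_, ?_⟩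
    · -- res
      intro R1 t
      by_cases h1 : R1 = R
      · rw [h1, e1]
        exact v4 t
      · by_cases h2 : R1 = R'
        · rw [h2, e2]
          exact w4 t
        · rw [e3 R1 h1 h2]
          exact inv.res R1 t
    · -- seqs
      intro R1 R2 t1 t2 h
      by_cases h1 : plrS R1 t1 = plrS R s
      · rw [(keyA R1 t1 h1).1, (keyA R2 t2 (h.symm.trans h1)).1]
      · rw [(keyB R1 t1 h1).1, (keyB R2 t2 (fun h2 => h1 (h.trans h2))).1]
        exact inv.seqs R1 R2 t1 t2 h
    · -- todo
      intro R1 R2 t1 t2 h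
      by_cases h1 : plrS R1 t1 = plrS R s
      · rw [(keyA R1 t1 h1).2, (keyA R2 t2 (h.symm.trans h1)).2]
      · rw [(keyB R1 t1 h1).2, (keyB R2 t2 (fun h2 => h1 (h.trans h2))).2]
        exact inv.todo R1 R2 t1 t2 h
    · -- ord
      intro R1 R2 t1 t2 hne h
      by_cases h1 : plrS R1 t1 = plrS R s
      · have had := b5_ad (keyA R1 t1 h1).2
        rw [had, h1]
        rcases hside R1 t1 h1 with ⟨h3, h4⟩ | ⟨h3, h4⟩
        · rcases hside R2 t2 (h.symm.trans h1) with ⟨h5, h6⟩ | ⟨h5, h6⟩
          · exact absurd (h3.trans h5.symm) hne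
          · rw [h3, h5]
            exact OrdT.mono hord1 (by rw [e1]) (by rw [e2]) (hElen R) (hElen R')
        · rcases hside R2 t2 (h.symm.trans h1) with ⟨h5, h6⟩ | ⟨h5, h6⟩
          · rw [h3, h5]
            exact OrdT.mono (OrdT.symm hord1) (by rw [e2]) (by rw [e1]) (hElen R') (hElen R)
          · exact absurd (h3.trans h5.symm) hne
      · have had := b5_ad (keyB R1 t1 h1).2
        rw [had]
        exact OrdT.mono (inv.ord R1 R2 t1 t2 hne h) (hpre R1) (hpre R2) (hElen R1) (hElen R2)
    · -- exe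
      intro R1 R2 hne π π' hπ hπ' hpi hpi' i j hi hj hj'
      by_cases h1 : i < (C.E (ν R1)).length
      · exact inv.exe R1 R2 hne π π' hπ hπ' ((hpre R1).trans hpi) ((hpre R2).trans hpi') i j h1
          ((hElen R2).trans hj) hj'
      · obtain ⟨hR1, hi', hL⟩ := hnew R1 π i hπ hpi (by omega) hi
        have hj0 : (C.E (ν R2)).length ≤ j := (hElen R2).trans hj
        have hnt2 : ¬ Tm C.σ C.D (ν R2) := by
          intro hT
          have h2 := (CPlay.node hπ' ((hpre R2).trans hpi')).2 hT
          rw [h2] at hj0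
          omega
        have hge : nl R ≤ C.L π' R2 (C.E (ν R2)).length := by
          rw [hnl R2 π' hπ' ((hpre R2).trans hpi')]
          exact hRmin R2 hnt2
        have hmo : C.L π' R2 (C.E (ν R2)).length ≤ C.L π' R2 j := C.b5_mono hπ' R2 hj0 hj'
        rw [hL]
        rcases (hge.trans hmo).lt_or_eq with h2 | h2
        · exact h2
        · exfalso
          have hiE : i < (C.E π).length :=
            lt_of_lt_of_le hi (C.b5_Epre hpi).length_le
          have hc := C.b5_common hπ hπ' hne hiE hj' (hL.trans h2)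
          have hk := hc.2 (C.E (ν R2)).length (by omega) (by omega)
          have hplr : plr R1 i = plrS R s := by
            rcases hR1 with h3 | h3
            · rw [h3] at hi' ⊢
              rw [hi']
              exact hp1
            · rw [h3] at hi' ⊢
              rw [hi']
              exact hp2
          have hplr2 : plrS R2 (decide (j % 2 = 0)) = plrS R s := by
            rw [plrS_eq, ← hc.1]
            exact hplr
          have hlen : (C.E (ν' R2)).length = (C.E (ν R2)).length := by
            have := hElen R2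
            omega
          have hEeq : C.E (ν' R2) = C.E (ν R2) :=
            ((C.b5_Epre (hpre R2)).eq_of_length hlen.symm).symm
          have hEne : C.E (ν' R1) ≠ C.E (ν R1) := by
            intro h4
            rw [h4] at hi
            omega
          rcases hside R2 _ hplr2 with ⟨h5, -⟩ | ⟨h5, -⟩
          · -- `R2 = R`, `R1 = R'`
            have h6 : R1 = R' := by
              rcases hR1 with h7 | h7
              · exact absurd (h7.trans h5.symm) hne
              · exact h7
            subst h5 h6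
            have h8 := (hfire π' π hπ' hπ (by rw [← e1]; exact hpi') (by rw [← e2]; exact hpi)).1
              (by rw [← e2]; exact hEne)
            exact h8.1 (by rw [← e1]; exact hEeq)
          · -- `R2 = R'`, `R1 = R`
            have h6 : R1 = R := by
              rcases hR1 with h7 | h7
              · exact h7
              · exact absurd (h7.trans h5.symm) hne
            subst h5 h6
            have h8 := (hfire π π' hπ hπ' (by rw [← e1]; exact hpi) (by rw [← e2]; exact hpi')).2
              (by rw [← e1]; exact hEne) (by rw [← hi', hk, hL, h2])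
            exact h8 (by rw [← e2]; exact hEeq)
  · -- progress
    have hne1 : ∀ R1, (R1 = R ∨ R1 = R') → ν R1 ≠ ν' R1 := by
      intro R1 h h'
      have h2 : (ν R1).length = (ν' R1).length := by rw [← h']
      rcases h with h | h
      · rw [h, e1] at h2
        simp at h2
      · rw [h, e2] at h2
        simp at h2
    have hfin : ∀ A B : Fin 3, B ≠ A → (0 = A ∨ 0 = B) ∨ (1 = A ∨ 1 = B) := by decide
    rcases hfin R R' hRR' with h | h
    · exact Or.inl (hne1 0 h)
    · exact Or.inr (hne1 1 h)

end Ctx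

end MPb6P
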