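import Pool.Agent.Lib.MP_b6d339_lc.Pos.PDefs

/-!
# Erdős 592, positive side: H-nodes and complete plays
-/

open Filter Ordinal

namespace MPb6P

theorem PH2_ne_append (ρ : List ℕ) (a : ℕ) : ρ ≠ ρ ++ [a] := by
  intro h
  have := congrArg List.length h
  rw [List.length_append, List.length_singleton] at this
  omega

/-- an initial segment of a node is a node, and is not terminal if it is proper -/
theorem PH2_prefix {tm : List ℕ → Prop} {H : Set ℕ} {ν μ : List ℕ} (hν : HNode tm H ν)
    (h : μ <+: ν) : HNode tm H μ := by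
  refine ⟨hν.inc.sublist h.sublist, fun a ha => hν.mem a (h.subset ha), fun κ hκ hne => ?_⟩
  refine hν.first κ (hκ.trans h) ?_
  rintro rfl
  exact hne (hκ.eq_of_length_le h.length_le)

/-- one more draw -/
theorem PH2_snoc {tm : List ℕ → Prop} {H : Set ℕ} {ν : List ℕ} {a : ℕ} (hν : HNode tm H ν)
    (ht : ¬ tm ν) (ha : a ∈ H) (hb : ∀ b ∈ ν, b < a) : HNode tm H (ν ++ [a]) := by
  refine ⟨?_, ?_, ?_⟩
  · rw [List.pairwise_append]
    refine ⟨hν.inc, List.pairwise_singleton _ _, fun b hb' c hc => ?_⟩
    rw [List.mem_singleton] at hc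
    subst hc
    exact hb b hb'
  · intro b hb'
    rcases List.mem_append.1 hb' with h | h
    · exact hν.mem b h
    · rw [List.mem_singleton] at h
      subst h
      exact ha
  · intro μ hμ hne
    rcases List.prefix_concat_iff.1 hμ with h | h
    · exact absurd h hne
    · by_cases hμν : μ = ν
      · rw [hμν]; exact ht
      · exact hν.first μ h hμν

theorem HWin.of_node {tm good : List ℕ → Prop} {H : Set ℕ} (h : HWin tm good H []) {ν : List ℕ}
    (hν : HNode tm H ν) : HWin tm good H ν := by
  induction ν using List.reverseRecOn with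
  | nil => exact h
  | append_singleton ρ a ih =>
    have hρ : HNode tm H ρ := PH2_prefix hν (List.prefix_append ρ [a])
    have ht : ¬ tm ρ := hν.first ρ (List.prefix_append ρ [a]) (PH2_ne_append ρ a)
    have hinc := List.pairwise_append.1 hν.inc
    cases ih hρ with
    | leaf h1 _ => exact absurd h1 ht
    | node _ h2 =>
      exact h2 a (hν.mem a (List.mem_append.2 (Or.inr (List.mem_singleton.2 rfl))))
        (fun b hb => hinc.2.2 b hb a (List.mem_singleton.2 rfl))

/-- by induction on `HWin` -/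
theorem exists_cplay {tm good : List ℕ → Prop} {H : Set ℕ} (hH : H.Infinite)
    (h : HWin tm good H []) {ν : List ℕ} (hν : HNode tm H ν) : ∃ π, CPlay tm H π ∧ ν <+: π := by
  have hw := h.of_node hν
  induction hw with
  | leaf h1 _ => exact ⟨_, ⟨hν.inc, hν.mem, h1, hν.first⟩, List.prefix_refl _⟩
  | @node ρ ht h2 ih =>
    obtain ⟨a, ha, hs⟩ := hH.exists_gt ρ.sum
    have hb : ∀ b ∈ ρ, b < a := fun b hb => lt_of_le_of_lt (List.le_sum_of_mem hb) hs
    obtain ⟨π, hπ, hp⟩ := ih a ha hb (PH2_snoc hν ht ha hb)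
    exact ⟨π, hπ, (List.prefix_append ρ [a]).trans hp⟩

theorem CPlay.good {tm good : List ℕ → Prop} {H : Set ℕ} (h : HWin tm good H []) {π : List ℕ}
    (hπ : CPlay tm H π) : good π := by
  have hn : HNode tm H π := ⟨hπ.inc, hπ.mem, hπ.first⟩
  cases h.of_node hn with
  | leaf _ h2 => exact h2
  | node h1 _ => exact absurd hπ.term h1

/-- a prefix of a complete play is a node; it is terminal only if it is the whole play -/
theorem CPlay.node {tm : List ℕ → Prop} {H : Set ℕ} {π ν : List ℕ} (hπ : CPlay tm H π)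
    (hν : ν <+: π) : HNode tm H ν ∧ (tm ν → ν = π) := by
  refine ⟨PH2_prefix ⟨hπ.inc, hπ.mem, hπ.first⟩ hν, fun ht => ?_⟩
  by_contra hne
  exact hπ.first ν hν hne ht

theorem PH2_acc {tm good : List ℕ → Prop} {H : Set ℕ} (h : HWin tm good H []) {ν : List ℕ}
    (hν : HNode tm H ν) :
    Acc (fun ν' ν : List ℕ => HNode tm H ν' ∧ ν <+: ν' ∧ ν ≠ ν') ν := by
  have hw := h.of_node hν
  induction hw with
  | leaf h1 _ =>
    refine Acc.intro _ fun ν' hν' => ?_
    exact absurd h1 (hν'.1.first _ hν'.2.1 hν'.2.2)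
  | @node ρ ht h2 ih =>
    refine Acc.intro _ fun ν' hν' => ?_
    obtain ⟨hn, ⟨t, rfl⟩, hne⟩ := hν'
    cases t with
    | nil => exact absurd (List.append_nil ρ).symm hne
    | cons a t =>
      have hpre : ρ ++ [a] <+: ρ ++ a :: t := ⟨t, by simp⟩
      have hna : HNode tm H (ρ ++ [a]) := PH2_prefix hn hpre
      have hinc := List.pairwise_append.1 hna.inc
      have hacc := ih a (hna.mem a (List.mem_append.2 (Or.inr (List.mem_singleton.2 rfl))))
        (fun b hb => hinc.2.2 b hb a (List.mem_singleton.2 rfl)) hna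
      by_cases heq : ρ ++ [a] = ρ ++ a :: t
      · rw [← heq]; exact hacc
      · exact hacc.inv ⟨hn, hpre, heq⟩

/-- Well-founded induction for pairs of nodes (used for the three runs: every step extends the
first node, or leaves it unchanged and extends the second). -/
theorem pair_induction {tm good : List ℕ → Prop} {H : Set ℕ} (h : HWin tm good H [])
    (C : List ℕ → List ℕ → Prop)
    (step : ∀ ν μ, HNode tm H ν → HNode tm H μ →
      (∀ ν' μ', HNode tm H ν' → HNode tm H μ' → ν <+: ν' → μ <+: μ' → (ν ≠ ν' ∨ μ ≠ μ') → C ν' μ') →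
      C ν μ) :
    ∀ ν μ, HNode tm H ν → HNode tm H μ → C ν μ := by
  intro ν μ hν
  have h1 := PH2_acc h hν
  induction h1 generalizing μ with
  | intro ν _ ihν =>
    intro hμ
    have h2 := PH2_acc h hμ
    induction h2 with
    | intro μ _ ihμ =>
      refine step ν μ hν hμ fun ν' μ' hν' hμ' hp hq hne => ?_
      by_cases heq : ν = ν'
      · subst heq
        rcases hne with hne | hne
        · exact absurd rfl hne
        · exact ihμ μ' ⟨hμ', hq, hne⟩ hμ'
      · exact ihν ν' ⟨hν', hp, heq⟩ μ' hν' hμ'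

end MPb6P
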