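import Pool.Agent.Lib.MP_b6d339_lc.Pos.BDefs
import Pool.Agent.Lib.MP_b6d339_lc.Pos.B5
import Pool.Agent.Lib.MP_b6d339_lc.Pos.H2

/-!
# Erdős 592, positive side: three complete plays
-/

open Filter Ordinal

namespace MPb6P

namespace Ctx
variable (C : Ctx)

theorem b6a_pos_nil : pos C.σ C.D [] =
    (⟨[], [⟨C.D, [], true⟩], (C.σ (PS.root C.D, PS.root C.D)).2, [], true⟩, PS.root C.D) := by
  have h1 := C.h1
  have hD : C.D ≠ 0 := by
    have := C.hD
    omega
  have h2 : autoP C.σ (PS.root C.D, PS.root C.D) =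
      ((PS.root C.D).beg (C.σ (PS.root C.D, PS.root C.D)).2, PS.root C.D) := by
    unfold autoP
    rw [if_pos (by simp [PS.root]), if_pos h1]
  show autoP C.σ (PS.root C.D, PS.root C.D) = _
  rw [h2]
  simp [PS.beg, PS.root, hD]

theorem b6a_cut_len {π : List ℕ} (hπ : C.cp π) {i : ℕ} {a : List ℕ}
    (h : (C.E π)[i]? = some (some a)) : a.length = C.D := by
  obtain ⟨-, h2, h3⟩ := evs_complete C.hD C.ok C.h1
    (π := π) ⟨hπ.inc, fun _ _ => trivial, hπ.term, hπ.first⟩
  have h' : (evs C.σ C.D π)[i]? = some (some a) := h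
  have hi : i < (evs C.σ C.D π).length := by
    by_contra hcon
    rw [List.getElem?_eq_none (by omega)] at h'
    simp at h'
  by_cases hc : i + 2 < (evs C.σ C.D π).length
  · obtain ⟨b, hb, hbl⟩ := h2 i hc
    rw [h'] at hb
    simp only [Option.some.injEq] at hb
    rw [hb]
    exact hbl
  · have := h3 i hi (by omega)
    rw [h'] at this
    simp at this

/-- B6a. The invariant holds at the beginning. -/
theorem inv_nil : C.Inv (fun _ => []) := by
  have hseq : ∀ s, (C.S [] s).seq = [] := by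
    intro s
    unfold S
    rw [C.b6a_pos_nil]
    cases s <;> rfl
  have hres : ∀ s, (C.S [] s).res = [] := by
    intro s
    unfold S
    rw [C.b6a_pos_nil]
    cases s <;> rfl
  have htodo : ∀ s, (C.S [] s).todo = [⟨C.D, [], true⟩] := by
    intro s
    unfold S
    rw [C.b6a_pos_nil]
    cases s <;> rfl
  refine ⟨?_, ?_, ?_, ?_, ?_, ?_⟩
  · intro R
    refine ⟨List.Pairwise.nil, by simp, ?_⟩
    intro μ h1 h2
    exact absurd (List.prefix_nil.1 h1) h2
  · intro R s
    exact hres s
  · intro R R' s s' _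
    show (C.S [] s).seq = (C.S [] s').seq
    rw [hseq, hseq]
  · intro R R' s s' _
    show (C.S [] s).todo.map la = (C.S [] s').todo.map la
    rw [htodo, htodo]
  · intro R R' s s' _ _
    show C.OrdT R R' (plrS R s) [] [] (C.E []).length (C.E []).length
      ((C.S [] s).todo.map Ent.ad)
    rw [htodo]
    intro π π' hπ hπ' _ _ i j a b _ hi _ _
    refine ⟨List.pairwise_singleton _ _, ?_⟩
    intro _ ha
    have h1 := C.b6a_cut_len hπ hi.2
    simp only [List.map_cons, List.map_nil, List.mem_singleton] at ha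
    rw [ha] at h1
    simp only [List.length_nil] at h1
    have := C.hD
    omega
  · intro R R' _ π π' _ _ _ _ i j hi _ _
    have : (C.E []).length = 0 := rfl
    have hi' : i < (C.E []).length := hi
    omega

/-- B6b. Three complete plays with equal physical sequences (`pair_induction`, `step`). -/
theorem exists_three : ∃ ν : Fin 3 → List ℕ, (∀ R, C.cp (ν R)) ∧
    ∀ R R' s s', plrS R s = plrS R' s' → (C.S (ν R) s).seq = (C.S (ν R') s').seq := by
  have key := pair_induction C.win (fun n0 n1 => ∀ ν : Fin 3 → List ℕ, ν 0 = n0 → ν 1 = n1 →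
    C.Inv ν → ∃ ν : Fin 3 → List ℕ, (∀ R, C.cp (ν R)) ∧
    ∀ R R' s s', plrS R s = plrS R' s' → (C.S (ν R) s).seq = (C.S (ν R') s').seq) (by
      intro n0 n1 _ _ ih ν h0 h1 inv
      by_cases hall : ∀ R, Tm C.σ C.D (ν R)
      · exact ⟨ν, fun R => ⟨(inv.hn R).inc, (inv.hn R).mem, hall R, (inv.hn R).first⟩, inv.seqs⟩
      · rw [not_forall] at hall
        obtain ⟨ν', inv', hpre, hne⟩ := C.step inv hall
        refine ih (ν' 0) (ν' 1) (inv'.hn 0) (inv'.hn 1) ?_ ?_ ?_ ν' rfl rfl inv'
        · rw [← h0]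
          exact hpre 0
        · rw [← h1]
          exact hpre 1
        · rw [← h0, ← h1]
          exact hne)
  exact key [] [] (C.inv_nil.hn 0) (C.inv_nil.hn 1) (fun _ => []) rfl rfl C.inv_nil

end Ctx

end MPb6P
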