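import Pool.Agent.Lib.MP_b6d339_lc.Pos.PDefs

/-!
# Erdős 592, positive side: the 0-1 law and the homogeneous set
-/

open Filter Ordinal

namespace MPb6P

/-- following the sets `S` a good terminal node is reached -/
inductive H1S (tm good : List ℕ → Prop) (S : List ℕ → Set ℕ) : List ℕ → Prop
  | leaf {ν : List ℕ} : tm ν → good ν → H1S tm good S ν
  | node {ν : List ℕ} : ¬ tm ν → (∀ a ∈ S ν, H1S tm good S (ν ++ [a])) → H1S tm good S ν

theorem h1_congr {tm good : List ℕ → Prop} {S T : List ℕ → Set ℕ} {μ : List ℕ}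
    (h : H1S tm good S μ) : (∀ ξ, μ <+: ξ → T ξ = S ξ) → H1S tm good T μ := by
  induction h with
  | leaf h1 h2 => exact fun _ => .leaf h1 h2
  | node h1 h2 ih =>
    intro h3
    refine .node h1 fun a ha => ?_
    rw [h3 _ List.prefix_rfl] at ha
    exact ih a ha fun ξ hξ => h3 ξ ((List.prefix_append _ _).trans hξ)

theorem h1_winT {tm good : List ℕ → Prop} {S : List ℕ → Set ℕ} {μ : List ℕ}
    (hS : ∀ ν, S ν ∈ UU) (h : H1S tm good S μ) : WinT tm good μ := by
  induction h with
  | leaf h1 h2 => exact .leaf h1 h2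
  | node h1 h2 ih => exact .node _ h1 (hS _) ih

theorem h1_exists_S {tm good : List ℕ → Prop} {ν : List ℕ} (h : WinT tm good ν) :
    ∃ S : List ℕ → Set ℕ, (∀ μ, S μ ∈ UU) ∧ H1S tm good S ν := by
  classical
  induction h with
  | leaf h1 h2 => exact ⟨fun _ => Set.univ, fun _ => Filter.univ_mem, .leaf h1 h2⟩
  | @node ν s h1 hs h2 ih =>
    choose! S' hS1 hS2 using ih
    refine ⟨fun μ => if μ = ν then s else
      if μ.getD ν.length 0 ∈ s then S' (μ.getD ν.length 0) μ else Set.univ, ?_, ?_⟩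
    · intro μ
      dsimp only
      split_ifs with h3 h4
      · exact hs
      · exact hS1 _ h4 μ
      · exact Filter.univ_mem
    · refine .node h1 fun a ha => ?_
      rw [if_pos rfl] at ha
      refine h1_congr (hS2 a ha) ?_
      intro ξ hξ
      obtain ⟨t, rfl⟩ := hξ
      have h3 : ¬ (ν ++ [a] ++ t = ν) := by
        intro h4
        have h5 := congrArg List.length h4
        simp at h5
      have h4 : (ν ++ [a] ++ t).getD ν.length 0 = a := by
        simp [List.getD_eq_getElem?_getD]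
      rw [if_neg h3, h4, if_pos ha]

/-- a function with finite range has a sure value -/
theorem h1_sure {tm good : List ℕ → Prop} {ν : List ℕ} (h : WinT tm good ν) {F : Type*}
    (φ : List ℕ → F) (hfin : (Set.range φ).Finite) :
    ∃ c ∈ Set.range φ, WinT tm (fun π => φ π = c) ν := by
  induction h with
  | @leaf ν h1 h2 => exact ⟨φ ν, ⟨ν, rfl⟩, .leaf h1 rfl⟩
  | @node ν s h1 hs h2 ih =>
    have h3 : s ⊆ ⋃ c ∈ Set.range φ, {a | a ∈ s ∧ WinT tm (fun π => φ π = c) (ν ++ [a])} := by
      intro a ha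
      obtain ⟨c, hc, h4⟩ := ih a ha
      exact Set.mem_biUnion hc ⟨ha, h4⟩
    have h4 := Filter.mem_of_superset hs h3
    obtain ⟨c, hc, h5⟩ := (Ultrafilter.finite_biUnion_mem_iff hfin).1 h4
    exact ⟨c, hc, .node _ h1 h5 fun a ha => ha.2⟩

/-- states of the construction of `H`: the increasing lists so far, and a bound -/
def h1Next (f : List (List ℕ) → ℕ → ℕ) (X : List (List ℕ) × ℕ) : List (List ℕ) × ℕ :=
  (X.1 ++ X.1.map (fun ν => ν ++ [f X.1 X.2]), f X.1 X.2)

/-- diagonal intersection for the ultrafilter `UU` -/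
theorem h1_diag (A : List ℕ → Set ℕ) (hA : ∀ ν, A ν ∈ UU) :
    ∃ H : Set ℕ, H.Infinite ∧ ∀ ν : List ℕ, ν.Pairwise (· < ·) → (∀ b ∈ ν, b ∈ H) →
      ∀ a ∈ H, (∀ b ∈ ν, b < a) → a ∈ A ν := by
  have hex : ∀ (L : List (List ℕ)) (m : ℕ), ∃ a, m < a ∧ ∀ ν ∈ L, a ∈ A ν := by
    intro L m
    have h1 : ∀ L : List (List ℕ), {a | ∀ ν ∈ L, a ∈ A ν} ∈ UU := by
      intro L
      induction L with
      | nil =>
        have : {a : ℕ | ∀ ν ∈ ([] : List (List ℕ)), a ∈ A ν} = Set.univ := by
          ext a; simp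
        rw [this]
        exact Filter.univ_mem
      | cons ν L ih =>
        have : {a : ℕ | ∀ ξ ∈ ν :: L, a ∈ A ξ} = A ν ∩ {a | ∀ ξ ∈ L, a ∈ A ξ} := by
          ext a; simp
        rw [this]
        exact Filter.inter_mem (hA ν) ih
    have h2 : Set.Ioi m ∈ UU := by
      have h3 : (Set.Ioi m)ᶜ.Finite := by
        rw [Set.compl_Ioi]
        exact Set.finite_Iic m
      exact Filter.hyperfilter_le_cofinite (Filter.mem_cofinite.2 h3)
    obtain ⟨a, ha1, ha2⟩ := (UU.neBot.nonempty_of_mem (Filter.inter_mem h2 (h1 L)))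
    exact ⟨a, ha1, ha2⟩
  choose f hf1 hf2 using hex
  let st : ℕ → List (List ℕ) × ℕ := fun n => (h1Next f)^[n] ([[]], 0)
  have hst0 : st 0 = ([[]], 0) := rfl
  have hst : ∀ n, st (n + 1) = h1Next f (st n) := fun n =>
    Function.iterate_succ_apply' (h1Next f) n _
  let h : ℕ → ℕ := fun n => (st (n + 1)).2
  have hh : ∀ n, h n = f (st n).1 (st n).2 := by
    intro n
    show (st (n + 1)).2 = _
    rw [hst]
    rfl
  have hL : ∀ n, (st (n + 1)).1 = (st n).1 ++ (st n).1.map (fun ν => ν ++ [h n]) := by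
    intro n
    rw [hst, hh]
    rfl
  have hlt : ∀ n, h n < h (n + 1) := by
    intro n
    rw [hh (n + 1)]
    exact hf1 _ _
  have hmono : StrictMono h := strictMono_nat_of_lt_succ hlt
  have hmem : ∀ n (ν : List ℕ), ν.Pairwise (· < ·) → (∀ b ∈ ν, ∃ i < n, b = h i) →
      ν ∈ (st n).1 := by
    intro n
    induction n with
    | zero =>
      intro ν _ h2
      have : ν = [] := by
        rw [List.eq_nil_iff_forall_not_mem]
        intro b hb
        obtain ⟨i, hi, -⟩ := h2 b hb
        omega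
      rw [this, hst0]
      simp
    | succ n ih =>
      intro ν h1 h2
      rw [hL n, List.mem_append]
      by_cases hn : h n ∈ ν
      · right
        rw [List.mem_map]
        have hne : ν ≠ [] := List.ne_nil_of_mem hn
        obtain ⟨ν', x, rfl⟩ : ∃ ν' x, ν = ν' ++ [x] :=
          ⟨ν.dropLast, ν.getLast hne, (List.dropLast_append_getLast hne).symm⟩
        obtain ⟨p1, -, p3⟩ := List.pairwise_append.1 h1
        have hx : x = h n := by
          rcases List.mem_append.1 hn with h3 | h3
          · have h4 := p3 _ h3 x (by simp)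
            obtain ⟨i, hi, hxi⟩ := h2 x (by simp)
            rw [hxi] at h4
            have := hmono.lt_iff_lt.1 h4
            omega
          · exact (List.mem_singleton.1 h3).symm
        refine ⟨ν', ih ν' p1 ?_, by rw [hx]⟩
        intro b hb
        obtain ⟨i, hi, hbi⟩ := h2 b (by simp [hb])
        have h4 := p3 b hb x (by simp)
        rw [hx, hbi] at h4
        exact ⟨i, hmono.lt_iff_lt.1 h4, hbi⟩
      · left
        refine ih ν h1 fun b hb => ?_
        obtain ⟨i, hi, hbi⟩ := h2 b hb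
        have hne : i ≠ n := by
          rintro rfl
          exact hn (hbi ▸ hb)
        exact ⟨i, by omega, hbi⟩
  refine ⟨Set.range h, Set.infinite_range_of_injective hmono.injective, ?_⟩
  rintro ν h1 h2 _ ⟨n, rfl⟩ h3
  have h4 : ν ∈ (st n).1 := by
    refine hmem n ν h1 fun b hb => ?_
    obtain ⟨i, rfl⟩ := h2 b hb
    exact ⟨i, hmono.lt_iff_lt.1 (h3 _ hb), rfl⟩
  rw [hh n]
  exact hf2 _ _ ν h4

/-- along a play whose draws are in the sets `S` -/
theorem h1_along {tm good : List ℕ → Prop} {S : List ℕ → Set ℕ} {ν : List ℕ} :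
    ∀ (t : List ℕ), H1S tm good S ν →
      (∀ μ, μ <+: ν ++ t → μ ≠ ν ++ t → ¬ tm μ) →
      (∀ μ a, ν <+: μ → μ ++ [a] <+: ν ++ t → a ∈ S μ) → H1S tm good S (ν ++ t) := by
  intro t
  induction t generalizing ν with
  | nil => intro h _ _; simpa using h
  | cons a t ih =>
    intro h h1 h2
    have e : ν ++ a :: t = (ν ++ [a]) ++ t := by simp
    have h3 : ¬ tm ν := h1 ν (List.prefix_append _ _) (by simp)
    have h4 : a ∈ S ν := h2 ν a List.prefix_rfl (by rw [e]; exact List.prefix_append _ _)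
    rw [e] at h1 h2 ⊢
    cases h with
    | leaf h5 _ => exact absurd h5 h3
    | node _ h6 =>
      exact ih (h6 a h4) h1 fun μ b hμ hb => h2 μ b ((List.prefix_append _ _).trans hμ) hb

/-- H1. The homogeneous set. Proof. (a) For `WinT tm good ν` and a function `φ` on lists with finite
range there is a value `c` with `Sure φ c ν`, where `Sure` is the inductive predicate: `tm ν` and
`φ ν = c`, or `¬ tm ν` and `Sure φ c (ν ++ [a])` for all `a` in some `s ∈ UU` (induction on `WinT`; a
finite partition of a `UU`-large set has a `UU`-large piece). (b) Ordinal rank: let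
`Rk : Ordinal → List ℕ → Prop`-stages (or `WellFounded`/least ordinal) be such that `WinT ν` iff `ν` has
a rank, and for `¬ tm ν` the set `{a | rank (ν ++ [a]) < rank ν}` is in `UU`. (c) For each node `ν`
with `WinT ν` put `c ν` := the sure value of `Φ ν` at `ν`, and
`A ν := {a | WinT (ν ++ [a]) ∧ rank (ν ++ [a]) < rank ν ∧ ∀ μ <+: ν, Sure (Φ μ) (c μ) (ν ++ [a])}`;
it is in `UU` if `Sure (Φ μ) (c μ) ν` for all `μ <+: ν`. (d) Choose `h_0 < h_1 < …` with `h_{n+1}` in
`A ν` for all (finitely many) increasing lists `ν` from `{h_0, …, h_n}` for which `A ν ∈ UU`;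
`H = range h`. `HWin` by induction on the rank. -/
theorem hlemma (tm good : List ℕ → Prop) (h : WinT tm good []) {F : Type*}
    (Φ : List ℕ → List ℕ → F) (hfin : ∀ ν, (Set.range (Φ ν)).Finite) :
    ∃ H : Set ℕ, H.Infinite ∧ HWin tm good H [] ∧
      ∀ ν π π', CPlay tm H π → CPlay tm H π' → ν <+: π → ν <+: π' → Φ ν π = Φ ν π' := by
  -- witnesses
  obtain ⟨S, hS, hS0⟩ := h1_exists_S h
  have key : ∀ ν : List ℕ, ∃ G : List ℕ → Set ℕ, (∀ μ, G μ ∈ UU) ∧
      (WinT tm good ν → ∃ c, H1S tm (fun π => Φ ν π = c) G ν) := by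
    intro ν
    by_cases hν : WinT tm good ν
    · obtain ⟨c, -, hc⟩ := h1_sure hν (Φ ν) (hfin ν)
      obtain ⟨G, hG1, hG2⟩ := h1_exists_S hc
      exact ⟨G, hG1, fun _ => ⟨c, hG2⟩⟩
    · exact ⟨fun _ => Set.univ, fun _ => Filter.univ_mem, fun h => absurd h hν⟩
  choose G hG1 hG2 using key
  have hA : ∀ ν : List ℕ, S ν ∩ {a | ∀ μ ∈ ν.inits, a ∈ G μ ν} ∈ UU := by
    intro ν
    refine Filter.inter_mem (hS ν) ?_
    have h1 : ∀ L : List (List ℕ), {a | ∀ μ ∈ L, a ∈ G μ ν} ∈ UU := by
      intro L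
      induction L with
      | nil =>
        have : {a : ℕ | ∀ μ ∈ ([] : List (List ℕ)), a ∈ G μ ν} = Set.univ := by
          ext a; simp
        rw [this]
        exact Filter.univ_mem
      | cons ξ L ih =>
        have : {a : ℕ | ∀ μ ∈ ξ :: L, a ∈ G μ ν} = G ξ ν ∩ {a | ∀ μ ∈ L, a ∈ G μ ν} := by
          ext a; simp
        rw [this]
        exact Filter.inter_mem (hG1 ξ ν) ih
    exact h1 _
  obtain ⟨H, hH, hH2⟩ := h1_diag _ hA
  refine ⟨H, hH, ?_, ?_⟩
  · -- the game is won in `H`
    have h1 : ∀ ν, H1S tm good S ν → ν.Pairwise (· < ·) → (∀ b ∈ ν, b ∈ H) →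
        HWin tm good H ν := by
      intro ν hν
      induction hν with
      | leaf h1 h2 => exact fun _ _ => .leaf h1 h2
      | @node ν h1 h2 ih =>
        intro h3 h4
        refine .node h1 fun a ha hb => ?_
        have h5 := hH2 ν h3 h4 a ha hb
        refine ih a h5.1 ?_ ?_
        · rw [List.pairwise_append]
          refine ⟨h3, by simp, ?_⟩
          intro x hx y hy
          rw [List.mem_singleton] at hy
          rw [hy]
          exact hb x hx
        · intro b hb2
          rcases List.mem_append.1 hb2 with h6 | h6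
          · exact h4 b h6
          · rw [List.mem_singleton] at h6
            rw [h6]
            exact ha
    exact h1 [] hS0 List.Pairwise.nil (by simp)
  · -- homogeneity
    have hdraw : ∀ π, CPlay tm H π → ∀ μ a, μ ++ [a] <+: π →
        a ∈ S μ ∩ {a | ∀ ξ ∈ μ.inits, a ∈ G ξ μ} := by
      intro π hπ μ a hμ
      have h1 : (μ ++ [a]).Pairwise (· < ·) := hπ.inc.sublist hμ.sublist
      obtain ⟨p1, -, p3⟩ := List.pairwise_append.1 h1
      refine hH2 μ p1 (fun b hb => ?_) a ?_ (fun b hb => p3 b hb a (by simp))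
      · exact hπ.mem b (hμ.subset (by simp [hb]))
      · exact hπ.mem a (hμ.subset (by simp))
    have hval : ∀ π ν, CPlay tm H π → ν <+: π → ∀ c, H1S tm (fun π => Φ ν π = c) (G ν) ν →
        Φ ν π = c := by
      intro π ν hπ hν c hc
      obtain ⟨t, rfl⟩ := hν
      have h1 := h1_along t hc hπ.first (fun μ a hμ hμa =>
        (hdraw _ hπ μ a hμa).2 ν ((List.mem_inits _ _).2 hμ))
      cases h1 with
      | leaf _ h2 => exact h2
      | node h2 _ => exact absurd hπ.term h2
    have hwin : ∀ π ν, CPlay tm H π → ν <+: π → WinT tm good ν := by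
      intro π ν hπ hν
      have h1 : H1S tm good S ([] ++ ν) := h1_along (ν := []) ν hS0
        (fun μ hμ hne => by
          rw [List.nil_append] at hμ hne
          refine hπ.first μ (hμ.trans hν) ?_
          rintro rfl
          exact hne (List.IsPrefix.eq_of_length_le hμ hν.length_le))
        (fun μ a _ hμ => by
          rw [List.nil_append] at hμ
          exact (hdraw π hπ μ a (hμ.trans hν)).1)
      rw [List.nil_append] at h1
      exact h1_winT hS h1
    intro ν π π' hπ hπ' h1 h2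
    obtain ⟨c, hc⟩ := hG2 ν (hwin π ν hπ h1)
    rw [hval π ν hπ h1 c hc, hval π' ν hπ' h2 c hc]

end MPb6P
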