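import Pool.Agent.Lib.MP_b6d339_lc.Pos.Defs

/-!
# Erdős 592, positive side: definitions for the case of a common beginning
-/

open Filter Ordinal

namespace MPb6P

/-- Blue wins the pair position and the first component `A` is the last to finish. -/
inductive WL (Bl : List ℕ → List ℕ → Prop) : PS → PS → Prop
  | endB {A B : PS} : B.todo = [] → A.todo ≠ [] → W Bl A B → WL Bl A B
  | begA {A B : PS} (δ : List ℕ) : A.go = false → B.go = false → A.todo ≠ [] →
      WL Bl (A.beg δ) B → WL Bl A B
  | begB {A B : PS} (δ : List ℕ) : A.go = false → B.go = false → B.todo ≠ [] →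
      WL Bl A (B.beg δ) → WL Bl A B
  | drawA {A B : PS} (s : Set ℕ) : A.go = true → B.go = false → s ∈ UU →
      (∀ a ∈ s, WL Bl (A.draw a) B) → WL Bl A B
  | drawB {A B : PS} (s : Set ℕ) : A.go = false → B.go = true → s ∈ UU →
      (∀ a ∈ s, WL Bl A (B.draw a)) → WL Bl A B

/-- normalised states: a macro move is over exactly before a designated bottom entry or when
nothing is left (the root is also at rest) -/
def Nrm (S : PS) : Prop :=
  (S.todo = [] → S.go = false) ∧
  (S.go = true → ∀ e r, S.todo = e :: r → ¬ (e.lv = 0 ∧ e.ds = true)) ∧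
  (S.go = false → S.res = []) ∧
  (∀ e r, S.todo = e :: r → (e.lv = 0 ∨ e.ds = false) → S.res = [])

/-- the two views of the same player: `t` is the to-do list in the view which is played first: all
designated entries are in an initial part, in which the second view `t'` has none -/
def Zp (t t' : List Ent) : Prop :=
  ∃ X X' Y Y', t = X ++ Y ∧ t' = X' ++ Y' ∧ X.map Ent.lv = X'.map Ent.lv ∧
    Y.map Ent.lv = Y'.map Ent.lv ∧ (∀ e ∈ Y, e.ds = false) ∧ (∀ e ∈ X', e.ds = false)

/-- a view in which only fillers are left, against a finished partner -/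
structure Fill (Bl : List ℕ → List ℕ → Prop) (A Z : PS) : Prop where
  w : W Bl A Z
  fin : Z.todo = []
  ds : ∀ e ∈ A.todo, e.ds = false
  go : A.todo = [] ∧ A.go = false ∨ A.todo ≠ [] ∧ A.go = true

/-- the conclusion: a blue triangle -/
def Tri (Bl : List ℕ → List ℕ → Prop) : Prop := ∃ x y z, Bl x y ∧ Bl x z ∧ Bl y z

end MPb6P
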