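import Pool.Agent.Lib.MP_b6d339_lc.Pos.BDefs
import Pool.Agent.Lib.MP_b6d339_lc.Pos.B6a
import Pool.Agent.Lib.MP_b6d339_lc.Pos.H1
import Pool.Agent.Lib.MP_b6d339_lc.Pos.H2
import Pool.Agent.Lib.MP_b6d339_lc.Pos.H3
import Pool.Agent.Lib.MP_b6d339_lc.Pos.KDefs

/-!
# Erdős 592, positive side: the triangle from a strategy
-/

open Filter Ordinal

namespace MPb6P

/-- the label set of the `k`-th reserved sub-block (as in `Ctx.sureA`) -/
def b6c_A (σ : Strat) (D : ℕ) (lab : List ℕ → Fin 3 → ℕ → ℕ) (ν π : List ℕ) (R : Fin 3) (s : Bool)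
    (k : ℕ) : Set ℕ :=
  {g | ∃ i a, decide (i % 2 = 0) = s ∧ (evs σ D π)[i]? = some (some a) ∧
        (((side (pos σ D ν) s).todo.head?.map Ent.ad).getD [] ++ [π.getD (ν.length + k) 0]) <+: a ∧
        lab (wrd D (evs σ D π)) R i = g}

/-- the features -/
def b6c_Phi (σ : Strat) (D : ℕ) {T : Type} (tmpl : List ℕ → T) (lab : List ℕ → Fin 3 → ℕ → ℕ)
    (ν π : List ℕ) : T × Set (Fin 3 × ℕ × ℕ) × Set (Fin 3 × Bool × ℕ × ℕ) :=
  (tmpl (wrd D (evs σ D π)),
    {x | x.2.1 ≤ (evs σ D ν).length ∧ lab (wrd D (evs σ D π)) x.1 x.2.1 = x.2.2},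
    {x | x.2.2.1 < needP (side (pos σ D ν) x.2.1) ∧
      x.2.2.2 ∈ b6c_A σ D lab ν π x.1 x.2.1 x.2.2.1})

theorem b6c_finite (σ : Strat) (D : ℕ) {T : Type} [Finite T] (tmpl : List ℕ → T)
    (lab : List ℕ → Fin 3 → ℕ → ℕ) (M : ℕ) (hM : ∀ u R i, lab u R i ≤ M) (ν : List ℕ) :
    (Set.range (b6c_Phi σ D tmpl lab ν)).Finite := by
  classical
  set S1 : Set (Fin 3 × ℕ × ℕ) := Set.univ ×ˢ (Set.Iic (evs σ D ν).length ×ˢ Set.Iic M) with hS1
  set n := needP (side (pos σ D ν) true) + needP (side (pos σ D ν) false) with hn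
  set S2 : Set (Fin 3 × Bool × ℕ × ℕ) :=
    Set.univ ×ˢ (Set.univ ×ˢ (Set.Iic n ×ˢ Set.Iic M)) with hS2
  have f1 : S1.Finite := Set.finite_univ.prod ((Set.finite_Iic _).prod (Set.finite_Iic _))
  have f2 : S2.Finite :=
    Set.finite_univ.prod (Set.finite_univ.prod ((Set.finite_Iic _).prod (Set.finite_Iic _)))
  have f3 : ((Set.univ : Set T) ×ˢ ({s | s ⊆ S1} ×ˢ {s | s ⊆ S2})).Finite :=
    Set.finite_univ.prod (f1.finite_subsets.prod f2.finite_subsets)
  refine f3.subset ?_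
  rintro _ ⟨π, rfl⟩
  refine ⟨Set.mem_univ _, ?_, ?_⟩
  · rintro ⟨R, i, g⟩ ⟨h1, h2⟩
    refine ⟨Set.mem_univ _, h1, ?_⟩
    show g ≤ M
    have h3 : lab (wrd D (evs σ D π)) R i = g := h2
    rw [← h3]
    exact hM _ _ _
  · rintro ⟨R, s, k, g⟩ ⟨h1, h2⟩
    refine ⟨Set.mem_univ _, Set.mem_univ _, ?_, ?_⟩
    · show k ≤ n
      have h3 : k < needP (side (pos σ D ν) s) := h1
      cases s <;> omega
    · show g ≤ M
      obtain ⟨i, a, -, -, -, h3⟩ := h2
      have h4 : lab (wrd D (evs σ D π)) R i = g := h3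
      rw [← h4]
      exact hM _ _ _

theorem b6c_univ {tm : List ℕ → Prop} {H : Set ℕ} {π : List ℕ} (h : CPlay tm H π) :
    CPlay tm Set.univ π :=
  ⟨h.inc, fun _ _ => trivial, h.term, h.first⟩

/-- B6c. `exists_strat`, then `hlemma` with the features `Φ ν π` = (template of the word of `π`,
the labels of the events `≤ (evs ν).length` in the three roles, the label sets of `sureA`) – finite
range because all labels are `≤ M` –, a context `Ctx`, `exists_three`. -/
theorem tri_of_root (D : ℕ) (hD : 1 ≤ D) (hT : TT D) {Bl : List ℕ → List ℕ → Prop}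
    (hs : ∀ s t, Bl s t → Bl t s) (h : W Bl (PS.root D) (PS.root D)) : Tri Bl := by
  classical
  obtain ⟨σ, ok, h1, hwin⟩ := exists_strat D Bl hs h
  obtain ⟨M, T, hTf, tmpl, lab, hb, hmono, hcompat⟩ := hT
  obtain ⟨H, hinf, hwinH, hfeat⟩ := hlemma (Tm σ D)
    (fun ν => Bl (pos σ D ν).1.seq (pos σ D ν).2.seq) hwin (b6c_Phi σ D tmpl lab)
    (fun ν => b6c_finite σ D tmpl lab M (fun u R i => (hb u R i).2) ν)
  let C : Ctx :=
    { D := D
      hD := hD
      σ := σ
      ok := ok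
      h1 := h1
      H := H
      inf := hinf
      good := fun ν => Bl (pos σ D ν).1.seq (pos σ D ν).2.seq
      win := hwinH
      lab := lab
      lab_pos := fun u R i => (hb u R i).1
      lab_mono := hmono
      compat := by
        intro π π' hπ hπ'
        have he := hfeat [] π π' hπ hπ' List.nil_prefix List.nil_prefix
        exact hcompat _ _ (wrd_valid hD ok h1 (b6c_univ hπ)) (wrd_valid hD ok h1 (b6c_univ hπ'))
          (congrArg Prod.fst he)
      sureL := by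
        intro ν π π' hπ hπ' hν hν' R i hi
        have he := hfeat ν π π' hπ hπ' hν hν'
        have he2 := congrArg (fun x => x.2.1) he
        have hm : (R, i, lab (wrd D (evs σ D π)) R i) ∈ (b6c_Phi σ D tmpl lab ν π).2.1 := ⟨hi, rfl⟩
        have he3 : (b6c_Phi σ D tmpl lab ν π).2.1 = (b6c_Phi σ D tmpl lab ν π').2.1 := he2
        rw [he3] at hm
        exact hm.2.symm
      sureA := by
        intro ν π π' hπ hπ' hν hν' R s k hk
        have he := hfeat ν π π' hπ hπ' hν hν'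
        have he3 : (b6c_Phi σ D tmpl lab ν π).2.2 = (b6c_Phi σ D tmpl lab ν π').2.2 :=
          congrArg (fun x => x.2.2) he
        show b6c_A σ D lab ν π R s k = b6c_A σ D lab ν π' R s k
        ext g
        have h5 : ∀ π, g ∈ b6c_A σ D lab ν π R s k ↔
            (R, s, k, g) ∈ (b6c_Phi σ D tmpl lab ν π).2.2 :=
          fun π => ⟨fun h => ⟨hk, h⟩, fun h => h.2⟩
        rw [h5 π, h5 π', he3] }
  obtain ⟨ν, hcp, hseq⟩ := C.exists_three
  have hgood : ∀ R, Bl (C.S (ν R) true).seq (C.S (ν R) false).seq := by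
    intro R
    have hg := CPlay.good C.win (hcp R)
    exact hg
  refine ⟨(C.S (ν 0) true).seq, (C.S (ν 0) false).seq, (C.S (ν 1) false).seq, hgood 0, ?_, ?_⟩
  · rw [hseq 0 1 true true (by simp [plrS, plr])]
    exact hgood 1
  · rw [hseq 0 2 false true (by simp [plrS, plr]), hseq 1 2 false false (by simp [plrS, plr])]
    exact hgood 2

end MPb6P
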