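import Pool.Agent.Lib.MP_b6d339_lc.Pos.FDefs
import Pool.Agent.Lib.MP_b6d339_lc.Pos.F0

/-!
# Erdős 592, positive side: invariants of nodes
-/

open Filter Ordinal

namespace MPb6P

/-- at rest: nothing left or a designated bottom entry at the head -/
def PF1_R (S : PS) : Prop :=
  S.todo = [] ∨ ∃ e r, S.todo = e :: r ∧ e.lv = 0 ∧ e.ds = true

/-- invariants of the state of one player -/
structure PF1_I (D : ℕ) (S : PS) : Prop where
  lvl : ∀ e ∈ S.todo, e.lv + e.ad.length = D
  ord : (S.todo.map Ent.ad).Pairwise LL
  res0 : S.go = false → S.res = []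
  head : S.go = true → ∃ e r, S.todo = e :: r ∧ ¬ (e.lv = 0 ∧ e.ds = true) ∧
    (e.ds = false → S.res = [])

theorem PF1_norm_todo (S : PS) : S.norm.todo = S.todo := by
  unfold PS.norm
  split
  · rfl
  · split_ifs <;> rfl

theorem PF1_norm_res (S : PS) : S.norm.res = S.res := by
  unfold PS.norm
  split
  · rfl
  · split_ifs <;> rfl

theorem PF1_norm {D : ℕ} {S : PS} (hl : ∀ e ∈ S.todo, e.lv + e.ad.length = D)
    (ho : (S.todo.map Ent.ad).Pairwise LL) (hr : S.res = []) (hg : S.go = true) :
    PF1_I D S.norm ∧ (S.norm.go = false → PF1_R S.norm) := by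
  refine ⟨⟨by rwa [PF1_norm_todo], by rwa [PF1_norm_todo], fun _ => by rwa [PF1_norm_res], ?_⟩, ?_⟩
  · intro h
    rcases ht : S.todo with _ | ⟨e, r⟩
    · exfalso
      unfold PS.norm at h
      rw [ht] at h
      simp at h
    · refine ⟨e, r, by rw [PF1_norm_todo, ht], ?_, fun _ => by rw [PF1_norm_res, hr]⟩
      intro h2
      unfold PS.norm at h
      rw [ht] at h
      simp [h2.1, h2.2] at h
  · intro h
    unfold PF1_R
    rw [PF1_norm_todo]
    rcases ht : S.todo with _ | ⟨e, r⟩
    · exact Or.inl rfl
    · right
      refine ⟨e, r, rfl, ?_⟩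
      by_contra h2
      unfold PS.norm at h
      rw [ht] at h
      simp only [h2, if_false] at h
      rw [hg] at h
      simp at h

theorem PF1_subs {D l : ℕ} {ad : List ℕ} {P : List ℕ} {a : ℕ} {r : List Ent}
    (hl : l + 1 + ad.length = D) (hr : ∀ e ∈ r, e.lv + e.ad.length = D)
    (ho : ((ad :: r.map Ent.ad)).Pairwise LL) :
    (∀ e ∈ subs l ad P a ++ r, e.lv + e.ad.length = D) ∧
      ((subs l ad P a ++ r).map Ent.ad).Pairwise LL := by
  rw [List.pairwise_cons] at ho
  constructor
  · intro e he
    rw [List.mem_append] at he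
    rcases he with he | he
    · unfold subs at he
      rw [List.mem_map] at he
      obtain ⟨i, _, rfl⟩ := he
      simp only [List.length_append, List.length_cons, List.length_nil]
      omega
    · exact hr e he
  · rw [List.map_append, List.pairwise_append]
    refine ⟨?_, ho.2, ?_⟩
    · unfold subs
      rw [List.map_map, List.pairwise_map]
      refine List.Pairwise.imp ?_ (List.pairwise_lt_range (n := a))
      intro i j hij
      exact ⟨ad, i, j, [], [], rfl, rfl, hij⟩
    · intro x hx y hy
      unfold subs at hx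
      rw [List.map_map, List.mem_map] at hx
      obtain ⟨i, _, rfl⟩ := hx
      exact (ho.1 y hy).extend (List.prefix_append _ _) (List.prefix_refl _)

theorem PF1_draw {D : ℕ} {S : PS} (a : ℕ) (hI : PF1_I D S) (hg : S.go = true) :
    PF1_I D (S.draw a) ∧ ((S.draw a).go = false → PF1_R (S.draw a)) := by
  obtain ⟨e, r, ht, hne, hres⟩ := hI.head hg
  have hl := hI.lvl
  have ho := hI.ord
  rw [ht] at hl ho
  rw [List.map_cons] at ho
  have hle := hl e (List.mem_cons_self ..)
  have hlr : ∀ e' ∈ r, e'.lv + e'.ad.length = D := fun e' he' => hl e' (List.mem_cons_of_mem _ he')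
  unfold PS.draw
  rw [ht]
  simp only
  by_cases h0 : e.lv = 0
  · rw [if_pos h0]
    have hds : e.ds = false := by
      by_contra h
      exact hne ⟨h0, by simpa using h⟩
    exact PF1_norm (S := { S with todo := r, seq := S.seq ++ [a] }) hlr
      (List.pairwise_cons.mp ho).2 (hres hds) hg
  · rw [if_neg h0]
    obtain ⟨l, hl1⟩ : ∃ l, e.lv = l + 1 := ⟨e.lv - 1, by omega⟩
    have hs : ∀ P : List ℕ, (∀ e' ∈ subs (e.lv - 1) e.ad P a ++ r, e'.lv + e'.ad.length = D) ∧
        ((subs (e.lv - 1) e.ad P a ++ r).map Ent.ad).Pairwise LL := by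
      intro P
      refine PF1_subs ?_ hlr ho
      rw [hl1] at hle ⊢
      simpa using hle
    by_cases hds : e.ds = true
    · rw [if_pos hds]
      by_cases hn : S.res.length < S.need
      · rw [if_pos hn]
        refine ⟨⟨hl, by simpa using ho, ?_, ?_⟩, ?_⟩
        · intro h
          have : S.go = false := h
          rw [hg] at this
          simp at this
        · intro _
          refine ⟨e, r, rfl, hne, ?_⟩
          intro h
          rw [hds] at h
          simp at h
        · intro h
          have : S.go = false := h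
          rw [hg] at this
          simp at this
      · rw [if_neg hn]
        exact PF1_norm (S := ⟨S.seq ++ [a], subs (e.lv - 1) e.ad S.res a ++ r, S.pend.tail, [],
          S.go⟩) (hs S.res).1 (hs S.res).2 rfl hg
    · rw [if_neg hds]
      exact PF1_norm (S := { S with seq := S.seq ++ [a], todo := subs (e.lv - 1) e.ad [] a ++ r })
        (hs []).1 (hs []).2 (hres (by simpa using hds)) hg

theorem PF1_beg {D : ℕ} {S : PS} (δ : List ℕ) (hI : PF1_I D S) (hg : S.go = false)
    (hne : S.todo ≠ []) : PF1_I D (S.beg δ) ∧ (S.beg δ).go = true := by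
  obtain ⟨e, r, ht⟩ := List.exists_cons_of_ne_nil hne
  have hl := hI.lvl
  have ho := hI.ord
  have hres := hI.res0 hg
  unfold PS.beg
  rw [ht] at hl ho ⊢
  simp only
  by_cases h0 : e.lv = 0
  · rw [if_pos h0]
    refine ⟨⟨?_, ?_, fun _ => hres, ?_⟩, rfl⟩
    · intro e' he'
      rcases List.mem_cons.mp he' with rfl | he'
      · have := hl e (List.mem_cons_self ..)
        simp only
        omega
      · exact hl e' (List.mem_cons_of_mem _ he')
    · simpa using ho
    · intro _
      exact ⟨_, _, rfl, by simp, fun _ => hres⟩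
  · rw [if_neg h0]
    refine ⟨⟨hl, by simpa using ho, fun _ => hres, ?_⟩, rfl⟩
    intro _
    exact ⟨e, r, rfl, fun h => h0 h.1, fun _ => hres⟩

/-- global invariants; `E` = the events -/
def PF1_G (D : ℕ) (P : Pos) (E : List (Option (List ℕ))) : Prop :=
  PF1_I D P.1 ∧ PF1_I D P.2 ∧
  ((P.1.go = true ∧ P.2.go = false ∧ E.length % 2 = 0 ∧
      (PF1_R P.2 ∨ (E = [] ∧ P.2 = PS.root D))) ∨
    (P.1.go = false ∧ P.2.go = true ∧ E.length % 2 = 1 ∧ PF1_R P.1) ∨
    (P.1.go = false ∧ P.2.go = false ∧ P.1.todo = [] ∧ P.2.todo = []))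

theorem PF1_fold (σ : Strat) (D : ℕ) (ν : List ℕ) :
    ν.foldl (evStep σ) (autoP σ (PS.root D, PS.root D), []) = (pos σ D ν, evs σ D ν) := by
  have : (ν.foldl (evStep σ) (autoP σ (PS.root D, PS.root D), [])).1 = pos σ D ν := by
    unfold pos
    induction ν using List.reverseRecOn with
    | nil => rfl
    | append_singleton ν a ih =>
      rw [List.foldl_append, List.foldl_append]
      simp only [List.foldl_cons, List.foldl_nil]
      rw [← ih]
      rfl
  rw [← this]
  rfl

theorem PF1_pos_append (σ : Strat) (D : ℕ) (ν : List ℕ) (a : ℕ) :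
    pos σ D (ν ++ [a]) = autoP σ (stepP (pos σ D ν) a) := by
  unfold pos
  rw [List.foldl_append]
  rfl

theorem PF1_evs_append (σ : Strat) (D : ℕ) (ν : List ℕ) (a : ℕ) :
    evs σ D (ν ++ [a]) = (evStep σ (pos σ D ν, evs σ D ν) a).2 := by
  rw [← PF1_fold]
  unfold evs
  rw [List.foldl_append]
  rfl

theorem PF1_G_step {σ : Strat} {D : ℕ} (hσ : StratOK σ) {P : Pos}
    {E : List (Option (List ℕ))} (hG : PF1_G D P E) (hT : ¬ (P.1.go = false ∧ P.2.go = false))
    (a : ℕ) : PF1_G D (autoP σ (stepP P a)) (evStep σ (P, E) a).2 := by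
  obtain ⟨h1, h2, h | h | h⟩ := hG
  · obtain ⟨hg1, hg2, hE, hr⟩ := h
    have hst : stepP P a = (P.1.draw a, P.2) := by
      unfold stepP
      rw [if_pos hg1]
    obtain ⟨hd, hdr⟩ := PF1_draw a h1 hg1
    have hev : (evStep σ (P, E) a).2 = if (autoP σ (stepP P a)).1.go then E else
        E ++ [(stepP P a).1.todo.head?.map Ent.ad] := by
      unfold evStep side
      simp [hg1]
    rw [hev, hst]
    by_cases hgo : (P.1.draw a).go = true
    · have hau : autoP σ (P.1.draw a, P.2) = (P.1.draw a, P.2) := by
        unfold autoP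
        rw [if_neg]
        rintro ⟨h, _⟩
        simp only at h
        rw [hgo] at h
        simp at h
      rw [hau]
      simp only
      rw [if_pos hgo]
      exact ⟨hd, h2, Or.inl ⟨hgo, hg2, hE, hr⟩⟩
    · have hgo' : (P.1.draw a).go = false := by simpa using hgo
      have hR := hdr hgo'
      by_cases hall : (P.1.draw a).todo = [] ∧ P.2.todo = []
      · have hau : autoP σ (P.1.draw a, P.2) = (P.1.draw a, P.2) := by
          unfold autoP
          rw [if_neg]
          rintro ⟨_, _, h⟩
          simp only [hall.1, hall.2] at h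
          simp at h
        rw [hau]
        exact ⟨hd, h2, Or.inr (Or.inr ⟨hgo', hg2, hall.1, hall.2⟩)⟩
      · have hne : (P.1.draw a).todo ≠ [] ∨ P.2.todo ≠ [] := by tauto
        have hau : autoP σ (P.1.draw a, P.2) = if (σ (P.1.draw a, P.2)).1 then
            ((P.1.draw a).beg (σ (P.1.draw a, P.2)).2, P.2) else
            (P.1.draw a, P.2.beg (σ (P.1.draw a, P.2)).2) := by
          unfold autoP
          rw [if_pos]
          refine ⟨hgo', hg2, ?_⟩
          rcases hne with h | h
          · left
            simpa using h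
          · right
            simpa using h
        obtain ⟨hs1, hs2⟩ := hσ (P.1.draw a, P.2) hne
        by_cases hb : (σ (P.1.draw a, P.2)).1 = true
        · rw [hau, if_pos hb]
          obtain ⟨hb1, hb2⟩ := PF1_beg (σ (P.1.draw a, P.2)).2 hd hgo' (hs1 hb)
          simp only
          rw [if_pos hb2]
          exact ⟨hb1, h2, Or.inl ⟨hb2, hg2, hE, hr⟩⟩
        · rw [hau, if_neg hb]
          have hb' : (σ (P.1.draw a, P.2)).1 = false := by simpa using hb
          obtain ⟨hb1, hb2⟩ := PF1_beg (σ (P.1.draw a, P.2)).2 h2 hg2 (hs2 hb')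
          simp only
          rw [if_neg hgo]
          refine ⟨hd, hb1, Or.inr (Or.inl ⟨hgo', hb2, ?_, hR⟩)⟩
          rw [List.length_append]
          simp only [List.length_cons, List.length_nil]
          omega
  · obtain ⟨hg1, hg2, hE, hr⟩ := h
    have hst : stepP P a = (P.1, P.2.draw a) := by
      unfold stepP
      rw [hg1]
      simp
    obtain ⟨hd, hdr⟩ := PF1_draw a h2 hg2
    have hev : (evStep σ (P, E) a).2 = if (autoP σ (stepP P a)).2.go then E else
        E ++ [(stepP P a).2.todo.head?.map Ent.ad] := by
      unfold evStep side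
      simp [hg1]
    rw [hev, hst]
    by_cases hgo : (P.2.draw a).go = true
    · have hau : autoP σ (P.1, P.2.draw a) = (P.1, P.2.draw a) := by
        unfold autoP
        rw [if_neg]
        rintro ⟨_, h, _⟩
        simp only at h
        rw [hgo] at h
        simp at h
      rw [hau]
      simp only
      rw [if_pos hgo]
      exact ⟨h1, hd, Or.inr (Or.inl ⟨hg1, hgo, hE, hr⟩)⟩
    · have hgo' : (P.2.draw a).go = false := by simpa using hgo
      have hR := hdr hgo'
      by_cases hall : P.1.todo = [] ∧ (P.2.draw a).todo = []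
      · have hau : autoP σ (P.1, P.2.draw a) = (P.1, P.2.draw a) := by
          unfold autoP
          rw [if_neg]
          rintro ⟨_, _, h⟩
          simp only [hall.1, hall.2] at h
          simp at h
        rw [hau]
        exact ⟨h1, hd, Or.inr (Or.inr ⟨hg1, hgo', hall.1, hall.2⟩)⟩
      · have hne : P.1.todo ≠ [] ∨ (P.2.draw a).todo ≠ [] := by tauto
        have hau : autoP σ (P.1, P.2.draw a) = if (σ (P.1, P.2.draw a)).1 then
            (P.1.beg (σ (P.1, P.2.draw a)).2, P.2.draw a) else
            (P.1, (P.2.draw a).beg (σ (P.1, P.2.draw a)).2) := by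
          unfold autoP
          rw [if_pos]
          refine ⟨hg1, hgo', ?_⟩
          rcases hne with h | h
          · left
            simpa using h
          · right
            simpa using h
        obtain ⟨hs1, hs2⟩ := hσ (P.1, P.2.draw a) hne
        by_cases hb : (σ (P.1, P.2.draw a)).1 = true
        · rw [hau, if_pos hb]
          obtain ⟨hb1, hb2⟩ := PF1_beg (σ (P.1, P.2.draw a)).2 h1 hg1 (hs1 hb)
          simp only
          rw [if_neg hgo]
          refine ⟨hb1, hd, Or.inl ⟨hb2, hgo', ?_, Or.inl hR⟩⟩
          rw [List.length_append]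
          simp only [List.length_cons, List.length_nil]
          omega
        · rw [hau, if_neg hb]
          have hb' : (σ (P.1, P.2.draw a)).1 = false := by simpa using hb
          obtain ⟨hb1, hb2⟩ := PF1_beg (σ (P.1, P.2.draw a)).2 hd hgo' (hs2 hb')
          simp only
          rw [if_pos hb2]
          exact ⟨h1, hb1, Or.inr (Or.inl ⟨hg1, hb2, hE, hr⟩)⟩
  · exact absurd ⟨h.1, h.2.1⟩ hT

theorem PF1_root {D : ℕ} : PF1_I D (PS.root D) := by
  refine ⟨?_, ?_, fun _ => rfl, ?_⟩
  · intro e he
    simp only [PS.root, List.mem_singleton] at he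
    subst he
    simp
  · simp [PS.root]
  · intro h
    simp [PS.root] at h

theorem PF1_G_node {σ : Strat} {D : ℕ} (hD : 1 ≤ D) (hσ : StratOK σ)
    (h1 : (σ (PS.root D, PS.root D)).1 = true) (ν : List ℕ)
    (hν : HNode (Tm σ D) Set.univ ν) : PF1_G D (pos σ D ν) (evs σ D ν) := by
  induction ν using List.reverseRecOn with
  | nil =>
    have hau : pos σ D [] = ((PS.root D).beg (σ (PS.root D, PS.root D)).2, PS.root D) := by
      unfold pos
      simp only [List.foldl_nil]
      unfold autoP
      rw [if_pos, if_pos h1]
      simp [PS.root]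
    have hev : evs σ D [] = [] := rfl
    rw [hau, hev]
    obtain ⟨hb1, hb2⟩ := PF1_beg (σ (PS.root D, PS.root D)).2 (PF1_root (D := D)) rfl
      (by simp [PS.root])
    exact ⟨hb1, PF1_root, Or.inl ⟨hb2, rfl, rfl, Or.inr ⟨rfl, rfl⟩⟩⟩
  | append_singleton ν a ih =>
    have hν' : HNode (Tm σ D) Set.univ ν := by
      refine ⟨(List.pairwise_append.mp hν.inc).1, fun _ _ => Set.mem_univ _, ?_⟩
      intro μ hμ hne
      refine hν.first μ (hμ.trans (List.prefix_append _ _)) ?_
      intro h
      have := hμ.length_le
      rw [h, List.length_append] at this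
      simp at this
    have hT : ¬ Tm σ D ν := hν.first ν (List.prefix_append _ _) (by simp)
    rw [PF1_pos_append, PF1_evs_append]
    exact PF1_G_step hσ (ih hν') hT a

/-- F1. By induction on the list `ν` (from the right: `pos σ D (ν ++ [a]) =
autoP σ (stepP (pos σ D ν) a)`). `ord`, `lvl`: sub-entries have addresses `ad ++ [i]`, level
`lv - 1`. `par`: an event is recorded iff the active player changes (or the play ends). -/
theorem nodeInv {σ : Strat} {D : ℕ} (hD : 1 ≤ D) (hσ : StratOK σ)
    (h1 : (σ (PS.root D, PS.root D)).1 = true) {ν : List ℕ}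
    (hν : HNode (Tm σ D) Set.univ ν) : NI σ D ν := by
  obtain ⟨hI1, hI2, hc⟩ := PF1_G_node hD hσ h1 ν hν
  have hI : ∀ s, PF1_I D (side (pos σ D ν) s) := by
    intro s
    unfold side
    cases s
    · simpa using hI2
    · simpa using hI1
  constructor
  · intro hT s
    rcases hc with h | h | h
    · cases s <;> simp [side, h.1, h.2.1]
    · cases s <;> simp [side, h.1, h.2.1]
    · exact absurd ⟨h.1, h.2.1⟩ hT
  · intro hT
    rcases hc with h | h | h
    · rw [h.1]
      simp [h.2.2.1]
    · rw [h.1]
      simp [h.2.2.1]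
    · exact absurd ⟨h.1, h.2.1⟩ hT
  · intro hT s
    rcases hc with h | h | h
    · have := hT.1
      rw [h.1] at this
      simp at this
    · have := hT.2
      rw [h.2.1] at this
      simp at this
    · cases s
      · simpa [side] using h.2.2.2
      · simpa [side] using h.2.2.1
  · intro s hs
    exact (hI s).res0 hs
  · intro s
    exact (hI s).lvl
  · intro s
    exact (hI s).ord
  · intro s hs
    exact (hI s).head hs
  · intro s hs
    rcases hc with h | h | h
    · cases s
      · rcases h.2.2.2 with h2 | h2
        · rcases h2 with h2 | h2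
          · left
            simpa [side] using h2
          · right
            left
            simpa [side] using h2
        · right
          right
          exact ⟨rfl, h2.1, by simpa [side] using h2.2⟩
      · have : (pos σ D ν).1.go = false := by simpa [side] using hs
        rw [h.1] at this
        simp at this
    · cases s
      · have : (pos σ D ν).2.go = false := by simpa [side] using hs
        rw [h.2.1] at this
        simp at this
      · rcases h.2.2.2 with h2 | h2
        · left
          simpa [side] using h2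
        · right
          left
          simpa [side] using h2
    · left
      cases s
      · simpa [side] using h.2.2.2
      · simpa [side] using h.2.2.1

end MPb6P
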