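import Pool.Agent.Lib.MP_b6d339_lc.Pos.FDefs
import Pool.Agent.Lib.MP_b6d339_lc.Pos.F1

/-!
# Erdős 592, positive side: events
-/

open Filter Ordinal

namespace MPb6P

theorem f2_fst_aux (σ : Strat) (ν : List ℕ) : ∀ (P : Pos) (E : List (Option (List ℕ))),
    (ν.foldl (evStep σ) (P, E)).1 = ν.foldl (fun P a => autoP σ (stepP P a)) P := by
  induction ν with
  | nil => intro P E; rfl
  | cons a ν ih =>
    intro P E
    simp only [List.foldl_cons]
    exact ih _ _

theorem f2_fst (σ : Strat) (D : ℕ) (ν : List ℕ) :
    (ν.foldl (evStep σ) (autoP σ (PS.root D, PS.root D), [])).1 = pos σ D ν :=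
  f2_fst_aux σ ν _ _

theorem f2_pos_append (σ : Strat) (D : ℕ) (ν : List ℕ) (a : ℕ) :
    pos σ D (ν ++ [a]) = autoP σ (stepP (pos σ D ν) a) := by
  simp [pos, List.foldl_append]

theorem f2_evs_append (σ : Strat) (D : ℕ) (ν : List ℕ) (a : ℕ) :
    evs σ D (ν ++ [a]) =
      if (side (pos σ D (ν ++ [a])) (pos σ D ν).1.go).go then evs σ D ν
      else evs σ D ν ++
        [(side (stepP (pos σ D ν) a) (pos σ D ν).1.go).todo.head?.map Ent.ad] := by
  rw [f2_pos_append]
  unfold evs
  rw [List.foldl_append]
  simp only [List.foldl_cons, List.foldl_nil]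
  rw [← f2_fst]
  rfl

theorem evs_append (σ : Strat) (D : ℕ) (ν : List ℕ) (a : ℕ) :
    evs σ D (ν ++ [a]) = evs σ D ν ∨ ∃ x, evs σ D (ν ++ [a]) = evs σ D ν ++ [x] := by
  rw [f2_evs_append]
  split_ifs
  · exact Or.inl rfl
  · exact Or.inr ⟨_, rfl⟩

theorem evs_pre {σ : Strat} {D : ℕ} {ν π : List ℕ} (h : ν <+: π) : evs σ D ν <+: evs σ D π := by
  obtain ⟨t, rfl⟩ := h
  induction t using List.reverseRecOn with
  | nil => simp
  | append_singleton t a ih =>
    rw [← List.append_assoc]
    refine ih.trans ?_
    rcases evs_append σ D (ν ++ t) a with h | ⟨x, h⟩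
    · rw [h]
    · rw [h]
      exact List.prefix_append _ _

theorem f2_beg {S : PS} (δ : List ℕ) (h : S.todo ≠ []) :
    (S.beg δ).go = true ∧ (S.beg δ).todo ≠ [] := by
  unfold PS.beg
  cases ht : S.todo with
  | nil => exact absurd ht h
  | cons e r =>
    simp only
    split_ifs <;> simp [ht]

theorem f2_auto {σ : Strat} (hσ : StratOK σ) (P : Pos) :
    autoP σ P = P ∨ ∃ s, P.1.go = false ∧ P.2.go = false ∧ (side P s).todo ≠ [] ∧
      side (autoP σ P) (!s) = side P (!s) ∧ (side (autoP σ P) s).go = true ∧
      (side (autoP σ P) s).todo ≠ [] := by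
  by_cases hc : P.1.go = false ∧ P.2.go = false ∧
      (P.1.todo.isEmpty = false ∨ P.2.todo.isEmpty = false)
  · right
    have h0 : P.1.todo ≠ [] ∨ P.2.todo ≠ [] := by
      rcases hc.2.2 with h | h
      · left
        intro h'
        rw [h'] at h
        exact Bool.noConfusion h
      · right
        intro h'
        rw [h'] at h
        exact Bool.noConfusion h
    obtain ⟨hT, hF⟩ := hσ P h0
    cases hs : (σ P).1 with
    | true =>
      have h2 := hT hs
      obtain ⟨h3, h4⟩ := f2_beg (σ P).2 h2
      have e : autoP σ P = (P.1.beg (σ P).2, P.2) := by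
        unfold autoP
        rw [if_pos hc, if_pos hs]
      refine ⟨true, hc.1, hc.2.1, h2, ?_, ?_, ?_⟩
      · rw [e]; rfl
      · rw [e]; exact h3
      · rw [e]; exact h4
    | false =>
      have h2 := hF hs
      obtain ⟨h3, h4⟩ := f2_beg (σ P).2 h2
      have e : autoP σ P = (P.1, P.2.beg (σ P).2) := by
        unfold autoP
        rw [if_pos hc, if_neg (by rw [hs]; exact Bool.false_ne_true)]
      refine ⟨false, hc.1, hc.2.1, h2, ?_, ?_, ?_⟩
      · rw [e]; rfl
      · rw [e]; exact h3
      · rw [e]; exact h4
  · left
    unfold autoP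
    rw [if_neg hc]

theorem f2_step (P : Pos) (a : ℕ) : side (stepP P a) (!P.1.go) = side P (!P.1.go) := by
  unfold stepP
  cases h : P.1.go <;> simp [side]

theorem f2_tm {σ : Strat} {D : ℕ} {ν : List ℕ} (h : Tm σ D ν) (s : Bool) :
    (side (pos σ D ν) s).go = false := by
  cases s
  · exact h.2
  · exact h.1

theorem f2_hnode {tm : List ℕ → Prop} {ν π : List ℕ} (hπ : CPlay tm Set.univ π)
    (hν : ν <+: π) : HNode tm Set.univ ν := by
  refine ⟨hπ.inc.sublist hν.sublist, fun _ _ => Set.mem_univ _, ?_⟩
  intro μ hμ hne
  refine hπ.first μ (hμ.trans hν) ?_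
  intro h
  apply hne
  refine hμ.eq_of_length_le ?_
  rw [h]
  exact hν.length_le

section
variable {σ : Strat} {D : ℕ} (hD : 1 ≤ D) (hσ : StratOK σ)
  (h1 : (σ (PS.root D, PS.root D)).1 = true)
include hD hσ h1

omit hD hσ in
theorem f2_pos_nil : pos σ D [] = ((PS.root D).beg (σ (PS.root D, PS.root D)).2, PS.root D) := by
  have h : pos σ D [] = autoP σ (PS.root D, PS.root D) := rfl
  rw [h]
  unfold autoP
  rw [if_pos, if_pos h1]
  refine ⟨rfl, rfl, Or.inl rfl⟩

omit hD hσ in
theorem f2_not_tm_nil : ¬ Tm σ D [] := by
  intro h
  have h2 := h.1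
  rw [f2_pos_nil h1] at h2
  have h3 := (f2_beg (S := PS.root D) (σ (PS.root D, PS.root D)).2 (by simp [PS.root])).1
  simp only at h2
  rw [h3] at h2
  exact Bool.noConfusion h2

/-- before the end of the play there is always one more event to come (the last one is recorded
at the end) -/
theorem evs_lt_of_nonterm {ν π : List ℕ} (hπ : CPlay (Tm σ D) Set.univ π) (hν : ν <+: π)
    (hne : ν ≠ π) : (evs σ D ν).length < (evs σ D π).length := by
  obtain ⟨t, rfl⟩ := hν
  rcases List.eq_nil_or_concat t with ht | ⟨t', a, ht⟩
  · subst ht
    simp at hne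
  · have ht' : t = t' ++ [a] := by simpa using ht
    subst ht'
    rw [← List.append_assoc] at hπ ⊢
    rw [f2_evs_append, if_neg (by rw [f2_tm hπ.term]; exact Bool.false_ne_true)]
    have h2 := (evs_pre (σ := σ) (D := D) (List.prefix_append ν t')).length_le
    rw [List.length_append, List.length_singleton]
    omega

/-- invariant of the nodes before the end -/
structure f2_J (σ : Strat) (D : ℕ) (ν : List ℕ) : Prop where
  cuts : ∀ i, i + 1 < (evs σ D ν).length →
    ∃ a, (evs σ D ν)[i]? = some (some a) ∧ a.length = D
  zero : evs σ D ν = [] → (side (pos σ D ν) (!(pos σ D ν).1.go)).todo ≠ []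
  last : ∀ n, (evs σ D ν).length = n + 1 →
    ((side (pos σ D ν) (!(pos σ D ν).1.go)).todo = [] ∧ (evs σ D ν)[n]? = some none) ∨
    ((side (pos σ D ν) (!(pos σ D ν).1.go)).todo ≠ [] ∧
      ∃ a, (evs σ D ν)[n]? = some (some a) ∧ a.length = D)

theorem f2_inv : ∀ ν : List ℕ, HNode (Tm σ D) Set.univ ν → ¬ Tm σ D ν → f2_J σ D ν := by
  intro ν
  induction ν using List.reverseRecOn with
  | nil =>
    intro _ _
    have hp := f2_pos_nil (σ := σ) (D := D) h1
    have hgo : ((PS.root D).beg (σ (PS.root D, PS.root D)).2).go = true :=
      (f2_beg (S := PS.root D) (σ (PS.root D, PS.root D)).2 (by simp [PS.root])).1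
    refine ⟨?_, ?_, ?_⟩
    · intro i hi
      simp [evs] at hi
    · intro _
      rw [hp]
      simp only [hgo]
      simp [side, PS.root]
    · intro n hn
      simp [evs] at hn
  | append_singleton ν a ih =>
    intro hN hT
    have hν : HNode (Tm σ D) Set.univ ν := by
      refine ⟨hN.inc.sublist (List.sublist_append_left _ _), fun _ _ => Set.mem_univ _, ?_⟩
      intro μ hμ hne
      refine hN.first μ (hμ.trans (List.prefix_append _ _)) ?_
      intro h
      have := hμ.length_le
      rw [h] at this
      simp at this
    have hTν : ¬ Tm σ D ν := by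
      refine hN.first ν (List.prefix_append _ _) ?_
      intro h
      have := congrArg List.length h
      simp at this
    have J := ih hν hTν
    have NIν := nodeInv hD hσ h1 hν
    have NIa := nodeInv hD hσ h1 hN
    set P := pos σ D ν with hP
    set s := P.1.go with hs
    have hPa : pos σ D (ν ++ [a]) = autoP σ (stepP P a) := f2_pos_append σ D ν a
    have hst : side (stepP P a) (!s) = side P (!s) := f2_step P a
    -- states at `ν`
    have hgo_s : (side P s).go = true := by
      have h2 := NIν.act hTν true
      rw [← hP] at h2
      have h3 : side P true = P.1 := rfl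
      have h4 : side P false = P.2 := rfl
      simp only [Bool.not_true] at h2
      rw [h3, h4] at h2
      cases hs' : s with
      | true => rw [h3, ← hs, hs']
      | false =>
        rw [h4]
        rw [← hs, hs'] at h2
        cases h5 : P.2.go with
        | true => rfl
        | false => rw [h5] at h2; exact Bool.noConfusion h2
    have hgo_o : (side P (!s)).go = false := by
      have h2 := NIν.act hTν s
      rw [← hP, hgo_s] at h2
      cases h5 : (side P (!s)).go with
      | false => rfl
      | true => rw [h5] at h2; exact Bool.noConfusion h2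
    have hact := NIa.act hT
    have hevs := f2_evs_append σ D ν a
    rw [← hP, ← hs] at hevs
    set Q := pos σ D (ν ++ [a]) with hQ
    have hQgo : ∀ u : Bool, (side Q u).go = true → Q.1.go = u := by
      intro u hu
      cases u with
      | true => exact hu
      | false =>
        have h2 := hact false
        rw [hu] at h2
        have h3 : (side Q (!false)) = Q.1 := rfl
        rw [h3] at h2
        cases h5 : Q.1.go with
        | false => rfl
        | true => rw [h5] at h2; exact Bool.noConfusion h2
    cases hc : (side Q s).go with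
    | true =>
      rw [if_pos hc] at hevs
      have hQs : Q.1.go = s := hQgo s hc
      have ho : side Q (!s) = side P (!s) := by
        rcases f2_auto hσ (stepP P a) with h | ⟨u, hu1, hu2, hu3, hu4, hu5, hu6⟩
        · rw [hPa, h, hst]
        · rw [← hPa] at hu4 hu5 hu6
          have hus : u = s := by
            have h2 := hQgo u hu5
            rw [hQs] at h2
            exact h2.symm
          rw [hus] at hu4
          rw [hu4, hst]
      refine ⟨?_, ?_, ?_⟩
      · rw [hevs]; exact J.cuts
      · rw [hevs, ← hQ, hQs, ho]; exact J.zero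
      · rw [hevs, ← hQ, hQs, ho]; exact J.last
    | false =>
      rw [if_neg (by rw [hc]; exact Bool.false_ne_true)] at hevs
      have hoc : (side Q (!s)).go = true := by
        have h2 := hact s
        rw [hc] at h2
        cases h5 : (side Q (!s)).go with
        | true => rfl
        | false => rw [h5] at h2; exact Bool.noConfusion h2
      have hQs : Q.1.go = !s := hQgo (!s) hoc
      obtain ⟨hto, hss⟩ : (side P (!s)).todo ≠ [] ∧ side Q s = side (stepP P a) s := by
        rcases f2_auto hσ (stepP P a) with h | ⟨u, hu1, hu2, hu3, hu4, hu5, hu6⟩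
        · exfalso
          rw [hPa, h, hst, hgo_o] at hoc
          exact Bool.noConfusion hoc
        · rw [← hPa] at hu4 hu5 hu6
          have hus : u = !s := by
            have h2 := hQgo u hu5
            rw [hQs] at h2
            exact h2.symm
          subst hus
          rw [hst] at hu3
          rw [Bool.not_not] at hu4
          exact ⟨hu3, hu4⟩
      rw [← hss] at hevs
      -- the new event
      have hx : ((side Q s).todo = [] ∧ (side Q s).todo.head?.map Ent.ad = none) ∨
          ((side Q s).todo ≠ [] ∧ ∃ b, (side Q s).todo.head?.map Ent.ad = some b ∧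
            b.length = D) := by
        rcases NIa.rest s hc with h | ⟨e, r, he, he0, _⟩ | ⟨_, h, _⟩
        · left
          rw [← hQ] at h
          rw [h]
          exact ⟨rfl, rfl⟩
        · right
          rw [← hQ] at he
          have h5 := NIa.lvl s e (by rw [← hQ, he]; exact List.mem_cons_self)
          rw [he]
          refine ⟨List.cons_ne_nil _ _, e.ad, rfl, ?_⟩
          omega
        · exfalso
          rw [hevs] at h
          simp at h
      refine ⟨?_, ?_, ?_⟩
      · intro i hi
        rw [hevs] at hi ⊢
        rw [List.length_append, List.length_singleton] at hi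
        rw [List.getElem?_append_left (by omega)]
        rcases lt_or_eq_of_le (show i + 1 ≤ (evs σ D ν).length by omega) with h | h
        · exact J.cuts i h
        · rcases J.last i h.symm with h' | h'
          · exact absurd h'.1 hto
          · exact h'.2
      · intro h
        rw [hevs] at h
        simp at h
      · intro n hn
        rw [hevs] at hn ⊢
        rw [List.length_append, List.length_singleton] at hn
        have hn' : n = (evs σ D ν).length := by omega
        subst hn'
        rw [← hQ, hQs, Bool.not_not, List.getElem?_concat_length]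
        rcases hx with ⟨h2, h3⟩ | ⟨h2, b, h3, h4⟩
        · left
          exact ⟨h2, by rw [h3]⟩
        · right
          exact ⟨h2, b, by rw [h3], h4⟩

/-- F3. The events of a complete play: cuts, and at the end the two finishes. (A player with a
`none` event has finished and never becomes active again; the other player then plays to the end
without events. If the last but one event were a cut, its player would not be finished.) -/
theorem evs_complete {π : List ℕ} (hπ : CPlay (Tm σ D) Set.univ π) :
    2 ≤ (evs σ D π).length ∧
    (∀ i, i + 2 < (evs σ D π).length → ∃ a, (evs σ D π)[i]? = some (some a) ∧ a.length = D) ∧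
    (∀ i < (evs σ D π).length, (evs σ D π).length ≤ i + 2 → (evs σ D π)[i]? = some none) := by
  rcases List.eq_nil_or_concat π with h | ⟨ν, a, h⟩
  · subst h
    exact absurd hπ.term (f2_not_tm_nil h1)
  · have h' : π = ν ++ [a] := by simpa using h
    subst h'
    have hν : HNode (Tm σ D) Set.univ ν := f2_hnode hπ (List.prefix_append _ _)
    have hN : HNode (Tm σ D) Set.univ (ν ++ [a]) := f2_hnode hπ (List.prefix_rfl)
    have hTν : ¬ Tm σ D ν := by
      refine hπ.first ν (List.prefix_append _ _) ?_
      intro h
      have := congrArg List.length h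
      simp at this
    have J := f2_inv hD hσ h1 ν hν hTν
    have NIa := nodeInv hD hσ h1 hN
    have hevs := f2_evs_append σ D ν a
    rw [if_neg (by rw [f2_tm hπ.term]; exact Bool.false_ne_true)] at hevs
    have hPa : pos σ D (ν ++ [a]) = autoP σ (stepP (pos σ D ν) a) := f2_pos_append σ D ν a
    have hst := f2_step (pos σ D ν) a
    set P := pos σ D ν with hP
    set s := P.1.go with hs
    have hfin := NIa.fin hπ.term
    have hid : autoP σ (stepP P a) = stepP P a := by
      rcases f2_auto hσ (stepP P a) with h | ⟨u, hu1, hu2, hu3, hu4, hu5, hu6⟩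
      · exact h
      · exfalso
        rw [← hPa] at hu6
        exact hu6 (hfin u)
    rw [hid] at hPa
    rw [hPa] at hfin
    have ho : (side P (!s)).todo = [] := by
      rw [← hst]
      exact hfin (!s)
    rw [hfin s] at hevs
    have hne : evs σ D ν ≠ [] := fun h => J.zero h ho
    obtain ⟨n, hn⟩ : ∃ n, (evs σ D ν).length = n + 1 := by
      refine ⟨(evs σ D ν).length - 1, ?_⟩
      have := List.length_pos_iff.mpr hne
      omega
    have hl : (evs σ D ν)[n]? = some none := by
      rcases J.last n hn with h | h
      · exact h.2
      · exact absurd ho h.1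
    rw [hevs]
    refine ⟨?_, ?_, ?_⟩
    · rw [List.length_append, List.length_singleton]
      omega
    · intro i hi
      rw [List.length_append, List.length_singleton] at hi
      rw [List.getElem?_append_left (by omega)]
      exact J.cuts i (by omega)
    · intro i hi hi2
      rw [List.length_append, List.length_singleton] at hi hi2
      rcases lt_or_eq_of_le (show i ≤ n + 1 by omega) with h | h
      · have : i = n := by omega
        subst this
        rw [List.getElem?_append_left (by omega)]
        exact hl
      · have h3 : i = (evs σ D ν).length := by omega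
        rw [h3, List.getElem?_concat_length]
        rfl

end

end MPb6P
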