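import Pool.Agent.Lib.MP_b6d339_lc.Pos.FDefs
import Pool.Agent.Lib.MP_b6d339_lc.Pos.F1
import Pool.Agent.Lib.MP_b6d339_lc.Pos.F2

/-!
# Erdős 592, positive side: future cuts
-/

open Filter Ordinal

namespace MPb6P

theorem f2b_fst (σ : Strat) (D : ℕ) (ν : List ℕ) :
    (ν.foldl (evStep σ) (autoP σ (PS.root D, PS.root D), [])).1 = pos σ D ν := by
  induction ν using List.reverseRecOn with
  | nil => rfl
  | append_singleton ν a ih =>
    rw [List.foldl_append, pos, List.foldl_append]
    change autoP σ (stepP _ a) = autoP σ (stepP _ a)
    rw [ih]
    rfl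

theorem f2b_pos (σ : Strat) (D : ℕ) (ν : List ℕ) (a : ℕ) :
    pos σ D (ν ++ [a]) = autoP σ (stepP (pos σ D ν) a) := by
  rw [pos, List.foldl_append]
  rfl

theorem f2b_evs (σ : Strat) (D : ℕ) (ν : List ℕ) (a : ℕ) :
    evs σ D (ν ++ [a]) = if (side (autoP σ (stepP (pos σ D ν) a)) (pos σ D ν).1.go).go then
      evs σ D ν else evs σ D ν ++ [(side (stepP (pos σ D ν) a) (pos σ D ν).1.go).todo.head?.map Ent.ad] := by
  rw [evs, List.foldl_append]
  change (evStep σ _ a).2 = _
  rw [evStep]
  simp only [f2b_fst]
  rfl

/-- every designated entry has a designated ancestor -/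
def f2bAnc (T T' : List Ent) : Prop :=
  ∀ e' ∈ T', e'.ds = true → ∃ e ∈ T, e.ds = true ∧ e.ad <+: e'.ad

theorem f2bAnc.refl (T : List Ent) : f2bAnc T T := fun e he hd => ⟨e, he, hd, List.prefix_refl _⟩

theorem f2bAnc.trans {T T' T'' : List Ent} (h : f2bAnc T T') (h' : f2bAnc T' T'') : f2bAnc T T'' := by
  intro e he hd
  obtain ⟨e1, he1, hd1, hp1⟩ := h' e he hd
  obtain ⟨e2, he2, hd2, hp2⟩ := h e1 he1 hd1
  exact ⟨e2, he2, hd2, hp2.trans hp1⟩

theorem f2b_norm_todo (S : PS) : S.norm.todo = S.todo := by
  unfold PS.norm
  split
  · simp
  · split <;> simp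

theorem f2b_norm_go (S : PS) (hg : S.go = true) (h : S.norm.go = false) {e : Ent}
    (he : S.todo.head? = some e) : e.ds = true := by
  unfold PS.norm at h
  split at h
  · rename_i h1
    rw [h1] at he
    simp at he
  · rename_i e1 r1 h1
    rw [h1] at he
    simp only [List.head?_cons, Option.some.injEq] at he
    subst he
    split at h
    · rename_i h2
      exact h2.2
    · rw [hg] at h
      exact absurd h (by simp)

theorem f2b_mem_subs {l : ℕ} {ad : List ℕ} {P : List ℕ} {a : ℕ} {e : Ent} (h : e ∈ subs l ad P a) :
    ad <+: e.ad ∧ (P = [] → e.ds = false) := by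
  unfold subs at h
  rw [List.mem_map] at h
  obtain ⟨i, _, rfl⟩ := h
  refine ⟨List.prefix_append _ _, ?_⟩
  rintro rfl
  simp

theorem f2b_draw_anc (S : PS) (a : ℕ) : f2bAnc S.todo (S.draw a).todo := by
  unfold PS.draw
  split
  · rename_i h1
    rw [h1]
    exact f2bAnc.refl _
  · rename_i e r h1
    rw [h1]
    split
    · rw [f2b_norm_todo]
      intro e' he' hd'
      exact ⟨e', List.mem_cons_of_mem _ he', hd', List.prefix_refl _⟩
    · split
      · rename_i hds
        split
        · exact f2bAnc.refl _
        · rw [f2b_norm_todo]
          intro e' he' hd'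
          rcases List.mem_append.1 he' with h2 | h2
          · exact ⟨e, List.mem_cons_self, hds, (f2b_mem_subs h2).1⟩
          · exact ⟨e', List.mem_cons_of_mem _ h2, hd', List.prefix_refl _⟩
      · rw [f2b_norm_todo]
        intro e' he' hd'
        rcases List.mem_append.1 he' with h2 | h2
        · rw [(f2b_mem_subs h2).2 rfl] at hd'
          exact absurd hd' (by simp)
        · exact ⟨e', List.mem_cons_of_mem _ h2, hd', List.prefix_refl _⟩

theorem f2b_draw_go (S : PS) (a : ℕ) (hg : S.go = true) (h : (S.draw a).go = false) {e : Ent}
    (he : (S.draw a).todo.head? = some e) : e.ds = true := by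
  unfold PS.draw at h he
  split at h
  · rw [hg] at h
    exact absurd h (by simp)
  · rename_i e1 r h1
    split at h
    · rename_i h2
      simp only [h1, h2, if_true] at he
      rw [f2b_norm_todo] at he
      exact f2b_norm_go _ (by exact hg) h he
    · rename_i h2
      simp only [h1, if_neg h2] at he
      split at h
      · rename_i h3
        simp only [h3, if_true] at he
        split at h
        · rw [hg] at h
          exact absurd h (by simp)
        · rename_i h4
          simp only [if_neg h4] at he
          rw [f2b_norm_todo] at he
          exact f2b_norm_go _ (by exact hg) h he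
      · rename_i h3
        simp only [if_neg h3] at he
        rw [f2b_norm_todo] at he
        exact f2b_norm_go _ (by exact hg) h he

theorem f2b_beg_anc (S : PS) (δ : List ℕ) : f2bAnc S.todo (S.beg δ).todo := by
  unfold PS.beg
  split
  · rename_i h1
    rw [h1]
    exact f2bAnc.refl _
  · rename_i e r h1
    rw [h1]
    split
    · intro e' he' hd'
      rcases List.mem_cons.1 he' with rfl | h2
      · exact absurd hd' (by simp)
      · exact ⟨e', List.mem_cons_of_mem _ h2, hd', List.prefix_refl _⟩
    · exact f2bAnc.refl _

theorem f2b_step_anc (P : Pos) (a : ℕ) (s : Bool) :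
    f2bAnc (side P s).todo (side (stepP P a) s).todo := by
  unfold stepP
  cases s <;> simp only [side, if_true, Bool.false_eq_true, if_false] <;> split
  · exact f2bAnc.refl _
  · exact f2b_draw_anc _ _
  · exact f2b_draw_anc _ _
  · exact f2bAnc.refl _

theorem f2b_auto_anc (σ : Strat) (P : Pos) (s : Bool) :
    f2bAnc (side P s).todo (side (autoP σ P) s).todo := by
  unfold autoP
  split
  · split
    · cases s
      · exact f2bAnc.refl _
      · exact f2b_beg_anc _ _
    · cases s
      · exact f2b_beg_anc _ _
      · exact f2bAnc.refl _
  · exact f2bAnc.refl _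

theorem f2b_auto_go (σ : Strat) (P : Pos) (s : Bool) (h : (side (autoP σ P) s).go = false) :
    (side P s).go = false := by
  unfold autoP at h
  split at h
  · rename_i h1
    cases s
    · exact h1.2.1
    · exact h1.1
  · exact h

theorem f2b_anc (σ : Strat) (D : ℕ) (ν t : List ℕ) (s : Bool) :
    f2bAnc (side (pos σ D ν) s).todo (side (pos σ D (ν ++ t)) s).todo := by
  induction t using List.reverseRecOn with
  | nil =>
    rw [List.append_nil]
    exact f2bAnc.refl _
  | append_singleton t a ih =>
    rw [← List.append_assoc, f2b_pos]
    exact (ih.trans (f2b_step_anc _ a s)).trans (f2b_auto_anc σ _ s)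

theorem f2b_hnode {tm : List ℕ → Prop} {ν π : List ℕ} (hπ : CPlay tm Set.univ π) (hν : ν <+: π) :
    HNode tm Set.univ ν where
  inc := hπ.inc.sublist hν.sublist
  mem := fun _ _ => Set.mem_univ _
  first := by
    intro μ hμ hne
    refine hπ.first μ (hμ.trans hν) ?_
    rintro rfl
    exact hne (hμ.eq_of_length_le hν.length_le)

section
variable {σ : Strat} {D : ℕ} (hD : 1 ≤ D) (hσ : StratOK σ)
  (h1 : (σ (PS.root D, PS.root D)).1 = true)
include hD hσ h1

/-- F5. Future cuts are inside designated entries of the present to-do list. (Induction on `π`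
from the node `ν`; undesignated entries only have undesignated sub-entries; if the player is at rest
at `ν`, he has to begin before his next cut, and then the bottom entry at the head is
undesignated.) -/
theorem evs_future {ν π : List ℕ} (hπ : CPlay (Tm σ D) Set.univ π) (hν : ν <+: π) {i : ℕ}
    {a : List ℕ} (hi : (evs σ D ν).length ≤ i) (ha : (evs σ D π)[i]? = some (some a)) :
    ∃ e ∈ (side (pos σ D ν) (decide (i % 2 = 0))).todo, e.ds = true ∧ e.ad <+: a := by
  obtain ⟨t, ht⟩ := hν
  have key : ∀ t : List ℕ, ν ++ t <+: π → (evs σ D (ν ++ t))[i]? = some (some a) →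
      ∃ e ∈ (side (pos σ D ν) (decide (i % 2 = 0))).todo, e.ds = true ∧ e.ad <+: a := by
    intro t
    induction t using List.reverseRecOn with
    | nil =>
      intro _ h
      rw [List.append_nil, List.getElem?_eq_none hi] at h
      exact absurd h (by simp)
    | append_singleton t x ih =>
      intro hp h
      rw [← List.append_assoc] at hp h
      have hp' : ν ++ t <+: π := (List.prefix_append _ _).trans hp
      have hne : ν ++ t ≠ π := by
        intro h2
        have h3 := hp.length_le
        rw [← h2] at h3
        simp at h3
      rw [f2b_evs] at h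
      split at h
      · exact ih hp' h
      · rename_i hgo
        by_cases hlt : i < (evs σ D (ν ++ t)).length
        · rw [List.getElem?_append_left hlt] at h
          exact ih hp' h
        · rw [List.getElem?_append_right (by omega)] at h
          have hi2 : i = (evs σ D (ν ++ t)).length := by
            by_contra h4
            have h5 : 1 ≤ i - (evs σ D (ν ++ t)).length := by omega
            rw [List.getElem?_eq_none (by simpa using h5)] at h
            exact absurd h (by simp)
          have hI := nodeInv hD hσ h1 (f2b_hnode hπ hp')
          have hT : ¬ Tm σ D (ν ++ t) := hπ.first _ hp' hne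
          have hpar := hI.par hT
          rw [← hi2] at hpar
          have hact := hI.act hT
          set P := pos σ D (ν ++ t) with hP
          have hgo1 : (side P P.1.go).go = true := by
            cases hg : P.1.go with
            | true => simpa [side] using hg
            | false =>
              have h6 := hact false
              simp [side, hg] at h6
              simpa [side] using h6
          have hgo2 : (side (stepP P x) P.1.go).go = false := by
            refine f2b_auto_go σ _ _ ?_
            simpa using hgo
          rw [show i - (evs σ D (ν ++ t)).length = 0 by omega] at h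
          simp only [List.getElem?_cons_zero, Option.some.injEq, Option.map_eq_some_iff] at h
          obtain ⟨e, he, rfl⟩ := h
          have hds : e.ds = true := by
            have h7 : side (stepP P x) P.1.go = (side P P.1.go).draw x := by
              unfold stepP
              cases P.1.go <;> simp [side]
            rw [h7] at hgo2 he
            exact f2b_draw_go _ x hgo1 hgo2 he
          have hmem : e ∈ (side (stepP P x) P.1.go).todo := List.mem_of_mem_head? (by simp [he])
          have hanc := (f2b_anc σ D ν t P.1.go).trans (f2b_step_anc P x P.1.go)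
          rw [← hpar]
          exact hanc e hmem hds
  exact key t (ht ▸ List.prefix_refl _) (ht ▸ ha)

end

end MPb6P
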