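import Pool.Agent.Lib.MP_b6d339_lc.Pos.FDefs
import Pool.Agent.Lib.MP_b6d339_lc.Pos.F1
import Pool.Agent.Lib.MP_b6d339_lc.Pos.F2
import Pool.Agent.Lib.MP_b6d339_lc.Pos.F2b

/-!
# Erdős 592, positive side: order of the cuts, words
-/

open Filter Ordinal

namespace MPb6P

/-- the node at which the event `i` is recorded -/
theorem f2c_node (σ : Strat) (D : ℕ) (w : List ℕ) : ∀ (i : ℕ) (z : Option (List ℕ)),
    (evs σ D w)[i]? = some z → ∃ μ x, μ ++ [x] <+: w ∧ (evs σ D μ).length = i ∧
      (side (autoP σ (stepP (pos σ D μ) x)) (pos σ D μ).1.go).go = false ∧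
      z = (side (stepP (pos σ D μ) x) (pos σ D μ).1.go).todo.head?.map Ent.ad := by
  induction w using List.reverseRecOn with
  | nil =>
    intro i z h
    simp [evs] at h
  | append_singleton w x ih =>
    intro i z h
    rw [f2b_evs] at h
    split at h
    · obtain ⟨μ, y, h1, h2⟩ := ih i z h
      exact ⟨μ, y, h1.trans (List.prefix_append _ _), h2⟩
    · rename_i hgo
      by_cases hlt : i < (evs σ D w).length
      · rw [List.getElem?_append_left hlt] at h
        obtain ⟨μ, y, h1, h2⟩ := ih i z h
        exact ⟨μ, y, h1.trans (List.prefix_append _ _), h2⟩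
      · rw [List.getElem?_append_right (by omega)] at h
        have hi2 : i = (evs σ D w).length := by
          by_contra h4
          have h5 : 1 ≤ i - (evs σ D w).length := by omega
          rw [List.getElem?_eq_none (by simpa using h5)] at h
          exact absurd h (by simp)
        rw [show i - (evs σ D w).length = 0 by omega] at h
        simp only [List.getElem?_cons_zero, Option.some.injEq] at h
        exact ⟨w, x, List.prefix_refl _, hi2.symm, by simpa using hgo, h.symm⟩

theorem f2c_auto (σ : Strat) (P : Pos) (s : Bool) :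
    side (autoP σ P) s = side P s ∨ ∃ δ, side (autoP σ P) s = (side P s).beg δ := by
  unfold autoP
  split
  · split
    · cases s
      · exact Or.inl rfl
      · exact Or.inr ⟨_, rfl⟩
    · cases s
      · exact Or.inr ⟨_, rfl⟩
      · exact Or.inl rfl
  · exact Or.inl rfl

theorem f2c_norm_lv (S : PS) (hg : S.go = true) (h : S.norm.go = false) {e : Ent}
    (he : S.todo.head? = some e) : e.lv = 0 := by
  unfold PS.norm at h
  split at h
  · rename_i h1
    rw [h1] at he
    simp at he
  · rename_i e1 r1 h1
    rw [h1] at he
    simp only [List.head?_cons, Option.some.injEq] at he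
    subst he
    split at h
    · rename_i h2
      exact h2.1
    · rw [hg] at h
      exact absurd h (by simp)

theorem f2c_draw_lv (S : PS) (a : ℕ) (hg : S.go = true) (h : (S.draw a).go = false) {e : Ent}
    (he : (S.draw a).todo.head? = some e) : e.lv = 0 := by
  unfold PS.draw at h he
  split at h
  · rw [hg] at h
    exact absurd h (by simp)
  · rename_i e1 r h1
    split at h
    · rename_i h2
      simp only [h1, h2, if_true] at he
      rw [f2b_norm_todo] at he
      exact f2c_norm_lv _ (by exact hg) h he
    · rename_i h2
      simp only [h1, if_neg h2] at he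
      split at h
      · rename_i h3
        simp only [h3, if_true] at he
        split at h
        · rw [hg] at h
          exact absurd h (by simp)
        · rename_i h4
          simp only [if_neg h4] at he
          rw [f2b_norm_todo] at he
          exact f2c_norm_lv _ (by exact hg) h he
      · rename_i h3
        simp only [if_neg h3] at he
        rw [f2b_norm_todo] at he
        exact f2c_norm_lv _ (by exact hg) h he

section
variable {σ : Strat} {D : ℕ} (hD : 1 ≤ D) (hσ : StratOK σ)
  (h1 : (σ (PS.root D, PS.root D)).1 = true)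
include hD hσ h1

/-- the data of a cut -/
theorem f2c_cut {π : List ℕ} (hπ : CPlay (Tm σ D) Set.univ π) {i : ℕ} {a : List ℕ}
    (ha : (evs σ D π)[i]? = some (some a)) :
    ∃ μ x, μ ++ [x] <+: π ∧ (evs σ D μ).length = i ∧ (evs σ D (μ ++ [x])).length = i + 1 ∧
      ∃ e r, e.ad = a ∧ e.lv = 0 ∧ e.ds = true ∧
      (side (stepP (pos σ D μ) x) (decide (i % 2 = 0))).todo = e :: r ∧
      (side (pos σ D μ) (decide (i % 2 = 0))).go = true ∧
      side (pos σ D (μ ++ [x])) (decide (i % 2 = 0)) =
        side (stepP (pos σ D μ) x) (decide (i % 2 = 0)) ∧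
      (side (pos σ D (μ ++ [x])) (decide (i % 2 = 0))).go = false := by
  obtain ⟨μ, x, hp, hl, hgo, hz⟩ := f2c_node σ D π i (some a) ha
  have hp' : μ <+: π := (List.prefix_append _ _).trans hp
  have hne : μ ≠ π := by
    intro h2
    have h3 := hp.length_le
    rw [← h2] at h3
    simp at h3
  have hI := nodeInv hD hσ h1 (f2b_hnode hπ hp')
  have hT : ¬ Tm σ D μ := hπ.first _ hp' hne
  have hpar := hI.par hT
  rw [hl] at hpar
  have hact := hI.act hT
  have hevs := f2b_evs σ D μ x
  rw [if_neg (by rw [hgo]; simp)] at hevs
  rw [← hpar]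
  refine ⟨μ, x, hp, hl, by rw [hevs]; simp [hl], ?_⟩
  rw [f2b_pos]
  set P := pos σ D μ with hP
  have hgo1 : (side P P.1.go).go = true := by
    cases hg : P.1.go with
    | true => simpa [side] using hg
    | false =>
      have h6 := hact false
      simp [side, hg] at h6
      simpa [side] using h6
  have hgo2 : (side (stepP P x) P.1.go).go = false := f2b_auto_go σ _ _ hgo
  have hz' := hz.symm
  simp only [Option.map_eq_some_iff] at hz'
  obtain ⟨e, he, rfl⟩ := hz'
  have h7 : side (stepP P x) P.1.go = (side P P.1.go).draw x := by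
    unfold stepP
    cases P.1.go <;> simp [side]
  have hds : e.ds = true := by
    rw [h7] at hgo2 he
    exact f2b_draw_go _ x hgo1 hgo2 he
  have hlv : e.lv = 0 := by
    rw [h7] at hgo2 he
    exact f2c_draw_lv _ x hgo1 hgo2 he
  obtain ⟨r, hr⟩ : ∃ r, (side (stepP P x) P.1.go).todo = e :: r := by
    cases h8 : (side (stepP P x) P.1.go).todo with
    | nil => rw [h8] at he; simp at he
    | cons e1 r =>
      rw [h8] at he
      simp only [List.head?_cons, Option.some.injEq] at he
      exact ⟨r, by rw [he]⟩
  refine ⟨e, r, rfl, hlv, hds, hr, hgo1, ?_, hgo⟩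
  rcases f2c_auto σ (stepP P x) P.1.go with h9 | ⟨δ, h9⟩
  · exact h9
  · exfalso
    rw [h9] at hgo
    unfold PS.beg at hgo
    rw [hr] at hgo
    simp only [hlv, if_true] at hgo
    exact absurd hgo (by simp)

/-- F4. The addresses of the cuts of one player increase. -/
theorem evs_lt {π : List ℕ} (hπ : CPlay (Tm σ D) Set.univ π) {i j : ℕ} {a b : List ℕ}
    (hij : i < j) (hpar : i % 2 = j % 2) (ha : (evs σ D π)[i]? = some (some a))
    (hb : (evs σ D π)[j]? = some (some b)) : a < b := by
  obtain ⟨μ, x, hp, hl, hl1, e, r, rfl, hlv, hds, hr, hg, hs, hg'⟩ := f2c_cut hD hσ h1 hπ ha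
  obtain ⟨μ', x', hp', hl', hl1', e', r', rfl, hlv', hds', hr', hgj, hs', -⟩ :=
    f2c_cut hD hσ h1 hπ hb
  rw [← hpar] at hr' hgj hs'
  set s := decide (i % 2 = 0) with hsdef
  -- `μ ++ [x]` is a prefix of `μ'`
  have hpre : μ ++ [x] <+: μ' := by
    have h2 : μ' <+: π := (List.prefix_append _ _).trans hp'
    rcases List.prefix_or_prefix_of_prefix hp h2 with h3 | h3
    · exact h3
    · have h4 := (evs_pre (σ := σ) (D := D) h3).length_le
      rw [hl1, hl'] at h4
      have h5 : j = i + 1 := by omega
      omega
  obtain ⟨t, ht⟩ := hpre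
  have hI := nodeInv hD hσ h1 (f2b_hnode hπ hp)
  have hS0 : (side (pos σ D (μ ++ [x])) s).todo = e :: r := by rw [hs, hr]
  have hord := hI.ord s
  rw [hS0, List.map_cons, List.pairwise_cons] at hord
  have inv : ∀ t : List ℕ, (μ ++ [x]) ++ t <+: π →
      side (pos σ D ((μ ++ [x]) ++ t)) s = side (pos σ D (μ ++ [x])) s ∨
      f2bAnc r (side (pos σ D ((μ ++ [x]) ++ t)) s).todo := by
    intro t
    induction t using List.reverseRecOn with
    | nil =>
      intro _
      rw [List.append_nil]
      exact Or.inl rfl
    | append_singleton t y ih =>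
      intro hp2
      rw [← List.append_assoc] at hp2 ⊢
      have hp3 : (μ ++ [x]) ++ t <+: π := (List.prefix_append _ _).trans hp2
      have hne : (μ ++ [x]) ++ t ≠ π := by
        intro h2
        have h3 := hp2.length_le
        rw [← h2] at h3
        simp at h3
      have hT := hπ.first _ hp3 hne
      have hI2 := nodeInv hD hσ h1 (f2b_hnode hπ hp3)
      rw [f2b_pos]
      rcases ih hp3 with h2 | h2
      · have hact := hI2.act hT s
        set P := pos σ D ((μ ++ [x]) ++ t) with hP
        have h3 : side (stepP P y) s = side P s := by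
          have h4 : (side P s).go = false := by rw [h2]; exact hg'
          rw [h4] at hact
          unfold stepP
          cases hs1 : s with
          | true =>
            rw [hs1] at h4
            simp only [side, if_true] at h4
            simp [side, h4]
          | false =>
            rw [hs1] at hact
            simp only [side, Bool.not_false, if_true] at hact
            have h5 : P.1.go = true := by
              cases h6 : P.1.go with
              | true => rfl
              | false => rw [h6] at hact; simp at hact
            simp [side, h5]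
        rcases f2c_auto σ (stepP P y) s with h4 | ⟨δ, h4⟩
        · left
          rw [h4, h3, h2]
        · right
          rw [h4, h3, h2]
          unfold PS.beg
          rw [hS0]
          simp only [hlv, if_true]
          intro e2 he2 hd2
          rcases List.mem_cons.1 he2 with rfl | h5
          · exact absurd hd2 (by simp)
          · exact ⟨e2, h5, hd2, List.prefix_refl _⟩
      · right
        exact (h2.trans (f2b_step_anc _ y s)).trans (f2b_auto_anc σ _ s)
  have h2 := inv t (by rw [ht]; exact (List.prefix_append _ _).trans hp')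
  rw [ht] at h2
  rcases h2 with h2 | h2
  · rw [h2, hg'] at hgj
    exact absurd hgj (by simp)
  · have h3 := h2.trans (f2b_step_anc (pos σ D μ') x' s)
    obtain ⟨e2, he2, hd2, hp2⟩ := h3 e' (by rw [hr']; exact List.mem_cons_self) hds'
    have h4 : LL e.ad e2.ad := hord.1 _ (List.mem_map_of_mem he2)
    exact (h4.extend (List.prefix_refl _) hp2).lt

/-- F6. -/
theorem wrd_valid {π : List ℕ} (hπ : CPlay (Tm σ D) Set.univ π) :
    Valid D (wrd D (evs σ D π)) := by
  obtain ⟨hc1, hc2, hc3⟩ := evs_complete hD hσ h1 hπ
  have hlen : (wrd D (evs σ D π)).length = (evs σ D π).length := by simp [wrd]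
  have hget : ∀ i < (evs σ D π).length,
      (wrd D (evs σ D π)).getD i 0 = cls D (evs σ D π) i := by
    intro i hi
    simp [wrd, List.getD_eq_getElem?_getD, List.getElem?_map, List.getElem?_range hi]
  refine ⟨by rw [hlen]; exact hc1, ?_⟩
  intro i hi
  rw [hlen] at hi ⊢
  rw [hget i hi]
  constructor
  · intro h
    unfold cls
    split
    · rfl
    · rename_i h2
      have h3 := hc3 i hi (by omega)
      rw [h3]
      split
      · rename_i h4
        simp at h4
      · rfl
  · intro h2 h3
    obtain ⟨a, ha, hla⟩ := hc2 (i - 2) (by omega)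
    obtain ⟨b, hb, hlb⟩ := hc2 i h3
    have hlt : a < b := evs_lt hD hσ h1 hπ (i := i - 2) (j := i) (by omega) (by omega) ha hb
    have hcpl : cpl a b < D := cpl_lt hla hlb (ne_of_lt hlt)
    have h4 : cls D (evs σ D π) i = D - cpl a b := by
      unfold cls
      rw [if_neg (by omega), ha, hb]
      rfl
    rw [h4]
    omega

end

end MPb6P
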