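import Pool.Agent.Lib.MP_b6d339_lc.Pos.FDefs
import Pool.Agent.Lib.MP_b6d339_lc.Pos.F1
import Pool.Agent.Lib.MP_b6d339_lc.Pos.F2

/-!
# Erdős 592, positive side: one physical step in one view
-/

open Filter Ordinal

namespace MPb6P

/-- the position with the state `A` of the side `s` and the state `B` of the other side -/
def f3mk (s : Bool) (A B : PS) : Pos := if s then (A, B) else (B, A)

theorem f3mk_side (s : Bool) (A B : PS) : side (f3mk s A B) s = A := by
  cases s <;> rfl

theorem f3mk_side' (s : Bool) (A B : PS) : side (f3mk s A B) (!s) = B := by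
  cases s <;> rfl

theorem f3mk_eta (s : Bool) (P : Pos) : f3mk s (side P s) (side P (!s)) = P := by
  cases s <;> rfl

theorem f3_stepP {s : Bool} {A B : PS} (hA : A.go = true) (hB : B.go = false) (a : ℕ) :
    stepP (f3mk s A B) a = f3mk s (A.draw a) B := by
  cases s
  · simp [f3mk, stepP, hB]
  · simp [f3mk, stepP, hA]

theorem f3_autoP_go {σ : Strat} {s : Bool} {A B : PS} (hA : A.go = true) :
    autoP σ (f3mk s A B) = f3mk s A B := by
  cases s
  · simp [f3mk, autoP, hA]
  · simp [f3mk, autoP, hA]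

theorem f3_autoP_fin {σ : Strat} {s : Bool} {A B : PS} (hA : A.todo = []) (hB : B.todo = []) :
    autoP σ (f3mk s A B) = f3mk s A B := by
  cases s
  · simp [f3mk, autoP, hA, hB]
  · simp [f3mk, autoP, hA, hB]

theorem f3_autoP_beg {σ : Strat} (hσ : StratOK σ) {s : Bool} {A B : PS} (hA : A.go = false)
    (hB : B.go = false) (h : A.todo ≠ [] ∨ B.todo ≠ []) :
    (∃ δ, A.todo ≠ [] ∧ autoP σ (f3mk s A B) = f3mk s (A.beg δ) B) ∨
      ∃ δ, B.todo ≠ [] ∧ autoP σ (f3mk s A B) = f3mk s A (B.beg δ) := by
  have hAe : A.todo ≠ [] → A.todo.isEmpty = false := fun h => by simpa using h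
  have hBe : B.todo ≠ [] → B.todo.isEmpty = false := fun h => by simpa using h
  cases s
  · have key := hσ (B, A) h.symm
    have e : autoP σ (f3mk false A B) =
        if (σ (B, A)).1 = true then (B.beg (σ (B, A)).2, A) else (B, A.beg (σ (B, A)).2) :=
      if_pos ⟨hB, hA, h.symm.imp hBe hAe⟩
    by_cases hs : (σ (B, A)).1 = true
    · right
      exact ⟨(σ (B, A)).2, key.1 hs, by rw [e, if_pos hs]; rfl⟩
    · left
      exact ⟨(σ (B, A)).2, key.2 (by simpa using hs), by rw [e, if_neg hs]; rfl⟩
  · have key := hσ (A, B) h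
    have e : autoP σ (f3mk true A B) =
        if (σ (A, B)).1 = true then (A.beg (σ (A, B)).2, B) else (A, B.beg (σ (A, B)).2) :=
      if_pos ⟨hA, hB, h.imp hAe hBe⟩
    by_cases hs : (σ (A, B)).1 = true
    · left
      exact ⟨(σ (A, B)).2, key.1 hs, by rw [e, if_pos hs]; rfl⟩
    · right
      exact ⟨(σ (A, B)).2, key.2 (by simpa using hs), by rw [e, if_neg hs]; rfl⟩

theorem f3_pos_append (σ : Strat) (D : ℕ) (ν : List ℕ) (a : ℕ) :
    pos σ D (ν ++ [a]) = autoP σ (stepP (pos σ D ν) a) := by
  simp only [pos, List.foldl_append, List.foldl_cons, List.foldl_nil]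

theorem f3_ev_fst (σ : Strat) (D : ℕ) (ν : List ℕ) :
    (ν.foldl (evStep σ) (autoP σ (PS.root D, PS.root D), [])).1 = pos σ D ν := by
  induction ν using List.reverseRecOn with
  | nil => rfl
  | append_singleton ν a ih =>
    rw [f3_pos_append, List.foldl_append, List.foldl_cons, List.foldl_nil, evStep]
    simp only [ih]

theorem f3_evs_append (σ : Strat) (D : ℕ) (ν : List ℕ) (a : ℕ) :
    evs σ D (ν ++ [a]) = if (side (pos σ D (ν ++ [a])) (pos σ D ν).1.go).go then evs σ D ν else
      evs σ D ν ++ [(side (stepP (pos σ D ν) a) (pos σ D ν).1.go).todo.head?.map Ent.ad] := by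
  rw [f3_pos_append]
  unfold evs
  rw [List.foldl_append, List.foldl_cons, List.foldl_nil, evStep]
  simp only [f3_ev_fst]

theorem f3_act {s : Bool} {A B : PS} (hA : A.go = true) (hB : B.go = false) :
    (f3mk s A B).1.go = s := by
  cases s
  · exact hB
  · exact hA

/-- one draw of the active side, in terms of the states of the sides -/
theorem f3_step {σ : Strat} {D : ℕ} {ν : List ℕ} {s : Bool} {A B : PS}
    (h : pos σ D ν = f3mk s A B) (hA : A.go = true) (hB : B.go = false) (a : ℕ) :
    pos σ D (ν ++ [a]) = autoP σ (f3mk s (A.draw a) B) ∧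
    evs σ D (ν ++ [a]) = if (side (pos σ D (ν ++ [a])) s).go then evs σ D ν else
      evs σ D ν ++ [(A.draw a).todo.head?.map Ent.ad] := by
  constructor
  · rw [f3_pos_append, h, f3_stepP hA hB]
  · rw [f3_evs_append, h, f3_act hA hB, f3_stepP hA hB, f3mk_side]

/-- a reserve draw -/
theorem f3_reserve {A : PS} {e : Ent} {r : List Ent} (ht : A.todo = e :: r) (h0 : e.lv ≠ 0)
    (hd : e.ds = true) (hl : A.res.length < A.need) (a : ℕ) :
    A.draw a = { A with res := A.res ++ [a] } := by
  rcases A with ⟨seq, todo, pend, res, go⟩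
  subst ht
  simp only [PS.draw, if_neg h0, if_pos hd, if_pos hl]

/-- the reserve draws -/
theorem f3_reserves {σ : Strat} {D : ℕ} {ν : List ℕ} {s : Bool} {A B : PS}
    (h : pos σ D ν = f3mk s A B) (hA : A.go = true) (hB : B.go = false) {e : Ent} {r : List Ent}
    (ht : A.todo = e :: r) (h0 : e.lv ≠ 0) (hd : e.ds = true) (P : List ℕ)
    (hl : A.res.length + P.length ≤ A.need) :
    pos σ D (ν ++ P) = f3mk s { A with res := A.res ++ P } B ∧ evs σ D (ν ++ P) = evs σ D ν := by
  induction P using List.reverseRecOn with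
  | nil =>
    simp only [List.append_nil]
    exact ⟨h, trivial⟩
  | append_singleton P a ih =>
    rw [List.length_append, List.length_singleton] at hl
    obtain ⟨ih1, ih2⟩ := ih (by omega)
    have hdraw : PS.draw { A with res := A.res ++ P } a = { A with res := A.res ++ (P ++ [a]) } := by
      rw [f3_reserve (A := { A with res := A.res ++ P }) (e := e) (r := r) ht h0 hd]
      · simp only [List.append_assoc]
      · simp only [List.length_append]
        exact lt_of_lt_of_le (by omega) hl
    obtain ⟨k1, k2⟩ := f3_step ih1 (show PS.go { A with res := A.res ++ P } = true from hA) hB a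
    rw [hdraw, f3_autoP_go (by exact hA)] at k1
    rw [← List.append_assoc]
    refine ⟨k1, ?_⟩
    rw [k2, k1, f3mk_side, if_pos (by exact hA), ih2]

/-- the physical draw -/
theorem f3_phys {A : PS} {P : List ℕ} {a : ℕ} (hA : A.go = true) (hP : P.length = needP A)
    (ht : A.todo ≠ []) (hh : ∀ e r, A.todo = e :: r → ¬ (e.lv = 0 ∧ e.ds = true))
    (hres : A.res = []) :
    ∃ pend, PS.draw { A with res := P } a =
      PS.norm ⟨A.seq ++ [a], newT A.todo P a, pend, [], true⟩ := by
  rcases A with ⟨seq, todo, pend, res, go⟩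
  rcases todo with _ | ⟨e, r⟩
  · exact absurd rfl ht
  · simp only at hA hres
    subst hA hres
    have hh' := hh e r rfl
    by_cases h0 : e.lv = 0
    · have hd : ¬ e.ds = true := fun hd => hh' ⟨h0, hd⟩
      have hP0 : P = [] := by
        have : P.length = 0 := by
          rw [hP]
          simp only [needP, if_neg hd]
        exact List.length_eq_zero_iff.mp this
      subst hP0
      exact ⟨pend, by simp only [PS.draw, newT, if_pos h0]⟩
    · by_cases hd : e.ds = true
      · have hl : ¬ P.length < (PS.mk seq (e :: r) pend P true).need := by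
          rw [hP]
          simp only [needP, if_pos hd, PS.need]
          exact lt_irrefl _
        exact ⟨pend.tail, by simp only [PS.draw, newT, if_neg h0, if_pos hd, if_neg hl]⟩
      · have hP0 : P = [] := by
          have : P.length = 0 := by
            rw [hP]
            simp only [needP, if_neg hd]
          exact List.length_eq_zero_iff.mp this
        subst hP0
        exact ⟨pend, by simp only [PS.draw, newT, if_neg h0, if_neg hd]⟩

theorem f3_beg (A : PS) (δ : List ℕ) : (A.beg δ).seq = A.seq ∧ (A.beg δ).res = A.res ∧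
    (A.beg δ).todo.map la = A.todo.map la ∧ (A.todo ≠ [] → (A.beg δ).go = true) := by
  rcases A with ⟨seq, todo, pend, res, go⟩
  rcases todo with _ | ⟨e, r⟩
  · exact ⟨rfl, rfl, rfl, fun h => absurd rfl h⟩
  · by_cases h0 : e.lv = 0
    · simp only [PS.beg, if_pos h0]
      refine ⟨trivial, trivial, ?_, fun _ => trivial⟩
      simp only [List.map_cons, la, h0]
    · simp only [PS.beg, if_neg h0]
      exact ⟨trivial, trivial, trivial, fun _ => trivial⟩

theorem f3_beg_hb {A : PS} (δ : List ℕ) {e : Ent} {r : List Ent} (ht : A.todo = e :: r)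
    (h0 : e.lv = 0) : (A.beg δ).todo = ⟨0, e.ad, false⟩ :: r := by
  rcases A with ⟨seq, todo, pend, res, go⟩
  subst ht
  simp only [PS.beg, if_pos h0]

section
variable {σ : Strat} {D : ℕ} (hD : 1 ≤ D) (hσ : StratOK σ)
  (h1 : (σ (PS.root D, PS.root D)).1 = true) {H : Set ℕ}
include hD hσ h1

/-- F7a. The reserve draws and one physical draw of the active side `s`. -/
theorem view_step {ν : List ℕ} (hν : HNode (Tm σ D) H ν) (hnt : ¬ Tm σ D ν) {s : Bool}
    (hs : (side (pos σ D ν) s).go = true) (hres : (side (pos σ D ν) s).res = []) {P : List ℕ}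
    {a : ℕ} (hP : P.length = needP (side (pos σ D ν) s))
    (hinc : (ν ++ P ++ [a]).Pairwise (· < ·)) (hPH : ∀ x ∈ P, x ∈ H) (haH : a ∈ H) :
    HNode (Tm σ D) H (ν ++ P ++ [a]) ∧
    (side (pos σ D (ν ++ P ++ [a])) s).seq = (side (pos σ D ν) s).seq ++ [a] ∧
    (side (pos σ D (ν ++ P ++ [a])) (!s)).seq = (side (pos σ D ν) (!s)).seq ∧
    (∀ s', (side (pos σ D (ν ++ P ++ [a])) s').res = []) ∧
    (side (pos σ D (ν ++ P ++ [a])) s).todo.map la =
      (newT (side (pos σ D ν) s).todo P a).map la ∧
    (side (pos σ D (ν ++ P ++ [a])) (!s)).todo.map la = (side (pos σ D ν) (!s)).todo.map la ∧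
    -- no event
    ((evs σ D (ν ++ P ++ [a]) = evs σ D ν ∧
        newT (side (pos σ D ν) s).todo P a ≠ [] ∧
        ((¬ hb (newT (side (pos σ D ν) s).todo P a) ∧
            (side (pos σ D (ν ++ P ++ [a])) s).todo = newT (side (pos σ D ν) s).todo P a) ∨
          ∃ e r, newT (side (pos σ D ν) s).todo P a = e :: r ∧ e.lv = 0 ∧ e.ds = true ∧
            (side (pos σ D (ν ++ P ++ [a])) s).todo = ⟨0, e.ad, false⟩ :: r)) ∨
      -- an event
      (evs σ D (ν ++ P ++ [a]) =
          evs σ D ν ++ [(newT (side (pos σ D ν) s).todo P a).head?.map Ent.ad] ∧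
        (side (pos σ D (ν ++ P ++ [a])) s).todo = newT (side (pos σ D ν) s).todo P a ∧
        (newT (side (pos σ D ν) s).todo P a = [] ∨ hb (newT (side (pos σ D ν) s).todo P a)))) := by
  have hν' : HNode (Tm σ D) Set.univ ν := ⟨hν.inc, fun _ _ => Set.mem_univ _, hν.first⟩
  have NIν := nodeInv hD hσ h1 hν'
  have hact := NIν.act hnt s
  have hresB := NIν.res (!s)
  obtain ⟨e, r, ht, hh, -⟩ := NIν.head s hs
  have hp : pos σ D ν = f3mk s (side (pos σ D ν) s) (side (pos σ D ν) (!s)) :=
    (f3mk_eta s _).symm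
  generalize side (pos σ D ν) s = A at *
  generalize side (pos σ D ν) (!s) = B at *
  have hB : B.go = false := by
    rw [hs] at hact
    simpa using hact.symm
  have hresB' := hresB hB
  -- the reserve draws
  have hpre : ∀ P' : List ℕ, P' <+: P →
      pos σ D (ν ++ P') = f3mk s { A with res := P' } B ∧ evs σ D (ν ++ P') = evs σ D ν := by
    intro P' hP'
    by_cases hd : e.ds = true
    · have h0 : e.lv ≠ 0 := fun h0 => hh ⟨h0, hd⟩
      have hneed : needP A = A.need := by simp only [needP, ht, if_pos hd]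
      have := f3_reserves hp hs hB ht h0 hd P' (by
        rw [hres, List.length_nil, Nat.zero_add, ← hneed, ← hP]
        exact hP'.length_le)
      rwa [hres, List.nil_append] at this
    · have hneed : needP A = 0 := by simp only [needP, ht, if_neg hd]
      have hP0 : P' = [] := by
        have := hP'.length_le
        rw [hP, hneed] at this
        exact List.length_eq_zero_iff.mp (Nat.le_zero.mp this)
      subst hP0
      rw [List.append_nil]
      refine ⟨?_, rfl⟩
      rw [hp]
      rcases A with ⟨seq, todo, pend, res, go⟩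
      simp only at hres
      subst hres
      rfl
  obtain ⟨hpP, heP⟩ := hpre P List.prefix_rfl
  have hfirst : ∀ μ, μ <+: ν ++ P ++ [a] → μ ≠ ν ++ P ++ [a] → ¬ Tm σ D μ := by
    intro μ hμ hne
    have hμ' : μ <+: ν ++ P := by
      rcases List.prefix_concat_iff.mp hμ with h | h
      · exact absurd h hne
      · exact h
    by_cases hlen : μ.length < ν.length
    · have hμν : μ <+: ν := List.prefix_of_prefix_length_le hμ' (List.prefix_append ν P) hlen.le
      exact hν.first μ hμν (fun h => by rw [h] at hlen; exact lt_irrefl _ hlen)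
    · have hνμ : ν <+: μ :=
        List.prefix_of_prefix_length_le (List.prefix_append ν P) hμ' (not_lt.mp hlen)
      obtain ⟨P', rfl⟩ := hνμ
      have hP' : P' <+: P := (List.prefix_append_right_inj ν).mp hμ'
      obtain ⟨k, -⟩ := hpre P' hP'
      intro hT
      unfold Tm at hT
      rw [k] at hT
      cases s
      · exact absurd hT.2 (by simp [f3mk, hs])
      · exact absurd hT.1 (by simp [f3mk, hs])
  obtain ⟨q1, q2⟩ := f3_step hpP (show PS.go { A with res := P } = true from hs) hB a
  obtain ⟨pend, hdr⟩ := f3_phys (a := a) hs hP (by rw [ht]; exact List.cons_ne_nil _ _)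
    (fun e' r' h' => by
      rw [ht] at h'
      obtain ⟨rfl, rfl⟩ := List.cons.inj h'
      exact hh) hres
  rw [hdr] at q1 q2
  rw [heP] at q2
  refine ⟨⟨hinc, ?_, hfirst⟩, ?_⟩
  · intro x hx
    simp only [List.mem_append, List.mem_singleton] at hx
    rcases hx with (hx | hx) | hx
    · exact hν.mem x hx
    · exact hPH x hx
    · rw [hx]; exact haH
  generalize newT A.todo P a = T at *
  generalize pos σ D (ν ++ P ++ [a]) = Q at *
  generalize evs σ D (ν ++ P ++ [a]) = E at *
  -- the case of no stop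
  rcases T with _ | ⟨e', r'⟩
  · -- finished
    simp only [PS.norm] at q1 q2
    have key : ∃ B' : PS, Q = f3mk s ⟨A.seq ++ [a], [], pend, [], false⟩ B' ∧ B'.seq = B.seq ∧
        B'.res = B.res ∧ B'.todo.map la = B.todo.map la := by
      by_cases hBt : B.todo = []
      · rw [f3_autoP_fin rfl hBt] at q1
        exact ⟨B, q1, rfl, rfl, rfl⟩
      · rcases f3_autoP_beg hσ (s := s) (A := ⟨A.seq ++ [a], [], pend, [], false⟩) (B := B) rfl hB
          (Or.inr hBt) with ⟨δ, h, -⟩ | ⟨δ, -, h⟩
        · exact absurd rfl h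
        · rw [h] at q1
          obtain ⟨b1, b2, b3, -⟩ := f3_beg B δ
          exact ⟨_, q1, b1, b2, b3⟩
    obtain ⟨B', hQ, b1, b2, b3⟩ := key
    rw [hQ] at q2 ⊢
    rw [f3mk_side, f3mk_side']
    rw [f3mk_side, if_neg (by simp)] at q2
    refine ⟨rfl, b1, ?_, rfl, b3, Or.inr ⟨q2, rfl, Or.inl rfl⟩⟩
    intro s'
    rcases Bool.eq_or_eq_not s' s with h | h
    · rw [h, f3mk_side]
    · rw [h, f3mk_side', b2, hresB']
  · by_cases hb' : e'.lv = 0 ∧ e'.ds = true
    · simp only [PS.norm, if_pos hb'] at q1 q2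
      rcases f3_autoP_beg hσ (s := s) (A := ⟨A.seq ++ [a], e' :: r', pend, [], false⟩) (B := B) rfl
        hB (Or.inl (List.cons_ne_nil _ _)) with ⟨δ, -, h⟩ | ⟨δ, -, h⟩
      · rw [h] at q1
        obtain ⟨b1, b2, b3, b4⟩ := f3_beg ⟨A.seq ++ [a], e' :: r', pend, [], false⟩ δ
        have b5 := f3_beg_hb (A := ⟨A.seq ++ [a], e' :: r', pend, [], false⟩) δ rfl hb'.1
        rw [q1] at q2 ⊢
        rw [f3mk_side, f3mk_side']
        rw [f3mk_side, if_pos (b4 (List.cons_ne_nil _ _))] at q2
        refine ⟨b1, rfl, ?_, b3, rfl, Or.inl ⟨q2, List.cons_ne_nil _ _, Or.inr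
          ⟨e', r', rfl, hb'.1, hb'.2, b5⟩⟩⟩
        intro s'
        rcases Bool.eq_or_eq_not s' s with h | h
        · rw [h, f3mk_side, b2]
        · rw [h, f3mk_side', hresB']
      · rw [h] at q1
        obtain ⟨b1, b2, b3, b4⟩ := f3_beg B δ
        rw [q1] at q2 ⊢
        rw [f3mk_side, f3mk_side']
        rw [f3mk_side, if_neg (by simp)] at q2
        refine ⟨rfl, b1, ?_, rfl, b3, Or.inr ⟨q2, rfl, Or.inr ⟨e', r', rfl, hb'.1, hb'.2⟩⟩⟩
        intro s'
        rcases Bool.eq_or_eq_not s' s with h | h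
        · rw [h, f3mk_side]
        · rw [h, f3mk_side', b2, hresB']
    · simp only [PS.norm, if_neg hb'] at q1 q2
      rw [f3_autoP_go rfl] at q1
      rw [q1] at q2 ⊢
      rw [f3mk_side, f3mk_side']
      rw [f3mk_side, if_pos rfl] at q2
      refine ⟨rfl, rfl, ?_, rfl, rfl, Or.inl ⟨q2, List.cons_ne_nil _ _, Or.inl ⟨?_, rfl⟩⟩⟩
      · intro s'
        rcases Bool.eq_or_eq_not s' s with h | h
        · rw [h, f3mk_side]
        · rw [h, f3mk_side', hresB']
      · rintro ⟨e'', r'', h, h0, h1'⟩
        obtain ⟨rfl, rfl⟩ := List.cons.inj h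
        exact hb' ⟨h0, h1'⟩

end

end MPb6P
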