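import Pool.Agent.Lib.MP_b6d339_lc.Pos.FDefs
import Pool.Agent.Lib.MP_b6d339_lc.Pos.F1
import Pool.Agent.Lib.MP_b6d339_lc.Pos.F2
import Pool.Agent.Lib.MP_b6d339_lc.Pos.F2b
import Pool.Agent.Lib.MP_b6d339_lc.Pos.F2c
import Pool.Agent.Lib.MP_b6d339_lc.Pos.F3

/-!
# Erdős 592, positive side: one physical step and future cuts
-/

open Filter Ordinal

namespace MPb6P

theorem f3b_cplay {tm : List ℕ → Prop} {H : Set ℕ} {π : List ℕ} (hπ : CPlay tm H π) :
    CPlay tm Set.univ π :=
  ⟨hπ.inc, fun _ _ => Set.mem_univ _, hπ.term, hπ.first⟩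

theorem f3b_hnode {tm : List ℕ → Prop} {ν π : List ℕ} (hπ : CPlay tm Set.univ π)
    (hν : ν <+: π) : HNode tm Set.univ ν := by
  refine ⟨hπ.inc.sublist hν.sublist, fun _ _ => Set.mem_univ _, ?_⟩
  intro μ hμ hne
  refine hπ.first μ (hμ.trans hν) ?_
  intro h
  apply hne
  refine hμ.eq_of_length_le ?_
  rw [h]
  exact hν.length_le

section
variable {σ : Strat} {D : ℕ} (hD : 1 ≤ D) (hσ : StratOK σ)
  (h1 : (σ (PS.root D, PS.root D)).1 = true) {H : Set ℕ}
include hD hσ h1

/-- F7b. A complete play through `ν` contains the reserve draws and the physical draw. -/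
theorem view_long {ν π : List ℕ} (hπ : CPlay (Tm σ D) H π) (hν : ν <+: π) (hnt : ¬ Tm σ D ν)
    {s : Bool} (hs : (side (pos σ D ν) s).go = true) (hres : (side (pos σ D ν) s).res = []) :
    ∃ P a, P.length = needP (side (pos σ D ν) s) ∧ (ν ++ P ++ [a]) <+: π := by
  have hπ' := f3b_cplay hπ
  obtain ⟨t, rfl⟩ := hν
  set n := needP (side (pos σ D ν) s) with hn
  by_cases ht : n < t.length
  · refine ⟨t.take n, t[n], by rw [List.length_take]; omega, ?_⟩
    rw [List.append_assoc, ← List.take_succ_eq_append_getElem ht]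
    exact (List.prefix_append_right_inj ν).mpr (List.take_prefix _ _)
  · exfalso
    obtain ⟨m, hm⟩ : ∃ m, ∀ x ∈ ν ++ t, x < m := by
      refine ⟨(ν ++ t).sum + 1, fun x hx => ?_⟩
      have := List.le_sum_of_mem hx
      omega
    set P := t ++ (List.range (n - t.length)).map (m + ·) with hP
    have hPl : P.length = n := by
      rw [hP, List.length_append, List.length_map, List.length_range]
      omega
    have e1 : ν ++ P = (ν ++ t) ++ (List.range (n - t.length)).map (m + ·) := by
      rw [hP, List.append_assoc]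
    have hinc0 : (ν ++ P).Pairwise (· < ·) := by
      rw [e1, List.pairwise_append]
      refine ⟨hπ.inc, ?_, ?_⟩
      · rw [List.pairwise_map]
        refine List.Pairwise.imp ?_ List.pairwise_lt_range
        intro x y hxy
        omega
      · intro x hx y hy
        obtain ⟨k, _, rfl⟩ := List.mem_map.mp hy
        have := hm x hx
        omega
    have hinc : (ν ++ P ++ [m + n + 1]).Pairwise (· < ·) := by
      rw [List.pairwise_append]
      refine ⟨hinc0, List.pairwise_singleton _ _, ?_⟩
      intro x hx y hy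
      rw [List.mem_singleton] at hy
      subst hy
      rw [e1] at hx
      rcases List.mem_append.mp hx with h | h
      · have := hm x h
        omega
      · obtain ⟨k, hk, rfl⟩ := List.mem_map.mp h
        have := List.mem_range.mp hk
        omega
    have hvs := view_step hD hσ h1 (H := Set.univ) (f3b_hnode hπ' (List.prefix_append ν t)) hnt hs
      hres (P := P) (a := m + n + 1) hPl hinc (fun _ _ => Set.mem_univ _) (Set.mem_univ _)
    refine hvs.1.first (ν ++ t) ?_ ?_ hπ.term
    · rw [e1, List.append_assoc]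
      exact List.prefix_append _ _
    · intro h
      have h2 := congrArg List.length h
      rw [List.length_append, List.length_append, List.length_append, hPl,
        List.length_singleton] at h2
      omega

theorem f3b_step {ν π : List ℕ} (hnt : ¬ Tm σ D ν) {s : Bool}
    (hs : (side (pos σ D ν) s).go = true) (hres : (side (pos σ D ν) s).res = []) {P : List ℕ}
    {a : ℕ} (hP : P.length = needP (side (pos σ D ν) s)) (hπ : CPlay (Tm σ D) H π)
    (hν : (ν ++ P ++ [a]) <+: π) :
    HNode (Tm σ D) Set.univ (ν ++ P ++ [a]) ∧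
    (side (pos σ D (ν ++ P ++ [a])) s).todo.map la =
      (newT (side (pos σ D ν) s).todo P a).map la ∧
    -- no event
    ((evs σ D (ν ++ P ++ [a]) = evs σ D ν ∧
        newT (side (pos σ D ν) s).todo P a ≠ [] ∧
        ((¬ hb (newT (side (pos σ D ν) s).todo P a) ∧
            (side (pos σ D (ν ++ P ++ [a])) s).todo = newT (side (pos σ D ν) s).todo P a) ∨
          ∃ e r, newT (side (pos σ D ν) s).todo P a = e :: r ∧ e.lv = 0 ∧ e.ds = true ∧
            (side (pos σ D (ν ++ P ++ [a])) s).todo = ⟨0, e.ad, false⟩ :: r)) ∨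
      -- an event
      (evs σ D (ν ++ P ++ [a]) =
          evs σ D ν ++ [(newT (side (pos σ D ν) s).todo P a).head?.map Ent.ad] ∧
        (side (pos σ D (ν ++ P ++ [a])) s).todo = newT (side (pos σ D ν) s).todo P a ∧
        (newT (side (pos σ D ν) s).todo P a = [] ∨ hb (newT (side (pos σ D ν) s).todo P a)))) := by
  have hπ' := f3b_cplay hπ
  have hν0 : ν <+: π := by
    refine List.IsPrefix.trans ?_ hν
    rw [List.append_assoc]
    exact List.prefix_append _ _
  have hvs := view_step hD hσ h1 (H := Set.univ) (f3b_hnode hπ' hν0) hnt hs hres hP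
    (hπ.inc.sublist hν.sublist) (fun _ _ => Set.mem_univ _) (Set.mem_univ _)
  exact ⟨hvs.1, hvs.2.2.2.2.1, hvs.2.2.2.2.2.2⟩

/-- F7c. Future cuts of the side `s` (events from the present index on, including one which is
fired by this step) are inside designated entries of `newT`. -/
theorem future_newT {ν π : List ℕ} (hnt : ¬ Tm σ D ν) {s : Bool}
    (hs : (side (pos σ D ν) s).go = true) (hres : (side (pos σ D ν) s).res = []) {P : List ℕ}
    {a : ℕ} (hP : P.length = needP (side (pos σ D ν) s)) (hπ : CPlay (Tm σ D) H π)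
    (hν : (ν ++ P ++ [a]) <+: π) {i : ℕ} {b : List ℕ} (hi : (evs σ D ν).length ≤ i)
    (hpar : decide (i % 2 = 0) = s) (hb : (evs σ D π)[i]? = some (some b)) :
    ∃ e ∈ newT (side (pos σ D ν) s).todo P a, e.ds = true ∧ e.ad <+: b := by
  have hπ' := f3b_cplay hπ
  obtain ⟨_, _, h | h⟩ := f3b_step hD hσ h1 hnt hs hres hP hπ hν
  · obtain ⟨he, _, h⟩ := h
    have hf := evs_future hD hσ h1 hπ' hν (i := i) (a := b) (by rw [he]; exact hi) hb
    rw [hpar] at hf
    obtain ⟨e, he1, he2, he3⟩ := hf
    rcases h with ⟨_, h⟩ | ⟨e0, r, h3, h4, h5, h6⟩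
    · exact ⟨e, by rw [← h]; exact he1, he2, he3⟩
    · rw [h6] at he1
      rcases List.mem_cons.mp he1 with h7 | h7
      · rw [h7] at he2
        exact Bool.noConfusion he2
      · exact ⟨e, by rw [h3]; exact List.mem_cons_of_mem _ h7, he2, he3⟩
  · obtain ⟨he, h3, h4⟩ := h
    rcases Nat.lt_or_ge (evs σ D ν).length i with hlt | hge
    · have hf := evs_future hD hσ h1 hπ' hν (i := i) (a := b)
        (by rw [he, List.length_append, List.length_singleton]; omega) hb
      rw [hpar, h3] at hf
      exact hf
    · have hi' : i = (evs σ D ν).length := le_antisymm hge hi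
      obtain ⟨t, ht⟩ := evs_pre (σ := σ) (D := D) hν
      rw [← ht, he, List.append_assoc, hi', List.getElem?_append_right le_rfl, Nat.sub_self] at hb
      have hb' : (newT (side (pos σ D ν) s).todo P a).head?.map Ent.ad = some b := by
        simpa using hb
      rcases h4 with h4 | ⟨e, r, h5, _, h6⟩
      · rw [h4] at hb'
        simp at hb'
      · rw [h5] at hb'
        have h7 : e.ad = b := by simpa using hb'
        refine ⟨e, by rw [h5]; exact List.mem_cons_self, h6, ?_⟩
        rw [h7]

omit hD hσ h1 in
theorem f3b_map_ad {t t' : List Ent} (h : t.map la = t'.map la) : t.map Ent.ad = t'.map Ent.ad := by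
  have h2 := congrArg (List.map Prod.snd) h
  rw [List.map_map, List.map_map] at h2
  exact h2

/-- F7d. If a future cut is at the bottom entry at the head of `newT`, it is fired now. -/
theorem fire_of_head {ν π : List ℕ} (hnt : ¬ Tm σ D ν) {s : Bool}
    (hs : (side (pos σ D ν) s).go = true) (hres : (side (pos σ D ν) s).res = []) {P : List ℕ}
    {a : ℕ} (hP : P.length = needP (side (pos σ D ν) s)) (hπ : CPlay (Tm σ D) H π)
    (hν : (ν ++ P ++ [a]) <+: π) {i : ℕ} {b : List ℕ} (hi : (evs σ D ν).length ≤ i)
    (hpar : decide (i % 2 = 0) = s) (hb : (evs σ D π)[i]? = some (some b))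
    {e : Ent} {r : List Ent} (hT : newT (side (pos σ D ν) s).todo P a = e :: r)
    (he : e.ad <+: b) (he0 : e.lv = 0) :
    evs σ D (ν ++ P ++ [a]) = evs σ D ν ++ [some b] ∧ i = (evs σ D ν).length := by
  have hπ' := f3b_cplay hπ
  have hfut := future_newT hD hσ h1 hnt hs hres hP hπ hν hi hpar hb
  obtain ⟨hN1, hla, h⟩ := f3b_step hD hσ h1 hnt hs hres hP hπ hν
  have NI1 := nodeInv hD hσ h1 hN1
  have hord : ((newT (side (pos σ D ν) s).todo P a).map Ent.ad).Pairwise LL := by
    rw [← f3b_map_ad hla]
    exact NI1.ord s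
  have hnol : ∀ e' ∈ r, ¬ e'.ad <+: b := by
    intro e' he' hpre
    rw [hT, List.map_cons, List.pairwise_cons] at hord
    have h2 : LL e.ad e'.ad := hord.1 _ (List.mem_map_of_mem he')
    obtain ⟨h3, h4⟩ := h2.not_pre
    rcases List.prefix_or_prefix_of_prefix he hpre with h5 | h5
    · exact h3 h5
    · exact h4 h5
  have heds : e.ds = true := by
    obtain ⟨e', he', hds, hpre⟩ := hfut
    rw [hT] at he'
    rcases List.mem_cons.mp he' with h2 | h2
    · rw [← h2]; exact hds
    · exact absurd hpre (hnol e' h2)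
  rcases h with ⟨hev, _, h⟩ | ⟨hev, htodo, _⟩
  · exfalso
    rcases h with ⟨hnb, _⟩ | ⟨e0, r0, h3, _, _, h6⟩
    · exact hnb ⟨e, r, hT, he0, heds⟩
    · have hf := evs_future hD hσ h1 hπ' hν (i := i) (a := b) (by rw [hev]; exact hi) hb
      rw [hpar, h6] at hf
      rw [hT, List.cons.injEq] at h3
      obtain ⟨e', he1, he2, he3⟩ := hf
      rcases List.mem_cons.mp he1 with h7 | h7
      · rw [h7] at he2
        exact Bool.noConfusion he2
      · rw [← h3.2] at h7
        exact hnol e' h7 he3
  · rw [hT] at hev htodo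
    have hev' : evs σ D (ν ++ P ++ [a]) = evs σ D ν ++ [some e.ad] := hev
    -- lengths
    have hlen : e.ad.length = D := by
      have h2 := NI1.lvl s e (by rw [htodo]; exact List.mem_cons_self)
      omega
    obtain ⟨hc1, hc2, hc3⟩ := evs_complete hD hσ h1 hπ'
    have hblen : b.length = D := by
      rcases Nat.lt_or_ge (i + 2) (evs σ D π).length with h2 | h2
      · obtain ⟨a', ha', hl⟩ := hc2 i h2
        rw [hb] at ha'
        have h5 : b = a' := by simpa using ha'
        rw [h5]; exact hl
      · exfalso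
        have hilt : i < (evs σ D π).length := by
          by_contra hcon
          rw [List.getElem?_eq_none (by omega)] at hb
          simp at hb
        have h3 := hc3 i hilt h2
        rw [hb] at h3
        simp at h3
    have heb : e.ad = b := he.eq_of_length_le (by omega)
    rw [heb] at hev'
    refine ⟨hev', ?_⟩
    by_contra hne
    have hlt : (evs σ D ν).length < i := by omega
    have hν0 : ν <+: π := by
      refine List.IsPrefix.trans ?_ hν
      rw [List.append_assoc]
      exact List.prefix_append _ _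
    have NI0 := nodeInv hD hσ h1 (f3b_hnode hπ' hν0)
    have hpar0 := NI0.par hnt
    have hgo : (pos σ D ν).1.go = s := by
      cases s with
      | true => exact hs
      | false =>
        have h2 := NI0.act hnt false
        rw [hs] at h2
        have h3 : side (pos σ D ν) (!false) = (pos σ D ν).1 := rfl
        rw [h3] at h2
        cases h5 : (pos σ D ν).1.go with
        | false => rfl
        | true => rw [h5] at h2; exact Bool.noConfusion h2
    rw [hgo] at hpar0
    rw [hpar0] at hpar
    have hpm : (evs σ D ν).length % 2 = i % 2 := by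
      have h2 : (i % 2 = 0) ↔ ((evs σ D ν).length % 2 = 0) := decide_eq_decide.mp hpar
      omega
    have h0 : (evs σ D π)[(evs σ D ν).length]? = some (some b) := by
      obtain ⟨t, ht⟩ := evs_pre (σ := σ) (D := D) hν
      rw [← ht, hev', List.append_assoc, List.getElem?_append_right le_rfl, Nat.sub_self]
      rfl
    exact lt_irrefl b (evs_lt hD hσ h1 hπ' hlt hpm h0 hb)

end

end MPb6P
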