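import Pool.Agent.Lib.MP_b6d339_lc.Pos.FDefs
import Pool.Agent.Lib.MP_b6d339_lc.Pos.F1
import Pool.Agent.Lib.MP_b6d339_lc.Pos.F2
import Pool.Agent.Lib.MP_b6d339_lc.Pos.F2b
import Pool.Agent.Lib.MP_b6d339_lc.Pos.F2c
import Pool.Agent.Lib.MP_b6d339_lc.Pos.F3
import Pool.Agent.Lib.MP_b6d339_lc.Pos.F3b
import Pool.Agent.Lib.MP_b6d339_lc.Pos.H2

/-!
# Erdős 592, positive side: the context of the building lemma
-/

open Filter Ordinal

namespace MPb6P

/-- the player of the side `s` of run `R` -/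
def plrS (R : Fin 3) (s : Bool) : Fin 3 := plr R (if s then 0 else 1)

theorem plrS_eq (R : Fin 3) (i : ℕ) : plrS R (decide (i % 2 = 0)) = plr R i := by
  unfold plrS plr
  by_cases h : i % 2 = 0 <;> simp [h]

/-- Everything which is fixed: strategy, homogeneous set, labels. -/
structure Ctx where
  D : ℕ
  hD : 1 ≤ D
  σ : Strat
  ok : StratOK σ
  h1 : (σ (PS.root D, PS.root D)).1 = true
  H : Set ℕ
  inf : H.Infinite
  good : List ℕ → Prop
  win : HWin (Tm σ D) good H []
  lab : List ℕ → Fin 3 → ℕ → ℕ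
  lab_pos : ∀ u R i, 1 ≤ lab u R i
  lab_mono : ∀ u, Valid D u → ∀ R i j, i ≤ j → j < u.length → lab u R i ≤ lab u R j
  compat : ∀ π π', CPlay (Tm σ D) H π → CPlay (Tm σ D) H π' →
    Compat D (wrd D (evs σ D π)) (lab (wrd D (evs σ D π)))
      (wrd D (evs σ D π')) (lab (wrd D (evs σ D π')))
  /-- the labels of the events up to the next one are the same for all plays through `ν` -/
  sureL : ∀ ν π π', CPlay (Tm σ D) H π → CPlay (Tm σ D) H π' → ν <+: π → ν <+: π' →
    ∀ R, ∀ i ≤ (evs σ D ν).length,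
      lab (wrd D (evs σ D π)) R i = lab (wrd D (evs σ D π')) R i
  /-- the label sets of the sub-blocks of the designated block at the head of the to-do list of the
  active side are the same for all plays through `ν` -/
  sureA : ∀ ν π π', CPlay (Tm σ D) H π → CPlay (Tm σ D) H π' → ν <+: π → ν <+: π' →
    ∀ (R : Fin 3) (s : Bool) (k : ℕ), k < needP (side (pos σ D ν) s) →
      {g | ∃ i a, decide (i % 2 = 0) = s ∧ (evs σ D π)[i]? = some (some a) ∧
        (((side (pos σ D ν) s).todo.head?.map Ent.ad).getD [] ++ [π.getD (ν.length + k) 0]) <+: a ∧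
        lab (wrd D (evs σ D π)) R i = g} =
      {g | ∃ i a, decide (i % 2 = 0) = s ∧ (evs σ D π')[i]? = some (some a) ∧
        (((side (pos σ D ν) s).todo.head?.map Ent.ad).getD [] ++ [π'.getD (ν.length + k) 0]) <+: a ∧
        lab (wrd D (evs σ D π')) R i = g}

namespace Ctx
variable (C : Ctx)

/-- the events -/
def E (ν : List ℕ) : List (Option (List ℕ)) := evs C.σ C.D ν

/-- the labels -/
def L (π : List ℕ) (R : Fin 3) (i : ℕ) : ℕ := C.lab (wrd C.D (C.E π)) R i

/-- complete plays -/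
def cp (π : List ℕ) : Prop := CPlay (Tm C.σ C.D) C.H π

/-- nodes -/
def hn (ν : List ℕ) : Prop := HNode (Tm C.σ C.D) C.H ν

/-- the state of side `s` -/
def S (ν : List ℕ) (s : Bool) : PS := side (pos C.σ C.D ν) s

/-- event `i` of `π` is a cut with address `a` of the player `p`, `π` played as run `R` -/
def cut (π : List ℕ) (R p : Fin 3) (i : ℕ) (a : List ℕ) : Prop :=
  plr R i = p ∧ (C.E π)[i]? = some (some a)

/-- The order condition for the player `p` in the runs `R`, `R'`, for the events from `n`, `n'` on,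
with respect to the list `adl` of addresses. -/
def OrdT (R R' p : Fin 3) (ν ν' : List ℕ) (n n' : ℕ) (adl : List (List ℕ)) : Prop :=
  ∀ π π', C.cp π → C.cp π' → ν <+: π → ν' <+: π' → ∀ i j a b, n ≤ i → C.cut π R p i a →
    n' ≤ j → C.cut π' R' p j b →
    adl.Pairwise (fun q q' => (q <+: a → q' <+: b → C.L π R i < C.L π' R' j) ∧
      (q <+: b → q' <+: a → C.L π' R' j < C.L π R i)) ∧
    (a = b → a ∈ adl → C.L π R i = C.L π' R' j)

/-- The invariant of the three runs. -/
structure Inv (ν : Fin 3 → List ℕ) : Prop where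
  hn : ∀ R, C.hn (ν R)
  res : ∀ R s, (C.S (ν R) s).res = []
  seqs : ∀ R R' s s', plrS R s = plrS R' s' → (C.S (ν R) s).seq = (C.S (ν R') s').seq
  todo : ∀ R R' s s', plrS R s = plrS R' s' →
    (C.S (ν R) s).todo.map la = (C.S (ν R') s').todo.map la
  ord : ∀ R R' s s', R ≠ R' → plrS R s = plrS R' s' →
    C.OrdT R R' (plrS R s) (ν R) (ν R') (C.E (ν R)).length (C.E (ν R')).length
      ((C.S (ν R) s).todo.map Ent.ad)
  exe : ∀ R R', R ≠ R' → ∀ π π', C.cp π → C.cp π' → ν R <+: π → ν R' <+: π' →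
    ∀ i j, i < (C.E (ν R)).length → (C.E (ν R')).length ≤ j → j < (C.E π').length →
      C.L π R i < C.L π' R' j

end Ctx

end MPb6P
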