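import Pool.Agent.Lib.MP_b6d339_lc.Defs

/-!
# Erdős 592, positive side (finite levels): physical elements, views, the blue game
-/

open Filter Ordinal

namespace MPb6P

/-- a nonprincipal ultrafilter on `ℕ` -/
noncomputable abbrev UU : Ultrafilter ℕ := Filter.hyperfilter ℕ

/-! ## Physical elements -/

/-- one number is drawn: the first entry of the to-do list (a block of level `l`) is replaced. -/
def pstep : List ℕ → ℕ → List ℕ
  | [], _ => []
  | 0 :: r, _ => r
  | (l + 1) :: r, a => List.replicate a l ++ r

/-- `Cmp L s`: the sequence `s` works off the to-do list `L` completely. -/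
inductive Cmp : List ℕ → List ℕ → Prop
  | nil : Cmp [] []
  | cons {L : List ℕ} {a : ℕ} {s : List ℕ} : L ≠ [] → Cmp (pstep L a) s → Cmp L (a :: s)

/-- rank of a to-do list -/
noncomputable def rkL : List ℕ → Ordinal.{0}
  | [] => 0
  | l :: r => rkL r + ω ^ (l : Ordinal.{0})

/-- the embedding of the physical elements into the ordinals -/
noncomputable def emb : List ℕ → List ℕ → Ordinal.{0}
  | _, [] => 0
  | L, a :: s => ω ^ rkL (pstep L a) * (a : Ordinal.{0}) + emb (pstep L a) s

/-! ## Views -/

/-- an entry of the to-do list of a player in a view: level, address, designated or not -/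
structure Ent where
  lv : ℕ
  ad : List ℕ
  ds : Bool

/-- the state of one player in a view: physical numbers, to-do list, declared sizes, reserved
indices of the block which is being opened, `go` = in the middle of a macro move -/
structure PS where
  seq : List ℕ
  todo : List Ent
  pend : List ℕ
  res : List ℕ
  go : Bool

/-- the sub-entries of a block -/
def subs (l : ℕ) (ad : List ℕ) (P : List ℕ) (a : ℕ) : List Ent :=
  (List.range a).map fun i => ⟨l, ad ++ [i], decide (i ∈ P)⟩

namespace PS

/-- the initial state -/
def root (D : ℕ) : PS := ⟨[], [⟨D, [], true⟩], [], [], false⟩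

/-- stop the macro move before a designated bottom entry, or if nothing is left -/
def norm (S : PS) : PS :=
  match S.todo with
  | [] => { S with go := false }
  | e :: _ => if e.lv = 0 ∧ e.ds = true then { S with go := false } else S

/-- the number of reserve draws for the next designated block -/
def need (S : PS) : ℕ := S.pend.headD 0 + 1

/-- one draw -/
def draw (S : PS) (a : ℕ) : PS :=
  match S.todo with
  | [] => S
  | e :: r =>
    if e.lv = 0 then norm { S with todo := r, seq := S.seq ++ [a] }
    else if e.ds = true then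
      if S.res.length < S.need then { S with res := S.res ++ [a] }
      else norm ⟨S.seq ++ [a], subs (e.lv - 1) e.ad S.res a ++ r, S.pend.tail, [], S.go⟩
    else norm { S with seq := S.seq ++ [a], todo := subs (e.lv - 1) e.ad [] a ++ r }

/-- begin a macro move: declare the sizes; a bottom entry at the head is now going to be drawn -/
def beg (S : PS) (δ : List ℕ) : PS :=
  match S.todo with
  | [] => S
  | e :: r =>
    if e.lv = 0 then { S with todo := ⟨0, e.ad, false⟩ :: r, pend := δ, go := true }
    else { S with pend := δ, go := true }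

end PS

/-! ## The game of a pair -/

/-- the pair position is won by blue -/
inductive W (Bl : List ℕ → List ℕ → Prop) : PS → PS → Prop
  | win {A B : PS} : A.todo = [] → B.todo = [] → Bl A.seq B.seq → W Bl A B
  | begA {A B : PS} (δ : List ℕ) : A.go = false → B.go = false → A.todo ≠ [] →
      W Bl (A.beg δ) B → W Bl A B
  | begB {A B : PS} (δ : List ℕ) : A.go = false → B.go = false → B.todo ≠ [] →
      W Bl A (B.beg δ) → W Bl A B
  | drawA {A B : PS} (s : Set ℕ) : A.go = true → B.go = false → s ∈ UU →
      (∀ a ∈ s, W Bl (A.draw a) B) → W Bl A B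
  | drawB {A B : PS} (s : Set ℕ) : A.go = false → B.go = true → s ∈ UU →
      (∀ a ∈ s, W Bl A (B.draw a)) → W Bl A B

/-- the common position (both elements still have the same history) is won by blue -/
inductive WC (Bl : List ℕ → List ℕ → Prop) : PS → Prop
  | split {S : PS} : S.go = false → W Bl S S → WC Bl S
  | beg {S : PS} (δ : List ℕ) : S.go = false → S.todo ≠ [] → WC Bl (S.beg δ) → WC Bl S
  | draw {S : PS} (s : Set ℕ) : S.go = true → s ∈ UU → (∀ a ∈ s, WC Bl (S.draw a)) → WC Bl S

/-! ## Further definitions for the dichotomy -/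

/-- the elements of `X` with initial segment `p` contain a copy of `μ` -/
def Emb (X : Set (List ℕ)) (p : List ℕ) (μ : Ordinal.{0}) : Prop :=
  ∃ f : Ordinal.{0} → List ℕ, (∀ a b, a < b → b < μ → f a < f b) ∧ ∀ a < μ, f a ∈ X ∧ p <+: f a

theorem Emb.of_pre {X : Set (List ℕ)} {p q : List ℕ} {μ : Ordinal.{0}} (hpq : p <+: q)
    (h : Emb X q μ) : Emb X p μ := by
  obtain ⟨f, hf, hf'⟩ := h
  exact ⟨f, hf, fun a ha => ⟨(hf' a ha).1, hpq.trans (hf' a ha).2⟩⟩

theorem Emb.mono {X : Set (List ℕ)} {p : List ℕ} {μ ν : Ordinal.{0}} (hμ : ν ≤ μ)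
    (h : Emb X p μ) : Emb X p ν := by
  obtain ⟨f, hf, hf'⟩ := h
  exact ⟨f, fun a b hab hb => hf a b hab (hb.trans_le hμ), fun a ha => hf' a (ha.trans_le hμ)⟩

/-- the blue pairs of elements, from a graph on `ω ^ ω ^ D` -/
def Blue (D : ℕ) (G : SimpleGraph (ω ^ (ω ^ (D : Ordinal.{0})) : Ordinal.{0}).ToType)
    (s t : List ℕ) : Prop :=
  ∃ u v : (ω ^ (ω ^ (D : Ordinal.{0})) : Ordinal.{0}).ToType, G.Adj u v ∧
    (u : Ordinal.{0}) = emb [D] s ∧ (v : Ordinal.{0}) = emb [D] t ∧ Cmp [D] s ∧ Cmp [D] t

/-- `ds` leads from `S` (in the middle of a macro move) to the end of the macro move. -/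
def IsMac (S : PS) (ds : List ℕ) (S' : PS) : Prop :=
  ds.foldl PS.draw S = S' ∧ S'.go = false ∧
    ∀ t, t <+: ds → t ≠ ds → (t.foldl PS.draw S).go = true

/-- logical rank: the sum of `ω ^ lv` over the designated entries -/
noncomputable def lo : List Ent → Ordinal.{0}
  | [] => 0
  | e :: r => if e.ds = true then lo r + ω ^ (e.lv : Ordinal.{0}) else lo r

/-- what is left of a designated block of level `l` when its first bottom entry is reached -/
noncomputable def low : ℕ → List ℕ → Ordinal.{0}
  | 0, _ => 0
  | l + 1, δ => ω ^ (l : Ordinal.{0}) * (δ.headD 0 : ℕ) + low l δ.tail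

/-- the parent of Builder's node `k + 1` -/
def par (k : ℕ) : ℕ := (Nat.unpair k).1

/-- the sizes declared in the macro move to Builder's node `k + 1` -/
def dec (k : ℕ) : List ℕ := Denumerable.ofNat (List ℕ) (Nat.unpair (Nat.unpair k).2).1

end MPb6P
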