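import Pool.Agent.Lib.MP_b6d339_lc.Pos.PDefs

/-!
# Erdős 592, positive side: definitions for the facts about plays
-/

open Filter Ordinal

namespace MPb6P

/-- lexicographically smaller and incomparable: smaller at the first difference -/
def LL (p q : List ℕ) : Prop :=
  ∃ (c : List ℕ) (x y : ℕ) (p1 q1 : List ℕ), p = c ++ x :: p1 ∧ q = c ++ y :: q1 ∧ x < y

theorem LL.extend {p q p' q' : List ℕ} (h : LL p q) (hp : p <+: p') (hq : q <+: q') :
    LL p' q' := by
  obtain ⟨c, x, y, p1, q1, rfl, rfl, hxy⟩ := h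
  obtain ⟨t, rfl⟩ := hp
  obtain ⟨u, rfl⟩ := hq
  exact ⟨c, x, y, p1 ++ t, q1 ++ u, by simp, by simp, hxy⟩

/-- level and address of an entry -/
def la (e : Ent) : ℕ × List ℕ := (e.lv, e.ad)

/-- invariants of the nodes of a run (increasing draws, not beyond a terminal node) -/
structure NI (σ : Strat) (D : ℕ) (ν : List ℕ) : Prop where
  act : ¬ Tm σ D ν → ∀ s, (side (pos σ D ν) s).go = !(side (pos σ D ν) (!s)).go
  par : ¬ Tm σ D ν → (pos σ D ν).1.go = decide ((evs σ D ν).length % 2 = 0)
  fin : Tm σ D ν → ∀ s, (side (pos σ D ν) s).todo = []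
  res : ∀ s, (side (pos σ D ν) s).go = false → (side (pos σ D ν) s).res = []
  lvl : ∀ s, ∀ e ∈ (side (pos σ D ν) s).todo, e.lv + e.ad.length = D
  ord : ∀ s, ((side (pos σ D ν) s).todo.map Ent.ad).Pairwise LL
  head : ∀ s, (side (pos σ D ν) s).go = true →
    ∃ e r, (side (pos σ D ν) s).todo = e :: r ∧ ¬ (e.lv = 0 ∧ e.ds = true) ∧
      (e.ds = false → (side (pos σ D ν) s).res = [])
  rest : ∀ s, (side (pos σ D ν) s).go = false → (side (pos σ D ν) s).todo = [] ∨
    (∃ e r, (side (pos σ D ν) s).todo = e :: r ∧ e.lv = 0 ∧ e.ds = true) ∨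
    (s = false ∧ evs σ D ν = [] ∧ side (pos σ D ν) s = PS.root D)

/-- the to-do list after the physical draw `a` (before a new macro move is begun), `P` = the
reserved numbers of the block at the head -/
def newT (t : List Ent) (P : List ℕ) (a : ℕ) : List Ent :=
  match t with
  | [] => []
  | e :: r => if e.lv = 0 then r else subs (e.lv - 1) e.ad P a ++ r

/-- the number of reserve draws before the next physical draw -/
def needP (S : PS) : ℕ :=
  match S.todo with
  | [] => 0
  | e :: _ => if e.ds = true then S.need else 0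

/-- the head of a list of entries is a designated bottom entry -/
def hb (t : List Ent) : Prop := ∃ e r, t = e :: r ∧ e.lv = 0 ∧ e.ds = true

end MPb6P
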