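/-!
# Boolean checkers and their data types

Definitions evaluated by the kernel, without imports.
-/

namespace MPb6P

/-- and -/
noncomputable def band (a b : Bool) : Bool := Bool.rec (motive := fun _ => Bool) false b a

/-- or -/
noncomputable def bor (a b : Bool) : Bool := Bool.rec (motive := fun _ => Bool) b true a

/-- not -/
noncomputable def bnot (a : Bool) : Bool := Bool.rec (motive := fun _ => Bool) true false a

/-- bits -/
def tb (m n : Nat) : Bool := Nat.beq (Nat.mod (Nat.shiftRight m n) 2) 1

/-- all numbers below `n` -/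
noncomputable def allB (p : Nat → Bool) (n : Nat) : Bool :=
  Nat.rec (motive := fun _ => Bool) true
    (fun k ih => Bool.rec (motive := fun _ => Bool) false ih (p k)) n

/-- all members of a list -/
noncomputable def lall {α : Type} (p : α → Bool) (l : List α) : Bool :=
  List.rec (motive := fun _ => Bool) true
    (fun a _ ih => Bool.rec (motive := fun _ => Bool) false ih (p a)) l

/-- some member of a list -/
noncomputable def lany {α : Type} (p : α → Bool) (l : List α) : Bool :=
  List.rec (motive := fun _ => Bool) false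
    (fun a _ ih => Bool.rec (motive := fun _ => Bool) ih true (p a)) l

/-- evaluation of the argument before the function is called -/
noncomputable def frc {α : Type} (n : Nat) (f : Nat → α) : α :=
  Nat.rec (motive := fun _ => α) (f 0) (fun k _ => f k) (Nat.succ n)

/-- the member with number `i` -/
noncomputable def lget {α : Type} (d : α) (l : List α) : Nat → α :=
  List.rec (motive := fun _ => Nat → α) (fun _ => d)
    (fun a _ ih i => Nat.rec (motive := fun _ => α) a (fun k _ => ih k) i) l

/-- the bits `a + 1, …, l` of `m` are all set -/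
def allSet (m a l : Nat) : Bool :=
  Nat.beq (Nat.succ (Nat.mod (Nat.shiftRight m (Nat.succ a)) (Nat.pow 2 (Nat.sub l a))))
    (Nat.pow 2 (Nat.sub l a))

/-- the bits `a + 1, …, l - 1` of `m` are all clear -/
def allClr (m a l : Nat) : Bool :=
  Nat.beq (Nat.mod (Nat.shiftRight m (Nat.succ a)) (Nat.pow 2 (Nat.sub l (Nat.succ a)))) 0

/-- a promise: in the role `r` there is a letter with index parity `e`, start label at most `sm`,
label at least `lm` and class at least `c`. `fl = 0`: the letter is alive at the label `sm + 1` at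
which the role is parked; `fl = n + 1`: recorded by the flag `n`. -/
structure WProm where
  r : Nat
  e : Nat
  sm : Nat
  lm : Nat
  c : Nat
  fl : Nat

/-- a role in bit masks: used labels, cut labels, labels allowed for even / odd indices -/
structure CRole where
  us : Nat
  ct : Nat
  a0 : Nat
  a1 : Nat
  l1 : Nat
  l2 : Nat

/-- label templates in bit masks -/
structure CT where
  rA : CRole
  rB : CRole
  rC : CRole
  prom : List WProm

/-- states of a role: the last but one label, the last label, the flags (a bit mask) -/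
structure RS where
  p2 : Nat
  p1 : Nat
  fl : Nat

/-- test for hosting -/
noncomputable def hostB (r e p2 l hi : Nat) (h : WProm) : Bool :=
  WProm.rec (motive := fun _ => Bool) (fun hr he sm lm c _ =>
    band (Nat.beq hr r) (band (Nat.beq he e) (band (Nat.ble hi c)
      (band (Nat.ble (Nat.succ sm) l) (Nat.ble (Nat.succ p2) lm))))) h

/-- test for parked promises and flags -/
noncomputable def pfB (r e p2 l lo fl fl' : Nat) (h : WProm) : Bool :=
  WProm.rec (motive := fun _ => Bool) (fun hr he sm lm c f =>
    bor (bnot (Nat.beq hr r)) (Nat.rec (motive := fun _ => Bool)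
      (bor (bnot (Nat.beq he e)) (bor (bnot (Nat.ble p2 sm)) (bor (bnot (Nat.ble lm l))
        (Nat.ble c lo))))
      (fun g _ => bor (bnot (tb fl' g)) (bor (tb fl g) (band (Nat.beq he e)
        (band (Nat.ble p2 sm) (band (Nat.ble lm l) (Nat.ble c lo)))))) f)) h

/-- test for steps; `al` is the mask for the parity `e` -/
noncomputable def stepN (prom : List WProm) (us ct al rn ro eo e lo hi p2 p1 fl q2 l fl' : Nat) :
    Bool :=
  band (Nat.beq q2 p1) (band (Nat.ble p1 l) (band (tb us l)
    (band (bor (bnot (Nat.beq p1 l)) (bnot (tb ct l))) (band (allSet al p1 l)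
    (band (allClr ct p1 l)
    (band (bor (Nat.ble 4 lo) (lany (hostB ro eo p2 l hi) prom))
      (lall (pfB rn e p2 l lo fl fl') prom)))))))

/-- common labels -/
noncomputable def comN (us ct a0 a1 l1 l2 us' ct' a0' a1' l1' l2' p0 p1 p0' p1' l : Nat) : Bool :=
  bor (bnot (band (tb us l) (tb us' l)))
    (band (tb ct l) (band (tb ct' l) (band
      (Nat.beq (Bool.rec (motive := fun _ => Nat) p1 (Bool.rec (motive := fun _ => Nat) p0 3 (tb a1 l))
        (tb a0 l))
        (Bool.rec (motive := fun _ => Nat) p1' (Bool.rec (motive := fun _ => Nat) p0' 4 (tb a1' l))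
        (tb a0' l)))
      (Bool.rec (motive := fun _ => Bool) (bnot (bor (Nat.beq l l1') (Nat.beq l l2')))
        (bor (Nat.beq l l1') (Nat.beq l l2')) (bor (Nat.beq l l1) (Nat.beq l l2))))))

/-- common labels of two roles; `p0`, `p1` are the players -/
noncomputable def comB (c c' : CRole) (p0 p1 p0' p1' l : Nat) : Bool :=
  CRole.rec (motive := fun _ => Bool) (fun us ct a0 a1 l1 l2 =>
    CRole.rec (motive := fun _ => Bool) (fun us' ct' a0' a1' l1' l2' =>
      comN us ct a0 a1 l1 l2 us' ct' a0' a1' l1' l2' p0 p1 p0' p1' l) c') c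

/-- the parity `e` of the label `l` -/
noncomputable def piB (a0 a1 l e : Nat) : Bool :=
  Nat.beq (Bool.rec (motive := fun _ => Nat) 1 (Bool.rec (motive := fun _ => Nat) 0 2 (tb a1 l))
    (tb a0 l)) e

/-- timing -/
noncomputable def timN (us ct a0 a1 l1 l2 us' ct' a0' a1' l1' e' e l : Nat) : Bool :=
  bor (bor (bnot (tb us l)) (band (tb ct l) (bnot (piB a0 a1 l e))))
    (band (piB a0' a1' l e') (band (Nat.ble l l1')
      (bor (bnot (bor (Nat.beq l l1) (Nat.beq l l2))) (band (tb us' l) (tb ct' l)))))

/-- timing for two roles -/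
noncomputable def timB (c c' : CRole) (e' e l : Nat) : Bool :=
  CRole.rec (motive := fun _ => Bool) (fun us ct a0 a1 l1 l2 =>
    CRole.rec (motive := fun _ => Bool) (fun us' ct' a0' a1' l1' _ =>
      timN us ct a0 a1 l1 l2 us' ct' a0' a1' l1' e' e l) c') c

/-- last labels -/
noncomputable def lstB (c : CRole) : Bool :=
  CRole.rec (motive := fun _ => Bool) (fun us ct _ _ l1 l2 =>
    band (Nat.ble (Nat.succ l2) l1) (band (band (tb us l1) (tb ct l1))
      (band (tb us l2) (tb ct l2)))) c

/-- parked promises -/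
noncomputable def prkB (c : CRole) (rn : Nat) (h : WProm) : Bool :=
  WProm.rec (motive := fun _ => Bool) (fun hr he sm lm _ f =>
    CRole.rec (motive := fun _ => Bool) (fun us _ a0 a1 l1 l2 =>
    bor (bor (bnot (Nat.beq f 0)) (bnot (Nat.beq hr rn)))
    (band (Nat.beq (Nat.succ (Nat.succ sm)) lm) (band (bnot (tb us (Nat.succ sm)))
      (band (Nat.ble (Nat.succ he) 2)
      (Nat.ble (Nat.succ (Nat.succ sm)) (Bool.rec (motive := fun _ => Nat) l2 l1
        (piB a0 a1 l1 he))))))) c) h

/-- tests for one role -/
noncomputable def roleB (M : Nat) (c : CRole) (rn : Nat) (prom : List WProm) : Bool :=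
  CRole.rec (motive := fun _ => Bool) (fun us ct a0 a1 _ _ =>
    band (bnot (tb us 0)) (band (Nat.ble (Nat.succ us) (Nat.pow 2 (Nat.succ M)))
    (band (Nat.beq (Nat.land (Nat.land us ct) (Nat.land a0 a1)) 0)
    (band (lstB c) (lall (prkB c rn) prom))))) c

/-- validity test -/
noncomputable def validB (M : Nat) (C : CT) : Bool :=
  CT.rec (motive := fun _ => Bool) (fun rA rB rC prom =>
    band (roleB M rA 0 prom) (band (roleB M rB 1 prom) (band (roleB M rC 2 prom)
    (band (allB (fun l => band (comB rA rB 0 1 0 2 l) (band (comB rA rC 0 1 1 2 l)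
      (band (comB rB rC 0 2 1 2 l) (band (timB rA rB 0 0 l) (band (timB rA rC 0 1 l)
      (band (timB rB rA 0 0 l) (band (timB rB rC 1 1 l) (band (timB rC rA 1 0 l)
        (timB rC rB 1 1 l))))))))) (Nat.succ M))
      (lall (fun h => Nat.ble (Nat.succ h.r) 3) prom))))) C

/-- transitions of a role automaton: from the state `i` to the state `j` by letters in `[lo, hi]`
with index parity `e` -/
structure TR where
  i : Nat
  j : Nat
  e : Nat
  lo : Nat
  hi : Nat

/-- data of a role automaton -/
structure RD where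
  st : List RS
  tr : List TR

/-- a state of a role automaton -/
noncomputable def sOf (st : List RS) (i : Nat) : RS := lget ⟨0, 0, 0⟩ st i

/-- step functions: `e, lo, hi`, the old and the new state -/
abbrev SFn : Type := Nat → Nat → Nat → Nat → Nat → Nat → Nat → Nat → Nat → Bool

/-- the step function of a role -/
noncomputable def sfN (prom : List WProm) (us ct a0 a1 rn r0 e0 r1 e1 : Nat) : SFn :=
  fun e lo hi p2 p1 fl q2 l fl' => Nat.rec (motive := fun _ => Bool)
    (stepN prom us ct a0 rn r0 e0 0 lo hi p2 p1 fl q2 l fl')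
    (fun n _ => band (Nat.beq n 0) (stepN prom us ct a1 rn r1 e1 1 lo hi p2 p1 fl q2 l fl')) e

/-- the transitions are correct -/
noncomputable def trN (F : SFn) (st : List RS) (tr : List TR) : Bool :=
  lall (fun t => TR.rec (motive := fun _ => Bool) (fun i j e lo hi =>
    RS.rec (motive := fun _ => Bool) (fun p2 p1 fl => RS.rec (motive := fun _ => Bool)
      (fun q2 l fl' => F e lo hi p2 p1 fl q2 l fl') (sOf st j)) (sOf st i)) t) tr

/-- all states in `js'` are reached from states in `js` by the letter `x` with parity `e` -/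
noncomputable def jsN (tr : List TR) (e x : Nat) (js js' : List Nat) : Bool :=
  lall (fun j => lany (fun t => TR.rec (motive := fun _ => Bool) (fun i j' e' lo hi =>
    band (Nat.beq j' j) (band (Nat.beq e' e) (band (Nat.ble lo x) (band (Nat.ble x hi)
      (lany (fun k => Nat.beq i k) js))))) t) tr) js'

/-- flags after a letter `4` -/
noncomputable def nflN (rn : Nat) (prom : List WProm) (e p2 l fl : Nat) : Nat :=
  List.rec (motive := fun _ => Nat) fl (fun h _ ih => WProm.rec (motive := fun _ => Nat)
    (fun hr he sm lm _ f => Nat.rec (motive := fun _ => Nat) ih (fun g _ =>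
      Bool.rec (motive := fun _ => Nat) ih (Nat.lor ih (Nat.pow 2 g))
        (band (Nat.beq hr rn) (band (Nat.beq he e) (band (Nat.ble p2 sm) (Nat.ble lm l))))) f) h)
    prom

/-- the initial states are reached by the letters `4, 4` -/
noncomputable def iniN (F : SFn) (rn : Nat) (prom : List WProm) (st : List RS) (js : List Nat) : Bool :=
  lall (fun j => RS.rec (motive := fun _ => Bool) (fun p2 p1 fl =>
    frc (nflN rn prom 0 0 p2 0) (fun g => band (F 0 4 4 0 0 0 0 p2 g)
      (F 1 4 4 0 p2 g p2 p1 fl))) (sOf st j)) js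

/-- all flags of the role are set -/
noncomputable def accN (rn : Nat) (prom : List WProm) (fl : Nat) : Bool :=
  lall (fun h => WProm.rec (motive := fun _ => Bool) (fun hr _ _ _ _ f =>
    bor (bnot (Nat.beq hr rn)) (Nat.rec (motive := fun _ => Bool) true (fun g _ => tb fl g) f)) h)
    prom

/-- acceptance after the letters `4, 4` -/
noncomputable def finN (F : SFn) (rn : Nat) (prom : List WProm) (l1 l2 : Nat) (st : List RS) (e : Nat)
    (js : List Nat) : Bool :=
  lany (fun j => RS.rec (motive := fun _ => Bool) (fun p2 p1 fl =>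
    frc (nflN rn prom e p2 l2 fl) (fun g => frc (nflN rn prom (Nat.sub 1 e) p1 l1 g) (fun g' =>
      band (accN rn prom g') (band (F e 4 4 p2 p1 fl p1 l2 g)
        (F (Nat.sub 1 e) 4 4 p1 l2 g l2 l1 g'))))) (sOf st j)) js

/-- a state of the refined automaton: parity, lists of role states, successors, class -/
structure RQ where
  e : Nat
  jA : List Nat
  jB : List Nat
  jC : List Nat
  n1 : Nat
  n2 : Nat
  n3 : Nat
  cl : Nat

/-- small automata: transition table (6 bits for each entry), accepting states -/
structure DF where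
  dl : Nat
  ac : Nat

/-- an entry of the transition table; `y` is `0, 6, 12` for the letters `1, 2, 3` -/
def nxN (dl q y : Nat) : Nat := Nat.mod (Nat.shiftRight dl (Nat.add (Nat.mul 18 q) y)) 64

/-- certificate of one template -/
structure TC where
  ct : CT
  dA : RD
  dB : RD
  dC : RD
  rs : List RQ
  df : DF

/-- refined state -/
noncomputable def qOf (rs : List RQ) (i : Nat) : RQ := lget ⟨2, [], [], [], 0, 0, 0, 0⟩ rs i

/-- one transition of the refined automaton -/
noncomputable def rqN (tA tB tC : List TR) (dl e cl y x : Nat) (jA jB jC : List Nat) (r' : RQ) : Bool :=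
  RQ.rec (motive := fun _ => Bool) (fun e' jA' jB' jC' _ _ _ cl' =>
    band (Nat.beq (Nat.add e e') 1) (band (Nat.beq (nxN dl cl y) cl')
      (band (jsN tA e x jA jA') (band (jsN tB e x jB jB') (jsN tC e x jC jC'))))) r'

/-- check of a refined state -/
noncomputable def rrN (tA tB tC : List TR) (rs : List RQ) (dl ac : Nat)
    (fA fB fC : Nat → List Nat → Bool) (r : RQ) : Bool :=
  RQ.rec (motive := fun _ => Bool) (fun e jA jB jC n1 n2 n3 cl =>
    band (rqN tA tB tC dl e cl 0 1 jA jB jC (qOf rs n1))
      (band (rqN tA tB tC dl e cl 6 2 jA jB jC (qOf rs n2))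
        (band (rqN tA tB tC dl e cl 12 3 jA jB jC (qOf rs n3))
          (bor (bnot (tb ac cl)) (band (fA e jA) (band (fB e jB) (fC e jC))))))) r

/-- check of the initial refined state -/
noncomputable def r0N (iA iB iC : List Nat → Bool) (r : RQ) : Bool :=
  RQ.rec (motive := fun _ => Bool) (fun e jA jB jC _ _ _ cl =>
    band (Nat.beq e 0) (band (Nat.beq cl 0) (band (iA jA) (band (iB jB) (iC jC))))) r

/-- check of everything but validity -/
noncomputable def tcN (FA FB FC : SFn) (prom : List WProm) (lA kA lB kB lC kC : Nat)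
    (sA sB sC : List RS) (tA tB tC : List TR) (rs : List RQ) (dl ac : Nat) : Bool :=
  band (trN FA sA tA) (band (trN FB sB tB) (band (trN FC sC tC)
    (band (r0N (iniN FA 0 prom sA) (iniN FB 1 prom sB) (iniN FC 2 prom sC) (qOf rs 0))
      (lall (rrN tA tB tC rs dl ac (finN FA 0 prom lA kA sA) (finN FB 1 prom lB kB sB)
        (finN FC 2 prom lC kC sC)) rs))))

/-- the same, with structures for the roles -/
noncomputable def tcR (prom : List WProm) (rA rB rC : CRole) (dA dB dC : RD) (rs : List RQ)
    (dl ac : Nat) : Bool :=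
  CRole.rec (motive := fun _ => Bool) (fun uA cA aA bA lA kA =>
  CRole.rec (motive := fun _ => Bool) (fun uB cB aB bB lB kB =>
  CRole.rec (motive := fun _ => Bool) (fun uC cC aC bC lC kC =>
    RD.rec (motive := fun _ => Bool) (fun sA tA => RD.rec (motive := fun _ => Bool)
      (fun sB tB => RD.rec (motive := fun _ => Bool) (fun sC tC =>
        tcN (sfN prom uA cA aA bA 0 1 0 2 0) (sfN prom uB cB aB bB 1 0 0 2 1)
          (sfN prom uC cC aC bC 2 0 1 1 1) prom lA kA lB kB lC kC sA sB sC tA tB tC rs dl ac)
        dC) dB) dA) rC) rB) rA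

/-- the certificate of a template is correct -/
noncomputable def tcOK (M : Nat) (T : TC) : Bool :=
  TC.rec (motive := fun _ => Bool) (fun ct dA dB dC rs df => band (validB M ct)
    (CT.rec (motive := fun _ => Bool) (fun rA rB rC prom => DF.rec (motive := fun _ => Bool)
      (fun dl ac => tcR prom rA rB rC dA dB dC rs dl ac) df) ct)) T

/-- binary trees with data at the leaves -/
inductive BT (α : Type) where
  | leaf (a : α) : BT α
  | node (l r : BT α) : BT α

/-- the leaf with number `n` (lowest bit first) -/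
noncomputable def BT.get {α : Type} (t : BT α) : Nat → α :=
  BT.rec (motive := fun _ => Nat → α) (fun a _ => a)
    (fun _ _ ihl ihr n => Nat.rec (motive := fun _ => α) (ihl (Nat.div n 2))
      (fun _ _ => ihr (Nat.div n 2)) (Nat.mod n 2)) t

/-- all leaves satisfy `p` -/
noncomputable def BT.all {α : Type} (t : BT α) (p : α → Bool) : Bool :=
  BT.rec (motive := fun _ => Bool) (fun a => p a)
    (fun _ _ ihl ihr => Bool.rec false ihr ihl) t

/-- an entry of a pattern: a letter with index parity `e` and range `[lo, hi]`; `b = 0`: the next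
letter follows immediately, `b = 4 * be + bo`: a block follows, with letters of even index at most
`be` and letters of odd index at most `bo`. -/
structure PE where
  e : Nat
  lo : Nat
  hi : Nat
  b : Nat

/-- one step of a set of states -/
def stpN (st lt S : Nat) : Nat := Nat.lor (Nat.land S st) (Nat.land (Nat.mul 2 S) lt)

/-- the mask of the entries with the property `f`, followed by `acc` -/
noncomputable def mskL (f : PE → Bool) (F : List PE) (acc : Nat) : Nat :=
  List.rec (motive := fun _ => Nat) acc
    (fun x _ ih => Nat.add (Nat.mul 2 ih) (Bool.rec (motive := fun _ => Nat) 0 1 (f x))) F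

/-- block condition -/
noncomputable def fS (p c : Nat) (x : PE) : Bool :=
  PE.rec (motive := fun _ => Bool) (fun _ _ _ b => Nat.ble c
    (Nat.rec (motive := fun _ => Nat) (Nat.div b 4) (fun _ _ => Nat.mod b 4) p)) x

/-- letter condition -/
noncomputable def fL (p c : Nat) (x : PE) : Bool :=
  PE.rec (motive := fun _ => Bool) (fun e lo hi _ =>
    band (Nat.beq e p) (band (Nat.ble lo c) (Nat.ble c hi))) x

/-- final condition -/
noncomputable def fF (x : PE) : Bool := PE.rec (motive := fun _ => Bool) (fun _ lo _ _ => Nat.beq lo 4) x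

/-- a state of the table: offset of the successors, final flag, masks of the successors for the
letters `1, 2, 3` of even index and the letters `1, 2, 3` of odd index -/
structure SR where
  b : Nat
  f : Nat
  m1 : Nat
  m2 : Nat
  m3 : Nat
  m4 : Nat
  m5 : Nat
  m6 : Nat

/-- successors for even indices -/
noncomputable def selE (r : SR) (k : Nat → Nat → Nat → Nat → Bool) : Bool :=
  SR.rec (motive := fun _ => Bool) (fun b f m1 m2 m3 _ _ _ => frc b (fun b =>
    k (Nat.shiftLeft m1 b) (Nat.shiftLeft m2 b) (Nat.shiftLeft m3 b) f)) r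

/-- successors for odd indices -/
noncomputable def selO (r : SR) (k : Nat → Nat → Nat → Nat → Bool) : Bool :=
  SR.rec (motive := fun _ => Bool) (fun b f _ _ _ m4 m5 m6 => frc b (fun b =>
    k (Nat.shiftLeft m4 b) (Nat.shiftLeft m5 b) (Nat.shiftLeft m6 b) f)) r

/-- one pass over a packed list -/
noncomputable def pas (N : BT SR) (sel : SR → (Nat → Nat → Nat → Nat → Bool) → Bool) (n : Nat) :
    Nat → Nat → Nat → Nat → Nat → (Nat → Nat → Nat → Nat → Bool) → Bool :=
  Nat.rec (motive := fun _ => Nat → Nat → Nat → Nat → Nat → (Nat → Nat → Nat → Nat → Bool) → Bool)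
    (fun _ _ _ _ _ _ => false)
    (fun _ ih c a1 a2 a3 f k => Nat.rec (motive := fun _ => Bool) (k a1 a2 a3 f)
      (fun _ _ => sel (N.get (Nat.mod c 1048576)) (fun d1 d2 d3 g =>
        frc (Nat.lor a1 d1) fun a1 => frc (Nat.lor a2 d2) fun a2 => frc (Nat.lor a3 d3) fun a3 =>
        frc (Nat.lor f g) fun f => frc (Nat.div c 1048576) fun c' => ih c' a1 a2 a3 f k)) c) n

/-- all members of the packed list are in the mask -/
noncomputable def ainN (acc : Nat) (n : Nat) : Nat → Bool :=
  Nat.rec (motive := fun _ => Nat → Bool) (fun _ => false)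
    (fun _ ih c => Nat.rec (motive := fun _ => Bool) true
      (fun _ _ => band (tb acc (Nat.mod c 1048576)) (frc (Nat.div c 1048576) ih)) c) n

/-- adding the members of the packed list to the mask -/
noncomputable def addN (n : Nat) : Nat → Nat → (Nat → Bool) → Bool :=
  Nat.rec (motive := fun _ => Nat → Nat → (Nat → Bool) → Bool) (fun _ _ _ => false)
    (fun _ ih c acc k => Nat.rec (motive := fun _ => Bool) (k acc)
      (fun _ _ => frc (Nat.lor acc (Nat.shiftLeft 1 (Nat.mod c 1048576))) fun acc' =>
        frc (Nat.div c 1048576) fun c' => ih c' acc' k) c) n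

/-- a claim; `h = p + 2 * a + 4 * x`: the parity `p`, the kind `a`, the context `x` (a mask of
states of the pattern) -/
structure CW where
  h : Nat
  L : Nat
  V : Nat
  l1 : Nat
  l2 : Nat
  l3 : Nat

/-- check of one letter: `need` = the context states which are still open, `cm` = the context
states for which all row claims of the segment hold, `acc` = the available states; the entry
`1048575` closes a segment -/
noncomputable def edx (T : BT CW) (g q x a L A n : Nat) : Nat → Nat → Nat → Nat → Bool :=
  Nat.rec (motive := fun _ => Nat → Nat → Nat → Nat → Bool) (fun _ _ _ _ => false)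
    (fun _ ih l need cm acc => Nat.rec (motive := fun _ => Bool)
      (bor (Nat.beq need 0) (band (Nat.beq a 0) (band (Nat.beq (Nat.land L acc) L)
        (Nat.beq (Nat.land need cm) need))))
      (fun _ _ => Bool.rec (motive := fun _ => Bool)
        (CW.rec (motive := fun _ => Bool) (fun h L' V' _ _ _ =>
          band (Nat.beq (Nat.mod h 2) q) (band (ainN acc g V') (Nat.rec (motive := fun _ => Bool)
            (addN g L' acc (fun acc' => frc (Nat.land cm (Nat.div h 4)) fun cm' =>
              frc (Nat.div l 1048576) fun l' => ih l' need cm' acc'))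
            (fun _ _ => frc (Nat.xor need (Nat.land need (Nat.land cm (Nat.div h 4)))) fun need' =>
              frc (Nat.div l 1048576) fun l' => ih l' need' x A)
            (Nat.mod (Nat.div h 2) 2)))) (T.get (Nat.mod l 1048576)))
        (band (Nat.beq a 0) (band (Nat.beq (Nat.land L acc) L)
          (frc (Nat.xor need (Nat.land need cm)) fun need' =>
            frc (Nat.div l 1048576) fun l' => ih l' need' x A)))
        (Nat.beq (Nat.mod l 1048576) 1048575)) l) n

/-- check of one letter -/
noncomputable def letx (T : BT CW) (g q st lt x a L A l : Nat) : Bool :=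
  frc (stpN st lt x) (fun x' => bor (Nat.beq x' 0) (edx T g q x' a L A g l x' x' A))

/-- check of a claim -/
noncomputable def cwB (N : BT SR) (T : BT CW) (g s1 s2 s3 t1 t2 t3 u1 u2 u3 v1 v2 v3 fn : Nat)
    (r : CW) : Bool :=
  CW.rec (motive := fun _ => Bool) (fun h L V l1 l2 l3 =>
    frc (Nat.div h 4) fun x => frc (Nat.mod (Nat.div h 2) 2) fun a =>
    Nat.rec (motive := fun _ => Bool)
      (pas N selE g L 0 0 0 0 fun L1 L2 L3 _ => pas N selE g V 0 0 0 0 fun V1 V2 V3 _ =>
        band (letx T g 1 s1 t1 x a L1 V1 l1) (band (letx T g 1 s2 t2 x a L2 V2 l2)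
          (letx T g 1 s3 t3 x a L3 V3 l3)))
      (fun _ _ =>
        pas N selO g L 0 0 0 0 fun L1 L2 L3 fL => pas N selO g V 0 0 0 0 fun V1 V2 V3 fV =>
        band (letx T g 0 u1 v1 x a L1 V1 l1) (band (letx T g 0 u2 v2 x a L2 V2 l2)
          (band (letx T g 0 u3 v3 x a L3 V3 l3) (bor (Nat.beq (Nat.land (Nat.mul 2 x) fn) 0)
            (bor (bnot (Nat.beq fV 0)) (band (Nat.beq a 0) (Nat.beq fL 0)))))))
      (Nat.mod h 2)) r

/-- check of some claims -/
noncomputable def cwA (N : BT SR) (T : BT CW) (g : Nat) (X : List PE) (t : BT CW) : Bool :=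
  frc (mskL (fS 0 1) X 0) fun s1 => frc (mskL (fS 0 2) X 0) fun s2 =>
  frc (mskL (fS 0 3) X 0) fun s3 => frc (mskL (fL 0 1) X 0) fun t1 =>
  frc (mskL (fL 0 2) X 0) fun t2 => frc (mskL (fL 0 3) X 0) fun t3 =>
  frc (mskL (fS 1 1) X 0) fun u1 => frc (mskL (fS 1 2) X 0) fun u2 =>
  frc (mskL (fS 1 3) X 0) fun u3 => frc (mskL (fL 1 1) X 0) fun v1 =>
  frc (mskL (fL 1 2) X 0) fun v2 => frc (mskL (fL 1 3) X 0) fun v3 =>
  frc (mskL fF X 0) fun fn => t.all (cwB N T g s1 s2 s3 t1 t2 t3 u1 u2 u3 v1 v2 v3 fn)

/-! ### Packed tables -/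

/-- the literal which holds the record `n` (64 records in a literal) -/
noncomputable def c64 (T : BT Nat) (n : Nat) : Nat :=
  Nat.rec (motive := fun _ => Nat) (T.get 0) (fun k _ => T.get k) (Nat.succ (Nat.div n 64))

/-- record `n` of width `w` -/
noncomputable def r64 (w : Nat) (T : BT Nat) (n : Nat) : Nat :=
  Nat.mod (Nat.shiftRight (c64 T n) (Nat.mul w (Nat.mod n 64))) (Nat.pow 2 w)

/-- the union of `f` over the four parts of the record `r` -/
noncomputable def lr4 (f : Nat → Nat) (r : Nat) : Nat :=
  Nat.lor (Nat.lor (frc (Nat.mod r 1048576) f) (frc (Nat.mod (Nat.shiftRight r 20) 1048576) f))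
    (Nat.lor (frc (Nat.mod (Nat.shiftRight r 40) 1048576) f) (frc (Nat.shiftRight r 60) f))

/-- nodes up to this number have at most the depth `d` -/
noncomputable def thr (T : BT Nat) (d : Nat) : Nat :=
  Nat.mod (Nat.shiftRight (T.get 0) (Nat.mul 20 d)) 1048576

/-- the mask of a set; a node of depth `0` is the empty set `0` or the set of the state `n - 1`, a
node `n` of larger depth is the union of four nodes -/
noncomputable def um (T : BT Nat) (W d : Nat) : Nat → Nat :=
  Nat.rec (motive := fun _ => Nat → Nat)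
    (fun n => Nat.rec (motive := fun _ => Nat) 0 (fun e _ => Nat.shiftLeft 1 (Nat.mod e W)) n)
    (fun d ih n => Bool.rec (motive := fun _ => Nat) (frc (r64 80 T n) (lr4 ih)) (ih n)
      (Nat.ble n (thr T d))) d

/-- the union of `s` over a set -/
noncomputable def us (T : BT Nat) (W : Nat) (s : Nat → Nat) (d : Nat) : Nat → Nat :=
  Nat.rec (motive := fun _ => Nat → Nat)
    (fun n => Nat.rec (motive := fun _ => Nat) 0 (fun e _ => frc (Nat.mod e W) s) n)
    (fun d ih n => Bool.rec (motive := fun _ => Nat) (frc (r64 80 T n) (lr4 ih)) (ih n)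
      (Nat.ble n (thr T d))) d

/-- the mask of the set `r = 2 ^ 20 * d + n` -/
noncomputable def umR (T : BT Nat) (W r : Nat) : Nat :=
  Nat.rec (motive := fun _ => Nat) (um T W (Nat.div r 1048576) 0)
    (fun n _ => um T W (Nat.div r 1048576) n) (Nat.succ (Nat.mod r 1048576))

noncomputable def usR (T : BT Nat) (W : Nat) (s : Nat → Nat) (r : Nat) : Nat :=
  Nat.rec (motive := fun _ => Nat) (us T W s (Nat.div r 1048576) 0)
    (fun n _ => us T W s (Nat.div r 1048576) n) (Nat.succ (Nat.mod r 1048576))

/-- record of a state: offset (16 bits), final flag, distance of the record with the successors for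
odd indices (6 bits), three masks of `w` bits -/
noncomputable def nR (w : Nat) (N : BT Nat) (q : Nat) : Nat := r64 (Nat.add 23 (Nat.mul 3 w)) N q

noncomputable def nO (w : Nat) (N : BT Nat) (q : Nat) : Nat :=
  Nat.rec (motive := fun _ => Nat) (nR w N 0) (fun k _ => nR w N k)
    (Nat.succ (Nat.add q (Nat.mod (Nat.shiftRight (nR w N q) 17) 64)))

noncomputable def nM (w r i : Nat) : Nat :=
  Nat.mod (Nat.shiftRight r (Nat.add 23 (Nat.mul w i))) (Nat.pow 2 w)

/-- the state `q` -/
noncomputable def ng (w : Nat) (N : BT Nat) (q : Nat) : SR :=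
  SR.mk (Nat.mod (nR w N q) 65536) (Nat.mod (Nat.shiftRight (nR w N q) 16) 2)
    (nM w (nR w N q) 0) (nM w (nR w N q) 1) (nM w (nR w N q) 2)
    (nM w (nO w N q) 0) (nM w (nO w N q) 1) (nM w (nO w N q) 2)

noncomputable def pk3 (W a b c : Nat) : Nat :=
  Nat.lor a (Nat.shiftLeft (Nat.lor b (Nat.shiftLeft c W)) W)

noncomputable def pk4 (W a b c d : Nat) : Nat :=
  Nat.lor a (Nat.shiftLeft (Nat.lor b (Nat.shiftLeft (Nat.lor c (Nat.shiftLeft d W)) W)) W)

/-- packed successors for even indices -/
noncomputable def sE (W : Nat) (r : SR) : Nat :=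
  SR.rec (motive := fun _ => Nat) (fun b _ m1 m2 m3 _ _ _ =>
    pk3 W (Nat.shiftLeft m1 b) (Nat.shiftLeft m2 b) (Nat.shiftLeft m3 b)) r

/-- packed successors for odd indices -/
noncomputable def sO (W : Nat) (r : SR) : Nat :=
  SR.rec (motive := fun _ => Nat) (fun b f _ _ _ m1 m2 m3 =>
    pk4 W (Nat.shiftLeft m1 b) (Nat.shiftLeft m2 b) (Nat.shiftLeft m3 b) f) r

/-! ### Claims -/

/-- kind and context of the claim `j` -/
noncomputable def yq (C : BT Nat) (j : Nat) : Nat := Nat.mod (r64 149 C j) 268435456

/-- a set of the claim with the record `r` -/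
noncomputable def fst (f : Nat → Nat) (r o : Nat) : Nat :=
  Nat.rec (motive := fun _ => Nat) (f 0) (fun k _ => f k)
    (Nat.succ (Nat.mod (Nat.shiftRight r o) 1073741824))

noncomputable def mV (W : Nat) (T C : BT Nat) (j : Nat) : Nat := fst (umR T W) (r64 149 C j) 58

noncomputable def mL (W : Nat) (T C : BT Nat) (j : Nat) : Nat := fst (umR T W) (r64 149 C j) 28

noncomputable def mM (W : Nat) (T C : BT Nat) (j : Nat) : Nat :=
  Nat.rec (motive := fun _ => Nat) (mL W T C j) (fun _ _ => Nat.sub (Nat.pow 2 W) 1)
    (Nat.mod (r64 149 C j) 2)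

/-- defects of an inclusion -/
noncomputable def dsb (a b : Nat) : Nat := Nat.xor a (Nat.land a b)

/-- flag: no condition at the end of the word -/
noncomputable def zfl (fn z : Nat) : Nat :=
  Nat.rec (motive := fun _ => Nat) 1 (fun _ _ => 0) (Nat.land z fn)

/-- all letters with single references -/
noncomputable def sgR (W : Nat) (T C : BT Nat) (fn F G Y z i1 i2 i3 : Nat) : Nat :=
  Nat.lor (dsb Y (pk3 28 (yq C i1) (yq C i2) (yq C i3)))
    (Nat.lor (dsb (pk3 W (mV W T C i1) (mV W T C i2) (mV W T C i3)) G)
      (dsb (Nat.lor F (Nat.mul (Nat.mod z 2) (Nat.pow 2 (Nat.mul 3 W))))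
        (Nat.lor G (pk4 W (mM W T C i1) (mM W T C i2) (mM W T C i3) (zfl fn z)))))

noncomputable def edE (a L need cm acc : Nat) : Bool :=
  Bool.rec (motive := fun _ => Bool) (Bool.rec (motive := fun _ => Bool) false
    (Bool.rec (motive := fun _ => Bool) false (Nat.beq (Nat.land need cm) need)
      (Nat.beq (Nat.land L acc) L)) (Nat.beq a 0)) true (Nat.beq need 0)

noncomputable def edR (W : Nat) (T C : BT Nat) (x A : Nat) (ih : Nat → Nat → Nat → Nat → Bool)
    (l need cm acc j : Nat) : Bool :=
  Bool.rec (motive := fun _ => Bool) false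
    (Nat.rec (motive := fun _ => Bool)
      (ih (Nat.div l 1048576) need (Nat.land cm (Nat.div (yq C j) 2)) (Nat.lor acc (mL W T C j)))
      (fun _ _ => ih (Nat.div l 1048576) (Nat.xor need (Nat.land need (Nat.land cm
        (Nat.div (yq C j) 2)))) x A)
      (Nat.mod (r64 149 C j) 2))
    (Nat.beq (Nat.land (mV W T C j) acc) (mV W T C j))

noncomputable def edJ (W : Nat) (T C : BT Nat) (x a L A : Nat) (ih : Nat → Nat → Nat → Nat → Bool)
    (l need cm acc j : Nat) : Bool :=
  Bool.rec (motive := fun _ => Bool) (edR W T C x A ih l need cm acc j)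
    (Bool.rec (motive := fun _ => Bool) false
      (Bool.rec (motive := fun _ => Bool) false
        (ih (Nat.div l 1048576) (Nat.xor need (Nat.land need cm)) x A)
        (Nat.beq (Nat.land L acc) L)) (Nat.beq a 0)) (Nat.beq j 1048575)

noncomputable def edy (W : Nat) (T C : BT Nat) (x a L A : Nat) (n : Nat) :
    Nat → Nat → Nat → Nat → Bool :=
  Nat.rec (motive := fun _ => Nat → Nat → Nat → Nat → Bool) (fun _ _ _ _ => false)
    (fun _ ih l need cm acc => Nat.rec (motive := fun _ => Bool) (edE a L need cm acc)
      (fun _ _ => frc (Nat.mod l 1048576) (edJ W T C x a L A ih l need cm acc)) l) n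

/-- defects of a letter with a list of references -/
noncomputable def mlt (W : Nat) (T C : BT Nat) (a L A x l : Nat) : Nat :=
  Nat.rec (motive := fun _ => Nat) 0 (fun _ _ => Bool.rec (motive := fun _ => Nat) 1 0
    (frc x fun x => edy W T C x a L A 4000 l x x A)) x

/-- the list at the bit `o` of `b` -/
noncomputable def lsb (b o : Nat) : Nat :=
  Nat.mod (Nat.shiftRight b (Nat.add 10 o)) (Nat.pow 2 (Nat.mul 20
    (Nat.mod (Nat.shiftRight b o) 1024)))

/-- the lane `i` of width `W` -/
noncomputable def lan (W i F : Nat) : Nat := Nat.mod (Nat.shiftRight F (Nat.mul i W)) (Nat.pow 2 W)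

/-- all letters with lists of references -/
noncomputable def mlR (W : Nat) (T C : BT Nat) (fn F G Y z b i1 i2 i3 : Nat) : Nat :=
  Nat.lor (dsb (Nat.lor F (Nat.mul (Nat.mod z 2) (Nat.pow 2 (Nat.mul 3 W))))
      (Nat.lor G (Nat.add (Nat.sub (Nat.pow 2 (Nat.mul 3 W)) 1)
        (Nat.mul (zfl fn z) (Nat.pow 2 (Nat.mul 3 W))))))
  (Nat.lor (mlt W T C (Nat.mod z 2) (lan W 0 F) (lan W 0 G) (Nat.div (lan 28 0 Y) 2) (lsb b i1))
  (Nat.lor (mlt W T C (Nat.mod z 2) (lan W 1 F) (lan W 1 G) (Nat.div (lan 28 1 Y) 2) (lsb b i2))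
    (mlt W T C (Nat.mod z 2) (lan W 2 F) (lan W 2 G) (Nat.div (lan 28 2 Y) 2) (lsb b i3))))

/-- the letters -/
noncomputable def cyL (W : Nat) (T C : BT Nat) (fn F G Y b r : Nat) : Nat :=
  Nat.rec (motive := fun _ => Nat)
    (frc (Nat.mod (Nat.shiftRight r 88) 1048576) fun i1 =>
      frc (Nat.mod (Nat.shiftRight r 108) 1048576) fun i2 =>
      frc (Nat.mod (Nat.shiftRight r 128) 1048576) fun i3 =>
      sgR W T C fn F G Y (Nat.mod r 268435456) i1 i2 i3)
    (fun _ _ => mlR W T C fn F G Y (Nat.mod r 268435456) b (Nat.mod (Nat.shiftRight r 88) 1048576)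
      (Nat.mod (Nat.shiftRight r 108) 1048576) (Nat.mod (Nat.shiftRight r 128) 1048576))
    (Nat.shiftRight r 148)

/-- packed contexts of the letters -/
noncomputable def yst (S U z : Nat) : Nat :=
  Nat.lor (Nat.land (Nat.mul z 0x100000010000001) S)
    (Nat.land (Nat.mul 2 (Nat.mul z 0x100000010000001)) U)

/-- defects of a record `r` of the literal `b` -/
noncomputable def cyR (W : Nat) (T C : BT Nat) (s : Nat → Nat) (S U fn b r : Nat) : Nat :=
  cyL W T C fn (fst (usR T W s) r 28) (fst (usR T W s) r 58) (yst S U (Nat.mod r 268435456)) b r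

/-- all records of a literal -/
noncomputable def cyC (f : Nat → Nat → Nat) (b : Nat) : Bool :=
  Nat.beq (Nat.rec (motive := fun _ => Nat) 0 (fun k ih => Nat.lor ih (
    Nat.rec (motive := fun _ => Nat) (f b 0) (fun r _ => f b r) (Nat.succ
    (Nat.mod (Nat.shiftRight b (Nat.mul 149 k)) (Nat.pow 2 149))))) 64) 0

noncomputable def cS (p : Nat) (X : List PE) : Nat :=
  pk3 28 (Nat.succ (Nat.mul 2 (mskL (fS p 1) X 0))) (Nat.succ (Nat.mul 2 (mskL (fS p 2) X 0)))
    (Nat.succ (Nat.mul 2 (mskL (fS p 3) X 0)))

noncomputable def cU (p : Nat) (X : List PE) : Nat :=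
  pk3 28 (Nat.mul 2 (mskL (fL p 1) X 0)) (Nat.mul 2 (mskL (fL p 2) X 0))
    (Nat.mul 2 (mskL (fL p 3) X 0))

noncomputable def cF (X : List PE) : Nat := Nat.mul 2 (Nat.div (mskL fF X 0) 2)

/-- check of even claims -/
noncomputable def cyE (w W : Nat) (N T C : BT Nat) (X : List PE) (t : BT Nat) : Bool :=
  frc (cS 0 X) fun S => frc (cU 0 X) fun U => t.all (cyC (cyR W T C (fun q => sE W (ng w N q)) S U 0))

/-- check of odd claims -/
noncomputable def cyO (w W : Nat) (N T C : BT Nat) (X : List PE) (t : BT Nat) : Bool :=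
  frc (cS 1 X) fun S => frc (cU 1 X) fun U => frc (cF X) fun fn =>
    t.all (cyC (cyR W T C (fun q => sO W (ng w N q)) S U fn))

/-! ### Patterns -/

/-- the last entries -/
noncomputable def lastB : List PE → Bool :=
  List.rec (motive := fun _ => Bool) false (fun x s _ => PE.rec (motive := fun _ => Bool)
    (fun e lo hi b => band (Nat.beq e 0) (band (Nat.beq lo 4) (band (Nat.beq hi 4)
      (band (Nat.beq b 0) (List.rec (motive := fun _ => Bool) true (fun _ _ _ => false) s))))) x)

/-- well formed rest of a pattern -/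
noncomputable def wfR : List PE → Bool :=
  List.rec (motive := fun _ => Bool) false (fun x s ih => PE.rec (motive := fun _ => Bool)
    (fun e lo hi b => Bool.rec (motive := fun _ => Bool)
      (band (Nat.beq e 1) (band (Nat.beq lo 4) (band (Nat.beq hi 4) (band (Nat.beq b 0) (lastB s)))))
      (band (Nat.ble hi 3) (band (Nat.ble b 15) ih)) (Nat.ble lo 3)) x)

/-- well formed pattern -/
noncomputable def wfP : List PE → Bool :=
  List.rec (motive := fun _ => Bool) false (fun x s _ => PE.rec (motive := fun _ => Bool)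
    (fun e lo hi b => band (Nat.beq e 0) (band (Nat.beq lo 4) (band (Nat.beq hi 4)
      (band (Nat.beq b 0) (List.rec (motive := fun _ => Bool) false
        (fun y r _ => PE.rec (motive := fun _ => Bool) (fun e' lo' hi' b' =>
          band (Nat.beq e' 1) (band (Nat.beq lo' 4) (band (Nat.beq hi' 4) (band (Nat.ble b' 15)
            (wfR r))))) y) s))))) x)

/-- the masks of a state of a pattern: the block after `x`, the letter `y` -/
noncomputable def xm (p c : Nat) (x y : PE) : Nat :=
  Nat.add (Bool.rec (motive := fun _ => Nat) 0 1 (fS p c x))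
    (Bool.rec (motive := fun _ => Nat) 0 2 (fL p c y))

/-- subsets -/
def subN (a b : Nat) : Bool := Nat.beq (Nat.land a b) a

/-- check of a state of a pattern -/
noncomputable def psB (x y : PE) (q : Nat) (r : SR) : Bool :=
  SR.rec (motive := fun _ => Bool) (fun b f m1 m2 m3 m4 m5 m6 => band (Nat.beq b q)
    (band (bor (Nat.beq f 0) (fF y)) (band (subN m1 (xm 0 1 x y)) (band (subN m2 (xm 0 2 x y))
      (band (subN m3 (xm 0 3 x y)) (band (subN m4 (xm 1 1 x y)) (band (subN m5 (xm 1 2 x y))
        (subN m6 (xm 1 3 x y))))))))) r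

/-- check of the states of a pattern -/
noncomputable def patB (N : Nat → SR) : List PE → Nat → Bool :=
  List.rec (motive := fun _ => Nat → Bool) (fun _ => false)
    (fun x s ih q => List.rec (motive := fun _ => Bool) false (fun y _ _ =>
      band (psB x y q (N q)) (bor (fF y) (frc (Nat.succ q) ih))) s)

/-- check of a pattern -/
noncomputable def itP (N : Nat → SR) (b : Nat) (p : List PE) : Bool :=
  band (wfP p) (List.rec (motive := fun _ => Bool) false (fun _ s _ => patB N s b) p)

/-! ### Automata -/

/-- the only successor may be `y` -/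
noncomputable def oneB (n m y : Nat) : Bool :=
  bor (Nat.beq m 0) (band (Nat.ble (Nat.succ y) n) (Nat.beq m (Nat.pow 2 y)))

/-- check of one state -/
noncomputable def fwS (n b y1 y2 y3 : Nat) (acc : Bool) (r : SR) : Bool :=
  SR.rec (motive := fun _ => Bool) (fun b' f m1 m2 m3 m4 m5 m6 => band (Nat.beq b' b)
    (band (bor (Nat.beq f 0) acc) (band (oneB n m1 y1) (band (oneB n m2 y2) (band (oneB n m3 y3)
      (band (oneB n m4 y1) (band (oneB n m5 y2) (oneB n m6 y3)))))))) r

/-- check of an automaton -/
noncomputable def itF (N : Nat → SR) (b n : Nat) (nx : Nat → Nat → Nat) (ac : Nat) : Bool :=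
  band (Nat.ble 1 n) (allB (fun s => fwS n b (nx s 1) (nx s 2) (nx s 3) (tb ac s)
    (N (Nat.add b s))) n)

/-- the reversed relation: bit `64 * s + t` for `nx t = s` -/
noncomputable def relN (nx : Nat → Nat) (n : Nat) : Nat :=
  Nat.rec (motive := fun _ => Nat) 0 (fun t ih => Nat.lor ih
    (Nat.shiftLeft 1 (Nat.add (Nat.mul 64 (nx t)) t))) n

/-- row `s` -/
def slN (r s : Nat) : Nat := Nat.mod (Nat.shiftRight r (Nat.mul 64 s)) 0x10000000000000000

/-- check of one state -/
noncomputable def bwS (b r1 r2 r3 s : Nat) (r : SR) : Bool :=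
  SR.rec (motive := fun _ => Bool) (fun b' f m1 m2 m3 m4 m5 m6 => band (Nat.beq b' b)
    (band (bor (Nat.beq f 0) (Nat.beq s 0)) (band (subN m1 (slN r1 s)) (band (subN m2 (slN r2 s))
      (band (subN m3 (slN r3 s)) (band (subN m4 (slN r1 s)) (band (subN m5 (slN r2 s))
        (subN m6 (slN r3 s))))))))) r

/-- check of a reversed automaton -/
noncomputable def itR (N : Nat → SR) (b n : Nat) (nx : Nat → Nat → Nat) : Bool :=
  band (Nat.ble n 64) (frc (relN (fun t => nx t 1) n) fun r1 => frc (relN (fun t => nx t 2) n) fun r2 =>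
    frc (relN (fun t => nx t 3) n) fun r3 => allB (fun s => bwS b r1 r2 r3 s (N (Nat.add b s))) n)

/-- the items: patterns, automata, reversed automata; `b` is the number of the first state, `n` the
number of states -/
inductive Itm where
  | pat (b : Nat) (p : List PE) : Itm
  | fwd (b n : Nat) (d : DF) : Itm
  | bwd (b n : Nat) (d : DF) : Itm

/-- successor of a small automaton -/
def nxS (dl q c : Nat) : Nat := nxN dl q (Nat.mul 6 (Nat.sub c 1))

/-- check of an item -/
noncomputable def itB (N : Nat → SR) (i : Itm) : Bool :=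
  Itm.rec (motive := fun _ => Bool) (fun b p => itP N b p)
    (fun b n d => DF.rec (motive := fun _ => Bool) (fun dl ac => itF N b n (nxS dl) ac) d)
    (fun b n d => DF.rec (motive := fun _ => Bool) (fun dl _ => itR N b n (nxS dl)) d) i

/-- the starts of an item -/
noncomputable def itS (i : Itm) : Nat :=
  Itm.rec (motive := fun _ => Nat) (fun b _ => Nat.shiftLeft 1 b)
    (fun b _ _ => Nat.shiftLeft 1 b)
    (fun b n d => DF.rec (motive := fun _ => Nat) (fun _ ac =>
      Nat.shiftLeft (Nat.mod ac (Nat.pow 2 n)) b) d) i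

/-- the starts of all items -/
noncomputable def stM (t : BT Itm) : Nat → Nat :=
  BT.rec (motive := fun _ => Nat → Nat) (fun i acc => Nat.lor acc (itS i))
    (fun _ _ ihl ihr acc => frc (ihl acc) ihr) t

/-- bounds of the records of a literal -/
noncomputable def nbC (w W b : Nat) : Bool :=
  allB (fun k => Nat.ble (Nat.add (Nat.mod (Nat.shiftRight b (Nat.mul (Nat.add 23 (Nat.mul 3 w)) k))
    65536) w) W) 64

/-- bounds of the table of states -/
noncomputable def nbB (w W : Nat) (N : BT Nat) : Bool := N.all (nbC w W)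

/-- length of a list -/
noncomputable def lenN (X : List PE) : Nat :=
  List.rec (motive := fun _ => Nat) 0 (fun _ _ ih => Nat.succ ih) X

/-- check of the first claim -/
noncomputable def topY (W : Nat) (T C : BT Nat) (X : List PE) (I : BT Itm) : Bool :=
  band (wfP X) (band (Nat.ble (lenN X) 27) (band (Nat.ble 1 W)
    (band (Nat.beq (Nat.mod (r64 149 C 2) 2) 1) (band (tb (r64 149 C 2) 2)
      (frc (stM I 0) fun st => Nat.beq (dsb (mV W T C 2) st) 0)))))

end MPb6P
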