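import Pool.Agent.Lib.MP_b6d339_lc.Pos.L1

/-!
# Packed label templates

Definitions evaluated by the kernel.
-/

namespace MPb6P

/-! ### Packed templates -/

/-- lane `v` of 32 bits -/
noncomputable def lnQ (T v : Nat) : Nat := Nat.mod (Nat.shiftRight T (Nat.mul 32 v)) 4294967296

/-- 64 lanes with bit 0 set -/
def onQ : Nat := 0x1000000010000000100000001000000010000000100000001000000010000000100000001000000010000000100000001000000010000000100000001000000010000000100000001000000010000000100000001000000010000000100000001000000010000000100000001000000010000000100000001000000010000000100000001000000010000000100000001000000010000000100000001000000010000000100000001000000010000000100000001000000010000000100000001000000010000000100000001000000010000000100000001000000010000000100000001000000010000000100000001000000010000000100000001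

/-- bit `k` of the lane `v` is set if `v < h k` -/
noncomputable def taQ (h : Nat → Nat) (n : Nat) : Nat :=
  Nat.rec (motive := fun _ => Nat) 0 (fun k ih => Nat.lor ih
    (Nat.shiftLeft (Nat.mod onQ (Nat.pow 2 (Nat.mul 32 (h k)))) k)) n

/-- test for steps: masks of the own promises of the parity, tables of the own promises, number of
flags, masks and tables of the promises of the other role -/
noncomputable def sqB (us ct al Em Sm Lm Gm nf Xm Sx Lx Gx lo hi p2 p1 fl l fl' : Nat) : Bool :=
  band (Nat.ble p1 l) (band (tb us l) (band (bor (bnot (Nat.beq p1 l)) (bnot (tb ct l)))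
    (band (allSet al p1 l) (band (allClr ct p1 l)
    (band (bor (Nat.ble 4 lo)
      (bnot (subN (Nat.land (Nat.land Xm (lnQ Gx hi)) (lnQ Lx p2)) (lnQ Sx l))))
    (frc (dsb (Nat.land Em (lnQ Sm p2)) (lnQ Lm l)) fun Z =>
      frc (Nat.land Z (lnQ Gm (Nat.succ lo))) fun W =>
      band (Nat.beq (Nat.shiftRight W nf) 0) (subN fl' (Nat.lor fl (Nat.xor Z W)))))))))

/-- flags after a letter `4` -/
noncomputable def ufQ (Em Sm Lm fm p2 l fl : Nat) : Nat :=
  Nat.lor fl (Nat.land (dsb (Nat.land Em (lnQ Sm p2)) (lnQ Lm l)) fm)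

/-- spread of a letter range `lo + 4 * hi` -/
noncomputable def spQ (q : Nat) : Nat := Nat.mod (Nat.shiftRight 0x2000000000000000000000000000000000000000000000000000010000000000000000020000000000000000000000000000000000080000000000000000100000000000000000200000000000000000400000000000000000800000000000000001000000000000000000000000000000000000000000000000000000000000000000000000000000000000000020000000000000000000000000000000000000000000000000000100000000000000000200000000000000000000000000000000000800000000000000001000000000000000000000000000000000000000000000000000000000000000000000000000000000000000000000000000000000000000000000000000000000000000000000000000000000000000200000000000000000000000000000000000000000000000000001000000000000000000000000000000000000000000000000000000000000000000000000000000000000000000000000000000000000000000000000000000000000000000000000000000000000000000000000000000000000000000000000000000000000000000000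
  (Nat.mul 213 q)) 0x200000000000000000000000000000000000000000000000000000

/-- state `i`: `p2 + 2 ^ 6 * p1 + 2 ^ 12 * fl` -/
noncomputable def stQ (S i : Nat) : Nat := Nat.mod (Nat.shiftRight S (Nat.mul 20 i)) 1048576

/-- the contribution of the transition `t = i + 64 * j + 4096 * lo + 16384 * hi` -/
noncomputable def trQ (F : Nat → Nat → Nat → Nat → Nat → Nat → Nat → Bool) (S t : Nat) : Nat :=
  frc (stQ S (Nat.mod t 64)) fun a => frc (stQ S (Nat.mod (Nat.shiftRight t 6) 64)) fun b =>
  Bool.rec (motive := fun _ => Nat) 0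
    (Nat.shiftLeft (spQ (Nat.shiftRight t 12)) (Nat.add (Nat.mul 213 (Nat.mod t 64))
      (Nat.add 12 (Nat.mod (Nat.shiftRight t 6) 64))))
    (band (Nat.beq (Nat.mod b 64) (Nat.mod (Nat.shiftRight a 6) 64))
      (F (Nat.mod (Nat.shiftRight t 12) 4) (Nat.shiftRight t 14) (Nat.mod a 64)
        (Nat.mod (Nat.shiftRight a 6) 64) (Nat.shiftRight a 12) (Nat.mod (Nat.shiftRight b 6) 64)
        (Nat.shiftRight b 12)))

/-- the relation of all transitions -/
noncomputable def rowQ (g : Nat) (F : Nat → Nat → Nat → Nat → Nat → Nat → Nat → Bool) (S T n : Nat) : Nat :=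
  Nat.rec (motive := fun _ => Nat) g (fun k ih => Nat.lor ih
    (frc (Nat.mod (Nat.shiftRight T (Nat.mul 16 k)) 65536) (trQ F S))) n

/-- the image of the members of the list which are in the set `m` -/
noncomputable def imQ (R m n : Nat) : Nat → Nat :=
  Nat.rec (motive := fun _ => Nat → Nat) (fun _ => 0)
    (fun _ ih z => Nat.rec (motive := fun _ => Nat) 0 (fun y _ => frc (Nat.mod y 64) fun j =>
      Nat.lor (Bool.rec (motive := fun _ => Nat) 0
        (Nat.mod (Nat.shiftRight R (Nat.mul 213 j)) 0x200000000000000000000000000000000000000000000000000000) (tb m j))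
        (frc (Nat.div y 64) ih)) z) n

/-- the members of the list with the property `p` -/
noncomputable def qmQ (p : Nat → Bool) (n : Nat) : Nat → Nat :=
  Nat.rec (motive := fun _ => Nat → Nat) (fun _ => 0)
    (fun _ ih z => Nat.rec (motive := fun _ => Nat) 0 (fun y _ => frc (Nat.mod y 64) fun j =>
      Nat.lor (Bool.rec (motive := fun _ => Nat) 0 (Nat.shiftLeft 1 j) (p j))
        (frc (Nat.div y 64) ih)) z) n

/-- key of the record `n`: 12 bits, the set, the class, the bit 1 -/
noncomputable def kyQ (P n : Nat) : Nat :=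
  Nat.mod (Nat.shiftRight P (Nat.mul 149 n)) 0x800000000000000000

/-- expected classes -/
noncomputable def dlQ (dl cl : Nat) : Nat := Nat.lor 0x100000000000000000200000000000000000400000000000000000
  (Nat.shiftLeft (pk3 71 (nxN dl cl 0) (nxN dl cl 6) (nxN dl cl 12)) 64)

/-- check of the record `r` -/
noncomputable def pcQ (P' R Q dl ac r : Nat) : Bool :=
  frc (Nat.mod (Nat.shiftRight r 12) 0x10000000000000) fun m =>
  frc (Nat.mod (Nat.shiftRight r 64) 64) fun cl =>
  frc (pk3 71 (kyQ P' (Nat.mod (Nat.shiftRight r 71) 1024))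
    (kyQ P' (Nat.mod (Nat.shiftRight r 81) 1024))
    (kyQ P' (Nat.mod (Nat.shiftRight r 91) 1024))) fun K =>
  band (subN (Nat.land K 0x3ffffffffffffc00007ffffffffffff80000fffffffffffff000) (imQ R m 8 (Nat.shiftRight r 101)))
    (band (Nat.beq (Nat.land K 0x1fc0000000000000003f80000000000000007f0000000000000000) (dlQ dl cl))
      (bor (bnot (tb ac cl)) (bnot (Nat.beq (Nat.land m Q) 0))))

/-- check of all records -/
noncomputable def paQ (P P' R Q dl ac : Nat) : Bool :=
  allB (fun k => frc (Nat.mod (Nat.shiftRight P (Nat.mul 149 k)) 0x20000000000000000000000000000000000000)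
    (pcQ P' R Q dl ac)) (Nat.mod P 4096)

/-- initial states -/
noncomputable def inQ (F0 F1 : Nat → Nat → Nat → Nat → Nat → Nat → Nat → Bool)
    (U0 : Nat → Nat → Nat → Nat) (S j : Nat) : Bool :=
  frc (stQ S j) fun a => frc (Nat.mod a 64) fun p2 => frc (U0 0 p2 0) fun g =>
    band (F0 4 4 0 0 0 p2 g) (F1 4 4 0 p2 g (Nat.mod (Nat.shiftRight a 6) 64) (Nat.shiftRight a 12))

/-- final states -/
noncomputable def fiQ (F F' : Nat → Nat → Nat → Nat → Nat → Nat → Nat → Bool)
    (U U' : Nat → Nat → Nat → Nat) (fm l1 l2 S j : Nat) : Bool :=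
  frc (stQ S j) fun a => frc (Nat.mod (Nat.shiftRight a 6) 64) fun p1 =>
    frc (U (Nat.mod a 64) l2 (Nat.shiftRight a 12)) fun g => frc (U' p1 l1 g) fun g' =>
    band (subN fm g') (band (F 4 4 (Nat.mod a 64) p1 (Nat.shiftRight a 12) l2 g)
      (F' 4 4 p1 l2 g l1 g'))

/-- check of one role -/
noncomputable def rlQ (g : Nat) (F0 F1 : Nat → Nat → Nat → Nat → Nat → Nat → Nat → Bool)
    (U0 U1 : Nat → Nat → Nat → Nat) (fm l1 l2 dl ac m0 m1 S T0 T1 P0 P1 Q0 Q1 : Nat) : Bool :=
  band (Nat.beq (Nat.mod (Nat.shiftRight P0 64) 128) 64)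
  (band (Nat.beq (Nat.shiftRight P0 (Nat.mul 149 (Nat.mod P0 4096))) 0)
  (band (Nat.beq (Nat.shiftRight P1 (Nat.mul 149 (Nat.mod P1 4096))) 0)
  (band (subN (Nat.mod (Nat.shiftRight P0 12) 0x10000000000000)
    (qmQ (inQ F0 F1 U0 S) 8 (Nat.mod (Nat.shiftRight P0 101) 0x1000000000000)))
  (frc (qmQ (fiQ F0 F1 U0 U1 fm l1 l2 S) 64 Q0) fun q0 =>
  frc (qmQ (fiQ F1 F0 U1 U0 fm l1 l2 S) 64 Q1) fun q1 =>
  frc (rowQ g F0 S T0 m0) fun R0 => frc (rowQ (Nat.succ g) F1 S T1 m1) fun R1 =>
    band (paQ P0 P1 R0 q0 dl ac) (paQ P1 P0 R1 q1 dl ac)))))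

/-- data of a role: `us + 2 ^ 64 * ct + 2 ^ 128 * a0 + 2 ^ 192 * a1 + 2 ^ 256 * l1 + 2 ^ 262 * l2`
and the numbers of transitions, promises `n + 2 ^ 6 * nf + 2 ^ 12 * E + 2 ^ 44 * P`, states,
transitions, sets, final states -/
structure TR2 where
  c : Nat
  p : Nat
  s : Nat
  t0 : Nat
  t1 : Nat
  p0 : Nat
  p1 : Nat
  q0 : Nat
  q1 : Nat

/-- certificate of a template -/
structure TQ where
  a : TR2
  b : TR2
  c : TR2
  df : DF

/-- a field of 64 bits -/
noncomputable def f64 (c i : Nat) : Nat :=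
  Nat.mod (Nat.shiftRight c i) 0x10000000000000000

/-- defects of common labels -/
noncomputable def coQ (U us' X Y La La' : Nat) : Nat :=
  Nat.lor (dsb (Nat.land U us') X) (Nat.lor (Nat.land (Nat.land U us') Y)
    (Nat.land (Nat.land U us') (Nat.xor La La')))

/-- defects of timing, host parity 0 -/
noncomputable def t0Q (S La uc' a0' a1' l1' : Nat) : Nat :=
  Nat.lor (Nat.lor (dsb S a0') (Nat.land S a1')) (Nat.lor (Nat.shiftRight S (Nat.succ l1'))
    (dsb (Nat.land S La) uc'))

/-- defects of timing, host parity 1 -/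
noncomputable def t1Q (S La uc' a0' l1' : Nat) : Nat :=
  Nat.lor (Nat.land S a0') (Nat.lor (Nat.shiftRight S (Nat.succ l1')) (dsb (Nat.land S La) uc'))

/-- parked promises -/
noncomputable def pkQ (us n nf E P b0 b1 : Nat) : Bool :=
  allB (fun k => frc (Nat.mod (Nat.shiftRight P (Nat.mul 15 (Nat.add nf k))) 32768) fun t =>
    frc (Nat.mod t 64) fun sm =>
    band (Nat.beq (Nat.succ (Nat.succ sm)) (Nat.mod (Nat.shiftRight t 6) 64))
      (band (bnot (tb us (Nat.succ sm))) (Nat.ble (Nat.succ (Nat.succ sm))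
        (Bool.rec (motive := fun _ => Nat) b0 b1 (tb E (Nat.add nf k)))))) (Nat.sub n nf)

/-- validity of one role -/
noncomputable def vrQ (us ct a0 a1 l1 l2 n nf E P : Nat) : Bool :=
  band (bnot (tb us 0)) (band (Nat.beq (Nat.land (Nat.land us ct) (Nat.land a0 a1)) 0)
    (band (lstB ⟨us, ct, a0, a1, l1, l2⟩)
      (frc (Bool.rec (motive := fun _ => Nat) l2 l1 (piB a0 a1 l1 0)) fun b0 =>
      frc (Bool.rec (motive := fun _ => Nat) l2 l1 (piB a0 a1 l1 1)) fun b1 =>
      pkQ us n nf E P b0 b1)))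

/-- the values of one role -/
noncomputable def roQ (c p : Nat)
    (k : Nat → Nat → Nat → Nat → Nat → Nat → Nat → Nat → Nat → Nat → Nat → Nat → Nat → Bool) :
    Bool :=
  frc (Nat.mod p 64) fun n => frc (Nat.mod (Nat.shiftRight p 6) 64) fun nf =>
  frc (Nat.mod (Nat.shiftRight p 12) (Nat.pow 2 n)) fun E =>
  frc (Nat.shiftRight p 44) fun P =>
  frc (taQ (fun k => Nat.succ (Nat.mod (Nat.shiftRight P (Nat.mul 15 k)) 64)) n) fun S =>
  frc (taQ (fun k => Nat.mod (Nat.shiftRight P (Nat.add (Nat.mul 15 k) 6)) 64) n) fun L =>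
  frc (taQ (fun k => Nat.succ (Nat.mod (Nat.shiftRight P (Nat.add (Nat.mul 15 k) 12)) 8)) n) fun G =>
  frc (Nat.xor (Nat.sub (Nat.pow 2 n) 1) E) fun D =>
  frc (f64 c 0) fun us => frc (f64 c 64) fun ct => frc (f64 c 128) fun a0 =>
  frc (f64 c 192) fun a1 => frc (Nat.mod (Nat.shiftRight c 256) 64) fun l1 =>
  frc (Nat.mod (Nat.shiftRight c 262) 64) fun l2 =>
  band (Nat.ble n 32) (band (vrQ us ct a0 a1 l1 l2 n nf E P)
    (k us ct a0 a1 l1 l2 nf (Nat.sub (Nat.pow 2 nf) 1) D E S L G))

/-- masks of used labels for the parities -/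
noncomputable def s0Q (us ct a0 : Nat) : Nat := dsb us (dsb ct a0)

noncomputable def s1Q (us ct a0 : Nat) : Nat := dsb us (Nat.land ct a0)

noncomputable def laQ (l1 l2 : Nat) : Nat := Nat.lor (Nat.pow 2 l1) (Nat.pow 2 l2)

/-- numbers of transitions -/
noncomputable def n0Q (c : Nat) : Nat := Nat.mod (Nat.shiftRight c 268) 256

noncomputable def n1Q (c : Nat) : Nat := Nat.mod (Nat.shiftRight c 276) 256

/-- the certificate of a template is correct -/
noncomputable def tqC (dl ac : Nat) (a b c : TR2) : Bool :=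
  TR2.rec (motive := fun _ => Bool) (fun ca pa sa ta0 ta1 pa0 pa1 qa0 qa1 =>
  TR2.rec (motive := fun _ => Bool) (fun cb pb sb tb0 tb1 pb0 pb1 qb0 qb1 =>
  TR2.rec (motive := fun _ => Bool) (fun cc pc sc tc0 tc1 pc0 pc1 qc0 qc1 =>
  roQ ca pa fun uA cA aA bA lA kA nA fA DA EA SA LA GA =>
  roQ cb pb fun uB cB aB bB lB kB nB fB DB EB SB LB GB =>
  roQ cc pc fun uC cC aC bC lC kC nC fC DC EC SC LC GC =>
  band (Nat.beq (Nat.lor (coQ uA uB (Nat.land (Nat.land cA cB) (Nat.land aA aB)) (Nat.lor bA bB)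
      (laQ lA kA) (laQ lB kB))
    (Nat.lor (coQ uA uC (Nat.land (Nat.land cA cC) aC) (Nat.lor aA bC) (laQ lA kA) (laQ lC kC))
    (Nat.lor (coQ uB uC (Nat.land cB cC) (Nat.lor aB aC) (laQ lB kB) (laQ lC kC))
    (Nat.lor (t0Q (s0Q uA cA aA) (laQ lA kA) (Nat.land uB cB) aB bB lB)
    (Nat.lor (t0Q (s1Q uA cA aA) (laQ lA kA) (Nat.land uC cC) aC bC lC)
    (Nat.lor (t0Q (s0Q uB cB aB) (laQ lB kB) (Nat.land uA cA) aA bA lA)
    (Nat.lor (t1Q (s1Q uB cB aB) (laQ lB kB) (Nat.land uC cC) aC lC)
    (Nat.lor (t1Q (s0Q uC cC aC) (laQ lC kC) (Nat.land uA cA) aA lA)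
      (t1Q (s1Q uC cC aC) (laQ lC kC) (Nat.land uB cB) aB lB))))))))) 0)
  (band (rlQ 1 (sqB uA cA aA DA SA LA GA nA DB SB LB GB) (sqB uA cA bA EA SA LA GA nA DC SC LC GC)
    (ufQ DA SA LA fA) (ufQ EA SA LA fA) fA lA kA dl ac (n0Q ca) (n1Q ca) sa ta0 ta1 pa0 pa1 qa0 qa1)
  (band (rlQ 3 (sqB uB cB aB DB SB LB GB nB DA SA LA GA) (sqB uB cB bB EB SB LB GB nB EC SC LC GC)
    (ufQ DB SB LB fB) (ufQ EB SB LB fB) fB lB kB dl ac (n0Q cb) (n1Q cb) sb tb0 tb1 pb0 pb1 qb0 qb1)
  (rlQ 5 (sqB uC cC aC DC SC LC GC nC EA SA LA GA) (sqB uC cC bC EC SC LC GC nC EB SB LB GB)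
    (ufQ DC SC LC fC) (ufQ EC SC LC fC) fC lC kC dl ac (n0Q cc) (n1Q cc) sc tc0 tc1 pc0 pc1 qc0 qc1)
    ))) c) b) a

/-- the certificate of a template is correct -/
noncomputable def tqOK (T : TQ) : Bool :=
  TQ.rec (motive := fun _ => Bool) (fun a b c df => DF.rec (motive := fun _ => Bool)
    (fun dl ac => tqC dl ac a b c) df) T

end MPb6P
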