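import Pool.Agent.Lib.MP_b6d339_lc.Pos.L1

/-!
# Erdős 592, three levels: long literals from pieces of 512 bits
-/

namespace MPb6P

/-- number from 2 pieces, the highest first -/
noncomputable def u2 (a0 a1 : Nat) : Nat :=
  Nat.add (Nat.shiftLeft a0 (nat_lit 512)) a1

/-- number from 3 pieces, the highest first -/
noncomputable def u3 (a0 a1 a2 : Nat) : Nat :=
  Nat.add (Nat.shiftLeft (Nat.add (Nat.shiftLeft a0 (nat_lit 512)) a1) (nat_lit 512)) a2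

/-- number from 4 pieces, the highest first -/
noncomputable def u4 (a0 a1 a2 a3 : Nat) : Nat :=
  Nat.add (Nat.shiftLeft (Nat.add (Nat.shiftLeft (Nat.add (Nat.shiftLeft a0 (nat_lit 512)) a1)
  (nat_lit 512)) a2) (nat_lit 512)) a3

/-- number from 5 pieces, the highest first -/
noncomputable def u5 (a0 a1 a2 a3 a4 : Nat) : Nat :=
  Nat.add (Nat.shiftLeft (Nat.add (Nat.shiftLeft (Nat.add (Nat.shiftLeft (Nat.add (Nat.shiftLeft
  a0 (nat_lit 512)) a1) (nat_lit 512)) a2) (nat_lit 512)) a3) (nat_lit 512)) a4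

/-- number from 6 pieces, the highest first -/
noncomputable def u6 (a0 a1 a2 a3 a4 a5 : Nat) : Nat :=
  Nat.add (Nat.shiftLeft (Nat.add (Nat.shiftLeft (Nat.add (Nat.shiftLeft (Nat.add (Nat.shiftLeft
  (Nat.add (Nat.shiftLeft a0 (nat_lit 512)) a1) (nat_lit 512)) a2) (nat_lit 512)) a3) (nat_lit
  512)) a4) (nat_lit 512)) a5

/-- number from 7 pieces, the highest first -/
noncomputable def u7 (a0 a1 a2 a3 a4 a5 a6 : Nat) : Nat :=
  Nat.add (Nat.shiftLeft (Nat.add (Nat.shiftLeft (Nat.add (Nat.shiftLeft (Nat.add (Nat.shiftLeft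
  (Nat.add (Nat.shiftLeft (Nat.add (Nat.shiftLeft a0 (nat_lit 512)) a1) (nat_lit 512)) a2)
  (nat_lit 512)) a3) (nat_lit 512)) a4) (nat_lit 512)) a5) (nat_lit 512)) a6

/-- number from 8 pieces, the highest first -/
noncomputable def u8 (a0 a1 a2 a3 a4 a5 a6 a7 : Nat) : Nat :=
  Nat.add (Nat.shiftLeft (Nat.add (Nat.shiftLeft (Nat.add (Nat.shiftLeft (Nat.add (Nat.shiftLeft
  (Nat.add (Nat.shiftLeft (Nat.add (Nat.shiftLeft (Nat.add (Nat.shiftLeft a0 (nat_lit 512)) a1)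
  (nat_lit 512)) a2) (nat_lit 512)) a3) (nat_lit 512)) a4) (nat_lit 512)) a5) (nat_lit 512)) a6)
  (nat_lit 512)) a7

/-- number from 9 pieces, the highest first -/
noncomputable def u9 (a0 a1 a2 a3 a4 a5 a6 a7 a8 : Nat) : Nat :=
  Nat.add (Nat.shiftLeft (Nat.add (Nat.shiftLeft (Nat.add (Nat.shiftLeft (Nat.add (Nat.shiftLeft
  (Nat.add (Nat.shiftLeft (Nat.add (Nat.shiftLeft (Nat.add (Nat.shiftLeft (Nat.add (Nat.shiftLeft
  a0 (nat_lit 512)) a1) (nat_lit 512)) a2) (nat_lit 512)) a3) (nat_lit 512)) a4) (nat_lit 512))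
  a5) (nat_lit 512)) a6) (nat_lit 512)) a7) (nat_lit 512)) a8

/-- number from 10 pieces, the highest first -/
noncomputable def u10 (a0 a1 a2 a3 a4 a5 a6 a7 a8 a9 : Nat) : Nat :=
  Nat.add (Nat.shiftLeft (Nat.add (Nat.shiftLeft (Nat.add (Nat.shiftLeft (Nat.add (Nat.shiftLeft
  (Nat.add (Nat.shiftLeft (Nat.add (Nat.shiftLeft (Nat.add (Nat.shiftLeft (Nat.add (Nat.shiftLeft
  (Nat.add (Nat.shiftLeft a0 (nat_lit 512)) a1) (nat_lit 512)) a2) (nat_lit 512)) a3) (nat_lit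
  512)) a4) (nat_lit 512)) a5) (nat_lit 512)) a6) (nat_lit 512)) a7) (nat_lit 512)) a8) (nat_lit
  512)) a9

/-- number from 11 pieces, the highest first -/
noncomputable def u11 (a0 a1 a2 a3 a4 a5 a6 a7 a8 a9 a10 : Nat) : Nat :=
  Nat.add (Nat.shiftLeft (Nat.add (Nat.shiftLeft (Nat.add (Nat.shiftLeft (Nat.add (Nat.shiftLeft
  (Nat.add (Nat.shiftLeft (Nat.add (Nat.shiftLeft (Nat.add (Nat.shiftLeft (Nat.add (Nat.shiftLeft
  (Nat.add (Nat.shiftLeft (Nat.add (Nat.shiftLeft a0 (nat_lit 512)) a1) (nat_lit 512)) a2)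
  (nat_lit 512)) a3) (nat_lit 512)) a4) (nat_lit 512)) a5) (nat_lit 512)) a6) (nat_lit 512)) a7)
  (nat_lit 512)) a8) (nat_lit 512)) a9) (nat_lit 512)) a10

/-- number from 12 pieces, the highest first -/
noncomputable def u12 (a0 a1 a2 a3 a4 a5 a6 a7 a8 a9 a10 a11 : Nat) : Nat :=
  Nat.add (Nat.shiftLeft (Nat.add (Nat.shiftLeft (Nat.add (Nat.shiftLeft (Nat.add (Nat.shiftLeft
  (Nat.add (Nat.shiftLeft (Nat.add (Nat.shiftLeft (Nat.add (Nat.shiftLeft (Nat.add (Nat.shiftLeft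
  (Nat.add (Nat.shiftLeft (Nat.add (Nat.shiftLeft (Nat.add (Nat.shiftLeft a0 (nat_lit 512)) a1)
  (nat_lit 512)) a2) (nat_lit 512)) a3) (nat_lit 512)) a4) (nat_lit 512)) a5) (nat_lit 512)) a6)
  (nat_lit 512)) a7) (nat_lit 512)) a8) (nat_lit 512)) a9) (nat_lit 512)) a10) (nat_lit 512)) a11

/-- number from 13 pieces, the highest first -/
noncomputable def u13 (a0 a1 a2 a3 a4 a5 a6 a7 a8 a9 a10 a11 a12 : Nat) : Nat :=
  Nat.add (Nat.shiftLeft (Nat.add (Nat.shiftLeft (Nat.add (Nat.shiftLeft (Nat.add (Nat.shiftLeft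
  (Nat.add (Nat.shiftLeft (Nat.add (Nat.shiftLeft (Nat.add (Nat.shiftLeft (Nat.add (Nat.shiftLeft
  (Nat.add (Nat.shiftLeft (Nat.add (Nat.shiftLeft (Nat.add (Nat.shiftLeft (Nat.add (Nat.shiftLeft
  a0 (nat_lit 512)) a1) (nat_lit 512)) a2) (nat_lit 512)) a3) (nat_lit 512)) a4) (nat_lit 512))
  a5) (nat_lit 512)) a6) (nat_lit 512)) a7) (nat_lit 512)) a8) (nat_lit 512)) a9) (nat_lit 512))
  a10) (nat_lit 512)) a11) (nat_lit 512)) a12

/-- number from 14 pieces, the highest first -/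
noncomputable def u14 (a0 a1 a2 a3 a4 a5 a6 a7 a8 a9 a10 a11 a12 a13 : Nat) : Nat :=
  Nat.add (Nat.shiftLeft (Nat.add (Nat.shiftLeft (Nat.add (Nat.shiftLeft (Nat.add (Nat.shiftLeft
  (Nat.add (Nat.shiftLeft (Nat.add (Nat.shiftLeft (Nat.add (Nat.shiftLeft (Nat.add (Nat.shiftLeft
  (Nat.add (Nat.shiftLeft (Nat.add (Nat.shiftLeft (Nat.add (Nat.shiftLeft (Nat.add (Nat.shiftLeft
  (Nat.add (Nat.shiftLeft a0 (nat_lit 512)) a1) (nat_lit 512)) a2) (nat_lit 512)) a3) (nat_lit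
  512)) a4) (nat_lit 512)) a5) (nat_lit 512)) a6) (nat_lit 512)) a7) (nat_lit 512)) a8) (nat_lit
  512)) a9) (nat_lit 512)) a10) (nat_lit 512)) a11) (nat_lit 512)) a12) (nat_lit 512)) a13

/-- number from 15 pieces, the highest first -/
noncomputable def u15 (a0 a1 a2 a3 a4 a5 a6 a7 a8 a9 a10 a11 a12 a13 a14 : Nat) : Nat :=
  Nat.add (Nat.shiftLeft (Nat.add (Nat.shiftLeft (Nat.add (Nat.shiftLeft (Nat.add (Nat.shiftLeft
  (Nat.add (Nat.shiftLeft (Nat.add (Nat.shiftLeft (Nat.add (Nat.shiftLeft (Nat.add (Nat.shiftLeft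
  (Nat.add (Nat.shiftLeft (Nat.add (Nat.shiftLeft (Nat.add (Nat.shiftLeft (Nat.add (Nat.shiftLeft
  (Nat.add (Nat.shiftLeft (Nat.add (Nat.shiftLeft a0 (nat_lit 512)) a1) (nat_lit 512)) a2)
  (nat_lit 512)) a3) (nat_lit 512)) a4) (nat_lit 512)) a5) (nat_lit 512)) a6) (nat_lit 512)) a7)
  (nat_lit 512)) a8) (nat_lit 512)) a9) (nat_lit 512)) a10) (nat_lit 512)) a11) (nat_lit 512))
  a12) (nat_lit 512)) a13) (nat_lit 512)) a14

/-- number from 16 pieces, the highest first -/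
noncomputable def u16 (a0 a1 a2 a3 a4 a5 a6 a7 a8 a9 a10 a11 a12 a13 a14 a15 : Nat) : Nat :=
  Nat.add (Nat.shiftLeft (Nat.add (Nat.shiftLeft (Nat.add (Nat.shiftLeft (Nat.add (Nat.shiftLeft
  (Nat.add (Nat.shiftLeft (Nat.add (Nat.shiftLeft (Nat.add (Nat.shiftLeft (Nat.add (Nat.shiftLeft
  (Nat.add (Nat.shiftLeft (Nat.add (Nat.shiftLeft (Nat.add (Nat.shiftLeft (Nat.add (Nat.shiftLeft
  (Nat.add (Nat.shiftLeft (Nat.add (Nat.shiftLeft (Nat.add (Nat.shiftLeft a0 (nat_lit 512)) a1)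
  (nat_lit 512)) a2) (nat_lit 512)) a3) (nat_lit 512)) a4) (nat_lit 512)) a5) (nat_lit 512)) a6)
  (nat_lit 512)) a7) (nat_lit 512)) a8) (nat_lit 512)) a9) (nat_lit 512)) a10) (nat_lit 512)) a11)
  (nat_lit 512)) a12) (nat_lit 512)) a13) (nat_lit 512)) a14) (nat_lit 512)) a15

/-- number from 17 pieces, the highest first -/
noncomputable def u17 (a0 a1 a2 a3 a4 a5 a6 a7 a8 a9 a10 a11 a12 a13 a14 a15 a16 : Nat) : Nat :=
  Nat.add (Nat.shiftLeft (Nat.add (Nat.shiftLeft (Nat.add (Nat.shiftLeft (Nat.add (Nat.shiftLeft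
  (Nat.add (Nat.shiftLeft (Nat.add (Nat.shiftLeft (Nat.add (Nat.shiftLeft (Nat.add (Nat.shiftLeft
  (Nat.add (Nat.shiftLeft (Nat.add (Nat.shiftLeft (Nat.add (Nat.shiftLeft (Nat.add (Nat.shiftLeft
  (Nat.add (Nat.shiftLeft (Nat.add (Nat.shiftLeft (Nat.add (Nat.shiftLeft (Nat.add (Nat.shiftLeft
  a0 (nat_lit 512)) a1) (nat_lit 512)) a2) (nat_lit 512)) a3) (nat_lit 512)) a4) (nat_lit 512))
  a5) (nat_lit 512)) a6) (nat_lit 512)) a7) (nat_lit 512)) a8) (nat_lit 512)) a9) (nat_lit 512))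
  a10) (nat_lit 512)) a11) (nat_lit 512)) a12) (nat_lit 512)) a13) (nat_lit 512)) a14) (nat_lit
  512)) a15) (nat_lit 512)) a16

/-- number from 18 pieces, the highest first -/
noncomputable def u18 (a0 a1 a2 a3 a4 a5 a6 a7 a8 a9 a10 a11 a12 a13 a14 a15 a16 a17 : Nat) : Nat :=
  Nat.add (Nat.shiftLeft (Nat.add (Nat.shiftLeft (Nat.add (Nat.shiftLeft (Nat.add (Nat.shiftLeft
  (Nat.add (Nat.shiftLeft (Nat.add (Nat.shiftLeft (Nat.add (Nat.shiftLeft (Nat.add (Nat.shiftLeft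
  (Nat.add (Nat.shiftLeft (Nat.add (Nat.shiftLeft (Nat.add (Nat.shiftLeft (Nat.add (Nat.shiftLeft
  (Nat.add (Nat.shiftLeft (Nat.add (Nat.shiftLeft (Nat.add (Nat.shiftLeft (Nat.add (Nat.shiftLeft
  (Nat.add (Nat.shiftLeft a0 (nat_lit 512)) a1) (nat_lit 512)) a2) (nat_lit 512)) a3) (nat_lit
  512)) a4) (nat_lit 512)) a5) (nat_lit 512)) a6) (nat_lit 512)) a7) (nat_lit 512)) a8) (nat_lit
  512)) a9) (nat_lit 512)) a10) (nat_lit 512)) a11) (nat_lit 512)) a12) (nat_lit 512)) a13)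
  (nat_lit 512)) a14) (nat_lit 512)) a15) (nat_lit 512)) a16) (nat_lit 512)) a17

/-- number from 19 pieces, the highest first -/
noncomputable def u19 (a0 a1 a2 a3 a4 a5 a6 a7 a8 a9 a10 a11 a12 a13
    a14 a15 a16 a17 a18 : Nat) : Nat :=
  Nat.add (Nat.shiftLeft (Nat.add (Nat.shiftLeft (Nat.add (Nat.shiftLeft (Nat.add (Nat.shiftLeft
  (Nat.add (Nat.shiftLeft (Nat.add (Nat.shiftLeft (Nat.add (Nat.shiftLeft (Nat.add (Nat.shiftLeft
  (Nat.add (Nat.shiftLeft (Nat.add (Nat.shiftLeft (Nat.add (Nat.shiftLeft (Nat.add (Nat.shiftLeft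
  (Nat.add (Nat.shiftLeft (Nat.add (Nat.shiftLeft (Nat.add (Nat.shiftLeft (Nat.add (Nat.shiftLeft
  (Nat.add (Nat.shiftLeft (Nat.add (Nat.shiftLeft a0 (nat_lit 512)) a1) (nat_lit 512)) a2)
  (nat_lit 512)) a3) (nat_lit 512)) a4) (nat_lit 512)) a5) (nat_lit 512)) a6) (nat_lit 512)) a7)
  (nat_lit 512)) a8) (nat_lit 512)) a9) (nat_lit 512)) a10) (nat_lit 512)) a11) (nat_lit 512))
  a12) (nat_lit 512)) a13) (nat_lit 512)) a14) (nat_lit 512)) a15) (nat_lit 512)) a16) (nat_lit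
  512)) a17) (nat_lit 512)) a18

/-- number from 20 pieces, the highest first -/
noncomputable def u20 (a0 a1 a2 a3 a4 a5 a6 a7 a8 a9 a10 a11 a12 a13
    a14 a15 a16 a17 a18 a19 : Nat) : Nat :=
  Nat.add (Nat.shiftLeft (Nat.add (Nat.shiftLeft (Nat.add (Nat.shiftLeft (Nat.add (Nat.shiftLeft
  (Nat.add (Nat.shiftLeft (Nat.add (Nat.shiftLeft (Nat.add (Nat.shiftLeft (Nat.add (Nat.shiftLeft
  (Nat.add (Nat.shiftLeft (Nat.add (Nat.shiftLeft (Nat.add (Nat.shiftLeft (Nat.add (Nat.shiftLeft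
  (Nat.add (Nat.shiftLeft (Nat.add (Nat.shiftLeft (Nat.add (Nat.shiftLeft (Nat.add (Nat.shiftLeft
  (Nat.add (Nat.shiftLeft (Nat.add (Nat.shiftLeft (Nat.add (Nat.shiftLeft a0 (nat_lit 512)) a1)
  (nat_lit 512)) a2) (nat_lit 512)) a3) (nat_lit 512)) a4) (nat_lit 512)) a5) (nat_lit 512)) a6)
  (nat_lit 512)) a7) (nat_lit 512)) a8) (nat_lit 512)) a9) (nat_lit 512)) a10) (nat_lit 512)) a11)
  (nat_lit 512)) a12) (nat_lit 512)) a13) (nat_lit 512)) a14) (nat_lit 512)) a15) (nat_lit 512))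
  a16) (nat_lit 512)) a17) (nat_lit 512)) a18) (nat_lit 512)) a19

end MPb6P
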