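import Pool.Agent.Lib.MP_b6d339_lc.Pos.NSound

/-!
# Erdős 592, positive side: Boolean tests for the automata of schedules
-/

namespace MPb6P

/-- choice by the role number -/
noncomputable def sel3 (r a b c : ℕ) : ℕ :=
  Nat.rec (motive := fun _ => ℕ) a (fun n _ => Nat.rec (motive := fun _ => ℕ) b (fun _ _ => c) n) r

theorem sel3_p1 (y : NSt) {r : ℕ} {R : Fin 3} (h : r = R.1) :
    sel3 r y.a1 y.b1 y.c1 = y.p1 R := by
  subst h; fin_cases R <;> rfl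

theorem sel3_p2 (y : NSt) {r : ℕ} {R : Fin 3} (h : r = R.1) :
    sel3 r y.a2 y.b2 y.c2 = y.p2 R := by
  subst h; fin_cases R <;> rfl

/-- test for a step of labels -/
noncomputable def lstB3 (us ct al p l : ℕ) : Bool :=
  band (Nat.ble p l) (band (tb us l) (band (bor (bnot (Nat.beq p l)) (bnot (tb ct l)))
    (band (allSet al p l) (allClr ct p l))))

theorem lstB3_spec {C : CT} {R : Fin 3} {e p l : ℕ}
    (h : lstB3 (C.rl R).us (C.rl R).ct ((C.rl R).al e) p l = true) : LStep C R e p l := by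
  unfold lstB3 at h
  simp only [band_eq, bor_eq, bnot_eq, Bool.and_eq_true, Bool.or_eq_true, Bool.not_eq_true',
    tb_eq] at h
  obtain ⟨h1, h2, h3, h4, h5⟩ := h
  refine ⟨ble_eq'.1 h1, h2, ?_, h4, h5⟩
  rcases h3 with h3 | h3
  · exact Or.inl (beq_ff.1 h3)
  · exact Or.inr h3

/-- test for hosts -/
noncomputable def ghB (r0 e0 s l x : ℕ) (ρ : NRec) : Bool :=
  NRec.rec (motive := fun _ => Bool) (fun k r e t v =>
    band (Nat.beq r r0) (band (Nat.beq e e0) (band (Nat.ble x v)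
      (Bool.rec (motive := fun _ => Bool) (band (Nat.ble (Nat.succ s) t) (Nat.ble (Nat.succ t) l))
        (band (Nat.ble s t) (Nat.ble t l)) (Nat.ble k 1))))) ρ

theorem ghB_spec {R : Fin 3} {e s l x : ℕ} {ρ : NRec}
    (h : ghB (oth R e).1.1 (oth R e).2 s l x ρ = true) : GH R e s l x ρ := by
  obtain ⟨k, r, e', t, v⟩ := ρ
  have h1 : band (Nat.beq r (oth R e).1.1) (band (Nat.beq e' (oth R e).2) (band (Nat.ble x v)
      (Bool.rec (motive := fun _ => Bool) (band (Nat.ble (Nat.succ s) t) (Nat.ble (Nat.succ t) l))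
        (band (Nat.ble s t) (Nat.ble t l)) (Nat.ble k 1)))) = true := h
  rw [band_eq, band_eq, band_eq] at h1
  simp only [Bool.and_eq_true] at h1
  obtain ⟨c1, c2, c3, c4⟩ := h1
  refine ⟨beq_eq.1 c1, beq_eq.1 c2, ble_eq'.1 c3, ?_, ?_⟩
  · intro hk
    simp only at hk ⊢
    rw [ble_eq'.2 hk] at c4
    have c5 : band (Nat.ble s t) (Nat.ble t l) = true := c4
    rw [band_eq, Bool.and_eq_true] at c5
    exact ⟨ble_eq'.1 c5.1, ble_eq'.1 c5.2⟩
  · intro hk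
    simp only at hk ⊢
    have hk1 : Nat.ble k 1 = false := by
      rw [← Bool.not_eq_true, ble_eq']; omega
    rw [hk1] at c4
    have c5 : band (Nat.ble (Nat.succ s) t) (Nat.ble (Nat.succ t) l) = true := c4
    rw [band_eq, Bool.and_eq_true, bles_eq, bles_eq] at c5
    exact c5

/-- the record concerns the given host with class at least `v` -/
noncomputable def fndB (k r e t v : ℕ) (ρ : NRec) : Bool :=
  NRec.rec (motive := fun _ => Bool) (fun k' r' e' t' v' =>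
    band (Nat.beq t' t) (band (Nat.beq k' k) (band (Nat.beq r' r) (band (Nat.beq e' e)
      (Nat.ble v v'))))) ρ

theorem fndB_spec {rs : List NRec} {ρ : NRec} {k : ℕ} (hk : ρ.k = k)
    (h : lany (fndB k ρ.r ρ.e ρ.t ρ.v) rs = true) : ∃ ρ' ∈ rs, ρ.same ρ' ∧ ρ.v ≤ ρ'.v := by
  obtain ⟨ρ', h1, h2⟩ := lany_spec h
  obtain ⟨k', r', e', t', v'⟩ := ρ'
  have h3 : band (Nat.beq t' ρ.t) (band (Nat.beq k' k) (band (Nat.beq r' ρ.r)
    (band (Nat.beq e' ρ.e) (Nat.ble ρ.v v')))) = true := h2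
  rw [band_eq, band_eq, band_eq, band_eq] at h3
  simp only [Bool.and_eq_true] at h3
  obtain ⟨c1, c2, c3, c4, c5⟩ := h3
  exact ⟨_, h1, ⟨(beq_eq.1 c2).trans hk.symm, beq_eq.1 c3, beq_eq.1 c4, beq_eq.1 c1⟩, ble_eq'.1 c5⟩

/-- test for a record of the old state -/
noncomputable def oldB (par a2 b2 c2 a1 b1 c1 x : ℕ) (rs' : List NRec) (ρ : NRec) : Bool :=
  NRec.rec (motive := fun _ => Bool) (fun k r e t v =>
    Nat.rec (motive := fun _ => Bool)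
      (bor (band (Nat.beq e par) (band (Nat.ble (Nat.succ t) (sel3 r a1 b1 c1)) (Nat.ble v x)))
        (lany (fndB 0 r e t v) rs'))
      (fun k1 _ => Nat.rec (motive := fun _ => Bool) true
        (fun k2 _ => Nat.rec (motive := fun _ => Bool)
          (bor (band (Nat.beq e par) (band (Nat.ble (sel3 r a2 b2 c2) t)
            (band (Nat.ble t (sel3 r a1 b1 c1)) (Nat.ble v x)))) (lany (fndB 2 r e t v) rs'))
          (fun _ _ => true) k2) k1) k) ρ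

theorem oldB_spec0 {y y' : NSt} {x : ℕ} {ρ : NRec} (hk : ρ.k = 0)
    (h : oldB y.par y.a2 y.b2 y.c2 y'.a1 y'.b1 y'.c1 x y'.rs ρ = true) :
    (∀ R : Fin 3, ρ.r = R.1 → ρ.e = y.par ∧ ρ.t < y'.p1 R ∧ ρ.v ≤ x) ∨
    ∃ ρ' ∈ y'.rs, ρ.same ρ' ∧ ρ.v ≤ ρ'.v := by
  obtain ⟨k, r, e, t, v⟩ := ρ
  have hk' : k = 0 := hk
  subst hk'
  have h1 : bor (band (Nat.beq e y.par) (band (Nat.ble (Nat.succ t) (sel3 r y'.a1 y'.b1 y'.c1))
    (Nat.ble v x))) (lany (fndB 0 r e t v) y'.rs) = true := h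
  rw [bor_eq, band_eq, band_eq] at h1
  simp only [Bool.or_eq_true, Bool.and_eq_true] at h1
  rcases h1 with ⟨c1, c2, c3⟩ | h1
  · left
    intro R hR
    rw [sel3_p1 y' hR, bles_eq] at c2
    exact ⟨beq_eq.1 c1, c2, ble_eq'.1 c3⟩
  · right
    exact fndB_spec (ρ := ⟨0, r, e, t, v⟩) rfl h1

theorem oldB_spec2 {y y' : NSt} {x : ℕ} {ρ : NRec} (hk : ρ.k = 2)
    (h : oldB y.par y.a2 y.b2 y.c2 y'.a1 y'.b1 y'.c1 x y'.rs ρ = true) :
    (∀ R : Fin 3, ρ.r = R.1 → ρ.e = y.par ∧ y.p2 R ≤ ρ.t ∧ ρ.t ≤ y'.p1 R ∧ ρ.v ≤ x) ∨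
    ∃ ρ' ∈ y'.rs, ρ.same ρ' ∧ ρ.v ≤ ρ'.v := by
  obtain ⟨k, r, e, t, v⟩ := ρ
  have hk' : k = 2 := hk
  subst hk'
  have h1 : bor (band (Nat.beq e y.par) (band (Nat.ble (sel3 r y.a2 y.b2 y.c2) t)
            (band (Nat.ble t (sel3 r y'.a1 y'.b1 y'.c1)) (Nat.ble v x))))
            (lany (fndB 2 r e t v) y'.rs) = true := h
  rw [bor_eq, band_eq, band_eq, band_eq] at h1
  simp only [Bool.or_eq_true, Bool.and_eq_true] at h1
  rcases h1 with ⟨c1, c2, c3, c4⟩ | h1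
  · left
    intro R hR
    rw [sel3_p2 y hR] at c2
    rw [sel3_p1 y' hR] at c3
    exact ⟨beq_eq.1 c1, ble_eq'.1 c2, ble_eq'.1 c3, ble_eq'.1 c4⟩
  · right
    exact fndB_spec (ρ := ⟨2, r, e, t, v⟩) rfl h1

/-- test for a record of the new state -/
noncomputable def newB (par a2 b2 c2 a1 b1 c1 x : ℕ) (rs : List NRec) (ρ : NRec) : Bool :=
  NRec.rec (motive := fun _ => Bool) (fun k r e t v =>
    Nat.rec (motive := fun _ => Bool) true
      (fun k1 _ => Nat.rec (motive := fun _ => Bool)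
        (bor (band (Nat.beq e par) (band (Nat.ble (sel3 r a2 b2 c2) t)
          (band (Nat.ble (Nat.succ t) (sel3 r a1 b1 c1)) (Nat.ble v x))))
          (lany (fndB 1 r e t v) rs))
        (fun k2 _ => Nat.rec (motive := fun _ => Bool) true
          (fun _ _ => bor (band (Nat.beq e par) (band (Nat.ble (sel3 r a2 b2 c2) t)
          (band (Nat.ble t (sel3 r a1 b1 c1)) (Nat.ble v x)))) (lany (fndB 3 r e t v) rs))
          k2) k1) k) ρ

theorem newB_spec1 {y y' : NSt} {x : ℕ} {ρ : NRec} (hk : ρ.k = 1)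
    (h : newB y.par y.a2 y.b2 y.c2 y'.a1 y'.b1 y'.c1 x y.rs ρ = true) :
    (∃ ρ' ∈ y.rs, ρ.same ρ' ∧ ρ.v ≤ ρ'.v) ∨
    (∀ R : Fin 3, ρ.r = R.1 → ρ.e = y.par ∧ y.p2 R ≤ ρ.t ∧ ρ.t < y'.p1 R ∧ ρ.v ≤ x) := by
  obtain ⟨k, r, e, t, v⟩ := ρ
  have hk' : k = 1 := hk
  subst hk'
  have h1 : bor (band (Nat.beq e y.par) (band (Nat.ble (sel3 r y.a2 y.b2 y.c2) t)
          (band (Nat.ble (Nat.succ t) (sel3 r y'.a1 y'.b1 y'.c1)) (Nat.ble v x))))
          (lany (fndB 1 r e t v) y.rs) = true := h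
  rw [bor_eq, band_eq, band_eq, band_eq] at h1
  simp only [Bool.or_eq_true, Bool.and_eq_true] at h1
  rcases h1 with ⟨c1, c2, c3, c4⟩ | h1
  · right
    intro R hR
    rw [sel3_p2 y hR] at c2
    rw [sel3_p1 y' hR, bles_eq] at c3
    exact ⟨beq_eq.1 c1, ble_eq'.1 c2, c3, ble_eq'.1 c4⟩
  · left
    exact fndB_spec (ρ := ⟨1, r, e, t, v⟩) rfl h1

theorem newB_spec3 {y y' : NSt} {x : ℕ} {ρ : NRec} (hk : ρ.k = 3)
    (h : newB y.par y.a2 y.b2 y.c2 y'.a1 y'.b1 y'.c1 x y.rs ρ = true) :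
    (∃ ρ' ∈ y.rs, ρ.same ρ' ∧ ρ.v ≤ ρ'.v) ∨
    (∀ R : Fin 3, ρ.r = R.1 → ρ.e = y.par ∧ y.p2 R ≤ ρ.t ∧ ρ.t ≤ y'.p1 R ∧ ρ.v ≤ x) := by
  obtain ⟨k, r, e, t, v⟩ := ρ
  have hk' : k = 3 := hk
  subst hk'
  have h1 : bor (band (Nat.beq e y.par) (band (Nat.ble (sel3 r y.a2 y.b2 y.c2) t)
          (band (Nat.ble t (sel3 r y'.a1 y'.b1 y'.c1)) (Nat.ble v x))))
          (lany (fndB 3 r e t v) y.rs) = true := h
  rw [bor_eq, band_eq, band_eq, band_eq] at h1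
  simp only [Bool.or_eq_true, Bool.and_eq_true] at h1
  rcases h1 with ⟨c1, c2, c3, c4⟩ | h1
  · right
    intro R hR
    rw [sel3_p2 y hR] at c2
    rw [sel3_p1 y' hR] at c3
    exact ⟨beq_eq.1 c1, ble_eq'.1 c2, ble_eq'.1 c3, ble_eq'.1 c4⟩
  · left
    exact fndB_spec (ρ := ⟨3, r, e, t, v⟩) rfl h1

/-- test for steps, with the masks for the parity -/
noncomputable def nstM (uA cA lA uB cB lB uC cC lC rA eA rB eB rC eC par a2 a1 b2 b1 c2 c1 : ℕ)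
    (rs : List NRec) (a2' a1' b2' b1' c2' c1' : ℕ) (rs' : List NRec) (x : ℕ) : Bool :=
  band (Nat.beq a2' a1) (band (Nat.beq b2' b1) (band (Nat.beq c2' c1)
    (band (lstB3 uA cA lA a1 a1') (band (lstB3 uB cB lB b1 b1') (band (lstB3 uC cC lC c1 c1')
    (band (bor (Nat.ble 4 x) (band (bor (lany (ghB rA eA a2 a1' x) rs) (lany (ghB rA eA a2 a1' x) rs'))
      (band (bor (lany (ghB rB eB b2 b1' x) rs) (lany (ghB rB eB b2 b1' x) rs'))
        (bor (lany (ghB rC eC c2 c1' x) rs) (lany (ghB rC eC c2 c1' x) rs')))))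
    (band (lall (oldB par a2 b2 c2 a1' b1' c1' x rs') rs)
      (lall (newB par a2 b2 c2 a1' b1' c1' x rs) rs'))))))))

/-- test for steps -/
noncomputable def nstB (C : CT) (x : ℕ) (y y' : NSt) : Bool :=
  CT.rec (motive := fun _ => Bool) (fun RA RB RC _ =>
    CRole.rec (motive := fun _ => Bool) (fun uA cA xA zA _ _ =>
    CRole.rec (motive := fun _ => Bool) (fun uB cB xB zB _ _ =>
    CRole.rec (motive := fun _ => Bool) (fun uC cC xC zC _ _ =>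
    NSt.rec (motive := fun _ => Bool) (fun par a2 a1 b2 b1 c2 c1 rs =>
    NSt.rec (motive := fun _ => Bool) (fun par' a2' a1' b2' b1' c2' c1' rs' =>
      Nat.rec (motive := fun _ => Bool)
        (band (Nat.beq par' 1) (nstM uA cA xA uB cB xB uC cC xC 1 0 0 0 0 1 0 a2 a1 b2 b1 c2 c1 rs
          a2' a1' b2' b1' c2' c1' rs' x))
        (fun n _ => band (Nat.beq n 0) (band (Nat.beq par' 0)
          (nstM uA cA zA uB cB zB uC cC zC 2 0 2 1 1 1 1 a2 a1 b2 b1 c2 c1 rs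
          a2' a1' b2' b1' c2' c1' rs' x))) par) y') y) RC) RB) RA) C

theorem nstM_spec {C : CT} {x : ℕ} {y y' : NSt} (hp : y.par < 2) (hp' : y'.par = 1 - y.par)
    (h : nstM (C.rl 0).us (C.rl 0).ct ((C.rl 0).al y.par) (C.rl 1).us (C.rl 1).ct
      ((C.rl 1).al y.par) (C.rl 2).us (C.rl 2).ct ((C.rl 2).al y.par)
      (oth 0 y.par).1.1 (oth 0 y.par).2 (oth 1 y.par).1.1 (oth 1 y.par).2
      (oth 2 y.par).1.1 (oth 2 y.par).2 y.par y.a2 y.a1 y.b2 y.b1 y.c2 y.c1 y.rs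
      y'.a2 y'.a1 y'.b2 y'.b1 y'.c2 y'.c1 y'.rs x = true) : NStep C y x y' := by
  unfold nstM at h
  rw [band_eq, band_eq, band_eq, band_eq, band_eq, band_eq, band_eq, band_eq, band_eq, band_eq,
    bor_eq, bor_eq, bor_eq, bor_eq] at h
  simp only [Bool.and_eq_true, Bool.or_eq_true] at h
  obtain ⟨q1, q2, q3, s1, s2, s3, g, ho, hn⟩ := h
  refine ⟨⟨hp, hp'⟩, ?_, ?_, ?_, ?_, ?_, ?_, ?_⟩
  · intro R; fin_cases R
    · exact beq_eq.1 q1
    · exact beq_eq.1 q2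
    · exact beq_eq.1 q3
  · intro R; fin_cases R
    · exact lstB3_spec (R := 0) s1
    · exact lstB3_spec (R := 1) s2
    · exact lstB3_spec (R := 2) s3
  · intro hx R
    have key : ∀ {s l : ℕ}, (lany (ghB (oth R y.par).1.1 (oth R y.par).2 s l x) y.rs = true ∨
        lany (ghB (oth R y.par).1.1 (oth R y.par).2 s l x) y'.rs = true) →
        ∃ ρ ∈ y.rs ++ y'.rs, GH R y.par s l x ρ := by
      intro s l hh
      rcases hh with hh | hh
      · obtain ⟨ρ, h1, h2⟩ := lany_spec hh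
        exact ⟨ρ, List.mem_append_left _ h1, ghB_spec h2⟩
      · obtain ⟨ρ, h1, h2⟩ := lany_spec hh
        exact ⟨ρ, List.mem_append_right _ h1, ghB_spec h2⟩
    rcases g with g | ⟨g1, g2, g3⟩
    · have := ble_eq'.1 g; omega
    · fin_cases R
      · exact key g1
      · exact key g2
      · exact key g3
  · intro ρ hρ hk
    exact oldB_spec0 hk (lall_spec ho ρ hρ)
  · intro ρ hρ hk
    exact oldB_spec2 hk (lall_spec ho ρ hρ)
  · intro ρ hρ hk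
    exact newB_spec1 hk (lall_spec hn ρ hρ)
  · intro ρ hρ hk
    exact newB_spec3 hk (lall_spec hn ρ hρ)

theorem nstB_spec {C : CT} {x : ℕ} {y y' : NSt} (h : nstB C x y y' = true) : NStep C y x y' := by
  have h0 : Nat.rec (motive := fun _ => Bool)
        (band (Nat.beq y'.par 1) (nstM (C.rl 0).us (C.rl 0).ct (C.rl 0).a0 (C.rl 1).us (C.rl 1).ct
          (C.rl 1).a0 (C.rl 2).us (C.rl 2).ct (C.rl 2).a0 1 0 0 0 0 1 0 y.a2 y.a1 y.b2 y.b1
          y.c2 y.c1 y.rs y'.a2 y'.a1 y'.b2 y'.b1 y'.c2 y'.c1 y'.rs x))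
        (fun n _ => band (Nat.beq n 0) (band (Nat.beq y'.par 0)
          (nstM (C.rl 0).us (C.rl 0).ct (C.rl 0).a1 (C.rl 1).us (C.rl 1).ct (C.rl 1).a1
          (C.rl 2).us (C.rl 2).ct (C.rl 2).a1 2 0 2 1 1 1 1 y.a2 y.a1 y.b2 y.b1 y.c2 y.c1 y.rs
          y'.a2 y'.a1 y'.b2 y'.b1 y'.c2 y'.c1 y'.rs x))) y.par = true := by
    obtain ⟨RA, RB, RC, pr⟩ := C
    obtain ⟨uA, cA, xA, zA, lA1, lA2⟩ := RA
    obtain ⟨uB, cB, xB, zB, lB1, lB2⟩ := RB
    obtain ⟨uC, cC, xC, zC, lC1, lC2⟩ := RC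
    obtain ⟨par, a2, a1, b2, b1, c2, c1, rs⟩ := y
    obtain ⟨par', a2', a1', b2', b1', c2', c1', rs'⟩ := y'
    exact h
  rcases hp : y.par with _ | n
  · rw [hp] at h0
    have h1 : band (Nat.beq y'.par 1) (nstM (C.rl 0).us (C.rl 0).ct (C.rl 0).a0 (C.rl 1).us
          (C.rl 1).ct
          (C.rl 1).a0 (C.rl 2).us (C.rl 2).ct (C.rl 2).a0 1 0 0 0 0 1 0 y.a2 y.a1 y.b2 y.b1
          y.c2 y.c1 y.rs y'.a2 y'.a1 y'.b2 y'.b1 y'.c2 y'.c1 y'.rs x) = true := h0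
    rw [band_eq, Bool.and_eq_true] at h1
    apply nstM_spec (by omega) (by rw [beq_eq.1 h1.1, hp])
    rw [hp]
    exact h1.2
  · rw [hp] at h0
    have h1 : band (Nat.beq n 0) (band (Nat.beq y'.par 0)
          (nstM (C.rl 0).us (C.rl 0).ct (C.rl 0).a1 (C.rl 1).us (C.rl 1).ct (C.rl 1).a1
          (C.rl 2).us (C.rl 2).ct (C.rl 2).a1 2 0 2 1 1 1 1 y.a2 y.a1 y.b2 y.b1 y.c2 y.c1 y.rs
          y'.a2 y'.a1 y'.b2 y'.b1 y'.c2 y'.c1 y'.rs x)) = true := h0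
    rw [band_eq, band_eq, Bool.and_eq_true, Bool.and_eq_true] at h1
    have hn : n = 0 := beq_eq.1 h1.1
    subst hn
    apply nstM_spec (by omega) (by rw [beq_eq.1 h1.2.1, hp])
    rw [hp]
    exact h1.2.2

end MPb6P
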