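import Pool.Agent.Lib.MP_b6d339_lc.Pos.WTplC

/-!
# Erdős 592, positive side: the covering certificate
-/

namespace MPb6P

theorem BT.get_leaf {α : Type} (a : α) (n : ℕ) : (BT.leaf a).get n = a := rfl

theorem BT.get_node {α : Type} (l r : BT α) (n : ℕ) :
    (BT.node l r).get n = if n % 2 = 1 then r.get (n / 2) else l.get (n / 2) := by
  show Nat.rec (motive := fun _ => α) (l.get (n / 2)) (fun _ _ => r.get (n / 2)) (n % 2) = _
  rcases Nat.mod_two_eq_zero_or_one n with h | h <;> rw [h] <;> rfl

theorem BT.all_node {α : Type} (l r : BT α) (p : α → Bool) :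
    (BT.node l r).all p = (l.all p && r.all p) := by
  show Bool.rec (motive := fun _ => Bool) false (r.all p) (l.all p) = _
  cases l.all p <;> rfl

theorem BT.all_get {α : Type} {t : BT α} {p : α → Bool} (h : t.all p = true) (n : ℕ) :
    p (t.get n) = true := by
  induction t generalizing n with
  | leaf a => exact h
  | node l r ihl ihr =>
    rw [BT.all_node, Bool.and_eq_true] at h
    rw [BT.get_node]
    split_ifs
    · exact ihr h.2 _
    · exact ihl h.1 _

/-- small automata with a simulation relation (`n`: number of states) -/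
structure DS where
  df : DF
  sm : ℕ
  n : ℕ

/-- an entry of the simulation matrix -/
def leN (sm q q' : ℕ) : Bool := tb sm (Nat.add (Nat.mul 64 q) q')

/-- `q` is simulated by `q'` -/
def DS.le (d : DS) (q q' : ℕ) : Bool := leN d.sm q q'

theorem DS.le_eq (d : DS) (q q' : ℕ) : d.le q q' = d.sm.testBit (64 * q + q') := by
  unfold DS.le leN
  rw [tb_eq]
  rfl

/-- check of one pair of states -/
noncomputable def chkP (dl ac sm q q' : ℕ) : Bool :=
  bor (bnot (leN sm q q')) (band (bor (bnot (tb ac q)) (tb ac q'))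
    (band (leN sm (nxN dl q 0) (nxN dl q' 0)) (band (leN sm (nxN dl q 6) (nxN dl q' 6))
      (leN sm (nxN dl q 12) (nxN dl q' 12)))))

/-- the relation is a simulation -/
noncomputable def chkN (dl ac sm n : ℕ) : Bool :=
  band (Nat.ble (Nat.succ sm) (Nat.pow 2 (Nat.mul 64 n)))
    (allB (fun q => allB (fun q' => chkP dl ac sm q q') 64) n)

/-- the relation is a simulation -/
noncomputable def DS.chk (d : DS) : Bool :=
  DS.rec (motive := fun _ => Bool) (fun df sm n => DF.rec (motive := fun _ => Bool)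
    (fun dl ac => chkN dl ac sm n) df) d

/-- inclusion of languages of states -/
def DS.Sub (d : DF) (q q' : ℕ) : Prop :=
  ∀ v : List ℕ, (∀ x ∈ v, 1 ≤ x ∧ x ≤ 3) → d.ac.testBit (v.foldl d.nx q) = true →
    d.ac.testBit (v.foldl d.nx q') = true

theorem DF.nx_lt (d : DF) (q x : ℕ) : d.nx q x < 64 := Nat.mod_lt _ (by norm_num)

theorem DS.sub_of_le {d : DS} (h : d.chk = true) {q q' : ℕ} (hq : q' < 64)
    (hle : d.le q q' = true) : DS.Sub d.df q q' := by
  have hnx := d.df.nx_lt
  have h' : chkN d.df.dl d.df.ac d.sm d.n = true := by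
    obtain ⟨⟨dl, ac⟩, sm, n⟩ := d
    exact h
  unfold chkN at h'
  rw [band_eq, Bool.and_eq_true] at h'
  obtain ⟨h1, h2⟩ := h'
  have h1' : d.sm < 2 ^ (64 * d.n) := bles_eq.1 h1
  have hqn : ∀ {q q' : ℕ}, d.le q q' = true → q < d.n := by
    intro q q' hle
    by_contra hc
    rw [DS.le_eq] at hle
    have : d.sm < 2 ^ (64 * q + q') :=
      lt_of_lt_of_le h1' (Nat.pow_le_pow_right (by norm_num) (by omega))
    rw [Nat.testBit_lt_two_pow this] at hle
    exact absurd hle (by decide)
  have h3 : ∀ {q q' : ℕ}, q' < 64 → d.le q q' = true →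
      (d.df.ac.testBit q = true → d.df.ac.testBit q' = true) ∧
      ∀ x, 1 ≤ x ∧ x ≤ 3 → d.le (d.df.nx q x) (d.df.nx q' x) = true := by
    intro q q' hq hle
    have h4 := allB_spec (allB_spec h2 (hqn hle)) hq
    unfold chkP at h4
    have hle' : leN d.sm q q' = true := hle
    rw [hle'] at h4
    simp only [band_eq, bor_eq, bnot_eq, Bool.not_true, Bool.false_or, Bool.and_eq_true,
      Bool.or_eq_true, Bool.not_eq_true'] at h4
    obtain ⟨c0, c1, c2, c3⟩ := h4
    constructor
    · intro ha
      rw [tb_eq, tb_eq] at c0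
      rcases c0 with c0 | c0
      · rw [ha] at c0; exact absurd c0 (by decide)
      · exact c0
    · intro x hx
      have : x = 1 ∨ x = 2 ∨ x = 3 := by omega
      rcases this with rfl | rfl | rfl
      · exact c1
      · exact c2
      · exact c3
  intro v
  induction v generalizing q q' with
  | nil =>
    intro _ ha
    simp only [List.foldl_nil] at ha ⊢
    exact (h3 hq hle).1 ha
  | cons x v ih =>
    intro hv ha
    rw [List.foldl_cons] at ha ⊢
    have hx := hv x (by simp)
    exact ih (hnx _ _) ((h3 hq hle).2 x hx) (fun y hy => hv y (by simp [hy])) ha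

theorem DS.Sub.step {d : DF} {q q' x : ℕ} (h : DS.Sub d q q') (hx : 1 ≤ x ∧ x ≤ 3) :
    DS.Sub d (d.nx q x) (d.nx q' x) := by
  intro v hv ha
  have := h (x :: v) (by
    intro y hy
    rcases List.mem_cons.1 hy with rfl | hy
    · exact hx
    · exact hv y hy) (by rw [List.foldl_cons]; exact ha)
  rw [List.foldl_cons] at this
  exact this

theorem DS.Sub.trans {d : DF} {a b c : ℕ} (h : DS.Sub d a b) (h' : DS.Sub d b c) :
    DS.Sub d a c := fun v hv ha => h' v hv (h v hv ha)

/-- entries of a node (`64 * template + state`): positive digits in base `2 ^ 16` -/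
def ens (c : ℕ) : List ℕ := Nat.digits 65536 c

theorem ens_zero : ens 0 = [] := Nat.digits_zero _

theorem ens_pos {c : ℕ} (h : c ≠ 0) : ens c = c % 65536 :: ens (c / 65536) :=
  Nat.digits_def' (by norm_num) (Nat.pos_of_ne_zero h)

/-- remove the first entries with template `t` and states simulated by `q` -/
noncomputable def dropN (sm t q f : ℕ) : ℕ → ℕ :=
  Nat.rec (motive := fun _ => ℕ → ℕ) (fun c => c) (fun _ ih c =>
    Bool.rec (motive := fun _ => ℕ) c (frc (Nat.div c 65536) ih)
      (band (Nat.beq (Nat.mod (Nat.div c 64) 1024) t) (leN sm (Nat.mod c 64) q))) f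

theorem dropN_spec {sm t q f c : ℕ} : ∀ a ∈ ens c, (a / 64 = t ∧ leN sm (a % 64) q = true) ∨
    a ∈ ens (dropN sm t q f c) := by
  induction f generalizing c with
  | zero => exact fun a ha => Or.inr ha
  | succ f ih =>
    intro a ha
    by_cases h0 : c = 0
    · rw [h0, ens_zero] at ha
      exact absurd ha (by simp)
    · have e : dropN sm t q (f + 1) c = Bool.rec (motive := fun _ => ℕ) c
          (dropN sm t q f (c / 65536))
          (band (Nat.beq (Nat.mod (Nat.div c 64) 1024) t) (leN sm (Nat.mod c 64) q)) := rfl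
      rw [e]
      rcases hh : band (Nat.beq (Nat.mod (Nat.div c 64) 1024) t) (leN sm (Nat.mod c 64) q)
        with _ | _
      · exact Or.inr ha
      · rw [band_eq, Bool.and_eq_true, beq_eq] at hh
        obtain ⟨h1, h2⟩ := hh
        rw [ens_pos h0] at ha
        rcases List.mem_cons.1 ha with rfl | ha
        · left
          have h1' : c / 64 % 1024 = t := h1
          refine ⟨by omega, ?_⟩
          have : c % 65536 % 64 = c % 64 := by omega
          rw [this]
          exact h2
        · exact ih a ha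

/-- entry `a` is implied by the entry `b` after the letter `x` -/
def LeE (ds : BT DS) (x a b : ℕ) : Prop :=
  a / 64 = b / 64 ∧
    (ds.get (b / 64)).le (a % 64) ((ds.get (b / 64)).df.nx (b % 64) x) = true

/-- one entry of the source is used to remove entries of the three targets -/
noncomputable def mst3 (k : ℕ → ℕ → ℕ → ℕ → Bool) (c t1 t2 t3 t sm q1 q2 q3 : ℕ) : Bool :=
  frc (Nat.div c 65536) (fun c' => frc (dropN sm t q1 64 t1) (fun u1 =>
    frc (dropN sm t q2 64 t2) (fun u2 => frc (dropN sm t q3 64 t3) (fun u3 => k c' u1 u2 u3))))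

/-- one entry of the source is used to remove entries of the three targets -/
noncomputable def mstp (k : ℕ → ℕ → ℕ → ℕ → Bool) (c t1 t2 t3 t : ℕ) (d : DS) : Bool :=
  DS.rec (motive := fun _ => Bool) (fun df sm _ => DF.rec (motive := fun _ => Bool) (fun dl _ =>
    frc (Nat.mod c 64) (fun q => mst3 k c t1 t2 t3 t sm (nxN dl q 0) (nxN dl q 6)
      (nxN dl q 12))) df) d

/-- all entries of the three targets are implied by entries of the source: one round -/
noncomputable def mrgB (ds : BT DS) (k : ℕ → ℕ → ℕ → ℕ → Bool) (c t1 t2 t3 : ℕ) : Bool :=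
  Nat.rec (motive := fun _ => Bool) (Nat.beq (Nat.add t1 (Nat.add t2 t3)) 0)
    (fun _ _ => frc (Nat.mod (Nat.div c 64) 1024) (fun t =>
      mstp k c t1 t2 t3 t (BT.get ds t))) c

/-- all entries of the three targets are implied by entries of the source -/
noncomputable def mrg (ds : BT DS) (f : ℕ) : ℕ → ℕ → ℕ → ℕ → Bool :=
  Nat.rec (motive := fun _ => ℕ → ℕ → ℕ → ℕ → Bool) (fun _ _ _ _ => false)
    (fun _ ih => mrgB ds ih) f

theorem mstp_eq (k : ℕ → ℕ → ℕ → ℕ → Bool) (c t1 t2 t3 t : ℕ) (d : DS) :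
    mstp k c t1 t2 t3 t d = k (c / 65536) (dropN d.sm t (d.df.nx (c % 64) 1) 64 t1)
      (dropN d.sm t (d.df.nx (c % 64) 2) 64 t2) (dropN d.sm t (d.df.nx (c % 64) 3) 64 t3) := by
  obtain ⟨⟨dl, ac⟩, sm, n⟩ := d
  rfl

theorem mrg_zero (ds : BT DS) (c t1 t2 t3 : ℕ) : mrg ds 0 c t1 t2 t3 = false := rfl

theorem mrg_succ (ds : BT DS) (f : ℕ) : mrg ds (f + 1) = mrgB ds (mrg ds f) := rfl

theorem mrgB_z (ds : BT DS) (k : ℕ → ℕ → ℕ → ℕ → Bool) (t1 t2 t3 : ℕ) :
    mrgB ds k 0 t1 t2 t3 = Nat.beq (Nat.add t1 (Nat.add t2 t3)) 0 := rfl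

theorem mrgB_s (ds : BT DS) (k : ℕ → ℕ → ℕ → ℕ → Bool) (m t1 t2 t3 : ℕ) :
    mrgB ds k (m + 1) t1 t2 t3 = frc (Nat.mod (Nat.div (m + 1) 64) 1024) (fun t =>
      mstp k (m + 1) t1 t2 t3 t (BT.get ds t)) := rfl

theorem tpl_eq (c : ℕ) : Nat.mod (Nat.div c 64) 1024 = c % 65536 / 64 := by
  show c / 64 % 1024 = c % 65536 / 64
  omega

theorem mrg_spec {ds : BT DS} {f c t1 t2 t3 : ℕ} (h : mrg ds f c t1 t2 t3 = true) :
    (∀ a ∈ ens t1, ∃ b ∈ ens c, LeE ds 1 a b) ∧ (∀ a ∈ ens t2, ∃ b ∈ ens c, LeE ds 2 a b) ∧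
      (∀ a ∈ ens t3, ∃ b ∈ ens c, LeE ds 3 a b) := by
  induction f generalizing c t1 t2 t3 with
  | zero => rw [mrg_zero] at h; exact absurd h (by decide)
  | succ f ih =>
    rcases c with _ | m
    · rw [mrg_succ, mrgB_z, beq_eq] at h
      have h2 : t1 + (t2 + t3) = 0 := h
      have e1 : t1 = 0 := by omega
      have e2 : t2 = 0 := by omega
      have e3 : t3 = 0 := by omega
      subst e1 e2 e3
      rw [ens_zero]
      simp
    · rw [mrg_succ, mrgB_s, frc_eq, mstp_eq] at h
      have hc0 : m + 1 ≠ 0 := by omega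
      generalize m + 1 = c at h hc0 ⊢
      have ht := tpl_eq c
      have hq : c % 64 = c % 65536 % 64 := by omega
      rw [ht, hq] at h
      obtain ⟨g1, g2, g3⟩ := ih h
      rw [ens_pos hc0]
      generalize c % 65536 = b at g1 g2 g3 ⊢
      have key : ∀ {x u : ℕ}, (∀ a ∈ ens (dropN (BT.get ds (b / 64)).sm (b / 64)
          ((BT.get ds (b / 64)).df.nx (b % 64) x) 64 u), ∃ b ∈ ens (c / 65536),
          LeE ds x a b) → ∀ a ∈ ens u, ∃ b' ∈ b :: ens (c / 65536), LeE ds x a b' := by
        intro x u hh a ha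
        rcases dropN_spec (sm := (BT.get ds (b / 64)).sm) (t := b / 64)
          (q := (BT.get ds (b / 64)).df.nx (b % 64) x) (f := 64) a ha with h3 | h3
        · exact ⟨b, List.mem_cons_self, h3⟩
        · obtain ⟨b', hb, h4⟩ := hh a h3
          exact ⟨b', List.mem_cons_of_mem _ hb, h4⟩
      exact ⟨key g1, key g2, key g3⟩

/-- the state of the entry `c` is accepting in `d` -/
noncomputable def acE (d : DS) (c : ℕ) : Bool :=
  DS.rec (motive := fun _ => Bool) (fun df _ _ => DF.rec (motive := fun _ => Bool)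
    (fun _ ac => tb ac (Nat.mod c 64)) df) d

/-- some entry is accepting: one round -/
noncomputable def anyB (ds : BT DS) (k : ℕ → Bool) (c : ℕ) : Bool :=
  Nat.rec (motive := fun _ => Bool) false
    (fun _ _ => frc (Nat.mod (Nat.div c 64) 1024) (fun t =>
      bor (acE (BT.get ds t) c) (frc (Nat.div c 65536) k))) c

/-- some entry is accepting -/
noncomputable def anyA (ds : BT DS) (f : ℕ) : ℕ → Bool :=
  Nat.rec (motive := fun _ => ℕ → Bool) (fun _ => false) (fun _ ih => anyB ds ih) f

theorem acE_eq (d : DS) (c : ℕ) : acE d c = d.df.ac.testBit (c % 64) := by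
  obtain ⟨⟨dl, ac⟩, sm, n⟩ := d
  exact tb_eq _ _

theorem anyA_zero (ds : BT DS) (c : ℕ) : anyA ds 0 c = false := rfl

theorem anyA_succ (ds : BT DS) (f : ℕ) : anyA ds (f + 1) = anyB ds (anyA ds f) := rfl

theorem anyB_z (ds : BT DS) (k : ℕ → Bool) : anyB ds k 0 = false := rfl

theorem anyB_s (ds : BT DS) (k : ℕ → Bool) (m : ℕ) : anyB ds k (m + 1) =
    frc (Nat.mod (Nat.div (m + 1) 64) 1024) (fun t =>
      bor (acE (BT.get ds t) (m + 1)) (frc (Nat.div (m + 1) 65536) k)) := rfl

theorem anyA_spec {ds : BT DS} {f c : ℕ} (h : anyA ds f c = true) :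
    ∃ g ∈ ens c, (ds.get (g / 64)).df.ac.testBit (g % 64) = true := by
  induction f generalizing c with
  | zero => rw [anyA_zero] at h; exact absurd h (by decide)
  | succ f ih =>
    rcases c with _ | m
    · rw [anyA_succ, anyB_z] at h; exact absurd h (by decide)
    · rw [anyA_succ, anyB_s, frc_eq, frc_eq, tpl_eq, acE_eq, bor_eq, Bool.or_eq_true] at h
      have hc0 : m + 1 ≠ 0 := by omega
      generalize m + 1 = c at h hc0 ⊢
      have hq : c % 64 = c % 65536 % 64 := by omega
      rw [hq] at h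
      rw [ens_pos hc0]
      rcases h with h1 | h1
      · exact ⟨c % 65536, List.mem_cons_self, h1⟩
      · obtain ⟨g, hg, h2⟩ := ih h1
        exact ⟨g, List.mem_cons_of_mem _ hg, h2⟩

/-- all entries are simulated by the initial state: one round -/
noncomputable def allJ (ds : BT DS) (k : ℕ → Bool) (c : ℕ) : Bool :=
  Nat.rec (motive := fun _ => Bool) true
    (fun _ _ => frc (Nat.mod (Nat.div c 64) 1024) (fun t =>
      band (DS.le (BT.get ds t) (Nat.mod c 64) 0) (frc (Nat.div c 65536) k))) c

/-- all entries are simulated by the initial state -/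
noncomputable def allI (ds : BT DS) (f : ℕ) : ℕ → Bool :=
  Nat.rec (motive := fun _ => ℕ → Bool) (fun _ => false) (fun _ ih => allJ ds ih) f

theorem allI_zero (ds : BT DS) (c : ℕ) : allI ds 0 c = false := rfl

theorem allI_succ (ds : BT DS) (f : ℕ) : allI ds (f + 1) = allJ ds (allI ds f) := rfl

theorem allJ_s (ds : BT DS) (k : ℕ → Bool) (m : ℕ) : allJ ds k (m + 1) =
    frc (Nat.mod (Nat.div (m + 1) 64) 1024) (fun t =>
      band (DS.le (BT.get ds t) (Nat.mod (m + 1) 64) 0) (frc (Nat.div (m + 1) 65536) k)) := rfl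

theorem allI_spec {ds : BT DS} {f c : ℕ} (h : allI ds f c = true) :
    ∀ g ∈ ens c, (ds.get (g / 64)).le (g % 64) 0 = true := by
  induction f generalizing c with
  | zero => rw [allI_zero] at h; exact absurd h (by decide)
  | succ f ih =>
    rcases c with _ | m
    · intro g hg
      rw [ens_zero] at hg
      exact absurd hg (by simp)
    · rw [allI_succ, allJ_s, frc_eq, frc_eq, tpl_eq, band_eq, Bool.and_eq_true] at h
      have hc0 : m + 1 ≠ 0 := by omega
      generalize m + 1 = c at h hc0 ⊢
      have hq : Nat.mod c 64 = c % 65536 % 64 := by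
        show c % 64 = c % 65536 % 64
        omega
      rw [hq] at h
      intro g hg
      rw [ens_pos hc0] at hg
      rcases List.mem_cons.1 hg with rfl | hg
      · exact h.1
      · exact ih h.2 g hg

/-- check of the class automaton in one transition to the node `n` (`1048575`: no word of the
class continues; `63` is the dead state of the class automaton), then `k` for its entries -/
noncomputable def tgtB (sm : ℕ) (nodes : BT ℕ) (q n : ℕ) (k : ℕ → Bool) : Bool :=
  Bool.rec (motive := fun _ => Bool)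
    (frc (BT.get nodes n) (fun c => band (leN sm q (Nat.mod c 64)) (frc (Nat.shiftRight c 66) k)))
    (band (leN sm q 63) (k 0)) (Nat.beq n 1048575)

theorem tgtB_spec {sm : ℕ} {nodes : BT ℕ} {q n : ℕ} {k : ℕ → Bool}
    (h : tgtB sm nodes q n k = true) :
    (leN sm q 63 = true ∧ k 0 = true) ∨
    (leN sm q (nodes.get n % 64) = true ∧ k (nodes.get n >>> 66) = true) := by
  unfold tgtB at h
  rw [frc_eq, frc_eq] at h
  generalize Nat.beq n 1048575 = b at h
  cases b with
  | false =>
    right
    have h1 : band (leN sm q (Nat.mod (nodes.get n) 64)) (k (Nat.shiftRight (nodes.get n) 66))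
      = true := h
    rw [band_eq, Bool.and_eq_true] at h1
    exact h1
  | true =>
    left
    have h1 : band (leN sm q 63) (k 0) = true := h
    rw [band_eq, Bool.and_eq_true] at h1
    exact h1

/-- check of a node: 6 bits for the state of the class automaton, then three successors with 20
bits each, then the entries -/
noncomputable def ndN (dl ac sm : ℕ) (ds : BT DS) (nodes : BT ℕ) (c : ℕ) : Bool :=
  frc c (fun c => frc (Nat.mod c 64) (fun q => band (bor (bnot (tb ac q))
      (frc (Nat.shiftRight c 66) (anyA ds 1000)))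
    (frc (Nat.mod (Nat.shiftRight c 6) 1048576) (fun n1 => tgtB sm nodes (nxN dl q 0) n1
      (fun t1 => frc (Nat.mod (Nat.shiftRight c 26) 1048576) (fun n2 =>
        tgtB sm nodes (nxN dl q 6) n2 (fun t2 => frc (Nat.mod (Nat.shiftRight c 46) 1048576)
          (fun n3 => tgtB sm nodes (nxN dl q 12) n3 (fun t3 =>
            frc (Nat.shiftRight c 66) (fun e => mrg ds 1000 e t1 t2 t3))))))))))

/-- check of a node -/
noncomputable def nodeB (fd : DS) (ds : BT DS) (nodes : BT ℕ) (c : ℕ) : Bool :=
  DS.rec (motive := fun _ => Bool) (fun df sm _ => DF.rec (motive := fun _ => Bool)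
    (fun dl ac => ndN dl ac sm ds nodes c) df) fd

/-- check of the initial node -/
noncomputable def node0B (fd : DS) (ds : BT DS) (c : ℕ) : Bool :=
  band (DS.le fd 0 (Nat.mod c 64)) (allI ds 1000 (Nat.shiftRight c 66))

/-- check of the class automaton: `63` is a dead state -/
noncomputable def fdB (fd : DS) : Bool :=
  band fd.chk (band (bnot (tb fd.df.ac 63)) (band (Nat.beq (fd.df.nx 63 1) 63)
    (band (Nat.beq (fd.df.nx 63 2) 63) (Nat.beq (fd.df.nx 63 3) 63))))

/-- the invariant of a node -/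
def NInv (fd : DS) (ds : BT DS) (w : List ℕ) (c : ℕ) : Prop :=
  DS.Sub fd.df (fd.df.run w) (c % 64) ∧ ∀ g ∈ ens (c >>> 66),
    DS.Sub (ds.get (g / 64)).df (g % 64) ((ds.get (g / 64)).df.run w)

theorem chk_of_fdB {fd : DS} (h : fdB fd = true) : fd.chk = true := by
  unfold fdB at h
  rw [band_eq, Bool.and_eq_true] at h
  exact h.1

theorem run_snoc (d : DF) (w : List ℕ) (x : ℕ) : d.run (w ++ [x]) = d.nx (d.run w) x := by
  unfold DF.run
  rw [List.foldl_append]
  rfl

/-- a checked transition -/
def TOk (fd : DS) (ds : BT DS) (nodes : BT ℕ) (c x : ℕ) : Prop :=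
  fd.le (fd.df.nx (c % 64) x) 63 = true ∨
    ∃ n, fd.le (fd.df.nx (c % 64) x) (nodes.get n % 64) = true ∧
      ∀ a ∈ ens (nodes.get n >>> 66), ∃ b ∈ ens (c >>> 66), LeE ds x a b

theorem nodeB_spec {fd : DS} {ds : BT DS} {nodes : BT ℕ} {c : ℕ}
    (h : nodeB fd ds nodes c = true) :
    (fd.df.ac.testBit (c % 64) = true → ∃ g ∈ ens (c >>> 66),
      (ds.get (g / 64)).df.ac.testBit (g % 64) = true) ∧
    TOk fd ds nodes c 1 ∧ TOk fd ds nodes c 2 ∧ TOk fd ds nodes c 3 := by
  obtain ⟨⟨dl, ac⟩, sm, n⟩ := fd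
  have h1 : ndN dl ac sm ds nodes c = true := h
  unfold ndN at h1
  simp only [frc_eq] at h1
  rw [band_eq, bor_eq, bnot_eq, Bool.and_eq_true, Bool.or_eq_true, Bool.not_eq_true', tb_eq] at h1
  obtain ⟨h0, h1⟩ := h1
  refine ⟨?_, ?_⟩
  · intro ha
    have ha' : ac.testBit (Nat.mod c 64) = true := ha
    rw [ha'] at h0
    rcases h0 with h0 | h0
    · exact absurd h0 (by decide)
    · exact anyA_spec h0
  · have k1 : (DS.mk (DF.mk dl ac) sm n).df.nx (c % 64) 1 = nxN dl (Nat.mod c 64) 0 := rfl
    have k2 : (DS.mk (DF.mk dl ac) sm n).df.nx (c % 64) 2 = nxN dl (Nat.mod c 64) 6 := rfl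
    have k3 : (DS.mk (DF.mk dl ac) sm n).df.nx (c % 64) 3 = nxN dl (Nat.mod c 64) 12 := rfl
    have hk : ∀ q q', (DS.mk (DF.mk dl ac) sm n).le q q' = leN sm q q' := fun q q' => rfl
    have hsh : Nat.shiftRight c 66 = c >>> 66 := rfl
    rw [hsh] at h1
    unfold TOk
    rw [k1, k2, k3]
    simp only [hk]
    rcases tgtB_spec h1 with ⟨a1, h2⟩ | ⟨a1, h2⟩ <;> rcases tgtB_spec h2 with ⟨a2, h3⟩ | ⟨a2, h3⟩ <;>
      rcases tgtB_spec h3 with ⟨a3, h4⟩ | ⟨a3, h4⟩ <;>
      obtain ⟨g1, g2, g3⟩ := mrg_spec h4 <;>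
      exact ⟨by first | exact Or.inl a1 | exact Or.inr ⟨_, a1, g1⟩,
        by first | exact Or.inl a2 | exact Or.inr ⟨_, a2, g2⟩,
        by first | exact Or.inl a3 | exact Or.inr ⟨_, a3, g3⟩⟩

theorem NInv.step {fd : DS} {ds : BT DS} {nodes : BT ℕ} (hfd : fd.chk = true)
    (hds : ds.all DS.chk = true) {w : List ℕ} {c x : ℕ}
    (h : NInv fd ds w c) (hx : 1 ≤ x ∧ x ≤ 3) (hs : TOk fd ds nodes c x) :
    DS.Sub fd.df (fd.df.run (w ++ [x])) 63 ∨ ∃ n, NInv fd ds (w ++ [x]) (nodes.get n) := by
  rcases hs with h2 | ⟨n, h1, h2⟩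
  · left
    rw [run_snoc]
    exact (h.1.step hx).trans (DS.sub_of_le hfd (by norm_num) h2)
  · right
    refine ⟨n, ?_, ?_⟩
    · rw [run_snoc]
      exact (h.1.step hx).trans (DS.sub_of_le hfd (Nat.mod_lt _ (by norm_num)) h1)
    · intro a ha
      obtain ⟨b, hb, e1, e2⟩ := h2 a ha
      have hb' := h.2 b hb
      rw [e1]
      have e3 : DS.Sub (ds.get (b / 64)).df (a % 64) ((ds.get (b / 64)).df.nx (b % 64) x) :=
        DS.sub_of_le (BT.all_get hds _) (DF.nx_lt _ _ _) e2
      rw [run_snoc]
      exact e3.trans (hb'.step hx)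

theorem dead_of {fd : DS} (hfd : fdB fd = true) {w : List ℕ}
    (h : DS.Sub fd.df (fd.df.run w) 63) (v : List ℕ) (hv : ∀ x ∈ v, 1 ≤ x ∧ x ≤ 3) :
    fd.df.ac.testBit (fd.df.run (w ++ v)) = false := by
  unfold fdB at hfd
  rw [band_eq, band_eq, band_eq, band_eq, bnot_eq, Bool.and_eq_true, Bool.and_eq_true,
    Bool.and_eq_true, Bool.and_eq_true, Bool.not_eq_true', tb_eq] at hfd
  obtain ⟨-, h0, h1, h2, h3⟩ := hfd
  have h1' := beq_eq.1 h1
  have h2' := beq_eq.1 h2
  have h3' := beq_eq.1 h3
  have key : ∀ v : List ℕ, (∀ x ∈ v, 1 ≤ x ∧ x ≤ 3) → v.foldl fd.df.nx 63 = 63 := by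
    intro v
    induction v with
    | nil => intro _; rfl
    | cons x v ih =>
      intro hv
      rw [List.foldl_cons]
      have hx := hv x (by simp)
      have hx2 : fd.df.nx 63 x = 63 := by
        have : x = 1 ∨ x = 2 ∨ x = 3 := by omega
        rcases this with rfl | rfl | rfl
        · exact h1'
        · exact h2'
        · exact h3'
      rw [hx2]
      exact ih (fun y hy => hv y (by simp [hy]))
  by_contra hc
  rw [Bool.not_eq_false] at hc
  have e : fd.df.run (w ++ v) = v.foldl fd.df.nx (fd.df.run w) := by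
    unfold DF.run; rw [List.foldl_append]
  rw [e] at hc
  have := h v hv hc
  rw [key v hv, h0] at this
  exact absurd this (by decide)

/-- **the covering certificate is sound**: all words of the class have labels -/
theorem cover {M : ℕ} {fd : DS} {ds : BT DS} {nodes : BT ℕ} (hfd : fdB fd = true)
    (hds : ds.all DS.chk = true) (hok : ∀ t, (ds.get t).df.ok M)
    (h : nodes.all (nodeB fd ds nodes) = true) (h0 : node0B fd ds (nodes.get 0) = true) :
    fd.df.ok M := by
  have hfc : fd.chk = true := chk_of_fdB hfd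
  have key : ∀ w : List ℕ, (∀ x ∈ w, 1 ≤ x ∧ x ≤ 3) →
      (DS.Sub fd.df (fd.df.run w) 63) ∨ ∃ n, NInv fd ds w (nodes.get n) := by
    intro w
    induction w using List.reverseRecOn with
    | nil =>
      intro _
      right
      unfold node0B at h0
      rw [band_eq, Bool.and_eq_true] at h0
      refine ⟨0, ?_, ?_⟩
      · exact DS.sub_of_le hfc (Nat.mod_lt _ (by norm_num)) h0.1
      · intro g hg
        exact DS.sub_of_le (BT.all_get hds _) (show (0 : ℕ) < 64 by norm_num)
          (allI_spec h0.2 g hg)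
    | append_singleton w x ih =>
      intro hx
      have hx1 := hx x (by simp)
      rcases ih (fun y hy => hx y (by simp [hy])) with hd | ⟨n, hinv⟩
      · left
        intro v hv ha
        have hw : ∀ y ∈ x :: v, 1 ≤ y ∧ y ≤ 3 := by
          intro y hy
          rcases List.mem_cons.1 hy with rfl | hy
          · exact hx1
          · exact hv y hy
        have h1 := dead_of hfd hd (x :: v) hw
        have e : fd.df.run (w ++ x :: v) = v.foldl fd.df.nx (fd.df.run (w ++ [x])) := by
          unfold DF.run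
          rw [← List.foldl_append]
          congr 1
          simp
        rw [e, ha] at h1
        exact absurd h1 (by decide)
      · obtain ⟨-, c1, c2, c3⟩ := nodeB_spec (BT.all_get h n)
        have : x = 1 ∨ x = 2 ∨ x = 3 := by omega
        rcases this with rfl | rfl | rfl
        · exact hinv.step hfc hds hx1 c1
        · exact hinv.step hfc hds hx1 c2
        · exact hinv.step hfc hds hx1 c3
  intro w hw hacc
  rcases key w hw with hd | ⟨n, hinv⟩
  · have := dead_of hfd hd [] (by simp)
    rw [List.append_nil, hacc] at this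
    exact absurd this (by decide)
  · obtain ⟨h1, -⟩ := nodeB_spec (BT.all_get h n)
    have hac : fd.df.ac.testBit (nodes.get n % 64) = true := hinv.1 [] (by simp) hacc
    obtain ⟨g, hg, h2⟩ := h1 hac
    exact hok (g / 64) w hw (hinv.2 g hg [] (by simp) h2)

/-- the automaton of all words of odd length (states `0`, `1`, dead state `63`) -/
def oddF : DF := ⟨4161 + (63 + 63 * 64 + 63 * 4096) * 2 ^ (18 * 63), 2⟩

/-- all words of odd length -/
theorem odd_of {M : ℕ} (h : oddF.ok M) (w : List ℕ) (hw : ∀ x ∈ w, 1 ≤ x ∧ x ≤ 3)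
    (hodd : w.length % 2 = 1) : Lab3 M w := by
  have key : ∀ w : List ℕ, (∀ x ∈ w, 1 ≤ x ∧ x ≤ 3) → oddF.run w = w.length % 2 := by
    intro w
    induction w using List.reverseRecOn with
    | nil => intro _; rfl
    | append_singleton w x ih =>
      intro hx
      rw [run_snoc, ih (fun y hy => hx y (by simp [hy])), List.length_append]
      simp only [List.length_cons, List.length_nil, zero_add]
      have hx1 := hx x (by simp)
      have h3 : x = 1 ∨ x = 2 ∨ x = 3 := by omega
      rcases Nat.mod_two_eq_zero_or_one w.length with h2 | h2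
      · rw [h2, show (w.length + 1) % 2 = 1 by omega]
        rcases h3 with rfl | rfl | rfl <;> decide +kernel
      · rw [h2, show (w.length + 1) % 2 = 0 by omega]
        rcases h3 with rfl | rfl | rfl <;> decide +kernel
  apply h w hw
  rw [key w hw, hodd]
  decide +kernel

/-- a property of all leaves -/
def BT.Fa {α : Type} (P : α → Prop) : BT α → Prop
  | .leaf a => P a
  | .node l r => l.Fa P ∧ r.Fa P

theorem BT.Fa_mk {α : Type} {P : α → Prop} {l r : BT α} (hl : l.Fa P) (hr : r.Fa P) :
    (BT.node l r).Fa P := ⟨hl, hr⟩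

theorem BT.Fa_leaf {α : Type} {P : α → Prop} {a : α} (h : P a) : (BT.leaf a).Fa P := h

theorem BT.all_of_Fa {α : Type} {t : BT α} {p : α → Bool} (h : t.Fa (fun a => p a = true)) :
    t.all p = true := by
  induction t with
  | leaf a => exact h
  | node l r ihl ihr =>
    rw [BT.all_node, Bool.and_eq_true]
    exact ⟨ihl h.1, ihr h.2⟩

theorem BT.Fa_of_all {α : Type} {t : BT α} {p : α → Bool} (h : t.all p = true) :
    t.Fa (fun a => p a = true) := by
  induction t with
  | leaf a => exact h
  | node l r ihl ihr =>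
    rw [BT.all_node, Bool.and_eq_true] at h
    exact ⟨ihl h.1, ihr h.2⟩

theorem BT.Fa_get {α : Type} {P : α → Prop} {t : BT α} (h : t.Fa P) (n : ℕ) : P (t.get n) := by
  induction t generalizing n with
  | leaf a => exact h
  | node l r ihl ihr =>
    rw [BT.get_node]
    split_ifs
    · exact ihr h.2 _
    · exact ihl h.1 _

end MPb6P
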