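import Pool.Agent.Lib.MP_b6d339_lc.Pos.NCheck
import Pool.Agent.Lib.MP_b6d339_lc.Pos.WNode

/-!
# Erdős 592, positive side: covering certificates with schedule automata
-/

namespace MPb6P

/-! ## coded states -/

/-- records in base `2 ^ 16` -/
noncomputable def decR (f : ℕ) : ℕ → List NRec :=
  Nat.rec (motive := fun _ => ℕ → List NRec) (fun _ => []) (fun _ ih m =>
    Nat.rec (motive := fun _ => List NRec) []
      (fun _ _ => frc (Nat.mod m 4) (fun k => frc (Nat.mod (Nat.shiftRight m 2) 4) (fun r =>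
        frc (Nat.mod (Nat.shiftRight m 4) 2) (fun e => frc (Nat.mod (Nat.shiftRight m 5) 64)
          (fun t => frc (Nat.mod (Nat.shiftRight m 11) 8) (fun v =>
            frc (Nat.shiftRight m 16) (fun m' => NRec.mk k r e t v :: ih m'))))))) m) f

/-- the state with code `n` -/
noncomputable def decS (n : ℕ) : NSt :=
  frc (Nat.mod n 2) (fun par => frc (Nat.mod (Nat.shiftRight n 1) 64) (fun a2 =>
    frc (Nat.mod (Nat.shiftRight n 7) 64) (fun a1 => frc (Nat.mod (Nat.shiftRight n 13) 64)
    (fun b2 => frc (Nat.mod (Nat.shiftRight n 19) 64) (fun b1 =>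
    frc (Nat.mod (Nat.shiftRight n 25) 64) (fun c2 => frc (Nat.mod (Nat.shiftRight n 31) 64)
    (fun c1 => frc (Nat.shiftRight n 48) (fun m => NSt.mk par a2 a1 b2 b1 c2 c1 (decR 64 m)))))))))

/-- the number of the skeleton -/
noncomputable def scN (n : ℕ) : ℕ := Nat.mod (Nat.shiftRight n 37) 2048

/-- the meaning of a coded state -/
def StInv (scr : BT CT) (n : ℕ) (u : List ℕ) : Prop :=
  ∃ lab P, NSem (scr.get (scN n)) (decS n) u lab P

/-- role with number `r` -/
noncomputable def selR (r : ℕ) (a b c : CRole) : CRole :=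
  Nat.rec (motive := fun _ => CRole) a (fun n _ => Nat.rec (motive := fun _ => CRole) b
    (fun _ _ => c) n) r

theorem selR_eq {C : CT} {r : ℕ} {R : Fin 3} (h : r = R.1) :
    selR r C.rA C.rB C.rC = C.rl R := by
  subst h; fin_cases R <;> rfl

/-- test for parked records -/
noncomputable def pkB (e t : ℕ) (c : CRole) : Bool :=
  CRole.rec (motive := fun _ => Bool) (fun us _ a0 a1 l1 l2 =>
    band (Nat.ble 1 t) (band (Nat.ble e 1) (band (bnot (tb us t))
      (Nat.ble (Nat.succ t) (Bool.rec (motive := fun _ => ℕ) l2 l1 (piB a0 a1 l1 e)))))) c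

theorem pkB_spec {e t : ℕ} {c : CRole} (h : pkB e t c = true) :
    1 ≤ t ∧ e < 2 ∧ c.kd t = 0 ∧ t < if c.pi c.l1 = e then c.l1 else c.l2 := by
  have h1 : band (Nat.ble 1 t) (band (Nat.ble e 1) (band (bnot (tb c.us t))
      (Nat.ble (Nat.succ t) (Bool.rec (motive := fun _ => ℕ) c.l2 c.l1 (piB c.a0 c.a1 c.l1 e)))))
      = true := by
    obtain ⟨us, ct, a0, a1, l1, l2⟩ := c; exact h
  rw [band_eq, band_eq, band_eq, bnot_eq, tb_eq] at h1
  simp only [Bool.and_eq_true, Bool.not_eq_true'] at h1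
  obtain ⟨c1, c2, c3, c4⟩ := h1
  refine ⟨ble_eq'.1 c1, by have := ble_eq'.1 c2; omega, ?_, ?_⟩
  · unfold CRole.kd; rw [c3]; rfl
  · have c5 := bles_eq.1 c4
    by_cases hp : c.pi c.l1 = e
    · rw [if_pos hp]
      have h6 := (piB_eq c c.l1 e).2 hp
      rw [h6] at c5
      exact c5
    · rw [if_neg hp]
      have h6 : piB c.a0 c.a1 c.l1 e = false := by
        rw [← Bool.not_eq_true, piB_eq]; exact hp
      rw [h6] at c5
      exact c5

/-- test of a record of a state -/
noncomputable def sokR (RA RB RC : CRole) (par a2 a1 b2 b1 c2 c1 : ℕ) (ρ : NRec) : Bool :=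
  NRec.rec (motive := fun _ => Bool) (fun k r e t _ =>
    band (Nat.ble k 3) (band (Nat.ble r 2) (bor (Nat.ble 2 k) (band (pkB e t (selR r RA RB RC))
      (bor (Nat.ble 1 k) (Nat.ble (Bool.rec (motive := fun _ => ℕ) (sel3 r a1 b1 c1)
        (sel3 r a2 b2 c2) (Nat.beq e par)) t)))))) ρ

/-- test of a state -/
noncomputable def sokB (C : CT) (y : NSt) : Bool :=
  CT.rec (motive := fun _ => Bool) (fun RA RB RC _ =>
    NSt.rec (motive := fun _ => Bool) (fun par a2 a1 b2 b1 c2 c1 rs =>
      lall (sokR RA RB RC par a2 a1 b2 b1 c2 c1) rs) y) C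

theorem sokB_spec {C : CT} {y : NSt} (h : sokB C y = true) : SOK C y := by
  have h0 : lall (sokR C.rA C.rB C.rC y.par y.a2 y.a1 y.b2 y.b1 y.c2 y.c1) y.rs = true := by
    obtain ⟨RA, RB, RC, pr⟩ := C
    obtain ⟨par, a2, a1, b2, b1, c2, c1, rs⟩ := y
    exact h
  have key : ∀ ρ ∈ y.rs, ρ.k ≤ 3 ∧ ρ.r < 3 ∧ (ρ.k ≤ 1 → ParkOK C ρ.r ρ.e ρ.t) ∧
      (ρ.k = 0 → ∀ R : Fin 3, ρ.r = R.1 → y.ll R ρ.e ≤ ρ.t) := by
    intro ρ hρ
    have h1 := lall_spec h0 ρ hρ
    obtain ⟨k, r, e, t, v⟩ := ρ
    have h2 : band (Nat.ble k 3) (band (Nat.ble r 2) (bor (Nat.ble 2 k)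
      (band (pkB e t (selR r C.rA C.rB C.rC)) (bor (Nat.ble 1 k) (Nat.ble
        (Bool.rec (motive := fun _ => ℕ) (sel3 r y.a1 y.b1 y.c1)
        (sel3 r y.a2 y.b2 y.c2) (Nat.beq e y.par)) t))))) = true := h1
    rw [band_eq, band_eq, bor_eq, band_eq, bor_eq] at h2
    simp only [Bool.and_eq_true, Bool.or_eq_true] at h2
    obtain ⟨c1, c2, c3⟩ := h2
    have r3 : r < 3 := by have := ble_eq'.1 c2; omega
    refine ⟨ble_eq'.1 c1, r3, ?_, ?_⟩
    · intro hk
      simp only at hk ⊢
      rcases c3 with c3 | ⟨c3, -⟩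
      · have := ble_eq'.1 c3; omega
      · have hh : ∀ R : Fin 3, r = R.1 → 1 ≤ t ∧ e < 2 ∧ (C.rl R).kd t = 0 ∧
            t < if (C.rl R).pi (C.rl R).l1 = e then (C.rl R).l1 else (C.rl R).l2 := by
          intro R hR
          rw [selR_eq hR] at c3
          exact pkB_spec c3
        have h5 := hh ⟨r, r3⟩ rfl
        exact ⟨h5.1, h5.2.1, fun R hR => (hh R hR).2.2.1, fun R hR => (hh R hR).2.2.2⟩
    · intro hk R hR
      simp only at hk hR ⊢
      rcases c3 with c3 | ⟨-, c3 | c3⟩
      · have := ble_eq'.1 c3; omega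
      · have := ble_eq'.1 c3; omega
      · have c4 := ble_eq'.1 c3
        rw [sel3_p1 y hR, sel3_p2 y hR] at c4
        unfold NSt.ll
        by_cases hp : e = y.par
        · rw [if_pos hp]
          rw [beq_eq.2 hp] at c4
          exact c4
        · rw [if_neg hp]
          rw [beq_ff.2 hp] at c4
          exact c4
  exact ⟨fun ρ h => (key ρ h).1, fun ρ h => (key ρ h).2.1, fun ρ h => (key ρ h).2.2.1,
    fun ρ h => (key ρ h).2.2.2⟩

/-- acceptance test -/
noncomputable def nacB (C : CT) (y : NSt) : Bool :=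
  CT.rec (motive := fun _ => Bool) (fun RA RB RC _ =>
    NSt.rec (motive := fun _ => Bool) (fun _ a2 a1 b2 b1 c2 c1 rs =>
      band (Nat.beq a1 RA.l1) (band (Nat.beq a2 RA.l2) (band (Nat.beq b1 RB.l1)
        (band (Nat.beq b2 RB.l2) (band (Nat.beq c1 RC.l1) (band (Nat.beq c2 RC.l2)
        (lall (fun ρ => band (bnot (Nat.beq ρ.k 0)) (bnot (Nat.beq ρ.k 2))) rs))))))) y) C

theorem nacB_spec {C : CT} {y : NSt} (h : nacB C y = true) : NAcc C y := by
  have h0 : band (Nat.beq y.a1 C.rA.l1) (band (Nat.beq y.a2 C.rA.l2) (band (Nat.beq y.b1 C.rB.l1)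
        (band (Nat.beq y.b2 C.rB.l2) (band (Nat.beq y.c1 C.rC.l1) (band (Nat.beq y.c2 C.rC.l2)
        (lall (fun ρ => band (bnot (Nat.beq ρ.k 0)) (bnot (Nat.beq ρ.k 2))) y.rs)))))) = true := by
    obtain ⟨RA, RB, RC, pr⟩ := C
    obtain ⟨par, a2, a1, b2, b1, c2, c1, rs⟩ := y
    exact h
  rw [band_eq, band_eq, band_eq, band_eq, band_eq, band_eq] at h0
  simp only [Bool.and_eq_true, beq_eq] at h0
  obtain ⟨q1, q2, q3, q4, q5, q6, q7⟩ := h0
  refine ⟨?_, ?_, ?_⟩
  · intro R; fin_cases R
    · exact q1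
    · exact q3
    · exact q5
  · intro R; fin_cases R
    · exact q2
    · exact q4
    · exact q6
  · intro ρ hρ
    have := lall_spec q7 ρ hρ
    rw [band_eq, bnot_eq, bnot_eq, Bool.and_eq_true, Bool.not_eq_true', Bool.not_eq_true',
      beq_ff, beq_ff] at this
    exact this

/-- test of a coded step by the letter `x` -/
noncomputable def cstB (scr : BT CT) (x n n' : ℕ) : Bool :=
  band (Nat.beq (scN n) (scN n')) (nstB (scr.get (scN n)) x (decS n) (decS n'))

/-- test of a coded state -/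
noncomputable def csoB (scr : BT CT) (n : ℕ) : Bool := sokB (scr.get (scN n)) (decS n)

theorem StInv.next {scr : BT CT} {x n n' : ℕ} {u : List ℕ} (h : StInv scr n u)
    (ho : csoB scr n = true) (ho' : csoB scr n' = true) (hs : cstB scr x n n' = true) :
    StInv scr n' (u ++ [x]) := by
  obtain ⟨lab, P, h⟩ := h
  unfold cstB at hs
  rw [band_eq, Bool.and_eq_true, beq_eq] at hs
  unfold csoB at ho'
  rw [← hs.1] at ho'
  obtain ⟨P', h'⟩ := h.next (sokB_spec ho) (sokB_spec ho') (nstB_spec hs.2)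
  unfold StInv
  rw [← hs.1]
  exact ⟨_, P', h'⟩

/-! ## the table of states -/

/-- a state with its predecessors for the letters `1, 2, 3` (numbers plus one, in base `2 ^ 16`) -/
structure NLf where
  code : ℕ
  q1 : ℕ
  q2 : ℕ
  q3 : ℕ

/-- the code of the state with number `b - 1` -/
noncomputable def cd (T : BT NLf) (b : ℕ) : ℕ :=
  NLf.rec (motive := fun _ => ℕ) (fun c _ _ _ => c) (BT.get T (Nat.pred b))

/-- all members of `p` are predecessors of the state `n` -/
noncomputable def prdB (scr : BT CT) (T : BT NLf) (x n f : ℕ) : ℕ → Bool :=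
  Nat.rec (motive := fun _ => ℕ → Bool) (fun _ => false) (fun _ ih p =>
    Nat.rec (motive := fun _ => Bool) true (fun _ _ =>
      band (frc (cd T (Nat.mod p 65536)) (fun m => cstB scr x m n))
        (frc (Nat.div p 65536) ih)) p) f

theorem prdB_spec {scr : BT CT} {T : BT NLf} {x n f p : ℕ}
    (h : prdB scr T x n f p = true) : ∀ b ∈ ens p, cstB scr x (cd T b) n = true := by
  induction f generalizing p with
  | zero => exact absurd h (by intro h; exact absurd (show (false : Bool) = true from h) (by decide))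
  | succ f ih =>
    rcases p with _ | m
    · intro b hb
      rw [ens_zero] at hb
      exact absurd hb (by simp)
    · have h1 : band (frc (cd T (Nat.mod (m + 1) 65536)) (fun m => cstB scr x m n))
        (frc (Nat.div (m + 1) 65536) (prdB scr T x n f)) = true := h
      rw [band_eq, frc_eq, frc_eq, Bool.and_eq_true] at h1
      have hc0 : m + 1 ≠ 0 := by omega
      generalize m + 1 = c at h1 hc0 ⊢
      intro b hb
      rw [ens_pos hc0] at hb
      rcases List.mem_cons.1 hb with rfl | hb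
      · exact h1.1
      · exact ih h1.2 b hb

/-- test of a leaf of the table -/
noncomputable def lfB (scr : BT CT) (T : BT NLf) (a : NLf) : Bool :=
  NLf.rec (motive := fun _ => Bool) (fun n q1 q2 q3 => band (csoB scr n)
    (band (prdB scr T 1 n 1000 q1) (band (prdB scr T 2 n 1000 q2) (prdB scr T 3 n 1000 q3)))) a

theorem lfB_spec {scr : BT CT} {T : BT NLf} {a : NLf} (h : lfB scr T a = true) :
    csoB scr a.code = true ∧ (∀ b ∈ ens a.q1, cstB scr 1 (cd T b) a.code = true) ∧
    (∀ b ∈ ens a.q2, cstB scr 2 (cd T b) a.code = true) ∧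
    (∀ b ∈ ens a.q3, cstB scr 3 (cd T b) a.code = true) := by
  obtain ⟨n, q1, q2, q3⟩ := a
  have h1 : band (csoB scr n)
    (band (prdB scr T 1 n 1000 q1) (band (prdB scr T 2 n 1000 q2) (prdB scr T 3 n 1000 q3)))
    = true := h
  rw [band_eq, band_eq, band_eq] at h1
  simp only [Bool.and_eq_true] at h1
  exact ⟨h1.1, prdB_spec h1.2.1, prdB_spec h1.2.2.1, prdB_spec h1.2.2.2⟩

/-! ## nodes -/

/-- the set of the entries as a bit mask -/
noncomputable def mskB (f : ℕ) : ℕ → ℕ → ℕ :=
  Nat.rec (motive := fun _ => ℕ → ℕ → ℕ) (fun _ m => m) (fun _ ih c m =>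
    Nat.rec (motive := fun _ => ℕ) m (fun _ _ => frc (Nat.div c 65536) (fun c' =>
      frc (Nat.lor m (Nat.pow 2 (Nat.mod c 65536))) (ih c'))) c) f

theorem mskB_spec {f c m b : ℕ} (h : (mskB f c m).testBit b = true) :
    m.testBit b = true ∨ b ∈ ens c := by
  induction f generalizing c m with
  | zero => exact Or.inl h
  | succ f ih =>
    rcases c with _ | k
    · exact Or.inl h
    · have e : mskB (f + 1) (k + 1) m = mskB f (Nat.div (k + 1) 65536)
        (Nat.lor m (Nat.pow 2 (Nat.mod (k + 1) 65536))) := by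
        show frc (Nat.div (k + 1) 65536) (fun c' =>
          frc (Nat.lor m (Nat.pow 2 (Nat.mod (k + 1) 65536))) (mskB f c')) = _
        rw [frc_eq, frc_eq]
      rw [e] at h
      have hc0 : k + 1 ≠ 0 := by omega
      generalize k + 1 = c at h hc0 ⊢
      rcases ih h with h1 | h1
      · have h2 : (m ||| 2 ^ (c % 65536)).testBit b = true := h1
        rw [Nat.testBit_or, Nat.testBit_two_pow, Bool.or_eq_true, decide_eq_true_eq] at h2
        rcases h2 with h2 | h2
        · exact Or.inl h2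
        · right
          rw [ens_pos hc0, h2]
          exact List.mem_cons_self
      · right
        rw [ens_pos hc0]
        exact List.mem_cons_of_mem _ h1

/-- some member of `p` is in the mask `m` -/
noncomputable def hasB (m f : ℕ) : ℕ → Bool :=
  Nat.rec (motive := fun _ => ℕ → Bool) (fun _ => false) (fun _ ih p =>
    Nat.rec (motive := fun _ => Bool) false (fun _ _ =>
      bor (tb m (Nat.mod p 65536)) (frc (Nat.div p 65536) ih)) p) f

theorem hasB_spec {m f p : ℕ} (h : hasB m f p = true) : ∃ b ∈ ens p, m.testBit b = true := by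
  induction f generalizing p with
  | zero => exact absurd h (by intro h; exact absurd (show (false : Bool) = true from h) (by decide))
  | succ f ih =>
    rcases p with _ | k
    · exact absurd (show (false : Bool) = true from h) (by decide)
    · have h1 : bor (tb m (Nat.mod (k + 1) 65536)) (frc (Nat.div (k + 1) 65536) (hasB m f))
        = true := h
      rw [bor_eq, frc_eq, Bool.or_eq_true, tb_eq] at h1
      have hc0 : k + 1 ≠ 0 := by omega
      generalize k + 1 = c at h1 hc0 ⊢
      rw [ens_pos hc0]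
      rcases h1 with h1 | h1
      · exact ⟨c % 65536, List.mem_cons_self, h1⟩
      · obtain ⟨b, hb, h2⟩ := ih h1
        exact ⟨b, List.mem_cons_of_mem _ hb, h2⟩

/-- predecessors by the letter `x` -/
noncomputable def qx (x : ℕ) (a : NLf) : ℕ :=
  NLf.rec (motive := fun _ => ℕ) (fun _ q1 q2 q3 => Nat.rec (motive := fun _ => ℕ) 0
    (fun k _ => Nat.rec (motive := fun _ => ℕ) q1 (fun k _ => Nat.rec (motive := fun _ => ℕ) q2
      (fun _ _ => q3) k) k) x) a

/-- all members of `t` have a predecessor by `x` in the mask `m` -/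
noncomputable def allP (T : BT NLf) (x m f : ℕ) : ℕ → Bool :=
  Nat.rec (motive := fun _ => ℕ → Bool) (fun _ => false) (fun _ ih t =>
    Nat.rec (motive := fun _ => Bool) true (fun _ _ =>
      band (frc (Nat.pred (Nat.mod t 65536)) (fun i => frc (qx x (BT.get T i)) (hasB m 1000)))
        (frc (Nat.div t 65536) ih)) t) f

theorem allP_spec {T : BT NLf} {x m f t : ℕ} (h : allP T x m f t = true) :
    ∀ a ∈ ens t, ∃ b ∈ ens (qx x (T.get (a - 1))), m.testBit b = true := by
  induction f generalizing t with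
  | zero => exact absurd h (by intro h; exact absurd (show (false : Bool) = true from h) (by decide))
  | succ f ih =>
    rcases t with _ | k
    · intro b hb
      rw [ens_zero] at hb
      exact absurd hb (by simp)
    · have h1 : band (frc (Nat.pred (Nat.mod (k + 1) 65536)) (fun i =>
          frc (qx x (BT.get T i)) (hasB m 1000)))
        (frc (Nat.div (k + 1) 65536) (allP T x m f)) = true := h
      rw [band_eq, frc_eq, frc_eq, frc_eq, Bool.and_eq_true] at h1
      have hc0 : k + 1 ≠ 0 := by omega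
      generalize k + 1 = c at h1 hc0 ⊢
      intro a ha
      rw [ens_pos hc0] at ha
      rcases List.mem_cons.1 ha with rfl | ha
      · exact hasB_spec h1.1
      · exact ih h1.2 a ha

/-- all entries are in the mask `m` -/
noncomputable def allM (m f : ℕ) : ℕ → Bool :=
  Nat.rec (motive := fun _ => ℕ → Bool) (fun _ => false) (fun _ ih t =>
    Nat.rec (motive := fun _ => Bool) true (fun _ _ =>
      band (tb m (Nat.mod t 65536)) (frc (Nat.div t 65536) ih)) t) f

theorem allM_spec {m f t : ℕ} (h : allM m f t = true) : ∀ a ∈ ens t, m.testBit a = true := by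
  induction f generalizing t with
  | zero => exact absurd h (by intro h; exact absurd (show (false : Bool) = true from h) (by decide))
  | succ f ih =>
    rcases t with _ | k
    · intro b hb
      rw [ens_zero] at hb
      exact absurd hb (by simp)
    · have h1 : band (tb m (Nat.mod (k + 1) 65536)) (frc (Nat.div (k + 1) 65536) (allM m f))
        = true := h
      rw [band_eq, frc_eq, Bool.and_eq_true, tb_eq] at h1
      have hc0 : k + 1 ≠ 0 := by omega
      generalize k + 1 = c at h1 hc0 ⊢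
      intro a ha
      rw [ens_pos hc0] at ha
      rcases List.mem_cons.1 ha with rfl | ha
      · exact h1.1
      · exact ih h1.2 a ha

/-- check of a node (6 bits: state of the class automaton; three successors with 20 bits each; the
entries): `am` is the mask of the accepting states -/
noncomputable def nodN (dl ac sm : ℕ) (T : BT NLf) (am : ℕ) (nodes : BT ℕ) (c : ℕ) : Bool :=
  frc c (fun c => frc (Nat.mod c 64) (fun q => frc (mskB 1000 (Nat.shiftRight c 66) 0) (fun m =>
    band (bor (bnot (tb ac q)) (bnot (Nat.beq (Nat.land m am) 0)))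
    (band (frc (Nat.mod (Nat.shiftRight c 6) 1048576) (fun n1 =>
        tgtB sm nodes (nxN dl q 0) n1 (allP T 1 m 1000)))
    (band (frc (Nat.mod (Nat.shiftRight c 26) 1048576) (fun n2 =>
        tgtB sm nodes (nxN dl q 6) n2 (allP T 2 m 1000)))
      (frc (Nat.mod (Nat.shiftRight c 46) 1048576) (fun n3 =>
        tgtB sm nodes (nxN dl q 12) n3 (allP T 3 m 1000))))))))

/-- check of a node -/
noncomputable def nodB (fd : DS) (T : BT NLf) (am : ℕ) (nodes : BT ℕ) (c : ℕ) : Bool :=
  DS.rec (motive := fun _ => Bool) (fun df sm _ => DF.rec (motive := fun _ => Bool)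
    (fun dl ac => nodN dl ac sm T am nodes c) df) fd

/-- the invariant of a node -/
def MInv (fd : DS) (scr : BT CT) (T : BT NLf) (w : List ℕ) (c : ℕ) : Prop :=
  DS.Sub fd.df (fd.df.run w) (c % 64) ∧ ∀ g ∈ ens (c >>> 66), StInv scr (cd T g) ([4, 4] ++ w)

/-- a checked transition -/
def MOk (fd : DS) (T : BT NLf) (nodes : BT ℕ) (c x : ℕ) : Prop :=
  fd.le (fd.df.nx (c % 64) x) 63 = true ∨
    ∃ n, fd.le (fd.df.nx (c % 64) x) (nodes.get n % 64) = true ∧
      ∀ a ∈ ens (nodes.get n >>> 66), ∃ b ∈ ens (c >>> 66), b ∈ ens (qx x (T.get (a - 1)))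

theorem nodB_spec {fd : DS} {T : BT NLf} {am : ℕ} {nodes : BT ℕ} {c : ℕ}
    (h : nodB fd T am nodes c = true) :
    (fd.df.ac.testBit (c % 64) = true → ∃ g ∈ ens (c >>> 66), am.testBit g = true) ∧
    MOk fd T nodes c 1 ∧ MOk fd T nodes c 2 ∧ MOk fd T nodes c 3 := by
  obtain ⟨⟨dl, ac⟩, sm, n⟩ := fd
  have h1 : nodN dl ac sm T am nodes c = true := h
  unfold nodN at h1
  simp only [frc_eq] at h1
  rw [band_eq, band_eq, band_eq, bor_eq, bnot_eq, bnot_eq] at h1
  simp only [Bool.and_eq_true, Bool.or_eq_true, Bool.not_eq_true'] at h1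
  obtain ⟨h0, g1, g2, g3⟩ := h1
  have hm : ∀ b, (mskB 1000 (Nat.shiftRight c 66) 0).testBit b = true → b ∈ ens (c >>> 66) := by
    intro b hb
    rcases mskB_spec hb with h2 | h2
    · rw [Nat.zero_testBit] at h2; exact absurd h2 (by decide)
    · exact h2
  refine ⟨?_, ?_⟩
  · intro ha
    have ha' : ac.testBit (Nat.mod c 64) = true := ha
    rw [tb_eq, ha'] at h0
    rcases h0 with h0 | h0
    · exact absurd h0 (by decide)
    · rw [beq_ff] at h0
      obtain ⟨b, hb⟩ := Nat.exists_testBit_of_ne_zero h0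
      have hb' : ((mskB 1000 (Nat.shiftRight c 66) 0) &&& am).testBit b = true := hb
      rw [Nat.testBit_and, Bool.and_eq_true] at hb'
      exact ⟨b, hm b hb'.1, hb'.2⟩
  · have k1 : (DS.mk (DF.mk dl ac) sm n).df.nx (c % 64) 1 = nxN dl (Nat.mod c 64) 0 := rfl
    have k2 : (DS.mk (DF.mk dl ac) sm n).df.nx (c % 64) 2 = nxN dl (Nat.mod c 64) 6 := rfl
    have k3 : (DS.mk (DF.mk dl ac) sm n).df.nx (c % 64) 3 = nxN dl (Nat.mod c 64) 12 := rfl
    have hk : ∀ q q', (DS.mk (DF.mk dl ac) sm n).le q q' = leN sm q q' := fun q q' => rfl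
    have key : ∀ {x t : ℕ}, allP T x (mskB 1000 (Nat.shiftRight c 66) 0) 1000 t = true →
        ∀ a ∈ ens t, ∃ b ∈ ens (c >>> 66), b ∈ ens (qx x (T.get (a - 1))) := by
      intro x t ht a ha
      obtain ⟨b, hb, h2⟩ := allP_spec ht a ha
      exact ⟨b, hm b h2, hb⟩
    unfold MOk
    rw [k1, k2, k3]
    simp only [hk]
    refine ⟨?_, ?_, ?_⟩
    · rcases tgtB_spec g1 with ⟨a1, -⟩ | ⟨a1, h2⟩
      · exact Or.inl a1
      · exact Or.inr ⟨_, a1, key h2⟩
    · rcases tgtB_spec g2 with ⟨a1, -⟩ | ⟨a1, h2⟩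
      · exact Or.inl a1
      · exact Or.inr ⟨_, a1, key h2⟩
    · rcases tgtB_spec g3 with ⟨a1, -⟩ | ⟨a1, h2⟩
      · exact Or.inl a1
      · exact Or.inr ⟨_, a1, key h2⟩

theorem cd_eq (T : BT NLf) (b : ℕ) : cd T b = (T.get (b - 1)).code := by
  unfold cd
  show NLf.rec (motive := fun _ => ℕ) (fun c _ _ _ => c) (BT.get T (b - 1)) = _
  obtain ⟨n, q1, q2, q3⟩ := T.get (b - 1)
  rfl

theorem MInv.step {fd : DS} {scr : BT CT} {T : BT NLf} {nodes : BT ℕ} (hfd : fd.chk = true)
    (hT : T.all (lfB scr T) = true) {w : List ℕ} {c x : ℕ}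
    (h : MInv fd scr T w c) (hx : 1 ≤ x ∧ x ≤ 3) (hs : MOk fd T nodes c x) :
    DS.Sub fd.df (fd.df.run (w ++ [x])) 63 ∨ ∃ n, MInv fd scr T (w ++ [x]) (nodes.get n) := by
  rcases hs with h2 | ⟨n, h1, h2⟩
  · left
    rw [run_snoc]
    exact (h.1.step hx).trans (DS.sub_of_le hfd (by norm_num) h2)
  · right
    refine ⟨n, ?_, ?_⟩
    · rw [run_snoc]
      exact (h.1.step hx).trans (DS.sub_of_le hfd (Nat.mod_lt _ (by norm_num)) h1)
    · intro a ha
      obtain ⟨b, hb, hbq⟩ := h2 a ha
      have hb' := h.2 b hb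
      have la := lfB_spec (BT.all_get hT (a - 1))
      have lb := (lfB_spec (BT.all_get hT (b - 1))).1
      rw [← cd_eq] at lb
      have hst : cstB scr x (cd T b) (cd T a) = true := by
        rw [cd_eq T a]
        have h3 : x = 1 ∨ x = 2 ∨ x = 3 := by omega
        have hq : ∀ l : NLf, qx 1 l = l.q1 ∧ qx 2 l = l.q2 ∧ qx 3 l = l.q3 := by
          intro l; obtain ⟨n, q1, q2, q3⟩ := l; exact ⟨rfl, rfl, rfl⟩
        rcases h3 with rfl | rfl | rfl
        · rw [(hq _).1] at hbq; exact la.2.1 b hbq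
        · rw [(hq _).2.1] at hbq; exact la.2.2.1 b hbq
        · rw [(hq _).2.2] at hbq; exact la.2.2.2 b hbq
      have la1 := la.1
      rw [← cd_eq] at la1
      have := hb'.next lb la1 hst
      rw [List.append_assoc] at this
      exact this

/-- a start: states after the letters `4` and `4, 4` -/
noncomputable def staB (scr : BT CT) (T : BT NLf) (y1 a : ℕ) : Bool :=
  band (Nat.beq (Nat.mod (Nat.shiftRight y1 37) 2048) (scN y1)) (band (nstB (scr.get (scN y1)) 4
    NSt.ini (decS y1)) (band (csoB scr y1) (band (csoB scr (cd T a)) (cstB scr 4 y1 (cd T a)))))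

theorem staB_spec {scr : BT CT} {T : BT NLf} {y1 a : ℕ} (h : staB scr T y1 a = true) :
    StInv scr (cd T a) [4, 4] := by
  unfold staB at h
  rw [band_eq, band_eq, band_eq, band_eq] at h
  simp only [Bool.and_eq_true] at h
  obtain ⟨-, h1, h2, h3, h4⟩ := h
  have i0 : SOK (scr.get (scN y1)) NSt.ini := by
    refine ⟨?_, ?_, ?_, ?_⟩ <;> intro ρ hρ <;> exact absurd hρ (by simp [NSt.ini])
  obtain ⟨P', h'⟩ := (NSem.nil (C := scr.get (scN y1)) (lab := fun _ _ => 0)).next i0
    (sokB_spec h2) (nstB_spec h1)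
  have h5 : StInv scr y1 [4] := ⟨_, P', h'⟩
  exact h5.next h2 h3 h4

/-- an end: states after `4` and `4, 4` -/
noncomputable def endB (scr : BT CT) (T : BT NLf) (a y1 y2 : ℕ) : Bool :=
  band (csoB scr (cd T a)) (band (csoB scr y1) (band (csoB scr y2) (band (cstB scr 4 (cd T a) y1)
    (band (cstB scr 4 y1 y2) (nacB (scr.get (scN y2)) (decS y2))))))

theorem endB_spec {scr : BT CT} {T : BT NLf} {a y1 y2 M : ℕ}
    (hC : ∀ n, WValid M ((scr.get n).withP [])) (h : endB scr T a y1 y2 = true) {u : List ℕ}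
    (hi : StInv scr (cd T a) u) : Valid 3 (u ++ [4] ++ [4]) → ∃ lab : Fin 3 → ℕ → ℕ,
    (∀ R i, i < (u ++ [4] ++ [4]).length → 1 ≤ lab R i ∧ lab R i ≤ M) ∧
    (∀ R i j, i ≤ j → j < (u ++ [4] ++ [4]).length → lab R i ≤ lab R j) ∧
    Compat 3 (u ++ [4] ++ [4]) lab (u ++ [4] ++ [4]) lab := by
  unfold endB at h
  rw [band_eq, band_eq, band_eq, band_eq, band_eq] at h
  simp only [Bool.and_eq_true] at h
  obtain ⟨h1, h2, h3, h4, h5, h6⟩ := h
  obtain ⟨lab, P, h7⟩ := (hi.next h1 h2 h4).next h2 h3 h5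
  intro hv
  obtain ⟨f1, f2⟩ := h7.fin (hC _) (nacB_spec h6) (by simp)
  exact ⟨lab, self_of_wlab f1 hv f2⟩

/-- starts -/
structure NSta where
  y1 : ℕ
  a : ℕ

/-- ends -/
structure NEnd where
  a : ℕ
  y1 : ℕ
  y2 : ℕ

/-- the mask of a list of numbers -/
noncomputable def lmk (l : List ℕ) : ℕ :=
  List.rec (motive := fun _ => ℕ) 0 (fun a _ ih => frc ih (fun m => Nat.lor m (Nat.pow 2 a))) l

theorem lmk_spec {l : List ℕ} {b : ℕ} (h : (lmk l).testBit b = true) : b ∈ l := by
  induction l with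
  | nil =>
    have : (0 : ℕ).testBit b = true := h
    rw [Nat.zero_testBit] at this
    exact absurd this (by decide)
  | cons a l ih =>
    have e : lmk (a :: l) = (lmk l ||| 2 ^ a) := rfl
    rw [e, Nat.testBit_or, Nat.testBit_two_pow, Bool.or_eq_true, decide_eq_true_eq] at h
    rcases h with h | h
    · exact List.mem_cons_of_mem _ (ih h)
    · rw [h]; exact List.mem_cons_self

/-- **the covering certificate is sound** -/
theorem ncover {M : ℕ} {fd : DS} {scr : BT CT} {T : BT NLf} {nodes : BT ℕ} {am sm : ℕ}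
    {sta : List NSta} {en : List NEnd}
    (hfd : fdB fd = true) (hscr : ∀ n, WValid M ((scr.get n).withP []))
    (hT : T.all (lfB scr T) = true)
    (hsta : lall (fun s => staB scr T s.y1 s.a) sta = true) (hsm : lmk (sta.map NSta.a) = sm)
    (hen : lall (fun s => endB scr T s.a s.y1 s.y2) en = true) (ham : lmk (en.map NEnd.a) = am)
    (h : nodes.all (nodB fd T am nodes) = true)
    (h0 : DS.le fd 0 (nodes.get 0 % 64) = true) (h1 : allM sm 1000 (nodes.get 0 >>> 66) = true) :
    fd.df.ok M := by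
  have hfc : fd.chk = true := chk_of_fdB hfd
  have key : ∀ w : List ℕ, (∀ x ∈ w, 1 ≤ x ∧ x ≤ 3) →
      (DS.Sub fd.df (fd.df.run w) 63) ∨ ∃ n, MInv fd scr T w (nodes.get n) := by
    intro w
    induction w using List.reverseRecOn with
    | nil =>
      intro _
      right
      refine ⟨0, ?_, ?_⟩
      · exact DS.sub_of_le hfc (Nat.mod_lt _ (by norm_num)) h0
      · intro g hg
        have hb := allM_spec h1 g hg
        rw [← hsm] at hb
        have hm := lmk_spec hb
        rw [List.mem_map] at hm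
        obtain ⟨s, hs, rfl⟩ := hm
        have := staB_spec (lall_spec hsta s hs)
        exact this
    | append_singleton w x ih =>
      intro hx
      have hx1 := hx x (by simp)
      rcases ih (fun y hy => hx y (by simp [hy])) with hd | ⟨n, hinv⟩
      · left
        intro v hv ha
        have hw : ∀ y ∈ x :: v, 1 ≤ y ∧ y ≤ 3 := by
          intro y hy
          rcases List.mem_cons.1 hy with rfl | hy
          · exact hx1
          · exact hv y hy
        have h1 := dead_of hfd hd (x :: v) hw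
        have e : fd.df.run (w ++ x :: v) = v.foldl fd.df.nx (fd.df.run (w ++ [x])) := by
          unfold DF.run
          rw [← List.foldl_append]
          congr 1
          simp
        rw [e, ha] at h1
        exact absurd h1 (by decide)
      · obtain ⟨-, c1, c2, c3⟩ := nodB_spec (BT.all_get h n)
        have : x = 1 ∨ x = 2 ∨ x = 3 := by omega
        rcases this with rfl | rfl | rfl
        · exact hinv.step hfc hT hx1 c1
        · exact hinv.step hfc hT hx1 c2
        · exact hinv.step hfc hT hx1 c3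
  intro w hw hacc
  rcases key w hw with hd | ⟨n, hinv⟩
  · have := dead_of hfd hd [] (by simp)
    rw [List.append_nil, hacc] at this
    exact absurd this (by decide)
  · obtain ⟨h1, -⟩ := nodB_spec (BT.all_get h n)
    have hac : fd.df.ac.testBit (nodes.get n % 64) = true := hinv.1 [] (by simp) hacc
    obtain ⟨g, hg, h2⟩ := h1 hac
    rw [← ham] at h2
    have hm := lmk_spec h2
    rw [List.mem_map] at hm
    obtain ⟨s, hs, rfl⟩ := hm
    have h3 := endB_spec hscr (lall_spec hen s hs) (hinv.2 _ hg)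
    have e : [4, 4] ++ w ++ [4] ++ [4] = cw w := by
      unfold cw
      simp
    rw [e] at h3
    exact h3

end MPb6P
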