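import Pool.Agent.Lib.MP_b6d339_lc.Pos.WTplC

/-!
# Erdős 592, positive side: automata for the schedules with a given skeleton

A state remembers the last two labels in each role and some records about hosts.
-/

namespace MPb6P

/-- a record about a host: role `r`, parity `e`, label `t`, class `v`. Kind `0`: parked host,
promised; kind `1`: parked host, seen; kind `2`: event, promised; kind `3`: event, seen. -/
structure NRec where
  k : ℕ
  r : ℕ
  e : ℕ
  t : ℕ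
  v : ℕ

/-- states: parity of the next index, the last two labels of the roles, records -/
structure NSt where
  par : ℕ
  a2 : ℕ
  a1 : ℕ
  b2 : ℕ
  b1 : ℕ
  c2 : ℕ
  c1 : ℕ
  rs : List NRec

namespace NSt

/-- last label -/
def p1 (y : NSt) (R : Fin 3) : ℕ := if R = 0 then y.a1 else if R = 1 then y.b1 else y.c1

/-- last but one label -/
def p2 (y : NSt) (R : Fin 3) : ℕ := if R = 0 then y.a2 else if R = 1 then y.b2 else y.c2

/-- last label of the parity `e` -/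
def ll (y : NSt) (R : Fin 3) (e : ℕ) : ℕ := if e = y.par then y.p2 R else y.p1 R

end NSt

/-- a step of labels in one role -/
structure LStep (C : CT) (R : Fin 3) (e p l : ℕ) : Prop where
  le : p ≤ l
  us : (C.rl R).us.testBit l = true
  ct : p ≠ l ∨ (C.rl R).ct.testBit l = false
  al : allSet ((C.rl R).al e) p l = true
  cl : allClr (C.rl R).ct p l = true

/-- a parked host in role `r` of parity `e` at the label `t` is meaningful -/
structure ParkOK (C : CT) (r e t : ℕ) : Prop where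
  t1 : 1 ≤ t
  e2 : e < 2
  kd : ∀ R : Fin 3, r = R.1 → (C.rl R).kd t = 0
  lt : ∀ R : Fin 3, r = R.1 → t < if (C.rl R).pi (C.rl R).l1 = e then (C.rl R).l1 else (C.rl R).l2

/-- validity of a state -/
structure SOK (C : CT) (y : NSt) : Prop where
  k3 : ∀ ρ ∈ y.rs, ρ.k ≤ 3
  r3 : ∀ ρ ∈ y.rs, ρ.r < 3
  pk : ∀ ρ ∈ y.rs, ρ.k ≤ 1 → ParkOK C ρ.r ρ.e ρ.t
  np : ∀ ρ ∈ y.rs, ρ.k = 0 → ∀ R : Fin 3, ρ.r = R.1 → y.ll R ρ.e ≤ ρ.t

/-- the two records concern the same host -/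
def NRec.same (ρ ρ' : NRec) : Prop := ρ'.k = ρ.k ∧ ρ'.r = ρ.r ∧ ρ'.e = ρ.e ∧ ρ'.t = ρ.t

/-- the meaning of a state: `lab` are the labels, `P` the promises used -/
structure NSem (C : CT) (y : NSt) (w : List ℕ) (lab : Fin 3 → ℕ → ℕ) (P : List WProm) : Prop where
  par : w.length % 2 = y.par
  p1 : ∀ R, prevL (lab R) w.length = y.p1 R
  p2 : ∀ R, stR (lab R) w.length = y.p2 R
  step : ∀ R, ∀ i < w.length, LStep C R (i % 2) (prevL (lab R) i) (lab R i)
  guest : ∀ R, ∀ i < w.length, w.getD i 0 ≤ 3 → ∃ h ∈ P,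
    HostP (oth R (i % 2)).1.1 (oth R (i % 2)).2 (stR (lab R) i) (lab R i) (w.getD i 0) h
  kinds : ∀ h ∈ P, h.r < 3 ∧ (h.fl = 0 → h.sm + 2 = h.lm ∧ ParkOK C h.r h.e (h.sm + 1))
  park : ∀ h ∈ P, h.fl = 0 → ∀ R : Fin 3, h.r = R.1 → ∀ i < w.length, h.e = i % 2 →
    stR (lab R) i ≤ h.sm → h.lm ≤ lab R i → h.c ≤ w.getD i 0
  pend : ∀ h ∈ P, h.fl = 0 → ∀ R : Fin 3, h.r = R.1 → h.sm + 1 < y.ll R h.e ∨
    ∃ ρ ∈ y.rs, ρ.k = 0 ∧ ρ.r = h.r ∧ ρ.e = h.e ∧ ρ.t = h.sm + 1 ∧ h.c ≤ ρ.v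
  event : ∀ h ∈ P, h.fl ≠ 0 → ∀ R : Fin 3, h.r = R.1 → (∃ i < w.length, i % 2 = h.e ∧
    stR (lab R) i ≤ h.sm ∧ h.lm ≤ lab R i ∧ h.c ≤ w.getD i 0) ∨
    ∃ ρ ∈ y.rs, ρ.k = 2 ∧ ρ.r = h.r ∧ ρ.e = h.e ∧ ρ.t = h.sm ∧ ρ.t = h.lm ∧ h.c ≤ ρ.v
  rec1 : ∀ ρ ∈ y.rs, ρ.k = 1 → ∀ R : Fin 3, ρ.r = R.1 → ρ.t < y.ll R ρ.e ∧
    ∀ i < w.length, i % 2 = ρ.e → stR (lab R) i < ρ.t → ρ.t < lab R i → ρ.v ≤ w.getD i 0
  rec3 : ∀ ρ ∈ y.rs, ρ.k = 3 → ∀ R : Fin 3, ρ.r = R.1 → ∃ i < w.length, i % 2 = ρ.e ∧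
    stR (lab R) i ≤ ρ.t ∧ ρ.t ≤ lab R i ∧ ρ.v ≤ w.getD i 0

/-- the record `ρ` gives a host for the letter `x` in role `R` with start label `s` and label
`l`, of index parity `e` -/
structure GH (R : Fin 3) (e s l x : ℕ) (ρ : NRec) : Prop where
  r : ρ.r = (oth R e).1.1
  e : ρ.e = (oth R e).2
  v : x ≤ ρ.v
  lo : ρ.k ≤ 1 → s ≤ ρ.t ∧ ρ.t ≤ l
  hi : 2 ≤ ρ.k → s < ρ.t ∧ ρ.t < l

/-- steps -/
structure NStep (C : CT) (y : NSt) (x : ℕ) (y' : NSt) : Prop where
  par : y.par < 2 ∧ y'.par = 1 - y.par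
  p2 : ∀ R, y'.p2 R = y.p1 R
  lab : ∀ R, LStep C R y.par (y.p1 R) (y'.p1 R)
  guest : x ≤ 3 → ∀ R : Fin 3, ∃ ρ ∈ y.rs ++ y'.rs, GH R y.par (y.p2 R) (y'.p1 R) x ρ
  d0 : ∀ ρ ∈ y.rs, ρ.k = 0 → (∀ R : Fin 3, ρ.r = R.1 → ρ.e = y.par ∧ ρ.t < y'.p1 R ∧ ρ.v ≤ x) ∨
    ∃ ρ' ∈ y'.rs, ρ.same ρ' ∧ ρ.v ≤ ρ'.v
  d2 : ∀ ρ ∈ y.rs, ρ.k = 2 → (∀ R : Fin 3, ρ.r = R.1 → ρ.e = y.par ∧ y.p2 R ≤ ρ.t ∧
    ρ.t ≤ y'.p1 R ∧ ρ.v ≤ x) ∨ ∃ ρ' ∈ y'.rs, ρ.same ρ' ∧ ρ.v ≤ ρ'.v
  n1 : ∀ ρ' ∈ y'.rs, ρ'.k = 1 → (∃ ρ ∈ y.rs, ρ'.same ρ ∧ ρ'.v ≤ ρ.v) ∨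
    (∀ R : Fin 3, ρ'.r = R.1 → ρ'.e = y.par ∧ y.p2 R ≤ ρ'.t ∧ ρ'.t < y'.p1 R ∧ ρ'.v ≤ x)
  n3 : ∀ ρ' ∈ y'.rs, ρ'.k = 3 → (∃ ρ ∈ y.rs, ρ'.same ρ ∧ ρ'.v ≤ ρ.v) ∨
    (∀ R : Fin 3, ρ'.r = R.1 → ρ'.e = y.par ∧ y.p2 R ≤ ρ'.t ∧ ρ'.t ≤ y'.p1 R ∧ ρ'.v ≤ x)

/-- the promise given by a record -/
def NRec.prm (ρ : NRec) (x : ℕ) : WProm :=
  if ρ.k ≤ 1 then ⟨ρ.r, ρ.e, ρ.t - 1, ρ.t + 1, x, 0⟩ else ⟨ρ.r, ρ.e, ρ.t, ρ.t, x, 1⟩

/-- continued labels -/
def labC (lab : Fin 3 → ℕ → ℕ) (n : ℕ) (y' : NSt) (R : Fin 3) (i : ℕ) : ℕ :=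
  if i < n then lab R i else y'.p1 R

section

variable {C : CT} {y y' : NSt} {w : List ℕ} {lab : Fin 3 → ℕ → ℕ} {P : List WProm} {x : ℕ}

theorem labC_lt {n : ℕ} {R : Fin 3} {i : ℕ} (h : i < n) : labC lab n y' R i = lab R i := by
  unfold labC; rw [if_pos h]

theorem labC_n {n : ℕ} {R : Fin 3} : labC lab n y' R n = y'.p1 R := by
  unfold labC; rw [if_neg (lt_irrefl _)]

theorem prevL_labC {n : ℕ} {R : Fin 3} {i : ℕ} (h : i ≤ n) :
    prevL (labC lab n y' R) i = prevL (lab R) i := by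
  unfold prevL
  split_ifs with h0
  · rfl
  · exact labC_lt (by omega)

theorem stR_labC {n : ℕ} {R : Fin 3} {i : ℕ} (h : i ≤ n) :
    stR (labC lab n y' R) i = stR (lab R) i := by
  unfold stR
  split_ifs with h0
  · rfl
  · exact labC_lt (by omega)

/-- labels are monotone -/
theorem NSem.mono (h : NSem C y w lab P) (R : Fin 3) {i j : ℕ} (hij : i ≤ j) (hj : j < w.length) :
    lab R i ≤ lab R j := by
  induction j, hij using Nat.le_induction with
  | base => exact le_refl _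
  | succ j hij ih =>
    refine le_trans (ih (by omega)) ?_
    have := (h.step R (j + 1) hj).le
    unfold prevL at this
    rw [if_neg (by omega)] at this
    simpa using this

theorem NSem.p21 (h : NSem C y w lab P) (R : Fin 3) : y.p2 R ≤ y.p1 R := by
  rw [← h.p1 R, ← h.p2 R]
  unfold prevL stR
  by_cases h1 : w.length = 0
  · rw [if_pos (by omega), if_pos h1]
  · rw [if_neg h1]
    split_ifs with h2
    · exact Nat.zero_le _
    · exact h.mono R (by omega) (by omega)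

/-- labels of a parity are at most the last one -/
theorem NSem.le_ll (h : NSem C y w lab P) (R : Fin 3) {i : ℕ} (hi : i < w.length) :
    lab R i ≤ y.ll R (i % 2) := by
  have hp := h.par
  unfold NSt.ll
  split_ifs with h1
  · rw [← h.p2 R]
    unfold stR
    rw [if_neg (by omega)]
    exact h.mono R (by omega) (by omega)
  · rw [← h.p1 R]
    unfold prevL
    rw [if_neg (by omega)]
    exact h.mono R (by omega) (by omega)

/-- the last labels grow -/
theorem ll_mono (h : NSem C y w lab P) (hs : NStep C y x y') (R : Fin 3) {e : ℕ} (he : e < 2) :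
    y.ll R e ≤ y'.ll R e := by
  have h1 := hs.par
  have h2 := hs.p2 R
  have h3 := (hs.lab R).le
  have h4 := h.p21 R
  unfold NSt.ll
  by_cases h5 : e = y.par
  · rw [if_pos h5, if_neg (by omega)]; omega
  · rw [if_neg h5, if_pos (by omega)]; omega

theorem exR {r : ℕ} (h : r < 3) : ∃ R : Fin 3, r = R.1 := ⟨⟨r, h⟩, rfl⟩

theorem getD_snoc_lt {w : List ℕ} {x i : ℕ} (h : i < w.length) :
    (w ++ [x]).getD i 0 = w.getD i 0 := List.getD_append _ _ _ _ h

theorem getD_snoc_n {w : List ℕ} {x : ℕ} : (w ++ [x]).getD w.length 0 = x := by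
  rw [List.getD_append_right _ _ _ _ (le_refl _)]
  simp

/-- records of the new state of kind `1` -/
theorem rec1_step (h : NSem C y w lab P) (ho' : SOK C y') (hs : NStep C y x y') :
    ∀ ρ ∈ y'.rs, ρ.k = 1 → ∀ R : Fin 3, ρ.r = R.1 → ρ.t < y'.ll R ρ.e ∧
    ∀ i < w.length + 1, i % 2 = ρ.e → stR (labC lab w.length y' R) i < ρ.t →
      ρ.t < labC lab w.length y' R i → ρ.v ≤ (w ++ [x]).getD i 0 := by
  intro ρ hρ hk R hR
  have he2 : ρ.e < 2 := (ho'.pk ρ hρ (by omega)).e2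
  have hpar := hs.par
  have hw := h.par
  rcases hs.n1 ρ hρ hk with ⟨ρ0, h0, ⟨e1, e2, e3, e4⟩, hv⟩ | hnew
  · obtain ⟨c1, c2⟩ := h.rec1 ρ0 h0 (by omega) R (by omega)
    have hm := ll_mono h hs R he2
    rw [e3, e4] at c1
    refine ⟨by omega, ?_⟩
    intro i hi hie hs1 hs2
    rcases Nat.lt_succ_iff_lt_or_eq.1 hi with hlt | rfl
    · rw [stR_labC hlt.le] at hs1
      rw [labC_lt hlt] at hs2
      rw [getD_snoc_lt hlt]
      exact le_trans hv (c2 i hlt (by omega) (by omega) (by omega))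
    · exfalso
      rw [stR_labC (le_refl _), h.p2 R] at hs1
      have h5 : y.ll R ρ.e = y.p2 R := by unfold NSt.ll; rw [if_pos (by omega)]
      omega
  · obtain ⟨c1, c2, c3, c4⟩ := hnew R hR
    have h5 : y'.ll R ρ.e = y'.p1 R := by unfold NSt.ll; rw [if_neg (by omega)]
    refine ⟨by omega, ?_⟩
    intro i hi hie hs1 hs2
    rcases Nat.lt_succ_iff_lt_or_eq.1 hi with hlt | rfl
    · exfalso
      rw [labC_lt hlt] at hs2
      have h6 := h.le_ll R hlt
      have h7 : y.ll R (i % 2) = y.p2 R := by unfold NSt.ll; rw [if_pos (by omega)]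
      omega
    · rw [getD_snoc_n]; exact c4

/-- records of the new state of kind `3` -/
theorem rec3_step (h : NSem C y w lab P) (hs : NStep C y x y') :
    ∀ ρ ∈ y'.rs, ρ.k = 3 → ∀ R : Fin 3, ρ.r = R.1 → ∃ i < w.length + 1, i % 2 = ρ.e ∧
    stR (labC lab w.length y' R) i ≤ ρ.t ∧ ρ.t ≤ labC lab w.length y' R i ∧
      ρ.v ≤ (w ++ [x]).getD i 0 := by
  intro ρ hρ hk R hR
  have hw := h.par
  rcases hs.n3 ρ hρ hk with ⟨ρ0, h0, ⟨e1, e2, e3, e4⟩, hv⟩ | hnew
  · obtain ⟨i, hi, c1, c2, c3, c4⟩ := h.rec3 ρ0 h0 (by omega) R (by omega)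
    refine ⟨i, by omega, by omega, ?_, ?_, ?_⟩
    · rw [stR_labC hi.le]; omega
    · rw [labC_lt hi]; omega
    · rw [getD_snoc_lt hi]; omega
  · obtain ⟨c1, c2, c3, c4⟩ := hnew R hR
    refine ⟨w.length, by omega, by omega, ?_, ?_, ?_⟩
    · rw [stR_labC (le_refl _), h.p2 R]; exact c2
    · rw [labC_n]; exact c3
    · rw [getD_snoc_n]; exact c4

/-- what a new promise has to satisfy -/
def PrmOK (C : CT) (y' : NSt) (w : List ℕ) (lab : Fin 3 → ℕ → ℕ) (x : ℕ) (q : WProm) : Prop :=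
    (q.r < 3 ∧ (q.fl = 0 → q.sm + 2 = q.lm ∧ ParkOK C q.r q.e (q.sm + 1))) ∧
    (q.fl = 0 → ∀ R : Fin 3, q.r = R.1 → ∀ i < w.length + 1,
      q.e = i % 2 → stR (labC lab w.length y' R) i ≤ q.sm →
      q.lm ≤ labC lab w.length y' R i → q.c ≤ (w ++ [x]).getD i 0) ∧
    (q.fl = 0 → ∀ R : Fin 3, q.r = R.1 → q.sm + 1 < y'.ll R q.e ∨
      ∃ ρ' ∈ y'.rs, ρ'.k = 0 ∧ ρ'.r = q.r ∧ ρ'.e = q.e ∧
        ρ'.t = q.sm + 1 ∧ q.c ≤ ρ'.v) ∧
    (q.fl ≠ 0 → ∀ R : Fin 3, q.r = R.1 → (∃ i < w.length + 1,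
      i % 2 = q.e ∧ stR (labC lab w.length y' R) i ≤ q.sm ∧
      q.lm ≤ labC lab w.length y' R i ∧ q.c ≤ (w ++ [x]).getD i 0) ∨
      ∃ ρ' ∈ y'.rs, ρ'.k = 2 ∧ ρ'.r = q.r ∧ ρ'.e = q.e ∧
        ρ'.t = q.sm ∧ ρ'.t = q.lm ∧ q.c ≤ ρ'.v)

/-- a used record gives a correct promise -/
theorem prm_ok (h : NSem C y w lab P) (ho : SOK C y) (ho' : SOK C y') (hs : NStep C y x y')
    {ρ : NRec} (hρ : ρ ∈ y.rs ++ y'.rs) (hk3 : ρ.k ≤ 3) (hv : x ≤ ρ.v) :
    PrmOK C y' w lab x (ρ.prm x) := by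
  unfold PrmOK
  have hpar := hs.par
  have hw := h.par
  have hr3 : ρ.r < 3 := by
    rcases List.mem_append.1 hρ with h1 | h1
    · exact ho.r3 ρ h1
    · exact ho'.r3 ρ h1
  by_cases hk : ρ.k ≤ 1
  · have hprm : ρ.prm x = ⟨ρ.r, ρ.e, ρ.t - 1, ρ.t + 1, x, 0⟩ := by
      unfold NRec.prm; rw [if_pos hk]
    have hpk : ParkOK C ρ.r ρ.e ρ.t := by
      rcases List.mem_append.1 hρ with h1 | h1
      · exact ho.pk ρ h1 hk
      · exact ho'.pk ρ h1 hk
    have ht1 := hpk.t1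
    have he2 := hpk.e2
    have hsm : ρ.t - 1 + 1 = ρ.t := by omega
    rw [hprm]
    refine ⟨⟨hr3, fun _ => ⟨by simp only; omega, by simp only; rw [hsm]; exact hpk⟩⟩, ?_, ?_,
      fun hf => absurd rfl hf⟩
    · intro _ R hR i hi hie hs1 hs2
      simp only at hR hie hs1 hs2 ⊢
      rcases Nat.lt_succ_iff_lt_or_eq.1 hi with hlt | rfl
      · rw [stR_labC hlt.le] at hs1
        rw [labC_lt hlt] at hs2
        rw [getD_snoc_lt hlt]
        have hll := h.le_ll R hlt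
        rw [← hie] at hll
        have hmm := ll_mono h hs R he2
        rcases List.mem_append.1 hρ with h1 | h1
        · rcases Nat.lt_or_ge ρ.k 1 with hk0 | hk1
          · exfalso
            have := ho.np ρ h1 (by omega) R hR
            omega
          · have h2 := (h.rec1 ρ h1 (by omega) R hR).2 i hlt hie.symm (by omega) (by omega)
            omega
        · rcases Nat.lt_or_ge ρ.k 1 with hk0 | hk1
          · exfalso
            have := ho'.np ρ h1 (by omega) R hR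
            omega
          · have h2 := (rec1_step h ho' hs ρ h1 (by omega) R hR).2 i (by omega) hie.symm
              (by rw [stR_labC hlt.le]; omega) (by rw [labC_lt hlt]; omega)
            rw [getD_snoc_lt hlt] at h2
            omega
      · rw [getD_snoc_n]
    · intro _ R hR
      simp only at hR ⊢
      rw [hsm]
      have hmm := ll_mono h hs R he2
      rcases List.mem_append.1 hρ with h1 | h1
      · rcases Nat.lt_or_ge ρ.k 1 with hk0 | hk1
        · rcases hs.d0 ρ h1 (by omega) with h2 | ⟨ρ', h2, ⟨e1, e2, e3, e4⟩, h3⟩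
          · left
            obtain ⟨c1, c2, c3⟩ := h2 R hR
            have h5 : y'.ll R ρ.e = y'.p1 R := by unfold NSt.ll; rw [if_neg (by omega)]
            omega
          · right
            exact ⟨ρ', h2, by omega, e2, e3, e4, by omega⟩
        · left
          have := (h.rec1 ρ h1 (by omega) R hR).1
          omega
      · rcases Nat.lt_or_ge ρ.k 1 with hk0 | hk1
        · right
          exact ⟨ρ, h1, by omega, rfl, rfl, rfl, hv⟩
        · left
          exact (rec1_step h ho' hs ρ h1 (by omega) R hR).1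
  · have hprm : ρ.prm x = ⟨ρ.r, ρ.e, ρ.t, ρ.t, x, 1⟩ := by
      unfold NRec.prm; rw [if_neg hk]
    rw [hprm]
    refine ⟨⟨hr3, fun hf => absurd hf (by simp)⟩, fun hf => absurd hf (by simp),
      fun hf => absurd hf (by simp), ?_⟩
    intro _ R hR
    simp only at hR ⊢
    rcases List.mem_append.1 hρ with h1 | h1
    · rcases Nat.lt_or_ge ρ.k 3 with hk2 | hk3
      · rcases hs.d2 ρ h1 (by omega) with h2 | ⟨ρ', h2, ⟨e1, e2, e3, e4⟩, h3⟩
        · left
          obtain ⟨c1, c2, c3, c4⟩ := h2 R hR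
          refine ⟨w.length, by omega, by omega, ?_, ?_, ?_⟩
          · rw [stR_labC (le_refl _), h.p2 R]; exact c2
          · rw [labC_n]; exact c3
          · rw [getD_snoc_n]
        · right
          exact ⟨ρ', h2, by omega, e2, e3, e4, e4, by omega⟩
      · left
        obtain ⟨i, hi, c1, c2, c3, c4⟩ := h.rec3 ρ h1 (by omega) R hR
        refine ⟨i, by omega, c1, ?_, ?_, ?_⟩
        · rw [stR_labC hi.le]; exact c2
        · rw [labC_lt hi]; exact c3
        · rw [getD_snoc_lt hi]; omega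
    · rcases Nat.lt_or_ge ρ.k 3 with hk2 | hk3
      · right
        exact ⟨ρ, h1, by omega, rfl, rfl, rfl, rfl, hv⟩
      · left
        obtain ⟨i, hi, c1, c2, c3, c4⟩ := rec3_step h hs ρ h1 (by omega) R hR
        exact ⟨i, hi, c1, c2, c3, by omega⟩

/-- the guest condition for the promise of a record -/
theorem host_prm {R : Fin 3} {e s l x : ℕ} {ρ : NRec} (h : GH R e s l x ρ) (ht : ρ.k ≤ 1 → 1 ≤ ρ.t) :
    HostP (oth R e).1.1 (oth R e).2 s l x (ρ.prm x) := by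
  unfold NRec.prm
  split_ifs with hk
  · have := ht hk
    have := h.lo hk
    exact ⟨h.r, h.e, le_refl _, by simp only; omega, by simp only; omega⟩
  · have := h.hi (by omega)
    exact ⟨h.r, h.e, le_refl _, by simp only; omega, by simp only; omega⟩

/-- **steps preserve the meaning** -/
theorem NSem.next (h : NSem C y w lab P) (ho : SOK C y) (ho' : SOK C y') (hs : NStep C y x y') :
    ∃ P', NSem C y' (w ++ [x]) (labC lab w.length y') P' := by
  classical
  have hpar := hs.par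
  have hw := h.par
  have hk3 : ∀ ρ ∈ y.rs ++ y'.rs, ρ.k ≤ 3 := by
    intro ρ hρ
    rcases List.mem_append.1 hρ with h1 | h1
    · exact ho.k3 ρ h1
    · exact ho'.k3 ρ h1
  -- the new promises
  have hex : ∃ Q : List WProm, (∀ q ∈ Q, ∃ ρ ∈ y.rs ++ y'.rs, ρ.k ≤ 3 ∧ x ≤ ρ.v ∧ q = ρ.prm x) ∧
      (x ≤ 3 → ∀ R : Fin 3, ∃ q ∈ Q, HostP (oth R y.par).1.1 (oth R y.par).2 (y.p2 R) (y'.p1 R) x
        q) := by
    by_cases hx : x ≤ 3
    · have hg := hs.guest hx
      choose f hf1 hf2 using hg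
      refine ⟨[(f 0).prm x, (f 1).prm x, (f 2).prm x], ?_, ?_⟩
      · intro q hq
        simp only [List.mem_cons, List.not_mem_nil, or_false] at hq
        rcases hq with rfl | rfl | rfl
        · exact ⟨f 0, hf1 0, hk3 _ (hf1 0), (hf2 0).v, rfl⟩
        · exact ⟨f 1, hf1 1, hk3 _ (hf1 1), (hf2 1).v, rfl⟩
        · exact ⟨f 2, hf1 2, hk3 _ (hf1 2), (hf2 2).v, rfl⟩
      · intro _ R
        have ht : ∀ R, (f R).k ≤ 1 → 1 ≤ (f R).t := by
          intro R hk
          rcases List.mem_append.1 (hf1 R) with h1 | h1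
          · exact (ho.pk _ h1 hk).t1
          · exact (ho'.pk _ h1 hk).t1
        refine ⟨(f R).prm x, ?_, host_prm (hf2 R) (ht R)⟩
        fin_cases R <;> simp
    · exact ⟨[], by simp, fun hx' => absurd hx' hx⟩
  obtain ⟨Q, hQ1, hQ2⟩ := hex
  have hQ : ∀ q ∈ Q, PrmOK C y' w lab x q := by
    intro q hq
    obtain ⟨ρ, h1, h2, h3, h4⟩ := hQ1 q hq
    rw [h4]
    exact prm_ok h ho ho' hs h1 h2 h3
  have hlen : (w ++ [x]).length = w.length + 1 := by simp
  refine ⟨P ++ Q, ?_, ?_, ?_, ?_, ?_, ?_, ?_, ?_, ?_, ?_, ?_⟩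
  · rw [hlen]; omega
  · intro R
    rw [hlen]
    unfold prevL
    rw [if_neg (by omega), Nat.add_sub_cancel, labC_n]
  · intro R
    rw [hlen, hs.p2 R, ← h.p1 R]
    unfold stR prevL
    by_cases h0 : w.length = 0
    · rw [if_pos (by omega), if_pos h0]
    · rw [if_neg (by omega), if_neg h0, labC_lt (by omega)]
      congr 1
  · intro R i hi
    rw [hlen] at hi
    rw [prevL_labC (by omega)]
    rcases Nat.lt_succ_iff_lt_or_eq.1 hi with hlt | rfl
    · rw [labC_lt hlt]; exact h.step R i hlt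
    · rw [labC_n, h.p1 R, hw]; exact hs.lab R
  · intro R i hi hxi
    rw [hlen] at hi
    rcases Nat.lt_succ_iff_lt_or_eq.1 hi with hlt | rfl
    · rw [getD_snoc_lt hlt] at hxi ⊢
      obtain ⟨q, hq, hh⟩ := h.guest R i hlt hxi
      refine ⟨q, List.mem_append_left _ hq, ?_⟩
      rw [stR_labC hlt.le, labC_lt hlt]
      exact hh
    · rw [getD_snoc_n] at hxi ⊢
      obtain ⟨q, hq, hh⟩ := hQ2 hxi R
      refine ⟨q, List.mem_append_right _ hq, ?_⟩
      rw [stR_labC (le_refl _), labC_n, h.p2 R, hw]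
      exact hh
  · intro q hq
    rcases List.mem_append.1 hq with h1 | h1
    · exact h.kinds q h1
    · exact (hQ q h1).1
  · intro q hq hf R hR i hi hie hs1 hs2
    rw [hlen] at hi
    rcases List.mem_append.1 hq with h1 | h1
    · rcases Nat.lt_succ_iff_lt_or_eq.1 hi with hlt | rfl
      · rw [stR_labC hlt.le] at hs1
        rw [labC_lt hlt] at hs2
        rw [getD_snoc_lt hlt]
        exact h.park q h1 hf R hR i hlt hie hs1 hs2
      · rw [stR_labC (le_refl _), h.p2 R] at hs1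
        rw [labC_n] at hs2
        rw [getD_snoc_n]
        have hkk := (h.kinds q h1).2 hf
        have hll : y.ll R q.e = y.p2 R := by unfold NSt.ll; rw [if_pos (by omega)]
        rcases h.pend q h1 hf R hR with h2 | ⟨ρ, hρ, e0, e1, e2, e3, e4⟩
        · exfalso; omega
        · rcases hs.d0 ρ hρ e0 with h3 | ⟨ρ', h3, ⟨f1, f2, f3, f4⟩, h5⟩
          · have := (h3 R (by omega)).2.2
            omega
          · exfalso
            have h6 := ho'.np ρ' h3 (by omega) R (by omega)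
            have h7 : y'.ll R ρ'.e = y'.p1 R := by unfold NSt.ll; rw [if_neg (by omega)]
            omega
    · exact (hQ q h1).2.1 hf R hR i hi hie hs1 hs2
  · intro q hq hf R hR
    rcases List.mem_append.1 hq with h1 | h1
    · have hkk := (h.kinds q h1).2 hf
      have hmm := ll_mono h hs R hkk.2.e2
      rcases h.pend q h1 hf R hR with h2 | ⟨ρ, hρ, e0, e1, e2, e3, e4⟩
      · left; omega
      · rcases hs.d0 ρ hρ e0 with h3 | ⟨ρ', h3, ⟨f1, f2, f3, f4⟩, h5⟩
        · left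
          obtain ⟨c1, c2, c3⟩ := h3 R (by omega)
          have h7 : y'.ll R q.e = y'.p1 R := by unfold NSt.ll; rw [if_neg (by omega)]
          omega
        · right
          exact ⟨ρ', h3, by omega, by omega, by omega, by omega, by omega⟩
    · exact (hQ q h1).2.2.1 hf R hR
  · intro q hq hf R hR
    rcases List.mem_append.1 hq with h1 | h1
    · rw [hlen]
      rcases h.event q h1 hf R hR with ⟨i, hi, c1, c2, c3, c4⟩ | ⟨ρ, hρ, e0, e1, e2, e3, e4, e5⟩
      · left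
        refine ⟨i, by omega, c1, ?_, ?_, ?_⟩
        · rw [stR_labC hi.le]; exact c2
        · rw [labC_lt hi]; exact c3
        · rw [getD_snoc_lt hi]; exact c4
      · rcases hs.d2 ρ hρ e0 with h3 | ⟨ρ', h3, ⟨f1, f2, f3, f4⟩, h5⟩
        · left
          obtain ⟨c1, c2, c3, c4⟩ := h3 R (by omega)
          refine ⟨w.length, by omega, by omega, ?_, ?_, ?_⟩
          · rw [stR_labC (le_refl _), h.p2 R]; omega
          · rw [labC_n]; omega
          · rw [getD_snoc_n]; omega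
        · right
          exact ⟨ρ', h3, by omega, by omega, by omega, by omega, by omega, by omega⟩
    · rw [hlen]
      exact (hQ q h1).2.2.2 hf R hR
  · intro ρ hρ hk R hR
    rw [hlen]
    exact rec1_step h ho' hs ρ hρ hk R hR
  · intro ρ hρ hk R hR
    rw [hlen]
    exact rec3_step h hs ρ hρ hk R hR

/-- the initial state -/
def NSt.ini : NSt := ⟨0, 0, 0, 0, 0, 0, 0, []⟩

theorem NSem.nil : NSem C NSt.ini [] lab [] := by
  refine ⟨rfl, ?_, ?_, ?_, ?_, ?_, ?_, ?_, ?_, ?_, ?_⟩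
  · intro R; unfold prevL NSt.p1 NSt.ini; simp
  · intro R; unfold stR NSt.p2 NSt.ini; simp
  · intro R i hi; exact absurd hi (Nat.not_lt_zero i)
  · intro R i hi; exact absurd hi (Nat.not_lt_zero i)
  · intro q hq; exact absurd hq (by simp)
  · intro q hq; exact absurd hq (by simp)
  · intro q hq; exact absurd hq (by simp)
  · intro q hq; exact absurd hq (by simp)
  · intro q hq; exact absurd hq (by simp [NSt.ini])
  · intro q hq; exact absurd hq (by simp [NSt.ini])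

/-- acceptance -/
structure NAcc (C : CT) (y : NSt) : Prop where
  l1 : ∀ R, y.p1 R = (C.rl R).l1
  l2 : ∀ R, y.p2 R = (C.rl R).l2
  no : ∀ ρ ∈ y.rs, ρ.k ≠ 0 ∧ ρ.k ≠ 2

/-- the template with the promises `P` -/
def CT.withP (C : CT) (P : List WProm) : WT := ⟨fun R => (C.rl R).toW, P⟩

/-- **accepted words have labels** -/
theorem NSem.fin {M : ℕ} (hC : WValid M (C.withP [])) (h : NSem C y w lab P) (ha : NAcc C y)
    (hw : 2 ≤ w.length) :
    WValid M (C.withP P) ∧ ∀ R, WLab 3 (C.withP P) w R (lab R) := by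
  have hkd : ∀ R l, (C.withP P).kd R l = (C.rl R).kd l := fun R l => rfl
  have hpi : ∀ R l, (C.withP P).pi R l = (C.rl R).pi l := fun R l => rfl
  constructor
  · refine ⟨hC.kd0, hC.kdM, hC.cut, hC.com, hC.tim, hC.lst, ?_, ?_⟩
    · intro q hq hf R hR
      obtain ⟨h1, h2⟩ := (h.kinds q hq).2 hf
      exact ⟨h1, h2.kd R hR, h2.e2, h2.lt R hR⟩
    · intro q hq
      exact (h.kinds q hq).1
  · intro R
    refine ⟨?_, ?_, ?_, ?_, ?_, ?_, ?_, ?_, ?_, ?_⟩
    · intro i hi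
      have b := h.step R i hi
      rw [hkd]
      unfold CRole.kd
      rw [b.us]
      simp only [if_true]
      split_ifs <;> norm_num
    · intro i hi; exact (h.step R i hi).le
    · intro i hi he
      have b := h.step R i hi
      rcases b.ct with b4 | b4
      · exact absurd he b4
      · rw [hkd]
        unfold CRole.kd
        rw [b.us, b4]
        rfl
    · intro i hi t ht1 ht2
      have b := h.step R i hi
      have h5 := allSet_spec b.al ht1 ht2
      rw [hpi]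
      unfold CRole.pi
      unfold CRole.al at h5
      rcases Nat.mod_two_eq_zero_or_one i with h0 | h0
      · rw [h0] at h5 ⊢
        simp only [if_true] at h5
        rw [h5]
        simp only [if_true]
        split_ifs <;> simp
      · rw [h0] at h5 ⊢
        simp only [one_ne_zero, if_false] at h5
        rw [h5]
        simp only [if_true]
        split_ifs <;> simp
    · intro i hi t ht1 ht2
      have b := h.step R i hi
      have h5 := allClr_spec b.cl ht1 ht2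
      rw [hkd]
      unfold CRole.kd
      rw [h5]
      split_ifs <;> simp_all
    · intro i hi hc
      obtain ⟨q, hq, hh⟩ := h.guest R i hi hc
      exact ⟨q, hq, hh.r', hh.e', hh.c', hh.s', hh.l'⟩
    · intro i hi q hq hf hr he hs hle
      exact h.park q hq hf R hr i hi he hs hle
    · intro q hq hf hr
      rcases h.event q hq hf R hr with h1 | ⟨ρ, hρ, e0, -⟩
      · exact h1
      · exact absurd e0 (ha.no ρ hρ).2
    · have h1 := h.p1 R
      rw [ha.l1 R] at h1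
      unfold prevL at h1
      rw [if_neg (by omega)] at h1
      exact h1
    · have h1 := h.p2 R
      rw [ha.l2 R] at h1
      unfold stR at h1
      rw [if_neg (by omega)] at h1
      exact h1

end

end MPb6P
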