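import Pool.Agent.Lib.MP_b6d339_lc.Pos.TSelf

/-!
# Erdős 592, positive side: words of even length have a universal schedule
-/

namespace MPb6P

/-- the labels for words of even length `n` -/
def evLab (n : ℕ) (R : Fin 3) (i : ℕ) : ℕ :=
  if R = 0 then (if i + 1 = n then 6 else if i + 2 = n then 4 else if i + 3 = n then 2 else 1)
  else if R = 1 then (if i + 1 = n then 8 else if i + 2 = n then 4 else 3)
  else (if i + 1 = n then 8 else if i + 2 = n then 6 else if i = 0 then 2 else 5)

theorem evLab0 (n i : ℕ) : evLab n 0 i =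
    if i + 1 = n then 6 else if i + 2 = n then 4 else if i + 3 = n then 2 else 1 := rfl

theorem evLab1 (n i : ℕ) : evLab n 1 i =
    if i + 1 = n then 8 else if i + 2 = n then 4 else 3 := rfl

theorem evLab2 (n i : ℕ) : evLab n 2 i =
    if i + 1 = n then 8 else if i + 2 = n then 6 else if i = 0 then 2 else 5 := rfl

theorem plr0 (i : ℕ) : plr 0 i = if i % 2 = 0 then 0 else 1 := by
  simp [plr]

theorem plr1 (i : ℕ) : plr 1 i = if i % 2 = 0 then 0 else 2 := by
  simp [plr]

theorem plr2 (i : ℕ) : plr 2 i = if i % 2 = 0 then 1 else 2 := by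
  simp [plr]

theorem plr0e {i : ℕ} (h : i % 2 = 0) : plr 0 i = 0 := by rw [plr0, if_pos h]

theorem plr0o {i : ℕ} (h : i % 2 = 1) : plr 0 i = 1 := by rw [plr0, if_neg (by omega)]

theorem plr1e {i : ℕ} (h : i % 2 = 0) : plr 1 i = 0 := by rw [plr1, if_pos h]

theorem plr1o {i : ℕ} (h : i % 2 = 1) : plr 1 i = 2 := by rw [plr1, if_neg (by omega)]

theorem plr2e {i : ℕ} (h : i % 2 = 0) : plr 2 i = 1 := by rw [plr2, if_pos h]

theorem plr2o {i : ℕ} (h : i % 2 = 1) : plr 2 i = 2 := by rw [plr2, if_neg (by omega)]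

/-- parities of events of the same player in two runs -/
theorem par01 {i j : ℕ} (h : plr 1 j = plr 0 i) : i % 2 = 0 ∧ j % 2 = 0 := by
  rcases Nat.mod_two_eq_zero_or_one i with hi | hi <;>
    rcases Nat.mod_two_eq_zero_or_one j with hj | hj
  · exact ⟨hi, hj⟩
  · rw [plr1o hj, plr0e hi] at h; exact absurd h (by decide)
  · rw [plr1e hj, plr0o hi] at h; exact absurd h (by decide)
  · rw [plr1o hj, plr0o hi] at h; exact absurd h (by decide)

theorem par02 {i j : ℕ} (h : plr 2 j = plr 0 i) : i % 2 = 1 ∧ j % 2 = 0 := by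
  rcases Nat.mod_two_eq_zero_or_one i with hi | hi <;>
    rcases Nat.mod_two_eq_zero_or_one j with hj | hj
  · rw [plr2e hj, plr0e hi] at h; exact absurd h (by decide)
  · rw [plr2o hj, plr0e hi] at h; exact absurd h (by decide)
  · exact ⟨hi, hj⟩
  · rw [plr2o hj, plr0o hi] at h; exact absurd h (by decide)

theorem par12 {i j : ℕ} (h : plr 2 j = plr 1 i) : i % 2 = 1 ∧ j % 2 = 1 := by
  rcases Nat.mod_two_eq_zero_or_one i with hi | hi <;>
    rcases Nat.mod_two_eq_zero_or_one j with hj | hj
  · rw [plr2e hj, plr1e hi] at h; exact absurd h (by decide)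
  · rw [plr2o hj, plr1e hi] at h; exact absurd h (by decide)
  · rw [plr2e hj, plr1o hi] at h; exact absurd h (by decide)
  · exact ⟨hi, hj⟩

theorem fin3_cases (R : Fin 3) : R = 0 ∨ R = 1 ∨ R = 2 := by
  fin_cases R <;> simp

section

variable {n : ℕ}

/-- the event of the player of the event `i` of run `R` in the run `R'` at the same time or next -/
theorem ev_timing (hn : 2 ≤ n) (he : n % 2 = 0) (R R' : Fin 3) (hR : R ≠ R') (i : ℕ) (hi : i < n)
    (hj : ∃ j, plr R' j = plr R i) : ∃ j < n, plr R' j = plr R i ∧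
      evLab n R i ≤ evLab n R' j ∧ (∀ k < j, evLab n R' k < evLab n R i) ∧
      (n ≤ i + 2 → evLab n R i = evLab n R' j) := by
  obtain ⟨j0, hj0⟩ := hj
  rcases fin3_cases R with rfl | rfl | rfl <;> rcases fin3_cases R' with rfl | rfl | rfl
  · exact absurd rfl hR
  · -- (0, 1)
    have hp := (par01 hj0).1
    by_cases h2 : i + 2 = n
    · refine ⟨n - 2, by omega, ?_, ?_, ?_, ?_⟩
      · rw [plr0e (by omega), plr1e (by omega)]
      · rw [evLab0, evLab1]; split_ifs <;> omega
      · intro k hk
        rw [evLab0, evLab1]; split_ifs <;> omega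
      · intro _
        rw [evLab0, evLab1]; split_ifs <;> omega
    · refine ⟨0, by omega, ?_, ?_, ?_, ?_⟩
      · rw [plr0e (by omega), plr1e (by omega)]
      · rw [evLab0, evLab1]; split_ifs <;> omega
      · intro k hk
        omega
      · intro _
        omega
  · -- (0, 2)
    have hp := (par02 hj0).1
    by_cases h2 : i + 1 = n
    · refine ⟨n - 2, by omega, ?_, ?_, ?_, ?_⟩
      · rw [plr0o (by omega), plr2e (by omega)]
      · rw [evLab0, evLab2]; split_ifs <;> omega
      · intro k hk
        rw [evLab0, evLab2]; split_ifs <;> omega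
      · intro _
        rw [evLab0, evLab2]; split_ifs <;> omega
    · refine ⟨0, by omega, ?_, ?_, ?_, ?_⟩
      · rw [plr0o (by omega), plr2e (by omega)]
      · rw [evLab0, evLab2]; split_ifs <;> omega
      · intro k hk
        omega
      · intro _
        omega
  · -- (1, 0)
    have hp := (par01 hj0.symm).2
    refine ⟨n - 2, by omega, ?_, ?_, ?_, ?_⟩
    · rw [plr0e (by omega), plr1e (by omega)]
    · rw [evLab0, evLab1]; split_ifs <;> omega
    · intro k hk
      rw [evLab0, evLab1]; split_ifs <;> omega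
    · intro _
      rw [evLab0, evLab1]; split_ifs <;> omega
  · exact absurd rfl hR
  · -- (1, 2)
    have hp := (par12 hj0).1
    by_cases h2 : i + 1 = n
    · refine ⟨n - 1, by omega, ?_, ?_, ?_, ?_⟩
      · rw [plr1o (by omega), plr2o (by omega)]
      · rw [evLab1, evLab2]; split_ifs <;> omega
      · intro k hk
        rw [evLab1, evLab2]; split_ifs <;> omega
      · intro _
        rw [evLab1, evLab2]; split_ifs <;> omega
    · refine ⟨1, by omega, ?_, ?_, ?_, ?_⟩
      · rw [plr1o (by omega), plr2o (by omega)]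
      · rw [evLab1, evLab2, if_neg (show ¬ (1 : ℕ) = 0 by omega)]; split_ifs <;> omega
      · intro k hk
        rw [evLab1, evLab2]; split_ifs <;> omega
      · intro _
        omega
  · -- (2, 0)
    have hp := (par02 hj0.symm).2
    by_cases h2 : i = 0 ∧ 2 < n
    · obtain ⟨rfl, h3⟩ := h2
      refine ⟨n - 3, by omega, ?_, ?_, ?_, ?_⟩
      · rw [plr0o (by omega), plr2e (by omega)]
      · rw [evLab0, evLab2]; split_ifs <;> omega
      · intro k hk
        rw [evLab0, evLab2]; split_ifs <;> omega
      · intro _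
        omega
    · refine ⟨n - 1, by omega, ?_, ?_, ?_, ?_⟩
      · rw [plr0o (by omega), plr2e (by omega)]
      · rw [evLab0, evLab2]; split_ifs <;> omega
      · intro k hk
        rw [evLab0, evLab2]; split_ifs <;> omega
      · intro _
        rw [evLab0, evLab2]; split_ifs <;> omega
  · -- (2, 1)
    have hp := (par12 hj0.symm).2
    refine ⟨n - 1, by omega, ?_, ?_, ?_, ?_⟩
    · rw [plr1o (by omega), plr2o (by omega)]
    · rw [evLab1, evLab2]; split_ifs <;> omega
    · intro k hk
      rw [evLab1, evLab2]; split_ifs <;> omega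
    · intro _
      rw [evLab1, evLab2]; split_ifs <;> omega
  · exact absurd rfl hR

/-- hosts -/
theorem ev_host (he : n % 2 = 0) (R R' : Fin 3) (hR : R ≠ R') (i : ℕ)
    (hi2 : 2 ≤ i) (hi3 : i + 2 < n) (hj : ∃ j, plr R' j = plr R i) :
    ∃ j < n, plr R' j = plr R i ∧ (j < 2 ∨ n ≤ j + 2) ∧ stL (evLab n) R i < evLab n R' j ∧
      stL (evLab n) R' j < evLab n R i := by
  obtain ⟨j0, hj0⟩ := hj
  have hst : ∀ R, stL (evLab n) R i = evLab n R (i - 2) := fun R => by
    unfold stL; rw [if_neg (by omega)]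
  have hst0 : ∀ R, stL (evLab n) R 0 = 0 := fun R => by unfold stL; rw [if_pos (by omega)]
  have hst1 : ∀ R, stL (evLab n) R 1 = 0 := fun R => by unfold stL; rw [if_pos (by omega)]
  have hstn : ∀ R, stL (evLab n) R (n - 1) = evLab n R (n - 3) := fun R => by
    unfold stL; rw [if_neg (by omega)]; congr 1
  have hstn' : ∀ R, stL (evLab n) R (n - 2) = evLab n R (n - 4) := fun R => by
    unfold stL; rw [if_neg (by omega)]; congr 1
  rcases fin3_cases R with rfl | rfl | rfl <;> rcases fin3_cases R' with rfl | rfl | rfl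
  · exact absurd rfl hR
  · -- (0, 1)
    have hp := (par01 hj0).1
    refine ⟨0, by omega, ?_, by omega, ?_, ?_⟩
    · rw [plr0e (by omega), plr1e (by omega)]
    · rw [hst, evLab0, evLab1]; split_ifs <;> omega
    · rw [hst0, evLab0]; split_ifs <;> omega
  · -- (0, 2)
    have hp := (par02 hj0).1
    refine ⟨0, by omega, ?_, by omega, ?_, ?_⟩
    · rw [plr0o (by omega), plr2e (by omega)]
    · rw [hst, evLab0, evLab2]; split_ifs <;> omega
    · rw [hst0, evLab0]; split_ifs <;> omega
  · -- (1, 0)
    have hp := (par01 hj0.symm).2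
    refine ⟨n - 2, by omega, ?_, by omega, ?_, ?_⟩
    · rw [plr0e (by omega), plr1e (by omega)]
    · rw [hst, evLab0, evLab1]; split_ifs <;> omega
    · rw [hstn', evLab0, evLab1]; split_ifs <;> omega
  · exact absurd rfl hR
  · -- (1, 2)
    have hp := (par12 hj0).1
    refine ⟨1, by omega, ?_, by omega, ?_, ?_⟩
    · rw [plr1o (by omega), plr2o (by omega)]
    · rw [hst, evLab1, evLab2, if_neg (show ¬ (1 : ℕ) = 0 by omega)]; split_ifs <;> omega
    · rw [hst1, evLab1]; split_ifs <;> omega
  · -- (2, 0)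
    have hp := (par02 hj0.symm).2
    refine ⟨n - 1, by omega, ?_, by omega, ?_, ?_⟩
    · rw [plr0o (by omega), plr2e (by omega)]
    · rw [hst, evLab0, evLab2]; split_ifs <;> omega
    · rw [hstn, evLab0, evLab2]; split_ifs <;> omega
  · -- (2, 1)
    have hp := (par12 hj0.symm).2
    refine ⟨n - 1, by omega, ?_, by omega, ?_, ?_⟩
    · rw [plr1o (by omega), plr2o (by omega)]
    · rw [hst, evLab1, evLab2]; split_ifs <;> omega
    · rw [hstn, evLab1, evLab2]; split_ifs <;> omega
  · exact absurd rfl hR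

/-- equal labels -/
theorem ev_common (hn : 2 ≤ n) (he : n % 2 = 0) (R R' : Fin 3) (hR : R ≠ R') (i j : ℕ)
    (hi : i < n) (hj : j < n) (hij : evLab n R i = evLab n R' j) :
    plr R i = plr R' j ∧ (∀ k < n, evLab n R k = evLab n R i → k = i) ∧
    (∀ k < n, evLab n R' k = evLab n R' j → k = j) ∧ (n ≤ i + 2 ↔ n ≤ j + 2) := by
  have key : ∀ (R R' : Fin 3), R.val < R'.val → ∀ i < n, ∀ j < n, evLab n R i = evLab n R' j →
    plr R i = plr R' j ∧ (∀ k < n, evLab n R k = evLab n R i → k = i) ∧
    (∀ k < n, evLab n R' k = evLab n R' j → k = j) ∧ (n ≤ i + 2 ↔ n ≤ j + 2) := by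
    intro R R' hlt i hi j hj hij
    rcases fin3_cases R with rfl | rfl | rfl <;> rcases fin3_cases R' with rfl | rfl | rfl
    · simp at hlt
    · -- (0,1): label 4
      rw [evLab0, evLab1] at hij
      have h1 : i + 2 = n ∧ j + 2 = n := by split_ifs at hij <;> omega
      refine ⟨?_, ?_, ?_, by omega⟩
      · rw [plr0e (by omega), plr1e (by omega)]
      · intro k hk h
        rw [evLab0, evLab0] at h
        split_ifs at h <;> omega
      · intro k hk h
        rw [evLab1, evLab1] at h
        split_ifs at h <;> omega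
    · -- (0,2): labels 2, 6
      rw [evLab0, evLab2] at hij
      have h1 : (i + 1 = n ∧ j + 2 = n) ∨ (i + 3 = n ∧ j = 0 ∧ 2 < n) := by
        split_ifs at hij <;> omega
      refine ⟨?_, ?_, ?_, by omega⟩
      · rw [plr0o (by omega), plr2e (by omega)]
      · intro k hk h
        rw [evLab0, evLab0] at h
        split_ifs at h <;> omega
      · intro k hk h
        rw [evLab2, evLab2] at h
        split_ifs at h <;> omega
    · simp at hlt
    · simp at hlt
    · -- (1,2): label 8
      rw [evLab1, evLab2] at hij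
      have h1 : i + 1 = n ∧ j + 1 = n := by split_ifs at hij <;> omega
      refine ⟨?_, ?_, ?_, by omega⟩
      · rw [plr1o (by omega), plr2o (by omega)]
      · intro k hk h
        rw [evLab1, evLab1] at h
        split_ifs at h <;> omega
      · intro k hk h
        rw [evLab2, evLab2] at h
        split_ifs at h <;> omega
    · simp at hlt
    · simp at hlt
    · simp at hlt
  rcases lt_trichotomy R.val R'.val with h | h | h
  · exact key R R' h i hi j hj hij
  · exact absurd (Fin.ext h) hR
  · obtain ⟨h1, h2, h3, h4⟩ := key R' R h j hj i hi hij.symm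
    exact ⟨h1.symm, h3, h2, h4.symm⟩

theorem ev_mono (he : n % 2 = 0) (R : Fin 3) (i j : ℕ) (hij : i ≤ j) (hj : j < n) :
    evLab n R i ≤ evLab n R j := by
  rcases fin3_cases R with rfl | rfl | rfl
  · rw [evLab0, evLab0]; split_ifs <;> omega
  · rw [evLab1, evLab1]; split_ifs <;> omega
  · rw [evLab2, evLab2]; split_ifs <;> omega

end

/-- words of even length -/
theorem even_self (D : ℕ) (u : List ℕ) (hv : Valid D u) (he : u.length % 2 = 0) :
    ∃ lab : Fin 3 → ℕ → ℕ,
    (∀ R i, i < u.length → 1 ≤ lab R i ∧ lab R i ≤ 8) ∧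
    (∀ R i j, i ≤ j → j < u.length → lab R i ≤ lab R j) ∧ Compat D u lab u lab := by
  refine ⟨evLab u.length, ?_, fun R i j hij hj => ev_mono he R i j hij hj, ?_⟩
  · intro R i _
    rcases fin3_cases R with rfl | rfl | rfl
    · rw [evLab0]; split_ifs <;> omega
    · rw [evLab1]; split_ifs <;> omega
    · rw [evLab2]; split_ifs <;> omega
  · refine ⟨?_, ?_, ?_⟩
    · intro R R' hR i hi j hj hij
      exact ev_common hv.1 he R R' hR i j hi hj hij
    · intro R R' hR i hi hj
      exact ev_timing hv.1 he R R' hR i hi hj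
    · intro R R' hR i hi hD hj
      have h1 : 2 ≤ i ∧ i + 2 < u.length := by
        by_contra h
        have := (hv.2 i hi).1 (by omega)
        omega
      obtain ⟨j, hj1, hj2, hj3, hj4, hj5⟩ := ev_host he R R' hR i h1.1 h1.2 hj
      refine ⟨j, hj1, hj2, ?_, hj4, hj5⟩
      have := (hv.2 j hj1).1 hj3
      omega

end MPb6P
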