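import Pool.Agent.Lib.MP_b6d339_lc.Pos.TSelf

/-!
# Erdős 592, positive side: templates (three linear patterns) and their soundness
-/

namespace MPb6P

/-- an item of a linear pattern: a letter with class in `[lo, hi]` and the label of its event;
`ux`, `uy`: bounds for the letters of even and odd index in the pairs inserted after this item -/
structure TItem where
  lo : ℕ
  hi : ℕ
  lb : ℕ
  ux : ℕ
  uy : ℕ

/-- a template: three linear patterns -/
abbrev Tpl := Fin 3 → List TItem

/-- the item with index `k` -/
def tit (v : List TItem) (k : ℕ) : TItem := v.getD k ⟨0, 0, 0, 0, 0⟩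

/-- start label of the item `k` -/
def tst (v : List TItem) (k : ℕ) : ℕ := if k < 2 then 0 else (tit v (k - 2)).lb

/-- pairs may be inserted after the item `k` -/
def tstar (v : List TItem) (k : ℕ) : Prop :=
  1 ≤ k ∧ k + 2 < v.length ∧ (tit v k).lb = (tit v (k - 1)).lb

/-- bound for the inserted letters -/
def tub (v : List TItem) (k e : ℕ) : ℕ := if e = 0 then (tit v k).ux else (tit v k).uy

/-- one step: in state `s` (`s = 2 k`: `k` items consumed; `s = 2 k + 1`: in the middle of a pair
after item `k - 1`) a letter `x` with index parity `e` is read -/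
def TStep (v : List TItem) (e x s s' : ℕ) : Prop :=
  (s % 2 = 0 ∧ s' = s + 2 ∧ s / 2 < v.length ∧ (tit v (s / 2)).lo ≤ x ∧ x ≤ (tit v (s / 2)).hi) ∨
  (s % 2 = 0 ∧ s' = s + 1 ∧ 1 ≤ s / 2 ∧ tstar v (s / 2 - 1) ∧ x ≤ tub v (s / 2 - 1) e) ∨
  (s % 2 = 1 ∧ s' + 1 = s ∧ 1 ≤ s / 2 ∧ tstar v (s / 2 - 1) ∧ x ≤ tub v (s / 2 - 1) e)

/-- a path of a pattern over a word -/
structure TPath (v : List TItem) (u : List ℕ) (st : ℕ → ℕ) : Prop where
  zero : st 0 = 0
  step : ∀ i < u.length, TStep v (i % 2) (u.getD i 0) (st i) (st (i + 1))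
  last : st u.length = 2 * v.length

/-- the item responsible for the letter `i` -/
def kk (st : ℕ → ℕ) (i : ℕ) : ℕ := if st (i + 1) = st i + 2 then st i / 2 else st i / 2 - 1

/-- the letter `i` consumes an item -/
def sing (st : ℕ → ℕ) (i : ℕ) : Prop := st (i + 1) = st i + 2

/-- the other run of the player with parity `e` in run `R`, and its parity there -/
def oth (R : Fin 3) (e : ℕ) : Fin 3 × ℕ :=
  if R = 0 then (if e = 0 then (1, 0) else (2, 0))
  else if R = 1 then (if e = 0 then (0, 0) else (2, 1))
  else (if e = 0 then (0, 1) else (1, 1))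

/-- validity of a template -/
structure TValid (D M : ℕ) (T : Tpl) : Prop where
  len : ∀ R, 2 ≤ (T R).length
  mono : ∀ R k, k + 1 < (T R).length → (tit (T R) k).lb ≤ (tit (T R) (k + 1)).lb
  pos : ∀ R k, k < (T R).length → 1 ≤ (tit (T R) k).lb ∧ (tit (T R) k).lb ≤ M
  star : ∀ R k, k < (T R).length → tstar (T R) k → ∀ e, e < 2 →
    tub (T R) k e = 0 ∨ ∃ j < (T (oth R e).1).length, j % 2 = (oth R e).2 ∧
      tub (T R) k e ≤ (tit (T (oth R e).1) j).lo ∧
      tst (T (oth R e).1) j < (tit (T R) k).lb ∧ (tit (T R) k).lb < (tit (T (oth R e).1) j).lb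
  host : ∀ R k, k < (T R).length → D < (tit (T R) k).lo ∨
    ∃ j < (T (oth R (k % 2)).1).length, j % 2 = (oth R (k % 2)).2 ∧
      (tit (T R) k).hi ≤ (tit (T (oth R (k % 2)).1) j).lo ∧
      tst (T R) k < (tit (T (oth R (k % 2)).1) j).lb ∧
      tst (T (oth R (k % 2)).1) j < (tit (T R) k).lb
  common : ∀ R R', R ≠ R' → ∀ k < (T R).length, ∀ j < (T R').length,
    (tit (T R) k).lb = (tit (T R') j).lb → plr R k = plr R' j ∧
    (∀ k2 < (T R).length, (tit (T R) k2).lb = (tit (T R) k).lb → k2 = k) ∧
    (∀ j2 < (T R').length, (tit (T R') j2).lb = (tit (T R') j).lb → j2 = j) ∧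
    ((T R).length ≤ k + 2 ↔ (T R').length ≤ j + 2)
  timing : ∀ R k, k < (T R).length →
    ∃ j < (T (oth R (k % 2)).1).length, j % 2 = (oth R (k % 2)).2 ∧
      (tit (T R) k).lb ≤ (tit (T (oth R (k % 2)).1) j).lb ∧
      (∀ m < j, (tit (T (oth R (k % 2)).1) m).lb < (tit (T R) k).lb) ∧
      ((T R).length ≤ k + 2 → (tit (T R) k).lb = (tit (T (oth R (k % 2)).1) j).lb)

section path

variable {v : List TItem} {u : List ℕ} {st : ℕ → ℕ}

theorem TPath.cases (h : TPath v u st) {i : ℕ} (hi : i < u.length) :
    (st i % 2 = 0 ∧ st (i + 1) = st i + 2 ∧ st i / 2 < v.length) ∨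
    (st i % 2 = 0 ∧ st (i + 1) = st i + 1 ∧ 1 ≤ st i / 2 ∧ tstar v (st i / 2 - 1)) ∨
    (st i % 2 = 1 ∧ st (i + 1) + 1 = st i ∧ 1 ≤ st i / 2 ∧ tstar v (st i / 2 - 1)) := by
  rcases h.step i hi with h1 | h1 | h1
  · exact Or.inl ⟨h1.1, h1.2.1, h1.2.2.1⟩
  · exact Or.inr (Or.inl ⟨h1.1, h1.2.1, h1.2.2.1, h1.2.2.2.1⟩)
  · exact Or.inr (Or.inr ⟨h1.1, h1.2.1, h1.2.2.1, h1.2.2.2.1⟩)

theorem TPath.cases' (h : TPath v u st) {i j : ℕ} (hij : j = i + 1) (hi : i < u.length) :
    (st i % 2 = 0 ∧ st j = st i + 2 ∧ st i / 2 < v.length) ∨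
    (st i % 2 = 0 ∧ st j = st i + 1 ∧ 1 ≤ st i / 2 ∧ tstar v (st i / 2 - 1)) ∨
    (st i % 2 = 1 ∧ st j + 1 = st i ∧ 1 ≤ st i / 2 ∧ tstar v (st i / 2 - 1)) := by
  subst hij; exact h.cases hi

/-- parity -/
theorem TPath.par (h : TPath v u st) : ∀ i, i ≤ u.length →
    (st i / 2 + st i % 2) % 2 = i % 2 := by
  intro i
  induction i with
  | zero => intro _; rw [h.zero]
  | succ i ih =>
    intro hi
    have := ih (by omega)
    rcases h.cases (i := i) (by omega) with h1 | h1 | h1 <;> omega

theorem TPath.kk_lt (h : TPath v u st) {i : ℕ} (hi : i < u.length) : kk st i < v.length := by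
  unfold kk
  rcases h.cases hi with h1 | h1 | h1
  · rw [if_pos h1.2.1]; exact h1.2.2
  · rw [if_neg (by omega)]; have := h1.2.2.2.2.1; omega
  · rw [if_neg (by omega)]; have := h1.2.2.2.2.1; omega

theorem TPath.kk_par (h : TPath v u st) {i : ℕ} (hi : i < u.length) (hs : sing st i) :
    kk st i % 2 = i % 2 := by
  unfold kk
  have hp := h.par i hi.le
  unfold sing at hs
  rw [if_pos hs]
  rcases h.cases hi with h1 | h1 | h1 <;> omega

theorem TPath.kk_succ (h : TPath v u st) {i : ℕ} (hi : i + 1 < u.length) :
    kk st i = kk st (i + 1) ∨ kk st i + 1 = kk st (i + 1) := by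
  unfold kk
  rcases h.cases (i := i) (by omega) with h1 | h1 | h1 <;>
  rcases h.cases (i := i + 1) hi with h2 | h2 | h2 <;>
  split_ifs <;> omega

theorem TPath.kk_mono (h : TPath v u st) {i j : ℕ} (hij : i ≤ j) (hj : j < u.length) :
    kk st i ≤ kk st j := by
  induction j, hij using Nat.le_induction with
  | base => exact le_refl _
  | succ j hij ih =>
    have := ih (by omega)
    rcases h.kk_succ (i := j) hj with h1 | h1 <;> omega

/-- states reach every item -/
theorem TPath.exists_sing (h : TPath v u st) {k : ℕ} (hk : k < v.length) :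
    ∃ i < u.length, sing st i ∧ kk st i = k := by
  classical
  -- first time the state is at least `2 * k + 2`
  have hex : ∃ i, 2 * k + 2 ≤ st i := ⟨u.length, by rw [h.last]; omega⟩
  have h1 := Nat.find_spec hex
  have h2 : Nat.find hex ≤ u.length := Nat.find_min' hex (by rw [h.last]; omega)
  have h3 : Nat.find hex ≠ 0 := by
    intro h0; rw [h0, h.zero] at h1; omega
  obtain ⟨i, hi⟩ : ∃ i, Nat.find hex = i + 1 := ⟨Nat.find hex - 1, by omega⟩
  have h4 : ¬ (2 * k + 2 ≤ st i) := Nat.find_min hex (by omega)
  rw [hi] at h1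
  refine ⟨i, by omega, ?_⟩
  unfold sing kk
  rcases h.cases (i := i) (by omega) with h5 | h5 | h5
  · rw [if_pos h5.2.1]
    exact ⟨h5.2.1, by omega⟩
  · exfalso; omega
  · exfalso; omega

/-- the label of the letter two steps before a consuming letter -/
theorem TPath.start_sing (h : TPath v u st) {i : ℕ} (hi : i < u.length) (h2 : 2 ≤ i)
    (hs : sing st i) : 2 ≤ kk st i ∧ (tit v (kk st (i - 2))).lb = (tit v (kk st i - 2)).lb := by
  obtain ⟨i, rfl⟩ : ∃ j, i = j + 2 := ⟨i - 2, by omega⟩
  have e0 : i + 2 - 2 = i := by omega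
  rw [e0]
  have hs' : st (i + 3) = st (i + 2) + 2 := hs
  have k2 : kk st (i + 2) = st (i + 2) / 2 := by
    unfold kk; exact if_pos hs
  rw [k2]
  have c2 := h.cases' (i := i + 2) (j := i + 3) (by omega) (by omega)
  have c1 := h.cases' (i := i + 1) (j := i + 2) (by omega) (by omega)
  have c0 := h.cases' (i := i) (j := i + 1) (by omega) (by omega)
  have kpos : st (i + 1) = st i + 2 → kk st i = st i / 2 := fun hh => if_pos hh
  have kneg : ¬ (st (i + 1) = st i + 2) → kk st i = st i / 2 - 1 := fun hh => if_neg hh
  rcases c2 with h5 | h5 | h5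
  · rcases c1 with h6 | h6 | h6
    · rcases c0 with h7 | h7 | h7
      · rw [kpos h7.2.1]
        refine ⟨by omega, ?_⟩
        congr 2; omega
      · exfalso; omega
      · rw [kneg (by omega)]
        refine ⟨by omega, ?_⟩
        congr 2; omega
    · exfalso; omega
    · rcases c0 with h7 | h7 | h7
      · exfalso; omega
      · rw [kneg (by omega)]
        have hst := h7.2.2.2
        have e2 : st (i + 2) / 2 - 2 = st i / 2 - 1 - 1 := by omega
        rw [e2]
        refine ⟨?_, hst.2.2⟩
        have := hst.1
        omega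
      · exfalso; omega
  · exfalso; omega
  · exfalso; omega

/-- the label of the letter two steps before an inserted letter -/
theorem TPath.start_star (h : TPath v u st) {i : ℕ} (hi : i < u.length)
    (hs : ¬ sing st i) : 2 ≤ i ∧ tstar v (kk st i) ∧
      (tit v (kk st (i - 2))).lb = (tit v (kk st i)).lb := by
  have z0 := h.zero
  have h2 : 2 ≤ i := by
    by_contra hc
    have hc2 : i = 0 ∨ i = 1 := by omega
    rcases hc2 with rfl | rfl
    · have hs' : ¬ (st 1 = st 0 + 2) := hs
      rcases h.cases' (i := 0) (j := 1) (by omega) (by omega) with h5 | h5 | h5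
      · exact hs' h5.2.1
      · have := h5.2.2.1; omega
      · omega
    · have hs' : ¬ (st 2 = st 1 + 2) := hs
      rcases h.cases' (i := 0) (j := 1) (by omega) (by omega) with h6 | h6 | h6
      · rcases h.cases' (i := 1) (j := 2) (by omega) (by omega) with h5 | h5 | h5
        · exact hs' h5.2.1
        · have := h5.2.2.2.1; omega
        · omega
      · have := h6.2.2.1; omega
      · omega
  obtain ⟨i, rfl⟩ : ∃ j, i = j + 2 := ⟨i - 2, by omega⟩
  have e0 : i + 2 - 2 = i := by omega
  rw [e0]
  refine ⟨h2, ?_⟩
  have hs' : ¬ (st (i + 3) = st (i + 2) + 2) := hs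
  have k2 : kk st (i + 2) = st (i + 2) / 2 - 1 := by
    unfold kk; exact if_neg hs
  rw [k2]
  have c2 := h.cases' (i := i + 2) (j := i + 3) (by omega) (by omega)
  have c1 := h.cases' (i := i + 1) (j := i + 2) (by omega) (by omega)
  have c0 := h.cases' (i := i) (j := i + 1) (by omega) (by omega)
  have kpos : st (i + 1) = st i + 2 → kk st i = st i / 2 := fun hh => if_pos hh
  have kneg : ¬ (st (i + 1) = st i + 2) → kk st i = st i / 2 - 1 := fun hh => if_neg hh
  rcases c2 with h5 | h5 | h5
  · exfalso; omega
  · refine ⟨h5.2.2.2, ?_⟩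
    have hst := h5.2.2.2
    rcases c1 with h6 | h6 | h6
    · rcases c0 with h7 | h7 | h7
      · rw [kpos h7.2.1, hst.2.2]
        congr 2; omega
      · exfalso; omega
      · rw [kneg (by omega), hst.2.2]
        congr 2; omega
    · exfalso; omega
    · rcases c0 with h7 | h7 | h7
      · exfalso; omega
      · rw [kneg (by omega)]
        congr 2; omega
      · exfalso; omega
  · refine ⟨h5.2.2.2, ?_⟩
    have hst := h5.2.2.2
    rcases c1 with h6 | h6 | h6
    · exfalso; omega
    · rcases c0 with h7 | h7 | h7
      · rw [kpos h7.2.1]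
        congr 2; omega
      · exfalso; omega
      · rw [kneg (by omega)]
        congr 2; omega
    · exfalso; omega

theorem TPath.kk_inj (h : TPath v u st) {i j : ℕ} (hi : i < u.length) (hj : j < u.length)
    (hsi : sing st i) (hsj : sing st j) (hk : kk st i = kk st j) : i = j := by
  -- between two consuming letters the state grows
  have mono2 : ∀ a b, a ≤ b → b ≤ u.length → st a / 2 ≤ st b / 2 := by
    intro a b hab hb
    induction b, hab using Nat.le_induction with
    | base => exact le_refl _
    | succ b hab ih =>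
      have := ih (by omega)
      rcases h.cases (i := b) (by omega) with h1 | h1 | h1 <;> omega
  unfold sing at hsi hsj
  unfold kk at hk
  rw [if_pos hsi, if_pos hsj] at hk
  by_contra hne
  rcases lt_or_gt_of_ne hne with hlt | hlt
  · have := mono2 (i + 1) j hlt hj.le
    omega
  · have := mono2 (j + 1) i hlt hi.le
    omega

/-- small indices -/
theorem TPath.small (h : TPath v u st) {i : ℕ} (hi : i < u.length) (h2 : i < 2) :
    sing st i ∧ kk st i = i := by
  have hs : sing st i := by
    by_contra hc
    have := (h.start_star hi hc).1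
    omega
  refine ⟨hs, ?_⟩
  have z0 := h.zero
  have : i = 0 ∨ i = 1 := by omega
  rcases this with rfl | rfl
  · have : kk st 0 = st 0 / 2 := if_pos hs
    omega
  · have hk : kk st 1 = st 1 / 2 := if_pos hs
    have hs0 : sing st 0 := by
      by_contra hc
      have := (h.start_star (i := 0) (by omega) hc).1
      omega
    have hs0' : st 1 = st 0 + 2 := hs0
    omega

theorem TPath.kk_small (h : TPath v u st) {i : ℕ} (hi : i < u.length) (hs : sing st i)
    (h2 : kk st i < 2) : i < 2 := by
  by_contra hc
  have := (h.start_sing hi (by omega) hs).1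
  omega

/-- last indices -/
theorem TPath.kk_last (h : TPath v u st) {i : ℕ} (hi : i < u.length) :
    (u.length ≤ i + 2 ↔ v.length ≤ kk st i + 2) ∧ (u.length ≤ i + 2 → sing st i) := by
  have hl := h.last
  have hn : ∀ j, j < u.length → ¬ sing st j → kk st j + 2 < v.length := by
    intro j hj hs
    exact (h.start_star hj hs).2.1.2.1
  by_cases hs : sing st i
  · refine ⟨?_, fun _ => hs⟩
    -- the last letter consumes the last item, and so on
    have hL : 1 ≤ u.length := by omega
    have a1 : sing st (u.length - 1) := by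
      by_contra hc
      have := hn _ (by omega) hc
      have e : u.length - 1 + 1 = u.length := by omega
      unfold sing at hc
      unfold kk at this
      rw [if_neg hc] at this
      rw [e] at hc
      rcases h.cases (i := u.length - 1) (by omega) with h1 | h1 | h1
      · rw [e] at h1; omega
      · rw [e] at h1; have := h1.2.2.2.2.1; omega
      · rw [e] at h1; have := h1.2.2.2.2.1; omega
    have e1 : kk st (u.length - 1) + 1 = v.length := by
      have e : u.length - 1 + 1 = u.length := by omega
      unfold sing at a1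
      unfold kk
      rw [if_pos a1]
      rw [e] at a1
      rcases h.cases (i := u.length - 1) (by omega) with h1 | h1 | h1
      · omega
      · rw [e] at h1; omega
      · rw [e] at h1; omega
    by_cases hL2 : u.length ≤ 1
    · constructor
      · intro _
        have : i = u.length - 1 := by omega
        rw [this]; omega
      · intro _; omega
    · have a2 : sing st (u.length - 2) := by
        by_contra hc
        have h3 := hn _ (by omega) hc
        have h4 := h.kk_succ (i := u.length - 2) (by omega)
        have e : u.length - 2 + 1 = u.length - 1 := by omega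
        rw [e] at h4
        omega
      have e2 : kk st (u.length - 2) + 2 = v.length := by
        have h4 := h.kk_succ (i := u.length - 2) (by omega)
        have e : u.length - 2 + 1 = u.length - 1 := by omega
        rw [e] at h4
        rcases h4 with h4 | h4
        · exfalso
          have := h.kk_inj (by omega) (by omega) a2 a1 h4
          omega
        · omega
      constructor
      · intro hh
        have : i = u.length - 1 ∨ i = u.length - 2 := by omega
        rcases this with rfl | rfl <;> omega
      · intro hh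
        by_contra hc
        have h5 := h.kk_mono (i := i) (j := u.length - 2) (by omega) (by omega)
        have h6 : kk st i = kk st (u.length - 2) := by omega
        have := h.kk_inj hi (by omega) hs a2 h6
        omega
  · have h3 := hn i hi hs
    have h4 : ¬ (u.length ≤ i + 2) := by
      intro hh
      have hL : 1 ≤ u.length := by omega
      -- the last two letters consume
      have key : ∀ j, j < u.length → u.length ≤ j + 2 → sing st j := by
        intro j hj hjj
        by_contra hc
        have h5 := hn j hj hc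
        have a1 : kk st (u.length - 1) + 1 = v.length ∧ sing st (u.length - 1) := by
          have e : u.length - 1 + 1 = u.length := by omega
          rcases h.cases (i := u.length - 1) (by omega) with h1 | h1 | h1
          · rw [e] at h1
            unfold sing kk
            rw [e, if_pos h1.2.1]
            omega
          · rw [e] at h1; have := h1.2.2.2.2.1; omega
          · rw [e] at h1; have := h1.2.2.2.2.1; omega
        have : j = u.length - 1 ∨ j + 1 = u.length - 1 := by omega
        rcases this with h6 | h6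
        · rw [h6] at hc; exact hc a1.2
        · have h7 := h.kk_succ (i := j) (by omega)
          rw [h6] at h7
          omega
      exact hs (key i hi hh)
    exact ⟨⟨fun hh => absurd hh h4, fun hh => by omega⟩, fun hh => absurd hh h4⟩

end path

end MPb6P
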