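import Pool.Agent.Lib.MP_b6d339_lc.Pos.XNfa

/-!
# Erdős 592, positive side: packed claims
-/

namespace MPb6P

/-! ### Tables of states -/

/-- the table `g` accepts `w` from the state `q` with the parity `p` -/
def SG (g : ℕ → SR) : List ℕ → ℕ → ℕ → Prop
  | [], p, q => p = 1 ∧ (g q).f ≠ 0
  | c :: w, p, q => ∃ t, ((g q).m p c).testBit t = true ∧ SG g w (1 - p) ((g q).b + t)

/-! ### Sets -/

/-- members of the set with the node `n` of depth `d` -/
def inS (T : BT ℕ) (W : ℕ) : ℕ → ℕ → ℕ → Prop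
  | 0, n, q => ∃ e, n = e + 1 ∧ q = e % W
  | d + 1, n, q => (Nat.ble n (thr T d) = true ∧ inS T W d n q) ∨ (Nat.ble n (thr T d) = false ∧
      ((inS T W d (r64 80 T n % 1048576) q ∨ inS T W d ((r64 80 T n >>> 20) % 1048576) q)
      ∨ (inS T W d ((r64 80 T n >>> 40) % 1048576) q ∨ inS T W d (r64 80 T n >>> 60) q)))

/-- members of the set `r` -/
def inR (T : BT ℕ) (W r q : ℕ) : Prop := inS T W (r / 1048576) (r % 1048576) q

theorem inS_lt {T : BT ℕ} {W : ℕ} (hW : 0 < W) : ∀ {d n q : ℕ}, inS T W d n q → q < W := by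
  intro d
  induction d with
  | zero =>
    rintro n q ⟨e, _, rfl⟩
    exact Nat.mod_lt _ hW
  | succ d ih =>
    rintro n q (⟨_, h⟩ | ⟨_, (h | h) | (h | h)⟩) <;> exact ih h

theorem one_shl_bit {a t : ℕ} : (1 <<< a).testBit t = true ↔ t = a := by
  rw [Nat.one_shiftLeft, Nat.testBit_two_pow, decide_eq_true_eq]
  exact eq_comm

theorem um_bit (T : BT ℕ) (W : ℕ) : ∀ d n t, (um T W d n).testBit t = true ↔ inS T W d n t := by
  intro d
  induction d with
  | zero =>
    intro n t
    cases n with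
    | zero =>
      show (0 : ℕ).testBit t = true ↔ ∃ e, 0 = e + 1 ∧ _
      rw [Nat.zero_testBit]
      simp
    | succ e =>
      show (1 <<< (e % W)).testBit t = true ↔ ∃ e', e + 1 = e' + 1 ∧ _
      rw [one_shl_bit]
      constructor
      · rintro rfl
        exact ⟨e, rfl, rfl⟩
      · rintro ⟨e', h, rfl⟩
        rw [Nat.succ.inj h]
  | succ d ih =>
    intro n t
    have hd : um T W (d + 1) n = Bool.rec (motive := fun _ => ℕ) (frc (r64 80 T n) (lr4 (um T W d)))
      (um T W d n) (Nat.ble n (thr T d)) := rfl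
    rw [hd]
    cases hb : Nat.ble n (thr T d) with
    | false =>
      show ((um T W d (r64 80 T n % 1048576) ||| um T W d ((r64 80 T n >>> 20) % 1048576)) |||
        (um T W d ((r64 80 T n >>> 40) % 1048576) ||| um T W d (r64 80 T n >>> 60))).testBit t
          = true ↔ _
      rw [Nat.testBit_or, Nat.testBit_or, Nat.testBit_or, Bool.or_eq_true, Bool.or_eq_true,
        Bool.or_eq_true, ih, ih, ih, ih]
      constructor
      · exact fun h => Or.inr ⟨hb, h⟩
      · rintro (⟨h, _⟩ | ⟨_, h⟩)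
        · rw [hb] at h
          exact absurd h (by decide)
        · exact h
    | true =>
      show (um T W d n).testBit t = true ↔ _
      rw [ih]
      constructor
      · exact fun h => Or.inl ⟨hb, h⟩
      · rintro (⟨_, h⟩ | ⟨h, _⟩)
        · exact h
        · rw [hb] at h
          exact absurd h (by decide)

theorem us_bit (T : BT ℕ) (W : ℕ) (s : ℕ → ℕ) : ∀ d n t, (us T W s d n).testBit t = true ↔
    ∃ q, inS T W d n q ∧ (s q).testBit t = true := by
  intro d
  induction d with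
  | zero =>
    intro n t
    cases n with
    | zero =>
      show (0 : ℕ).testBit t = true ↔ ∃ q, (∃ e, 0 = e + 1 ∧ _) ∧ _
      rw [Nat.zero_testBit]
      simp
    | succ e =>
      show (s (e % W)).testBit t = true ↔ ∃ q, (∃ e', e + 1 = e' + 1 ∧ _) ∧ _
      constructor
      · intro h
        exact ⟨_, ⟨e, rfl, rfl⟩, h⟩
      · rintro ⟨q, ⟨e', h, rfl⟩, h2⟩
        rw [Nat.succ.inj h]
        exact h2
  | succ d ih =>
    intro n t
    have hd : us T W s (d + 1) n = Bool.rec (motive := fun _ => ℕ)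
      (frc (r64 80 T n) (lr4 (us T W s d))) (us T W s d n) (Nat.ble n (thr T d)) := rfl
    rw [hd]
    cases hb : Nat.ble n (thr T d) with
    | false =>
      show ((us T W s d (r64 80 T n % 1048576) ||| us T W s d ((r64 80 T n >>> 20) % 1048576)) |||
        (us T W s d ((r64 80 T n >>> 40) % 1048576) ||| us T W s d (r64 80 T n >>> 60))).testBit t
          = true ↔ _
      rw [Nat.testBit_or, Nat.testBit_or, Nat.testBit_or, Bool.or_eq_true, Bool.or_eq_true,
        Bool.or_eq_true, ih, ih, ih, ih]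
      constructor
      · rintro ((⟨q, h1, h2⟩ | ⟨q, h1, h2⟩) | (⟨q, h1, h2⟩ | ⟨q, h1, h2⟩))
        · exact ⟨q, Or.inr ⟨hb, Or.inl (Or.inl h1)⟩, h2⟩
        · exact ⟨q, Or.inr ⟨hb, Or.inl (Or.inr h1)⟩, h2⟩
        · exact ⟨q, Or.inr ⟨hb, Or.inr (Or.inl h1)⟩, h2⟩
        · exact ⟨q, Or.inr ⟨hb, Or.inr (Or.inr h1)⟩, h2⟩
      · rintro ⟨q, (⟨h, _⟩ | ⟨_, (h1 | h1) | (h1 | h1)⟩), h2⟩
        · rw [hb] at h
          exact absurd h (by decide)
        · exact Or.inl (Or.inl ⟨q, h1, h2⟩)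
        · exact Or.inl (Or.inr ⟨q, h1, h2⟩)
        · exact Or.inr (Or.inl ⟨q, h1, h2⟩)
        · exact Or.inr (Or.inr ⟨q, h1, h2⟩)
    | true =>
      show (us T W s d n).testBit t = true ↔ _
      rw [ih]
      constructor
      · rintro ⟨q, h1, h2⟩
        exact ⟨q, Or.inl ⟨hb, h1⟩, h2⟩
      · rintro ⟨q, (⟨_, h1⟩ | ⟨h, _⟩), h2⟩
        · exact ⟨q, h1, h2⟩
        · rw [hb] at h
          exact absurd h (by decide)

theorem umR_bit (T : BT ℕ) (W r t : ℕ) : (umR T W r).testBit t = true ↔ inR T W r t :=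
  um_bit T W (r / 1048576) (r % 1048576) t

theorem usR_bit (T : BT ℕ) (W : ℕ) (s : ℕ → ℕ) (r t : ℕ) : (usR T W s r).testBit t = true ↔
    ∃ q, inR T W r q ∧ (s q).testBit t = true :=
  us_bit T W s (r / 1048576) (r % 1048576) t

/-! ### Lanes -/

/-- all bits are below `W` -/
def Bd (W a : ℕ) : Prop := ∀ t, a.testBit t = true → t < W

theorem Bd.ff {W a t : ℕ} (h : Bd W a) (ht : W ≤ t) : a.testBit t = false := by
  rw [Bool.eq_false_iff]
  intro h1
  exact absurd (h t h1) (not_lt.2 ht)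

theorem sl_lo {W a Y t : ℕ} (ht : t < W) : (a ||| (Y <<< W)).testBit t = a.testBit t := by
  rw [Nat.testBit_or, Nat.testBit_shiftLeft, decide_eq_false (not_le.2 ht), Bool.false_and,
    Bool.or_false]

theorem sl_hi {W a Y t : ℕ} (ha : Bd W a) : (a ||| (Y <<< W)).testBit (W + t) = Y.testBit t := by
  rw [Nat.testBit_or, Nat.testBit_shiftLeft, ha.ff (Nat.le_add_right _ _),
    decide_eq_true (Nat.le_add_right _ _), Nat.add_sub_cancel_left, Bool.true_and, Bool.false_or]

/-- one of three -/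
def s3 (a b c : ℕ) : ℕ → ℕ
  | 0 => a
  | 1 => b
  | _ => c

theorem pk3_eq (W a b c : ℕ) : pk3 W a b c = pk4 W a b c 0 := by
  show a ||| ((b ||| (c <<< W)) <<< W) = a ||| ((b ||| ((c ||| (0 <<< W)) <<< W)) <<< W)
  rw [Nat.zero_shiftLeft, Nat.or_zero]

theorem pk4_bit {W a b c d i t : ℕ} (ha : Bd W a) (hb : Bd W b) (hi : i < 3) (ht : t < W) :
    (pk4 W a b c d).testBit (i * W + t) = (s3 a b c i).testBit t := by
  show (a ||| ((b ||| ((c ||| (d <<< W)) <<< W)) <<< W)).testBit (i * W + t) = _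
  rcases i with _ | _ | _ | i
  · rw [Nat.zero_mul, Nat.zero_add, sl_lo ht]; rfl
  · rw [Nat.zero_add, Nat.one_mul, sl_hi ha, sl_lo ht]; rfl
  · rw [show (0 + 1 + 1) * W + t = W + (W + t) by ring, sl_hi ha, sl_hi hb, sl_lo ht]; rfl
  · omega

theorem pk4_top {W a b c d t : ℕ} (ha : Bd W a) (hb : Bd W b) (hc : Bd W c) :
    (pk4 W a b c d).testBit (3 * W + t) = d.testBit t := by
  show (a ||| ((b ||| ((c ||| (d <<< W)) <<< W)) <<< W)).testBit (3 * W + t) = _
  rw [show 3 * W + t = W + (W + (W + t)) by ring, sl_hi ha, sl_hi hb, sl_hi hc]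

theorem pk3_bit {W a b c i t : ℕ} (ha : Bd W a) (hb : Bd W b) (hi : i < 3) (ht : t < W) :
    (pk3 W a b c).testBit (i * W + t) = (s3 a b c i).testBit t := by
  rw [pk3_eq, pk4_bit ha hb hi ht]

theorem s3_bd {W a b c : ℕ} (ha : Bd W a) (hb : Bd W b) (hc : Bd W c) (i : ℕ) :
    Bd W (s3 a b c i) := by
  rcases i with _ | _ | i
  · exact ha
  · exact hb
  · exact hc

/-- `s` packs the successors for the parity `p` -/
structure SPk (g : ℕ → SR) (W p : ℕ) (s : ℕ → ℕ) : Prop where
  u : ∀ q i t, i < 3 → ((g q).m p (i + 1)).testBit t = true → (g q).b + t < W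
  l : ∀ q i t, i < 3 → t < W → ((s q).testBit (i * W + t) = true ↔
    ∃ u, t = (g q).b + u ∧ ((g q).m p (i + 1)).testBit u = true)
  f : p = 1 → ∀ q, ((s q).testBit (3 * W) = true ↔ (g q).f ≠ 0)

/-- a successor in the packed union -/
theorem SPk.sg {g : ℕ → SR} {W p : ℕ} {s : ℕ → ℕ} (hs : SPk g W p s) {T : BT ℕ} {r i t : ℕ}
    (hi : i < 3) (ht : t < W) {w : List ℕ} (h : (usR T W s r).testBit (i * W + t) = true)
    (h2 : SG g w (1 - p) t) : ∃ q, inR T W r q ∧ SG g ((i + 1) :: w) p q := by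
  obtain ⟨q, h3, h4⟩ := (usR_bit _ _ _ _ _).1 h
  obtain ⟨u, rfl, h5⟩ := (hs.l q i t hi ht).1 h4
  exact ⟨q, h3, u, h5, h2⟩

theorem SPk.gs {g : ℕ → SR} {W p : ℕ} {s : ℕ → ℕ} (hs : SPk g W p s) {T : BT ℕ} {r i : ℕ}
    (hi : i < 3) {w : List ℕ} {q : ℕ} (hq : inR T W r q) (h : SG g ((i + 1) :: w) p q) :
    ∃ t, t < W ∧ (usR T W s r).testBit (i * W + t) = true ∧ SG g w (1 - p) t := by
  obtain ⟨u, h1, h2⟩ := h
  have h3 := hs.u q i u hi h1
  exact ⟨_, h3, (usR_bit _ _ _ _ _).2 ⟨q, hq, (hs.l q i _ hi h3).2 ⟨u, rfl, h1⟩⟩, h2⟩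

/-! ### Claims -/

/-- the meaning of the claim with the record `r` for the parity `p` -/
def COk (g : ℕ → SR) (T : BT ℕ) (W : ℕ) (X : List PE) (w : List ℕ) (p r : ℕ) : Prop :=
  AcS X w p (r % 268435456 / 2) →
    (r % 2 = 0 → ∃ q, inR T W ((r >>> 28) % 1073741824) q ∧ SG g w p q) →
    ∃ q, inR T W ((r >>> 58) % 1073741824) q ∧ SG g w p q

theorem dsb_spec {a b : ℕ} (h : dsb a b = 0) {t : ℕ} (ht : a.testBit t = true) :
    b.testBit t = true := by
  have h' : a ^^^ (a &&& b) = 0 := h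
  have h2 : (a ^^^ (a &&& b)).testBit t = false := by rw [h', Nat.zero_testBit]
  rw [Nat.testBit_xor, Nat.testBit_and, ht] at h2
  cases hb : b.testBit t
  · rw [hb] at h2; exact Bool.noConfusion h2
  · rfl

theorem lor_zero {a b : ℕ} (h : Nat.lor a b = 0) : a = 0 ∧ b = 0 := by
  by_contra h1
  have : a ≠ 0 ∨ b ≠ 0 := by
    by_contra h2
    push Not at h2
    exact h1 h2
  exact lor_ne_zero.2 this h

theorem mV_bit {W : ℕ} {T C : BT ℕ} {j t : ℕ} : (mV W T C j).testBit t = true ↔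
    inR T W ((r64 149 C j >>> 58) % 1073741824) t :=
  umR_bit T W ((r64 149 C j >>> 58) % 1073741824) t

theorem mL_bit {W : ℕ} {T C : BT ℕ} {j t : ℕ} : (mL W T C j).testBit t = true ↔
    inR T W ((r64 149 C j >>> 28) % 1073741824) t :=
  umR_bit T W ((r64 149 C j >>> 28) % 1073741824) t

theorem mV_bd {W : ℕ} (hW : 0 < W) {T C : BT ℕ} {j : ℕ} : Bd W (mV W T C j) :=
  fun _ ht => inS_lt hW (mV_bit.1 ht)

theorem mL_bd {W : ℕ} (hW : 0 < W) {T C : BT ℕ} {j : ℕ} : Bd W (mL W T C j) :=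
  fun _ ht => inS_lt hW (mL_bit.1 ht)

theorem full_bd (W : ℕ) : Bd W (2 ^ W - 1) := by
  intro t ht
  rw [Nat.testBit_two_pow_sub_one, decide_eq_true_eq] at ht
  exact ht

theorem mM_bd {W : ℕ} (hW : 0 < W) {T C : BT ℕ} {j : ℕ} : Bd W (mM W T C j) := by
  show Bd W (Nat.rec (motive := fun _ => ℕ) (mL W T C j) (fun _ _ => 2 ^ W - 1)
    (r64 149 C j % 2))
  rcases Nat.mod_two_eq_zero_or_one (r64 149 C j) with h | h
  · rw [h]; exact mL_bd hW
  · rw [h]; exact full_bd W

theorem mM_zero {W : ℕ} {T C : BT ℕ} {j : ℕ} (h : r64 149 C j % 2 = 0) :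
    mM W T C j = mL W T C j := by
  show Nat.rec (motive := fun _ => ℕ) (mL W T C j) (fun _ _ => 2 ^ W - 1)
    (r64 149 C j % 2) = _
  rw [h]
  rfl

theorem mod_bit {a b t : ℕ} (h : t < b) : (a % 2 ^ b).testBit t = a.testBit t := by
  rw [Nat.testBit_mod_two_pow, decide_eq_true h, Bool.true_and]

theorem yq_bd {C : BT ℕ} {j : ℕ} : Bd 28 (yq C j) := by
  intro t ht
  have h : (r64 149 C j % 2 ^ 28).testBit t = true := ht
  rw [Nat.testBit_mod_two_pow, Bool.and_eq_true, decide_eq_true_eq] at h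
  exact h.1

theorem half_bit (a t : ℕ) : (a / 2).testBit t = a.testBit (t + 1) := by
  rw [Nat.testBit_succ]

/-- packed copies -/
theorem mulK {z : ℕ} (hz : z < 268435456) : z * 0x100000010000001 = pk3 28 z z z := by
  show _ = z ||| ((z ||| (z <<< 28)) <<< 28)
  have h1 : z ||| (z <<< 28) = 2 ^ 28 * z + z := by
    rw [Nat.shiftLeft_eq, Nat.mul_comm z, Nat.or_comm]
    exact (Nat.two_pow_add_eq_or_of_lt (i := 28) hz z).symm
  have h2 : z ||| ((2 ^ 28 * z + z) <<< 28) = 2 ^ 28 * (2 ^ 28 * z + z) + z := by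
    rw [Nat.shiftLeft_eq, Nat.mul_comm _ (2 ^ 28), Nat.or_comm]
    exact (Nat.two_pow_add_eq_or_of_lt (i := 28) hz _).symm
  rw [h1, h2]
  ring

theorem bd_of_lt {W a : ℕ} (h : a < 2 ^ W) : Bd W a := by
  intro t ht
  by_contra h1
  rw [Nat.testBit_lt_two_pow (lt_of_lt_of_le h (Nat.pow_le_pow_right (by norm_num) (not_lt.1 h1)))]
    at ht
  exact Bool.noConfusion ht

theorem s3_same (a i : ℕ) : s3 a a a i = a := by
  rcases i with _ | _ | i <;> rfl

theorem s3_map (f : ℕ → ℕ) (a b c i : ℕ) : f (s3 a b c i) = s3 (f a) (f b) (f c) i := by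
  rcases i with _ | _ | i <;> rfl

/-- the packed contexts contain the contexts -/
theorem yst_spec {z : ℕ} (hz : z < 268435456) {s1 s2 s3' u1 u2 u3 : ℕ} (hs1 : Bd 27 s1)
    (hs2 : Bd 27 s2) (hu1 : Bd 27 u1) (hu2 : Bd 27 u2) (hu3 : Bd 27 u3) (hs3 : Bd 27 s3') {i : ℕ}
    (hi : i < 3) {t : ℕ} (ht : (stpN (s3 s1 s2 s3' i) (s3 u1 u2 u3 i) (z / 2)).testBit t = true) :
    t < 27 ∧ (yst (pk3 28 (2 * s1 + 1) (2 * s2 + 1) (2 * s3' + 1))
      (pk3 28 (2 * u1) (2 * u2) (2 * u3)) z).testBit (i * 28 + (t + 1)) = true := by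
  have bs : ∀ {a : ℕ}, Bd 27 a → Bd 28 (2 * a + 1) := by
    intro a ha t ht
    rcases t with _ | t
    · omega
    · rw [Nat.testBit_succ, show (2 * a + 1) / 2 = a by omega] at ht
      have := ha t ht; omega
  have bu : ∀ {a : ℕ}, Bd 27 a → Bd 28 (2 * a) := by
    intro a ha t ht
    rcases t with _ | t
    · omega
    · rw [Nat.testBit_succ, show (2 * a) / 2 = a by omega] at ht
      have := ha t ht; omega
  have hS : ∀ {t}, t + 1 < 28 → (pk3 28 (2 * s1 + 1) (2 * s2 + 1) (2 * s3' + 1)).testBit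
      (i * 28 + (t + 1)) = (s3 s1 s2 s3' i).testBit t := by
    intro t ht
    rw [pk3_bit (bs hs1) (bs hs2) hi ht, ← s3_map (fun a => 2 * a + 1), Nat.testBit_succ]
    congr 1
    show (2 * s3 s1 s2 s3' i + 1) / 2 = _
    omega
  have hU : ∀ {t}, t + 1 < 28 → (pk3 28 (2 * u1) (2 * u2) (2 * u3)).testBit
      (i * 28 + (t + 1)) = (s3 u1 u2 u3 i).testBit t := by
    intro t ht
    rw [pk3_bit (bu hu1) (bu hu2) hi ht, ← s3_map (fun a => 2 * a), Nat.testBit_succ]
    congr 1
    show (2 * s3 u1 u2 u3 i) / 2 = _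
    omega
  have hzb : Bd 28 z := bd_of_lt (by simpa using hz)
  have hK : ∀ {t}, t < 28 → (z * 0x100000010000001).testBit (i * 28 + t) = z.testBit t := by
    intro t ht
    rw [mulK hz, pk3_bit hzb hzb hi ht, s3_same]
  rw [stpN_bit] at ht
  show t < 27 ∧ (((z * 0x100000010000001) &&& pk3 28 (2 * s1 + 1) (2 * s2 + 1) (2 * s3' + 1)) |||
    ((2 * (z * 0x100000010000001)) &&& pk3 28 (2 * u1) (2 * u2) (2 * u3))).testBit
      (i * 28 + (t + 1)) = true
  rcases ht with ⟨h1, h2⟩ | ⟨t', rfl, h1, h2⟩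
  · have ht := (s3_bd hs1 hs2 hs3 i) t h2
    refine ⟨ht, ?_⟩
    rw [half_bit] at h1
    rw [Nat.testBit_or, Nat.testBit_and, hK (by omega), hS (by omega), h1, h2]
    rfl
  · have ht := (s3_bd hu1 hu2 hu3 i) _ h2
    refine ⟨ht, ?_⟩
    rw [half_bit] at h1
    have h3 : (2 * (z * 0x100000010000001)).testBit (i * 28 + (t' + 1 + 1)) = true := by
      rw [show i * 28 + (t' + 1 + 1) = (i * 28 + (t' + 1)) + 1 by ring]
      exact (testBit_dbl _ _).2 ⟨_, rfl, by rw [hK (by omega)]; exact h1⟩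
    rw [Nat.testBit_or, Nat.testBit_and, Nat.testBit_and, h3, hU (by omega), h2]
    simp

/-- the kind is in the packed contexts -/
theorem yst_zero {z : ℕ} (hz : z < 268435456) {s1 s2 s3' u : ℕ} (hs1 : Bd 27 s1)
    (hs2 : Bd 27 s2) {i : ℕ} (hi : i < 3) (hz0 : z.testBit 0 = true) :
    (yst (pk3 28 (2 * s1 + 1) (2 * s2 + 1) (2 * s3' + 1)) u z).testBit (i * 28 + 0) = true := by
  have bs : ∀ {a : ℕ}, Bd 27 a → Bd 28 (2 * a + 1) := by
    intro a ha t ht
    rcases t with _ | t
    · omega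
    · rw [Nat.testBit_succ, show (2 * a + 1) / 2 = a by omega] at ht
      have := ha t ht; omega
  have hzb : Bd 28 z := bd_of_lt (by simpa using hz)
  show (((z * 0x100000010000001) &&& pk3 28 (2 * s1 + 1) (2 * s2 + 1) (2 * s3' + 1)) |||
    ((2 * (z * 0x100000010000001)) &&& u)).testBit (i * 28 + 0) = true
  have h1 : (z * 0x100000010000001).testBit (i * 28 + 0) = true := by
    rw [mulK hz, pk3_bit hzb hzb hi (by omega), s3_same]; exact hz0
  have h2 : (pk3 28 (2 * s1 + 1) (2 * s2 + 1) (2 * s3' + 1)).testBit (i * 28 + 0) = true := by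
    rw [pk3_bit (bs hs1) (bs hs2) hi (by omega), ← s3_map (fun a => 2 * a + 1),
      Nat.testBit_zero, decide_eq_true_eq]
    show (2 * s3 s1 s2 s3' i + 1) % 2 = 1
    omega
  rw [Nat.testBit_or, Nat.testBit_and, h1, h2]
  rfl


/-! ### Letters -/

/-- the hypothesis for the claims of the other parity -/
def CAll (g : ℕ → SR) (T C : BT ℕ) (W : ℕ) (X : List PE) (w : List ℕ) (p : ℕ) : Prop :=
  ∀ j, COk g T W X w p (r64 149 C j)

/-- single reference: the context `s`, the set `A` of successors of `V`, the set `L` of successors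
of `L` -/
theorem sgl_spec {g : ℕ → SR} {T C : BT ℕ} {W : ℕ} {X : List PE} {w : List ℕ} {p' j a : ℕ}
    (hT : CAll g T C W X w p') {P : Prop} (hs : AcS X w p' (yq C j / 2))
    (ha : a = 1 → r64 149 C j % 2 = 1) (ha2 : a = 0 ∨ a = 1)
    (hV : ∀ q, (mV W T C j).testBit q = true → SG g w p' q → P)
    (hL : a = 0 → ∃ q, SG g w p' q ∧ (P ∨ (mM W T C j).testBit q = true)) : P := by
  have h1 := hT j
  have h2 : r64 149 C j % 2 = 0 → P ∨
      ∃ q, inR T W ((r64 149 C j >>> 28) % 1073741824) q ∧ SG g w p' q := by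
    intro h0
    have ha0 : a = 0 := by
      rcases ha2 with h | h
      · exact h
      · have := ha h; omega
    obtain ⟨q, h3, h4 | h4⟩ := hL ha0
    · exact Or.inl h4
    · rw [mM_zero h0, mL_bit] at h4
      exact Or.inr ⟨q, h4, h3⟩
  by_cases hP : P
  · exact hP
  · obtain ⟨q, h5, h6⟩ := h1 hs (fun h0 => (h2 h0).resolve_left hP)
    exact hV q (mV_bit.2 h5) h6

/-- lists of references -/
theorem edy_spec {g : ℕ → SR} {X : List PE} {w : List ℕ} {T C : BT ℕ} {W p : ℕ}
    (hT : CAll g T C W X w p) {x a L A s : ℕ} (hxs : Ac X w p s) {P : Prop}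
    (hL : a = 0 → ∃ q, L.testBit q = true ∧ SG g w p q)
    (hA : ∀ q, A.testBit q = true → SG g w p q → P) :
    ∀ (n l need cm acc : ℕ), edy W T C x a L A n l need cm acc = true →
      need.testBit s = true → (cm.testBit s = true → ∀ q, acc.testBit q = true →
        SG g w p q → P) → P := by
  intro n
  induction n with
  | zero => intro l need cm acc h; exact Bool.noConfusion (show false = true from h)
  | succ n ih =>
    intro l need cm acc h hn hc
    have hLa : Nat.beq (Nat.land L acc) L = true → a = 0 →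
        ∃ q, acc.testBit q = true ∧ SG g w p q := by
      intro e1 e2
      obtain ⟨t, h1, h2⟩ := hL e2
      exact ⟨t, land_sub e1 h1, h2⟩
    rcases l with _ | l
    · have h' : edE a L need cm acc = true := h
      unfold edE at h'
      rcases h1 : Nat.beq need 0 with _ | _
      · rw [h1] at h'
        rcases h2 : Nat.beq a 0 with _ | _
        · rw [h2] at h'; exact Bool.noConfusion (show false = true from h')
        · rw [h2] at h'
          rcases h3 : Nat.beq (Nat.land L acc) L with _ | _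
          · rw [h3] at h'; exact Bool.noConfusion (show false = true from h')
          · rw [h3] at h'
            have h4 : Nat.beq (Nat.land need cm) need = true := h'
            obtain ⟨q, h5, h6⟩ := hLa h3 (beq_eq.1 h2)
            exact hc (land_sub h4 hn) q h5 h6
      · rw [beq_eq] at h1
        rw [h1, Nat.zero_testBit] at hn
        exact Bool.noConfusion hn
    · have h' : edJ W T C x a L A (edy W T C x a L A n) (l + 1) need cm acc
          ((l + 1) % 1048576) = true := h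
      generalize (l + 1) % 1048576 = j at h'
      unfold edJ at h'
      rcases h1 : Nat.beq j 1048575 with _ | _
      · rw [h1] at h'
        have h2 : edR W T C x A (edy W T C x a L A n) (l + 1) need cm acc j = true := h'
        unfold edR at h2
        rcases h3 : Nat.beq (Nat.land (mV W T C j) acc) (mV W T C j) with _ | _
        · rw [h3] at h2; exact Bool.noConfusion (show false = true from h2)
        · rw [h3] at h2
          have hV : (cm.testBit s = true) → (∃ q, inR T W ((r64 149 C j >>> 58) % 1073741824) q ∧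
              SG g w p q) → P := by
            rintro hcm ⟨q, h4, h5⟩
            exact hc hcm q (land_sub h3 (mV_bit.2 h4)) h5
          rcases Nat.mod_two_eq_zero_or_one (r64 149 C j) with h4 | h4
          · rw [show Nat.mod (r64 149 C j) 2 = 0 from h4] at h2
            have h5 : edy W T C x a L A n ((l + 1) / 1048576) need (cm &&& (yq C j / 2))
              (acc ||| mL W T C j) = true := h2
            refine ih _ _ _ _ h5 hn (fun hcm => ?_)
            rw [Nat.testBit_and, Bool.and_eq_true] at hcm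
            intro q hq hs
            rw [Nat.testBit_or, Bool.or_eq_true] at hq
            rcases hq with hq | hq
            · exact hc hcm.1 q hq hs
            · exact hV hcm.1 (hT j ⟨s, hcm.2, hxs⟩ (fun _ => ⟨q, mL_bit.1 hq, hs⟩))
          · rw [show Nat.mod (r64 149 C j) 2 = 1 from h4] at h2
            have h5 : edy W T C x a L A n ((l + 1) / 1048576)
              (need ^^^ (need &&& (cm &&& (yq C j / 2)))) x A = true := h2
            rcases hcb : (cm &&& (yq C j / 2)).testBit s with _ | _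
            · exact ih _ _ _ _ h5 (xor_land_bit hn hcb) (fun _ => hA)
            · rw [Nat.testBit_and, Bool.and_eq_true] at hcb
              exact hV hcb.1 (hT j ⟨s, hcb.2, hxs⟩ (fun h0 => by omega))
      · rw [h1] at h'
        rcases h2 : Nat.beq a 0 with _ | _
        · rw [h2] at h'; exact Bool.noConfusion (show false = true from h')
        · rw [h2] at h'
          rcases h3 : Nat.beq (Nat.land L acc) L with _ | _
          · rw [h3] at h'; exact Bool.noConfusion (show false = true from h')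
          · rw [h3] at h'
            have h5 : edy W T C x a L A n ((l + 1) / 1048576) (need ^^^ (need &&& cm)) x A
              = true := h'
            rcases hcb : cm.testBit s with _ | _
            · exact ih _ _ _ _ h5 (xor_land_bit hn hcb) (fun _ => hA)
            · obtain ⟨q, h6, h7⟩ := hLa h3 (beq_eq.1 h2)
              exact hc hcb q h6 h7

theorem mlt_spec {g : ℕ → SR} {X : List PE} {w : List ℕ} {T C : BT ℕ} {W p : ℕ}
    (hT : CAll g T C W X w p) {x a L A l s : ℕ} (hxs : Ac X w p s) (hx : x.testBit s = true)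
    {P : Prop} (hL : a = 0 → ∃ q, L.testBit q = true ∧ SG g w p q)
    (hA : ∀ q, A.testBit q = true → SG g w p q → P) (h : mlt W T C a L A x l = 0) : P := by
  rcases x with _ | x
  · rw [Nat.zero_testBit] at hx; exact Bool.noConfusion hx
  · have h' : Bool.rec (motive := fun _ => ℕ) 1 0
      (edy W T C (x + 1) a L A 4000 l (x + 1) (x + 1) A) = 0 := h
    rcases h1 : edy W T C (x + 1) a L A 4000 l (x + 1) (x + 1) A with _ | _
    · rw [h1] at h'; exact absurd h' (by norm_num)
    · exact edy_spec hT hxs hL hA _ _ _ _ _ h1 hx (fun _ => hA)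

theorem lan_bit {W i F t : ℕ} : (lan W i F).testBit t = true ↔
    t < W ∧ F.testBit (i * W + t) = true := by
  show ((F >>> (i * W)) % 2 ^ W).testBit t = true ↔ _
  rw [Nat.testBit_mod_two_pow, Nat.testBit_shiftRight, Bool.and_eq_true, decide_eq_true_eq]

/-- the data of one parity -/
structure PData (X : List PE) (p S U fn : ℕ) : Prop where
  y : ∀ z, z < 268435456 → ∀ i, i < 3 → ∀ w, AcS X ((i + 1) :: w) p (z / 2) →
    ∃ s, Ac X w (1 - p) s ∧ s < 27 ∧ (yst S U z).testBit (i * 28 + (s + 1)) = true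
  k : ∀ z, z < 268435456 → ∀ i, i < 3 → z.testBit 0 = true →
    (yst S U z).testBit (i * 28 + 0) = true
  f : ∀ z, AcS X [] p (z / 2) → p = 1 ∧ Nat.land z fn ≠ 0

theorem zfl_zero {fn z : ℕ} (h : Nat.land z fn ≠ 0) : zfl fn z = 0 := by
  unfold zfl
  obtain ⟨k, hk⟩ := Nat.exists_eq_succ_of_ne_zero h
  rw [hk]

theorem cyR_eq (W : ℕ) (T C : BT ℕ) (s : ℕ → ℕ) (S U fn b r : ℕ) :
    cyR W T C s S U fn b r = cyL W T C fn (usR T W s ((r >>> 28) % 1073741824))
      (usR T W s ((r >>> 58) % 1073741824)) (yst S U (r % 268435456)) b r := rfl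

theorem cyL_zero {W : ℕ} {T C : BT ℕ} {fn F G Y b r : ℕ} (h : r >>> 148 = 0) :
    cyL W T C fn F G Y b r = sgR W T C fn F G Y (r % 268435456) ((r >>> 88) % 1048576)
      ((r >>> 108) % 1048576) ((r >>> 128) % 1048576) := by
  unfold cyL
  rw [show Nat.shiftRight r 148 = 0 from h]
  show frc _ _ = _
  rw [frc_eq, frc_eq, frc_eq]
  rfl

theorem cyL_succ {W : ℕ} {T C : BT ℕ} {fn F G Y b r k : ℕ} (h : r >>> 148 = k + 1) :
    cyL W T C fn F G Y b r = mlR W T C fn F G Y (r % 268435456) b ((r >>> 88) % 1048576)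
      ((r >>> 108) % 1048576) ((r >>> 128) % 1048576) := by
  unfold cyL
  rw [show Nat.shiftRight r 148 = k + 1 from h]
  rfl

theorem sgR_zero {W : ℕ} {T C : BT ℕ} {fn F G Y z i1 i2 i3 : ℕ}
    (h : sgR W T C fn F G Y z i1 i2 i3 = 0) : dsb Y (pk3 28 (yq C i1) (yq C i2) (yq C i3)) = 0 ∧
      dsb (pk3 W (mV W T C i1) (mV W T C i2) (mV W T C i3)) G = 0 ∧
      dsb (F ||| (z % 2) * 2 ^ (3 * W))
        (G ||| pk4 W (mM W T C i1) (mM W T C i2) (mM W T C i3) (zfl fn z)) = 0 := by
  unfold sgR at h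
  obtain ⟨h1, h2⟩ := lor_zero h
  obtain ⟨h2, h3⟩ := lor_zero h2
  exact ⟨h1, h2, h3⟩

theorem mlR_zero {W : ℕ} {T C : BT ℕ} {fn F G Y z b i1 i2 i3 : ℕ}
    (h : mlR W T C fn F G Y z b i1 i2 i3 = 0) :
    dsb (F ||| (z % 2) * 2 ^ (3 * W)) (G ||| ((2 ^ (3 * W) - 1) + zfl fn z * 2 ^ (3 * W))) = 0 ∧
      ∀ i, i < 3 → ∃ l, mlt W T C (z % 2) (lan W i F) (lan W i G) (lan 28 i Y / 2) l = 0 := by
  unfold mlR at h
  obtain ⟨h1, h2⟩ := lor_zero h
  obtain ⟨h2, h3⟩ := lor_zero h2
  obtain ⟨h3, h4⟩ := lor_zero h3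
  refine ⟨h1, fun i hi => ?_⟩
  rcases i with _ | _ | _ | i
  · exact ⟨_, h2⟩
  · exact ⟨_, h3⟩
  · exact ⟨_, h4⟩
  · omega

/-- the end of the word -/
theorem cyL_nil {g : ℕ → SR} {T C : BT ℕ} {W p : ℕ} {X : List PE} {s : ℕ → ℕ} {S U fn b r : ℕ}
    (hW : 0 < W) (hs : SPk g W p s) (hD : PData X p S U fn)
    (h : cyR W T C s S U fn b r = 0) : COk g T W X [] p r := by
  intro hx hL
  obtain ⟨hp, hf⟩ := hD.f (r % 268435456) hx
  subst hp
  have hz := zfl_zero hf
  have hr0 : r % 268435456 % 2 = r % 2 := by omega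
  rw [cyR_eq] at h
  generalize hF : usR T W s ((r >>> 28) % 1073741824) = F at h
  generalize hG : usR T W s ((r >>> 58) % 1073741824) = G at h
  -- the common conclusion
  have key : ∀ M, M.testBit (3 * W) = false →
      dsb (F ||| (r % 268435456 % 2) * 2 ^ (3 * W)) (G ||| M) = 0 →
      ∃ q, inR T W ((r >>> 58) % 1073741824) q ∧ SG g [] 1 q := by
    intro M hM hd
    have h1 : (F ||| (r % 268435456 % 2) * 2 ^ (3 * W)).testBit (3 * W) = true := by
      rw [Nat.testBit_or, Bool.or_eq_true]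
      rcases Nat.mod_two_eq_zero_or_one r with h2 | h2
      · left
        obtain ⟨q, h3, h4⟩ := hL h2
        rw [← hF]
        exact (usR_bit _ _ _ _ _).2 ⟨q, h3, (hs.f rfl q).2 h4.2⟩
      · right
        rw [hr0, h2, Nat.one_mul, Nat.testBit_two_pow_self]
    have h3 := dsb_spec hd h1
    rw [Nat.testBit_or, hM, Bool.or_false, ← hG] at h3
    obtain ⟨q, h4, h5⟩ := (usR_bit _ _ _ _ _).1 h3
    exact ⟨q, h4, rfl, (hs.f rfl q).1 h5⟩
  rcases hk : r >>> 148 with _ | k
  · rw [cyL_zero hk] at h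
    obtain ⟨-, -, h2⟩ := sgR_zero h
    refine key _ ?_ h2
    have := pk4_top (W := W) (t := 0) (d := zfl fn (r % 268435456)) (mM_bd hW (T := T) (C := C)
      (j := (r >>> 88) % 1048576)) (mM_bd hW (T := T) (C := C) (j := (r >>> 108) % 1048576))
      (mM_bd hW (T := T) (C := C) (j := (r >>> 128) % 1048576))
    rw [hz, Nat.add_zero, Nat.zero_testBit] at this
    rw [hz]
    exact this
  · rw [cyL_succ hk] at h
    obtain ⟨h2, -⟩ := mlR_zero h
    refine key _ ?_ h2
    rw [hz, Nat.zero_mul, Nat.add_zero, Nat.testBit_two_pow_sub_one,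
      decide_eq_false (lt_irrefl _)]

/-- a letter -/
theorem cyL_cons {g : ℕ → SR} {T C : BT ℕ} {W p : ℕ} {X : List PE} {s : ℕ → ℕ} {S U fn b r : ℕ}
    (hW : 0 < W) (hs : SPk g W p s) (hD : PData X p S U fn)
    (h : cyR W T C s S U fn b r = 0) {w : List ℕ} {i : ℕ} (hi : i < 3)
    (hT : CAll g T C W X w (1 - p)) : COk g T W X ((i + 1) :: w) p r := by
  intro hx hL
  have hzl : r % 268435456 < 268435456 := Nat.mod_lt _ (by norm_num)
  obtain ⟨t, hac, ht, hy⟩ := hD.y _ hzl i hi w hx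
  have hr0 : r % 268435456 % 2 = r % 2 := by omega
  have hk0 : (r % 268435456).testBit 0 = true → (yst S U (r % 268435456)).testBit (i * 28 + 0)
      = true := hD.k _ hzl i hi
  rw [cyR_eq] at h
  have hsg : ∀ {q}, q < W → (usR T W s ((r >>> 58) % 1073741824)).testBit (i * W + q) = true →
      SG g w (1 - p) q → ∃ q', inR T W ((r >>> 58) % 1073741824) q' ∧
        SG g ((i + 1) :: w) p q' := fun h1 h2 h3 => hs.sg hi h1 h2 h3
  have hgs : r % 2 = 0 → ∃ u, u < W ∧ (usR T W s ((r >>> 28) % 1073741824)).testBit (i * W + u)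
      = true ∧ SG g w (1 - p) u := by
    intro ha
    obtain ⟨q, h1, h2⟩ := hL ha
    exact hs.gs hi h1 h2
  generalize usR T W s ((r >>> 28) % 1073741824) = F at h hgs
  generalize usR T W s ((r >>> 58) % 1073741824) = G at h hsg
  generalize yst S U (r % 268435456) = Y at h hy hk0
  rcases hk : r >>> 148 with _ | k
  · -- single references
    rw [cyL_zero hk] at h
    generalize (r >>> 88) % 1048576 = i1 at h
    generalize (r >>> 108) % 1048576 = i2 at h
    generalize (r >>> 128) % 1048576 = i3 at h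
    obtain ⟨d1, d2, d3⟩ := sgR_zero h
    have hyq : ∀ u, u < 28 → Y.testBit (i * 28 + u) = true →
        (yq C (s3 i1 i2 i3 i)).testBit u = true := by
      intro u hu hy
      have := dsb_spec d1 hy
      rw [pk3_bit yq_bd yq_bd hi hu, ← s3_map (yq C)] at this
      exact this
    have hmV : ∀ q, (mV W T C (s3 i1 i2 i3 i)).testBit q = true → q < W ∧
        G.testBit (i * W + q) = true := by
      intro q hq
      have hqW := mV_bd hW q hq
      refine ⟨hqW, dsb_spec d2 ?_⟩
      rw [pk3_bit (mV_bd hW) (mV_bd hW) hi hqW, ← s3_map (mV W T C)]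
      exact hq
    refine sgl_spec (a := r % 2) hT (j := s3 i1 i2 i3 i)
      ⟨t, by rw [half_bit]; exact hyq _ (by omega) hy, hac⟩ ?_
      (Nat.mod_two_eq_zero_or_one r) (fun q hq hs' => ?_) (fun ha => ?_)
    · intro ha
      have h0 : (r % 268435456).testBit 0 = true := by
        rw [Nat.testBit_zero, decide_eq_true_eq, hr0]; exact ha
      have h1 := hyq 0 (by omega) (hk0 h0)
      rw [Nat.testBit_zero, decide_eq_true_eq] at h1
      have h2 : yq C (s3 i1 i2 i3 i) = r64 149 C (s3 i1 i2 i3 i) % 268435456 := rfl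
      rw [h2] at h1
      omega
    · obtain ⟨h1, h2⟩ := hmV q hq
      exact hsg h1 h2 hs'
    · obtain ⟨u, h3, h4, h5⟩ := hgs ha
      refine ⟨u, h5, ?_⟩
      have h6 : (F ||| (r % 268435456 % 2) * 2 ^ (3 * W)).testBit (i * W + u) = true := by
        rw [Nat.testBit_or, h4, Bool.true_or]
      have h8 := dsb_spec d3 h6
      rw [Nat.testBit_or, Bool.or_eq_true, pk4_bit (mM_bd hW) (mM_bd hW) hi h3,
        ← s3_map (mM W T C)] at h8
      rcases h8 with h8 | h8
      · exact Or.inl (hsg h3 h8 h5)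
      · exact Or.inr h8
  · -- lists of references
    rw [cyL_succ hk] at h
    obtain ⟨-, d⟩ := mlR_zero h
    obtain ⟨l, hl⟩ := d i hi
    refine mlt_spec hT (s := t) hac ?_ (fun ha => ?_) (fun q hq hs' => ?_) hl
    · rw [half_bit, lan_bit]
      exact ⟨by omega, hy⟩
    · obtain ⟨u, h3, h4, h5⟩ := hgs (by rw [← hr0]; exact ha)
      exact ⟨u, lan_bit.2 ⟨h3, h4⟩, h5⟩
    · obtain ⟨h1, h2⟩ := lan_bit.1 hq
      exact hsg h1 h2 hs'

end MPb6P
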