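import Pool.Agent.Lib.MP_b6d339_lc.Pos.WTplC
import Pool.Agent.Lib.MP_b6d339_lc.Pos.YRec
import Pool.Agent.Lib.MP_b6d339_lc.Pos.L2

/-!
# Erdős 592, positive side: tables of promises and steps of packed templates
-/

namespace MPb6P

theorem lnQ_bit (T v : ℕ) {k : ℕ} (hk : k < 32) : (lnQ T v).testBit k = T.testBit (32 * v + k) := by
  show ((T >>> (32 * v)) % 4294967296).testBit k = _
  rw [show (4294967296 : ℕ) = 2 ^ 32 by norm_num, Nat.testBit_mod_two_pow, Nat.testBit_shiftRight]
  simp [hk]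

theorem onQ_dec : ∀ t < 2048, onQ.testBit t = decide (t % 32 = 0) := by decide +kernel

set_option exponentiation.threshold 3000 in
theorem onQ_lt : onQ < 2 ^ 2048 := by decide +kernel

theorem onQ_bit (t : ℕ) : onQ.testBit t = true ↔ t < 2048 ∧ t % 32 = 0 := by
  by_cases h : t < 2048
  · rw [onQ_dec t h]; simp [h]
  · have : onQ.testBit t = false := Nat.testBit_lt_two_pow
      (lt_of_lt_of_le onQ_lt (Nat.pow_le_pow_right (by norm_num) (by omega)))
    rw [this]
    simp [h]

theorem taQ_succ (h : ℕ → ℕ) (n : ℕ) :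
    taQ h (n + 1) = taQ h n ||| ((onQ % 2 ^ (32 * h n)) <<< n) := rfl

theorem taQ_bit (h : ℕ → ℕ) : ∀ n, n ≤ 32 → ∀ v k, v < 64 → k < 32 →
    ((taQ h n).testBit (32 * v + k) = true ↔ k < n ∧ v < h k) := by
  intro n
  induction n with
  | zero =>
    intro _ v k _ _
    have : (taQ h 0).testBit (32 * v + k) = false := Nat.zero_testBit _
    rw [this]
    simp
  | succ n ih =>
    intro hn v k hv hk
    rw [taQ_succ, Nat.testBit_lor, Bool.or_eq_true, ih (by omega) v k hv hk,
      Nat.testBit_shiftLeft, Bool.and_eq_true, decide_eq_true_eq, Nat.testBit_mod_two_pow,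
      Bool.and_eq_true, decide_eq_true_eq, onQ_bit]
    constructor
    · rintro (⟨h1, h2⟩ | ⟨h1, h2, h3, h4⟩)
      · exact ⟨by omega, h2⟩
      · have e : k = n := by omega
        subst e
        exact ⟨by omega, by omega⟩
    · rintro ⟨h1, h2⟩
      by_cases e : k = n
      · subst e
        right
        refine ⟨by omega, by omega, by omega, by omega⟩
      · left; exact ⟨by omega, h2⟩

/-- correct tables of the promises `pk 0, …, pk (n - 1)` -/
structure TabOK (pk : ℕ → WProm) (n : ℕ) (S L G : ℕ) : Prop where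
  n32 : n ≤ 32
  s : ∀ v k, v < 64 → k < 32 → ((lnQ S v).testBit k = true ↔ k < n ∧ v ≤ (pk k).sm)
  l : ∀ v k, v < 64 → k < 32 → ((lnQ L v).testBit k = true ↔ k < n ∧ v < (pk k).lm)
  g : ∀ v k, v < 64 → k < 32 → ((lnQ G v).testBit k = true ↔ k < n ∧ v ≤ (pk k).c)

/-- the promise `k` -/
def pkW (r nf E P k : ℕ) : WProm :=
  ⟨r, (E.testBit k).toNat, (P >>> (15 * k)) % 64, (P >>> (15 * k + 6)) % 64,
    (P >>> (15 * k + 12)) % 8, if k < nf then k + 1 else 0⟩

theorem tab_ok (r nf E P n : ℕ) (hn : n ≤ 32) : TabOK (pkW r nf E P) n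
    (taQ (fun k => Nat.succ (Nat.mod (Nat.shiftRight P (Nat.mul 15 k)) 64)) n)
    (taQ (fun k => Nat.mod (Nat.shiftRight P (Nat.add (Nat.mul 15 k) 6)) 64) n)
    (taQ (fun k => Nat.succ (Nat.mod (Nat.shiftRight P (Nat.add (Nat.mul 15 k) 12)) 8)) n) := by
  refine ⟨hn, ?_, ?_, ?_⟩
  · intro v k hv hk
    rw [lnQ_bit _ _ hk, taQ_bit _ n hn v k hv hk]
    exact and_congr_right fun _ => Nat.lt_succ_iff
  · intro v k hv hk
    rw [lnQ_bit _ _ hk, taQ_bit _ n hn v k hv hk]
    rfl
  · intro v k hv hk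
    rw [lnQ_bit _ _ hk, taQ_bit _ n hn v k hv hk]
    exact and_congr_right fun _ => Nat.lt_succ_iff

theorem subN_spec {a b : ℕ} (h : subN a b = true) {t : ℕ} (ht : a.testBit t = true) :
    b.testBit t = true := by
  have h1 : a &&& b = a := beq_eq.1 h
  rw [← h1, Nat.testBit_land] at ht
  simp only [Bool.and_eq_true] at ht
  exact ht.2

theorem subN_ff {a b : ℕ} (h : subN a b = false) : ∃ t, a.testBit t = true ∧ b.testBit t = false := by
  have h1 : a &&& b ≠ a := beq_ff.1 h
  by_contra hc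
  apply h1
  apply Nat.eq_of_testBit_eq
  intro t
  rw [Nat.testBit_land]
  rcases ha : a.testBit t with _ | _
  · rfl
  · rcases hb : b.testBit t with _ | _
    · exact absurd ⟨t, ha, hb⟩ hc
    · rfl

theorem dsb_bit (a b t : ℕ) : (dsb a b).testBit t = (a.testBit t && !b.testBit t) := by
  show (a ^^^ (a &&& b)).testBit t = _
  rw [Nat.testBit_xor, Nat.testBit_land]
  cases a.testBit t <;> cases b.testBit t <;> rfl

/-- step functions: `lo, hi`, the labels `p2, p1` and the flags of the old state, the new label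
and flags -/
abbrev SQn : Type := ℕ → ℕ → ℕ → ℕ → ℕ → ℕ → ℕ → Bool

/-- correct step functions -/
def SQok (C : CT) (R : Fin 3) (e : ℕ) (F : SQn) : Prop :=
  ∀ lo hi p2 p1 fl l fl', lo < 8 → hi < 8 → p2 < 64 → l < 64 → F lo hi p2 p1 fl l fl' = true →
    RStep C R e lo hi ⟨p2, p1, fl⟩ ⟨p1, l, fl'⟩

theorem sqB_ok {C : CT} {R : Fin 3} {e : ℕ} {pk pk' : ℕ → WProm} {n n' nf Em S L G Xm S' L' G' : ℕ}
    (T : TabOK pk n S L G) (T' : TabOK pk' n' S' L' G')
    (hown : ∀ h ∈ C.prom, h.r = R.1 → ∃ k < n, h = pk k ∧ (h.fl = 0 → nf ≤ k) ∧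
      (h.fl ≠ 0 → h.fl = k + 1))
    (hE : ∀ k < n, (pk k).e = e → Em.testBit k = true)
    (hE' : ∀ k, Em.testBit k = true → (pk k).e = e)
    (hX : ∀ k, Xm.testBit k = true → k < n' ∧ pk' k ∈ C.prom ∧ (pk' k).r = (oth R e).1.1 ∧
      (pk' k).e = (oth R e).2) :
    SQok C R e (sqB (C.rl R).us (C.rl R).ct ((C.rl R).al e) Em S L G nf Xm S' L' G') := by
  intro lo hi p2 p1 fl l fl' hlo hhi hp2 hl h
  unfold sqB at h
  simp only [frc_eq, band_eq, bor_eq, bnot_eq, Bool.and_eq_true, Bool.or_eq_true,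
    Bool.not_eq_true', tb_eq] at h
  obtain ⟨h1, h2, h3, h4, h5, h6, h7, h8⟩ := h
  refine ⟨rfl, ble_eq'.1 h1, h2, ?_, h4, h5, ?_, ?_⟩
  · rcases h3 with h3 | h3
    · exact Or.inl (beq_ff.1 h3)
    · exact Or.inr h3
  · rcases h6 with h6 | h6
    · exact Or.inl (ble_eq'.1 h6)
    · right
      obtain ⟨k, k1, k2⟩ := subN_ff h6
      have k1' : ((Xm &&& lnQ G' hi) &&& lnQ L' p2).testBit k = true := k1
      rw [Nat.testBit_land, Nat.testBit_land, Bool.and_eq_true, Bool.and_eq_true] at k1'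
      obtain ⟨⟨c1, c2⟩, c3⟩ := k1'
      obtain ⟨hk, hm, hr, he⟩ := hX k c1
      have hk32 : k < 32 := lt_of_lt_of_le hk T'.n32
      refine ⟨pk' k, hm, ⟨hr, he, ?_, ?_, ?_⟩⟩
      · exact ((T'.g hi k (by omega) hk32).1 c2).2
      · show (pk' k).sm < l
        by_contra hc
        rw [(T'.s l k hl hk32).2 ⟨hk, by omega⟩] at k2
        exact absurd k2 (by decide)
      · exact ((T'.l p2 k hp2 hk32).1 c3).2
  · intro p hp
    have hZ : ∀ k < n, (pk k).e = e → p2 ≤ (pk k).sm → (pk k).lm ≤ l →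
        (dsb (Nat.land Em (lnQ S p2)) (lnQ L l)).testBit k = true := by
      intro k hk he hs hle
      have hk32 : k < 32 := lt_of_lt_of_le hk T.n32
      rw [dsb_bit]
      have a1 : (Em &&& lnQ S p2).testBit k = true := by
        rw [Nat.testBit_land, hE k hk he, (T.s p2 k hp2 hk32).2 ⟨hk, hs⟩]; rfl
      have a2 : (lnQ L l).testBit k = false := by
        rw [← Bool.not_eq_true]
        intro hc
        have := ((T.l l k hl hk32).1 hc).2
        omega
      have a1' : (Nat.land Em (lnQ S p2)).testBit k = true := a1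
      rw [a1', a2]; rfl
    constructor
    · intro hf hr he hs hle
      obtain ⟨k, hk, rfl, hnf, -⟩ := hown p hp hr
      have hk32 : k < 32 := lt_of_lt_of_le hk T.n32
      have z := hZ k hk he hs hle
      by_contra hc
      have g := (T.g (lo + 1) k (by omega) hk32).2 ⟨hk, by omega⟩
      have hW : (Nat.land (dsb (Nat.land Em (lnQ S p2)) (lnQ L l)) (lnQ G (Nat.succ lo))).testBit k
          = true := by
        show ((dsb (Nat.land Em (lnQ S p2)) (lnQ L l)) &&& (lnQ G (lo + 1))).testBit k = true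
        rw [Nat.testBit_land, z, g]; rfl
      have h9 : (Nat.land (dsb (Nat.land Em (lnQ S p2)) (lnQ L l)) (lnQ G (Nat.succ lo))) >>> nf = 0 :=
        beq_eq.1 h7
      have h10 := congrArg (fun x : ℕ => x.testBit (k - nf)) h9
      simp only [Nat.zero_testBit] at h10
      rw [Nat.testBit_shiftRight, show nf + (k - nf) = k by have := hnf hf; omega, hW] at h10
      exact absurd h10 (by decide)
    · intro hf hr hb
      obtain ⟨k, hk, rfl, -, hk1⟩ := hown p hp hr
      have hk32 : k < 32 := lt_of_lt_of_le hk T.n32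
      have e1 : (pk k).fl - 1 = k := by have := hk1 hf; omega
      rw [e1] at hb ⊢
      have h9 := subN_spec h8 hb
      have h10 : (fl ||| ((dsb (Nat.land Em (lnQ S p2)) (lnQ L l)) ^^^
        (Nat.land (dsb (Nat.land Em (lnQ S p2)) (lnQ L l)) (lnQ G (Nat.succ lo))))).testBit k = true := h9
      have h11 : (Nat.land (dsb (Nat.land Em (lnQ S p2)) (lnQ L l)) (lnQ G (Nat.succ lo))).testBit k =
        ((dsb (Nat.land Em (lnQ S p2)) (lnQ L l)).testBit k && (lnQ G (lo + 1)).testBit k) :=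
        Nat.testBit_land _ _ _
      rw [Nat.testBit_lor, Nat.testBit_xor, h11, dsb_bit] at h10
      have h12 : (Nat.land Em (lnQ S p2)).testBit k = (Em.testBit k && (lnQ S p2).testBit k) :=
        Nat.testBit_land _ _ _
      rw [h12] at h10
      rcases hfl : fl.testBit k with _ | _
      · right
        rw [hfl] at h10
        rcases b1 : Em.testBit k with _ | _ <;> rcases b2 : (lnQ S p2).testBit k with _ | _ <;>
          rcases b3 : (lnQ L l).testBit k with _ | _ <;>
          rcases b4 : (lnQ G (lo + 1)).testBit k with _ | _ <;> rw [b1, b2, b3, b4] at h10 <;>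
          first | exact absurd h10 (by decide) | skip
        refine ⟨hE' k b1, ((T.s p2 k hp2 hk32).1 b2).2, ?_, ?_⟩
        · show (pk k).lm ≤ l
          by_contra hc
          rw [(T.l l k hl hk32).2 ⟨hk, by omega⟩] at b3
          exact absurd b3 (by decide)
        · by_contra hc
          rw [(T.g (lo + 1) k (by omega) hk32).2 ⟨hk, by omega⟩] at b4
          exact absurd b4 (by decide)
      · exact Or.inl rfl

end MPb6P
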