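import Pool.Agent.Lib.MP_b6d339_lc.Pos.TQ1

/-!
# Erdős 592, positive side: relations and images of packed templates
-/

namespace MPb6P

/-- state `i` of a role -/
noncomputable def sdQ (S i : ℕ) : RS := ⟨stQ S i % 64, (stQ S i >>> 6) % 64, stQ S i >>> 12⟩

theorem spQ_dec : ∀ q < 16, ∀ d < 213, (spQ q).testBit d = true →
    d % 71 = 0 ∧ q % 4 ≤ d / 71 + 1 ∧ d / 71 + 1 ≤ q / 4 := by decide +kernel

theorem spQ_lt (q : ℕ) : spQ q < 2 ^ 213 := Nat.mod_lt _ (by positivity)

theorem spQ_bit {q d : ℕ} (hq : q < 16) (h : (spQ q).testBit d = true) :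
    ∃ y < 3, d = 71 * y ∧ q % 4 ≤ y + 1 ∧ y + 1 ≤ q / 4 := by
  by_cases hd : d < 213
  · obtain ⟨h1, h2, h3⟩ := spQ_dec q hq d hd h
    exact ⟨d / 71, by omega, by omega, h2, h3⟩
  · rw [Nat.testBit_lt_two_pow (lt_of_lt_of_le (spQ_lt q)
      (Nat.pow_le_pow_right (by norm_num) (by omega)))] at h
    exact absurd h (by decide)

/-- the bit `b` belongs to a step -/
def BitS (C : CT) (R : Fin 3) (e S b : ℕ) : Prop :=
  ∃ i j y lo hi, i < 64 ∧ j < 64 ∧ y < 3 ∧ b = 213 * i + 71 * y + (12 + j) ∧ lo ≤ y + 1 ∧ y + 1 ≤ hi ∧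
    RStep C R e lo hi (sdQ S i) (sdQ S j)

theorem trQ_bit {C : CT} {R : Fin 3} {e : ℕ} {F : SQn} (hF : SQok C R e F) {S t b : ℕ}
    (ht : t < 65536) (h : (trQ F S t).testBit b = true) : BitS C R e S b := by
  have e1 : trQ F S t = Bool.rec (motive := fun _ => ℕ) 0
    ((spQ (t >>> 12)) <<< (213 * (t % 64) + (12 + (t >>> 6) % 64)))
    (band (Nat.beq (stQ S ((t >>> 6) % 64) % 64) ((stQ S (t % 64) >>> 6) % 64))
      (F ((t >>> 12) % 4) (t >>> 14) (stQ S (t % 64) % 64)
        ((stQ S (t % 64) >>> 6) % 64) (stQ S (t % 64) >>> 12) ((stQ S ((t >>> 6) % 64) >>> 6) % 64)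
        (stQ S ((t >>> 6) % 64) >>> 12))) := rfl
  rw [e1] at h
  rcases hb : (band (Nat.beq (stQ S ((t >>> 6) % 64) % 64) ((stQ S (t % 64) >>> 6) % 64))
      (F ((t >>> 12) % 4) (t >>> 14) (stQ S (t % 64) % 64)
        ((stQ S (t % 64) >>> 6) % 64) (stQ S (t % 64) >>> 12) ((stQ S ((t >>> 6) % 64) >>> 6) % 64)
        (stQ S ((t >>> 6) % 64) >>> 12))) with _ | _
  · rw [hb] at h
    have h' : (0 : ℕ).testBit b = true := h
    rw [Nat.zero_testBit] at h'
    exact absurd h' (by decide)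
  · rw [hb] at h
    rw [band_eq, Bool.and_eq_true] at hb
    obtain ⟨c1, c2⟩ := hb
    have c1' := beq_eq.1 c1
    have h' : ((spQ (t >>> 12)) <<< (213 * (t % 64) + (12 + (t >>> 6) % 64))).testBit b = true := h
    rw [Nat.testBit_shiftLeft, Bool.and_eq_true, decide_eq_true_eq] at h'
    obtain ⟨h1, h2⟩ := h'
    have hq : t >>> 12 < 16 := by rw [Nat.shiftRight_eq_div_pow]; omega
    obtain ⟨y, hy, hd, l1, l2⟩ := spQ_bit hq h2
    have e4 : t >>> 14 = (t >>> 12) / 4 := by
      rw [Nat.shiftRight_eq_div_pow, Nat.shiftRight_eq_div_pow, Nat.div_div_eq_div_mul]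
    have hj : (t >>> 6) % 64 < 64 := Nat.mod_lt _ (by norm_num)
    have hi : t % 64 < 64 := Nat.mod_lt _ (by norm_num)
    refine ⟨t % 64, (t >>> 6) % 64, y, (t >>> 12) % 4, t >>> 14, hi, hj, hy, by omega, l1,
      by rw [e4]; exact l2, ?_⟩
    have h3 := hF _ _ _ _ _ _ _ (by omega) (by rw [e4]; omega) (Nat.mod_lt _ (by norm_num))
      (Nat.mod_lt _ (by norm_num)) c2
    have e5 : sdQ S ((t >>> 6) % 64) = ⟨(stQ S (t % 64) >>> 6) % 64,
        (stQ S ((t >>> 6) % 64) >>> 6) % 64, stQ S ((t >>> 6) % 64) >>> 12⟩ := by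
      unfold sdQ
      rw [c1']
    rw [e5]
    exact h3

theorem rowQ_bit {C : CT} {R : Fin 3} {e : ℕ} {F : SQn} (hF : SQok C R e F) {g S T b : ℕ} :
    ∀ n, (rowQ g F S T n).testBit b = true → g.testBit b = true ∨ BitS C R e S b := by
  intro n
  induction n with
  | zero => exact fun h => Or.inl h
  | succ n ih =>
    intro h
    have e1 : rowQ g F S T (n + 1) = rowQ g F S T n ||| trQ F S ((T >>> (16 * n)) % 65536) := rfl
    rw [e1, Nat.testBit_lor, Bool.or_eq_true] at h
    rcases h with h | h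
    · exact ih h
    · exact Or.inr (trQ_bit hF (Nat.mod_lt _ (by norm_num)) h)

/-- correct relations -/
def RowOK (C : CT) (R : Fin 3) (e S r : ℕ) : Prop :=
  ∀ i j y, j < 52 → y < 3 → r.testBit (213 * i + (71 * y + (12 + j))) = true →
    ∃ lo hi, lo ≤ y + 1 ∧ y + 1 ≤ hi ∧ RStep C R e lo hi (sdQ S i) (sdQ S j)

theorem rowQ_ok {C : CT} {R : Fin 3} {e : ℕ} {F : SQn} (hF : SQok C R e F) {g S T n : ℕ}
    (hg : g < 8) : RowOK C R e S (rowQ g F S T n) := by
  intro i j y hj hy h
  rcases rowQ_bit hF n h with h | h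
  · exfalso
    have : g.testBit (213 * i + (71 * y + (12 + j))) = false :=
      Nat.testBit_lt_two_pow (lt_of_lt_of_le hg (show 2 ^ 3 ≤ _ from
        Nat.pow_le_pow_right (by norm_num) (by omega)))
    rw [this] at h
    exact absurd h (by decide)
  · obtain ⟨i', j', y', lo, hi, hi', hj', hy', hb, h1, h2, h3⟩ := h
    have e1 : i = i' := by omega
    have e2 : y = y' := by omega
    have e3 : j = j' := by omega
    subst e1 e2 e3
    exact ⟨lo, hi, h1, h2, h3⟩

theorem imQ_zero (R m n : ℕ) : imQ R m (n + 1) 0 = 0 := rfl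

theorem imQ_succ (R m n y : ℕ) : imQ R m (n + 1) (y + 1) =
    (Bool.rec (motive := fun _ => ℕ) 0 ((R >>> (213 * (y % 64))) % 2 ^ 213) (tb m (y % 64))) |||
      imQ R m n (y / 64) := rfl

theorem imQ_bit {R m b : ℕ} : ∀ n z, (imQ R m n z).testBit b = true →
    b < 213 ∧ ∃ j, m.testBit j = true ∧ R.testBit (213 * j + b) = true := by
  intro n
  induction n with
  | zero =>
    intro z h
    have h' : (0 : ℕ).testBit b = true := h
    rw [Nat.zero_testBit] at h'
    exact absurd h' (by decide)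
  | succ n ih =>
    intro z h
    rcases z with _ | y
    · rw [imQ_zero, Nat.zero_testBit] at h
      exact absurd h (by decide)
    · rw [imQ_succ, Nat.testBit_lor, Bool.or_eq_true] at h
      rcases h with h | h
      · rcases hm : tb m (y % 64) with _ | _
        · rw [hm] at h
          have h' : (0 : ℕ).testBit b = true := h
          rw [Nat.zero_testBit] at h'
          exact absurd h' (by decide)
        · rw [hm] at h
          have h' : ((R >>> (213 * (y % 64))) % 2 ^ 213).testBit b = true := h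
          rw [Nat.testBit_mod_two_pow, Bool.and_eq_true, decide_eq_true_eq,
            Nat.testBit_shiftRight] at h'
          rw [tb_eq] at hm
          exact ⟨h'.1, _, hm, h'.2⟩
      · exact ih _ h

theorem qmQ_succ (p : ℕ → Bool) (n y : ℕ) : qmQ p (n + 1) (y + 1) =
    (Bool.rec (motive := fun _ => ℕ) 0 (1 <<< (y % 64)) (p (y % 64))) |||
      qmQ p n (y / 64) := rfl

theorem qmQ_bit {p : ℕ → Bool} {j : ℕ} : ∀ n z, (qmQ p n z).testBit j = true → p j = true := by
  intro n
  induction n with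
  | zero =>
    intro z h
    have h' : (0 : ℕ).testBit j = true := h
    rw [Nat.zero_testBit] at h'
    exact absurd h' (by decide)
  | succ n ih =>
    intro z h
    rcases z with _ | y
    · have h' : (0 : ℕ).testBit j = true := h
      rw [Nat.zero_testBit] at h'
      exact absurd h' (by decide)
    · rw [qmQ_succ, Nat.testBit_lor, Bool.or_eq_true] at h
      rcases h with h | h
      · rcases hm : p (y % 64) with _ | _
        · rw [hm] at h
          have h' : (0 : ℕ).testBit j = true := h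
          rw [Nat.zero_testBit] at h'
          exact absurd h' (by decide)
        · rw [hm] at h
          have h' : (1 <<< (y % 64)).testBit j = true := h
          rw [one_shl_bit] at h'
          rw [h']
          exact hm
      · exact ih _ h

/-! ### Records -/

theorem mm_dec : ∀ y < 3, ∀ j < 52, (0x3ffffffffffffc00007ffffffffffff80000fffffffffffff000 : ℕ).testBit
    (y * 71 + (12 + j)) = true := by decide +kernel

theorem cm_dec : ∀ y < 3, ∀ u < 7, (0x1fc0000000000000003f80000000000000007f0000000000000000 : ℕ).testBit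
    (y * 71 + (64 + u)) = true := by decide +kernel

theorem cv_dec : ∀ y < 3, ∀ u < 7, (0x100000000000000000200000000000000000400000000000000000 : ℕ).testBit
    (y * 71 + (64 + u)) = decide (u = 6) := by decide +kernel

theorem nxN_lt (dl q y : ℕ) : nxN dl q y < 64 := Nat.mod_lt _ (by norm_num)

theorem kyQ_bd (P n : ℕ) : Bd 71 (kyQ P n) :=
  bd_of_lt (Nat.mod_lt _ (by positivity))

theorem kyQ_bit {P n t : ℕ} (ht : t < 71) : (kyQ P n).testBit t = P.testBit (149 * n + t) := by
  show ((P >>> (149 * n)) % 2 ^ 71).testBit t = _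
  rw [mod_bit ht, Nat.testBit_shiftRight]

theorem dlQ_bit {dl cl y u : ℕ} (hy : y < 3) (hu : u < 7) : (dlQ dl cl).testBit (y * 71 + (64 + u)) =
    (decide (u = 6) || (nxN dl cl (6 * y)).testBit u) := by
  have e : dlQ dl cl = 0x100000000000000000200000000000000000400000000000000000 ||| ((pk3 71 (nxN dl cl 0) (nxN dl cl 6) (nxN dl cl 12)) <<< 64) := rfl
  have b : ∀ z, Bd 71 (nxN dl cl z) := fun z => bd_of_lt (lt_of_lt_of_le (nxN_lt dl cl z) (by norm_num))
  rw [e, Nat.testBit_or, cv_dec y hy u hu, Nat.testBit_shiftLeft,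
    show y * 71 + (64 + u) - 64 = y * 71 + u by omega, pk3_bit (b _) (b _) hy (by omega)]
  have h1 : decide (y * 71 + (64 + u) ≥ 64) = true := decide_eq_true (by omega)
  rw [h1, Bool.true_and]
  congr 2
  rcases y with _ | _ | _ | y
  · rfl
  · rfl
  · rfl
  · omega

/-- successor number -/
def sxQ (r y : ℕ) : ℕ := (r >>> (71 + 10 * y)) % 1024

/-- set of the record -/
def smQ (r : ℕ) : ℕ := (r >>> 12) % 2 ^ 52

/-- class of the record -/
def scQ (r : ℕ) : ℕ := (r >>> 64) % 64

theorem ext6 {a b : ℕ} (ha : a < 64) (hb : b < 64) (h : ∀ u < 6, a.testBit u = b.testBit u) : a = b := by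
  apply Nat.eq_of_testBit_eq
  intro u
  by_cases hu : u < 6
  · exact h u hu
  · have h2 : 2 ^ 6 ≤ 2 ^ u := Nat.pow_le_pow_right (by norm_num) (by omega)
    rw [Nat.testBit_lt_two_pow (by omega), Nat.testBit_lt_two_pow (by omega)]

theorem pcQ_spec {P' R Q dl ac r : ℕ} (h : pcQ P' R Q dl ac r = true) :
    (∀ y < 3, ∀ j < 52, P'.testBit (149 * sxQ r y + (12 + j)) = true →
      (imQ R (smQ r) 8 (r >>> 101)).testBit (71 * y + (12 + j)) = true) ∧
    (∀ y < 3, P'.testBit (149 * sxQ r y + 70) = true ∧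
      (P' >>> (149 * sxQ r y + 64)) % 64 = nxN dl (scQ r) (6 * y)) ∧
    (ac.testBit (scQ r) = true → ∃ j, (smQ r).testBit j = true ∧ Q.testBit j = true) := by
  have h1 : band (subN ((pk3 71 (kyQ P' (sxQ r 0)) (kyQ P' (sxQ r 1)) (kyQ P' (sxQ r 2))) &&&
        0x3ffffffffffffc00007ffffffffffff80000fffffffffffff000) (imQ R (smQ r) 8 (r >>> 101)))
      (band (Nat.beq ((pk3 71 (kyQ P' (sxQ r 0)) (kyQ P' (sxQ r 1)) (kyQ P' (sxQ r 2))) &&&
        0x1fc0000000000000003f80000000000000007f0000000000000000) (dlQ dl (scQ r)))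
      (bor (bnot (tb ac (scQ r))) (bnot (Nat.beq ((smQ r) &&& Q) 0)))) = true := h
  simp only [band_eq, bor_eq, bnot_eq, Bool.and_eq_true, Bool.or_eq_true, Bool.not_eq_true',
    tb_eq] at h1
  obtain ⟨c1, c2, c3⟩ := h1
  have hK : ∀ y < 3, ∀ t < 71, (pk3 71 (kyQ P' (sxQ r 0)) (kyQ P' (sxQ r 1))
      (kyQ P' (sxQ r 2))).testBit (y * 71 + t) = P'.testBit (149 * sxQ r y + t) := by
    intro y hy t ht
    rw [pk3_bit (kyQ_bd _ _) (kyQ_bd _ _) hy ht]
    rcases y with _ | _ | _ | y
    · exact kyQ_bit ht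
    · exact kyQ_bit ht
    · exact kyQ_bit ht
    · omega
  refine ⟨?_, ?_, ?_⟩
  · intro y hy j hj hb
    have h2 := subN_spec c1 (t := y * 71 + (12 + j)) (by
      rw [Nat.testBit_and, hK y hy _ (by omega), hb, mm_dec y hy j hj]; rfl)
    rw [Nat.mul_comm 71 y]
    exact h2
  · intro y hy
    have c2' := beq_eq.1 c2
    have key : ∀ u < 7, P'.testBit (149 * sxQ r y + (64 + u)) =
        (decide (u = 6) || (nxN dl (scQ r) (6 * y)).testBit u) := by
      intro u hu
      rw [← dlQ_bit hy hu, ← c2', Nat.testBit_and, hK y hy _ (by omega), cm_dec y hy u hu,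
        Bool.and_true]
    refine ⟨by rw [show (70 : ℕ) = 64 + 6 by norm_num, key 6 (by norm_num)]; rfl, ?_⟩
    apply ext6 (Nat.mod_lt _ (by norm_num)) (nxN_lt _ _ _)
    intro u hu
    rw [show (64 : ℕ) = 2 ^ 6 by norm_num, mod_bit hu, Nat.testBit_shiftRight,
      show 149 * sxQ r y + 2 ^ 6 + u = 149 * sxQ r y + (64 + u) by ring, key u (by omega),
      decide_eq_false (by omega), Bool.false_or]
  · intro ha
    rcases c3 with c3 | c3
    · rw [ha] at c3
      exact absurd c3 (by decide)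
    · have c4 := beq_ff.1 c3
      obtain ⟨j, hj⟩ := Nat.exists_testBit_of_ne_zero c4
      rw [Nat.testBit_and, Bool.and_eq_true] at hj
      exact ⟨j, hj⟩

end MPb6P
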