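import Pool.Agent.Lib.MP_b6d339_lc.Pos.TQ2

/-!
# Erdős 592, positive side: the check of one role of a packed template
-/

namespace MPb6P

theorem inQ_spec {C : CT} {R : Fin 3} {F0 F1 : SQn} (h0 : SQok C R 0 F0) (h1 : SQok C R 1 F1)
    {U0 : ℕ → ℕ → ℕ → ℕ} {S j : ℕ} (h : inQ F0 F1 U0 S j = true) : RP C R [4, 4] (sdQ S j) := by
  have h' : band (F0 4 4 0 0 0 (stQ S j % 64) (U0 0 (stQ S j % 64) 0))
      (F1 4 4 0 (stQ S j % 64) (U0 0 (stQ S j % 64) 0) ((stQ S j >>> 6) % 64) (stQ S j >>> 12))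
      = true := h
  rw [band_eq, Bool.and_eq_true] at h'
  have l0 : stQ S j % 64 < 64 := Nat.mod_lt _ (by norm_num)
  have l1 : (stQ S j >>> 6) % 64 < 64 := Nat.mod_lt _ (by norm_num)
  have r1 : RP C R ([] ++ [4]) ⟨0, stQ S j % 64, U0 0 (stQ S j % 64) 0⟩ :=
    RP.snoc RP.nil (le_refl 4) (le_refl 4)
      (h0 _ _ _ _ _ _ _ (by norm_num) (by norm_num) (by norm_num) l0 h'.1)
  exact RP.snoc (w := [] ++ [4]) r1 (le_refl 4) (le_refl 4)
    (h1 _ _ _ _ _ _ _ (by norm_num) (by norm_num) (by norm_num) l1 h'.2)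

theorem fiQ_spec {C : CT} {R : Fin 3} {e : ℕ} {F F' : SQn} (hF : SQok C R e F)
    (hF' : SQok C R (1 - e) F') {U U' : ℕ → ℕ → ℕ → ℕ} {fm l1 l2 S j : ℕ} {w : List ℕ}
    (he : e = w.length % 2) (h : fiQ F F' U U' fm l1 l2 S j = true)
    (e1 : (C.rl R).l1 = l1) (e2 : (C.rl R).l2 = l2) (b1 : l1 < 64) (b2 : l2 < 64)
    (hfm : ∀ g, subN fm g = true → ∀ h ∈ C.prom, h.fl ≠ 0 → h.r = R.1 →
      g.testBit (h.fl - 1) = true)
    (hr : RP C R w (sdQ S j)) : ∃ s, RP C R (w ++ [4, 4]) s ∧ RAcc C R s := by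
  set p1 : ℕ := (stQ S j >>> 6) % 64 with hp1
  set g : ℕ := U (stQ S j % 64) l2 (stQ S j >>> 12) with hg
  set g' : ℕ := U' p1 l1 g with hg'
  have h' : band (subN fm g') (band (F 4 4 (stQ S j % 64) p1 (stQ S j >>> 12) l2 g)
      (F' 4 4 p1 l2 g l1 g')) = true := h
  rw [band_eq, band_eq, Bool.and_eq_true, Bool.and_eq_true] at h'
  obtain ⟨c1, c2, c3⟩ := h'
  have l0 : stQ S j % 64 < 64 := Nat.mod_lt _ (by norm_num)
  have lp : p1 < 64 := Nat.mod_lt _ (by norm_num)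
  have s1 := hF _ _ _ _ _ _ _ (by norm_num) (by norm_num) l0 b2 c2
  have s2 := hF' _ _ _ _ _ _ _ (by norm_num) (by norm_num) lp b1 c3
  have r1 : RP C R (w ++ [4]) ⟨p1, l2, g⟩ := RP.snoc hr (le_refl 4) (le_refl 4) (by
    rw [← he]; exact s1)
  have e4 : (w ++ [4]).length % 2 = 1 - e := by
    rw [List.length_append, he]
    simp only [List.length_cons, List.length_nil, zero_add]
    omega
  have r2 := RP.snoc (w := w ++ [4]) r1 (le_refl 4) (le_refl 4) (by rw [e4]; exact s2)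
  refine ⟨⟨l2, l1, g'⟩, ?_, ⟨e1.symm, e2.symm, fun h hh => hfm g' c1 h hh⟩⟩
  have e5 : w ++ [4, 4] = (w ++ [4]) ++ [4] := by simp
  rw [e5]
  exact r2

/-- record `k` -/
def rcQ (P k : ℕ) : ℕ := Nat.mod (Nat.shiftRight P (Nat.mul 149 k)) 0x20000000000000000000000000000000000000

theorem rcQ_bit {P k t : ℕ} (ht : t < 149) : (rcQ P k).testBit t = P.testBit (149 * k + t) := by
  have e : rcQ P k = (P >>> (149 * k)) % 0x20000000000000000000000000000000000000 := rfl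
  rw [e, show (0x20000000000000000000000000000000000000 : ℕ) = 2 ^ 149 by norm_num, mod_bit ht, Nat.testBit_shiftRight]

theorem smQ_bit {P k j : ℕ} : (smQ (rcQ P k)).testBit j = true ↔
    j < 52 ∧ P.testBit (149 * k + (12 + j)) = true := by
  unfold smQ
  rw [Nat.testBit_mod_two_pow, Bool.and_eq_true, decide_eq_true_eq, Nat.testBit_shiftRight]
  constructor
  · rintro ⟨h1, h2⟩
    rw [rcQ_bit (by omega)] at h2
    exact ⟨h1, h2⟩
  · rintro ⟨h1, h2⟩
    rw [rcQ_bit (by omega)]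
    exact ⟨h1, h2⟩

theorem scQ_eq (P k : ℕ) : scQ (rcQ P k) = (P >>> (149 * k + 64)) % 64 := by
  unfold scQ
  apply ext6 (Nat.mod_lt _ (by norm_num)) (Nat.mod_lt _ (by norm_num))
  intro u hu
  rw [show (64 : ℕ) = 2 ^ 6 by norm_num, mod_bit hu, mod_bit hu, Nat.testBit_shiftRight,
    Nat.testBit_shiftRight, rcQ_bit (by omega), Nat.add_assoc]

theorem paQ_spec {P P' R Q dl ac : ℕ} (h : paQ P P' R Q dl ac = true) {k : ℕ}
    (hk : k < P % 4096) : pcQ P' R Q dl ac (rcQ P k) = true := by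
  unfold paQ at h
  simp only [frc_eq] at h
  exact allB_spec h hk

theorem valid_lt {P k : ℕ} (h0 : P >>> (149 * (P % 4096)) = 0)
    (h : P.testBit (149 * k + 70) = true) : k < P % 4096 := by
  by_contra hc
  have h1 : (P >>> (149 * (P % 4096))).testBit (149 * k + 70 - 149 * (P % 4096)) = true := by
    rw [Nat.testBit_shiftRight, show 149 * (P % 4096) + (149 * k + 70 - 149 * (P % 4096)) =
      149 * k + 70 by omega]
    exact h
  rw [h0, Nat.zero_testBit] at h1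
  exact absurd h1 (by decide)

/-- the invariant of the check of a role -/
structure RI (C : CT) (R : Fin 3) (S P : ℕ) (d : DF) (w : List ℕ) (k : ℕ) : Prop where
  v : P.testBit (149 * k + 70) = true
  c : (P >>> (149 * k + 64)) % 64 = d.run w
  m : ∀ j < 52, P.testBit (149 * k + (12 + j)) = true → RP C R ([4, 4] ++ w) (sdQ S j)

theorem RI.step {C : CT} {R : Fin 3} {S P P' r Q : ℕ} {d : DF} {w : List ℕ} {k : ℕ}
    (h : RI C R S P d w k) (h0 : P >>> (149 * (P % 4096)) = 0)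
    (hp : paQ P P' r Q d.dl d.ac = true) (hr : RowOK C R (w.length % 2) S r) {x : ℕ}
    (hx : 1 ≤ x ∧ x ≤ 3) : ∃ k', RI C R S P' d (w ++ [x]) k' := by
  obtain ⟨y, rfl⟩ : ∃ y, x = y + 1 := ⟨x - 1, by omega⟩
  have hy : y < 3 := by omega
  obtain ⟨c1, c2, -⟩ := pcQ_spec (paQ_spec hp (valid_lt h0 h.v))
  refine ⟨sxQ (rcQ P k) y, ⟨(c2 y hy).1, ?_, ?_⟩⟩
  · rw [(c2 y hy).2, scQ_eq, h.c]
    unfold DF.run
    rw [List.foldl_append]
    rfl
  · intro j hj hb
    obtain ⟨-, i, hi, hi2⟩ := imQ_bit _ _ (c1 y hy j hj hb)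
    rw [smQ_bit] at hi
    obtain ⟨lo, hi', l1, l2, hs⟩ := hr i j y hj hy hi2
    have e : [4, 4] ++ (w ++ [y + 1]) = ([4, 4] ++ w) ++ [y + 1] := by simp
    rw [e]
    refine RP.snoc (h.m i hi.1 hi.2) l1 l2 ?_
    have e2 : ([4, 4] ++ w).length % 2 = w.length % 2 := by
      rw [List.length_append]
      simp only [List.length_cons, List.length_nil, zero_add]
      omega
    rw [e2]
    exact hs

/-- **the check of one role** -/
theorem rlQ_spec {C : CT} {R : Fin 3} {g : ℕ} (hg : g < 7) {F0 F1 : SQn} (hF0 : SQok C R 0 F0)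
    (hF1 : SQok C R 1 F1) {U0 U1 : ℕ → ℕ → ℕ → ℕ} {fm l1 l2 dl ac m0 m1 S T0 T1 P0 P1 Q0 Q1 : ℕ}
    (h : rlQ g F0 F1 U0 U1 fm l1 l2 dl ac m0 m1 S T0 T1 P0 P1 Q0 Q1 = true)
    (e1 : (C.rl R).l1 = l1) (e2 : (C.rl R).l2 = l2) (b1 : l1 < 64) (b2 : l2 < 64)
    (hfm : ∀ g, subN fm g = true → ∀ h ∈ C.prom, h.fl ≠ 0 → h.r = R.1 →
      g.testBit (h.fl - 1) = true) (w : List ℕ) (hw : ∀ x ∈ w, 1 ≤ x ∧ x ≤ 3)
    (ha : ac.testBit ((⟨dl, ac⟩ : DF).run w) = true) :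
    ∃ s, RP C R ([4, 4] ++ w ++ [4, 4]) s ∧ RAcc C R s := by
  have h' : band (Nat.beq ((P0 >>> 64) % 128) 64)
      (band (Nat.beq (P0 >>> (149 * (P0 % 4096))) 0)
      (band (Nat.beq (P1 >>> (149 * (P1 % 4096))) 0)
      (band (subN ((P0 >>> 12) % 2 ^ 52) (qmQ (inQ F0 F1 U0 S) 8 ((P0 >>> 101) % 2 ^ 48)))
      (band (paQ P0 P1 (rowQ g F0 S T0 m0) (qmQ (fiQ F0 F1 U0 U1 fm l1 l2 S) 64 Q0) dl ac)
        (paQ P1 P0 (rowQ (g + 1) F1 S T1 m1) (qmQ (fiQ F1 F0 U1 U0 fm l1 l2 S) 64 Q1) dl ac)))))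
      = true := h
  simp only [band_eq, Bool.and_eq_true] at h'
  obtain ⟨c1, c2, c3, c4, c5, c6⟩ := h'
  have k1 := beq_eq.1 c1
  have k2 := beq_eq.1 c2
  have k3 := beq_eq.1 c3
  set d : DF := ⟨dl, ac⟩ with hd
  have o0 := rowQ_ok hF0 (g := g) (S := S) (T := T0) (n := m0) (by omega)
  have o1 := rowQ_ok hF1 (g := g + 1) (S := S) (T := T1) (n := m1) (by omega)
  have inv0 : RI C R S P0 d [] 0 := by
    refine ⟨?_, ?_, ?_⟩
    · have h1 : ((P0 >>> 64) % 2 ^ 7).testBit 6 = true := by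
        have : (P0 >>> 64) % 2 ^ 7 = 64 := k1
        rw [this]; decide
      rw [mod_bit (by norm_num), Nat.testBit_shiftRight] at h1
      exact h1
    · show (P0 >>> 64) % 64 = 0
      omega
    · intro j hj hb
      have h1 : ((P0 >>> 12) % 2 ^ 52).testBit j = true := by
        rw [mod_bit hj, Nat.testBit_shiftRight]
        rw [Nat.mul_zero, Nat.zero_add] at hb
        exact hb
      exact inQ_spec hF0 hF1 (qmQ_bit _ _ (subN_spec c4 h1))
  have inv : ∀ w : List ℕ, (∀ x ∈ w, 1 ≤ x ∧ x ≤ 3) →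
      ∃ k, RI C R S (if w.length % 2 = 0 then P0 else P1) d w k := by
    intro w
    induction w using List.reverseRecOn with
    | nil => exact fun _ => ⟨0, inv0⟩
    | append_singleton w x ih =>
      intro hx
      obtain ⟨k, hk⟩ := ih (fun y hy => hx y (by simp [hy]))
      have hx1 := hx x (by simp)
      rcases Nat.mod_two_eq_zero_or_one w.length with e | e
      · rw [if_pos e] at hk
        rw [if_neg (by rw [List.length_append]; simp only [List.length_cons, List.length_nil]; omega)]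
        exact hk.step k2 c5 (by rw [e]; exact o0) hx1
      · rw [if_neg (by omega)] at hk
        rw [if_pos (by rw [List.length_append]; simp only [List.length_cons, List.length_nil]; omega)]
        exact hk.step k3 c6 (by rw [e]; exact o1) hx1
  obtain ⟨k, hk⟩ := inv w hw
  have e3 : ([4, 4] ++ w).length % 2 = w.length % 2 := by
    rw [List.length_append]
    simp only [List.length_cons, List.length_nil, zero_add]
    omega
  rcases Nat.mod_two_eq_zero_or_one w.length with e | e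
  · rw [if_pos e] at hk
    obtain ⟨-, -, c7⟩ := pcQ_spec (paQ_spec c5 (valid_lt k2 hk.v))
    obtain ⟨j, hj, hq⟩ := c7 (by rw [scQ_eq, hk.c]; exact ha)
    rw [smQ_bit] at hj
    exact fiQ_spec hF0 hF1 (by rw [e3, e]) (qmQ_bit _ _ hq) e1 e2 b1 b2 hfm (hk.m j hj.1 hj.2)
  · rw [if_neg (by omega)] at hk
    obtain ⟨-, -, c7⟩ := pcQ_spec (paQ_spec c6 (valid_lt k3 hk.v))
    obtain ⟨j, hj, hq⟩ := c7 (by rw [scQ_eq, hk.c]; exact ha)
    rw [smQ_bit] at hj
    exact fiQ_spec hF1 hF0 (by rw [e3, e]) (qmQ_bit _ _ hq) e1 e2 b1 b2 hfm (hk.m j hj.1 hj.2)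

end MPb6P
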