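import Pool.Agent.Lib.MP_b6d339_lc.Pos.TQ3

/-!
# Erdős 592, positive side: soundness of packed templates
-/

namespace MPb6P

/-! ### Data of a role -/

noncomputable def pnQ (p : ℕ) : ℕ := Nat.mod p 64

noncomputable def pfQ (p : ℕ) : ℕ := Nat.mod (Nat.shiftRight p 6) 64

noncomputable def peQ (p : ℕ) : ℕ := Nat.mod (Nat.shiftRight p 12) (Nat.pow 2 (Nat.mod p 64))

noncomputable def ppQ (p : ℕ) : ℕ := Nat.shiftRight p 44

noncomputable def pdQ (p : ℕ) : ℕ := Nat.xor (Nat.sub (Nat.pow 2 (Nat.mod p 64)) 1) (peQ p)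

noncomputable def psQ (p : ℕ) : ℕ :=
  taQ (fun k => Nat.succ (Nat.mod (Nat.shiftRight (ppQ p) (Nat.mul 15 k)) 64)) (pnQ p)

noncomputable def plQ (p : ℕ) : ℕ :=
  taQ (fun k => Nat.mod (Nat.shiftRight (ppQ p) (Nat.add (Nat.mul 15 k) 6)) 64) (pnQ p)

noncomputable def pgQ (p : ℕ) : ℕ :=
  taQ (fun k => Nat.succ (Nat.mod (Nat.shiftRight (ppQ p) (Nat.add (Nat.mul 15 k) 12)) 8)) (pnQ p)

noncomputable def crQ (c : ℕ) : CRole := ⟨f64 c 0, f64 c 64, f64 c 128, f64 c 192,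
  Nat.mod (Nat.shiftRight c 256) 64, Nat.mod (Nat.shiftRight c 262) 64⟩

/-- promise `k` -/
noncomputable def pwQ (r p k : ℕ) : WProm := pkW r (pfQ p) (peQ p) (ppQ p) k

/-- the promises of a role -/
noncomputable def prQ (r p : ℕ) : List WProm := (List.range (pnQ p)).map (pwQ r p)

theorem prQ_mem {r p : ℕ} {h : WProm} : h ∈ prQ r p ↔ ∃ k < pnQ p, h = pwQ r p k := by
  unfold prQ
  rw [List.mem_map]
  constructor
  · rintro ⟨k, hk, rfl⟩
    exact ⟨k, List.mem_range.1 hk, rfl⟩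
  · rintro ⟨k, hk, rfl⟩
    exact ⟨k, List.mem_range.2 hk, rfl⟩

theorem peQ_lt (p : ℕ) : peQ p < 2 ^ pnQ p := by
  show (p >>> 12) % 2 ^ (p % 64) < 2 ^ (p % 64)
  exact Nat.mod_lt _ (Nat.two_pow_pos _)

theorem peQ_bd {p k : ℕ} (h : (peQ p).testBit k = true) : k < pnQ p := by
  by_contra hc
  rw [Nat.testBit_lt_two_pow (lt_of_lt_of_le (peQ_lt p)
    (Nat.pow_le_pow_right (by norm_num) (not_lt.1 hc)))] at h
  exact absurd h (by decide)

theorem pdQ_bit {p k : ℕ} : (pdQ p).testBit k = true ↔ k < pnQ p ∧ (peQ p).testBit k = false := by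
  have e : pdQ p = (2 ^ pnQ p - 1) ^^^ peQ p := rfl
  rw [e, Nat.testBit_xor, Nat.testBit_two_pow_sub_one]
  rcases h : (peQ p).testBit k with _ | _
  · simp
  · have := peQ_bd h
    simp [this]

/-- mask of the promises of parity `e` -/
noncomputable def mkQ (e p : ℕ) : ℕ := if e = 0 then pdQ p else peQ p

theorem mkQ_bit {e r p k : ℕ} (he : e < 2) : (mkQ e p).testBit k = true ↔
    k < pnQ p ∧ (pwQ r p k).e = e := by
  have e1 : (pwQ r p k).e = ((peQ p).testBit k).toNat := rfl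
  rw [e1]
  unfold mkQ
  rcases Nat.lt_succ_iff_lt_or_eq.1 he with h | h
  · have : e = 0 := by omega
    subst this
    rw [if_pos rfl, pdQ_bit]
    rcases (peQ p).testBit k with _ | _ <;> simp
  · subst h
    rw [if_neg (by norm_num)]
    constructor
    · intro h
      rw [h]
      exact ⟨peQ_bd h, rfl⟩
    · rintro ⟨-, h⟩
      rcases hb : (peQ p).testBit k with _ | _
      · rw [hb] at h
        exact absurd h (by decide)
      · rfl

theorem pwQ_tab {r p : ℕ} (hn : pnQ p ≤ 32) : TabOK (pwQ r p) (pnQ p) (psQ p) (plQ p) (pgQ p) :=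
  tab_ok r (pfQ p) (peQ p) (ppQ p) (pnQ p) hn

theorem pwQ_fl {r p k : ℕ} : ((pwQ r p k).fl = 0 → pfQ p ≤ k) ∧
    ((pwQ r p k).fl ≠ 0 → (pwQ r p k).fl = k + 1 ∧ k < pfQ p) := by
  have e : (pwQ r p k).fl = if k < pfQ p then k + 1 else 0 := rfl
  by_cases h : k < pfQ p
  · rw [e, if_pos h]
    exact ⟨fun h => absurd h (by omega), fun _ => ⟨rfl, h⟩⟩
  · rw [e, if_neg h]
    exact ⟨fun _ => not_lt.1 h, fun h => absurd rfl h⟩

/-- the promises of the role `R` -/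
structure RoD (C : CT) (R : Fin 3) (p : ℕ) : Prop where
  n32 : pnQ p ≤ 32
  own : ∀ h ∈ C.prom, h.r = R.1 → ∃ k < pnQ p, h = pwQ R.1 p k
  mem : ∀ k < pnQ p, pwQ R.1 p k ∈ C.prom

theorem RoD.step {C : CT} {R R' : Fin 3} {p p' e e' : ℕ} (he : e < 2) (he' : e' < 2)
    (ho : oth R e = (R', e')) (h : RoD C R p) (h' : RoD C R' p') :
    SQok C R e (sqB (C.rl R).us (C.rl R).ct ((C.rl R).al e) (mkQ e p) (psQ p) (plQ p) (pgQ p)
      (pfQ p) (mkQ e' p') (psQ p') (plQ p') (pgQ p')) := by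
  refine sqB_ok (pk := pwQ R.1 p) (pk' := pwQ R'.1 p') (pwQ_tab h.n32) (pwQ_tab h'.n32) ?_ ?_ ?_ ?_
  · intro q hq hr
    obtain ⟨k, hk, rfl⟩ := h.own q hq hr
    exact ⟨k, hk, rfl, pwQ_fl.1, fun hf => (pwQ_fl.2 hf).1⟩
  · intro k hk hke
    exact (mkQ_bit he).2 ⟨hk, hke⟩
  · intro k hk
    exact ((mkQ_bit he).1 hk).2
  · intro k hk
    obtain ⟨h1, h2⟩ := (mkQ_bit (r := R'.1) he').1 hk
    rw [ho]
    exact ⟨h1, h'.mem k h1, rfl, h2⟩

theorem RoD.flags {C : CT} {R : Fin 3} {p : ℕ} (h : RoD C R p) {g : ℕ}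
    (hg : subN (Nat.sub (Nat.pow 2 (pfQ p)) 1) g = true) :
    ∀ q ∈ C.prom, q.fl ≠ 0 → q.r = R.1 → g.testBit (q.fl - 1) = true := by
  intro q hq hf hr
  obtain ⟨k, hk, rfl⟩ := h.own q hq hr
  obtain ⟨h1, h2⟩ := pwQ_fl.2 hf
  rw [h1, Nat.add_sub_cancel]
  apply subN_spec hg
  show (2 ^ pfQ p - 1).testBit k = true
  rw [Nat.testBit_two_pow_sub_one]
  exact decide_eq_true h2

/-! ### Validity -/

theorem laQ_bit {a b l : ℕ} : (laQ a b).testBit l = true ↔ l = a ∨ l = b := by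
  show (2 ^ a ||| 2 ^ b).testBit l = true ↔ _
  rw [Nat.testBit_or, Bool.or_eq_true, Nat.testBit_two_pow, Nat.testBit_two_pow,
    decide_eq_true_eq, decide_eq_true_eq, eq_comm, eq_comm (a := b)]

theorem pi_zero {c : CRole} {l : ℕ} (h0 : c.a0.testBit l = true) (h1 : c.a1.testBit l = false) :
    c.pi l = 0 := by
  unfold CRole.pi
  rw [h0, h1]
  simp

theorem pi_one {c : CRole} {l : ℕ} (h0 : c.a0.testBit l = false) : c.pi l = 1 := by
  unfold CRole.pi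
  rw [h0]
  simp

theorem land_zero {a b l : ℕ} (h : Nat.land a b = 0) (ha : a.testBit l = true) :
    b.testBit l = false := by
  have h1 : (a &&& b).testBit l = false := by
    have : a &&& b = 0 := h
    rw [this, Nat.zero_testBit]
  rw [Nat.testBit_and, ha, Bool.true_and] at h1
  exact h1

theorem land_one {a b l : ℕ} : (Nat.land a b).testBit l = (a.testBit l && b.testBit l) :=
  Nat.testBit_and _ _ _

theorem lor_one {a b l : ℕ} : (Nat.lor a b).testBit l = (a.testBit l || b.testBit l) :=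
  Nat.testBit_or _ _ _

theorem coQ_spec {c c' : CRole} {X Y : ℕ} (h : coQ c.us c'.us X Y (laQ c.l1 c.l2) (laQ c'.l1 c'.l2) = 0)
    {l : ℕ} (h1 : c.kd l ≠ 0) (h2 : c'.kd l ≠ 0) :
    X.testBit l = true ∧ Y.testBit l = false ∧ c.us.testBit l = true ∧ c'.us.testBit l = true ∧
      ((l = c.l1 ∨ l = c.l2) ↔ (l = c'.l1 ∨ l = c'.l2)) := by
  have u1 := kd_ne h1
  have u2 := kd_ne h2
  unfold coQ at h
  obtain ⟨g1, g2⟩ := lor_zero h
  obtain ⟨g3, g4⟩ := lor_zero g2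
  have hU : (Nat.land c.us c'.us).testBit l = true := by rw [land_one, u1, u2]; rfl
  refine ⟨dsb_spec g1 hU, land_zero g3 hU, u1, u2, ?_⟩
  have h5 := land_zero g4 hU
  have h6 : ((laQ c.l1 c.l2) ^^^ (laQ c'.l1 c'.l2)).testBit l = false := h5
  rw [Nat.testBit_xor] at h6
  rw [← laQ_bit, ← laQ_bit]
  rcases hA : (laQ c.l1 c.l2).testBit l with _ | _ <;>
    rcases hB : (laQ c'.l1 c'.l2).testBit l with _ | _ <;> rw [hA, hB] at h6 <;>
    exact absurd h6 (by decide)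

/-- the condition for common labels -/
def ComP (R R' : Fin 3) (c c' : CRole) (l : ℕ) : Prop :=
  c.kd l = 1 ∧ c'.kd l = 1 ∧ plr R (c.pi l) = plr R' (c'.pi l) ∧
    ((l = c.l1 ∨ l = c.l2) ↔ (l = c'.l1 ∨ l = c'.l2))

theorem ComP.symm {R R' : Fin 3} {c c' : CRole} {l : ℕ} (h : ComP R R' c c' l) :
    ComP R' R c' c l := ⟨h.2.1, h.1, h.2.2.1.symm, h.2.2.2.symm⟩

theorem com_AB {c c' : CRole} (h : coQ c.us c'.us (Nat.land (Nat.land c.ct c'.ct)
    (Nat.land c.a0 c'.a0)) (Nat.lor c.a1 c'.a1) (laQ c.l1 c.l2) (laQ c'.l1 c'.l2) = 0)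
    {l : ℕ} (h1 : c.kd l ≠ 0) (h2 : c'.kd l ≠ 0) : ComP 0 1 c c' l := by
  obtain ⟨k1, k2, k3, k4, k5⟩ := coQ_spec h h1 h2
  rw [land_one, land_one, land_one] at k1
  simp only [Bool.and_eq_true] at k1
  rw [lor_one, Bool.or_eq_false_iff] at k2
  refine ⟨kd_one.2 ⟨k3, k1.1.1⟩, kd_one.2 ⟨k4, k1.1.2⟩, ?_, k5⟩
  rw [pi_zero k1.2.1 k2.1, pi_zero k1.2.2 k2.2]
  rfl

theorem com_AC {c c' : CRole} (h : coQ c.us c'.us (Nat.land (Nat.land c.ct c'.ct) c'.a0)
    (Nat.lor c.a0 c'.a1) (laQ c.l1 c.l2) (laQ c'.l1 c'.l2) = 0)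
    {l : ℕ} (h1 : c.kd l ≠ 0) (h2 : c'.kd l ≠ 0) : ComP 0 2 c c' l := by
  obtain ⟨k1, k2, k3, k4, k5⟩ := coQ_spec h h1 h2
  rw [land_one, land_one] at k1
  simp only [Bool.and_eq_true] at k1
  rw [lor_one, Bool.or_eq_false_iff] at k2
  refine ⟨kd_one.2 ⟨k3, k1.1.1⟩, kd_one.2 ⟨k4, k1.1.2⟩, ?_, k5⟩
  rw [pi_one k2.1, pi_zero k1.2 k2.2]
  rfl

theorem com_BC {c c' : CRole} (h : coQ c.us c'.us (Nat.land c.ct c'.ct)
    (Nat.lor c.a0 c'.a0) (laQ c.l1 c.l2) (laQ c'.l1 c'.l2) = 0)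
    {l : ℕ} (h1 : c.kd l ≠ 0) (h2 : c'.kd l ≠ 0) : ComP 1 2 c c' l := by
  obtain ⟨k1, k2, k3, k4, k5⟩ := coQ_spec h h1 h2
  rw [land_one] at k1
  simp only [Bool.and_eq_true] at k1
  rw [lor_one, Bool.or_eq_false_iff] at k2
  refine ⟨kd_one.2 ⟨k3, k1.1⟩, kd_one.2 ⟨k4, k1.2⟩, ?_, k5⟩
  rw [pi_one k2.1, pi_one k2.2]
  rfl

/-- the condition for timing -/
def TimP (c c' : CRole) (e' l : ℕ) : Prop :=
  c'.pi l = e' ∧ l ≤ c'.l1 ∧ ((l = c.l1 ∨ l = c.l2) → c'.kd l = 1)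

theorem tim_rest {c c' : CRole} {S l : ℕ} (hS : S.testBit l = true)
    (h1 : Nat.shiftRight S (Nat.succ c'.l1) = 0)
    (h2 : dsb (Nat.land S (laQ c.l1 c.l2)) (Nat.land c'.us c'.ct) = 0) :
    l ≤ c'.l1 ∧ ((l = c.l1 ∨ l = c.l2) → c'.kd l = 1) := by
  constructor
  · by_contra hc
    have h3 : (S >>> (c'.l1 + 1)).testBit (l - (c'.l1 + 1)) = false := by
      have : S >>> (c'.l1 + 1) = 0 := h1
      rw [this, Nat.zero_testBit]
    rw [Nat.testBit_shiftRight, show c'.l1 + 1 + (l - (c'.l1 + 1)) = l by omega, hS] at h3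
    exact absurd h3 (by decide)
  · intro hl
    have h3 := dsb_spec h2 (t := l) (by rw [land_one, hS, laQ_bit.2 hl]; rfl)
    rw [land_one, Bool.and_eq_true] at h3
    exact kd_one.2 h3

theorem t0Q_spec {c c' : CRole} {S l : ℕ} (hS : S.testBit l = true)
    (h : t0Q S (laQ c.l1 c.l2) (Nat.land c'.us c'.ct) c'.a0 c'.a1 c'.l1 = 0) : TimP c c' 0 l := by
  unfold t0Q at h
  obtain ⟨g1, g2⟩ := lor_zero h
  obtain ⟨g3, g4⟩ := lor_zero g1
  obtain ⟨g5, g6⟩ := lor_zero g2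
  exact ⟨pi_zero (dsb_spec g3 hS) (land_zero g4 hS), tim_rest hS g5 g6⟩

theorem t1Q_spec {c c' : CRole} {S l : ℕ} (hS : S.testBit l = true)
    (h : t1Q S (laQ c.l1 c.l2) (Nat.land c'.us c'.ct) c'.a0 c'.l1 = 0) : TimP c c' 1 l := by
  unfold t1Q at h
  obtain ⟨g1, g2⟩ := lor_zero h
  obtain ⟨g5, g6⟩ := lor_zero g2
  exact ⟨pi_one (land_zero g1 hS), tim_rest hS g5 g6⟩

theorem s0Q_bit {c : CRole} {l : ℕ} (h1 : c.kd l ≠ 0) (h2 : c.kd l = 1 → 0 = c.pi l) :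
    (s0Q c.us c.ct c.a0).testBit l = true := by
  unfold s0Q
  rw [dsb_bit, dsb_bit, kd_ne h1, Bool.true_and]
  rcases hc : c.ct.testBit l with _ | _
  · rfl
  · have h3 := h2 (kd_one.2 ⟨kd_ne h1, hc⟩)
    unfold CRole.pi at h3
    rcases ha : c.a0.testBit l with _ | _
    · rw [ha] at h3
      simp at h3
    · rfl

theorem s1Q_bit {c : CRole} {l : ℕ} (h1 : c.kd l ≠ 0) (h2 : c.kd l = 1 → 1 = c.pi l) :
    (s1Q c.us c.ct c.a0).testBit l = true := by
  unfold s1Q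
  rw [dsb_bit, land_one, kd_ne h1, Bool.true_and]
  rcases hc : c.ct.testBit l with _ | _
  · rfl
  · have h3 := h2 (kd_one.2 ⟨kd_ne h1, hc⟩)
    unfold CRole.pi at h3
    rcases ha : c.a0.testBit l with _ | _
    · rfl
    · rw [ha] at h3
      simp only [if_true] at h3
      split_ifs at h3
      omega

/-! ### Parked promises -/

theorem fld {P a b : ℕ} (hb : b ≤ 9) :
    (P >>> a % 32768) >>> b % 64 = (P >>> (a + b)) % 64 := by
  apply ext6 (Nat.mod_lt _ (by norm_num)) (Nat.mod_lt _ (by norm_num))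
  intro u hu
  rw [show (64 : ℕ) = 2 ^ 6 by norm_num, mod_bit hu, mod_bit hu, Nat.testBit_shiftRight,
    Nat.testBit_shiftRight, show (32768 : ℕ) = 2 ^ 15 by norm_num, mod_bit (by omega),
    Nat.testBit_shiftRight, Nat.add_assoc]

theorem vrQ_spec {M c p : ℕ} (hM : 63 ≤ M) {C : CT} {R : Fin 3} (hC : RoD C R p)
    (h : vrQ (crQ c).us (crQ c).ct (crQ c).a0 (crQ c).a1 (crQ c).l1 (crQ c).l2 (pnQ p) (pfQ p)
      (peQ p) (ppQ p) = true) : RoleP M (crQ c) R.1 C.prom := by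
  have hus : (crQ c).us < 2 ^ (M + 1) := by
    have h1 : (crQ c).us < 2 ^ 64 := Nat.mod_lt _ (by positivity)
    exact lt_of_lt_of_le h1 (Nat.pow_le_pow_right (by norm_num) (by omega))
  generalize crQ c = c' at h hus
  unfold vrQ at h
  simp only [frc_eq, band_eq, bnot_eq, Bool.and_eq_true, Bool.not_eq_true', tb_eq] at h
  obtain ⟨c1, c3, c4, c5⟩ := h
  obtain ⟨d1, d2, d3⟩ := lstB_spec c4
  refine ⟨c1, hus, ?_, d1, d2, d3, ?_⟩
  · intro l u1 u2
    have h2 := beq_eq.1 c3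
    have h3 : ((c'.us &&& c'.ct) &&& (c'.a0 &&& c'.a1)).testBit l = false := by
      have : (c'.us &&& c'.ct) &&& (c'.a0 &&& c'.a1) = 0 := h2
      rw [this, Nat.zero_testBit]
    rw [Nat.testBit_and, Nat.testBit_and, Nat.testBit_and, u1, u2] at h3
    simpa using h3
  · intro q hq hf hr
    obtain ⟨k, hk, rfl⟩ := hC.own q hq hr
    have hk1 := pwQ_fl.1 hf
    unfold pkQ at c5
    have h6 := allB_spec c5 (i := k - pfQ p) (by
      show k - pfQ p < pnQ p - pfQ p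
      omega)
    simp only [frc_eq, band_eq, bnot_eq, Bool.and_eq_true, Bool.not_eq_true', tb_eq] at h6
    obtain ⟨g1, g2, g3⟩ := h6
    have ek : Nat.add (pfQ p) (k - pfQ p) = k := by
      show pfQ p + (k - pfQ p) = k
      omega
    rw [ek] at g1 g2 g3
    have es : Nat.mod (Nat.mod (Nat.shiftRight (ppQ p) (Nat.mul 15 k)) 32768) 64 =
        (pwQ R.1 p k).sm := by
      have := fld (P := ppQ p) (a := 15 * k) (b := 0) (by norm_num)
      exact this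
    have el : Nat.mod (Nat.shiftRight (Nat.mod (Nat.shiftRight (ppQ p) (Nat.mul 15 k)) 32768) 6) 64 =
        (pwQ R.1 p k).lm := fld (P := ppQ p) (a := 15 * k) (b := 6) (by norm_num)
    rw [es] at g1 g2 g3
    rw [el] at g1
    have ee : (pwQ R.1 p k).e = ((peQ p).testBit k).toNat := rfl
    refine ⟨beq_eq.1 g1, g2, ?_, ?_⟩
    · rw [ee]
      exact Bool.toNat_lt _
    · have g3' := ble_eq'.1 g3
      rw [ee]
      have hb : ∀ e, (Bool.rec (motive := fun _ => ℕ) c'.l2 c'.l1 (piB c'.a0 c'.a1 c'.l1 e)) =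
          if c'.pi c'.l1 = e then c'.l1 else c'.l2 := by
        intro e
        split_ifs with h7
        · rw [(piB_eq c' c'.l1 e).2 h7]
        · have : piB c'.a0 c'.a1 c'.l1 e = false := by
            rw [← Bool.not_eq_true]
            intro h8
            exact h7 ((piB_eq c' c'.l1 e).1 h8)
          rw [this]
      rcases hE : (peQ p).testBit k with _ | _
      · rw [hE] at g3'
        have g4 : (pwQ R.1 p k).sm + 2 ≤ (Bool.rec (motive := fun _ => ℕ) c'.l2 c'.l1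
          (piB c'.a0 c'.a1 c'.l1 0)) := g3'
        rw [hb] at g4
        show (pwQ R.1 p k).sm + 1 < if c'.pi c'.l1 = 0 then c'.l1 else c'.l2
        omega
      · rw [hE] at g3'
        have g4 : (pwQ R.1 p k).sm + 2 ≤ (Bool.rec (motive := fun _ => ℕ) c'.l2 c'.l1
          (piB c'.a0 c'.a1 c'.l1 1)) := g3'
        rw [hb] at g4
        show (pwQ R.1 p k).sm + 1 < if c'.pi c'.l1 = 1 then c'.l1 else c'.l2
        omega

end MPb6P
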