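import Pool.Agent.Lib.MP_b6d339_lc.Pos.WTplC
import Pool.Agent.Lib.MP_b6d339_lc.Pos.TEven

/-!
# Erdős 592, positive side: reversal of words of odd length
-/

namespace MPb6P

/-- a schedule for words of odd length `N` -/
structure Sch (N M : ℕ) (lab : Fin 3 → ℕ → ℕ) : Prop where
  odd : N % 2 = 1
  five : 5 ≤ N
  pos : ∀ R i, i < N → 1 ≤ lab R i
  le : ∀ R i, i < N → lab R i ≤ M
  mono : ∀ R i j, i ≤ j → j < N → lab R i ≤ lab R j
  common : ∀ R R' : Fin 3, R ≠ R' → ∀ i < N, ∀ j < N, lab R i = lab R' j →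
    plr R i = plr R' j ∧ (∀ k < N, lab R k = lab R i → k = i) ∧
    (∀ k < N, lab R' k = lab R' j → k = j) ∧ (N ≤ i + 2 ↔ N ≤ j + 2)
  timing : ∀ R R' : Fin 3, R ≠ R' → ∀ i < N,
    (∃ j, plr R' j = plr R i) → ∃ j < N, plr R' j = plr R i ∧ lab R i ≤ lab R' j ∧
      (∀ k < j, lab R' k < lab R i) ∧ (N ≤ i + 2 → lab R i = lab R' j)

/-- the first index with a label `≥ t` -/
def fsi (N : ℕ) (lab : Fin 3 → ℕ → ℕ) (R : Fin 3) (t : ℕ) : ℕ :=
  Nat.find (⟨N, Or.inl le_rfl⟩ : ∃ p, N ≤ p ∨ t ≤ lab R p)

section fsi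

variable {N M : ℕ} {lab : Fin 3 → ℕ → ℕ}

theorem fsi_le (R : Fin 3) (t : ℕ) : fsi N lab R t ≤ N := Nat.find_min' _ (Or.inl le_rfl)

theorem lt_fsi {R : Fin 3} {t k : ℕ} (h : k < fsi N lab R t) : k < N ∧ lab R k < t := by
  have := Nat.find_min _ h
  push Not at this
  exact this

theorem fsi_spec {R : Fin 3} {t : ℕ} (h : fsi N lab R t < N) : t ≤ lab R (fsi N lab R t) := by
  have := Nat.find_spec (⟨N, Or.inl le_rfl⟩ : ∃ p, N ≤ p ∨ t ≤ lab R p)
  rcases this with h1 | h1
  · exact absurd h (not_lt.mpr h1)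
  · exact h1

theorem fsi_eq {R : Fin 3} {t p : ℕ} (hp : p ≤ N) (h1 : ∀ k < p, lab R k < t)
    (h2 : p < N → t ≤ lab R p) : fsi N lab R t = p := by
  apply le_antisymm
  · apply Nat.find_min'
    rcases Nat.lt_or_ge p N with h | h
    · exact Or.inr (h2 h)
    · exact Or.inl h
  · by_contra h
    push Not at h
    have h3 := fsi_spec (lt_of_lt_of_le h hp)
    have h4 := h1 _ h
    omega

theorem fsi_succ_none {R : Fin 3} {t : ℕ} (h : ∀ i < N, lab R i ≠ t) :
    fsi N lab R (t + 1) = fsi N lab R t := by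
  apply fsi_eq (fsi_le _ _)
  · intro k hk
    have := (lt_fsi hk).2
    omega
  · intro hlt
    have h1 := fsi_spec hlt
    have h2 := h _ hlt
    omega

theorem fsi_hit (S : Sch N M lab) {R : Fin 3} {i t : ℕ} (hi : i < N) (h : lab R i = t) :
    fsi N lab R t ≤ i ∧ fsi N lab R t < N ∧ lab R (fsi N lab R t) = t := by
  have h1 : fsi N lab R t ≤ i := Nat.find_min' _ (Or.inr h.ge)
  have h2 : fsi N lab R t < N := lt_of_le_of_lt h1 hi
  have h3 := fsi_spec h2
  have h4 := S.mono R _ _ h1 hi
  exact ⟨h1, h2, by omega⟩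

theorem fsi_uniq (S : Sch N M lab) {R : Fin 3} {i t : ℕ} (hi : i < N) (h : lab R i = t)
    (hu : ∀ k < N, lab R k = t → k = i) :
    fsi N lab R t = i ∧ fsi N lab R (t + 1) = i + 1 := by
  obtain ⟨h1, h2, h3⟩ := fsi_hit S hi h
  have h4 : fsi N lab R t = i := hu _ h2 h3
  refine ⟨h4, ?_⟩
  apply fsi_eq (by omega)
  · intro k hk
    rcases Nat.lt_or_ge k i with h5 | h5
    · rw [← h4] at h5
      have := (lt_fsi h5).2
      omega
    · have : k = i := by omega
      rw [this, h]
      omega
  · intro h5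
    have h6 := S.mono R i (i + 1) (by omega) h5
    have h7 : lab R (i + 1) ≠ t := fun h8 => by
      have := hu _ h5 h8
      omega
    omega

theorem fsi_timing (S : Sch N M lab) {R R' : Fin 3} (hR : R ≠ R') {i t : ℕ} (hi : i < N)
    (ht : lab R i = t) (hj : ∃ j, plr R' j = plr R i) :
    fsi N lab R' t < N ∧ plr R' (fsi N lab R' t) = plr R i := by
  subst ht
  obtain ⟨j, h1, h2, h3, h4, -⟩ := S.timing R R' hR i hi hj
  have h5 : fsi N lab R' (lab R i) = j := fsi_eq (by omega) h4 (fun _ => h3)
  rw [h5]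
  exact ⟨h1, h2⟩

theorem fsi_one (S : Sch N M lab) (R : Fin 3) : fsi N lab R 1 = 0 := by
  have := S.five
  exact fsi_eq (by omega) (fun k hk => by omega) (fun _ => S.pos R 0 (by omega))

theorem fsi_top (S : Sch N M lab) (R : Fin 3) : fsi N lab R (M + 1) = N :=
  fsi_eq le_rfl (fun k hk => by have := S.le R k hk; omega) (fun h => absurd h (lt_irrefl _))

theorem t0e (S : Sch N M lab) {i t : ℕ} (hi : i < N) (ht : lab 0 i = t) (hp : i % 2 = 0) :
    fsi N lab 1 t % 2 = 0 :=
  (par01 (fsi_timing S (R := 0) (R' := 1) (by decide) hi ht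
    ⟨0, by rw [plr0e hp, plr1e (by omega)]⟩).2).2

theorem t0o (S : Sch N M lab) {i t : ℕ} (hi : i < N) (ht : lab 0 i = t) (hp : i % 2 = 1) :
    fsi N lab 2 t % 2 = 0 :=
  (par02 (fsi_timing S (R := 0) (R' := 2) (by decide) hi ht
    ⟨0, by rw [plr0o hp, plr2e (by omega)]⟩).2).2

theorem t1e (S : Sch N M lab) {i t : ℕ} (hi : i < N) (ht : lab 1 i = t) (hp : i % 2 = 0) :
    fsi N lab 0 t % 2 = 0 :=
  (par01 (fsi_timing S (R := 1) (R' := 0) (by decide) hi ht
    ⟨0, by rw [plr1e hp, plr0e (by omega)]⟩).2.symm).1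

theorem t1o (S : Sch N M lab) {i t : ℕ} (hi : i < N) (ht : lab 1 i = t) (hp : i % 2 = 1) :
    fsi N lab 2 t % 2 = 1 :=
  (par12 (fsi_timing S (R := 1) (R' := 2) (by decide) hi ht
    ⟨1, by rw [plr1o hp, plr2o (by omega)]⟩).2).2

theorem t2e (S : Sch N M lab) {i t : ℕ} (hi : i < N) (ht : lab 2 i = t) (hp : i % 2 = 0) :
    fsi N lab 0 t % 2 = 1 :=
  (par02 (fsi_timing S (R := 2) (R' := 0) (by decide) hi ht
    ⟨1, by rw [plr2e hp, plr0o (by omega)]⟩).2.symm).1

theorem t2o (S : Sch N M lab) {i t : ℕ} (hi : i < N) (ht : lab 2 i = t) (hp : i % 2 = 1) :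
    fsi N lab 1 t % 2 = 1 :=
  (par12 (fsi_timing S (R := 2) (R' := 1) (by decide) hi ht
    ⟨1, by rw [plr2o hp, plr1o (by omega)]⟩).2.symm).1

end fsi

/-- dead states -/
def Dead (N : ℕ) (lab : Fin 3 → ℕ → ℕ) (t : ℕ) : Prop :=
  (fsi N lab 0 t % 2 = 0 ∧ fsi N lab 1 t % 2 = 1 ∧ fsi N lab 2 t % 2 = 0) ∨
  (fsi N lab 0 t % 2 = 1 ∧ fsi N lab 1 t % 2 = 0 ∧ fsi N lab 2 t % 2 = 1)

theorem notDead_aux {N M : ℕ} {lab : Fin 3 → ℕ → ℕ} (S : Sch N M lab) :
    ∀ k, k ≤ M + 1 → ¬ Dead N lab (M + 1 - k) := by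
  intro k
  induction k with
  | zero =>
    intro _ h
    have h0 := S.odd
    unfold Dead at h
    rw [Nat.sub_zero, fsi_top S, fsi_top S, fsi_top S] at h
    omega
  | succ k ih =>
    intro hk
    have ih' := ih (by omega)
    obtain ⟨t, ht⟩ : ∃ t, t = M + 1 - (k + 1) := ⟨_, rfl⟩
    have ht' : M + 1 - k = t + 1 := by omega
    rw [ht'] at ih'
    rw [← ht]
    intro hd
    by_cases hne : ∃ R i, i < N ∧ lab R i = t
    · obtain ⟨R, i, hi, hl⟩ := hne
      obtain ⟨-, h2, h3⟩ := fsi_hit S hi hl
      unfold Dead at hd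
      rcases fin3_cases R with rfl | rfl | rfl
      · rcases Nat.mod_two_eq_zero_or_one (fsi N lab 0 t) with h4 | h4
        · have := t0e S h2 h3 h4
          omega
        · have := t0o S h2 h3 h4
          omega
      · rcases Nat.mod_two_eq_zero_or_one (fsi N lab 1 t) with h4 | h4
        · have := t1e S h2 h3 h4
          omega
        · have := t1o S h2 h3 h4
          omega
      · rcases Nat.mod_two_eq_zero_or_one (fsi N lab 2 t) with h4 | h4
        · have := t2e S h2 h3 h4
          omega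
        · have := t2o S h2 h3 h4
          omega
    · push Not at hne
      apply ih'
      unfold Dead at hd ⊢
      rw [fsi_succ_none (hne 0), fsi_succ_none (hne 1), fsi_succ_none (hne 2)]
      exact hd

theorem notDead {N M : ℕ} {lab : Fin 3 → ℕ → ℕ} (S : Sch N M lab) {t : ℕ} (ht : t ≤ M + 1) :
    ¬ Dead N lab t := by
  have := notDead_aux S (M + 1 - t) (by omega)
  rwa [show M + 1 - (M + 1 - t) = t by omega] at this

/-- the run that can move alone -/
def Md (N : ℕ) (lab : Fin 3 → ℕ → ℕ) (R : Fin 3) (t : ℕ) : Prop :=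
  (R = 0 → fsi N lab 1 t % 2 = 0 ∧ fsi N lab 2 t % 2 = 0) ∧
  (R = 1 → fsi N lab 0 t % 2 = 0 ∧ fsi N lab 2 t % 2 = 1) ∧
  (R = 2 → fsi N lab 0 t % 2 = 1 ∧ fsi N lab 1 t % 2 = 1)

theorem md_zero {N : ℕ} {lab : Fin 3 → ℕ → ℕ} {t : ℕ} (h1 : fsi N lab 1 t % 2 = 0)
    (h2 : fsi N lab 2 t % 2 = 0) : Md N lab 0 t :=
  ⟨fun _ => ⟨h1, h2⟩, fun h => absurd h (by decide), fun h => absurd h (by decide)⟩

theorem md_one {N : ℕ} {lab : Fin 3 → ℕ → ℕ} {t : ℕ} (h1 : fsi N lab 0 t % 2 = 0)
    (h2 : fsi N lab 2 t % 2 = 1) : Md N lab 1 t :=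
  ⟨fun h => absurd h (by decide), fun _ => ⟨h1, h2⟩, fun h => absurd h (by decide)⟩

theorem md_two {N : ℕ} {lab : Fin 3 → ℕ → ℕ} {t : ℕ} (h1 : fsi N lab 0 t % 2 = 1)
    (h2 : fsi N lab 1 t % 2 = 1) : Md N lab 2 t :=
  ⟨fun h => absurd h (by decide), fun h => absurd h (by decide), fun _ => ⟨h1, h2⟩⟩

theorem md_uniq {N : ℕ} {lab : Fin 3 → ℕ → ℕ} {R R' : Fin 3} {t : ℕ} (h : Md N lab R t)
    (h' : Md N lab R' t) : R = R' := by
  obtain ⟨a0, a1, a2⟩ := h
  obtain ⟨b0, b1, b2⟩ := h'
  rcases fin3_cases R with rfl | rfl | rfl <;> rcases fin3_cases R' with rfl | rfl | rfl <;>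
    first
    | rfl
    | (exfalso
       simp only [forall_const] at a0 a1 a2 b0 b1 b2
       have c0 := a0
       omega)

/-- run `R` has no event with label `t` -/
def NE (N : ℕ) (lab : Fin 3 → ℕ → ℕ) (R : Fin 3) (t : ℕ) : Prop := ∀ j < N, lab R j ≠ t

/-- `t` is a common label -/
def CL (N : ℕ) (lab : Fin 3 → ℕ → ℕ) (t : ℕ) : Prop :=
  ∃ R R' : Fin 3, R ≠ R' ∧ (∃ i < N, lab R i = t) ∧ (∃ j < N, lab R' j = t)

section mode

variable {N M : ℕ} {lab : Fin 3 → ℕ → ℕ}

theorem cl_of {R R' : Fin 3} (hR : R ≠ R') {i j t : ℕ} (hi : i < N) (hj : j < N)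
    (h1 : lab R i = t) (h2 : lab R' j = t) : CL N lab t :=
  ⟨R, R', hR, ⟨i, hi, h1⟩, ⟨j, hj, h2⟩⟩

theorem solo_md (S : Sch N M lab) {R : Fin 3} {i t : ℕ} (hi : i < N) (ht : lab R i = t)
    (hs : ∀ R', R' ≠ R → NE N lab R' t) : Md N lab R t := by
  obtain ⟨h1, h2, h3⟩ := fsi_hit S hi ht
  have htM : t ≤ M := by rw [← ht]; exact S.le R i hi
  by_cases hb : ∃ b, b < N ∧ lab R b = t ∧ b % 2 ≠ fsi N lab R t % 2
  · obtain ⟨b, hb1, hb2, hb3⟩ := hb
    rcases fin3_cases R with rfl | rfl | rfl
    · rcases Nat.mod_two_eq_zero_or_one (fsi N lab 0 t) with h4 | h4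
      · exact md_zero (t0e S h2 h3 h4) (t0o S hb1 hb2 (by omega))
      · exact md_zero (t0e S hb1 hb2 (by omega)) (t0o S h2 h3 h4)
    · rcases Nat.mod_two_eq_zero_or_one (fsi N lab 1 t) with h4 | h4
      · exact md_one (t1e S h2 h3 h4) (t1o S hb1 hb2 (by omega))
      · exact md_one (t1e S hb1 hb2 (by omega)) (t1o S h2 h3 h4)
    · rcases Nat.mod_two_eq_zero_or_one (fsi N lab 2 t) with h4 | h4
      · exact md_two (t2e S h2 h3 h4) (t2o S hb1 hb2 (by omega))
      · exact md_two (t2e S hb1 hb2 (by omega)) (t2o S h2 h3 h4)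
  · push Not at hb
    have hu : ∀ k < N, lab R k = t → k = fsi N lab R t := by
      intro k hk hkt
      have h4 := (fsi_hit S hk hkt).1
      by_contra hne
      have h5 : fsi N lab R t + 1 ≤ k := by omega
      have h6 := S.mono R _ _ h5 hk
      have h7 := S.mono R (fsi N lab R t) (fsi N lab R t + 1) (by omega) (by omega)
      have h8 := hb (fsi N lab R t + 1) (by omega) (by omega)
      omega
    have h4 := (fsi_uniq S h2 h3 hu).2
    have h5 : ∀ R', R' ≠ R → fsi N lab R' (t + 1) = fsi N lab R' t := fun R' hR' =>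
      fsi_succ_none (hs R' hR')
    have h6 := notDead S (t := t + 1) (by omega)
    unfold Dead at h6
    rcases fin3_cases R with rfl | rfl | rfl
    · rw [h4, h5 1 (by decide), h5 2 (by decide)] at h6
      rcases Nat.mod_two_eq_zero_or_one (fsi N lab 0 t) with h7 | h7
      · have := t0e S h2 h3 h7
        exact md_zero this (by omega)
      · have := t0o S h2 h3 h7
        exact md_zero (by omega) this
    · rw [h4, h5 0 (by decide), h5 2 (by decide)] at h6
      rcases Nat.mod_two_eq_zero_or_one (fsi N lab 1 t) with h7 | h7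
      · have := t1e S h2 h3 h7
        exact md_one this (by omega)
      · have := t1o S h2 h3 h7
        exact md_one (by omega) this
    · rw [h4, h5 0 (by decide), h5 1 (by decide)] at h6
      rcases Nat.mod_two_eq_zero_or_one (fsi N lab 2 t) with h7 | h7
      · have := t2e S h2 h3 h7
        exact md_two this (by omega)
      · have := t2o S h2 h3 h7
        exact md_two (by omega) this

theorem md_congr {R : Fin 3} {s t : ℕ} (h : ∀ R', R' ≠ R → fsi N lab R' s = fsi N lab R' t)
    (hm : Md N lab R t) : Md N lab R s := by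
  obtain ⟨a0, a1, a2⟩ := hm
  rcases fin3_cases R with rfl | rfl | rfl
  · have := a0 rfl
    exact md_zero (by rw [h 1 (by decide)]; exact this.1) (by rw [h 2 (by decide)]; exact this.2)
  · have := a1 rfl
    exact md_one (by rw [h 0 (by decide)]; exact this.1) (by rw [h 2 (by decide)]; exact this.2)
  · have := a2 rfl
    exact md_two (by rw [h 0 (by decide)]; exact this.1) (by rw [h 1 (by decide)]; exact this.2)

theorem md_step (S : Sch N M lab) {R : Fin 3} {t : ℕ} (hc : ¬ CL N lab t)
    (hm : Md N lab R t) : Md N lab R (t + 1) := by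
  by_cases hne : ∃ R0 i, i < N ∧ lab R0 i = t
  · obtain ⟨R0, i, hi, hl⟩ := hne
    have hs : ∀ R', R' ≠ R0 → NE N lab R' t := by
      intro R' hR' j hj hjt
      exact hc (cl_of hR'.symm hi hj hl hjt)
    have h1 := md_uniq (solo_md S hi hl hs) hm
    subst h1
    exact md_congr (fun R' hR' => fsi_succ_none (hs R' hR')) hm
  · push Not at hne
    exact md_congr (fun R' _ => fsi_succ_none (hne R')) hm

theorem cl_third (S : Sch N M lab) {t : ℕ} (hc : CL N lab t) :
    ∃ R, NE N lab R t ∧ Md N lab R (t + 1) := by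
  have key : ∀ R R' : Fin 3, R.val < R'.val → ∀ i < N, ∀ j < N, lab R i = t → lab R' j = t →
      ∃ R, NE N lab R t ∧ Md N lab R (t + 1) := by
    intro R R' hlt i hi j hj h1 h2
    have hne : R ≠ R' := fun h => by rw [h] at hlt; exact lt_irrefl _ hlt
    obtain ⟨c1, c2, c3, -⟩ := S.common R R' hne i hi j hj (h1.trans h2.symm)
    have d1 := (fsi_uniq S hi h1 (fun k hk hk' => c2 k hk (hk'.trans h1.symm))).2
    have d2 := (fsi_uniq S hj h2 (fun k hk hk' => c3 k hk (hk'.trans h2.symm))).2
    rcases fin3_cases R with rfl | rfl | rfl <;> rcases fin3_cases R' with rfl | rfl | rfl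
    · simp at hlt
    · have hp := par01 c1.symm
      refine ⟨2, ?_, md_two (by omega) (by omega)⟩
      intro k hk hkt
      have := par02 (S.common 2 0 (by decide) k hk i hi (hkt.trans h1.symm)).1
      omega
    · have hp := par02 c1.symm
      refine ⟨1, ?_, md_one (by omega) (by omega)⟩
      intro k hk hkt
      have := par01 (S.common 1 0 (by decide) k hk i hi (hkt.trans h1.symm)).1
      omega
    · simp at hlt
    · simp at hlt
    · have hp := par12 c1.symm
      refine ⟨0, ?_, md_zero (by omega) (by omega)⟩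
      intro k hk hkt
      have := par01 (S.common 1 0 (by decide) i hi k hk (h1.trans hkt.symm)).1
      omega
    · simp at hlt
    · simp at hlt
    · simp at hlt
  obtain ⟨R, R', hR, ⟨i, hi, h1⟩, ⟨j, hj, h2⟩⟩ := hc
  rcases lt_trichotomy R.val R'.val with h | h | h
  · exact key R R' h i hi j hj h1 h2
  · exact absurd (Fin.ext h) hR
  · exact key R' R h j hj i hi h2 h1

theorem fin3_four : ∀ a b c d : Fin 3, c ≠ d → a ≠ c → a ≠ d → b ≠ c → b ≠ d → a = b := by
  decide

theorem one_ne {R R' : Fin 3} {t : ℕ} (hc : CL N lab t) (h : NE N lab R t)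
    (h' : NE N lab R' t) : R = R' := by
  obtain ⟨R1, R2, hR, ⟨i, hi, h1⟩, ⟨j, hj, h2⟩⟩ := hc
  have a1 : R ≠ R1 := fun e => h i hi (by rw [e]; exact h1)
  have a2 : R ≠ R2 := fun e => h j hj (by rw [e]; exact h2)
  have b1 : R' ≠ R1 := fun e => h' i hi (by rw [e]; exact h1)
  have b2 : R' ≠ R2 := fun e => h' j hj (by rw [e]; exact h2)
  exact fin3_four R R' R1 R2 hR a1 a2 b1 b2

open scoped Classical in
/-- the largest common label below `t`, or `0` -/
noncomputable def KK (N : ℕ) (lab : Fin 3 → ℕ → ℕ) : ℕ → ℕ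
  | 0 => 0
  | t + 1 => if CL N lab t then t else KK N lab t

theorem KK_succ_pos {t : ℕ} (h : CL N lab t) : KK N lab (t + 1) = t := by
  rw [KK, if_pos h]

theorem KK_succ_neg {t : ℕ} (h : ¬ CL N lab t) : KK N lab (t + 1) = KK N lab t := by
  rw [KK, if_neg h]

theorem KK_lt {t : ℕ} (ht : 1 ≤ t) : KK N lab t < t := by
  induction t with
  | zero => omega
  | succ t ih =>
    by_cases h : CL N lab t
    · rw [KK_succ_pos h]; omega
    · rw [KK_succ_neg h]
      rcases Nat.eq_zero_or_pos t with h0 | h0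
      · subst h0; simp [KK]
      · have := ih h0; omega

theorem KK_cl {t : ℕ} (h : 0 < KK N lab t) : CL N lab (KK N lab t) := by
  induction t with
  | zero => simp [KK] at h
  | succ t ih =>
    by_cases hc : CL N lab t
    · rw [KK_succ_pos hc]; exact hc
    · rw [KK_succ_neg hc] at h ⊢
      exact ih h

theorem le_KK {s t : ℕ} (hs : CL N lab s) (hst : s < t) : s ≤ KK N lab t := by
  induction t with
  | zero => omega
  | succ t ih =>
    by_cases hc : CL N lab t
    · rw [KK_succ_pos hc]; omega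
    · rw [KK_succ_neg hc]
      have : s ≠ t := fun h => hc (h ▸ hs)
      exact ih (by omega)

theorem KK_mono {s t : ℕ} (h : s ≤ t) : KK N lab s ≤ KK N lab t := by
  rcases Nat.eq_zero_or_pos (KK N lab s) with h0 | h0
  · omega
  · rcases Nat.eq_zero_or_pos s with h1 | h1
    · subst h1; simp [KK] at h0
    · exact le_KK (KK_cl h0) (lt_of_lt_of_le (KK_lt h1) h)

theorem md_all (S : Sch N M lab) {t : ℕ} (ht : 1 ≤ t) :
    (KK N lab t = 0 → Md N lab 0 t) ∧
    (0 < KK N lab t → ∃ R, NE N lab R (KK N lab t) ∧ Md N lab R t) := by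
  induction t with
  | zero => omega
  | succ t ih =>
    rcases Nat.eq_zero_or_pos t with h0 | h0
    · subst h0
      have hK : KK N lab (0 + 1) = 0 := by
        by_cases hc : CL N lab 0
        · exact KK_succ_pos hc
        · rw [KK_succ_neg hc]; rfl
      rw [hK]
      refine ⟨fun _ => md_zero ?_ ?_, fun h => absurd h (lt_irrefl _)⟩
      · rw [zero_add, fsi_one S]
      · rw [zero_add, fsi_one S]
    · obtain ⟨i1, i2⟩ := ih h0
      by_cases hc : CL N lab t
      · rw [KK_succ_pos hc]
        exact ⟨fun h => absurd h (by omega), fun _ => cl_third S hc⟩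
      · rw [KK_succ_neg hc]
        refine ⟨fun h => md_step S hc (i1 h), fun h => ?_⟩
        obtain ⟨R, h1, h2⟩ := i2 h
        exact ⟨R, h1, md_step S hc h2⟩

/-- common events -/
def Com (N : ℕ) (lab : Fin 3 → ℕ → ℕ) (R : Fin 3) (i : ℕ) : Prop :=
  ∃ R', R' ≠ R ∧ ∃ j < N, lab R' j = lab R i

theorem solo_ne {R : Fin 3} {i : ℕ} (h : ¬ Com N lab R i) :
    ∀ R', R' ≠ R → NE N lab R' (lab R i) :=
  fun R' hR' j hj hjt => h ⟨R', hR', j, hj, hjt⟩

theorem com_cl {R : Fin 3} {i : ℕ} (hi : i < N) (h : Com N lab R i) : CL N lab (lab R i) := by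
  obtain ⟨R', hR', j, hj, hjt⟩ := h
  exact cl_of hR'.symm hi hj rfl hjt

theorem solo_zero (S : Sch N M lab) {R : Fin 3} {i : ℕ} (hi : i < N) (h : ¬ Com N lab R i)
    (hK : KK N lab (lab R i) = 0) : R = 0 :=
  md_uniq (solo_md S hi rfl (solo_ne h)) ((md_all S (S.pos R i hi)).1 hK)

theorem solo_pos (S : Sch N M lab) {R : Fin 3} {i : ℕ} (hi : i < N) (h : ¬ Com N lab R i)
    (hK : 0 < KK N lab (lab R i)) : NE N lab R (KK N lab (lab R i)) := by
  obtain ⟨R', h1, h2⟩ := (md_all S (S.pos R i hi)).2 hK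
  have := md_uniq (solo_md S hi rfl (solo_ne h)) h2
  rw [this] at h1 ⊢
  exact h1

end mode

section fin

variable {N M : ℕ} {lab : Fin 3 → ℕ → ℕ}

/-- two finishing events of the same player have the same label -/
theorem fin_eq (S : Sch N M lab) {R R' : Fin 3} (hR : R ≠ R') {i j : ℕ} (hi : i < N)
    (hi2 : N ≤ i + 2) (hp : plr R' j = plr R i)
    (hpar : ∀ k < N, N ≤ k + 2 → plr R' k = plr R i → k = j) : lab R i = lab R' j := by
  obtain ⟨k, h1, h2, -, -, h5⟩ := S.timing R R' hR i hi ⟨j, hp⟩
  have h6 := h5 hi2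
  have h7 := (S.common R R' hR i hi k h1 h6).2.2.2.1 hi2
  rw [h6, hpar k h1 h7 h2]

theorem finz (S : Sch N M lab) : lab 2 (N - 2) = lab 1 (N - 2) := by
  have := S.odd
  have := S.five
  refine (fin_eq S (R := 1) (R' := 2) (by decide) (by omega) (by omega)
    ?_ ?_).symm
  · rw [plr1o (by omega), plr2o (by omega)]
  · intro k hk hk2 h
    have := par12 h
    omega

theorem finy (S : Sch N M lab) : lab 0 (N - 2) = lab 2 (N - 1) := by
  have := S.odd
  have := S.five
  refine fin_eq S (R := 0) (R' := 2) (by decide) (by omega) (by omega)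
    ?_ ?_
  · rw [plr0o (by omega), plr2e (by omega)]
  · intro k hk hk2 h
    have := par02 h
    omega

theorem finx (S : Sch N M lab) : lab 0 (N - 1) = lab 1 (N - 1) := by
  have := S.odd
  have := S.five
  refine fin_eq S (R := 0) (R' := 1) (by decide) (by omega) (by omega)
    ?_ ?_
  · rw [plr0e (by omega), plr1e (by omega)]
  · intro k hk hk2 h
    have := par01 h
    omega

theorem lt_zy (S : Sch N M lab) : lab 1 (N - 2) < lab 2 (N - 1) := by
  have h0 := S.odd
  have h1 := S.five
  have h2 := S.mono 2 (N - 2) (N - 1) (by omega) (by omega)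
  rw [finz S] at h2
  rcases Nat.lt_or_ge (lab 1 (N - 2)) (lab 2 (N - 1)) with h | h
  · exact h
  · have h3 := (S.common 1 2 (by decide) (N - 2) (by omega) (N - 2) (by omega)
      (finz S).symm).2.2.1 (N - 1) (by omega) (by rw [finz S]; omega)
    omega

theorem lt_yx (S : Sch N M lab) : lab 2 (N - 1) < lab 0 (N - 1) := by
  have h0 := S.odd
  have h1 := S.five
  have h2 := S.mono 0 (N - 2) (N - 1) (by omega) (by omega)
  rw [finy S] at h2
  rcases Nat.lt_or_ge (lab 2 (N - 1)) (lab 0 (N - 1)) with h | h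
  · exact h
  · have h3 := (S.common 0 2 (by decide) (N - 2) (by omega) (N - 1) (by omega)
      (finy S)).2.1 (N - 1) (by omega) (by rw [finy S]; omega)
    omega

/-- early events of the runs `1, 2` -/
theorem early_lt (S : Sch N M lab) {R : Fin 3} (hR : R ≠ 0) {i : ℕ} (hi : i + 3 ≤ N) :
    lab R i < lab 1 (N - 2) := by
  have h1 : lab R (N - 2) = lab 1 (N - 2) := by
    rcases fin3_cases R with rfl | rfl | rfl
    · exact absurd rfl hR
    · rfl
    · exact finz S
  have h2 := S.mono R i (N - 2) (by omega) (by omega)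
  rcases Nat.lt_or_ge (lab R i) (lab 1 (N - 2)) with h | h
  · exact h
  · have hc := S.common 1 2 (by decide) (N - 2) (by omega) (N - 2) (by omega) (finz S).symm
    rcases fin3_cases R with rfl | rfl | rfl
    · exact absurd rfl hR
    · have := hc.2.1 i (by omega) (by omega)
      omega
    · have := hc.2.2.1 i (by omega) (by omega)
      omega

theorem early_le (S : Sch N M lab) {R : Fin 3} {i : ℕ} (hi : i + 3 ≤ N) :
    lab R i ≤ lab 2 (N - 1) := by
  by_cases hR : R = 0
  · subst hR
    have h1 := S.mono 0 i (N - 2) (by omega) (by omega)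
    rw [finy S] at h1
    exact h1
  · have := early_lt S hR hi
    have := lt_zy S
    omega

theorem com_lt (S : Sch N M lab) {R : Fin 3} {i : ℕ} (hi : i + 3 ≤ N) (hc : Com N lab R i) :
    lab R i < lab 1 (N - 2) := by
  obtain ⟨R', hR', j, hj, hjt⟩ := hc
  by_cases hR : R = 0
  · have h1 := (S.common R R' hR'.symm i (by omega) j hj hjt.symm).2.2.2
    have h2 : j + 3 ≤ N := by omega
    rw [← hjt]
    exact early_lt S (by rw [← hR]; exact hR') h2
  · exact early_lt S hR hi

/-- labels of the last two events -/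
theorem late_cases (S : Sch N M lab) {R : Fin 3} {i : ℕ} (hi : i < N) (hi2 : N ≤ i + 2) :
    lab R i = lab 1 (N - 2) ∨ lab 2 (N - 1) ≤ lab R i := by
  have h0 := S.five
  have hi3 : i = N - 2 ∨ i = N - 1 := by omega
  rcases hi3 with rfl | rfl
  · rcases fin3_cases R with rfl | rfl | rfl
    · right; rw [finy S]
    · left; rfl
    · left; exact finz S
  · rcases fin3_cases R with rfl | rfl | rfl
    · right; exact (lt_yx S).le
    · right; rw [← finx S]; exact (lt_yx S).le
    · right; exact le_rfl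

theorem KK_le_L (S : Sch N M lab) {R : Fin 3} {i : ℕ} (hi : i + 3 ≤ N) :
    KK N lab (lab R i) ≤ lab 1 (N - 2) := by
  by_contra hcon
  push Not at hcon
  have hK := KK_cl (N := N) (lab := lab) (t := lab R i) (by omega)
  have hlt := KK_lt (N := N) (lab := lab) (S.pos R i (by omega))
  have hle := early_le S (R := R) hi
  obtain ⟨R1, R2, hR, ⟨a, ha, h1⟩, ⟨b, hb, h2⟩⟩ := hK
  rcases Nat.lt_or_ge (a + 2) N with h3 | h3
  · have h4 : Com N lab R1 a := ⟨R2, hR.symm, b, hb, h2.trans h1.symm⟩
    have h5 := com_lt S (by omega) h4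
    omega
  · rcases late_cases S (R := R1) ha h3 with h4 | h4 <;> omega

open scoped Classical in
/-- the new label of the old event `(R, a)` -/
noncomputable def rv (N : ℕ) (lab : Fin 3 → ℕ → ℕ) (R : Fin 3) (a : ℕ) : ℕ :=
  if Com N lab R a then 2 * (lab 1 (N - 2) - lab R a)
  else 2 * (lab 1 (N - 2) - KK N lab (lab R a)) + 1

/-- the new labels -/
noncomputable def rl (N : ℕ) (lab : Fin 3 → ℕ → ℕ) (R : Fin 3) (j : ℕ) : ℕ :=
  if j + 3 ≤ N then rv N lab R (N - 3 - j)
  else if j + 2 = N then (if R = 0 then 2 * lab 1 (N - 2) + 2 else 2 * lab 1 (N - 2))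
  else (if R = 2 then 2 * lab 1 (N - 2) + 2 else 2 * lab 1 (N - 2) + 3)

theorem rv_com {R : Fin 3} {a : ℕ} (h : Com N lab R a) :
    rv N lab R a = 2 * (lab 1 (N - 2) - lab R a) := by
  unfold rv; rw [if_pos h]

theorem rv_solo {R : Fin 3} {a : ℕ} (h : ¬ Com N lab R a) :
    rv N lab R a = 2 * (lab 1 (N - 2) - KK N lab (lab R a)) + 1 := by
  unfold rv; rw [if_neg h]

theorem rl_early {R : Fin 3} {j : ℕ} (h : j + 3 ≤ N) : rl N lab R j = rv N lab R (N - 3 - j) := by
  unfold rl; rw [if_pos h]

theorem rl_early' {R : Fin 3} {a j : ℕ} (h : j + 3 + a = N) : rl N lab R j = rv N lab R a := by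
  rw [rl_early (by omega)]; congr 1; omega

theorem rl_p {R : Fin 3} {j : ℕ} (h : j + 2 = N) : rl N lab R j =
    if R = 0 then 2 * lab 1 (N - 2) + 2 else 2 * lab 1 (N - 2) := by
  unfold rl; rw [if_neg (by omega), if_pos h]

theorem rl_l {R : Fin 3} {j : ℕ} (h : j + 1 = N) : rl N lab R j =
    if R = 2 then 2 * lab 1 (N - 2) + 2 else 2 * lab 1 (N - 2) + 3 := by
  unfold rl; rw [if_neg (by omega), if_neg (by omega)]

/-- an event of another run between a common label and a solo event -/
theorem com_solo (S : Sch N M lab) {R R' : Fin 3} {a b : ℕ} (ha : a < N) (hb : b < N)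
    (hc : Com N lab R a) (hs : ¬ Com N lab R' b) (hlt : lab R a < lab R' b)
    (he : ∃ j < N, lab R' j = lab R a) : lab R a < KK N lab (lab R' b) := by
  have h1 := le_KK (com_cl ha hc) hlt
  rcases Nat.lt_or_ge (lab R a) (KK N lab (lab R' b)) with h | h
  · exact h
  · have h2 : KK N lab (lab R' b) = lab R a := by omega
    have h3 := S.pos R a ha
    have h4 := solo_pos S hb hs (by omega)
    obtain ⟨j, hj, hj2⟩ := he
    exact absurd (hj2.trans h2.symm) (h4 j hj)

theorem rv_range (S : Sch N M lab) {R : Fin 3} {a : ℕ} (ha : a + 3 ≤ N) :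
    1 ≤ rv N lab R a ∧ ((Com N lab R a ∧ rv N lab R a % 2 = 0 ∧
      rv N lab R a + 2 ≤ 2 * lab 1 (N - 2)) ∨
      (¬ Com N lab R a ∧ rv N lab R a % 2 = 1 ∧ rv N lab R a ≤ 2 * lab 1 (N - 2) + 1)) ∧
    (R ≠ 0 → rv N lab R a + 1 ≤ 2 * lab 1 (N - 2)) := by
  by_cases hc : Com N lab R a
  · have h1 := com_lt S ha hc
    have h2 := S.pos R a (by omega)
    rw [rv_com hc]
    refine ⟨by omega, Or.inl ⟨hc, by omega, by omega⟩, fun _ => by omega⟩
  · have h1 := KK_le_L S (R := R) ha
    rw [rv_solo hc]
    refine ⟨by omega, Or.inr ⟨hc, by omega, by omega⟩, fun hR => ?_⟩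
    have h2 : KK N lab (lab R a) ≠ 0 := fun h => hR (solo_zero S (by omega) hc h)
    omega

theorem plr_third {R R' R'' : Fin 3} {a b c : ℕ} (h1 : R ≠ R') (h2 : R'' ≠ R)
    (h3 : plr R a = plr R' b) (h4 : plr R'' c = plr R a) : R'' = R' := by
  rcases fin3_cases R with rfl | rfl | rfl <;> rcases fin3_cases R' with rfl | rfl | rfl <;>
    rcases fin3_cases R'' with rfl | rfl | rfl
  all_goals first
    | rfl
    | exact (h1 rfl).elim
    | exact (h2 rfl).elim
    | skip
  · have := par01 h3.symm; have := par02 h4; omega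
  · have := par02 h3.symm; have := par01 h4; omega
  · have := par01 h3; have := par12 h4; omega
  · have := par12 h3.symm; have := par01 h4.symm; omega
  · have := par02 h3; have := par12 h4.symm; omega
  · have := par12 h3; have := par02 h4.symm; omega

/-- the label of a common event occurs in the other run of the player -/
theorem com_other (S : Sch N M lab) {R R' : Fin 3} {a b : ℕ} (ha : a < N) (hR : R ≠ R')
    (hc : Com N lab R a) (hp : plr R a = plr R' b) : ∃ j < N, lab R' j = lab R a := by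
  obtain ⟨R'', hR'', j, hj, hjt⟩ := hc
  have h1 := (S.common R'' R hR'' j hj a ha hjt).1
  have h2 := plr_third hR hR'' hp h1
  subst h2
  exact ⟨j, hj, hjt⟩

theorem rv_anti (S : Sch N M lab) {R R' : Fin 3} (hR : R ≠ R') {a b : ℕ} (ha : a + 3 ≤ N)
    (hb : b + 3 ≤ N) (hp : plr R a = plr R' b) (hlt : lab R a < lab R' b) :
    rv N lab R' b < rv N lab R a := by
  have ka := KK_lt (N := N) (lab := lab) (S.pos R a (by omega))
  have kb := KK_lt (N := N) (lab := lab) (S.pos R' b (by omega))
  by_cases hca : Com N lab R a <;> by_cases hcb : Com N lab R' b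
  · have := com_lt S hb hcb
    rw [rv_com hca, rv_com hcb]; omega
  · have h1 := com_solo S (by omega) (by omega) hca hcb hlt
      (com_other S (by omega) hR hca hp)
    have h2 := KK_le_L S (R := R') hb
    rw [rv_com hca, rv_solo hcb]; omega
  · have := com_lt S hb hcb
    rw [rv_solo hca, rv_com hcb]; omega
  · have h2 := KK_le_L S (R := R') hb
    have h3 := KK_mono (N := N) (lab := lab) hlt.le
    have h4 : KK N lab (lab R a) ≠ KK N lab (lab R' b) := by
      intro h
      rcases Nat.eq_zero_or_pos (KK N lab (lab R a)) with h5 | h5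
      · exact hR ((solo_zero S (by omega) hca h5).trans
          (solo_zero S (by omega) hcb (h ▸ h5)).symm)
      · have e1 := solo_pos S (by omega) hca h5
        have e2 := solo_pos S (by omega) hcb (h ▸ h5)
        rw [← h] at e2
        exact hR (one_ne (KK_cl h5) e1 e2)
    rw [rv_solo hca, rv_solo hcb]; omega

/-- strictness below a common event -/
theorem rv_strict (S : Sch N M lab) {R : Fin 3} {a b : ℕ} (hab : a < b) (hb : b + 3 ≤ N)
    (hca : Com N lab R a) : rv N lab R b < rv N lab R a := by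
  have kb := KK_lt (N := N) (lab := lab) (S.pos R b (by omega))
  have hlt : lab R a < lab R b := by
    have h1 := S.mono R a b hab.le (by omega)
    have h2 : lab R b ≠ lab R a := by
      intro h
      obtain ⟨R', hR', j, hj, hjt⟩ := hca
      have := (S.common R R' hR'.symm a (by omega) j hj hjt.symm).2.1 b (by omega) h
      omega
    omega
  by_cases hcb : Com N lab R b
  · have := com_lt S hb hcb
    rw [rv_com hca, rv_com hcb]; omega
  · have h1 := com_solo S (by omega) (by omega) hca hcb hlt ⟨a, by omega, rfl⟩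
    have h2 := KK_le_L S (R := R) hb
    rw [rv_com hca, rv_solo hcb]; omega

theorem rv_mono (S : Sch N M lab) {R : Fin 3} {a b : ℕ} (hab : a ≤ b) (hb : b + 3 ≤ N) :
    rv N lab R b ≤ rv N lab R a := by
  rcases Nat.eq_or_lt_of_le hab with rfl | hlt
  · exact le_rfl
  · have ka := KK_lt (N := N) (lab := lab) (S.pos R a (by omega))
    have hle := S.mono R a b hab (by omega)
    by_cases hca : Com N lab R a
    · exact (rv_strict S hlt hb hca).le
    · by_cases hcb : Com N lab R b
      · have := com_lt S hb hcb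
        rw [rv_solo hca, rv_com hcb]; omega
      · have h2 := KK_le_L S (R := R) hb
        have h3 := KK_mono (N := N) (lab := lab) hle
        rw [rv_solo hca, rv_solo hcb]; omega

theorem plr_pc {R : Fin 3} {i j : ℕ} (h : i % 2 = j % 2) : plr R i = plr R j := by
  unfold plr; rw [h]

theorem rl_early_bd (S : Sch N M lab) {R : Fin 3} {j : ℕ} (hj : j + 3 ≤ N) :
    1 ≤ rl N lab R j ∧ rl N lab R j ≤ 2 * lab 1 (N - 2) + 1 ∧
    (R ≠ 0 → rl N lab R j + 1 ≤ 2 * lab 1 (N - 2)) ∧
    rl N lab R j ≠ 2 * lab 1 (N - 2) := by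
  rw [rl_early hj]
  obtain ⟨h1, h2, h3⟩ := rv_range S (R := R) (a := N - 3 - j) (by omega)
  refine ⟨h1, by omega, h3, by omega⟩

theorem rl_rng (S : Sch N M lab) (R : Fin 3) (j : ℕ) (hj : j < N) :
    1 ≤ rl N lab R j ∧ rl N lab R j ≤ 2 * M + 6 := by
  have h0 := S.five
  have h1 := S.pos 1 (N - 2) (by omega)
  have h2 := S.le 1 (N - 2) (by omega)
  have h3 : j + 3 ≤ N ∨ j + 2 = N ∨ j + 1 = N := by omega
  rcases h3 with h3 | h3 | h3
  · have := rl_early_bd S (R := R) h3
    omega
  · rw [rl_p h3]; split_ifs <;> omega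
  · rw [rl_l h3]; split_ifs <;> omega

theorem rl_mono (S : Sch N M lab) (R : Fin 3) (i j : ℕ) (hij : i ≤ j) (hj : j < N) :
    rl N lab R i ≤ rl N lab R j := by
  rcases Nat.eq_or_lt_of_le hij with rfl | hlt
  · exact le_rfl
  have h3 : j + 3 ≤ N ∨ j + 2 = N ∨ j + 1 = N := by omega
  rcases h3 with h3 | h3 | h3
  · rw [rl_early h3, rl_early (by omega : i + 3 ≤ N)]
    exact rv_mono S (by omega) (by omega)
  · have h4 := rl_early_bd S (R := R) (j := i) (by omega)
    rw [rl_p h3]
    by_cases hR : R = 0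
    · rw [if_pos hR]; omega
    · rw [if_neg hR]
      have := h4.2.2.1 hR
      omega
  · have h5 : i + 3 ≤ N ∨ i + 2 = N := by omega
    rcases h5 with h5 | h5
    · have h4 := rl_early_bd S (R := R) (j := i) (by omega)
      rw [rl_l h3]
      split_ifs <;> omega
    · rw [rl_p h5, rl_l h3]
      split_ifs <;> omega

theorem uniq_early (S : Sch N M lab) {R : Fin 3} {a : ℕ} (ha : a + 3 ≤ N)
    (hc : Com N lab R a) {k : ℕ} (hk : k < N) (h : rl N lab R k = rv N lab R a) :
    k = N - 3 - a := by
  have h3 : k + 3 ≤ N ∨ k + 2 = N ∨ k + 1 = N := by omega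
  have h4 := rv_range S (R := R) ha
  have h4' : rv N lab R a + 2 ≤ 2 * lab 1 (N - 2) ∧ rv N lab R a % 2 = 0 := by
    rcases h4.2.1 with h5 | h5
    · exact ⟨h5.2.2, h5.2.1⟩
    · exact absurd hc h5.1
  rcases h3 with h3 | h3 | h3
  · rw [rl_early h3] at h
    have h5 := rv_range S (R := R) (a := N - 3 - k) (by omega)
    have hc' : Com N lab R (N - 3 - k) := by
      rcases h5.2.1 with h6 | h6
      · exact h6.1
      · omega
    have h6 := com_lt S (by omega) hc
    have h7 := com_lt S (by omega) hc'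
    rw [rv_com hc, rv_com hc'] at h
    obtain ⟨R', hR', j, hj, hjt⟩ := hc
    have := (S.common R R' hR'.symm a (by omega) j hj hjt.symm).2.1 (N - 3 - k) (by omega)
      (by omega)
    omega
  · rw [rl_p h3] at h
    split_ifs at h <;> omega
  · rw [rl_l h3] at h
    split_ifs at h <;> omega

theorem uniq_late (S : Sch N M lab) {R : Fin 3} {i : ℕ} (hi : i < N) (hi2 : N ≤ i + 2)
    {k : ℕ} (hk : k < N) (h : rl N lab R k = rl N lab R i) : k = i := by
  have h3 : k + 3 ≤ N ∨ k + 2 = N ∨ k + 1 = N := by omega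
  have h4 : i + 2 = N ∨ i + 1 = N := by omega
  rcases h3 with h3 | h3 | h3
  · have h5 := rl_early_bd S (R := R) (j := k) h3
    rcases h4 with h4 | h4
    · rw [rl_p h4] at h
      split_ifs at h <;> omega
    · rw [rl_l h4] at h
      split_ifs at h <;> omega
  · rcases h4 with h4 | h4
    · omega
    · rw [rl_p h3, rl_l h4] at h
      split_ifs at h with h6 h7 <;> omega
  · rcases h4 with h4 | h4
    · rw [rl_l h3, rl_p h4] at h
      split_ifs at h with h6 h7 <;> omega
    · omega

theorem rl_common (S : Sch N M lab) (R R' : Fin 3) (hR : R ≠ R') (i : ℕ) (hi : i < N) (j : ℕ)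
    (hj : j < N) (h : rl N lab R i = rl N lab R' j) :
    plr R i = plr R' j ∧ (∀ k < N, rl N lab R k = rl N lab R i → k = i) ∧
    (∀ k < N, rl N lab R' k = rl N lab R' j → k = j) ∧ (N ≤ i + 2 ↔ N ≤ j + 2) := by
  have hodd := S.odd
  rcases Nat.lt_or_ge (i + 2) N with h1 | h1 <;> rcases Nat.lt_or_ge (j + 2) N with h2 | h2
  · -- early, early
    have hi' : i + 3 ≤ N := h1
    have hj' : j + 3 ≤ N := h2
    have e1 := rl_early (N := N) (lab := lab) (R := R) hi'
    have e2 := rl_early (N := N) (lab := lab) (R := R') hj'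
    have r1 := rv_range S (R := R) (a := N - 3 - i) (by omega)
    have r2 := rv_range S (R := R') (a := N - 3 - j) (by omega)
    rw [e1, e2] at h
    rcases r1.2.1 with ⟨c1, p1, q1⟩ | ⟨c1, p1, q1⟩ <;>
      rcases r2.2.1 with ⟨c2, p2, q2⟩ | ⟨c2, p2, q2⟩
    · have l1 := com_lt S (by omega) c1
      have l2 := com_lt S (by omega) c2
      have h' := h
      rw [rv_com c1, rv_com c2] at h'
      have h3 := S.common R R' hR (N - 3 - i) (by omega) (N - 3 - j) (by omega) (by omega)
      refine ⟨?_, ?_, ?_, by omega⟩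
      · rw [plr_pc (i := i) (j := N - 3 - i) (by omega),
          plr_pc (i := j) (j := N - 3 - j) (by omega)]
        exact h3.1
      · intro k hk hkt
        have := uniq_early S (by omega) c1 hk (hkt.trans e1)
        omega
      · intro k hk hkt
        have := uniq_early S (by omega) c2 hk (hkt.trans e2)
        omega
    · omega
    · omega
    · exfalso
      have l1 := KK_le_L S (R := R) (i := N - 3 - i) (by omega)
      have l2 := KK_le_L S (R := R') (i := N - 3 - j) (by omega)
      rw [rv_solo c1, rv_solo c2] at h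
      have h4 : KK N lab (lab R (N - 3 - i)) = KK N lab (lab R' (N - 3 - j)) := by omega
      rcases Nat.eq_zero_or_pos (KK N lab (lab R (N - 3 - i))) with h5 | h5
      · exact hR ((solo_zero S (by omega) c1 h5).trans
          (solo_zero S (by omega) c2 (h4 ▸ h5)).symm)
      · have e1 := solo_pos S (by omega) c1 h5
        have e2 := solo_pos S (by omega) c2 (h4 ▸ h5)
        rw [← h4] at e2
        exact hR (one_ne (KK_cl h5) e1 e2)
  · exfalso
    have r1 := rl_early_bd S (R := R) (j := i) h1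
    have h4 : j + 2 = N ∨ j + 1 = N := by omega
    rcases h4 with h4 | h4
    · rw [rl_p h4] at h
      split_ifs at h <;> omega
    · rw [rl_l h4] at h
      split_ifs at h <;> omega
  · exfalso
    have r1 := rl_early_bd S (R := R') (j := j) h2
    have h4 : i + 2 = N ∨ i + 1 = N := by omega
    rcases h4 with h4 | h4
    · rw [rl_p h4] at h
      split_ifs at h <;> omega
    · rw [rl_l h4] at h
      split_ifs at h <;> omega
  · refine ⟨?_, fun k hk hkt => uniq_late S hi h1 hk hkt,
      fun k hk hkt => uniq_late S hj h2 hk hkt, by omega⟩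
    have h3 : i + 2 = N ∨ i + 1 = N := by omega
    have h4 : j + 2 = N ∨ j + 1 = N := by omega
    rcases h3 with h3 | h3 <;> rcases h4 with h4 | h4
    · rw [rl_p h3, rl_p h4] at h
      rcases fin3_cases R with rfl | rfl | rfl <;> rcases fin3_cases R' with rfl | rfl | rfl
      all_goals first
        | exact (hR rfl).elim
        | (simp at h; done)
        | (simp only [plr1o (show (i : ℕ) % 2 = 1 by omega), plr2o (show (i : ℕ) % 2 = 1 by omega),
            plr1o (show (j : ℕ) % 2 = 1 by omega), plr2o (show (j : ℕ) % 2 = 1 by omega)])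
    · rw [rl_p h3, rl_l h4] at h
      rcases fin3_cases R with rfl | rfl | rfl <;> rcases fin3_cases R' with rfl | rfl | rfl
      all_goals first
        | exact (hR rfl).elim
        | (simp at h; done)
        | (rw [plr0o (by omega), plr2e (by omega)])
    · rw [rl_l h3, rl_p h4] at h
      rcases fin3_cases R with rfl | rfl | rfl <;> rcases fin3_cases R' with rfl | rfl | rfl
      all_goals first
        | exact (hR rfl).elim
        | (simp at h; done)
        | (rw [plr2e (by omega), plr0o (by omega)])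
    · rw [rl_l h3, rl_l h4] at h
      rcases fin3_cases R with rfl | rfl | rfl <;> rcases fin3_cases R' with rfl | rfl | rfl
      all_goals first
        | exact (hR rfl).elim
        | (simp at h; done)
        | (simp only [plr0e (show (i : ℕ) % 2 = 0 by omega), plr1e (show (i : ℕ) % 2 = 0 by omega),
            plr0e (show (j : ℕ) % 2 = 0 by omega), plr1e (show (j : ℕ) % 2 = 0 by omega)])

theorem last_gt (S : Sch N M lab) (R : Fin 3) : lab 1 (N - 2) < lab R (N - 1) := by
  have h1 := lt_zy S
  have h2 := lt_yx S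
  have h3 := finx S
  rcases fin3_cases R with rfl | rfl | rfl <;> omega

/-- timing at an early event which is a common one in the old schedule -/
theorem rl_timing_com (S : Sch N M lab) {R R' : Fin 3} (hR : R ≠ R') {a : ℕ} (ha : a + 3 ≤ N)
    (hc : Com N lab R a) (hj : ∃ j, plr R' j = plr R a) : ∃ j < N, plr R' j = plr R a ∧
      rv N lab R a ≤ rl N lab R' j ∧ (∀ k < j, rl N lab R' k < rv N lab R a) := by
  have hodd := S.odd
  obtain ⟨j0, hj0⟩ := hj
  obtain ⟨b, hb, hbt⟩ := com_other S (by omega) hR hc hj0.symm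
  have h1 := S.common R R' hR a (by omega) b hb hbt.symm
  have hb3 : b + 3 ≤ N := by omega
  have hcb : Com N lab R' b := ⟨R, hR, a, by omega, hbt.symm⟩
  have hv : rv N lab R' b = rv N lab R a := by rw [rv_com hcb, rv_com hc, hbt]
  refine ⟨N - 3 - b, by omega, ?_, ?_, ?_⟩
  · rw [h1.1]
    exact plr_pc (by omega)
  · rw [rl_early' (a := b) (by omega), hv]
  · intro k hk
    rw [rl_early (by omega), ← hv]
    exact rv_strict S (by omega) (by omega) hcb

/-- timing at an early event which is a solo one in the old schedule, before all common ones -/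
theorem rl_timing_zero (S : Sch N M lab) {R R' : Fin 3} (hR : R ≠ R') {a : ℕ} (ha : a + 3 ≤ N)
    (hc : ¬ Com N lab R a) (hK : KK N lab (lab R a) = 0) (hj : ∃ j, plr R' j = plr R a) :
    ∃ j < N, plr R' j = plr R a ∧
      rv N lab R a ≤ rl N lab R' j ∧ (∀ k < j, rl N lab R' k < rv N lab R a) := by
  have hodd := S.odd
  obtain ⟨j0, hj0⟩ := hj
  have h0 := solo_zero S (by omega) hc hK
  subst h0
  have hv := rv_solo hc
  rw [hK, Nat.sub_zero] at hv
  refine ⟨N - 1, by omega, ?_, ?_, ?_⟩
  · rcases fin3_cases R' with rfl | rfl | rfl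
    · exact absurd rfl hR
    · have := par01 hj0
      rw [plr1e (by omega), plr0e (by omega)]
    · have := par02 hj0
      rw [plr2e (by omega), plr0o (by omega)]
  · rw [rl_l (by omega), hv]
    split_ifs <;> omega
  · intro k hk
    rw [hv]
    have h3 : k + 3 ≤ N ∨ k + 2 = N := by omega
    rcases h3 with h3 | h3
    · have := (rl_early_bd S (R := R') h3).2.2.1 hR.symm
      omega
    · rw [rl_p h3, if_neg hR.symm]
      omega

/-- timing at an early event which is a solo one in the old schedule -/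
theorem rl_timing_pos (S : Sch N M lab) {R R' : Fin 3} (hR : R ≠ R') {a : ℕ} (ha : a + 3 ≤ N)
    (hc : ¬ Com N lab R a) (hK : 0 < KK N lab (lab R a)) (hj : ∃ j, plr R' j = plr R a) :
    ∃ j < N, plr R' j = plr R a ∧
      rv N lab R a ≤ rl N lab R' j ∧ (∀ k < j, rl N lab R' k < rv N lab R a) := by
  have hodd := S.odd
  obtain ⟨j0, hj0⟩ := hj
  have hv := rv_solo hc
  have hKL := KK_le_L S (R := R) ha
  have hne := solo_pos S (by omega) hc hK
  have hcl := KK_cl hK
  obtain ⟨K, hKd⟩ : ∃ K, K = KK N lab (lab R a) := ⟨_, rfl⟩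
  rw [← hKd] at hv hKL hne hcl hK
  have hex : ∃ k0 < N, lab R' k0 = K := by
    by_contra h
    push Not at h
    exact hR (one_ne hcl hne h)
  obtain ⟨k0, hk0, hk0t⟩ := hex
  have hk2 : k0 + 2 ≤ N := by
    by_contra h
    have h1 : k0 = N - 1 := by omega
    have := last_gt S R'
    rw [← h1] at this
    omega
  have hother : ∃ R'', R'' ≠ R' ∧ ∃ m < N, lab R'' m = K := by
    obtain ⟨R1, R2, h12, h1, h2⟩ := hcl
    by_cases h : R1 = R'
    · exact ⟨R2, fun e => h12 (h.trans e.symm), h2⟩
    · exact ⟨R1, h, h1⟩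
  obtain ⟨R'', hR'', m, hm, hmt⟩ := hother
  have hcm := S.common R' R'' hR''.symm k0 hk0 m hm (hk0t.trans hmt.symm)
  have hck : Com N lab R' k0 := ⟨R'', hR'', m, hm, hmt.trans hk0t.symm⟩
  have hpne : plr R' k0 ≠ plr R a := by
    intro h
    have h1 := plr_third hR.symm hR'' h hcm.1.symm
    subst h1
    exact hne m hm hmt
  have hpar : j0 % 2 ≠ k0 % 2 := fun h => hpne ((plr_pc h).symm.trans hj0)
  refine ⟨N - 2 - k0, by omega, ?_, ?_, ?_⟩
  · rw [← hj0]
    exact plr_pc (by omega)
  · rw [hv]
    rcases Nat.eq_zero_or_pos k0 with h0 | h0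
    · subst h0
      rw [rl_p (by omega)]
      split_ifs <;> omega
    · rw [rl_early' (a := k0 - 1) (by omega)]
      have h1 := S.mono R' (k0 - 1) k0 (by omega) hk0
      have h2 : lab R' (k0 - 1) ≠ lab R' k0 := fun h => by
        have := hcm.2.1 (k0 - 1) (by omega) h
        omega
      by_cases hcc : Com N lab R' (k0 - 1)
      · rw [rv_com hcc]; omega
      · have h3 := KK_lt (N := N) (lab := lab) (S.pos R' (k0 - 1) (by omega))
        rw [rv_solo hcc]; omega
  · intro k hk
    rw [rl_early (by omega), hv]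
    have h1 := rv_mono S (R := R') (a := k0) (b := N - 3 - k) (by omega) (by omega)
    have h2 := rv_com hck
    rw [hk0t] at h2
    omega

theorem rl_timing (S : Sch N M lab) (R R' : Fin 3) (hR : R ≠ R') (i : ℕ) (hi : i < N)
    (hj : ∃ j, plr R' j = plr R i) : ∃ j < N, plr R' j = plr R i ∧
      rl N lab R i ≤ rl N lab R' j ∧ (∀ k < j, rl N lab R' k < rl N lab R i) ∧
      (N ≤ i + 2 → rl N lab R i = rl N lab R' j) := by
  have hodd := S.odd
  have h5 := S.five
  rcases Nat.lt_or_ge (i + 2) N with h1 | h1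
  · have hp : plr R i = plr R (N - 3 - i) := plr_pc (by omega)
    have e1 := rl_early (N := N) (lab := lab) (R := R) (j := i) h1
    have key : ∃ j < N, plr R' j = plr R (N - 3 - i) ∧
        rv N lab R (N - 3 - i) ≤ rl N lab R' j ∧
        (∀ k < j, rl N lab R' k < rv N lab R (N - 3 - i)) := by
      rw [hp] at hj
      by_cases hc : Com N lab R (N - 3 - i)
      · exact rl_timing_com S hR (by omega) hc hj
      · rcases Nat.eq_zero_or_pos (KK N lab (lab R (N - 3 - i))) with hK | hK
        · exact rl_timing_zero S hR (by omega) hc hK hj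
        · exact rl_timing_pos S hR (by omega) hc hK hj
    obtain ⟨j, g1, g2, g3, g4⟩ := key
    rw [e1, hp]
    exact ⟨j, g1, g2, g3, g4, fun h => by omega⟩
  · obtain ⟨j0, hj0⟩ := hj
    have hbd : ∀ R : Fin 3, ∀ k, k + 3 ≤ N → rl N lab R k < 2 * lab 1 (N - 2) + 2 ∧
        (R ≠ 0 → rl N lab R k < 2 * lab 1 (N - 2)) := by
      intro R k hk
      have := rl_early_bd S (R := R) hk
      refine ⟨by omega, fun h => ?_⟩
      have := this.2.2.1 h
      omega
    -- values of the last two labels
    have v0p : rl N lab 0 (N - 2) = 2 * lab 1 (N - 2) + 2 := by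
      rw [rl_p (by omega), if_pos rfl]
    have v1p : rl N lab 1 (N - 2) = 2 * lab 1 (N - 2) := by
      rw [rl_p (by omega), if_neg (by decide)]
    have v2p : rl N lab 2 (N - 2) = 2 * lab 1 (N - 2) := by
      rw [rl_p (by omega), if_neg (by decide)]
    have v0l : rl N lab 0 (N - 1) = 2 * lab 1 (N - 2) + 3 := by
      rw [rl_l (by omega), if_neg (by decide)]
    have v1l : rl N lab 1 (N - 1) = 2 * lab 1 (N - 2) + 3 := by
      rw [rl_l (by omega), if_neg (by decide)]
    have v2l : rl N lab 2 (N - 1) = 2 * lab 1 (N - 2) + 2 := by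
      rw [rl_l (by omega), if_pos rfl]
    have hi' : i = N - 2 ∨ i = N - 1 := by omega
    rcases hi' with rfl | rfl
    · rcases fin3_cases R with rfl | rfl | rfl <;> rcases fin3_cases R' with rfl | rfl | rfl
      · exact absurd rfl hR
      · have := par01 hj0; omega
      · refine ⟨N - 1, by omega, ?_, by omega, ?_, fun _ => by omega⟩
        · rw [plr2e (by omega), plr0o (by omega)]
        · intro k hk
          have h3 : k + 3 ≤ N ∨ k = N - 2 := by omega
          rcases h3 with h3 | rfl
          · have := hbd 2 k h3; omega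
          · omega
      · have := par01 hj0.symm; omega
      · exact absurd rfl hR
      · refine ⟨N - 2, by omega, ?_, by omega, ?_, fun _ => by omega⟩
        · rw [plr2o (by omega), plr1o (by omega)]
        · intro k hk
          have := (hbd 2 k (by omega)).2 (by decide)
          omega
      · have := par02 hj0.symm; omega
      · refine ⟨N - 2, by omega, ?_, by omega, ?_, fun _ => by omega⟩
        · rw [plr1o (by omega), plr2o (by omega)]
        · intro k hk
          have := (hbd 1 k (by omega)).2 (by decide)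
          omega
      · exact absurd rfl hR
    · rcases fin3_cases R with rfl | rfl | rfl <;> rcases fin3_cases R' with rfl | rfl | rfl
      · exact absurd rfl hR
      · refine ⟨N - 1, by omega, ?_, by omega, ?_, fun _ => by omega⟩
        · rw [plr1e (by omega), plr0e (by omega)]
        · intro k hk
          have h3 : k + 3 ≤ N ∨ k = N - 2 := by omega
          rcases h3 with h3 | rfl
          · have := hbd 1 k h3; omega
          · omega
      · have := par02 hj0; omega
      · refine ⟨N - 1, by omega, ?_, by omega, ?_, fun _ => by omega⟩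
        · rw [plr0e (by omega), plr1e (by omega)]
        · intro k hk
          have h3 : k + 3 ≤ N ∨ k = N - 2 := by omega
          rcases h3 with h3 | rfl
          · have := hbd 0 k h3; omega
          · omega
      · exact absurd rfl hR
      · have := par12 hj0; omega
      · refine ⟨N - 2, by omega, ?_, by omega, ?_, fun _ => by omega⟩
        · rw [plr0o (by omega), plr2e (by omega)]
        · intro k hk
          have := (hbd 0 k (by omega)).1
          omega
      · have := par12 hj0.symm; omega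
      · exact absurd rfl hR

/-- hosting: the first inequality -/
theorem rl_host1 (S : Sch N M lab) {R R' : Fin 3} (hR : R ≠ R') {k j : ℕ} (hk2 : k + 3 ≤ N)
    (hj : j < N) (hp : plr R' j = plr R k) (hst : stL lab R' j < lab R k) :
    rv N lab R k < rl N lab R' (N - 1 - j) := by
  have hodd := S.odd
  have hrg := rl_early_bd S (R := R) (j := N - 3 - k) (by omega)
  rw [rl_early' (a := k) (by omega)] at hrg
  rcases Nat.lt_or_ge j 2 with h1 | h1
  · have h2 : j = 0 ∨ j = 1 := by omega
    rcases h2 with rfl | rfl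
    · rw [rl_l (by omega)]
      split_ifs <;> omega
    · rw [rl_p (by omega)]
      by_cases hR' : R' = 0
      · rw [if_pos hR']; omega
      · rw [if_neg hR']
        have hR0 : R ≠ 0 := by
          intro h
          subst h
          rcases fin3_cases R' with rfl | rfl | rfl
          · exact absurd rfl hR
          · have := par01 hp; omega
          · have := par02 hp; omega
        have := hrg.2.2.1 hR0
        omega
  · have hst' : stL lab R' j = lab R' (j - 2) := by unfold stL; rw [if_neg (by omega)]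
    rw [hst'] at hst
    rw [rl_early' (a := j - 2) (by omega)]
    refine rv_anti S hR.symm (by omega) hk2 ?_ hst
    rw [← hp]
    exact plr_pc (by omega)

/-- hosting: the second inequality -/
theorem rl_host2 (S : Sch N M lab) {R R' : Fin 3} (hR : R ≠ R') {k j : ℕ} (hk1 : 2 ≤ k)
    (hk2 : k + 3 ≤ N) (hj : j < N) (hp : plr R' j = plr R k)
    (hst : stL lab R k < lab R' j) :
    stL (rl N lab) R' (N - 1 - j) < rl N lab R (N - 1 - k) := by
  rw [rl_early' (a := k - 2) (by omega)]
  unfold stL
  split_ifs with h1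
  · have := (rv_range S (R := R) (a := k - 2) (by omega)).1
    omega
  · rw [rl_early' (a := j) (by omega)]
    have hst' : stL lab R k = lab R (k - 2) := by unfold stL; rw [if_neg (by omega)]
    rw [hst'] at hst
    refine rv_anti S hR (by omega) (by omega) ?_ hst
    rw [hp]
    exact plr_pc (by omega)

end fin

theorem cw_reverse (w : List ℕ) : cw w.reverse = (cw w).reverse := by
  simp [cw]

theorem getD_rev (u : List ℕ) {i : ℕ} (hi : i < u.length) :
    u.reverse.getD i 0 = u.getD (u.length - 1 - i) 0 := by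
  rw [List.getD_eq_getElem _ _ (by simpa using hi), List.getD_eq_getElem _ _ (by omega),
    List.getElem_reverse]

theorem valid_rev {D : ℕ} {u : List ℕ} (h : Valid D u.reverse) : Valid D u := by
  obtain ⟨h1, h2⟩ := h
  rw [List.length_reverse] at h1 h2
  refine ⟨h1, ?_⟩
  intro i hi
  have h3 := h2 (u.length - 1 - i) (by omega)
  rw [getD_rev u (by omega), show u.length - 1 - (u.length - 1 - i) = i by omega] at h3
  exact ⟨fun h => h3.1 (by omega), fun h h' => h3.2 (by omega) (by omega)⟩

/-- **reversal**: a word of odd length and its reversal have labels at the same time -/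
theorem Lab3.rev {M : ℕ} {w : List ℕ} (hodd : w.length % 2 = 1) (h : Lab3 M w) :
    Lab3 (2 * M + 6) w.reverse := by
  intro hval'
  rw [cw_reverse] at hval' ⊢
  have hval := valid_rev hval'
  obtain ⟨lab, g1, g2, g3⟩ := h hval
  obtain ⟨N, hN⟩ : ∃ N, N = (cw w).length := ⟨_, rfl⟩
  have hNw : N = w.length + 4 := by rw [hN]; simp [cw]
  rw [← hN] at g1 g2
  have S : Sch N M lab :=
    { odd := by omega
      five := by omega
      pos := fun R i hi => (g1 R i hi).1
      le := fun R i hi => (g1 R i hi).2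
      mono := g2
      common := by
        intro R R' hR i hi j hj hij
        have := g3.common R R' hR i (hN ▸ hi) j (hN ▸ hj) hij
        rw [← hN] at this
        exact this
      timing := by
        intro R R' hR i hi hj
        have := g3.timing R R' hR i (hN ▸ hi) hj
        rw [← hN] at this
        exact this }
  refine ⟨rl N lab, ?_, ?_, ?_, ?_, ?_⟩
  · intro R i hi
    rw [List.length_reverse, ← hN] at hi
    exact rl_rng S R i hi
  · intro R i j hij hj
    rw [List.length_reverse, ← hN] at hj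
    exact rl_mono S R i j hij hj
  · rw [List.length_reverse, ← hN]
    exact rl_common S
  · rw [List.length_reverse, ← hN]
    exact rl_timing S
  · rw [List.length_reverse, ← hN]
    intro R R' hR i hi hD hj
    have h1 : 2 ≤ i ∧ i + 2 < N := by
      by_contra hcon
      have := (hval'.2 i (by rw [List.length_reverse, ← hN]; exact hi)).1
        (by rw [List.length_reverse, ← hN]; omega)
      omega
    have hoddN := S.odd
    have hpk : plr R i = plr R (N - 1 - i) := plr_pc (by omega)
    rw [getD_rev _ (by omega), ← hN] at hD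
    rw [hpk] at hj
    obtain ⟨j, a1, a2, a3, a4, a5⟩ := g3.host R R' hR (N - 1 - i) (by omega) hD hj
    rw [← hN] at a1
    refine ⟨N - 1 - j, by omega, ?_, ?_, ?_, ?_⟩
    · rw [hpk, ← a2]
      exact plr_pc (by omega)
    · rw [getD_rev _ (by omega), getD_rev _ (by omega), ← hN,
        show N - 1 - (N - 1 - j) = j by omega]
      exact a3
    · have e1 : stL (rl N lab) R i = rv N lab R (N - 1 - i) := by
        unfold stL
        rw [if_neg (by omega), rl_early' (a := N - 1 - i) (by omega)]
      rw [e1]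
      exact rl_host1 S hR (by omega) a1 a2 a5
    · have := rl_host2 S hR (k := N - 1 - i) (by omega) (by omega) a1 a2 a4
      rw [show N - 1 - (N - 1 - i) = i by omega] at this
      exact this

end MPb6P
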