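import Pool.Agent.Lib.MP_b6d339_lc.Pos.PDefs

/-!
# Erdős 592, positive side: the template theorem follows from bounded labellings of single words
-/

namespace MPb6P

/-- every valid word has a labelling with labels in `[1, M]` compatible with itself -/
def SelfTT (D : ℕ) : Prop :=
  ∃ M : ℕ, ∀ u, Valid D u → ∃ lab : Fin 3 → ℕ → ℕ,
    (∀ R i, i < u.length → 1 ≤ lab R i ∧ lab R i ≤ M) ∧
    (∀ R i j, i ≤ j → j < u.length → lab R i ≤ lab R j) ∧ Compat D u lab u lab

theorem plr_congr (R : Fin 3) {i j : ℕ} (h : i % 2 = j % 2) : plr R i = plr R j := by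
  unfold plr; rw [h]

section

variable (D M : ℕ) (u : List ℕ) (lab : Fin 3 → ℕ → ℕ)

/-- classes occurring with given parity and labels -/
def dat1 (R : Fin 3) (par : Fin 2) (s l : Fin (M + 1)) (c : Fin (D + 2)) : Prop :=
  ∃ i < u.length, i % 2 = par.1 ∧ stL lab R i = s.1 ∧ lab R i = l.1 ∧ u.getD i 0 = c.1

/-- uniqueness of the event with a label -/
def dat2 (R : Fin 3) (l : Fin (M + 1)) : Prop :=
  ∀ i j, i < u.length → j < u.length → lab R i = l.1 → lab R j = l.1 → i = j

/-- a last event with a label -/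
def dat3 (R : Fin 3) (l : Fin (M + 1)) : Prop :=
  ∃ i < u.length, lab R i = l.1 ∧ u.length ≤ i + 2

/-- parity of the first event with a label -/
def dat4 (R : Fin 3) (l : Fin (M + 1)) (par : Fin 2) : Prop :=
  ∃ i < u.length, lab R i = l.1 ∧ (∀ k < i, lab R k ≠ l.1) ∧ i % 2 = par.1

end

/-- the type of the data -/
abbrev DatT (D M : ℕ) : Type :=
  (Fin 3 → Fin 2 → Fin (M + 1) → Fin (M + 1) → Fin (D + 2) → Prop) ×
    (Fin 3 → Fin (M + 1) → Prop) × (Fin 3 → Fin (M + 1) → Prop) ×
    (Fin 3 → Fin (M + 1) → Fin 2 → Prop)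

instance (D M : ℕ) : Finite (DatT D M) := by
  unfold DatT
  have h0 : Finite Prop := Finite.of_fintype Prop
  have h1 : ∀ n : ℕ, Finite (Fin n → Prop) := fun n => Pi.finite
  have h2 : ∀ m n : ℕ, Finite (Fin m → Fin n → Prop) := fun m n => Pi.finite
  have h3 : ∀ m n k : ℕ, Finite (Fin m → Fin n → Fin k → Prop) := fun m n k => Pi.finite
  have h4 : ∀ m n k j : ℕ, Finite (Fin m → Fin n → Fin k → Fin j → Prop) :=
    fun m n k j => Pi.finite
  have h5 : ∀ m n k j i : ℕ, Finite (Fin m → Fin n → Fin k → Fin j → Fin i → Prop) :=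
    fun m n k j i => Pi.finite
  infer_instance

/-- the data of a labelled word -/
def datF (D M : ℕ) (u : List ℕ) (lab : Fin 3 → ℕ → ℕ) : DatT D M :=
  (dat1 D M u lab, dat2 M u lab, dat3 M u lab, dat4 M u lab)

theorem dat4_of {M : ℕ} {u : List ℕ} {lab : Fin 3 → ℕ → ℕ} {R : Fin 3} {l : ℕ} (hl : l < M + 1)
    {j : ℕ} (hj : j < u.length) (hlj : lab R j = l) :
    ∃ par : Fin 2, dat4 M u lab R ⟨l, hl⟩ par := by
  classical
  have hex : ∃ i, i < u.length ∧ lab R i = l := ⟨j, hj, hlj⟩
  refine ⟨⟨Nat.find hex % 2, Nat.mod_lt _ (by norm_num)⟩, Nat.find hex, (Nat.find_spec hex).1,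
    (Nat.find_spec hex).2, ?_, rfl⟩
  intro k hk hkl
  exact Nat.find_min hex hk ⟨lt_trans hk (Nat.find_spec hex).1, hkl⟩

/-- same data and self-compatibility imply compatibility -/
theorem compat_of_dat {D M : ℕ} {u u' : List ℕ} {lab lab' : Fin 3 → ℕ → ℕ}
    (hv' : Valid D u')
    (hM : ∀ R i, lab R i ≤ M) (hM' : ∀ R i, lab' R i ≤ M)
    (hmono : ∀ R i j, i ≤ j → j < u.length → lab R i ≤ lab R j)
    (hmono' : ∀ R i j, i ≤ j → j < u'.length → lab' R i ≤ lab' R j)
    (hv : Valid D u) (hc : Compat D u lab u lab)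
    (hd : datF D M u lab = datF D M u' lab') : Compat D u lab u' lab' := by
  have h1 : ∀ R p s l c, dat1 D M u lab R p s l c ↔ dat1 D M u' lab' R p s l c := by
    intro R p s l c
    exact iff_of_eq (congrFun (congrFun (congrFun (congrFun (congrFun
      (congrArg (fun x => x.1) hd) R) p) s) l) c)
  have h2 : ∀ R l, dat2 M u lab R l ↔ dat2 M u' lab' R l := by
    intro R l
    exact iff_of_eq (congrFun (congrFun (congrArg (fun x => x.2.1) hd) R) l)
  have h3 : ∀ R l, dat3 M u lab R l ↔ dat3 M u' lab' R l := by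
    intro R l
    exact iff_of_eq (congrFun (congrFun (congrArg (fun x => x.2.2.1) hd) R) l)
  have h4 : ∀ R l p, dat4 M u lab R l p ↔ dat4 M u' lab' R l p := by
    intro R l p
    exact iff_of_eq (congrFun (congrFun (congrFun (congrArg (fun x => x.2.2.2) hd) R) l) p)
  refine ⟨?_, ?_, ?_⟩
  · intro R R' hR i hi j hj hl
    have hlt : lab' R' j < M + 1 := Nat.lt_succ_of_le (hM' _ _)
    obtain ⟨par, hp⟩ := dat4_of (M := M) (lab := lab') (R := R') hlt hj rfl
    obtain ⟨j0, hj0, hl0, -, hpar0⟩ := (h4 _ _ _).2 hp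
    obtain ⟨j1, hj1, hl1, -, hpar1⟩ := hp
    simp only at hl0 hl1
    obtain ⟨c1, c2, c3, c4⟩ := hc.common R R' hR i hi j0 hj0 (hl.trans hl0.symm)
    have hu2 : dat2 M u lab R' ⟨lab' R' j, hlt⟩ := by
      intro a b ha hb hla hlb
      simp only at hla hlb
      rw [c3 a ha (hla.trans hl0.symm), c3 b hb (hlb.trans hl0.symm)]
    have hu2' := (h2 _ _).1 hu2
    have e1 : j1 = j := hu2' j1 j hj1 hj hl1 rfl
    refine ⟨?_, c2, ?_, ?_⟩
    · rw [c1]
      apply plr_congr
      rw [hpar0, ← hpar1, e1]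
    · intro k hk hkl
      exact hu2' k j hk hj hkl rfl
    · rw [c4]
      constructor
      · intro hh
        have : dat3 M u lab R' ⟨lab' R' j, hlt⟩ := ⟨j0, hj0, hl0, hh⟩
        obtain ⟨k, hk, hkl, hkk⟩ := (h3 _ _).1 this
        simp only at hkl
        have : k = j := hu2' k j hk hj hkl rfl
        omega
      · intro hh
        have : dat3 M u' lab' R' ⟨lab' R' j, hlt⟩ := ⟨j, hj, rfl, hh⟩
        obtain ⟨k, hk, hkl, hkk⟩ := (h3 _ _).2 this
        simp only at hkl
        have : k = j0 := c3 k hk (hkl.trans hl0.symm)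
        omega
  · intro R R' hR i hi hex
    obtain ⟨j0, hj0, hp0, hle0, hlt0, hlast0⟩ := hc.timing R R' hR i hi hex
    have hlt : lab R' j0 < M + 1 := Nat.lt_succ_of_le (hM _ _)
    have hd4 : dat4 M u lab R' ⟨lab R' j0, hlt⟩ ⟨j0 % 2, Nat.mod_lt _ (by norm_num)⟩ := by
      refine ⟨j0, hj0, rfl, ?_, rfl⟩
      intro k hk hkl
      have := hlt0 k hk
      simp only at hkl
      omega
    obtain ⟨j1, hj1, hl1, hf1, hpar1⟩ := (h4 _ _ _).1 hd4
    simp only at hl1 hf1 hpar1
    refine ⟨j1, hj1, ?_, ?_, ?_, ?_⟩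
    · rw [← hp0]; exact plr_congr _ hpar1
    · omega
    · intro k hk
      by_contra hcon
      have hk2 : k < u'.length := lt_trans hk hj1
      have hltk : lab' R' k < M + 1 := Nat.lt_succ_of_le (hM' _ _)
      obtain ⟨par, hp⟩ := dat4_of (M := M) (lab := lab') (R := R') hltk hk2 rfl
      obtain ⟨k0, hk0, hkl0, -, -⟩ := (h4 _ _ _).2 hp
      simp only at hkl0
      have hm := hmono' R' k j1 hk.le hj1
      have hne := hf1 k hk
      have hk0j : k0 < j0 := by
        by_contra hc2
        have := hmono R' j0 k0 (by omega) hk0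
        omega
      have := hlt0 k0 hk0j
      omega
    · intro hh
      rw [hlast0 hh, hl1]
  · intro R R' hR i hi hfin hex
    obtain ⟨j0, hj0, hp0, hle0, hs1, hs2⟩ := hc.host R R' hR i hi hfin hex
    have hlt : lab R' j0 < M + 1 := Nat.lt_succ_of_le (hM _ _)
    have hst : stL lab R' j0 < M + 1 := by
      unfold stL
      split_ifs
      · omega
      · exact Nat.lt_succ_of_le (hM _ _)
    have hcl : u.getD j0 0 < D + 2 := by
      obtain ⟨v1, v2⟩ := hv.2 j0 hj0
      by_cases hb : j0 < 2 ∨ u.length ≤ j0 + 2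
      · have := v1 hb; omega
      · have := v2 (by omega) (by omega); omega
    have hd1 : dat1 D M u lab R' ⟨j0 % 2, Nat.mod_lt _ (by norm_num)⟩ ⟨stL lab R' j0, hst⟩
        ⟨lab R' j0, hlt⟩ ⟨u.getD j0 0, hcl⟩ := ⟨j0, hj0, rfl, rfl, rfl, rfl⟩
    obtain ⟨j1, hj1, e1, e2, e3, e4⟩ := (h1 _ _ _ _ _).1 hd1
    simp only at e1 e2 e3 e4
    refine ⟨j1, hj1, ?_, ?_, ?_, ?_⟩
    · rw [← hp0]; exact plr_congr _ e1
    · omega
    · omega
    · omega

/-- **Template theorem from bounded labellings of single words.** -/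
theorem TT_of_self {D : ℕ} (h : SelfTT D) : TT D := by
  classical
  obtain ⟨M0, hM0⟩ := h
  obtain ⟨M, hM1, hMM⟩ : ∃ M, 1 ≤ M ∧ M0 ≤ M := ⟨M0 + 1, by omega, by omega⟩
  -- the labelling
  have key : ∀ u, ∃ lab : Fin 3 → ℕ → ℕ, (∀ R i, 1 ≤ lab R i ∧ lab R i ≤ M) ∧
      (Valid D u → (∀ R i j, i ≤ j → j < u.length → lab R i ≤ lab R j) ∧
        Compat D u lab u lab) := by
    intro u
    by_cases hv : Valid D u
    · obtain ⟨lab, hb, hm, hc⟩ := hM0 u hv
      let lab2 : Fin 3 → ℕ → ℕ := fun R i => if i < u.length then lab R i else M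
      have e : ∀ R i, i < u.length → lab2 R i = lab R i := by
        intro R i hi; simp [lab2, hi]
      have es : ∀ R i, i < u.length → stL lab2 R i = stL lab R i := by
        intro R i hi
        unfold stL
        split_ifs
        · rfl
        · exact e _ _ (by omega)
      refine ⟨lab2, ?_, ?_⟩
      · intro R i
        by_cases hi : i < u.length
        · rw [e R i hi]; have := hb R i hi; omega
        · simp [lab2, hi, hM1]
      · intro _
        refine ⟨?_, ?_, ?_, ?_⟩
        · intro R i j hij hj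
          rw [e R i (by omega), e R j hj]
          exact hm R i j hij hj
        · intro R R' hR i hi j hj hl
          rw [e R i hi, e R' j hj] at hl
          obtain ⟨c1, c2, c3, c4⟩ := hc.common R R' hR i hi j hj hl
          refine ⟨c1, ?_, ?_, c4⟩
          · intro k hk hkl
            rw [e R i hi, e R k hk] at hkl
            exact c2 k hk hkl
          · intro k hk hkl
            rw [e R' j hj, e R' k hk] at hkl
            exact c3 k hk hkl
        · intro R R' hR i hi hex
          obtain ⟨j, hj, c1, c2, c3, c4⟩ := hc.timing R R' hR i hi hex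
          refine ⟨j, hj, c1, ?_, ?_, ?_⟩
          · rw [e R i hi, e R' j hj]; exact c2
          · intro k hk
            rw [e R i hi, e R' k (by omega)]; exact c3 k hk
          · intro hh
            rw [e R i hi, e R' j hj]; exact c4 hh
        · intro R R' hR i hi hf hex
          obtain ⟨j, hj, c1, c2, c3, c4⟩ := hc.host R R' hR i hi hf hex
          refine ⟨j, hj, c1, c2, ?_, ?_⟩
          · rw [es R i hi, e R' j hj]; exact c3
          · rw [es R' j hj, e R i hi]; exact c4
    · exact ⟨fun _ _ => 1, fun _ _ => ⟨le_refl _, hM1⟩, fun hh => absurd hh hv⟩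
  choose lab hlab using key
  refine ⟨M, DatT D M, inferInstance, fun u => datF D M u (lab u), lab, fun u => (hlab u).1,
    fun u hv => ((hlab u).2 hv).1, ?_⟩
  intro u u' hv hv' hd
  exact compat_of_dat hv' (fun R i => ((hlab u).1 R i).2) (fun R i => ((hlab u').1 R i).2)
    ((hlab u).2 hv).1 ((hlab u').2 hv').1 hv ((hlab u).2 hv).2 hd

end MPb6P
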