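import Pool.Agent.Lib.MP_b6d339_lc.Pos.TPath

/-!
# Erdős 592, positive side: a word matched by a valid template has a compatible labelling
-/

namespace MPb6P

theorem plr_mod (R : Fin 3) (i : ℕ) : plr R i = plr R (i % 2) := by
  unfold plr; rw [Nat.mod_mod]

theorem oth_spec : ∀ R R' : Fin 3, R ≠ R' → ∀ a < 2, (∃ b < 2, plr R' b = plr R a) →
    R' = (oth R a).1 ∧ ∀ b < 2, (plr R' b = plr R a ↔ b = (oth R a).2) := by
  decide

theorem oth_spec' {R R' : Fin 3} (h : R ≠ R') (i : ℕ) (hex : ∃ j, plr R' j = plr R i) :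
    R' = (oth R (i % 2)).1 ∧ ∀ j, (plr R' j = plr R i ↔ j % 2 = (oth R (i % 2)).2) := by
  obtain ⟨j, hj⟩ := hex
  rw [plr_mod R' j, plr_mod R i] at hj
  have h1 := oth_spec R R' h (i % 2) (Nat.mod_lt _ (by norm_num))
    ⟨j % 2, Nat.mod_lt _ (by norm_num), hj⟩
  refine ⟨h1.1, ?_⟩
  intro b
  rw [plr_mod R' b, plr_mod R i]
  exact h1.2 (b % 2) (Nat.mod_lt _ (by norm_num))

section path

variable {v : List TItem} {u : List ℕ} {st : ℕ → ℕ}

theorem TPath.kk_lt_of_lt (h : TPath v u st) {i j : ℕ} (hij : i < j) (hj : j < u.length)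
    (hs : sing st j) : kk st i < kk st j := by
  obtain ⟨j, rfl⟩ : ∃ k, j = k + 1 := ⟨j - 1, by omega⟩
  have h1 := h.kk_mono (i := i) (j := j) (by omega) (by omega)
  have hs' : st (j + 2) = st (j + 1) + 2 := hs
  have k2 : kk st (j + 1) = st (j + 1) / 2 := if_pos hs
  have kpos : st (j + 1) = st j + 2 → kk st j = st j / 2 := fun hh => if_pos hh
  have kneg : ¬ (st (j + 1) = st j + 2) → kk st j = st j / 2 - 1 := fun hh => if_neg hh
  have c1 := h.cases' (i := j + 1) (j := j + 2) (by omega) (by omega)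
  rcases h.cases' (i := j) (j := j + 1) (by omega) (by omega) with h6 | h6 | h6
  · have := kpos h6.2.1; omega
  · exfalso; omega
  · have := kneg (by omega); omega

theorem TPath.sing_cls (h : TPath v u st) {i : ℕ} (hi : i < u.length) (hs : sing st i) :
    (tit v (kk st i)).lo ≤ u.getD i 0 ∧ u.getD i 0 ≤ (tit v (kk st i)).hi := by
  have hk : kk st i = st i / 2 := if_pos hs
  have hs' : st (i + 1) = st i + 2 := hs
  rw [hk]
  rcases h.step i hi with h1 | h1 | h1
  · exact ⟨h1.2.2.2.1, h1.2.2.2.2⟩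
  · exfalso; have := h1.2.1; omega
  · exfalso; have := h1.2.1; omega

theorem TPath.star_cls (h : TPath v u st) {i : ℕ} (hi : i < u.length) (hs : ¬ sing st i) :
    u.getD i 0 ≤ tub v (kk st i) (i % 2) := by
  have hk : kk st i = st i / 2 - 1 := if_neg hs
  rw [hk]
  rcases h.step i hi with h1 | h1 | h1
  · exact absurd h1.2.1 hs
  · exact h1.2.2.2.2
  · exact h1.2.2.2.2

end path

theorem TValid.mono' {D M : ℕ} {T : Tpl} (hT : TValid D M T) (R : Fin 3) {k l : ℕ} (hkl : k ≤ l)
    (hl : l < (T R).length) : (tit (T R) k).lb ≤ (tit (T R) l).lb := by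
  induction l, hkl using Nat.le_induction with
  | base => exact le_refl _
  | succ l hkl ih => exact le_trans (ih (by omega)) (hT.mono R l hl)

/-- **Soundness of templates.** -/
theorem self_of_paths {D M : ℕ} {T : Tpl} (hT : TValid D M T) {u : List ℕ} (hv : Valid D u)
    {st : Fin 3 → ℕ → ℕ} (hp : ∀ R, TPath (T R) u (st R)) :
    ∃ lab : Fin 3 → ℕ → ℕ,
      (∀ R i, i < u.length → 1 ≤ lab R i ∧ lab R i ≤ M) ∧
      (∀ R i j, i ≤ j → j < u.length → lab R i ≤ lab R j) ∧ Compat D u lab u lab := by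
  set lab : Fin 3 → ℕ → ℕ := fun R i => (tit (T R) (kk (st R) i)).lb with hlab
  have hl : ∀ R i, lab R i = (tit (T R) (kk (st R) i)).lb := fun R i => rfl
  -- start labels
  have hst1 : ∀ R i, i < u.length → sing (st R) i → stL lab R i = tst (T R) (kk (st R) i) := by
    intro R i hi hs
    unfold stL tst
    by_cases h2 : i < 2
    · have := ((hp R).small hi h2).2
      rw [if_pos h2, if_pos (by omega)]
    · have h3 := (hp R).start_sing hi (by omega) hs
      rw [if_neg h2, if_neg (by omega), hl, h3.2]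
  have hst2 : ∀ R i, i < u.length → ¬ sing (st R) i → stL lab R i = lab R i := by
    intro R i hi hs
    have h3 := (hp R).start_star hi hs
    unfold stL
    rw [if_neg (by omega), hl, hl, h3.2.2]
  -- letters at a label which is unique among the items consume items
  have huniq : ∀ R i, i < u.length →
      (∀ k2 < (T R).length, (tit (T R) k2).lb = (tit (T R) (kk (st R) i)).lb →
        k2 = kk (st R) i) → sing (st R) i := by
    intro R i hi hu
    by_contra hc
    have h3 := ((hp R).start_star hi hc).2.1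
    have h4 := hu (kk (st R) i - 1) (by have := h3.2.1; omega) h3.2.2.symm
    have := h3.1
    omega
  refine ⟨lab, ?_, ?_, ?_, ?_, ?_⟩
  · intro R i hi
    exact hT.pos R _ ((hp R).kk_lt hi)
  · intro R i j hij hj
    exact hT.mono' R ((hp R).kk_mono hij hj) ((hp R).kk_lt hj)
  · -- common
    intro R R' hR i hi j hj he
    have hc := hT.common R R' hR _ ((hp R).kk_lt hi) _ ((hp R').kk_lt hj) he
    have si := huniq R i hi hc.2.1
    have sj := huniq R' j hj hc.2.2.1
    refine ⟨?_, ?_, ?_, ?_⟩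
    · have e1 : plr R i = plr R (kk (st R) i) := plr_congr R ((hp R).kk_par hi si).symm
      have e2 : plr R' j = plr R' (kk (st R') j) := plr_congr R' ((hp R').kk_par hj sj).symm
      rw [e1, e2, hc.1]
    · intro k hk hkl
      have e := hc.2.1 _ ((hp R).kk_lt hk) hkl
      have sk : sing (st R) k := by
        apply huniq R k hk
        intro k2 hk2 hk2l
        rw [hc.2.1 k2 hk2 (hk2l.trans hkl), e]
      exact (hp R).kk_inj hk hi sk si e
    · intro k hk hkl
      have e := hc.2.2.1 _ ((hp R').kk_lt hk) hkl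
      have sk : sing (st R') k := by
        apply huniq R' k hk
        intro k2 hk2 hk2l
        rw [hc.2.2.1 k2 hk2 (hk2l.trans hkl), e]
      exact (hp R').kk_inj hk hj sk sj e
    · rw [((hp R).kk_last hi).1, ((hp R').kk_last hj).1]
      exact hc.2.2.2
  · -- timing
    intro R R' hR i hi hex
    obtain ⟨e1, e2⟩ := oth_spec' hR i hex
    -- an item with the parity and the label of the letter
    obtain ⟨m, hm, hmp, hml, hmlast⟩ : ∃ m < (T R).length, m % 2 = i % 2 ∧
        (tit (T R) m).lb = lab R i ∧ (u.length ≤ i + 2 → (T R).length ≤ m + 2) := by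
      by_cases hs : sing (st R) i
      · exact ⟨_, (hp R).kk_lt hi, (hp R).kk_par hi hs, rfl, fun hh =>
          ((hp R).kk_last hi).1.1 hh⟩
      · have hnl : ¬ (u.length ≤ i + 2) := fun hh => hs (((hp R).kk_last hi).2 hh)
        have h3 := ((hp R).start_star hi hs).2.1
        by_cases hpar : kk (st R) i % 2 = i % 2
        · exact ⟨_, (hp R).kk_lt hi, hpar, rfl, fun hh => absurd hh hnl⟩
        · refine ⟨kk (st R) i - 1, ?_, ?_, ?_, fun hh => absurd hh hnl⟩
          · have := (hp R).kk_lt hi; omega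
          · have := h3.1; omega
          · rw [hl]; exact h3.2.2.symm
    obtain ⟨j0, hj0, hj0p, hle, hlt, hlast⟩ := hT.timing R m hm
    rw [hmp] at hj0 hj0p hle hlt hlast
    rw [← e1] at hj0 hle hlt hlast
    obtain ⟨j, hj, sj, hkj⟩ := (hp R').exists_sing hj0
    have hjp := (hp R').kk_par hj sj
    refine ⟨j, hj, ?_, ?_, ?_, ?_⟩
    · rw [e2, ← hjp, hkj, hj0p]
    · rw [← hml, hl R' j, hkj]; exact hle
    · intro k hk
      have := (hp R').kk_lt_of_lt hk hj sj
      rw [hkj] at this
      rw [← hml, hl R' k]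
      exact hlt _ this
    · intro hh
      rw [← hml, hl R' j, hkj]
      exact hlast (hmlast hh)
  · -- hosting
    intro R R' hR i hi hfin hex
    obtain ⟨e1, e2⟩ := oth_spec' hR i hex
    by_cases hs : sing (st R) i
    · have hcl := (hp R).sing_cls hi hs
      have hkp := (hp R).kk_par hi hs
      rcases hT.host R _ ((hp R).kk_lt hi) with h1 | ⟨j0, hj0, hj0p, hle, hs1, hs2⟩
      · omega
      · rw [hkp] at hj0 hj0p hle hs1 hs2
        rw [← e1] at hj0 hle hs1 hs2
        obtain ⟨j, hj, sj, hkj⟩ := (hp R').exists_sing hj0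
        have hjp := (hp R').kk_par hj sj
        have hcj := (hp R').sing_cls hj sj
        rw [hkj] at hcj
        refine ⟨j, hj, ?_, ?_, ?_, ?_⟩
        · rw [e2, ← hjp, hkj, hj0p]
        · exact le_trans hcl.2 (le_trans hle hcj.1)
        · rw [hst1 R i hi hs, hl R' j, hkj]; exact hs1
        · rw [hst1 R' j hj sj, hkj, hl R i]; exact hs2
    · have hcl := (hp R).star_cls hi hs
      have h3 := (hp R).start_star hi hs
      have hil : ¬ (u.length ≤ i + 2) := fun hh => hs (((hp R).kk_last hi).2 hh)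
      rcases hT.star R _ ((hp R).kk_lt hi) h3.2.1 (i % 2) (Nat.mod_lt _ (by norm_num)) with
        h1 | ⟨j0, hj0, hj0p, hle, hs1, hs2⟩
      · exfalso
        have := ((hv.2 i hi).2 h3.1 (by omega)).1
        omega
      · rw [← e1] at hj0 hle hs1 hs2
        obtain ⟨j, hj, sj, hkj⟩ := (hp R').exists_sing hj0
        have hjp := (hp R').kk_par hj sj
        have hcj := (hp R').sing_cls hj sj
        rw [hkj] at hcj
        refine ⟨j, hj, ?_, ?_, ?_, ?_⟩
        · rw [e2, ← hjp, hkj, hj0p]
        · exact le_trans hcl (le_trans hle hcj.1)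
        · rw [hst2 R i hi hs, hl R i, hl R' j, hkj]; exact hs2
        · rw [hst1 R' j hj sj, hkj, hl R i]; exact hs1

end MPb6P
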