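import Pool.Agent.Lib.MP_b6d339_lc.Pos.WNode
import Pool.Agent.Lib.MP_b6d339_lc.Pos.TEven

/-!
# Erdős 592, positive side: three levels, from the covering certificate to the template theorem
-/

namespace MPb6P

/-- words with at least four letters have a core -/
theorem exists_core {u : List ℕ} (hv : Valid 3 u) (hl : 4 ≤ u.length) :
    ∃ w : List ℕ, u = cw w ∧ w.length + 4 = u.length ∧ ∀ x ∈ w, 1 ≤ x ∧ x ≤ 3 := by
  refine ⟨(u.drop 2).take (u.length - 4), ?_, ?_, ?_⟩
  · have hw : cw ((u.drop 2).take (u.length - 4)) =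
        [4, 4] ++ ((u.drop 2).take (u.length - 4)) ++ [4, 4] := rfl
    rw [hw]
    have hlen : ((u.drop 2).take (u.length - 4)).length = u.length - 4 := by
      simp only [List.length_take, List.length_drop]
      omega
    apply List.ext_getElem
    · simp only [List.length_append, hlen, List.length_cons, List.length_nil]
      omega
    · intro i h1 h2
      obtain ⟨v1, v2⟩ := hv.2 i h1
      rw [List.getD_eq_getElem _ _ h1] at v1
      by_cases hi : i < 2
      · rw [v1 (Or.inl hi), List.getElem_append_left (by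
            rw [List.length_append, hlen]; simp only [List.length_cons, List.length_nil]; omega),
          List.getElem_append_left (by simp only [List.length_cons, List.length_nil]; omega)]
        have : i = 0 ∨ i = 1 := by omega
        rcases this with rfl | rfl <;> rfl
      · by_cases hi2 : i < u.length - 2
        · rw [List.getElem_append_left (by
              rw [List.length_append, hlen]; simp only [List.length_cons, List.length_nil]; omega),
            List.getElem_append_right (by simp only [List.length_cons, List.length_nil]; omega)]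
          simp only [List.length_cons, List.length_nil, List.getElem_take, List.getElem_drop]
          congr 1
          omega
        · rw [v1 (Or.inr (by omega)), List.getElem_append_right (by
              rw [List.length_append, hlen]; simp only [List.length_cons, List.length_nil]; omega)]
          have e2 : ([4, 4] ++ ((u.drop 2).take (u.length - 4))).length = u.length - 2 := by
            rw [List.length_append, hlen]; simp only [List.length_cons, List.length_nil]; omega
          have : i - (u.length - 2) = 0 ∨ i - (u.length - 2) = 1 := by omega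
          simp only [e2]
          rcases this with h | h <;> simp [h]
  · simp only [List.length_take, List.length_drop]
    omega
  · intro x hx
    obtain ⟨i, hi, rfl⟩ := List.getElem_of_mem hx
    simp only [List.length_take, List.length_drop] at hi
    rw [List.getElem_take, List.getElem_drop]
    have h2 := (hv.2 (2 + i) (by omega)).2 (by omega) (by omega)
    rw [List.getD_eq_getElem _ _ (by omega)] at h2
    exact h2

/-- labels for words with three letters -/
def lb3 (R : Fin 3) (i : ℕ) : ℕ :=
  if R = 0 then (if i = 0 then 1 else if i = 1 then 4 else 5)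
  else if R = 1 then (if i = 0 then 1 else if i = 1 then 3 else 5)
  else (if i = 0 then 2 else if i = 1 then 3 else 4)

theorem lb3_b : ∀ R : Fin 3, ∀ i < 3, 1 ≤ lb3 R i ∧ lb3 R i ≤ 5 := by decide

theorem lb3_m : ∀ R : Fin 3, ∀ j < 3, ∀ i < 3, i ≤ j → lb3 R i ≤ lb3 R j := by decide

theorem lb3_c1 : ∀ R R' : Fin 3, R ≠ R' → ∀ i < 3, ∀ j < 3, lb3 R i = lb3 R' j →
    plr R i = plr R' j ∧ (3 ≤ i + 2 ↔ 3 ≤ j + 2) := by decide

theorem lb3_c2 : ∀ R : Fin 3, ∀ i < 3, ∀ k < 3, lb3 R k = lb3 R i → k = i := by decide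

theorem lb3_t : ∀ R R' : Fin 3, R ≠ R' → ∀ i < 3, (∃ j < 2, plr R' j = plr R i) →
    ∃ j < 3, plr R' j = plr R i ∧ lb3 R i ≤ lb3 R' j ∧
    (∀ k < j, lb3 R' k < lb3 R i) ∧ (3 ≤ i + 2 → lb3 R i = lb3 R' j) := by decide

/-- labels for words with three letters -/
theorem len3 {u : List ℕ} (hv : Valid 3 u) (hl : u.length = 3) :
    ∃ lab : Fin 3 → ℕ → ℕ, (∀ R i, i < u.length → 1 ≤ lab R i ∧ lab R i ≤ 5) ∧
      (∀ R i j, i ≤ j → j < u.length → lab R i ≤ lab R j) ∧ Compat 3 u lab u lab := by
  refine ⟨lb3, ?_, ?_, ?_, ?_, ?_⟩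
  · intro R i hi; exact lb3_b R i (by omega)
  · intro R i j hij hj; exact lb3_m R j (by omega) i (by omega) hij
  · intro R R' hR i hi j hj he
    rw [hl] at hi hj ⊢
    obtain ⟨c1, c2⟩ := lb3_c1 R R' hR i hi j hj he
    exact ⟨c1, lb3_c2 R i hi, lb3_c2 R' j hj, c2⟩
  · intro R R' hR i hi ⟨j, hj⟩
    rw [hl] at hi ⊢
    exact lb3_t R R' hR i hi ⟨j % 2, Nat.mod_lt _ (by norm_num), by rw [← plr_mod]; exact hj⟩
  · intro R R' hR i hi hf
    exfalso
    have h1 := (hv.2 i hi).1 (by omega)
    omega

/-- **Three levels.** -/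
theorem self3_of {M1 M2 : ℕ}
    (hodd : ∀ w : List ℕ, (∀ x ∈ w, 1 ≤ x ∧ x ≤ 3) → w.length % 2 = 1 → Lab3 M1 w)
    (heven : ∀ u, Valid 3 u → u.length % 2 = 0 → ∃ lab : Fin 3 → ℕ → ℕ,
      (∀ R i, i < u.length → 1 ≤ lab R i ∧ lab R i ≤ M2) ∧
      (∀ R i j, i ≤ j → j < u.length → lab R i ≤ lab R j) ∧ Compat 3 u lab u lab) :
    SelfTT 3 := by
  refine ⟨max (max M1 M2) 5, ?_⟩
  have h1 : M1 ≤ max (max M1 M2) 5 := le_trans (le_max_left _ _) (le_max_left _ _)
  have h2 : M2 ≤ max (max M1 M2) 5 := le_trans (le_max_right _ _) (le_max_left _ _)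
  have h3 : 5 ≤ max (max M1 M2) 5 := le_max_right _ _
  intro u hv
  rcases Nat.mod_two_eq_zero_or_one u.length with hp | hp
  · obtain ⟨lab, hb, hm, hc⟩ := heven u hv hp
    exact ⟨lab, fun R i hi => ⟨(hb R i hi).1, le_trans (hb R i hi).2 h2⟩, hm, hc⟩
  · have hl := hv.1
    by_cases h5 : u.length = 3
    · obtain ⟨lab, hb, hm, hc⟩ := len3 hv h5
      exact ⟨lab, fun R i hi => ⟨(hb R i hi).1, le_trans (hb R i hi).2 h3⟩, hm, hc⟩
    · obtain ⟨w, hw, hwl, hwx⟩ := exists_core hv (by omega)
      subst hw
      obtain ⟨lab, hb, hm, hc⟩ := hodd w hwx (by omega) hv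
      exact ⟨lab, fun R i hi => ⟨(hb R i hi).1, le_trans (hb R i hi).2 h1⟩, hm, hc⟩

/-- **Three levels, from a covering certificate.** -/
theorem self3_of_odd {M : ℕ} (h : oddF.ok M) : SelfTT 3 :=
  self3_of (M1 := M) (M2 := 8) (fun w hw hodd => odd_of h w hw hodd)
    (fun u hv he => even_self 3 u hv he)

/-- the template theorem for three levels, from a covering certificate -/
theorem TT3_of_odd {M : ℕ} (h : oddF.ok M) : TT 3 := TT_of_self (self3_of_odd h)

end MPb6P
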