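import Pool.Agent.Lib.MP_b6d339_lc.Pos.NNode
import Pool.Agent.Lib.MP_b6d339_lc.Pos.WFin
import Pool.Agent.Lib.MP_b6d339_lc.Pos.TRev

/-!
# Erdős 592, positive side: wide automata, covering certificates by automata, mirrored automata

A wide automaton has at most `1024` states. `coverW`: the language of a wide automaton is contained
in the union of the languages of finitely many wide automata, which are known to consist of words
with labels. `mirrorW`: the reversed words of a wide automaton are accepted by another one.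
-/

namespace MPb6P

/-! ## wide automata -/

/-- wide automata: transition table (`10` bits for each entry, `30` for each state), accepting
states as a mask -/
structure DW where
  dl : ℕ
  ac : ℕ

/-- an entry of the transition table; `y` is `0, 10, 20` for the letters `1, 2, 3` -/
def nxW (dl q y : ℕ) : ℕ := Nat.mod (Nat.shiftRight dl (Nat.add (Nat.mul 30 q) y)) 1024

/-- successor -/
def DW.nx (d : DW) (q x : ℕ) : ℕ := nxW d.dl q (10 * (x - 1))

/-- run -/
def DW.run (d : DW) (w : List ℕ) : ℕ := w.foldl d.nx 0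

/-- the automaton accepts only words with labels -/
def DW.ok (M : ℕ) (d : DW) : Prop :=
  ∀ w : List ℕ, (∀ x ∈ w, 1 ≤ x ∧ x ≤ 3) → d.ac.testBit (d.run w) = true → Lab3 M w

theorem DW.run_nil (d : DW) : d.run [] = 0 := rfl

theorem DW.run_snoc (d : DW) (w : List ℕ) (x : ℕ) : d.run (w ++ [x]) = d.nx (d.run w) x := by
  unfold DW.run
  rw [List.foldl_append]
  rfl

theorem Lab3.mono {M M' : ℕ} (h : M ≤ M') {w : List ℕ} (hw : Lab3 M w) : Lab3 M' w := by
  intro hv
  obtain ⟨lab, h1, h2, h3⟩ := hw hv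
  exact ⟨lab, fun R i hi => ⟨(h1 R i hi).1, le_trans (h1 R i hi).2 h⟩, h2, h3⟩

theorem DW.ok.mono {M M' : ℕ} (h : M ≤ M') {d : DW} (hd : d.ok M) : d.ok M' :=
  fun w hw ha => (hd w hw ha).mono h

theorem DF.ok.mono {M M' : ℕ} (h : M ≤ M') {d : DF} (hd : d.ok M) : d.ok M' :=
  fun w hw ha => (hd w hw ha).mono h

/-! ## narrow and wide automata -/

/-- the two tables agree on the first `64` states -/
noncomputable def nwB (dl ac dl' ac' : ℕ) : Bool :=
  allB (fun q => band (Nat.beq (nxN dl q 0) (nxW dl' q 0)) (band (Nat.beq (nxN dl q 6) (nxW dl' q 10))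
    (band (Nat.beq (nxN dl q 12) (nxW dl' q 20)) (bor (band (tb ac q) (tb ac' q))
      (band (bnot (tb ac q)) (bnot (tb ac' q))))))) 64

/-- the two automata are equal -/
noncomputable def sameB (d : DF) (d' : DW) : Bool :=
  DF.rec (motive := fun _ => Bool) (fun dl ac => DW.rec (motive := fun _ => Bool)
    (fun dl' ac' => nwB dl ac dl' ac') d') d

theorem sameB_spec {d : DF} {d' : DW} (h : sameB d d' = true) {q : ℕ} (hq : q < 64) :
    (∀ x, 1 ≤ x ∧ x ≤ 3 → d'.nx q x = d.nx q x) ∧ d'.ac.testBit q = d.ac.testBit q := by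
  have h' : nwB d.dl d.ac d'.dl d'.ac = true := by
    obtain ⟨dl, ac⟩ := d
    obtain ⟨dl', ac'⟩ := d'
    exact h
  have h1 := allB_spec h' hq
  rw [band_eq, band_eq, band_eq, bor_eq, band_eq, band_eq, bnot_eq, bnot_eq, tb_eq, tb_eq] at h1
  simp only [Bool.and_eq_true, beq_eq] at h1
  obtain ⟨e1, e2, e3, e4⟩ := h1
  refine ⟨?_, ?_⟩
  · intro x hx
    have : x = 1 ∨ x = 2 ∨ x = 3 := by omega
    rcases this with rfl | rfl | rfl
    · exact e1.symm
    · exact e2.symm
    · exact e3.symm
  · revert e4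
    cases d.ac.testBit q <;> cases d'.ac.testBit q <;> decide

theorem run_lt (d : DF) (w : List ℕ) : d.run w < 64 := by
  induction w using List.reverseRecOn with
  | nil => exact (show (0 : ℕ) < 64 by norm_num)
  | append_singleton w x ih => rw [run_snoc]; exact DF.nx_lt _ _ _

theorem run_same {d : DF} {d' : DW} (h : sameB d d' = true) {w : List ℕ}
    (hw : ∀ x ∈ w, 1 ≤ x ∧ x ≤ 3) : d'.run w = d.run w := by
  induction w using List.reverseRecOn with
  | nil => rfl
  | append_singleton w x ih =>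
    rw [run_snoc, DW.run_snoc, ih (fun y hy => hw y (by simp [hy]))]
    exact (sameB_spec h (run_lt d w)).1 x (hw x (by simp))

/-- from a narrow automaton to a wide one -/
theorem DW.ok_of_same {M : ℕ} {d : DF} {d' : DW} (hd : d.ok M) (h : sameB d d' = true) :
    d'.ok M := by
  intro w hw ha
  rw [run_same h hw, (sameB_spec h (run_lt d w)).2] at ha
  exact hd w hw ha

/-- from a wide automaton to a narrow one -/
theorem DF.ok_of_same {M : ℕ} {d : DF} {d' : DW} (hd : d'.ok M) (h : sameB d d' = true) :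
    d.ok M := by
  intro w hw ha
  apply hd w hw
  rw [run_same h hw, (sameB_spec h (run_lt d w)).2]
  exact ha

/-! ## entries -/

/-- entries of a node (`1024 * automaton + state`): positive digits in base `2 ^ 24` -/
def enw (c : ℕ) : List ℕ := Nat.digits 16777216 c

theorem enw_zero : enw 0 = [] := Nat.digits_zero _

theorem enw_pos {c : ℕ} (h : c ≠ 0) : enw c = c % 16777216 :: enw (c / 16777216) :=
  Nat.digits_def' (by norm_num) (Nat.pos_of_ne_zero h)

/-- remove the first entry if it is `h` -/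
noncomputable def drW (h t : ℕ) : ℕ :=
  Bool.rec (motive := fun _ => ℕ) t (Nat.div t 16777216) (Nat.beq (Nat.mod t 16777216) h)

theorem drW_spec {h t : ℕ} : ∀ a ∈ enw t, a = h ∨ a ∈ enw (drW h t) := by
  intro a ha
  by_cases h0 : t = 0
  · rw [h0, enw_zero] at ha
    exact absurd ha (by simp)
  · have e : drW h t = Bool.rec (motive := fun _ => ℕ) t (t / 16777216)
        (Nat.beq (Nat.mod t 16777216) h) := rfl
    rw [e]
    rcases hh : Nat.beq (Nat.mod t 16777216) h with _ | _
    · exact Or.inr ha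
    · rw [beq_eq] at hh
      have hh' : t % 16777216 = h := hh
      rw [enw_pos h0] at ha
      rcases List.mem_cons.1 ha with rfl | ha
      · exact Or.inl hh'
      · exact Or.inr ha

/-- one entry of the source is used to remove entries of the three targets -/
noncomputable def mw3 (k : ℕ → ℕ → ℕ → ℕ → Bool) (c t1 t2 t3 dl s l : ℕ) : Bool :=
  frc (Nat.div c 16777216) (fun c' => frc (drW (Nat.add l (nxW dl s 0)) t1) (fun u1 =>
    frc (drW (Nat.add l (nxW dl s 10)) t2) (fun u2 =>
      frc (drW (Nat.add l (nxW dl s 20)) t3) (fun u3 => k c' u1 u2 u3))))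

/-- one entry of the source is used to remove entries of the three targets -/
noncomputable def mwst (k : ℕ → ℕ → ℕ → ℕ → Bool) (c t1 t2 t3 e : ℕ) (d : DW) : Bool :=
  DW.rec (motive := fun _ => Bool) (fun dl _ =>
    frc (Nat.mod e 1024) (fun s => mw3 k c t1 t2 t3 dl s (Nat.sub e s))) d

/-- all entries of the three targets are implied by entries of the source: one round -/
noncomputable def mrwB (ds : BT DW) (k : ℕ → ℕ → ℕ → ℕ → Bool) (c t1 t2 t3 : ℕ) : Bool :=
  Nat.rec (motive := fun _ => Bool) (Nat.beq (Nat.add t1 (Nat.add t2 t3)) 0)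
    (fun _ _ => frc (Nat.mod c 16777216) (fun e =>
      frc (Nat.div e 1024) (fun l => mwst k c t1 t2 t3 e (BT.get ds l)))) c

/-- all entries of the three targets are implied by entries of the source -/
noncomputable def mrw (ds : BT DW) (f : ℕ) : ℕ → ℕ → ℕ → ℕ → Bool :=
  Nat.rec (motive := fun _ => ℕ → ℕ → ℕ → ℕ → Bool) (fun _ _ _ _ => false)
    (fun _ ih => mrwB ds ih) f

/-- entry `a` follows from the entry `b` after the letter `x` -/
def LeW (ds : BT DW) (x a b : ℕ) : Prop :=
  a / 1024 = b / 1024 ∧ a % 1024 = (ds.get (b / 1024)).nx (b % 1024) x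

theorem nxW_lt (dl q y : ℕ) : nxW dl q y < 1024 := Nat.mod_lt _ (by norm_num)

theorem DW.nx_lt (d : DW) (q x : ℕ) : d.nx q x < 1024 := nxW_lt _ _ _

theorem mwst_eq (k : ℕ → ℕ → ℕ → ℕ → Bool) (c t1 t2 t3 e : ℕ) (d : DW) :
    mwst k c t1 t2 t3 e d = k (c / 16777216) (drW (e - e % 1024 + d.nx (e % 1024) 1) t1)
      (drW (e - e % 1024 + d.nx (e % 1024) 2) t2) (drW (e - e % 1024 + d.nx (e % 1024) 3) t3) := by
  obtain ⟨dl, ac⟩ := d
  rfl

theorem mrw_zero (ds : BT DW) (c t1 t2 t3 : ℕ) : mrw ds 0 c t1 t2 t3 = false := rfl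

theorem mrw_succ (ds : BT DW) (f : ℕ) : mrw ds (f + 1) = mrwB ds (mrw ds f) := rfl

theorem mrwB_z (ds : BT DW) (k : ℕ → ℕ → ℕ → ℕ → Bool) (t1 t2 t3 : ℕ) :
    mrwB ds k 0 t1 t2 t3 = Nat.beq (Nat.add t1 (Nat.add t2 t3)) 0 := rfl

theorem mrwB_s (ds : BT DW) (k : ℕ → ℕ → ℕ → ℕ → Bool) (m t1 t2 t3 : ℕ) :
    mrwB ds k (m + 1) t1 t2 t3 = frc (Nat.mod (m + 1) 16777216) (fun e =>
      frc (Nat.div e 1024) (fun l => mwst k (m + 1) t1 t2 t3 e (BT.get ds l))) := rfl

theorem mrw_spec {ds : BT DW} {f c t1 t2 t3 : ℕ} (h : mrw ds f c t1 t2 t3 = true) :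
    (∀ a ∈ enw t1, ∃ b ∈ enw c, LeW ds 1 a b) ∧ (∀ a ∈ enw t2, ∃ b ∈ enw c, LeW ds 2 a b) ∧
      (∀ a ∈ enw t3, ∃ b ∈ enw c, LeW ds 3 a b) := by
  induction f generalizing c t1 t2 t3 with
  | zero => rw [mrw_zero] at h; exact absurd h (by decide)
  | succ f ih =>
    rcases c with _ | m
    · rw [mrw_succ, mrwB_z, beq_eq] at h
      have h2 : t1 + (t2 + t3) = 0 := h
      have e1 : t1 = 0 := by omega
      have e2 : t2 = 0 := by omega
      have e3 : t3 = 0 := by omega
      subst e1 e2 e3
      rw [enw_zero]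
      simp
    · rw [mrw_succ, mrwB_s, frc_eq, frc_eq, mwst_eq] at h
      have hc0 : m + 1 ≠ 0 := by omega
      generalize m + 1 = c at h hc0 ⊢
      have hm : Nat.mod c 16777216 = c % 16777216 := rfl
      rw [hm] at h
      rw [enw_pos hc0]
      generalize c % 16777216 = b at h ⊢
      have hd : Nat.div b 1024 = b / 1024 := rfl
      rw [hd] at h
      obtain ⟨g1, g2, g3⟩ := ih h
      have key : ∀ {x u : ℕ}, (∀ a ∈ enw (drW (b - b % 1024 +
          (BT.get ds (b / 1024)).nx (b % 1024) x) u), ∃ b ∈ enw (c / 16777216), LeW ds x a b) →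
          ∀ a ∈ enw u, ∃ b' ∈ b :: enw (c / 16777216), LeW ds x a b' := by
        intro x u hh a ha
        rcases drW_spec (h := b - b % 1024 + (BT.get ds (b / 1024)).nx (b % 1024) x) a ha with
          h3 | h3
        · refine ⟨b, List.mem_cons_self, ?_⟩
          have hlt := DW.nx_lt (BT.get ds (b / 1024)) (b % 1024) x
          unfold LeW
          omega
        · obtain ⟨b', hb, h4⟩ := hh a h3
          exact ⟨b', List.mem_cons_of_mem _ hb, h4⟩
      exact ⟨key g1, key g2, key g3⟩

/-- the state of the entry `e` is accepting in `d` -/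
noncomputable def acW (d : DW) (e : ℕ) : Bool :=
  DW.rec (motive := fun _ => Bool) (fun _ ac => tb ac (Nat.mod e 1024)) d

theorem acW_eq (d : DW) (e : ℕ) : acW d e = d.ac.testBit (e % 1024) := by
  obtain ⟨dl, ac⟩ := d
  exact tb_eq _ _

/-- some entry is accepting -/
noncomputable def anyW (ds : BT DW) (f : ℕ) : ℕ → Bool :=
  Nat.rec (motive := fun _ => ℕ → Bool) (fun _ => false) (fun _ ih c =>
    Nat.rec (motive := fun _ => Bool) false
      (fun _ _ => frc (Nat.mod c 16777216) (fun e => frc (Nat.div e 1024) (fun l =>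
        bor (acW (BT.get ds l) e) (frc (Nat.div c 16777216) ih)))) c) f

theorem anyW_s (ds : BT DW) (f m : ℕ) : anyW ds (f + 1) (m + 1) =
    frc (Nat.mod (m + 1) 16777216) (fun e => frc (Nat.div e 1024) (fun l =>
        bor (acW (BT.get ds l) e) (frc (Nat.div (m + 1) 16777216) (anyW ds f)))) := rfl

theorem anyW_spec {ds : BT DW} {f c : ℕ} (h : anyW ds f c = true) :
    ∃ g ∈ enw c, (ds.get (g / 1024)).ac.testBit (g % 1024) = true := by
  induction f generalizing c with
  | zero => exact absurd (show (false : Bool) = true from h) (by decide)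
  | succ f ih =>
    rcases c with _ | m
    · exact absurd (show (false : Bool) = true from h) (by decide)
    · rw [anyW_s, frc_eq, frc_eq, frc_eq, acW_eq, bor_eq, Bool.or_eq_true] at h
      have hc0 : m + 1 ≠ 0 := by omega
      generalize m + 1 = c at h hc0 ⊢
      have hm : Nat.mod c 16777216 = c % 16777216 := rfl
      rw [hm] at h
      rw [enw_pos hc0]
      rcases h with h1 | h1
      · exact ⟨c % 16777216, List.mem_cons_self, h1⟩
      · obtain ⟨g, hg, h2⟩ := ih h1
        exact ⟨g, List.mem_cons_of_mem _ hg, h2⟩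

/-- all entries are initial -/
noncomputable def iniW (f : ℕ) : ℕ → Bool :=
  Nat.rec (motive := fun _ => ℕ → Bool) (fun _ => false) (fun _ ih c =>
    Nat.rec (motive := fun _ => Bool) true
      (fun _ _ => band (Nat.beq (Nat.mod (Nat.mod c 16777216) 1024) 0)
        (frc (Nat.div c 16777216) ih)) c) f

theorem iniW_spec {f c : ℕ} (h : iniW f c = true) : ∀ g ∈ enw c, g % 1024 = 0 := by
  induction f generalizing c with
  | zero => exact absurd (show (false : Bool) = true from h) (by decide)
  | succ f ih =>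
    rcases c with _ | m
    · intro g hg
      rw [enw_zero] at hg
      exact absurd hg (by simp)
    · have h1 : band (Nat.beq (Nat.mod (Nat.mod (m + 1) 16777216) 1024) 0)
        (frc (Nat.div (m + 1) 16777216) (iniW f)) = true := h
      rw [band_eq, frc_eq, Bool.and_eq_true, beq_eq] at h1
      have hc0 : m + 1 ≠ 0 := by omega
      generalize m + 1 = c at h1 hc0 ⊢
      intro g hg
      rw [enw_pos hc0] at hg
      rcases List.mem_cons.1 hg with rfl | hg
      · exact h1.1
      · exact ih h1.2 g hg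

/-! ## nodes -/

/-- check of the class automaton in one transition to the node `n` (`1048575`: the class
automaton is in the dead state `dd`), then `k` for its entries -/
noncomputable def tgW (dd : ℕ) (nodes : BT ℕ) (q n : ℕ) (k : ℕ → Bool) : Bool :=
  Bool.rec (motive := fun _ => Bool)
    (frc (BT.get nodes n) (fun c => band (Nat.beq q (Nat.mod c 1024))
      (frc (Nat.shiftRight c 70) k)))
    (band (Nat.beq q dd) (k 0)) (Nat.beq n 1048575)

theorem tgW_spec {dd : ℕ} {nodes : BT ℕ} {q n : ℕ} {k : ℕ → Bool}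
    (h : tgW dd nodes q n k = true) :
    (q = dd ∧ k 0 = true) ∨ (q = nodes.get n % 1024 ∧ k (nodes.get n >>> 70) = true) := by
  unfold tgW at h
  rw [frc_eq, frc_eq] at h
  generalize Nat.beq n 1048575 = b at h
  cases b with
  | false =>
    right
    have h1 : band (Nat.beq q (Nat.mod (nodes.get n) 1024)) (k (Nat.shiftRight (nodes.get n) 70))
      = true := h
    rw [band_eq, Bool.and_eq_true, beq_eq] at h1
    exact h1
  | true =>
    left
    have h1 : band (Nat.beq q dd) (k 0) = true := h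
    rw [band_eq, Bool.and_eq_true, beq_eq] at h1
    exact h1

/-- check of a node: 10 bits for the state of the class automaton, then three successors with 20
bits each, then the entries -/
noncomputable def ndW (dl ac dd : ℕ) (ds : BT DW) (nodes : BT ℕ) (c : ℕ) : Bool :=
  frc c (fun c => frc (Nat.mod c 1024) (fun q => band (bor (bnot (tb ac q))
      (frc (Nat.shiftRight c 70) (anyW ds 1000)))
    (frc (Nat.mod (Nat.shiftRight c 10) 1048576) (fun n1 => tgW dd nodes (nxW dl q 0) n1
      (fun t1 => frc (Nat.mod (Nat.shiftRight c 30) 1048576) (fun n2 =>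
        tgW dd nodes (nxW dl q 10) n2 (fun t2 => frc (Nat.mod (Nat.shiftRight c 50) 1048576)
          (fun n3 => tgW dd nodes (nxW dl q 20) n3 (fun t3 =>
            frc (Nat.shiftRight c 70) (fun e => mrw ds 1000 e t1 t2 t3))))))))))

/-- check of a node -/
noncomputable def nodeW (fd : DW) (dd : ℕ) (ds : BT DW) (nodes : BT ℕ) (c : ℕ) : Bool :=
  DW.rec (motive := fun _ => Bool) (fun dl ac => ndW dl ac dd ds nodes c) fd

/-- check of the initial node -/
noncomputable def node0W (c : ℕ) : Bool :=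
  band (Nat.beq (Nat.mod c 1024) 0) (iniW 1000 (Nat.shiftRight c 70))

/-- check of the dead state -/
noncomputable def ddW (fd : DW) (dd : ℕ) : Bool :=
  DW.rec (motive := fun _ => Bool) (fun dl ac => band (bnot (tb ac dd))
    (band (Nat.beq (nxW dl dd 0) dd) (band (Nat.beq (nxW dl dd 10) dd)
      (Nat.beq (nxW dl dd 20) dd)))) fd

theorem ddW_spec {fd : DW} {dd : ℕ} (h : ddW fd dd = true) :
    fd.ac.testBit dd = false ∧ ∀ x, 1 ≤ x ∧ x ≤ 3 → fd.nx dd x = dd := by
  obtain ⟨dl, ac⟩ := fd
  have h1 : band (bnot (tb ac dd)) (band (Nat.beq (nxW dl dd 0) dd)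
    (band (Nat.beq (nxW dl dd 10) dd) (Nat.beq (nxW dl dd 20) dd))) = true := h
  rw [band_eq, band_eq, band_eq, bnot_eq, tb_eq] at h1
  simp only [Bool.and_eq_true, Bool.not_eq_true', beq_eq] at h1
  obtain ⟨h0, e1, e2, e3⟩ := h1
  refine ⟨h0, fun x hx => ?_⟩
  have : x = 1 ∨ x = 2 ∨ x = 3 := by omega
  rcases this with rfl | rfl | rfl
  · exact e1
  · exact e2
  · exact e3

/-- the invariant of a node -/
def WInv (fd : DW) (ds : BT DW) (w : List ℕ) (c : ℕ) : Prop :=
  fd.run w = c % 1024 ∧ ∀ g ∈ enw (c >>> 70), (ds.get (g / 1024)).run w = g % 1024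

/-- a checked transition -/
def WOk (fd : DW) (dd : ℕ) (ds : BT DW) (nodes : BT ℕ) (c x : ℕ) : Prop :=
  fd.nx (c % 1024) x = dd ∨
    ∃ n, fd.nx (c % 1024) x = nodes.get n % 1024 ∧
      ∀ a ∈ enw (nodes.get n >>> 70), ∃ b ∈ enw (c >>> 70), LeW ds x a b

theorem nodeW_spec {fd : DW} {dd : ℕ} {ds : BT DW} {nodes : BT ℕ} {c : ℕ}
    (h : nodeW fd dd ds nodes c = true) :
    (fd.ac.testBit (c % 1024) = true → ∃ g ∈ enw (c >>> 70),
      (ds.get (g / 1024)).ac.testBit (g % 1024) = true) ∧
    WOk fd dd ds nodes c 1 ∧ WOk fd dd ds nodes c 2 ∧ WOk fd dd ds nodes c 3 := by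
  obtain ⟨dl, ac⟩ := fd
  have h1 : ndW dl ac dd ds nodes c = true := h
  unfold ndW at h1
  simp only [frc_eq] at h1
  rw [band_eq, bor_eq, bnot_eq, Bool.and_eq_true, Bool.or_eq_true, Bool.not_eq_true', tb_eq] at h1
  obtain ⟨h0, h1⟩ := h1
  refine ⟨?_, ?_⟩
  · intro ha
    have ha' : ac.testBit (Nat.mod c 1024) = true := ha
    rw [ha'] at h0
    rcases h0 with h0 | h0
    · exact absurd h0 (by decide)
    · exact anyW_spec h0
  · have k1 : (DW.mk dl ac).nx (c % 1024) 1 = nxW dl (Nat.mod c 1024) 0 := rfl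
    have k2 : (DW.mk dl ac).nx (c % 1024) 2 = nxW dl (Nat.mod c 1024) 10 := rfl
    have k3 : (DW.mk dl ac).nx (c % 1024) 3 = nxW dl (Nat.mod c 1024) 20 := rfl
    have hsh : Nat.shiftRight c 70 = c >>> 70 := rfl
    rw [hsh] at h1
    unfold WOk
    rw [k1, k2, k3]
    rcases tgW_spec h1 with ⟨a1, h2⟩ | ⟨a1, h2⟩ <;> rcases tgW_spec h2 with ⟨a2, h3⟩ | ⟨a2, h3⟩ <;>
      rcases tgW_spec h3 with ⟨a3, h4⟩ | ⟨a3, h4⟩ <;>
      obtain ⟨g1, g2, g3⟩ := mrw_spec h4 <;>
      exact ⟨by first | exact Or.inl a1 | exact Or.inr ⟨_, a1, g1⟩,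
        by first | exact Or.inl a2 | exact Or.inr ⟨_, a2, g2⟩,
        by first | exact Or.inl a3 | exact Or.inr ⟨_, a3, g3⟩⟩

theorem WInv.step {fd : DW} {dd : ℕ} {ds : BT DW} {nodes : BT ℕ} {w : List ℕ} {c x : ℕ}
    (h : WInv fd ds w c) (hs : WOk fd dd ds nodes c x) :
    fd.run (w ++ [x]) = dd ∨ ∃ n, WInv fd ds (w ++ [x]) (nodes.get n) := by
  rcases hs with h2 | ⟨n, h1, h2⟩
  · left
    rw [DW.run_snoc, h.1]
    exact h2
  · right
    refine ⟨n, ?_, ?_⟩
    · rw [DW.run_snoc, h.1]
      exact h1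
    · intro a ha
      obtain ⟨b, hb, e1, e2⟩ := h2 a ha
      rw [DW.run_snoc, e1, h.2 b hb, e2]

/-- **the covering certificate is sound**: all words of the class have labels -/
theorem coverW {M : ℕ} {fd : DW} {dd : ℕ} {ds : BT DW} {nodes : BT ℕ}
    (hdd : ddW fd dd = true) (hok : ∀ t, (ds.get t).ok M)
    (h : nodes.all (nodeW fd dd ds nodes) = true) (h0 : node0W (nodes.get 0) = true) :
    fd.ok M := by
  obtain ⟨d0, d1⟩ := ddW_spec hdd
  have key : ∀ w : List ℕ, (∀ x ∈ w, 1 ≤ x ∧ x ≤ 3) →
      (fd.run w = dd) ∨ ∃ n, WInv fd ds w (nodes.get n) := by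
    intro w
    induction w using List.reverseRecOn with
    | nil =>
      intro _
      right
      unfold node0W at h0
      rw [band_eq, Bool.and_eq_true, beq_eq] at h0
      refine ⟨0, ?_, ?_⟩
      · exact h0.1.symm
      · intro g hg
        exact (iniW_spec h0.2 g hg).symm
    | append_singleton w x ih =>
      intro hx
      have hx1 := hx x (by simp)
      rcases ih (fun y hy => hx y (by simp [hy])) with hd | ⟨n, hinv⟩
      · left
        rw [DW.run_snoc, hd]
        exact d1 x hx1
      · obtain ⟨-, c1, c2, c3⟩ := nodeW_spec (BT.all_get h n)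
        have : x = 1 ∨ x = 2 ∨ x = 3 := by omega
        rcases this with rfl | rfl | rfl
        · exact hinv.step c1
        · exact hinv.step c2
        · exact hinv.step c3
  intro w hw hacc
  rcases key w hw with hd | ⟨n, hinv⟩
  · rw [hd, d0] at hacc
    exact absurd hacc (by decide)
  · obtain ⟨h1, -⟩ := nodeW_spec (BT.all_get h n)
    rw [hinv.1] at hacc
    obtain ⟨g, hg, h2⟩ := h1 hacc
    apply hok (g / 1024) w hw
    rw [hinv.2 g hg]
    exact h2

/-! ## mirrored automata -/

/-- check of one state of the forward automaton: `m` is its mask, `u` the table of the mirrored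
automaton, `n` the number of its states -/
noncomputable def mi1 (dl u : ℕ) (np n : ℕ) (mk : BT ℕ) (p y m : ℕ) : Bool :=
  frc (nxW dl p y) (fun p' => band (Nat.ble (Nat.succ p') np) (frc (BT.get mk p') (fun m' =>
    band (Nat.ble (Nat.succ m') (Nat.pow 2 n))
      (allB (fun x => bor (bnot (tb m' x)) (tb m (nxW u x y))) n))))

/-- check of one state of the forward automaton -/
noncomputable def mi3 (dl ac u : ℕ) (np n : ℕ) (mk : BT ℕ) (p : ℕ) : Bool :=
  frc (BT.get mk p) (fun m => band (bor (bnot (tb ac p)) (tb m 0))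
    (band (mi1 dl u np n mk p 0 m) (band (mi1 dl u np n mk p 10 m) (mi1 dl u np n mk p 20 m))))

/-- check of a mirror certificate: `P` is the forward automaton with `np` states, `U` the
automaton of the reversed words with `n` states, `mk` the masks -/
noncomputable def mirB (P U : DW) (np n : ℕ) (mk : BT ℕ) : Bool :=
  DW.rec (motive := fun _ => Bool) (fun dl ac => DW.rec (motive := fun _ => Bool) (fun u au =>
    band (Nat.ble 1 np) (band (frc (BT.get mk 0) (fun m => Nat.beq (Nat.land m au) m))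
      (allB (fun p => mi3 dl ac u np n mk p) np))) U) P

theorem mirB_spec {P U : DW} {np n : ℕ} {mk : BT ℕ} (h : mirB P U np n mk = true) :
    0 < np ∧ (∀ x, (mk.get 0).testBit x = true → U.ac.testBit x = true) ∧
    ∀ p < np, (P.ac.testBit p = true → (mk.get p).testBit 0 = true) ∧
      ∀ c, 1 ≤ c ∧ c ≤ 3 → P.nx p c < np ∧
        ∀ x, (mk.get (P.nx p c)).testBit x = true → (mk.get p).testBit (U.nx x c) = true := by
  obtain ⟨dl, ac⟩ := P
  obtain ⟨u, au⟩ := U
  have h1 : band (Nat.ble 1 np) (band (frc (BT.get mk 0) (fun m => Nat.beq (Nat.land m au) m))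
      (allB (fun p => mi3 dl ac u np n mk p) np)) = true := h
  rw [band_eq, band_eq, frc_eq] at h1
  simp only [Bool.and_eq_true, beq_eq] at h1
  obtain ⟨g0, g1, g2⟩ := h1
  have k1 : ∀ {p y m : ℕ}, mi1 dl u np n mk p y m = true → nxW dl p y < np ∧
      ∀ x, (mk.get (nxW dl p y)).testBit x = true → m.testBit (nxW u x y) = true := by
    intro p y m h2
    unfold mi1 at h2
    rw [frc_eq, band_eq, frc_eq, band_eq] at h2
    simp only [Bool.and_eq_true] at h2
    obtain ⟨a1, a2, a3⟩ := h2
    refine ⟨bles_eq.1 a1, fun x hx => ?_⟩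
    have hlt : x < n := by
      by_contra hc
      have h3 : mk.get (nxW dl p y) < 2 ^ x :=
        lt_of_lt_of_le (bles_eq.1 a2) (Nat.pow_le_pow_right (by norm_num) (by omega))
      rw [Nat.testBit_lt_two_pow h3] at hx
      exact absurd hx (by decide)
    have h4 := allB_spec a3 hlt
    rw [bor_eq, bnot_eq, tb_eq, tb_eq, hx] at h4
    simpa using h4
  refine ⟨ble_eq'.1 g0, ?_, ?_⟩
  · intro x hx
    have g1' : (mk.get 0 &&& au) = mk.get 0 := g1
    rw [← g1', Nat.testBit_and, Bool.and_eq_true] at hx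
    exact hx.2
  · intro p hp
    have h2 := allB_spec g2 hp
    unfold mi3 at h2
    rw [frc_eq, band_eq, band_eq, band_eq, bor_eq, bnot_eq, tb_eq, tb_eq] at h2
    simp only [Bool.and_eq_true, Bool.or_eq_true, Bool.not_eq_true'] at h2
    obtain ⟨a0, a1, a2, a3⟩ := h2
    refine ⟨?_, ?_⟩
    · intro ha
      have ha' : ac.testBit p = true := ha
      rw [ha'] at a0
      rcases a0 with a0 | a0
      · exact absurd a0 (by decide)
      · exact a0
    · intro c hc
      have : c = 1 ∨ c = 2 ∨ c = 3 := by omega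
      rcases this with rfl | rfl | rfl
      · exact k1 a1
      · exact k1 a2
      · exact k1 a3

theorem mir_inv {P U : DW} {np n : ℕ} {mk : BT ℕ} (h : mirB P U np n mk = true) {w : List ℕ}
    (hw : ∀ x ∈ w, 1 ≤ x ∧ x ≤ 3) : P.run w < np ∧ ∀ x, (mk.get (P.run w)).testBit x = true →
      U.ac.testBit (w.reverse.foldl U.nx x) = true := by
  obtain ⟨g0, g1, g2⟩ := mirB_spec h
  induction w using List.reverseRecOn with
  | nil =>
    refine ⟨g0, fun x hx => ?_⟩
    exact g1 x hx
  | append_singleton w c ih =>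
    obtain ⟨i1, i2⟩ := ih (fun y hy => hw y (by simp [hy]))
    obtain ⟨-, h3⟩ := g2 _ i1
    obtain ⟨h4, h5⟩ := h3 c (hw c (by simp))
    rw [DW.run_snoc]
    refine ⟨h4, fun x hx => ?_⟩
    rw [List.reverse_append, List.reverse_singleton, List.singleton_append, List.foldl_cons]
    exact i2 _ (h5 x hx)

/-- words of even length have labels -/
theorem Lab3.of_even {w : List ℕ} (h : w.length % 2 = 0) : Lab3 8 w := by
  intro hv
  refine even_self 3 (cw w) hv ?_
  unfold cw
  simp only [List.length_append, List.length_cons, List.length_nil]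
  omega

/-- **the mirror certificate is sound** -/
theorem mirrorW {M : ℕ} {P U : DW} {np n : ℕ} {mk : BT ℕ} (hU : U.ok M)
    (h : mirB P U np n mk = true) : P.ok (2 * M + 8) := by
  intro w hw ha
  rcases Nat.mod_two_eq_zero_or_one w.length with h2 | h2
  · exact (Lab3.of_even h2).mono (by omega)
  · obtain ⟨i1, i2⟩ := mir_inv h hw
    obtain ⟨-, -, g2⟩ := mirB_spec h
    have h3 := i2 0 ((g2 _ i1).1 ha)
    have h4 : Lab3 M w.reverse := hU w.reverse (fun x hx => hw x (List.mem_reverse.1 hx)) h3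
    have h5 := h4.rev (by rw [List.length_reverse]; exact h2)
    rw [List.reverse_reverse] at h5
    exact h5.mono (by omega)

/-! ## all words of odd length -/

/-- the wide automaton of all words of odd length (states `0`, `1`, dead state `1023`) -/
def oddW : DW := ⟨1 + 1024 + 1048576, 2⟩

/-- all words of odd length -/
theorem oddW_run {w : List ℕ} (hw : ∀ x ∈ w, 1 ≤ x ∧ x ≤ 3) : oddW.run w = w.length % 2 := by
  induction w using List.reverseRecOn with
  | nil => rfl
  | append_singleton w x ih =>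
    rw [DW.run_snoc, ih (fun y hy => hw y (by simp [hy])), List.length_append]
    simp only [List.length_cons, List.length_nil, zero_add]
    have hx1 := hw x (by simp)
    have h3 : x = 1 ∨ x = 2 ∨ x = 3 := by omega
    rcases Nat.mod_two_eq_zero_or_one w.length with h2 | h2
    · rw [h2, show (w.length + 1) % 2 = 1 by omega]
      rcases h3 with rfl | rfl | rfl <;> decide +kernel
    · rw [h2, show (w.length + 1) % 2 = 0 by omega]
      rcases h3 with rfl | rfl | rfl <;> decide +kernel

/-- **the template theorem for three levels, from a wide covering certificate** -/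
theorem TT3_of_oddW {M : ℕ} (h : oddW.ok M) : TT 3 := by
  refine TT_of_self (self3_of (M1 := M) (M2 := 8) ?_ (fun u hv he => even_self 3 u hv he))
  intro w hw hodd
  apply h w hw
  rw [oddW_run hw, hodd]
  decide +kernel

end MPb6P
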