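import Mathlib
import Pool.Agent.Lib.MP_b6d339_lc.Pos.L1

/-!
# Boolean functions which are evaluated quickly by the kernel
-/

namespace MPb6P

theorem band_eq (a b : Bool) : band a b = (a && b) := by cases a <;> rfl

theorem bor_eq (a b : Bool) : bor a b = (a || b) := by cases a <;> rfl

theorem bnot_eq (a : Bool) : bnot a = !a := by cases a <;> rfl

theorem tb_eq (m n : ℕ) : tb m n = m.testBit n := by
  have h1 : m.testBit n = decide ((m >>> n) % 2 = 1) := by
    rw [Nat.testBit, Nat.and_comm, Nat.and_one_is_mod]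
    rcases Nat.mod_two_eq_zero_or_one (m >>> n) with h | h <;> rw [h] <;> rfl
  rw [h1]
  show Nat.beq ((m >>> n) % 2) 1 = _
  rcases Nat.mod_two_eq_zero_or_one (m >>> n) with h | h <;> rw [h] <;> rfl

theorem beq_eq {a b : ℕ} : Nat.beq a b = true ↔ a = b :=
  ⟨Nat.eq_of_beq_eq_true, fun h => by rw [h]; exact Nat.beq_refl _⟩

theorem beq_ff {a b : ℕ} : Nat.beq a b = false ↔ a ≠ b := by
  rw [← Bool.not_eq_true, beq_eq]

theorem ble_eq' {a b : ℕ} : Nat.ble a b = true ↔ a ≤ b :=
  ⟨fun h => Nat.le_of_ble_eq_true h, fun h => Nat.ble_eq_true_of_le h⟩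

theorem bles_eq {a b : ℕ} : Nat.ble (Nat.succ a) b = true ↔ a < b :=
  ⟨fun h => Nat.le_of_ble_eq_true h, fun h => Nat.ble_eq_true_of_le h⟩

theorem allB_succ (p : ℕ → Bool) (n : ℕ) : allB p (n + 1) = (p n && allB p n) := by
  show Bool.rec (motive := fun _ => Bool) false (allB p n) (p n) = _
  cases p n <;> rfl

theorem allB_spec {p : ℕ → Bool} {n : ℕ} (h : allB p n = true) {i : ℕ} (hi : i < n) :
    p i = true := by
  induction n with
  | zero => omega
  | succ n ih =>
    rw [allB_succ, Bool.and_eq_true] at h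
    rcases Nat.lt_succ_iff_lt_or_eq.1 hi with h1 | h1
    · exact ih h.2 h1
    · rw [h1]; exact h.1

theorem lall_eq {α : Type} (p : α → Bool) (l : List α) : lall p l = l.all p := by
  induction l with
  | nil => rfl
  | cons a l ih =>
    rw [List.all_cons, ← ih]
    show Bool.rec (motive := fun _ => Bool) false (lall p l) (p a) = _
    cases p a <;> rfl

theorem lany_eq {α : Type} (p : α → Bool) (l : List α) : lany p l = l.any p := by
  induction l with
  | nil => rfl
  | cons a l ih =>
    rw [List.any_cons, ← ih]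
    show Bool.rec (motive := fun _ => Bool) (lany p l) true (p a) = _
    cases p a <;> rfl

theorem lall_spec {α : Type} {p : α → Bool} {l : List α} (h : lall p l = true) :
    ∀ a ∈ l, p a = true := by
  rw [lall_eq, List.all_eq_true] at h
  exact h

theorem lany_spec {α : Type} {p : α → Bool} {l : List α} (h : lany p l = true) :
    ∃ a ∈ l, p a = true := by
  rw [lany_eq, List.any_eq_true] at h
  exact h

theorem frc_eq {α : Type} (n : ℕ) (f : ℕ → α) : frc n f = f n := rfl

theorem lget_nil {α : Type} (d : α) (i : ℕ) : lget d [] i = d := rfl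

theorem lget_zero {α : Type} (d a : α) (l : List α) : lget d (a :: l) 0 = a := rfl

theorem lget_succ {α : Type} (d a : α) (l : List α) (i : ℕ) :
    lget d (a :: l) (i + 1) = lget d l i := rfl

theorem lget_mem {α : Type} (d : α) (l : List α) (i : ℕ) : lget d l i ∈ l ∨ lget d l i = d := by
  induction l generalizing i with
  | nil => right; rfl
  | cons a l ih =>
    cases i with
    | zero => left; rw [lget_zero]; simp
    | succ i =>
      rw [lget_succ]
      rcases ih i with h | h
      · left; simp [h]
      · right; exact h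

theorem allSet_spec {m a l : ℕ} (h : allSet m a l = true) {t : ℕ} (h1 : a < t) (h2 : t ≤ l) :
    m.testBit t = true := by
  have h0 : (m >>> (a + 1)) % 2 ^ (l - a) + 1 = 2 ^ (l - a) := Nat.eq_of_beq_eq_true h
  have h' : (m >>> (a + 1)) % 2 ^ (l - a) = 2 ^ (l - a) - 1 := by omega
  have e : t = (a + 1) + (t - a - 1) := by omega
  have hlt : t - a - 1 < l - a := by omega
  have h3 : ((m >>> (a + 1)) % 2 ^ (l - a)).testBit (t - a - 1) = true := by
    rw [h', Nat.testBit_two_pow_sub_one]
    simpa using hlt
  rw [Nat.testBit_mod_two_pow] at h3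
  simp only [hlt, decide_true, Bool.true_and] at h3
  rw [Nat.testBit_shiftRight] at h3
  rw [e]
  exact h3

theorem allClr_spec {m a l : ℕ} (h : allClr m a l = true) {t : ℕ} (h1 : a < t) (h2 : t < l) :
    m.testBit t = false := by
  have h' : (m >>> (a + 1)) % 2 ^ (l - (a + 1)) = 0 := Nat.eq_of_beq_eq_true h
  have e : t = (a + 1) + (t - a - 1) := by omega
  have hlt : t - a - 1 < l - (a + 1) := by omega
  have h3 : ((m >>> (a + 1)) % 2 ^ (l - (a + 1))).testBit (t - a - 1) = false := by
    rw [h', Nat.zero_testBit]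
  rw [Nat.testBit_mod_two_pow] at h3
  simp only [hlt, decide_true, Bool.true_and] at h3
  rw [Nat.testBit_shiftRight] at h3
  rw [e]
  exact h3

end MPb6P
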