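import Pool.Agent.Lib.MP_b6d339_lc.Pos.WSound
import Pool.Agent.Lib.MP_b6d339_lc.Pos.WKer

/-!
# Erdős 592, positive side: bit mask coding of label templates and role automata
-/

namespace MPb6P

namespace CT

/-- the role data -/
def rl (C : CT) (R : Fin 3) : CRole := if R = 0 then C.rA else if R = 1 then C.rB else C.rC

end CT

namespace CRole

/-- kinds of labels -/
def kd (c : CRole) (l : ℕ) : ℕ := if c.us.testBit l then (if c.ct.testBit l then 1 else 2) else 0

/-- parities of labels -/
def pi (c : CRole) (l : ℕ) : ℕ :=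
  if c.a0.testBit l then (if c.a1.testBit l then 2 else 0) else 1

/-- labels allowed for indices of parity `e` -/
def al (c : CRole) (e : ℕ) : ℕ := if e = 0 then c.a0 else c.a1

/-- as a role -/
def toW (c : CRole) : WRole := ⟨c.kd, c.pi, c.l1, c.l2⟩

end CRole

/-- the label template -/
def CT.toW (C : CT) : WT := ⟨fun R => (C.rl R).toW, C.prom⟩

/-- a guest in another role of class at most `hi`, with start label `p2` and label `l` is hosted by
the promise `h` of the role `r` with parity `e` -/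
structure HostP (r e p2 l hi : ℕ) (h : WProm) : Prop where
  r' : h.r = r
  e' : h.e = e
  c' : hi ≤ h.c
  s' : h.sm < l
  l' : p2 < h.lm

/-- the promise `h` is respected by the letter -/
structure PFP (r e p2 l lo fl fl' : ℕ) (h : WProm) : Prop where
  park : h.fl = 0 → h.r = r → h.e = e → p2 ≤ h.sm → h.lm ≤ l → h.c ≤ lo
  flag : h.fl ≠ 0 → h.r = r → fl'.testBit (h.fl - 1) = true → fl.testBit (h.fl - 1) = true ∨
    (h.e = e ∧ p2 ≤ h.sm ∧ h.lm ≤ l ∧ h.c ≤ lo)

/-- step of a role automaton: from `s` to `s'` with a letter of class in `[lo, hi]`, of index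
parity `e` -/
structure RStep (C : CT) (R : Fin 3) (e lo hi : ℕ) (s s' : RS) : Prop where
  p2 : s'.p2 = s.p1
  le : s.p1 ≤ s'.p1
  us : (C.rl R).us.testBit s'.p1 = true
  ct : s.p1 ≠ s'.p1 ∨ (C.rl R).ct.testBit s'.p1 = false
  al : allSet ((C.rl R).al e) s.p1 s'.p1 = true
  cl : allClr (C.rl R).ct s.p1 s'.p1 = true
  host : 3 < lo ∨ ∃ h ∈ C.prom, HostP (oth R e).1.1 (oth R e).2 s.p2 s'.p1 hi h
  pf : ∀ h ∈ C.prom, PFP R.1 e s.p2 s'.p1 lo s.fl s'.fl h

/-- acceptance of a role automaton -/
structure RAcc (C : CT) (R : Fin 3) (s : RS) : Prop where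
  l1 : s.p1 = (C.rl R).l1
  l2 : s.p2 = (C.rl R).l2
  fl : ∀ h ∈ C.prom, h.fl ≠ 0 → h.r = R.1 → s.fl.testBit (h.fl - 1) = true

/-- the role automaton reaches `s` along `w` -/
inductive RP (C : CT) (R : Fin 3) : List ℕ → RS → Prop
  | nil : RP C R [] ⟨0, 0, 0⟩
  | snoc {w : List ℕ} {s s' : RS} {x lo hi : ℕ} : RP C R w s → lo ≤ x → x ≤ hi →
      RStep C R (w.length % 2) lo hi s s' → RP C R (w ++ [x]) s'

theorem RP.path {C : CT} {R : Fin 3} {w : List ℕ} {s : RS} (h : RP C R w s) :
    ∃ st : ℕ → RS, st 0 = ⟨0, 0, 0⟩ ∧ st w.length = s ∧ ∀ i < w.length, ∃ lo hi,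
      lo ≤ w.getD i 0 ∧ w.getD i 0 ≤ hi ∧ RStep C R (i % 2) lo hi (st i) (st (i + 1)) := by
  induction h with
  | nil => exact ⟨fun _ => ⟨0, 0, 0⟩, rfl, rfl, fun i hi => absurd hi (Nat.not_lt_zero i)⟩
  | @snoc w s s' x lo hi _ h1 h2 h3 ih =>
    obtain ⟨st, e0, e1, h⟩ := ih
    refine ⟨fun i => if i ≤ w.length then st i else s', ?_, ?_, ?_⟩
    · simp [e0]
    · simp
    · intro i hi2
      simp only [List.length_append, List.length_cons, List.length_nil, zero_add] at hi2
      by_cases hlt : i < w.length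
      · obtain ⟨lo', hi', g1, g2, g3⟩ := h i hlt
        refine ⟨lo', hi', ?_, ?_, ?_⟩
        · rw [List.getD_append _ _ _ _ hlt]; exact g1
        · rw [List.getD_append _ _ _ _ hlt]; exact g2
        · simp only [hlt.le, if_true, Nat.succ_le_of_lt hlt]; exact g3
      · have hi3 : i = w.length := by omega
        subst hi3
        refine ⟨lo, hi, ?_, ?_, ?_⟩
        · rw [List.getD_append_right _ _ _ _ (le_refl _)]; simpa using h1
        · rw [List.getD_append_right _ _ _ _ (le_refl _)]; simpa using h2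
        · simp only [le_refl, if_true, Nat.not_succ_le_self, if_false, e1]; exact h3

/-- **an accepted word has labels obeying the template** -/
theorem wlab_of_RP {C : CT} {R : Fin 3} {u : List ℕ} {s : RS} (hu : 2 ≤ u.length)
    (h : RP C R u s) (ha : RAcc C R s) :
    ∃ lab : ℕ → ℕ, WLab 3 C.toW u R lab := by
  obtain ⟨st, e0, e1, h⟩ := h.path
  set lab : ℕ → ℕ := fun i => (st (i + 1)).p1 with hlab
  have hl : ∀ i, lab i = (st (i + 1)).p1 := fun i => rfl
  have hp1 : ∀ i, i ≤ u.length → (st i).p1 = prevL lab i := by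
    intro i _
    unfold prevL
    split_ifs with h0
    · rw [h0, e0]
    · rw [hl]; congr 2; omega
  have hp2 : ∀ i, i ≤ u.length → (st i).p2 = stR lab i := by
    intro i hi
    unfold stR
    rcases Nat.eq_zero_or_pos i with h0 | h0
    · rw [h0, e0]; rfl
    · obtain ⟨j, rfl⟩ : ∃ j, i = j + 1 := ⟨i - 1, by omega⟩
      obtain ⟨lo, hi', -, -, b⟩ := h j (by omega)
      rw [b.p2, hp1 j (by omega)]
      unfold prevL
      split_ifs <;> first | rfl | (exfalso; omega)
  have hkd : ∀ l, C.toW.kd R l = (C.rl R).kd l := fun l => rfl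
  have hpi : ∀ l, C.toW.pi R l = (C.rl R).pi l := fun l => rfl
  refine ⟨lab, ?_, ?_, ?_, ?_, ?_, ?_, ?_, ?_, ?_, ?_⟩
  · intro i hi
    obtain ⟨lo, hi', -, -, b⟩ := h i hi
    rw [hkd]
    unfold CRole.kd
    rw [hl, b.us]
    simp only [if_true]
    split_ifs <;> norm_num
  · intro i hi
    obtain ⟨lo, hi', -, -, b⟩ := h i hi
    rw [← hp1 i hi.le]; exact b.le
  · intro i hi he
    obtain ⟨lo, hi', -, -, b⟩ := h i hi
    rw [← hp1 i hi.le] at he
    have b4' : (C.rl R).ct.testBit (st (i + 1)).p1 = false := by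
      rcases b.ct with b4 | b4
      · exact absurd he b4
      · exact b4
    rw [hkd]
    unfold CRole.kd
    rw [hl, b.us, b4']
    rfl
  · intro i hi t ht1 ht2
    obtain ⟨lo, hi', -, -, b⟩ := h i hi
    rw [← hp1 i hi.le] at ht1
    have h5 := allSet_spec b.al ht1 ht2
    rw [hpi]
    unfold CRole.pi
    unfold CRole.al at h5
    rcases Nat.mod_two_eq_zero_or_one i with h0 | h0
    · rw [h0] at h5 ⊢
      simp only [if_true] at h5
      rw [h5]
      simp only [if_true]
      split_ifs <;> simp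
    · rw [h0] at h5 ⊢
      simp only [one_ne_zero, if_false] at h5
      rw [h5]
      simp only [if_true]
      split_ifs <;> simp
  · intro i hi t ht1 ht2
    obtain ⟨lo, hi', -, -, b⟩ := h i hi
    rw [← hp1 i hi.le] at ht1
    have h5 := allClr_spec b.cl ht1 ht2
    rw [hkd]
    unfold CRole.kd
    rw [h5]
    split_ifs <;> simp_all
  · intro i hi hc
    obtain ⟨lo, hi', g1, g2, b⟩ := h i hi
    rcases b.host with b7 | ⟨p, hp, hb⟩
    · omega
    · refine ⟨p, hp, hb.r', hb.e', le_trans g2 hb.c', hb.s', ?_⟩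
      rw [← hp2 i hi.le]
      exact hb.l'
  · intro i hi p hp hf hr he hs hle
    obtain ⟨lo, hi', g1, g2, b⟩ := h i hi
    rw [← hp2 i hi.le] at hs
    exact le_trans ((b.pf p hp).park hf hr he hs hle) g1
  · intro p hp hf hr
    have key : ∀ i, i ≤ u.length → (st i).fl.testBit (p.fl - 1) = true → ∃ j < i,
        j % 2 = p.e ∧ stR lab j ≤ p.sm ∧ p.lm ≤ lab j ∧ p.c ≤ u.getD j 0 := by
      intro i
      induction i with
      | zero => intro _ hb; rw [e0] at hb; simp at hb
      | succ i ih =>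
        intro hi hb
        obtain ⟨lo, hi', g1, g2, b⟩ := h i (by omega)
        rcases (b.pf p hp).flag hf hr hb with h1 | ⟨c1, c2, c3, c4⟩
        · obtain ⟨j, hj, hh⟩ := ih (by omega) h1
          exact ⟨j, by omega, hh⟩
        · refine ⟨i, by omega, c1.symm, ?_, c3, le_trans c4 g1⟩
          rw [← hp2 i (by omega)]
          exact c2
    have hend : (st u.length).fl.testBit (p.fl - 1) = true := by
      rw [e1]
      exact ha.fl p hp hf hr
    exact key u.length (le_refl _) hend
  · have : u.length - 1 + 1 = u.length := by omega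
    rw [hl, this, e1, ha.l1]; rfl
  · have : u.length - 2 + 1 = u.length - 1 := by omega
    rw [hl, this]
    have h2 := hp2 u.length (le_refl _)
    unfold stR at h2
    rw [if_neg (by omega), hl, this, e1, ha.l2] at h2
    rw [← h2]; rfl

end MPb6P
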