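import Pool.Agent.Lib.MP_b6d339_lc.Pos.TSound
import Pool.Agent.Lib.MP_b6d339_lc.Pos.L1

/-!
# Erdős 592, positive side: label templates and their soundness
-/

namespace MPb6P

/-- the labels of a role: kinds (`0` unused, `1` cut, `2` sweep), parities, last two labels -/
structure WRole where
  kd : ℕ → ℕ
  pi : ℕ → ℕ
  l1 : ℕ
  l2 : ℕ

/-- label templates -/
structure WT where
  role : Fin 3 → WRole
  prom : List WProm

namespace WT

/-- kind of a label -/
def kd (T : WT) (R : Fin 3) (l : ℕ) : ℕ := (T.role R).kd l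

/-- parity of a label, `2` if undetermined -/
def pi (T : WT) (R : Fin 3) (l : ℕ) : ℕ := (T.role R).pi l

/-- last label -/
def l1 (T : WT) (R : Fin 3) : ℕ := (T.role R).l1

/-- last but one label -/
def l2 (T : WT) (R : Fin 3) : ℕ := (T.role R).l2

end WT

/-- label of the previous event -/
def prevL (lab : ℕ → ℕ) (i : ℕ) : ℕ := if i = 0 then 0 else lab (i - 1)

/-- start label, for one role -/
def stR (lab : ℕ → ℕ) (i : ℕ) : ℕ := if i < 2 then 0 else lab (i - 2)

/-- the labels `lab` of the word `u` in role `R` obey the template -/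
structure WLab (D : ℕ) (T : WT) (u : List ℕ) (R : Fin 3) (lab : ℕ → ℕ) : Prop where
  used : ∀ i < u.length, T.kd R (lab i) ≠ 0
  prev : ∀ i < u.length, prevL lab i ≤ lab i
  rep : ∀ i < u.length, prevL lab i = lab i → T.kd R (lab i) = 2
  par : ∀ i < u.length, ∀ t, prevL lab i < t → t ≤ lab i → T.pi R t = 2 ∨ T.pi R t = i % 2
  skip : ∀ i < u.length, ∀ t, prevL lab i < t → t < lab i → T.kd R t ≠ 1
  guest : ∀ i < u.length, u.getD i 0 ≤ D → ∃ h ∈ T.prom, h.r = (oth R (i % 2)).1.1 ∧
    h.e = (oth R (i % 2)).2 ∧ u.getD i 0 ≤ h.c ∧ h.sm < lab i ∧ stR lab i < h.lm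
  park : ∀ i < u.length, ∀ h ∈ T.prom, h.fl = 0 → h.r = R.1 → h.e = i % 2 →
    stR lab i ≤ h.sm → h.lm ≤ lab i → h.c ≤ u.getD i 0
  event : ∀ h ∈ T.prom, h.fl ≠ 0 → h.r = R.1 → ∃ i < u.length, i % 2 = h.e ∧
    stR lab i ≤ h.sm ∧ h.lm ≤ lab i ∧ h.c ≤ u.getD i 0
  last1 : lab (u.length - 1) = T.l1 R
  last2 : lab (u.length - 2) = T.l2 R

/-- validity of a label template -/
structure WValid (M : ℕ) (T : WT) : Prop where
  kd0 : ∀ R, T.kd R 0 = 0
  kdM : ∀ R l, T.kd R l ≠ 0 → l ≤ M
  cut : ∀ R l, T.kd R l = 1 → T.pi R l < 2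
  com : ∀ R R', R ≠ R' → ∀ l, T.kd R l ≠ 0 → T.kd R' l ≠ 0 →
    T.kd R l = 1 ∧ T.kd R' l = 1 ∧ plr R (T.pi R l) = plr R' (T.pi R' l) ∧
    ((l = T.l1 R ∨ l = T.l2 R) ↔ (l = T.l1 R' ∨ l = T.l2 R'))
  tim : ∀ R l, T.kd R l ≠ 0 → ∀ e < 2, (T.kd R l = 1 → e = T.pi R l) →
    T.pi (oth R e).1 l = (oth R e).2 ∧ l ≤ T.l1 (oth R e).1 ∧
    ((l = T.l1 R ∨ l = T.l2 R) → T.kd (oth R e).1 l = 1)
  lst : ∀ R, T.l2 R < T.l1 R ∧ T.kd R (T.l1 R) = 1 ∧ T.kd R (T.l2 R) = 1
  prk : ∀ h ∈ T.prom, h.fl = 0 → ∀ R : Fin 3, h.r = R.1 → h.sm + 2 = h.lm ∧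
    T.kd R (h.sm + 1) = 0 ∧ h.e < 2 ∧ h.sm + 1 < (if T.pi R (T.l1 R) = h.e then T.l1 R else T.l2 R)
  rl : ∀ h ∈ T.prom, h.r < 3

section lab

variable {D M : ℕ} {T : WT} {u : List ℕ} {R : Fin 3} {lab : ℕ → ℕ}

theorem WLab.mono1 (h : WLab D T u R lab) {i : ℕ} (hi : i + 1 < u.length) :
    lab i ≤ lab (i + 1) := by
  have := h.prev (i + 1) hi
  simpa [prevL] using this

theorem WLab.mono (h : WLab D T u R lab) {i j : ℕ} (hij : i ≤ j) (hj : j < u.length) :
    lab i ≤ lab j := by
  induction j, hij using Nat.le_induction with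
  | base => exact le_refl _
  | succ j hij ih => exact le_trans (ih (by omega)) (h.mono1 hj)

/-- a cut label is used only once -/
theorem WLab.uniq (h : WLab D T u R lab) {i j : ℕ} (hi : i < u.length) (hj : j < u.length)
    (hk : T.kd R (lab i) = 1) (he : lab j = lab i) : j = i := by
  by_contra hne
  have key : ∀ a b, a < b → b < u.length → lab a = lab b → T.kd R (lab b) = 1 → False := by
    intro a b hab hb hl hk1
    have h1 := h.mono (i := a) (j := b - 1) (by omega) (by omega)
    have h2 := h.mono (i := b - 1) (j := b) (by omega) hb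
    have h3 : prevL lab b = lab b := by
      unfold prevL; rw [if_neg (by omega)]; omega
    have := h.rep b hb h3
    omega
  rcases lt_or_gt_of_ne hne with hlt | hlt
  · exact key j i hlt hi he hk
  · exact key i j hlt hj he.symm (by rw [he]; exact hk)

/-- parity of the event with a cut label -/
theorem WLab.cutpar (h : WLab D T u R lab) (hT : WValid M T) {i : ℕ} (hi : i < u.length)
    (hk : T.kd R (lab i) = 1) : T.pi R (lab i) = i % 2 := by
  have h1 := h.prev i hi
  have h2 : prevL lab i ≠ lab i := by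
    intro he; have := h.rep i hi he; omega
  have h3 := h.par i hi (lab i) (by omega) (le_refl _)
  have h4 := hT.cut R _ hk
  omega

theorem WLab.lastiff (h : WLab D T u R lab) (hT : WValid M T) (hu : 2 ≤ u.length) {i : ℕ}
    (hi : i < u.length) : (u.length ≤ i + 2 ↔ (lab i = T.l1 R ∨ lab i = T.l2 R)) := by
  have hl := hT.lst R
  constructor
  · intro hh
    have : i = u.length - 1 ∨ i = u.length - 2 := by omega
    rcases this with rfl | rfl
    · exact Or.inl h.last1
    · exact Or.inr h.last2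
  · rintro (hh | hh)
    · have := h.uniq (i := u.length - 1) (j := i) (by omega) hi (by rw [h.last1]; exact hl.2.1)
        (by rw [hh, h.last1])
      omega
    · have := h.uniq (i := u.length - 2) (j := i) (by omega) hi (by rw [h.last2]; exact hl.2.2)
        (by rw [hh, h.last2])
      omega

/-- the first event with label at least `t` -/
theorem WLab.first (h : WLab D T u R lab) (hu : 2 ≤ u.length) {t : ℕ} (ht : t ≤ T.l1 R) :
    ∃ j < u.length, t ≤ lab j ∧ (∀ k < j, lab k < t) := by
  classical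
  have hex : ∃ j, j < u.length ∧ t ≤ lab j := ⟨u.length - 1, by omega, by rw [h.last1]; exact ht⟩
  refine ⟨Nat.find hex, (Nat.find_spec hex).1, (Nat.find_spec hex).2, ?_⟩
  intro k hk
  by_contra hc
  exact Nat.find_min hex hk ⟨lt_trans hk (Nat.find_spec hex).1, by omega⟩

/-- promises are kept -/
theorem WLab.promise (h : WLab D T u R lab) (hT : WValid M T) (hu : 2 ≤ u.length)
    {p : WProm} (hp : p ∈ T.prom) (hr : p.r = R.1) :
    ∃ i < u.length, i % 2 = p.e ∧ stR lab i ≤ p.sm ∧ p.lm ≤ lab i ∧ p.c ≤ u.getD i 0 := by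
  classical
  by_cases hf : p.fl = 0
  · obtain ⟨h1, h2, h3, h4⟩ := hT.prk p hp hf R hr
    have hl := hT.lst R
    -- some letter of the parity with large label
    have hex : ∃ j, j < u.length ∧ j % 2 = p.e ∧ p.sm + 1 < lab j := by
      have c1 := h.cutpar hT (i := u.length - 1) (by omega) (by rw [h.last1]; exact hl.2.1)
      rw [h.last1] at c1
      by_cases he : T.pi R (T.l1 R) = p.e
      · rw [if_pos he] at h4
        exact ⟨u.length - 1, by omega, by omega, by rw [h.last1]; exact h4⟩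
      · rw [if_neg he] at h4
        exact ⟨u.length - 2, by omega, by omega, by rw [h.last2]; exact h4⟩
    obtain ⟨hj1, hj2, hj3⟩ := Nat.find_spec hex
    set j := Nat.find hex with hj
    have hst : stR lab j ≤ p.sm := by
      unfold stR
      split_ifs with hlt
      · omega
      · have hmin := Nat.find_min hex (m := j - 2) (by omega)
        have h5 : ¬ (p.sm + 1 < lab (j - 2)) := by
          intro hc; exact hmin ⟨by omega, by omega, hc⟩
        have h6 : lab (j - 2) ≠ p.sm + 1 := by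
          intro hc
          have := h.used (j - 2) (by omega)
          rw [hc] at this
          exact this h2
        omega
    exact ⟨j, hj1, hj2, hst, by omega, h.park j hj1 p hp hf hr hj2.symm hst (by omega)⟩
  · obtain ⟨i, hi, h1, h2, h3, h4⟩ := h.event p hp hf hr
    exact ⟨i, hi, h1, h2, h3, h4⟩

end lab

/-- **Soundness of label templates.** -/
theorem self_of_wlab {D M : ℕ} {T : WT} (hT : WValid M T) {u : List ℕ} (hv : Valid D u)
    {lab : Fin 3 → ℕ → ℕ} (hp : ∀ R, WLab D T u R (lab R)) :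
    (∀ R i, i < u.length → 1 ≤ lab R i ∧ lab R i ≤ M) ∧
      (∀ R i j, i ≤ j → j < u.length → lab R i ≤ lab R j) ∧ Compat D u lab u lab := by
  have hu := hv.1
  have hst : ∀ R i, stL lab R i = stR (lab R) i := fun R i => rfl
  refine ⟨?_, ?_, ?_, ?_, ?_⟩
  · intro R i hi
    have h1 := (hp R).used i hi
    refine ⟨?_, hT.kdM R _ h1⟩
    by_contra hc
    have : lab R i = 0 := by omega
    rw [this] at h1
    exact h1 (hT.kd0 R)
  · intro R i j hij hj
    exact (hp R).mono hij hj
  · intro R R' hR i hi j hj he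
    have k1 := (hp R).used i hi
    have k2 := (hp R').used j hj
    rw [← he] at k2
    obtain ⟨c1, c2, c3, c4⟩ := hT.com R R' hR _ k1 k2
    have c2' := c2
    rw [he] at c2'
    have p1 := (hp R).cutpar hT hi c1
    have p2 := (hp R').cutpar hT hj c2'
    refine ⟨?_, ?_, ?_, ?_⟩
    · rw [p1, he, p2, ← plr_mod, ← plr_mod] at c3
      exact c3
    · intro k hk hkl
      exact (hp R).uniq hi hk c1 hkl
    · intro k hk hkl
      exact (hp R').uniq hj hk c2' hkl
    · rw [(hp R).lastiff hT hu hi, (hp R').lastiff hT hu hj, ← he]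
      exact c4
  · intro R R' hR i hi hex
    obtain ⟨e1, e2⟩ := oth_spec' hR i hex
    have k1 := (hp R).used i hi
    obtain ⟨t1, t2, t3⟩ := hT.tim R _ k1 (i % 2) (Nat.mod_lt _ (by norm_num))
      (fun hk => ((hp R).cutpar hT hi hk).symm)
    rw [← e1] at t1 t2 t3
    obtain ⟨j, hj, hj1, hj2⟩ := (hp R').first hu t2
    have hprev : prevL (lab R') j < lab R i := by
      unfold prevL
      split_ifs with h0
      · have h1 := (hp R).used i hi
        by_contra hc
        have : lab R i = 0 := by omega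
        rw [this] at h1
        exact h1 (hT.kd0 R)
      · exact hj2 (j - 1) (by omega)
    have hjp : j % 2 = (oth R (i % 2)).2 := by
      have := (hp R').par j hj (lab R i) hprev hj1
      rw [t1] at this
      have h2 : (oth R (i % 2)).2 < 2 := by
        have : i % 2 < 2 := Nat.mod_lt _ (by norm_num)
        generalize i % 2 = a at *
        revert R
        unfold oth
        intro R
        intros
        split_ifs <;> norm_num
      omega
    refine ⟨j, hj, (e2 j).2 hjp, hj1, hj2, ?_⟩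
    intro hh
    have h3 := t3 (((hp R).lastiff hT hu hi).1 hh)
    by_contra hc
    have h4 : lab R i < lab R' j := lt_of_le_of_ne hj1 hc
    exact (hp R').skip j hj _ hprev h4 h3
  · intro R R' hR i hi hfin hex
    obtain ⟨e1, e2⟩ := oth_spec' hR i hex
    obtain ⟨p, hpp, hr, he, hc, hs1, hs2⟩ := (hp R).guest i hi hfin
    rw [← e1] at hr
    obtain ⟨j, hj, j1, j2, j3, j4⟩ := (hp R').promise hT hu hpp hr
    refine ⟨j, hj, (e2 j).2 (by rw [j1, he]), le_trans hc j4, ?_, ?_⟩
    · rw [hst]; omega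
    · rw [hst]; omega

end MPb6P
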