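import Pool.Agent.Lib.MP_b6d339_lc.Pos.WValidC

/-!
# Erdős 592, positive side: certificates for single label templates
-/

namespace MPb6P

/-- the word with the core `w` -/
def cw (w : List ℕ) : List ℕ := [4, 4] ++ w ++ [4, 4]

/-- the word with core `w` has labels at most `M` -/
def Lab3 (M : ℕ) (w : List ℕ) : Prop :=
  Valid 3 (cw w) → ∃ lab : Fin 3 → ℕ → ℕ,
    (∀ R i, i < (cw w).length → 1 ≤ lab R i ∧ lab R i ≤ M) ∧
    (∀ R i j, i ≤ j → j < (cw w).length → lab R i ≤ lab R j) ∧ Compat 3 (cw w) lab (cw w) lab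

/-- correct step functions -/
def SFok (C : CT) (R : Fin 3) (F : SFn) : Prop :=
  ∀ e lo hi p2 p1 fl q2 l fl', F e lo hi p2 p1 fl q2 l fl' = true →
    RStep C R e lo hi ⟨p2, p1, fl⟩ ⟨q2, l, fl'⟩

theorem sfN_ok (C : CT) (R : Fin 3) : SFok C R (sfN C.prom (C.rl R).us (C.rl R).ct (C.rl R).a0
    (C.rl R).a1 R.1 (oth R 0).1.1 (oth R 0).2 (oth R 1).1.1 (oth R 1).2) := by
  intro e lo hi p2 p1 fl q2 l fl' h
  rcases e with _ | n
  · exact stepN_spec (C := C) (R := R) (e := 0) (s := ⟨p2, p1, fl⟩) (s' := ⟨q2, l, fl'⟩) h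
  · have h1 : band (Nat.beq n 0) (stepN C.prom (C.rl R).us (C.rl R).ct (C.rl R).a1 R.1
      (oth R 1).1.1 (oth R 1).2 1 lo hi p2 p1 fl q2 l fl') = true := h
    rw [band_eq, Bool.and_eq_true, beq_eq] at h1
    obtain ⟨rfl, h2⟩ := h1
    exact stepN_spec (C := C) (R := R) (e := 1) (s := ⟨p2, p1, fl⟩) (s' := ⟨q2, l, fl'⟩) h2

theorem trN_spec {C : CT} {R : Fin 3} {F : SFn} (hF : SFok C R F) {st : List RS} {tr : List TR}
    (h : trN F st tr = true) : ∀ t ∈ tr, RStep C R t.e t.lo t.hi (sOf st t.i) (sOf st t.j) := by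
  intro t ht
  have h1 := lall_spec h t ht
  obtain ⟨i, j, e, lo, hi⟩ := t
  have h2 : RS.rec (motive := fun _ => Bool) (fun p2 p1 fl => RS.rec (motive := fun _ => Bool)
      (fun q2 l fl' => F e lo hi p2 p1 fl q2 l fl') (sOf st j)) (sOf st i) = true := h1
  show RStep C R e lo hi (sOf st i) (sOf st j)
  generalize sOf st i = s at h2 ⊢
  generalize sOf st j = s' at h2 ⊢
  obtain ⟨p2, p1, fl⟩ := s
  obtain ⟨q2, l, fl'⟩ := s'
  exact hF _ _ _ _ _ _ _ _ _ h2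

theorem jsN_spec {C : CT} {R : Fin 3} {st : List RS} {tr : List TR}
    (hd : ∀ t ∈ tr, RStep C R t.e t.lo t.hi (sOf st t.i) (sOf st t.j)) {w : List ℕ} {x : ℕ}
    {js js' : List ℕ} (h : jsN tr (w.length % 2) x js js' = true)
    (hj : ∀ j ∈ js, RP C R w (sOf st j)) : ∀ j ∈ js', RP C R (w ++ [x]) (sOf st j) := by
  intro j hj'
  obtain ⟨t, ht, h2⟩ := lany_spec (lall_spec h j hj')
  have h3 := hd t ht
  obtain ⟨i, j', e', lo, hi⟩ := t
  have h4 : band (Nat.beq j' j) (band (Nat.beq e' (w.length % 2)) (band (Nat.ble lo x)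
    (band (Nat.ble x hi) (lany (fun k => Nat.beq i k) js)))) = true := h2
  simp only [band_eq, Bool.and_eq_true, beq_eq, ble_eq'] at h4
  obtain ⟨c1, c2, c3, c4, c5⟩ := h4
  obtain ⟨k, hk, c6⟩ := lany_spec c5
  have c7 := beq_eq.1 c6
  subst c1 c2 c7
  exact RP.snoc (hj i hk) c3 c4 h3

theorem iniN_spec {C : CT} {R : Fin 3} {F : SFn} (hF : SFok C R F) {rn : ℕ} {prom : List WProm}
    {st : List RS} {js : List ℕ} (h : iniN F rn prom st js = true) :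
    ∀ j ∈ js, RP C R [4, 4] (sOf st j) := by
  intro j hj
  have h1 := lall_spec h j hj
  simp only [frc_eq] at h1
  generalize sOf st j = s at h1 ⊢
  obtain ⟨p2, p1, fl⟩ := s
  have h2 : band (F 0 4 4 0 0 0 0 p2 (nflN rn prom 0 0 p2 0))
      (F 1 4 4 0 p2 (nflN rn prom 0 0 p2 0) p2 p1 fl) = true := h1
  rw [band_eq, Bool.and_eq_true] at h2
  have r1 : RP C R ([] ++ [4]) ⟨0, p2, nflN rn prom 0 0 p2 0⟩ :=
    RP.snoc RP.nil (le_refl 4) (le_refl 4) (hF _ _ _ _ _ _ _ _ _ h2.1)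
  exact RP.snoc (w := [] ++ [4]) r1 (le_refl 4) (le_refl 4) (hF _ _ _ _ _ _ _ _ _ h2.2)

theorem accN_spec {rn : ℕ} {prom : List WProm} {fl : ℕ} (h : accN rn prom fl = true) :
    ∀ p ∈ prom, p.fl ≠ 0 → p.r = rn → fl.testBit (p.fl - 1) = true := by
  intro p hp
  have h1 := lall_spec h p hp
  obtain ⟨hr, he, sm, lm, c, f⟩ := p
  rcases f with _ | g
  · intro h2; exact absurd rfl h2
  · rintro - (h3 : hr = rn)
    have h4 : bor (bnot (Nat.beq hr rn)) (tb fl g) = true := h1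
    rw [beq_eq.2 h3, tb_eq] at h4
    exact h4

theorem finN_spec {C : CT} {R : Fin 3} {F : SFn} (hF : SFok C R F) {st : List RS}
    {w : List ℕ} {js : List ℕ}
    (h : finN F R.1 C.prom (C.rl R).l1 (C.rl R).l2 st (w.length % 2) js = true)
    (hj : ∀ j ∈ js, RP C R w (sOf st j)) :
    ∃ s, RP C R (w ++ [4, 4]) s ∧ RAcc C R s := by
  obtain ⟨j, hjs, h1⟩ := lany_spec h
  simp only [frc_eq] at h1
  have hs := hj j hjs
  generalize sOf st j = s at h1 hs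
  obtain ⟨p2, p1, fl⟩ := s
  set g : ℕ := nflN R.1 C.prom (w.length % 2) p2 (C.rl R).l2 fl with hg
  set g' : ℕ := nflN R.1 C.prom (Nat.sub 1 (w.length % 2)) p1 (C.rl R).l1 g with hg'
  have h2 : band (accN R.1 C.prom g') (band (F (w.length % 2) 4 4 p2 p1 fl p1 (C.rl R).l2 g)
        (F (Nat.sub 1 (w.length % 2)) 4 4 p1 (C.rl R).l2 g (C.rl R).l2 (C.rl R).l1 g')) = true := h1
  rw [band_eq, band_eq, Bool.and_eq_true, Bool.and_eq_true] at h2
  obtain ⟨c3, c1, c2⟩ := h2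
  have r1 := RP.snoc hs (le_refl 4) (le_refl 4) (hF _ _ _ _ _ _ _ _ _ c1)
  have e : (w ++ [4]).length % 2 = Nat.sub 1 (w.length % 2) := by
    rw [List.length_append]
    simp only [List.length_cons, List.length_nil, zero_add]
    show (w.length + 1) % 2 = 1 - w.length % 2
    omega
  have r2 := RP.snoc (w := w ++ [4]) r1 (le_refl 4) (le_refl 4)
    (by rw [e]; exact hF _ _ _ _ _ _ _ _ _ c2)
  refine ⟨⟨(C.rl R).l2, (C.rl R).l1, g'⟩, ?_, ⟨rfl, rfl, accN_spec c3⟩⟩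
  have e2 : w ++ [4, 4] = (w ++ [4]) ++ [4] := by simp
  rw [e2]
  exact r2

/-- successor -/
def DF.nx (d : DF) (q x : ℕ) : ℕ := nxN d.dl q (6 * (x - 1))

/-- run -/
def DF.run (d : DF) (w : List ℕ) : ℕ := w.foldl d.nx 0

/-- the automaton accepts only words with labels -/
def DF.ok (M : ℕ) (d : DF) : Prop :=
  ∀ w : List ℕ, (∀ x ∈ w, 1 ≤ x ∧ x ≤ 3) → d.ac.testBit (d.run w) = true → Lab3 M w

/-- invariant of the refined automaton -/
structure RInv (T : TC) (w : List ℕ) (r : RQ) : Prop where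
  mem : r ∈ T.rs
  par : r.e = w.length % 2
  A : ∀ j ∈ r.jA, RP T.ct 0 ([4, 4] ++ w) (sOf T.dA.st j)
  B : ∀ j ∈ r.jB, RP T.ct 1 ([4, 4] ++ w) (sOf T.dB.st j)
  C : ∀ j ∈ r.jC, RP T.ct 2 ([4, 4] ++ w) (sOf T.dC.st j)
  cl : r.cl = T.df.run w

theorem qOf_mem {rs : List RQ} {i : ℕ} (h : (qOf rs i).e < 2) : qOf rs i ∈ rs := by
  unfold qOf at h ⊢
  rcases lget_mem (⟨2, [], [], [], 0, 0, 0, 0⟩ : RQ) rs i with h1 | h1
  · exact h1
  · exfalso; rw [h1] at h; simp at h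

theorem RInv.step {T : TC} {w : List ℕ} {r : RQ} (h : RInv T w r) {i x y : ℕ}
    (hA : ∀ t ∈ T.dA.tr, RStep T.ct 0 t.e t.lo t.hi (sOf T.dA.st t.i) (sOf T.dA.st t.j))
    (hB : ∀ t ∈ T.dB.tr, RStep T.ct 1 t.e t.lo t.hi (sOf T.dB.st t.i) (sOf T.dB.st t.j))
    (hC : ∀ t ∈ T.dC.tr, RStep T.ct 2 t.e t.lo t.hi (sOf T.dC.st t.i) (sOf T.dC.st t.j))
    (hy : y = 6 * (x - 1))
    (hq : rqN T.dA.tr T.dB.tr T.dC.tr T.df.dl r.e r.cl y x r.jA r.jB r.jC (qOf T.rs i) = true) :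
    RInv T (w ++ [x]) (qOf T.rs i) := by
  have hmem := qOf_mem (rs := T.rs) (i := i)
  have hl : r.e = ([4, 4] ++ w).length % 2 := by
    rw [h.par, List.length_append]
    simp only [List.length_cons, List.length_nil, zero_add]
    omega
  have hw : [4, 4] ++ (w ++ [x]) = ([4, 4] ++ w) ++ [x] := by simp
  generalize qOf T.rs i = r' at hq hmem ⊢
  obtain ⟨e', jA', jB', jC', n1, n2, n3, cl'⟩ := r'
  have h1 : band (Nat.beq (Nat.add r.e e') 1) (band (Nat.beq (nxN T.df.dl r.cl y) cl')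
      (band (jsN T.dA.tr r.e x r.jA jA') (band (jsN T.dB.tr r.e x r.jB jB')
        (jsN T.dC.tr r.e x r.jC jC')))) = true := hq
  simp only [band_eq, Bool.and_eq_true] at h1
  obtain ⟨c1, c2, c3, c4, c5⟩ := h1
  have c1' : r.e + e' = 1 := beq_eq.1 c1
  rw [hl] at c3 c4 c5
  refine ⟨hmem (show e' < 2 by omega), ?_, ?_, ?_, ?_, ?_⟩
  · have := h.par
    rw [List.length_append]
    simp only [List.length_cons, List.length_nil, zero_add]
    omega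
  · rw [hw]; exact jsN_spec hA c3 h.A
  · rw [hw]; exact jsN_spec hB c4 h.B
  · rw [hw]; exact jsN_spec hC c5 h.C
  · have c2' := beq_eq.1 c2
    unfold DF.run
    rw [List.foldl_append]
    simp only [List.foldl_cons, List.foldl_nil]
    show cl' = _
    rw [← c2', h.cl, hy]
    rfl

/-- **soundness of template certificates** -/
theorem tcOK_spec {M : ℕ} {T : TC} (h : tcOK M T = true) : T.df.ok M := by
  have h' : band (validB M T.ct) (tcN
      (sfN T.ct.prom (T.ct.rl 0).us (T.ct.rl 0).ct (T.ct.rl 0).a0 (T.ct.rl 0).a1 0 1 0 2 0)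
      (sfN T.ct.prom (T.ct.rl 1).us (T.ct.rl 1).ct (T.ct.rl 1).a0 (T.ct.rl 1).a1 1 0 0 2 1)
      (sfN T.ct.prom (T.ct.rl 2).us (T.ct.rl 2).ct (T.ct.rl 2).a0 (T.ct.rl 2).a1 2 0 1 1 1)
      T.ct.prom (T.ct.rl 0).l1 (T.ct.rl 0).l2 (T.ct.rl 1).l1 (T.ct.rl 1).l2 (T.ct.rl 2).l1
      (T.ct.rl 2).l2 T.dA.st T.dB.st T.dC.st T.dA.tr T.dB.tr T.dC.tr T.rs T.df.dl T.df.ac)
      = true := by
    obtain ⟨⟨⟨uA, cA, aA, bA, lA, kA⟩, ⟨uB, cB, aB, bB, lB, kB⟩, ⟨uC, cC, aC, bC, lC, kC⟩, prom⟩,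
      ⟨sA, tA⟩, ⟨sB, tB⟩, ⟨sC, tC⟩, rs, ⟨dl, ac⟩⟩ := T
    exact h
  rw [band_eq, Bool.and_eq_true] at h'
  obtain ⟨hv, h1⟩ := h'
  unfold tcN at h1
  rw [band_eq, band_eq, band_eq, band_eq, Bool.and_eq_true, Bool.and_eq_true, Bool.and_eq_true,
    Bool.and_eq_true] at h1
  obtain ⟨hA, hB, hC, h0, hr⟩ := h1
  have FA : SFok T.ct 0 (sfN T.ct.prom (T.ct.rl 0).us (T.ct.rl 0).ct (T.ct.rl 0).a0
    (T.ct.rl 0).a1 0 1 0 2 0) := sfN_ok T.ct 0
  have FB : SFok T.ct 1 (sfN T.ct.prom (T.ct.rl 1).us (T.ct.rl 1).ct (T.ct.rl 1).a0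
    (T.ct.rl 1).a1 1 0 0 2 1) := sfN_ok T.ct 1
  have FC : SFok T.ct 2 (sfN T.ct.prom (T.ct.rl 2).us (T.ct.rl 2).ct (T.ct.rl 2).a0
    (T.ct.rl 2).a1 2 0 1 1 1) := sfN_ok T.ct 2
  have hA' := trN_spec FA hA
  have hB' := trN_spec FB hB
  have hC' := trN_spec FC hC
  have hinv0 : RInv T [] (qOf T.rs 0) := by
    have hmem := qOf_mem (rs := T.rs) (i := 0)
    generalize qOf T.rs 0 = r at h0 hmem ⊢
    obtain ⟨e, jA, jB, jC, n1, n2, n3, cl⟩ := r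
    have h2 : band (Nat.beq e 0) (band (Nat.beq cl 0) (band (iniN _ 0 T.ct.prom T.dA.st jA)
      (band (iniN _ 1 T.ct.prom T.dB.st jB) (iniN _ 2 T.ct.prom T.dC.st jC)))) = true := h0
    simp only [band_eq, Bool.and_eq_true, beq_eq] at h2
    obtain ⟨rfl, rfl, i3, i4, i5⟩ := h2
    exact ⟨hmem (by norm_num), rfl, iniN_spec FA i3, iniN_spec FB i4, iniN_spec FC i5, rfl⟩
  have hrr : ∀ r ∈ T.rs, rqN T.dA.tr T.dB.tr T.dC.tr T.df.dl r.e r.cl 0 1 r.jA r.jB r.jC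
      (qOf T.rs r.n1) = true ∧ rqN T.dA.tr T.dB.tr T.dC.tr T.df.dl r.e r.cl 6 2 r.jA r.jB r.jC
      (qOf T.rs r.n2) = true ∧ rqN T.dA.tr T.dB.tr T.dC.tr T.df.dl r.e r.cl 12 3 r.jA r.jB r.jC
      (qOf T.rs r.n3) = true ∧ (T.df.ac.testBit r.cl = true →
        finN (sfN T.ct.prom (T.ct.rl 0).us (T.ct.rl 0).ct (T.ct.rl 0).a0 (T.ct.rl 0).a1 0 1 0 2 0)
          0 T.ct.prom (T.ct.rl 0).l1 (T.ct.rl 0).l2 T.dA.st r.e r.jA = true ∧
        finN (sfN T.ct.prom (T.ct.rl 1).us (T.ct.rl 1).ct (T.ct.rl 1).a0 (T.ct.rl 1).a1 1 0 0 2 1)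
          1 T.ct.prom (T.ct.rl 1).l1 (T.ct.rl 1).l2 T.dB.st r.e r.jB = true ∧
        finN (sfN T.ct.prom (T.ct.rl 2).us (T.ct.rl 2).ct (T.ct.rl 2).a0 (T.ct.rl 2).a1 2 0 1 1 1)
          2 T.ct.prom (T.ct.rl 2).l1 (T.ct.rl 2).l2 T.dC.st r.e r.jC = true) := by
    intro r hr1
    have h2 := lall_spec hr r hr1
    obtain ⟨e, jA, jB, jC, n1, n2, n3, cl⟩ := r
    unfold rrN at h2
    simp only [band_eq, bor_eq, bnot_eq, Bool.and_eq_true, Bool.or_eq_true,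
      Bool.not_eq_true'] at h2
    obtain ⟨c1, c2, c3, c4⟩ := h2
    refine ⟨c1, c2, c3, ?_⟩
    intro hac
    rcases c4 with c4 | c4
    · rw [tb_eq] at c4
      have hac' : T.df.ac.testBit cl = true := hac
      rw [hac'] at c4
      exact absurd c4 (by decide)
    · exact c4
  have hinv : ∀ w : List ℕ, (∀ x ∈ w, 1 ≤ x ∧ x ≤ 3) → ∃ r, RInv T w r := by
    intro w
    induction w using List.reverseRecOn with
    | nil => exact fun _ => ⟨_, hinv0⟩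
    | append_singleton w x ih =>
      intro hx
      obtain ⟨r, hinv⟩ := ih (fun y hy => hx y (by simp [hy]))
      obtain ⟨g1, g2, g3, -⟩ := hrr r hinv.mem
      have hx1 := hx x (by simp)
      have : x = 1 ∨ x = 2 ∨ x = 3 := by omega
      rcases this with rfl | rfl | rfl
      · exact ⟨_, hinv.step hA' hB' hC' rfl g1⟩
      · exact ⟨_, hinv.step hA' hB' hC' rfl g2⟩
      · exact ⟨_, hinv.step hA' hB' hC' rfl g3⟩
  intro w hw hacc hval
  obtain ⟨r, hinv⟩ := hinv w hw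
  obtain ⟨-, -, -, h2⟩ := hrr r hinv.mem
  have hcl : T.df.ac.testBit r.cl = true := by rw [hinv.cl]; exact hacc
  obtain ⟨f0, f1, f2⟩ := h2 hcl
  have hl : r.e = ([4, 4] ++ w).length % 2 := by
    rw [hinv.par, List.length_append]
    simp only [List.length_cons, List.length_nil, zero_add]
    omega
  rw [hl] at f0 f1 f2
  obtain ⟨s0, a0, b0⟩ := finN_spec FA f0 hinv.A
  obtain ⟨s1, a1, b1⟩ := finN_spec FB f1 hinv.B
  obtain ⟨s2, a2, b2⟩ := finN_spec FC f2 hinv.C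
  have hu : 2 ≤ (cw w).length := hval.1
  have hlab : ∀ R, ∃ lab : ℕ → ℕ, WLab 3 T.ct.toW (cw w) R lab := by
    intro R
    fin_cases R
    · exact wlab_of_RP hu a0 b0
    · exact wlab_of_RP hu a1 b1
    · exact wlab_of_RP hu a2 b2
  choose lab hlab using hlab
  exact ⟨lab, self_of_wlab (validB_spec hv) hval hlab⟩

end MPb6P
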