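import Pool.Agent.Lib.MP_b6d339_lc.Pos.WRoleC

/-!
# Erdős 592, positive side: Boolean tests for steps and for the validity of label templates
-/

namespace MPb6P

/-! ## steps -/

theorem hostB_spec {r e p2 l hi : ℕ} {h : WProm} (hh : hostB r e p2 l hi h = true) :
    HostP r e p2 l hi h := by
  cases h with
  | mk hr he sm lm c f =>
    have h1 : band (Nat.beq hr r) (band (Nat.beq he e) (band (Nat.ble hi c)
      (band (Nat.ble (Nat.succ sm) l) (Nat.ble (Nat.succ p2) lm)))) = true := hh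
    simp only [band_eq, Bool.and_eq_true, beq_eq, ble_eq', bles_eq] at h1
    exact ⟨h1.1, h1.2.1, h1.2.2.1, h1.2.2.2.1, h1.2.2.2.2⟩

theorem pfB_spec {r e p2 l lo fl fl' : ℕ} {h : WProm} (hh : pfB r e p2 l lo fl fl' h = true) :
    PFP r e p2 l lo fl fl' h := by
  cases h with
  | mk hr he sm lm c f =>
    cases f with
    | zero =>
      have h1 : bor (bnot (Nat.beq hr r)) (bor (bnot (Nat.beq he e)) (bor (bnot (Nat.ble p2 sm))
        (bor (bnot (Nat.ble lm l)) (Nat.ble c lo)))) = true := hh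
      simp only [bor_eq, bnot_eq, Bool.or_eq_true, Bool.not_eq_true'] at h1
      refine ⟨?_, fun h0 => absurd rfl h0⟩
      rintro - (h2 : hr = r) (h3 : he = e) (h4 : p2 ≤ sm) (h5 : lm ≤ l)
      rcases h1 with h1 | h1 | h1 | h1 | h1
      · exact absurd h2 (beq_ff.1 h1)
      · exact absurd h3 (beq_ff.1 h1)
      · rw [ble_eq'.2 h4] at h1; exact absurd h1 (by decide)
      · rw [ble_eq'.2 h5] at h1; exact absurd h1 (by decide)
      · exact ble_eq'.1 h1
    | succ g =>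
      have h1 : bor (bnot (Nat.beq hr r)) (bor (bnot (tb fl' g)) (bor (tb fl g)
        (band (Nat.beq he e) (band (Nat.ble p2 sm) (band (Nat.ble lm l) (Nat.ble c lo))))))
        = true := hh
      simp only [bor_eq, bnot_eq, band_eq, Bool.or_eq_true, Bool.not_eq_true',
        Bool.and_eq_true, tb_eq] at h1
      refine ⟨fun h0 => absurd h0 (by simp), ?_⟩
      rintro - (h2 : hr = r) (h3 : fl'.testBit g = true)
      rcases h1 with h1 | h1 | h1 | ⟨h1, h4, h5, h6⟩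
      · exact absurd h2 (beq_ff.1 h1)
      · rw [h3] at h1; exact absurd h1 (by decide)
      · exact Or.inl h1
      · exact Or.inr ⟨beq_eq.1 h1, ble_eq'.1 h4, ble_eq'.1 h5, ble_eq'.1 h6⟩

/-- test for steps with parity `0`; `(r0, e0)` and `(r1, e1)` are the values of `oth` -/
noncomputable def step2 (prom : List WProm) (c : CRole) (rn r0 e0 r1 e1 e lo hi : ℕ) (s s' : RS) :
    Bool :=
  CRole.rec (motive := fun _ => Bool) (fun us ct a0 a1 _ _ =>
    RS.rec (motive := fun _ => Bool) (fun p2 p1 fl => RS.rec (motive := fun _ => Bool)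
      (fun q2 l fl' => Nat.rec (motive := fun _ => Bool)
        (stepN prom us ct a0 rn r0 e0 0 lo hi p2 p1 fl q2 l fl')
        (fun _ _ => stepN prom us ct a1 rn r1 e1 e lo hi p2 p1 fl q2 l fl') e) s') s) c

/-- test for steps in role `R` -/
noncomputable def stepR (C : CT) (R : Fin 3) (e lo hi : ℕ) (s s' : RS) : Bool :=
  CT.rec (motive := fun _ => Bool) (fun rA rB rC prom =>
    Nat.rec (motive := fun _ => Bool) (step2 prom rA 0 1 0 2 0 e lo hi s s')
      (fun n _ => Nat.rec (motive := fun _ => Bool) (step2 prom rB 1 0 0 2 1 e lo hi s s')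
        (fun _ _ => step2 prom rC 2 0 1 1 1 e lo hi s s') n) R.1) C

theorem stepN_spec {C : CT} {R : Fin 3} {e lo hi : ℕ} {s s' : RS}
    (h : stepN C.prom (C.rl R).us (C.rl R).ct ((C.rl R).al e) R.1 (oth R e).1.1 (oth R e).2 e lo hi
      s.p2 s.p1 s.fl s'.p2 s'.p1 s'.fl = true) : RStep C R e lo hi s s' := by
  unfold stepN at h
  simp only [band_eq, bor_eq, bnot_eq, Bool.and_eq_true, Bool.or_eq_true, Bool.not_eq_true',
    tb_eq] at h
  obtain ⟨h1, h2, h3, h4, h5, h6, h7, h8⟩ := h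
  refine ⟨beq_eq.1 h1, ble_eq'.1 h2, h3, ?_, h5, h6, ?_, ?_⟩
  · rcases h4 with h4 | h4
    · exact Or.inl (beq_ff.1 h4)
    · exact Or.inr h4
  · rcases h7 with h7 | h7
    · exact Or.inl (ble_eq'.1 h7)
    · obtain ⟨p, hp, hb⟩ := lany_spec h7
      exact Or.inr ⟨p, hp, hostB_spec hb⟩
  · intro p hp
    exact pfB_spec (lall_spec h8 p hp)

theorem stepR_spec {C : CT} {R : Fin 3} {e lo hi : ℕ} {s s' : RS} (he : e < 2)
    (h : stepR C R e lo hi s s' = true) : RStep C R e lo hi s s' := by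
  apply stepN_spec
  obtain ⟨rA, rB, rC, prom⟩ := C
  obtain ⟨uA, cA, aA0, aA1, lA1, lA2⟩ := rA
  obtain ⟨uB, cB, aB0, aB1, lB1, lB2⟩ := rB
  obtain ⟨uC, cC, aC0, aC1, lC1, lC2⟩ := rC
  obtain ⟨p2, p1, fl⟩ := s
  obtain ⟨q2, q1, gl⟩ := s'
  have h2 : e = 0 ∨ e = 1 := by omega
  fin_cases R <;> rcases h2 with rfl | rfl <;> exact h

/-! ## validity -/

theorem kd_ne {c : CRole} {l : ℕ} (h : c.kd l ≠ 0) : c.us.testBit l = true := by
  unfold CRole.kd at h
  by_contra hc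
  rw [if_neg hc] at h
  exact h rfl

theorem kd_one {c : CRole} {l : ℕ} : c.kd l = 1 ↔ c.us.testBit l = true ∧ c.ct.testBit l = true := by
  unfold CRole.kd
  split_ifs with h1 h2 <;> simp_all

theorem pi_def (c : CRole) (l : ℕ) :
    (Bool.rec (motive := fun _ => ℕ) 1 (Bool.rec (motive := fun _ => ℕ) 0 2 (tb c.a1 l))
    (tb c.a0 l)) = c.pi l := by
  rw [tb_eq, tb_eq]
  unfold CRole.pi
  cases c.a0.testBit l <;> cases c.a1.testBit l <;> rfl

theorem piB_eq (c : CRole) (l e : ℕ) : piB c.a0 c.a1 l e = true ↔ c.pi l = e := by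
  unfold piB
  rw [pi_def, beq_eq]

theorem plr_pi (R : Fin 3) (c : CRole) (l a b x y : ℕ) (hx : 2 < x) (ha : a < 3) (hb : b < 3)
    (h0 : (plr R 0).1 = a) (h1 : (plr R 1).1 = b)
    (h : (Bool.rec (motive := fun _ => ℕ) b (Bool.rec (motive := fun _ => ℕ) a x (tb c.a1 l))
      (tb c.a0 l)) = y) (hy : y < 3) : (plr R (c.pi l)).1 = y := by
  rw [tb_eq, tb_eq] at h
  unfold CRole.pi
  rcases hA : c.a0.testBit l with _ | _ <;> rcases hB : c.a1.testBit l with _ | _ <;>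
    rw [hA, hB] at h
  · exact h1.trans h
  · exact h1.trans h
  · exact h0.trans h
  · exfalso
    have : x = y := h
    omega

theorem comN_spec {C : CT} {R R' : Fin 3} {l : ℕ}
    (h : comN (C.rl R).us (C.rl R).ct (C.rl R).a0 (C.rl R).a1 (C.rl R).l1 (C.rl R).l2
      (C.rl R').us (C.rl R').ct (C.rl R').a0 (C.rl R').a1 (C.rl R').l1 (C.rl R').l2
      (plr R 0).1 (plr R 1).1 (plr R' 0).1 (plr R' 1).1 l = true)
    (h1 : (C.rl R).kd l ≠ 0) (h2 : (C.rl R').kd l ≠ 0) :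
    (C.rl R).kd l = 1 ∧ (C.rl R').kd l = 1 ∧
      plr R ((C.rl R).pi l) = plr R' ((C.rl R').pi l) ∧
      ((l = (C.rl R).l1 ∨ l = (C.rl R).l2) ↔ (l = (C.rl R').l1 ∨ l = (C.rl R').l2)) := by
  have u1 := kd_ne h1
  have u2 := kd_ne h2
  unfold comN at h
  simp only [band_eq, bor_eq, bnot_eq, Bool.and_eq_true, Bool.or_eq_true, Bool.not_eq_true'] at h
  rw [tb_eq, tb_eq, u1, u2] at h
  simp only [Bool.and_true] at h
  rcases h with h | ⟨c1, c2, c3, c4⟩
  · exact absurd h (by decide)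
  rw [tb_eq] at c1 c2
  have hlt : ∀ (R : Fin 3) (i : ℕ), (plr R i).1 < 3 := fun R i => (plr R i).2
  have c3' := beq_eq.1 c3
  refine ⟨kd_one.2 ⟨u1, c1⟩, kd_one.2 ⟨u2, c2⟩, Fin.ext ?_, ?_⟩
  · -- both sides are players
    have key : ∀ (c : CRole) (a b x : ℕ), a < 3 → b < 3 → 2 < x →
        (Bool.rec (motive := fun _ => ℕ) b (Bool.rec (motive := fun _ => ℕ) a x (tb c.a1 l))
          (tb c.a0 l)) < 3 ∨
        (Bool.rec (motive := fun _ => ℕ) b (Bool.rec (motive := fun _ => ℕ) a x (tb c.a1 l))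
          (tb c.a0 l)) = x := by
      intro c a b x ha hb hx
      cases tb c.a0 l <;> cases tb c.a1 l
      · exact Or.inl hb
      · exact Or.inl hb
      · exact Or.inl ha
      · exact Or.inr rfl
    rcases key (C.rl R) _ _ 3 (hlt R 0) (hlt R 1) (by norm_num) with k1 | k1
    · rw [plr_pi R (C.rl R) l _ _ 3 _ (by norm_num) (hlt R 0) (hlt R 1) rfl rfl rfl k1]
      rw [c3'] at k1 ⊢
      rw [plr_pi R' (C.rl R') l _ _ 4 _ (by norm_num) (hlt R' 0) (hlt R' 1) rfl rfl rfl k1]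
    · exfalso
      rcases key (C.rl R') _ _ 4 (hlt R' 0) (hlt R' 1) (by norm_num) with k2 | k2
      · rw [← c3', k1] at k2; omega
      · rw [c3', k2] at k1; omega
  · have e1 : (bor (Nat.beq l (C.rl R).l1) (Nat.beq l (C.rl R).l2)) = true ↔
        (l = (C.rl R).l1 ∨ l = (C.rl R).l2) := by
      rw [bor_eq, Bool.or_eq_true, beq_eq, beq_eq]
    have e2 : (bor (Nat.beq l (C.rl R').l1) (Nat.beq l (C.rl R').l2)) = true ↔
        (l = (C.rl R').l1 ∨ l = (C.rl R').l2) := by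
      rw [bor_eq, Bool.or_eq_true, beq_eq, beq_eq]
    rw [← e1, ← e2]
    simp only [← bor_eq] at c4
    rcases hx : bor (Nat.beq l (C.rl R).l1) (Nat.beq l (C.rl R).l2) with _ | _
    · rw [hx] at c4
      have c5 : (!(bor (Nat.beq l (C.rl R').l1) (Nat.beq l (C.rl R').l2))) = true := by
        simpa using c4
      rw [Bool.not_eq_true'] at c5
      rw [c5]
    · rw [hx] at c4
      have c5 : bor (Nat.beq l (C.rl R').l1) (Nat.beq l (C.rl R').l2) = true := by
        simpa using c4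
      rw [c5]

theorem timN_spec {C : CT} {R : Fin 3} {e l : ℕ}
    (h : timN (C.rl R).us (C.rl R).ct (C.rl R).a0 (C.rl R).a1 (C.rl R).l1 (C.rl R).l2
      (C.rl (oth R e).1).us (C.rl (oth R e).1).ct (C.rl (oth R e).1).a0 (C.rl (oth R e).1).a1
      (C.rl (oth R e).1).l1 (oth R e).2 e l = true)
    (h1 : (C.rl R).kd l ≠ 0) (h2 : (C.rl R).kd l = 1 → e = (C.rl R).pi l) :
    (C.rl (oth R e).1).pi l = (oth R e).2 ∧ l ≤ (C.rl (oth R e).1).l1 ∧
      ((l = (C.rl R).l1 ∨ l = (C.rl R).l2) → (C.rl (oth R e).1).kd l = 1) := by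
  have u1 := kd_ne h1
  unfold timN at h
  simp only [band_eq, bor_eq, bnot_eq] at h
  rw [tb_eq _ l, u1] at h
  simp only [Bool.not_true, Bool.false_or, Bool.or_eq_true, Bool.and_eq_true,
    Bool.not_eq_true'] at h
  rcases h with ⟨c1, c2⟩ | ⟨c1, c2, c3⟩
  · exfalso
    rw [tb_eq] at c1
    have h3 := (piB_eq (C.rl R) l e).2 (h2 (kd_one.2 ⟨u1, c1⟩)).symm
    rw [h3] at c2
    exact absurd c2 (by decide)
  · refine ⟨(piB_eq _ l _).1 c1, ble_eq'.1 c2, ?_⟩
    intro hl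
    rcases c3 with c3 | c3
    · exfalso
      rw [Bool.or_eq_false_iff, beq_ff, beq_ff] at c3
      rcases hl with hl | hl
      · exact c3.1 hl
      · exact c3.2 hl
    · rw [tb_eq, tb_eq] at c3
      exact kd_one.2 c3

/-- the tests of one role -/
structure RoleP (M : ℕ) (c : CRole) (rn : ℕ) (prom : List WProm) : Prop where
  zero : c.us.testBit 0 = false
  bd : c.us < 2 ^ (M + 1)
  cut : ∀ l, c.us.testBit l = true → c.ct.testBit l = true →
    (c.a0.testBit l && c.a1.testBit l) = false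
  lt : c.l2 < c.l1
  k1 : c.kd c.l1 = 1
  k2 : c.kd c.l2 = 1
  prk : ∀ h ∈ prom, h.fl = 0 → h.r = rn → h.sm + 2 = h.lm ∧ c.us.testBit (h.sm + 1) = false ∧
    h.e < 2 ∧ h.sm + 1 < if c.pi c.l1 = h.e then c.l1 else c.l2

theorem lstB_spec {c : CRole} (h : lstB c = true) : c.l2 < c.l1 ∧ c.kd c.l1 = 1 ∧
    c.kd c.l2 = 1 := by
  obtain ⟨us, ct, a0, a1, l1, l2⟩ := c
  have h1 : band (Nat.ble (Nat.succ l2) l1) (band (band (tb us l1) (tb ct l1))
      (band (tb us l2) (tb ct l2))) = true := h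
  simp only [band_eq, Bool.and_eq_true, bles_eq, tb_eq] at h1
  exact ⟨h1.1, kd_one.2 h1.2.1, kd_one.2 h1.2.2⟩

theorem prkB_spec {c : CRole} {rn : ℕ} {h : WProm} (hh : prkB c rn h = true) :
    h.fl = 0 → h.r = rn → h.sm + 2 = h.lm ∧ c.us.testBit (h.sm + 1) = false ∧
    h.e < 2 ∧ h.sm + 1 < if c.pi c.l1 = h.e then c.l1 else c.l2 := by
  obtain ⟨us, ct, a0, a1, l1, l2⟩ := c
  obtain ⟨hr, he, sm, lm, hc, f⟩ := h
  have h1 : bor (bor (bnot (Nat.beq f 0)) (bnot (Nat.beq hr rn)))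
    (band (Nat.beq (Nat.succ (Nat.succ sm)) lm) (band (bnot (tb us (Nat.succ sm)))
      (band (Nat.ble (Nat.succ he) 2)
      (Nat.ble (Nat.succ (Nat.succ sm)) (Bool.rec (motive := fun _ => ℕ) l2 l1
        (piB a0 a1 l1 he)))))) = true := hh
  rintro (h2 : f = 0) (h3 : hr = rn)
  simp only [band_eq, bor_eq, bnot_eq] at h1
  rw [beq_eq.2 h2, beq_eq.2 h3] at h1
  simp only [Bool.not_true, Bool.false_or, Bool.and_eq_true, Bool.not_eq_true', tb_eq] at h1
  obtain ⟨c1, c2, c3, c4⟩ := h1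
  refine ⟨beq_eq.1 c1, c2, bles_eq.1 c3, ?_⟩
  have c4' : sm + 1 < (Bool.rec (motive := fun _ => ℕ) l2 l1 (piB a0 a1 l1 he)) := bles_eq.1 c4
  show sm + 1 < if (CRole.mk us ct a0 a1 l1 l2).pi l1 = he then l1 else l2
  by_cases hpi : (CRole.mk us ct a0 a1 l1 l2).pi l1 = he
  · rw [if_pos hpi]
    have h5 : piB a0 a1 l1 he = true := (piB_eq (CRole.mk us ct a0 a1 l1 l2) l1 he).2 hpi
    rw [h5] at c4'
    exact c4'
  · rw [if_neg hpi]
    have h5 : piB a0 a1 l1 he = false := by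
      rw [← Bool.not_eq_true]
      intro h6
      exact hpi ((piB_eq (CRole.mk us ct a0 a1 l1 l2) l1 he).1 h6)
    rw [h5] at c4'
    exact c4'

theorem roleB_spec {M : ℕ} {c : CRole} {rn : ℕ} {prom : List WProm}
    (h : roleB M c rn prom = true) : RoleP M c rn prom := by
  obtain ⟨us, ct, a0, a1, l1, l2⟩ := c
  have h1 : band (bnot (tb us 0)) (band (Nat.ble (Nat.succ us) (Nat.pow 2 (Nat.succ M)))
    (band (Nat.beq (Nat.land (Nat.land us ct) (Nat.land a0 a1)) 0)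
    (band (lstB ⟨us, ct, a0, a1, l1, l2⟩) (lall (prkB ⟨us, ct, a0, a1, l1, l2⟩ rn) prom))))
    = true := h
  simp only [band_eq, bnot_eq, Bool.and_eq_true, Bool.not_eq_true', tb_eq] at h1
  obtain ⟨c1, c2, c3, c4, c5⟩ := h1
  obtain ⟨d1, d2, d3⟩ := lstB_spec c4
  refine ⟨c1, bles_eq.1 c2, ?_, d1, d2, d3, ?_⟩
  · intro l u1 u2
    have h2 := beq_eq.1 c3
    have h3 : ((us &&& ct) &&& (a0 &&& a1)).testBit l = false := by
      have : (us &&& ct) &&& (a0 &&& a1) = 0 := h2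
      rw [this, Nat.zero_testBit]
    rw [Nat.testBit_land, Nat.testBit_land, Nat.testBit_land, u1, u2] at h3
    simpa using h3
  · intro p hp
    exact prkB_spec (lall_spec c5 p hp)

/-- the tests of one label -/
theorem com_tim {C : CT} {l : ℕ}
    (h : band (comB C.rA C.rB 0 1 0 2 l) (band (comB C.rA C.rC 0 1 1 2 l)
      (band (comB C.rB C.rC 0 2 1 2 l) (band (timB C.rA C.rB 0 0 l) (band (timB C.rA C.rC 0 1 l)
      (band (timB C.rB C.rA 0 0 l) (band (timB C.rB C.rC 1 1 l) (band (timB C.rC C.rA 1 0 l)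
        (timB C.rC C.rB 1 1 l)))))))) = true) :
    (∀ R R', R ≠ R' → (C.rl R).kd l ≠ 0 → (C.rl R').kd l ≠ 0 →
      (C.rl R).kd l = 1 ∧ (C.rl R').kd l = 1 ∧
      plr R ((C.rl R).pi l) = plr R' ((C.rl R').pi l) ∧
      ((l = (C.rl R).l1 ∨ l = (C.rl R).l2) ↔ (l = (C.rl R').l1 ∨ l = (C.rl R').l2))) ∧
    (∀ R e, e < 2 → (C.rl R).kd l ≠ 0 → ((C.rl R).kd l = 1 → e = (C.rl R).pi l) →
      (C.rl (oth R e).1).pi l = (oth R e).2 ∧ l ≤ (C.rl (oth R e).1).l1 ∧
      ((l = (C.rl R).l1 ∨ l = (C.rl R).l2) → (C.rl (oth R e).1).kd l = 1)) := by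
  simp only [band_eq, Bool.and_eq_true] at h
  obtain ⟨rA, rB, rC, prom⟩ := C
  obtain ⟨uA, cA, aA0, aA1, lA1, lA2⟩ := rA
  obtain ⟨uB, cB, aB0, aB1, lB1, lB2⟩ := rB
  obtain ⟨uC, cC, aC0, aC1, lC1, lC2⟩ := rC
  obtain ⟨k1, k2, k3, t1, t2, t3, t4, t5, t6⟩ := h
  have sym : ∀ {A B : Fin 3} {C : CT}, ((C.rl A).kd l = 1 ∧ (C.rl B).kd l = 1 ∧
        plr A ((C.rl A).pi l) = plr B ((C.rl B).pi l) ∧
        ((l = (C.rl A).l1 ∨ l = (C.rl A).l2) ↔ (l = (C.rl B).l1 ∨ l = (C.rl B).l2))) →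
        (C.rl B).kd l = 1 ∧ (C.rl A).kd l = 1 ∧
        plr B ((C.rl B).pi l) = plr A ((C.rl A).pi l) ∧
        ((l = (C.rl B).l1 ∨ l = (C.rl B).l2) ↔ (l = (C.rl A).l1 ∨ l = (C.rl A).l2)) :=
    fun hh => ⟨hh.2.1, hh.1, hh.2.2.1.symm, hh.2.2.2.symm⟩
  constructor
  · intro R R' hne h1 h2
    fin_cases R <;> fin_cases R'
    · exact absurd rfl hne
    · exact comN_spec (R := 0) (R' := 1) k1 h1 h2
    · exact comN_spec (R := 0) (R' := 2) k2 h1 h2
    · exact sym (comN_spec (R := 0) (R' := 1) k1 h2 h1)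
    · exact absurd rfl hne
    · exact comN_spec (R := 1) (R' := 2) k3 h1 h2
    · exact sym (comN_spec (R := 0) (R' := 2) k2 h2 h1)
    · exact sym (comN_spec (R := 1) (R' := 2) k3 h2 h1)
    · exact absurd rfl hne
  · intro R e he h1 h2
    have h3 : e = 0 ∨ e = 1 := by omega
    fin_cases R <;> rcases h3 with rfl | rfl
    · exact timN_spec (R := 0) (e := 0) t1 h1 h2
    · exact timN_spec (R := 0) (e := 1) t2 h1 h2
    · exact timN_spec (R := 1) (e := 0) t3 h1 h2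
    · exact timN_spec (R := 1) (e := 1) t4 h1 h2
    · exact timN_spec (R := 2) (e := 0) t5 h1 h2
    · exact timN_spec (R := 2) (e := 1) t6 h1 h2

theorem validB_spec {M : ℕ} {C : CT} (h : validB M C = true) : WValid M C.toW := by
  have hkd : ∀ R l, C.toW.kd R l = (C.rl R).kd l := fun R l => rfl
  have hpi : ∀ R l, C.toW.pi R l = (C.rl R).pi l := fun R l => rfl
  have hl1 : ∀ R, C.toW.l1 R = (C.rl R).l1 := fun R => rfl
  have hl2 : ∀ R, C.toW.l2 R = (C.rl R).l2 := fun R => rfl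
  have h0 : band (roleB M C.rA 0 C.prom) (band (roleB M C.rB 1 C.prom)
    (band (roleB M C.rC 2 C.prom)
    (band (allB (fun l => band (comB C.rA C.rB 0 1 0 2 l) (band (comB C.rA C.rC 0 1 1 2 l)
      (band (comB C.rB C.rC 0 2 1 2 l) (band (timB C.rA C.rB 0 0 l) (band (timB C.rA C.rC 0 1 l)
      (band (timB C.rB C.rA 0 0 l) (band (timB C.rB C.rC 1 1 l) (band (timB C.rC C.rA 1 0 l)
        (timB C.rC C.rB 1 1 l))))))))) (Nat.succ M))
      (lall (fun h => Nat.ble (Nat.succ h.r) 3) C.prom)))) = true := by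
    obtain ⟨rA, rB, rC, prom⟩ := C
    exact h
  rw [band_eq, band_eq, band_eq, band_eq] at h0
  simp only [Bool.and_eq_true] at h0
  obtain ⟨r0, r1, r2, hc, hr⟩ := h0
  have hrole : ∀ R : Fin 3, RoleP M (C.rl R) R.1 C.prom := by
    intro R; fin_cases R
    · exact roleB_spec r0
    · exact roleB_spec r1
    · exact roleB_spec r2
  have hM : ∀ R l, (C.rl R).kd l ≠ 0 → l ≤ M := by
    intro R l hl
    have u := kd_ne hl
    have h2 := (hrole R).bd
    by_contra hcon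
    have h3 : (C.rl R).us < 2 ^ l := lt_of_lt_of_le h2 (Nat.pow_le_pow_right (by norm_num) (by omega))
    rw [Nat.testBit_lt_two_pow h3] at u
    exact absurd u (by decide)
  have hall : ∀ l, l ≤ M → _ := fun l hl => com_tim (allB_spec hc (i := l) (Nat.lt_succ_of_le hl))
  refine ⟨?_, ?_, ?_, ?_, ?_, ?_, ?_, ?_⟩
  · intro R
    rw [hkd]
    unfold CRole.kd
    rw [(hrole R).zero]
    rfl
  · intro R l hl
    exact hM R l hl
  · intro R l hl
    rw [hkd] at hl
    obtain ⟨u1, u2⟩ := kd_one.1 hl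
    have h3 := (hrole R).cut l u1 u2
    rw [hpi]
    unfold CRole.pi
    rcases hA : (C.rl R).a0.testBit l with _ | _ <;> rcases hB : (C.rl R).a1.testBit l with _ | _ <;>
      rw [hA, hB] at h3 <;> simp_all
  · intro R R' hne l h1 h2
    exact (hall l (hM R l h1)).1 R R' hne h1 h2
  · intro R l hl e he hce
    exact (hall l (hM R l hl)).2 R e he hl hce
  · intro R
    exact ⟨(hrole R).lt, (hrole R).k1, (hrole R).k2⟩
  · intro h hh hf R hR
    obtain ⟨c1, c2, c3, c4⟩ := (hrole R).prk h hh hf hR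
    refine ⟨c1, ?_, c3, ?_⟩
    · rw [hkd]
      unfold CRole.kd
      rw [c2]
      rfl
    · rw [hpi, hl1, hl2]
      exact c4
  · intro h hh
    exact bles_eq.1 (lall_spec hr h hh)

end MPb6P
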