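import Pool.Agent.Lib.MP_b6d339_lc.Pos.XDefs
import Pool.Agent.Lib.MP_b6d339_lc.Pos.WNode

/-!
# Erdős 592, positive side: a pattern which is covered by other patterns
-/

namespace MPb6P

/-- the entry with number `g` -/
def fe (F : List PE) (g : ℕ) : PE := F.getD g ⟨2, 5, 0, 0⟩

/-- the automaton of the entries `F` accepts the letters `w` from the state `g` with the parity
`p` of the next letter -/
def Ac (F : List PE) : List ℕ → ℕ → ℕ → Prop
  | [], p, g => p = 1 ∧ (fe F (g + 1)).lo = 4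
  | c :: w, p, g => (c ≤ blv (fe F g).b p ∧ Ac F w (1 - p) g) ∨
      ((fe F (g + 1)).e = p ∧ (fe F (g + 1)).lo ≤ c ∧ c ≤ (fe F (g + 1)).hi ∧
        Ac F w (1 - p) (g + 1))

/-- the masks `st` (blocks) and `lt` (letters) belong to the letter `c` with the parity `p` -/
structure MOf (F : List PE) (p c st lt : ℕ) : Prop where
  s : ∀ g, st.testBit g = true ↔ c ≤ blv (fe F g).b p
  l : ∀ g, lt.testBit g = true ↔ (fe F g).e = p ∧ (fe F g).lo ≤ c ∧ c ≤ (fe F g).hi

theorem testBit_dbl (S g : ℕ) : (2 * S).testBit g = true ↔ ∃ g', g = g' + 1 ∧ S.testBit g' = true := by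
  cases g with
  | zero =>
    constructor
    · intro h
      rw [Nat.testBit_zero] at h
      simp at h
    · rintro ⟨g', h, -⟩; omega
  | succ g =>
    rw [Nat.testBit_succ, Nat.mul_div_cancel_left _ (by norm_num)]
    constructor
    · intro h; exact ⟨g, rfl, h⟩
    · rintro ⟨g', h, h'⟩
      have : g' = g := by omega
      rw [← this]; exact h'

theorem stpN_bit (st lt S g : ℕ) : (stpN st lt S).testBit g = true ↔
    (S.testBit g = true ∧ st.testBit g = true) ∨
      ∃ g', g = g' + 1 ∧ S.testBit g' = true ∧ lt.testBit g = true := by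
  have e : stpN st lt S = (S &&& st) ||| ((2 * S) &&& lt) := rfl
  rw [e, Nat.testBit_or, Bool.or_eq_true, Nat.testBit_and, Bool.and_eq_true, Nat.testBit_and,
    Bool.and_eq_true, testBit_dbl]
  constructor
  · rintro (h | ⟨⟨g', h1, h2⟩, h3⟩)
    · exact Or.inl h
    · exact Or.inr ⟨g', h1, h2, h3⟩
  · rintro (h | ⟨g', h1, h2, h3⟩)
    · exact Or.inl h
    · exact Or.inr ⟨⟨g', h1, h2⟩, h3⟩

/-- acceptance from a state of the set `S` -/
def AcS (F : List PE) (w : List ℕ) (p S : ℕ) : Prop := ∃ g, S.testBit g = true ∧ Ac F w p g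

theorem step_iff {F : List PE} {p c st lt : ℕ} (h : MOf F p c st lt) (S : ℕ) (w : List ℕ) :
    AcS F w (1 - p) (stpN st lt S) ↔ AcS F (c :: w) p S := by
  constructor
  · rintro ⟨g, h1, h2⟩
    rw [stpN_bit] at h1
    rcases h1 with ⟨h1, h3⟩ | ⟨g', rfl, h1, h3⟩
    · exact ⟨g, h1, Or.inl ⟨(h.s g).1 h3, h2⟩⟩
    · obtain ⟨a, b, d⟩ := (h.l _).1 h3
      exact ⟨g', h1, Or.inr ⟨a, b, d, h2⟩⟩
  · rintro ⟨g, h1, (⟨h2, h3⟩ | ⟨a, b, d, h3⟩)⟩
    · exact ⟨g, (stpN_bit _ _ _ _).2 (Or.inl ⟨h1, (h.s g).2 h2⟩), h3⟩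
    · exact ⟨g + 1, (stpN_bit _ _ _ _).2 (Or.inr ⟨g, rfl, h1, (h.l _).2 ⟨a, b, d⟩⟩), h3⟩

/-- a claim: from the parity `p`, acceptance from `L` implies acceptance from `V`; the lists
contain the claims used for the letters `1, 2, 3` -/
structure CV where
  p : ℕ
  L : ℕ
  V : ℕ
  l1 : List ℕ
  l2 : List ℕ
  l3 : List ℕ

/-- the meaning of a claim -/
def CV.Ok (F : List PE) (w : List ℕ) (r : CV) : Prop := AcS F w r.p r.L → AcS F w r.p r.V

/-- check of one letter: `L` is contained in `acc` with the claims of the list -/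
noncomputable def edgN (T : BT CV) (q L : ℕ) : List ℕ → ℕ → Bool :=
  List.rec (motive := fun _ => ℕ → Bool) (fun acc => Nat.beq (Nat.land L acc) L)
    (fun j _ ih acc => CV.rec (motive := fun _ => Bool) (fun p L' V' _ _ _ =>
      band (Nat.beq p q) (band (Nat.beq (Nat.land V' acc) V') (frc (Nat.lor acc L') ih)))
      (T.get j))

theorem band_iff {a b : Bool} : band a b = true ↔ a = true ∧ b = true := by
  rw [band_eq, Bool.and_eq_true]

theorem bor_iff {a b : Bool} : bor a b = true ↔ a = true ∨ b = true := by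
  rw [bor_eq, Bool.or_eq_true]

theorem land_sub {a b : ℕ} (h : Nat.beq (Nat.land a b) a = true) {g : ℕ}
    (hg : a.testBit g = true) : b.testBit g = true := by
  have h1 : a &&& b = a := beq_eq.1 h
  rw [← h1, Nat.testBit_and, Bool.and_eq_true] at hg
  exact hg.2

theorem edgN_spec {F : List PE} {w : List ℕ} {T : BT CV} (hT : ∀ j, (T.get j).Ok F w)
    {q L : ℕ} : ∀ (l : List ℕ) (acc : ℕ), edgN T q L l acc = true → AcS F w q L → AcS F w q acc := by
  intro l
  induction l with
  | nil =>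
    intro acc h h1
    have h' : Nat.beq (Nat.land L acc) L = true := h
    obtain ⟨g, h2, h3⟩ := h1
    exact ⟨g, land_sub h' h2, h3⟩
  | cons j l ih =>
    intro acc h h1
    have hj := hT j
    have h' : CV.rec (motive := fun _ => Bool) (fun p L' V' _ _ _ =>
      band (Nat.beq p q) (band (Nat.beq (Nat.land V' acc) V') (edgN T q L l (Nat.lor acc L'))))
      (T.get j) = true := h
    rcases hr : T.get j with ⟨p, L', V', l1, l2, l3⟩
    rw [hr] at h' hj
    have h'' : band (Nat.beq p q) (band (Nat.beq (Nat.land V' acc) V')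
      (edgN T q L l (Nat.lor acc L'))) = true := h'
    rw [band_iff, band_iff] at h''
    obtain ⟨hp, hV, hr⟩ := h''
    have hp' : p = q := beq_eq.1 hp
    subst hp'
    obtain ⟨g, h2, h3⟩ := ih _ hr h1
    have e : Nat.lor acc L' = acc ||| L' := rfl
    rw [e, Nat.testBit_or, Bool.or_eq_true] at h2
    rcases h2 with h2 | h2
    · exact ⟨g, h2, h3⟩
    · obtain ⟨g', h4, h5⟩ := hj ⟨g, h2, h3⟩
      exact ⟨g', land_sub hV h4, h5⟩

/-- one letter of a claim -/
noncomputable def letN (T : BT CV) (q st lt L V : ℕ) (l : List ℕ) : Bool :=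
  frc (stpN st lt L) (fun L' => frc (stpN st lt V) (fun V' => edgN T q L' l V'))

theorem letN_spec {F : List PE} {w : List ℕ} {T : BT CV} (hT : ∀ j, (T.get j).Ok F w)
    {p q c st lt L V : ℕ} {l : List ℕ} (hM : MOf F p c st lt) (hq : q = 1 - p)
    (h : letN T q st lt L V l = true) (h1 : AcS F (c :: w) p L) : AcS F (c :: w) p V := by
  subst hq
  rw [← step_iff hM] at h1 ⊢
  exact edgN_spec hT l _ h h1

/-- check of a claim -/
noncomputable def cvB (T : BT CV) (s1 s2 s3 t1 t2 t3 u1 u2 u3 v1 v2 v3 fn : ℕ) (r : CV) : Bool :=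
  CV.rec (motive := fun _ => Bool) (fun p L V l1 l2 l3 => Nat.rec (motive := fun _ => Bool)
    (band (letN T 1 s1 t1 L V l1) (band (letN T 1 s2 t2 L V l2) (letN T 1 s3 t3 L V l3)))
    (fun k _ => Nat.rec (motive := fun _ => Bool)
      (band (letN T 0 u1 v1 L V l1) (band (letN T 0 u2 v2 L V l2) (band (letN T 0 u3 v3 L V l3)
        (bor (Nat.beq (Nat.land (Nat.mul 2 L) fn) 0)
          (bnot (Nat.beq (Nat.land (Nat.mul 2 V) fn) 0))))))
      (fun _ _ => false) k) p) r

/-- all masks -/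
structure MAll (F : List PE) (s1 s2 s3 t1 t2 t3 u1 u2 u3 v1 v2 v3 fn : ℕ) : Prop where
  a1 : MOf F 0 1 s1 t1
  a2 : MOf F 0 2 s2 t2
  a3 : MOf F 0 3 s3 t3
  b1 : MOf F 1 1 u1 v1
  b2 : MOf F 1 2 u2 v2
  b3 : MOf F 1 3 u3 v3
  f : ∀ g, fn.testBit g = true ↔ (fe F g).lo = 4

theorem meets {a b : ℕ} : Nat.beq (Nat.land a b) 0 = false ↔
    ∃ g, a.testBit g = true ∧ b.testBit g = true := by
  rw [beq_ff]
  have e : Nat.land a b = a &&& b := rfl
  rw [e]
  constructor
  · intro h
    obtain ⟨g, hg⟩ := Nat.exists_testBit_of_ne_zero h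
    rw [Nat.testBit_and, Bool.and_eq_true] at hg
    exact ⟨g, hg⟩
  · rintro ⟨g, h1, h2⟩ h0
    have : (a &&& b).testBit g = true := by rw [Nat.testBit_and, h1, h2]; rfl
    rw [h0, Nat.zero_testBit] at this
    exact Bool.noConfusion this

variable {F : List PE} {s1 s2 s3 t1 t2 t3 u1 u2 u3 v1 v2 v3 fn : ℕ}

theorem cvB_spec (hM : MAll F s1 s2 s3 t1 t2 t3 u1 u2 u3 v1 v2 v3 fn) {T : BT CV}
    (h : ∀ j, cvB T s1 s2 s3 t1 t2 t3 u1 u2 u3 v1 v2 v3 fn (T.get j) = true) :
    ∀ w : List ℕ, (∀ x ∈ w, 1 ≤ x ∧ x ≤ 3) → ∀ j, (T.get j).Ok F w := by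
  intro w
  induction w with
  | nil =>
    intro _ j
    have hj := h j
    rcases hr : T.get j with ⟨p, L, V, l1, l2, l3⟩
    rw [hr] at hj
    rintro ⟨g, h1, h2, h3⟩
    have h2' : p = 1 := h2
    subst h2'
    have hj' : band (letN T 0 u1 v1 L V l1) (band (letN T 0 u2 v2 L V l2)
      (band (letN T 0 u3 v3 L V l3) (bor (Nat.beq (Nat.land (Nat.mul 2 L) fn) 0)
          (bnot (Nat.beq (Nat.land (Nat.mul 2 V) fn) 0))))) = true := hj
    rw [band_iff, band_iff, band_iff, bor_iff, bnot_eq] at hj'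
    obtain ⟨-, -, -, hf⟩ := hj'
    have hL : Nat.beq (Nat.land (Nat.mul 2 L) fn) 0 = false :=
      meets.2 ⟨g + 1, (testBit_dbl _ _).2 ⟨g, rfl, h1⟩, (hM.f _).2 h3⟩
    rw [hL] at hf
    have hV : Nat.beq (Nat.land (Nat.mul 2 V) fn) 0 = false := by
      rcases hf with hf | hf
      · exact Bool.noConfusion hf
      · simpa using hf
    obtain ⟨g', h4, h5⟩ := meets.1 hV
    obtain ⟨g'', rfl, h6⟩ := (testBit_dbl _ _).1 h4
    exact ⟨g'', h6, rfl, (hM.f _).1 h5⟩
  | cons c w ih =>
    intro hc j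
    have hT := ih (fun x hx => hc x (List.mem_cons_of_mem _ hx))
    have hc' := hc c (by simp)
    have hj := h j
    rcases hr : T.get j with ⟨p, L, V, l1, l2, l3⟩
    rw [hr] at hj
    intro h1
    have h1' : AcS F (c :: w) p L := h1
    show AcS F (c :: w) p V
    rcases p with _ | _ | p
    · have hj' : band (letN T 1 s1 t1 L V l1) (band (letN T 1 s2 t2 L V l2)
        (letN T 1 s3 t3 L V l3)) = true := hj
      rw [band_iff, band_iff] at hj'
      obtain ⟨e1, e2, e3⟩ := hj'
      have hcc : c = 1 ∨ c = 2 ∨ c = 3 := by omega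
      rcases hcc with rfl | rfl | rfl
      · exact letN_spec hT hM.a1 rfl e1 h1'
      · exact letN_spec hT hM.a2 rfl e2 h1'
      · exact letN_spec hT hM.a3 rfl e3 h1'
    · have hj' : band (letN T 0 u1 v1 L V l1) (band (letN T 0 u2 v2 L V l2)
        (band (letN T 0 u3 v3 L V l3) (bor (Nat.beq (Nat.land (Nat.mul 2 L) fn) 0)
          (bnot (Nat.beq (Nat.land (Nat.mul 2 V) fn) 0))))) = true := hj
      rw [band_iff, band_iff, band_iff] at hj'
      obtain ⟨e1, e2, e3, -⟩ := hj'
      have hcc : c = 1 ∨ c = 2 ∨ c = 3 := by omega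
      rcases hcc with rfl | rfl | rfl
      · exact letN_spec hT hM.b1 rfl e1 h1'
      · exact letN_spec hT hM.b2 rfl e2 h1'
      · exact letN_spec hT hM.b3 rfl e3 h1'
    · exact Bool.noConfusion (show false = true from hj)

/-! ### Masks -/

/-- the entries of all leaves -/
noncomputable def fl (t : BT (List PE)) : List PE :=
  BT.rec (motive := fun _ => List PE) (fun a => a) (fun _ _ a b => a ++ b) t

/-- the mask of the entries of the leaves -/
noncomputable def mskT (f : PE → Bool) (t : BT (List PE)) : ℕ → ℕ :=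
  BT.rec (motive := fun _ => ℕ → ℕ) (fun a acc => mskL f a acc)
    (fun _ _ ihl ihr acc => frc (ihr acc) ihl) t

theorem mskL_cons (f : PE → Bool) (x : PE) (s : List PE) (acc : ℕ) :
    mskL f (x :: s) acc = 2 * mskL f s acc + (if f x = true then 1 else 0) := by
  show 2 * mskL f s acc + Bool.rec (motive := fun _ => ℕ) 0 1 (f x) = _
  cases f x <;> rfl

theorem mskL_append (f : PE → Bool) (a b : List PE) (acc : ℕ) :
    mskL f (a ++ b) acc = mskL f a (mskL f b acc) := by
  induction a with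
  | nil => rfl
  | cons x a ih => rw [List.cons_append, mskL_cons, mskL_cons, ih]

theorem mskT_eq (f : PE → Bool) (t : BT (List PE)) : ∀ acc, mskT f t acc = mskL f (fl t) acc := by
  induction t with
  | leaf a => intro acc; rfl
  | node l r ihl ihr =>
    intro acc
    show mskT f l (mskT f r acc) = mskL f (fl l ++ fl r) acc
    rw [ihl, ihr, mskL_append]

theorem testBit_two_mul_add (m b g : ℕ) (hb : b < 2) : (2 * m + b).testBit g =
    if g = 0 then decide (b = 1) else m.testBit (g - 1) := by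
  cases g with
  | zero =>
    rw [Nat.testBit_zero, if_pos rfl]
    congr 1
    apply propext
    constructor <;> intro h <;> omega
  | succ g =>
    rw [Nat.testBit_succ, if_neg (by omega)]
    have : (2 * m + b) / 2 = m := by omega
    rw [this]; rfl

theorem mskL_bit (f : PE → Bool) (s : List PE) (acc g : ℕ) : (mskL f s acc).testBit g =
    if g < s.length then f (fe s g) else acc.testBit (g - s.length) := by
  induction s generalizing g with
  | nil => rfl
  | cons x s ih =>
    rw [mskL_cons, testBit_two_mul_add _ _ _ (by split_ifs <;> omega)]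
    cases g with
    | zero =>
      have e0 : fe (x :: s) 0 = x := rfl
      have h0 : 0 < (x :: s).length := by simp
      rw [e0, if_pos rfl, if_pos h0]
      cases f x
      · rfl
      · rfl
    | succ g =>
      rw [if_neg (by omega), Nat.add_sub_cancel, ih]
      have : fe (x :: s) (g + 1) = fe s g := by simp [fe]
      rw [this, List.length_cons]
      by_cases h : g < s.length
      · rw [if_pos h, if_pos (by omega)]
      · rw [if_neg h, if_neg (by omega)]
        congr 1
        omega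

theorem mskL_zero_bit (f : PE → Bool) (s : List PE) (hf : f ⟨2, 5, 0, 0⟩ = false) (g : ℕ) :
    (mskL f s 0).testBit g = f (fe s g) := by
  rw [mskL_bit]
  split_ifs with h
  · rfl
  · rw [Nat.zero_testBit]
    have : fe s g = ⟨2, 5, 0, 0⟩ := List.getD_eq_default _ _ (by omega)
    rw [this, hf]

theorem mof_mask (F : List PE) {p c : ℕ} (hp : p < 2) (hc : 1 ≤ c) :
    MOf F p c (mskL (fS p c) F 0) (mskL (fL p c) F 0) := by
  constructor
  · intro g
    rw [mskL_zero_bit]
    · obtain ⟨e, lo, hi, b⟩ := fe F g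
      have : fS p c ⟨e, lo, hi, b⟩ = Nat.ble c (blv b p) := by
        rcases p with _ | _ | p
        · rfl
        · rfl
        · omega
      rw [this, ble_eq']
    · have : fS p c ⟨2, 5, 0, 0⟩ = Nat.ble c 0 := by
        rcases p with _ | p <;> rfl
      rw [this, Bool.eq_false_iff, Ne, ble_eq']
      omega
  · intro g
    rw [mskL_zero_bit]
    · obtain ⟨e, lo, hi, b⟩ := fe F g
      show band (Nat.beq e p) (band (Nat.ble lo c) (Nat.ble c hi)) = true ↔ _
      rw [band_iff, band_iff, beq_eq, ble_eq', ble_eq']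
    · show band (Nat.beq 2 p) (band (Nat.ble 5 c) (Nat.ble c 0)) = false
      rw [Bool.eq_false_iff, Ne, band_iff, band_iff, beq_eq]
      omega

theorem fn_mask (F : List PE) (g : ℕ) : (mskL fF F 0).testBit g = true ↔ (fe F g).lo = 4 := by
  rw [mskL_zero_bit _ _ rfl]
  obtain ⟨e, lo, hi, b⟩ := fe F g
  show Nat.beq lo 4 = true ↔ _
  rw [beq_eq]


/-! ### Patterns and the automaton -/

/-- well formed rest of a pattern -/
inductive WfR : List PE → Prop
  | fin : WfR [⟨1, 4, 4, 0⟩, ⟨0, 4, 4, 0⟩]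
  | cons (e lo hi b : ℕ) (s : List PE) : lo ≤ 3 → hi ≤ 3 → b ≤ 15 → WfR s → WfR (⟨e, lo, hi, b⟩ :: s)

theorem lastB_spec {s : List PE} (h : lastB s = true) : s = [⟨0, 4, 4, 0⟩] := by
  rcases s with _ | ⟨⟨e, lo, hi, b⟩, s⟩
  · exact Bool.noConfusion (show false = true from h)
  · have h' : band (Nat.beq e 0) (band (Nat.beq lo 4) (band (Nat.beq hi 4)
      (band (Nat.beq b 0) (List.rec (motive := fun _ => Bool) true (fun _ _ _ => false) s)))) = true := h
    rw [band_iff, band_iff, band_iff, band_iff, beq_eq, beq_eq, beq_eq, beq_eq] at h'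
    obtain ⟨rfl, rfl, rfl, rfl, h5⟩ := h'
    rcases s with _ | ⟨y, s⟩
    · rfl
    · exact Bool.noConfusion (show false = true from h5)

theorem wfR_spec {s : List PE} (h : wfR s = true) : WfR s := by
  induction s with
  | nil => exact Bool.noConfusion (show false = true from h)
  | cons x s ih =>
    obtain ⟨e, lo, hi, b⟩ := x
    have h' : Bool.rec (motive := fun _ => Bool)
      (band (Nat.beq e 1) (band (Nat.beq lo 4) (band (Nat.beq hi 4) (band (Nat.beq b 0) (lastB s)))))
      (band (Nat.ble hi 3) (band (Nat.ble b 15) (wfR s))) (Nat.ble lo 3) = true := h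
    rcases hl : Nat.ble lo 3 with _ | _
    · rw [hl] at h'
      have h'' : band (Nat.beq e 1) (band (Nat.beq lo 4) (band (Nat.beq hi 4)
        (band (Nat.beq b 0) (lastB s)))) = true := h'
      rw [band_iff, band_iff, band_iff, band_iff, beq_eq, beq_eq, beq_eq, beq_eq] at h''
      obtain ⟨rfl, rfl, rfl, rfl, h5⟩ := h''
      rw [lastB_spec h5]
      exact WfR.fin
    · rw [hl] at h'
      have h'' : band (Nat.ble hi 3) (band (Nat.ble b 15) (wfR s)) = true := h'
      rw [band_iff, band_iff, ble_eq', ble_eq'] at h''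
      exact WfR.cons _ _ _ _ _ (ble_eq'.1 hl) h''.1 h''.2.1 (ih h''.2.2)

theorem wfP_spec {p : List PE} (h : wfP p = true) :
    ∃ b s, b ≤ 15 ∧ WfR s ∧ p = ⟨0, 4, 4, 0⟩ :: ⟨1, 4, 4, b⟩ :: s := by
  rcases p with _ | ⟨⟨e, lo, hi, b⟩, p⟩
  · exact Bool.noConfusion (show false = true from h)
  rcases p with _ | ⟨⟨e', lo', hi', b'⟩, s⟩
  · have h' : band (Nat.beq e 0) (band (Nat.beq lo 4) (band (Nat.beq hi 4)
      (band (Nat.beq b 0) false))) = true := h
    rw [band_iff, band_iff, band_iff, band_iff] at h'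
    exact Bool.noConfusion h'.2.2.2.2
  · have h' : band (Nat.beq e 0) (band (Nat.beq lo 4) (band (Nat.beq hi 4)
      (band (Nat.beq b 0) (band (Nat.beq e' 1) (band (Nat.beq lo' 4) (band (Nat.beq hi' 4)
        (band (Nat.ble b' 15) (wfR s)))))))) = true := h
    rw [band_iff, band_iff, band_iff, band_iff, band_iff, band_iff, band_iff, band_iff, beq_eq,
      beq_eq, beq_eq, beq_eq, beq_eq, beq_eq, beq_eq, ble_eq'] at h'
    obtain ⟨rfl, rfl, rfl, rfl, rfl, rfl, rfl, h8, h9⟩ := h'
    exact ⟨b', s, h8, wfR_spec h9, rfl⟩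

/-- the rest of the word `u` from the index `i` on is accepted after the entry `x` -/
def Rs (u : List ℕ) (x : PE) (s : List PE) (i : ℕ) : Prop :=
  (x.b = 0 ∧ Mt u s i) ∨ (x.b ≠ 0 ∧ ∃ j, i ≤ j ∧
    (∀ m, i ≤ m → m < j → 1 ≤ u.getD m 0 ∧ u.getD m 0 ≤ blv x.b m) ∧ Mt u s j)

theorem blv_le {b i : ℕ} (h : b ≤ 15) : blv b i ≤ 3 := by
  unfold blv
  split_ifs <;> omega

theorem blv_mod (b i : ℕ) : blv b (i % 2) = blv b i := by
  unfold blv
  rw [Nat.mod_mod]

theorem fe_append (a b : List PE) (g : ℕ) : fe (a ++ b) (a.length + g) = fe b g := by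
  unfold fe
  rw [List.getD_eq_getElem?_getD, List.getD_eq_getElem?_getD, List.getElem?_append_right (by omega),
    Nat.add_sub_cancel_left]

theorem rs_iff {F pre post : List PE} {x : PE} {s : List PE} (hF : F = pre ++ x :: (s ++ post))
    (hs : WfR s) (hx : x.b ≤ 15) {w : List ℕ} (hw : ∀ y ∈ w, 1 ≤ y ∧ y ≤ 3) {a : List ℕ}
    {u : List ℕ} (hu : u = a ++ w ++ [4, 4]) :
    Rs u x s a.length ↔ Ac F w (a.length % 2) pre.length := by
  induction w generalizing pre x s a with
  | nil =>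
    have hlen : u.length = a.length + 2 := by rw [hu]; simp
    have hi : u.getD a.length 0 = 4 := by
      rw [hu, List.append_nil, List.getD_eq_getElem?_getD, List.getElem?_append_right (le_refl _)]
      simp
    have hi1 : u.getD (a.length + 1) 0 = 4 := by
      rw [hu, List.append_nil, List.getD_eq_getElem?_getD, List.getElem?_append_right (by omega)]
      simp
    have key : Rs u x s a.length ↔ Mt u s a.length := by
      constructor
      · rintro (⟨-, h⟩ | ⟨h0, j, hj, hm, h⟩)
        · exact h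
        · rcases Nat.lt_or_ge a.length j with h1 | h1
          · have h2 := (hm _ (le_refl _) h1).2
            rw [hi] at h2
            have := blv_le (i := a.length) hx
            omega
          · have : j = a.length := le_antisymm h1 hj
            rw [← this]; exact h
      · intro h
        by_cases hb : x.b = 0
        · exact Or.inl ⟨hb, h⟩
        · exact Or.inr ⟨hb, a.length, le_refl _, fun m h1 h2 => by omega, h⟩
    rw [key]
    show _ ↔ a.length % 2 = 1 ∧ (fe F (pre.length + 1)).lo = 4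
    rw [hF, fe_append]
    cases hs with
    | fin =>
      show (a.length < u.length ∧ a.length % 2 = 1 ∧ 4 ≤ u.getD a.length 0 ∧
        u.getD a.length 0 ≤ 4 ∧ _) ↔ _ ∧ 4 = 4
      rw [hi, hlen]
      constructor
      · rintro ⟨-, h, -⟩; exact ⟨h, rfl⟩
      · rintro ⟨h, -⟩
        refine ⟨by omega, h, le_refl _, le_refl _, Or.inl ⟨rfl, ?_⟩⟩
        show a.length + 1 < u.length ∧ (a.length + 1) % 2 = 0 ∧ 4 ≤ u.getD (a.length + 1) 0 ∧
          u.getD (a.length + 1) 0 ≤ 4 ∧ _
        rw [hi1, hlen]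
        refine ⟨by omega, by omega, le_refl _, le_refl _, Or.inl ⟨rfl, ?_⟩⟩
        show a.length + 1 + 1 = u.length
        omega
    | cons e lo hi' b s' h1 h2 h3 h4 =>
      show (a.length < u.length ∧ a.length % 2 = e ∧ lo ≤ u.getD a.length 0 ∧
        u.getD a.length 0 ≤ hi' ∧ _) ↔ _ ∧ lo = 4
      rw [hi]
      constructor
      · rintro ⟨-, -, -, h, -⟩; omega
      · rintro ⟨-, h⟩; omega
  | cons c w ih =>
    have hc := hw c (by simp)
    have hw' : ∀ y ∈ w, 1 ≤ y ∧ y ≤ 3 := fun y hy => hw y (List.mem_cons_of_mem _ hy)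
    have hu' : u = (a ++ [c]) ++ w ++ [4, 4] := by rw [hu]; simp
    have hlen : u.length = a.length + w.length + 3 := by rw [hu]; simp; omega
    have hi : u.getD a.length 0 = c := by
      rw [hu, List.append_assoc, List.getD_eq_getElem?_getD,
        List.getElem?_append_right (le_refl _)]
      simp
    have hal : (a ++ [c]).length = a.length + 1 := by simp
    have hpar : (a.length + 1) % 2 = 1 - a.length % 2 := by omega
    -- staying in the block
    have h1 := ih hF hs hx hw' hu'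
    rw [hal, hpar] at h1
    show _ ↔ (c ≤ blv (fe F pre.length).b (a.length % 2) ∧ Ac F w (1 - a.length % 2) pre.length) ∨
      ((fe F (pre.length + 1)).e = a.length % 2 ∧ (fe F (pre.length + 1)).lo ≤ c ∧
        c ≤ (fe F (pre.length + 1)).hi ∧ Ac F w (1 - a.length % 2) (pre.length + 1))
    have hfx : fe F pre.length = x := by
      have := fe_append pre (x :: (s ++ post)) 0
      rw [Nat.add_zero, ← hF] at this
      exact this
    have hfy : fe F (pre.length + 1) = fe (s ++ post) 0 := by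
      rw [hF, fe_append]; rfl
    rw [hfx, hfy, blv_mod, ← h1]
    have hsplit : Rs u x s a.length ↔ (c ≤ blv x.b a.length ∧ Rs u x s (a.length + 1)) ∨
        Mt u s a.length := by
      constructor
      · rintro (⟨-, h⟩ | ⟨h0, j, hj, hm, h⟩)
        · exact Or.inr h
        · rcases Nat.lt_or_ge a.length j with h2 | h2
          · left
            have h3 := (hm _ (le_refl _) h2).2
            rw [hi] at h3
            exact ⟨h3, Or.inr ⟨h0, j, h2, fun m h4 h5 => hm m (by omega) h5, h⟩⟩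
          · right
            have : j = a.length := le_antisymm h2 hj
            rw [← this]; exact h
      · rintro (⟨h0, h⟩ | h)
        · have hb : x.b ≠ 0 := by
            intro hb
            rw [hb] at h0
            unfold blv at h0
            split_ifs at h0 <;> omega
          rcases h with ⟨hb', -⟩ | ⟨-, j, hj, hm, h⟩
          · exact absurd hb' hb
          · refine Or.inr ⟨hb, j, by omega, fun m h4 h5 => ?_, h⟩
            rcases Nat.eq_or_lt_of_le h4 with h6 | h6
            · rw [← h6, hi]; exact ⟨hc.1, h0⟩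
            · exact hm m h6 h5
        · by_cases hb : x.b = 0
          · exact Or.inl ⟨hb, h⟩
          · exact Or.inr ⟨hb, a.length, le_refl _, fun m h1 h2 => by omega, h⟩
    rw [hsplit]
    refine or_congr Iff.rfl ?_
    cases hs with
    | fin =>
      show (a.length < u.length ∧ a.length % 2 = 1 ∧ 4 ≤ u.getD a.length 0 ∧
        u.getD a.length 0 ≤ 4 ∧ _) ↔ (1 = _ ∧ 4 ≤ c ∧ c ≤ 4 ∧ _)
      rw [hi]
      constructor
      · rintro ⟨-, -, h, -⟩; omega
      · rintro ⟨-, h, -⟩; omega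
    | cons e lo hi' b s' k1 k2 k3 k4 =>
      have hF' : F = (pre ++ [x]) ++ (⟨e, lo, hi', b⟩ : PE) :: (s' ++ post) := by
        rw [hF]; simp
      have h2 := ih hF' k4 k3 hw' hu'
      rw [hal, hpar] at h2
      have hpl : (pre ++ [x]).length = pre.length + 1 := by simp
      rw [hpl] at h2
      show (a.length < u.length ∧ a.length % 2 = e ∧ lo ≤ u.getD a.length 0 ∧
        u.getD a.length 0 ≤ hi' ∧ Rs u ⟨e, lo, hi', b⟩ s' (a.length + 1)) ↔
        (e = a.length % 2 ∧ lo ≤ c ∧ c ≤ hi' ∧ Ac F w (1 - a.length % 2) (pre.length + 1))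
      rw [hi, h2]
      constructor
      · rintro ⟨-, h3, h4, h5, h6⟩; exact ⟨h3.symm, h4, h5, h6⟩
      · rintro ⟨h3, h4, h5, h6⟩; exact ⟨by omega, h3.symm, h4, h5, h6⟩

theorem mt_iff_ac {F pre p post : List PE} (hF : F = pre ++ (p ++ post)) (hp : wfP p = true)
    {w : List ℕ} (hw : ∀ y ∈ w, 1 ≤ y ∧ y ≤ 3) : Mt (cw w) p 0 ↔ Ac F w 0 (pre.length + 1) := by
  obtain ⟨b, s, hb, hs, rfl⟩ := wfP_spec hp
  have hF' : F = (pre ++ [⟨0, 4, 4, 0⟩]) ++ (⟨1, 4, 4, b⟩ : PE) :: (s ++ post) := by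
    rw [hF]; simp
  have h := rs_iff (a := [4, 4]) (u := cw w) hF' hs hb hw rfl
  have e1 : (pre ++ [(⟨0, 4, 4, 0⟩ : PE)]).length = pre.length + 1 := by simp
  rw [e1] at h
  rw [show Ac F w 0 (pre.length + 1) ↔ Rs (cw w) ⟨1, 4, 4, b⟩ s 2 from h.symm]
  have hlen : (cw w).length = w.length + 4 := by simp [cw]
  have e0 : (cw w).getD 0 0 = 4 := rfl
  have e2 : (cw w).getD 1 0 = 4 := rfl
  show (0 < (cw w).length ∧ 0 % 2 = 0 ∧ 4 ≤ (cw w).getD 0 0 ∧ (cw w).getD 0 0 ≤ 4 ∧
    (((0 : ℕ) = 0 ∧ (1 < (cw w).length ∧ 1 % 2 = 1 ∧ 4 ≤ (cw w).getD 1 0 ∧ (cw w).getD 1 0 ≤ 4 ∧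
      Rs (cw w) ⟨1, 4, 4, b⟩ s 2)) ∨ ((0 : ℕ) ≠ 0 ∧ _))) ↔ _
  rw [hlen, e0, e2]
  constructor
  · rintro ⟨-, -, -, -, (⟨-, -, -, -, -, h⟩ | ⟨h, -⟩)⟩
    · exact h
    · exact absurd rfl h
  · intro h
    exact ⟨by omega, rfl, le_refl _, le_refl _, Or.inl ⟨rfl, by omega, rfl, le_refl _, le_refl _, h⟩⟩

/-- the mask of the starts of the patterns at the leaves -/
noncomputable def stT (t : BT (List PE)) : ℕ → ℕ :=
  BT.rec (motive := fun _ => ℕ → ℕ) (fun a acc => Nat.lor 2 (mskL (fun _ => false) a acc))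
    (fun _ _ ihl ihr acc => frc (ihr acc) ihl) t

theorem stT_bit (t : BT (List PE)) : ∀ acc g, (stT t acc).testBit g = true →
    (∃ pre p post, fl t = pre ++ (p ++ post) ∧ g = pre.length + 1 ∧
      ∀ P : List PE → Prop, t.Fa P → P p) ∨
    ((fl t).length ≤ g ∧ acc.testBit (g - (fl t).length) = true) := by
  induction t with
  | leaf a =>
    intro acc g h
    have h' : (2 ||| mskL (fun _ => false) a acc).testBit g = true := h
    rw [Nat.testBit_or, Bool.or_eq_true] at h'
    rcases h' with h' | h'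
    · left
      refine ⟨[], a, [], by simp [fl], ?_, fun P hP => hP⟩
      have : g = 1 := by
        rcases g with _ | _ | g
        · exact Bool.noConfusion (show false = true from h')
        · rfl
        · rw [Nat.testBit_succ, Nat.testBit_succ] at h'
          norm_num at h'
      rw [this]; rfl
    · right
      rw [mskL_bit] at h'
      split_ifs at h' with h1
      exact ⟨not_lt.1 h1, h'⟩
  | node l r ihl ihr =>
    intro acc g h
    have h' : (stT l (stT r acc)).testBit g = true := h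
    have hfl : fl (BT.node l r) = fl l ++ fl r := rfl
    rcases ihl _ _ h' with ⟨pre, p, post, h1, h2, h3⟩ | ⟨h1, h2⟩
    · left
      refine ⟨pre, p, post ++ fl r, by rw [hfl, h1]; simp, h2, fun P hP => h3 P hP.1⟩
    · rcases ihr _ _ h2 with ⟨pre, p, post, h3, h4, h5⟩ | ⟨h3, h4⟩
      · left
        refine ⟨fl l ++ pre, p, post, by rw [hfl, h3]; simp, ?_, fun P hP => h5 P hP.2⟩
        rw [List.length_append]; omega
      · right
        rw [hfl, List.length_append]
        refine ⟨by omega, ?_⟩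
        rw [← h4]; congr 1; omega

/-- check of the first claim -/
noncomputable def topB (st : ℕ) (r : CV) : Bool :=
  CV.rec (motive := fun _ => Bool) (fun p L V _ _ _ =>
    band (Nat.beq p 0) (band (tb L 1) (Nat.beq (Nat.land V st) V))) r

/-- mask of everything -/
noncomputable def mskA (f : PE → Bool) (X : List PE) (A : BT (List PE)) : ℕ :=
  frc (mskT f A 0) (mskL f X)

/-- the words with the pattern `X` have one of the patterns of `A` -/
noncomputable def covB (X : List PE) (A : BT (List PE)) (T : BT CV) : Bool :=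
  band (wfP X) (band (A.all wfP)
    (band (frc (frc (stT A 0) (mskL (fun _ => false) X)) (fun st => topB st (T.get 0)))
    (frc (mskA (fS 0 1) X A) fun s1 => frc (mskA (fS 0 2) X A) fun s2 =>
    frc (mskA (fS 0 3) X A) fun s3 => frc (mskA (fL 0 1) X A) fun t1 =>
    frc (mskA (fL 0 2) X A) fun t2 => frc (mskA (fL 0 3) X A) fun t3 =>
    frc (mskA (fS 1 1) X A) fun u1 => frc (mskA (fS 1 2) X A) fun u2 =>
    frc (mskA (fS 1 3) X A) fun u3 => frc (mskA (fL 1 1) X A) fun v1 =>
    frc (mskA (fL 1 2) X A) fun v2 => frc (mskA (fL 1 3) X A) fun v3 =>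
    frc (mskA fF X A) fun fn => T.all (cvB T s1 s2 s3 t1 t2 t3 u1 u2 u3 v1 v2 v3 fn))))

theorem mskA_eq (f : PE → Bool) (X : List PE) (A : BT (List PE)) :
    mskA f X A = mskL f (X ++ fl A) 0 := by
  show mskL f X (mskT f A 0) = _
  rw [mskT_eq, mskL_append]

theorem covB_spec {X : List PE} {A : BT (List PE)} {T : BT CV} (h : covB X A T = true)
    {w : List ℕ} (hw : ∀ y ∈ w, 1 ≤ y ∧ y ≤ 3) (hX : Mt (cw w) X 0) :
    ∃ p, Mt (cw w) p 0 ∧ ∀ P : List PE → Prop, A.Fa P → P p := by
  have h' : band (wfP X) (band (A.all wfP)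
    (band (topB (mskL (fun _ => false) X (stT A 0)) (T.get 0))
    (T.all (cvB T (mskA (fS 0 1) X A) (mskA (fS 0 2) X A) (mskA (fS 0 3) X A)
      (mskA (fL 0 1) X A) (mskA (fL 0 2) X A) (mskA (fL 0 3) X A)
      (mskA (fS 1 1) X A) (mskA (fS 1 2) X A) (mskA (fS 1 3) X A)
      (mskA (fL 1 1) X A) (mskA (fL 1 2) X A) (mskA (fL 1 3) X A) (mskA fF X A))))) = true := h
  rw [band_iff, band_iff, band_iff] at h'
  obtain ⟨hwX, hwA, htop, hall⟩ := h'
  simp only [mskA_eq] at hall
  have hM : MAll (X ++ fl A) (mskL (fS 0 1) (X ++ fl A) 0) (mskL (fS 0 2) (X ++ fl A) 0)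
      (mskL (fS 0 3) (X ++ fl A) 0) (mskL (fL 0 1) (X ++ fl A) 0) (mskL (fL 0 2) (X ++ fl A) 0)
      (mskL (fL 0 3) (X ++ fl A) 0) (mskL (fS 1 1) (X ++ fl A) 0) (mskL (fS 1 2) (X ++ fl A) 0)
      (mskL (fS 1 3) (X ++ fl A) 0) (mskL (fL 1 1) (X ++ fl A) 0) (mskL (fL 1 2) (X ++ fl A) 0)
      (mskL (fL 1 3) (X ++ fl A) 0) (mskL fF (X ++ fl A) 0) :=
    ⟨mof_mask _ (by norm_num) (by norm_num), mof_mask _ (by norm_num) (by norm_num),
      mof_mask _ (by norm_num) (by norm_num), mof_mask _ (by norm_num) (by norm_num),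
      mof_mask _ (by norm_num) (by norm_num), mof_mask _ (by norm_num) (by norm_num),
      fn_mask _⟩
  have hok := cvB_spec hM (fun j => BT.all_get hall j) w hw 0
  have hstart : Ac (X ++ fl A) w 0 1 := (mt_iff_ac (pre := []) rfl hwX hw).1 hX
  rcases hr : T.get 0 with ⟨p, L, V, l1, l2, l3⟩
  rw [hr] at hok htop
  have htop' : band (Nat.beq p 0) (band (tb L 1)
    (Nat.beq (Nat.land V (mskL (fun _ => false) X (stT A 0))) V)) = true := htop
  rw [band_iff, band_iff, tb_eq] at htop'
  obtain ⟨hp, hL, hV⟩ := htop'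
  have hp' : p = 0 := beq_eq.1 hp
  subst hp'
  obtain ⟨g, h1, h2⟩ : AcS (X ++ fl A) w 0 V := hok ⟨1, hL, hstart⟩
  have h3 := land_sub hV h1
  rw [mskL_bit] at h3
  split_ifs at h3 with h4
  have h4' := not_lt.1 h4
  rcases stT_bit A _ _ h3 with ⟨pre, q, post, h5, h6, h7⟩ | ⟨-, h5⟩
  · refine ⟨q, ?_, h7⟩
    have hwq : wfP q = true := h7 (fun a => wfP a = true) (BT.Fa_of_all hwA)
    refine (mt_iff_ac (F := X ++ fl A) (pre := X ++ pre) (post := post) ?_ hwq hw).2 ?_
    · rw [h5]; simp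
    · have : (X ++ pre).length + 1 = g := by rw [List.length_append]; omega
      rw [this]; exact h2
  · rw [Nat.zero_testBit] at h5
    exact Bool.noConfusion h5

/-- a pattern is good if it is covered by good patterns -/
theorem cov_spec {M : ℕ} {X : List PE} {A : BT (List PE)} {T : BT CV} (h : covB X A T = true)
    (hA : A.Fa (POK M)) : POK M X := by
  intro w hw hX
  obtain ⟨p, h1, h2⟩ := covB_spec h hw hX
  exact h2 (POK M) hA w hw h1

end MPb6P
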