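import Pool.Agent.Lib.MP_b6d339_lc.Pos.WFin

/-!
# Erdős 592, positive side: patterns of words
-/

namespace MPb6P

/-- the bound of the block `b` for the letters of index `i` -/
def blv (b i : ℕ) : ℕ := if i % 2 = 0 then b / 4 else b % 4

/-- the part of the word `u` from the index `i` on has the pattern `s` -/
def Mt (u : List ℕ) : List PE → ℕ → Prop
  | [], i => i = u.length
  | x :: s, i => i < u.length ∧ i % 2 = x.e ∧ x.lo ≤ u.getD i 0 ∧ u.getD i 0 ≤ x.hi ∧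
      ((x.b = 0 ∧ Mt u s (i + 1)) ∨ (x.b ≠ 0 ∧ ∃ j, i < j ∧
        (∀ m, i < m → m < j → 1 ≤ u.getD m 0 ∧ u.getD m 0 ≤ blv x.b m) ∧ Mt u s j))

/-- all words with the pattern `p` have labels at most `M` -/
def POK (M : ℕ) (p : List PE) : Prop :=
  ∀ w : List ℕ, (∀ x ∈ w, 1 ≤ x ∧ x ≤ 3) → Mt (cw w) p 0 → Lab3 M w

/-- the pattern of all words of odd length -/
def rootP : List PE := [⟨0, 4, 4, 0⟩, ⟨1, 4, 4, 15⟩, ⟨1, 4, 4, 0⟩, ⟨0, 4, 4, 0⟩]

end MPb6P
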