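import Pool.Agent.Lib.MP_b6d339_lc.Pos.XDefs

/-!
# Erdős 592, positive side: the game of the three runs, played from a position to the end
-/

namespace MPb6P

open Function

/-- the labels `lab` of the letters from the position `p` on; `rho` is the active run, `T` the
current label; `h R` says that the current letter of the run `R` has already been hosted -/
structure Ext (u : List ℕ) (M T : ℕ) (rho : Fin 3) (p : Fin 3 → ℕ) (h : Fin 3 → Bool)
    (lab : Fin 3 → ℕ → ℕ) : Prop where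
  lbd : ∀ R i, p R ≤ i → i < u.length → (if R = rho then T else T + 1) ≤ lab R i ∧ lab R i ≤ M
  mono : ∀ R i j, p R ≤ i → i ≤ j → j < u.length → lab R i ≤ lab R j
  common : ∀ R R' : Fin 3, R ≠ R' → ∀ i j, p R ≤ i → i < u.length → p R' ≤ j → j < u.length →
    lab R i = lab R' j → plr R i = plr R' j ∧
      (∀ k, p R ≤ k → k < u.length → lab R k = lab R i → k = i) ∧
      (∀ k, p R' ≤ k → k < u.length → lab R' k = lab R' j → k = j) ∧
      (u.length ≤ i + 2 ↔ u.length ≤ j + 2)
  timing : ∀ R R' : Fin 3, R ≠ R' → ∀ i, p R ≤ i → i < u.length →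
    (∃ j, plr R' j = plr R i) → ∃ j, p R' ≤ j ∧ j < u.length ∧ plr R' j = plr R i ∧
      lab R i ≤ lab R' j ∧ (∀ k, p R' ≤ k → k < j → lab R' k < lab R i) ∧
      (u.length ≤ i + 2 → lab R i = lab R' j)
  host : ∀ R R' : Fin 3, R ≠ R' → ∀ i, p R ≤ i → i < u.length → u.getD i 0 ≤ 3 →
    ¬ (i = p R ∧ h R = true) → (∃ j, plr R' j = plr R i) → ∃ j, p R' ≤ j ∧ j < u.length ∧
      plr R' j = plr R i ∧ u.getD i 0 ≤ u.getD j 0 ∧
      (p R + 2 ≤ i → lab R (i - 2) < lab R' j) ∧ (p R' + 2 ≤ j → lab R' (j - 2) < lab R i)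

/-- from the position `p` the game can be finished with `n` cuts -/
def Can (u : List ℕ) (n : ℕ) (rho : Fin 3) (p : Fin 3 → ℕ) (h : Fin 3 → Bool) : Prop :=
  ∀ T, 1 ≤ T → ∃ lab, Ext u (T + 2 * n) T rho p h lab

variable {u : List ℕ} {n : ℕ} {rho : Fin 3} {p : Fin 3 → ℕ} {h : Fin 3 → Bool}

theorem Can.done (hp : ∀ R, p R = u.length) : Can u n rho p h := by
  intro T _
  refine ⟨fun _ _ => 0, ?_, ?_, ?_, ?_, ?_⟩
  · intro R i h1 h2; rw [hp R] at h1; omega
  · intro R i j _ _ _; exact le_refl _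
  · intro R R' _ i j h1 h2; rw [hp R] at h1; omega
  · intro R R' _ i h1 h2; rw [hp R] at h1; omega
  · intro R R' _ i h1 h2; rw [hp R] at h1; omega

/-- more hosted letters -/
theorem Can.flag {h' : Fin 3 → Bool} (hc : Can u n rho p h) (hh : ∀ R, h R = true → h' R = true) :
    Can u n rho p h' := by
  intro T hT
  obtain ⟨lab, hl⟩ := hc T hT
  exact ⟨lab, hl.lbd, hl.mono, hl.common, hl.timing, fun R R' hR i h1 h2 h3 h4 h5 =>
    hl.host R R' hR i h1 h2 h3 (fun h6 => h4 ⟨h6.1, hh R h6.2⟩) h5⟩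

/-- the current letter of `R` is hosted by the current letter of `R'` -/
theorem Can.hst {R R' : Fin 3} (hR : R ≠ R') (hi : p R' < u.length)
    (hp : plr R' (p R') = plr R (p R)) (hv : u.getD (p R) 0 ≤ u.getD (p R') 0)
    (hc : Can u n rho p (update h R true)) : Can u n rho p h := by
  intro T hT
  obtain ⟨lab, hl⟩ := hc T hT
  refine ⟨lab, hl.lbd, hl.mono, hl.common, hl.timing, ?_⟩
  intro Q Q' hQ i h1 h2 h3 h4 h5
  by_cases hc : Q = R ∧ i = p R
  · obtain ⟨rfl, rfl⟩ := hc
    have hQ' : Q' = R' := by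
      have e1 := (oth_spec' hQ (p Q) h5).1
      have e2 := (oth_spec' hR (p Q) ⟨p R', hp⟩).1
      rw [e1, e2]
    subst hQ'
    exact ⟨p Q', le_refl _, hi, hp, hv, fun h6 => by omega, fun h6 => by omega⟩
  · refine hl.host Q Q' hQ i h1 h2 h3 ?_ h5
    rintro ⟨h6, h7⟩
    by_cases hQR : Q = R
    · subst hQR
      exact hc ⟨rfl, h6⟩
    · rw [update_of_ne hQR] at h7
      exact h4 ⟨h6, h7⟩

theorem plr_other {R R' Q : Fin 3} {i j : ℕ} (hR : R ≠ R') (hp : plr R' j = plr R i)
    (hQ : R ≠ Q) (hex : ∃ k, plr Q k = plr R i) : Q = R' := by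
  have e1 := (oth_spec' hQ i hex).1
  have e2 := (oth_spec' hR i ⟨j, hp⟩).1
  rw [e1, e2]

/-- the active run passes its letter -/
theorem Can.sweep {R' : Fin 3} (hR : rho ≠ R') (hi : p rho + 2 < u.length)
    (hj : p R' < u.length) (hp : plr R' (p R') = plr rho (p rho))
    (hh : h rho = true ∨ 3 < u.getD (p rho) 0)
    (hc : Can u n rho (update p rho (p rho + 1)) (update h rho false)) : Can u n rho p h := by
  intro T hT
  obtain ⟨lab, hl⟩ := hc T hT
  set p' := update p rho (p rho + 1) with hp'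
  have q1 : p' rho = p rho + 1 := by rw [hp', update_self]
  have q2 : ∀ R, R ≠ rho → p' R = p R := fun R hR => by rw [hp', update_of_ne hR]
  set lab' : Fin 3 → ℕ → ℕ := fun R i => if R = rho ∧ i = p rho then T else lab R i with hlab
  have l1 : lab' rho (p rho) = T := by rw [hlab]; simp
  have l2 : ∀ R i, ¬ (R = rho ∧ i = p rho) → lab' R i = lab R i := by
    intro R i hh; rw [hlab]; exact if_neg hh
  have l3 : ∀ R i, R ≠ rho → lab' R i = lab R i := fun R i hR => l2 R i (fun h => hR h.1)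
  -- a letter of another run has a larger label
  have big : ∀ R i, R ≠ rho → p R ≤ i → i < u.length → T < lab R i := by
    intro R i hR h1 h2
    have := (hl.lbd R i (by rw [q2 R hR]; exact h1) h2).1
    rw [if_neg hR] at this
    omega
  have low : ∀ i, p' rho ≤ i → i < u.length → T ≤ lab rho i := by
    intro i h1 h2
    have := (hl.lbd rho i h1 h2).1
    rw [if_pos rfl] at this
    exact this
  -- letters at or after p' versus p
  have cas : ∀ R i, p R ≤ i → (R = rho ∧ i = p rho) ∨ (p' R ≤ i ∧ ¬ (R = rho ∧ i = p rho)) := by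
    intro R i h1
    by_cases hR : R = rho
    · subst hR
      rcases Nat.eq_or_lt_of_le h1 with h2 | h2
      · exact Or.inl ⟨rfl, h2.symm⟩
      · exact Or.inr ⟨by omega, fun h => by omega⟩
    · exact Or.inr ⟨by rw [q2 R hR]; exact h1, fun h => hR h.1⟩
  refine ⟨lab', ?_, ?_, ?_, ?_, ?_⟩
  · intro R i h1 h2
    rcases cas R i h1 with ⟨rfl, rfl⟩ | ⟨h3, h4⟩
    · rw [l1, if_pos rfl]; omega
    · rw [l2 R i h4]; exact hl.lbd R i h3 h2
  · intro R i j h1 h2 h3
    rcases cas R i h1 with ⟨rfl, rfl⟩ | ⟨h4, h5⟩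
    · rw [l1]
      rcases cas R j (by omega) with ⟨_, rfl⟩ | ⟨h6, h7⟩
      · rw [l1]
      · rw [l2 R j h7]; exact low j h6 h3
    · rw [l2 R i h5, l2 R j (fun h => by obtain ⟨rfl, h'⟩ := h; rw [q1] at h4; omega)]
      exact hl.mono R i j h4 h2 h3
  · intro R Q hRQ i j h1 h2 h3 h4 h5
    rcases cas R i h1 with ⟨rfl, rfl⟩ | ⟨h6, h7⟩
    · rw [l1, l3 Q j (Ne.symm hRQ)] at h5
      have := big Q j (Ne.symm hRQ) h3 h4
      omega
    · rcases cas Q j h3 with ⟨rfl, rfl⟩ | ⟨h8, h9⟩
      · rw [l1, l3 R i hRQ] at h5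
        have := big R i hRQ h1 h2
        omega
      · rw [l2 R i h7, l2 Q j h9] at h5
        obtain ⟨c1, c2, c3, c4⟩ := hl.common R Q hRQ i j h6 h2 h8 h4 h5
        -- the common label is larger than `T`
        have hbig : T < lab R i := by
          by_cases hR1 : R = rho
          · have := big Q j (by rintro rfl; exact hRQ hR1) h3 h4
            omega
          · exact big R i hR1 h1 h2
        refine ⟨c1, ?_, ?_, c4⟩
        · intro k k1 k2 k3
          rw [l2 R i h7] at k3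
          rcases cas R k k1 with ⟨rfl, rfl⟩ | ⟨k4, k5⟩
          · rw [l1] at k3; omega
          · rw [l2 R k k5] at k3; exact c2 k k4 k2 k3
        · intro k k1 k2 k3
          rw [l2 Q j h9] at k3
          rcases cas Q k k1 with ⟨rfl, rfl⟩ | ⟨k4, k5⟩
          · rw [l1] at k3; omega
          · rw [l2 Q k k5] at k3; exact c3 k k4 k2 k3
  · intro R Q hRQ i h1 h2 h3
    rcases cas R i h1 with ⟨rfl, rfl⟩ | ⟨h6, h7⟩
    · have hQ : Q = R' := plr_other hR hp hRQ h3
      subst hQ
      refine ⟨p Q, le_refl _, hj, hp, ?_, fun k k1 k2 => by omega, fun h => by omega⟩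
      rw [l1, l3 Q _ (Ne.symm hRQ)]
      have := big Q (p Q) (Ne.symm hRQ) (le_refl _) hj
      omega
    · obtain ⟨j, j1, j2, j3, j4, j5, j6⟩ := hl.timing R Q hRQ i h6 h2 h3
      have j7 : ¬ (Q = rho ∧ j = p rho) := by
        rintro ⟨rfl, rfl⟩; rw [q1] at j1; omega
      have j8 : p Q ≤ j := by
        by_cases hQ : Q = rho
        · subst hQ; rw [q1] at j1; omega
        · rw [q2 Q hQ] at j1; exact j1
      refine ⟨j, j8, j2, j3, ?_, ?_, ?_⟩
      · rw [l2 R i h7, l2 Q j j7]; exact j4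
      · intro k k1 k2
        rcases cas Q k k1 with ⟨rfl, rfl⟩ | ⟨k4, k5⟩
        · rw [l1, l3 R i hRQ]
          exact big R i hRQ h1 h2
        · rw [l2 Q k k5, l2 R i h7]; exact j5 k k4 k2
      · intro hN
        rw [l2 R i h7, l2 Q j j7]; exact j6 hN
  · intro R Q hRQ i h1 h2 h3 h4 h5
    rcases cas R i h1 with ⟨rfl, rfl⟩ | ⟨h6, h7⟩
    · rcases hh with hh | hh
      · exact absurd ⟨rfl, hh⟩ h4
      · omega
    · have h8 : ¬ (i = p' R ∧ update h rho false R = true) := by
        rintro ⟨h9, h10⟩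
        by_cases hRr : R = rho
        · subst hRr; rw [update_self] at h10; exact absurd h10 (by simp)
        · rw [update_of_ne hRr] at h10
          rw [q2 R hRr] at h9
          exact h4 ⟨h9, h10⟩
      obtain ⟨j, j1, j2, j3, j4, j5, j6⟩ := hl.host R Q hRQ i h6 h2 h3 h8 h5
      have j7 : ¬ (Q = rho ∧ j = p rho) := by
        rintro ⟨rfl, rfl⟩; rw [q1] at j1; omega
      have j8 : p Q ≤ j := by
        by_cases hQ : Q = rho
        · subst hQ; rw [q1] at j1; omega
        · rw [q2 Q hQ] at j1; exact j1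
      refine ⟨j, j8, j2, j3, j4, ?_, ?_⟩
      · intro hi2
        rw [l2 Q j j7]
        rcases cas R (i - 2) (by omega) with ⟨rfl, k2⟩ | ⟨k4, k5⟩
        · rw [k2, l1]
          exact big Q j (Ne.symm hRQ) j8 j2
        · rw [l2 R _ k5]
          exact j5 (by omega)
      · intro hj2
        rw [l2 R i h7]
        rcases cas Q (j - 2) (by omega) with ⟨rfl, k2⟩ | ⟨k4, k5⟩
        · rw [k2, l1]
          exact big R i hRQ h1 h2
        · rw [l2 Q _ k5]
          exact j6 (by omega)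

theorem fin3_three : ∀ {R R' Q : Fin 3}, R ≠ R' → Q ≠ R → Q ≠ R' →
    ∀ S : Fin 3, S = Q ∨ S = R ∨ S = R' := by decide

/-- a cut of a player -/
theorem Can.cut {R R' rho' : Fin 3} (hR : R ≠ R') (h1 : rho' ≠ R) (h2 : rho' ≠ R')
    (hi : p R < u.length) (hj : p R' < u.length) (hp : plr R (p R) = plr R' (p R'))
    (hh : h R = true ∨ 3 < u.getD (p R) 0) (hh' : h R' = true ∨ 3 < u.getD (p R') 0)
    (hN : u.length ≤ p R + 2 ↔ u.length ≤ p R' + 2)
    (hc : Can u n rho' (fun Q => if Q = rho' then p Q else p Q + 1)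
      (fun Q => if Q = rho' then h Q else false)) : Can u (n + 1) rho p h := by
  intro T hT
  obtain ⟨lab, hl⟩ := hc (T + 2) (by omega)
  have three : ∀ Q : Fin 3, Q = rho' ∨ Q = R ∨ Q = R' := fin3_three hR h1 h2
  set p' : Fin 3 → ℕ := fun Q => if Q = rho' then p Q else p Q + 1 with hp'
  have q1 : p' rho' = p rho' := by rw [hp']; simp
  have q2 : ∀ Q, Q ≠ rho' → p' Q = p Q + 1 := fun Q hQ => by rw [hp']; simp [hQ]
  set lab' : Fin 3 → ℕ → ℕ := fun Q i => if Q ≠ rho' ∧ i = p Q then T + 1 else lab Q i with hlab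
  have l1 : ∀ Q, Q ≠ rho' → lab' Q (p Q) = T + 1 := fun Q hQ => by rw [hlab]; simp [hQ]
  have l2 : ∀ Q i, ¬ (Q ≠ rho' ∧ i = p Q) → lab' Q i = lab Q i := by
    intro Q i hh; rw [hlab]; exact if_neg hh
  have low : ∀ Q i, p' Q ≤ i → i < u.length → T + 2 ≤ lab Q i := by
    intro Q i h1 h2
    have := (hl.lbd Q i h1 h2).1
    split_ifs at this <;> omega
  have upp : ∀ Q i, p' Q ≤ i → i < u.length → lab Q i ≤ T + 2 * (n + 1) := by
    intro Q i h1 h2
    have := (hl.lbd Q i h1 h2).2
    omega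
  have cas : ∀ Q i, p Q ≤ i → (Q ≠ rho' ∧ i = p Q) ∨ (p' Q ≤ i ∧ ¬ (Q ≠ rho' ∧ i = p Q)) := by
    intro Q i g1
    by_cases hQ : Q = rho'
    · rw [hQ] at g1 ⊢
      exact Or.inr ⟨by rw [q1]; exact g1, fun h => h.1 rfl⟩
    · rcases Nat.eq_or_lt_of_le g1 with g2 | g2
      · exact Or.inl ⟨hQ, g2.symm⟩
      · exact Or.inr ⟨by rw [q2 Q hQ]; omega, fun h => by omega⟩
  have back : ∀ Q i, p' Q ≤ i → p Q ≤ i ∧ ¬ (Q ≠ rho' ∧ i = p Q) := by
    intro Q i g1
    by_cases hQ : Q = rho'
    · rw [hQ] at g1 ⊢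
      exact ⟨by rw [q1] at g1; exact g1, fun h => h.1 rfl⟩
    · rw [q2 Q hQ] at g1
      exact ⟨by omega, fun h => by omega⟩
  refine ⟨lab', ?_, ?_, ?_, ?_, ?_⟩
  · intro Q i k1 k2
    rcases cas Q i k1 with ⟨k3, rfl⟩ | ⟨k3, k4⟩
    · rw [l1 Q k3]
      constructor
      · split_ifs <;> omega
      · omega
    · rw [l2 Q i k4]
      have := low Q i k3 k2
      refine ⟨?_, upp Q i k3 k2⟩
      split_ifs <;> omega
  · intro Q i j k1 k2 k3
    rcases cas Q i k1 with ⟨k4, rfl⟩ | ⟨k4, k5⟩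
    · rw [l1 Q k4]
      rcases cas Q j (by omega) with ⟨_, rfl⟩ | ⟨k6, k7⟩
      · rw [l1 Q k4]
      · rw [l2 Q j k7]
        have := low Q j k6 k3
        omega
    · rw [l2 Q i k5, l2 Q j (back Q j (by omega)).2]
      exact hl.mono Q i j k4 k2 k3
  · intro Q Q' hQQ i j k1 k2 k3 k4 k5
    rcases cas Q i k1 with ⟨k6, rfl⟩ | ⟨k6, k7⟩
    · rcases cas Q' j k3 with ⟨k8, rfl⟩ | ⟨k8, k9⟩
      · have hu : ∀ S, S ≠ rho' → ∀ k, p S ≤ k → k < u.length → lab' S k = T + 1 → k = p S := by
          intro S hS k m1 m2 m3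
          rcases cas S k m1 with ⟨_, m4⟩ | ⟨m4, m5⟩
          · exact m4
          · rw [l2 S k m5] at m3
            have := low S k m4 m2
            omega
        have key : plr Q (p Q) = plr Q' (p Q') ∧
            (u.length ≤ p Q + 2 ↔ u.length ≤ p Q' + 2) := by
          rcases three Q with e | e | e
          · exact absurd e k6
          · rcases three Q' with e' | e' | e'
            · exact absurd e' k8
            · exact absurd (e.trans e'.symm) hQQ
            · rw [e, e']; exact ⟨hp, hN⟩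
          · rcases three Q' with e' | e' | e'
            · exact absurd e' k8
            · rw [e, e']; exact ⟨hp.symm, hN.symm⟩
            · exact absurd (e.trans e'.symm) hQQ
        refine ⟨key.1, ?_, ?_, key.2⟩
        · intro k m1 m2 m3
          rw [l1 Q k6] at m3
          exact hu Q k6 k m1 m2 m3
        · intro k m1 m2 m3
          rw [l1 Q' k8] at m3
          exact hu Q' k8 k m1 m2 m3
      · rw [l1 Q k6, l2 Q' j k9] at k5
        have := low Q' j k8 k4
        omega
    · rcases cas Q' j k3 with ⟨k8, rfl⟩ | ⟨k8, k9⟩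
      · rw [l1 Q' k8, l2 Q i k7] at k5
        have := low Q i k6 k2
        omega
      · rw [l2 Q i k7, l2 Q' j k9] at k5
        obtain ⟨c1, c2, c3, c4⟩ := hl.common Q Q' hQQ i j k6 k2 k8 k4 k5
        have g1 := low Q i k6 k2
        have g2 := low Q' j k8 k4
        refine ⟨c1, ?_, ?_, c4⟩
        · intro k m1 m2 m3
          rw [l2 Q i k7] at m3
          rcases cas Q k m1 with ⟨m4, rfl⟩ | ⟨m4, m5⟩
          · rw [l1 Q m4] at m3; omega
          · rw [l2 Q k m5] at m3; exact c2 k m4 m2 m3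
        · intro k m1 m2 m3
          rw [l2 Q' j k9] at m3
          rcases cas Q' k m1 with ⟨m4, rfl⟩ | ⟨m4, m5⟩
          · rw [l1 Q' m4] at m3; omega
          · rw [l2 Q' k m5] at m3; exact c3 k m4 m2 m3
  · intro Q Q' hQQ i k1 k2 k3
    rcases cas Q i k1 with ⟨k6, rfl⟩ | ⟨k6, k7⟩
    · have key : Q' ≠ rho' ∧ p Q' < u.length ∧ plr Q' (p Q') = plr Q (p Q) := by
        rcases three Q with e | e | e
        · exact absurd e k6
        · subst e
          have := plr_other hR hp.symm hQQ k3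
          subst this
          exact ⟨Ne.symm h2, hj, hp.symm⟩
        · subst e
          have := plr_other (Ne.symm hR) hp hQQ k3
          subst this
          exact ⟨Ne.symm h1, hi, hp⟩
      refine ⟨p Q', le_refl _, key.2.1, key.2.2, ?_, fun k m1 m2 => by omega, fun _ => ?_⟩
      · rw [l1 Q k6, l1 Q' key.1]
      · rw [l1 Q k6, l1 Q' key.1]
    · obtain ⟨j, j1, j2, j3, j4, j5, j6⟩ := hl.timing Q Q' hQQ i k6 k2 k3
      obtain ⟨j7, j8⟩ := back Q' j j1
      refine ⟨j, j7, j2, j3, ?_, ?_, ?_⟩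
      · rw [l2 Q i k7, l2 Q' j j8]; exact j4
      · intro k m1 m2
        rw [l2 Q i k7]
        rcases cas Q' k m1 with ⟨m4, rfl⟩ | ⟨m4, m5⟩
        · rw [l1 Q' m4]
          have := low Q i k6 k2
          omega
        · rw [l2 Q' k m5]; exact j5 k m4 m2
      · intro hN'
        rw [l2 Q i k7, l2 Q' j j8]; exact j6 hN'
  · intro Q Q' hQQ i k1 k2 k3 k4 k5
    rcases cas Q i k1 with ⟨k6, rfl⟩ | ⟨k6, k7⟩
    · exfalso
      rcases three Q with e | e | e
      · exact k6 e
      · subst e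
        rcases hh with hh | hh
        · exact k4 ⟨rfl, hh⟩
        · omega
      · subst e
        rcases hh' with hh | hh
        · exact k4 ⟨rfl, hh⟩
        · omega
    · have k8 : ¬ (i = p' Q ∧ (fun Q => if Q = rho' then h Q else false) Q = true) := by
        rintro ⟨m1, m2⟩
        by_cases hQ : Q = rho'
        · simp only [hQ, if_true] at m2
          rw [hQ, q1] at m1
          exact k4 ⟨by rw [hQ]; exact m1, by rw [hQ]; exact m2⟩
        · simp only [hQ, if_false] at m2
          exact absurd m2 (by simp)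
      obtain ⟨j, j1, j2, j3, j4, j5, j6⟩ := hl.host Q Q' hQQ i k6 k2 k3 k8 k5
      obtain ⟨j7, j8⟩ := back Q' j j1
      refine ⟨j, j7, j2, j3, j4, ?_, ?_⟩
      · intro hi2
        rw [l2 Q' j j8]
        rcases cas Q (i - 2) (by omega) with ⟨m4, m6⟩ | ⟨m4, m5⟩
        · rw [m6, l1 Q m4]
          have := low Q' j j1 j2
          omega
        · rw [l2 Q _ m5]
          by_cases hQ : Q = rho'
          · exact j5 (by rw [hQ, q1, ← hQ]; exact hi2)
          · rw [q2 Q hQ] at m4
            exact j5 (by rw [q2 Q hQ]; omega)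
      · intro hj2
        rw [l2 Q i k7]
        rcases cas Q' (j - 2) (by omega) with ⟨m4, m6⟩ | ⟨m4, m5⟩
        · rw [m6, l1 Q' m4]
          have := low Q i k6 k2
          omega
        · rw [l2 Q' _ m5]
          by_cases hQ : Q' = rho'
          · exact j6 (by rw [hQ, q1, ← hQ]; exact hj2)
          · rw [q2 Q' hQ] at m4
            exact j6 (by rw [q2 Q' hQ]; omega)

/-- from a play to labels -/
theorem Can.lab3 {w : List ℕ} {n : ℕ} {h : Fin 3 → Bool} (hh : ∀ R, h R = false)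
    (hc : Can (cw w) n 0 (fun _ => 0) h) : Lab3 (2 * n + 1) w := by
  intro hv
  obtain ⟨lab, hl⟩ := hc 1 (le_refl _)
  refine ⟨lab, ?_, ?_, ?_⟩
  · intro R i hi
    have := hl.lbd R i (Nat.zero_le _) hi
    split_ifs at this <;> omega
  · intro R i j hij hj
    exact hl.mono R i j (Nat.zero_le _) hij hj
  · refine ⟨?_, ?_, ?_⟩
    · intro R R' hR i hi j hj he
      obtain ⟨c1, c2, c3, c4⟩ := hl.common R R' hR i j (Nat.zero_le _) hi (Nat.zero_le _) hj he
      exact ⟨c1, fun k hk => c2 k (Nat.zero_le _) hk, fun k hk => c3 k (Nat.zero_le _) hk, c4⟩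
    · intro R R' hR i hi hex
      obtain ⟨j, _, j2, j3, j4, j5, j6⟩ := hl.timing R R' hR i (Nat.zero_le _) hi hex
      exact ⟨j, j2, j3, j4, fun k hk => j5 k (Nat.zero_le _) hk, j6⟩
    · intro R R' hR i hi hD hex
      obtain ⟨j, _, j2, j3, j4, j5, j6⟩ := hl.host R R' hR i (Nat.zero_le _) hi hD
        (by rw [hh R]; simp) hex
      refine ⟨j, j2, j3, j4, ?_, ?_⟩
      · unfold stL
        split_ifs with h1
        · have := (hl.lbd R' j (Nat.zero_le _) j2).1
          split_ifs at this <;> omega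
        · exact j5 (by omega)
      · unfold stL
        split_ifs with h1
        · have := (hl.lbd R i (Nat.zero_le _) hi).1
          split_ifs at this <;> omega
        · exact j6 (by omega)

end MPb6P
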