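import Pool.Agent.Lib.MP_b6d339_lc.Pos.XTreeC

/-!
# Erdős 592, positive side: the three classes of words

`F`: no letter of even index has the value `3`; `F3F`: exactly one; `F3I3F`: at least two.
-/

namespace MPb6P

/-- words with exactly one even letter `3` -/
def pF3F : List PE := [⟨0, 4, 4, 0⟩, ⟨1, 4, 4, 11⟩, ⟨0, 3, 3, 11⟩, ⟨1, 4, 4, 0⟩, ⟨0, 4, 4, 0⟩]

/-- words with at least two even letters `3` -/
def pF3I3F : List PE := [⟨0, 4, 4, 0⟩, ⟨1, 4, 4, 11⟩, ⟨0, 3, 3, 15⟩, ⟨0, 3, 3, 11⟩, ⟨1, 4, 4, 0⟩, ⟨0, 4, 4, 0⟩]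

/-- the top of the tree, and the tree of the words without even letters `3` -/
def topT : XT := .s2 64 (.s2 0 (.lp 76429452) (.s2 1089 (.lp 4901974801) (.s2 384 (.lp 19890185520332) (.s2 1025 (.lp 1272971591987985) (.lp 41712740763565863697))))) (.s2 193 (.rf 0) (.rf 1))

/-- the two classes -/
def topP : BT (List PE) := .node (.leaf pF3F) (.leaf pF3I3F)

theorem topP_ok {M : ℕ} (h1 : POK M pF3F) (h2 : POK M pF3I3F) (k : ℕ) : POK M (topP.get k) :=
  BT.Fa_get (P := fun p => POK M p) (t := topP)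
    (BT.Fa_mk (BT.Fa_leaf (P := fun p => POK M p) h1) (BT.Fa_leaf (P := fun p => POK M p) h2)) k

theorem topT_ok : chkX 60 (.leaf tdE) topP topT rootP = true := by decide +kernel

/-- **Three levels, from the two classes.** -/
theorem TT3_of_two {M : ℕ} (hM : 121 ≤ M) (h1 : POK M pF3F) (h2 : POK M pF3I3F) : TT 3 :=
  TT3_of_root (chkX_spec (K0 := 60) topT_ok (by omega) (fun _ => tdE_ok M) (topP_ok h1 h2))

end MPb6P
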