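import Pool.Agent.Lib.MP_b6d339_lc.Pos.XCov
import Pool.Agent.Lib.MP_b6d339_lc.Pos.WCov

/-!
# Erdős 592, positive side: a pattern which is covered by the states of a table
-/

namespace MPb6P

/-- the mask for the letter `c` of parity `p` -/
def SR.m (r : SR) (p c : ℕ) : ℕ :=
  if p = 0 then (if c = 1 then r.m1 else if c = 2 then r.m2 else r.m3)
  else (if c = 1 then r.m4 else if c = 2 then r.m5 else r.m6)

/-- the table accepts `w` from the state `q` with the parity `p` -/
def SAc (N : BT SR) : List ℕ → ℕ → ℕ → Prop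
  | [], p, q => p = 1 ∧ (N.get q).f ≠ 0
  | c :: w, p, q => ∃ t, ((N.get q).m p c).testBit t = true ∧ SAc N w (1 - p) ((N.get q).b + t)

/-- acceptance from a member of a list -/
def SAL (N : BT SR) (w : List ℕ) (p : ℕ) (S : List ℕ) : Prop := ∃ q ∈ S, SAc N w p q

/-- acceptance from a member of a mask -/
def SAM (N : BT SR) (w : List ℕ) (p m : ℕ) : Prop := ∃ q, m.testBit q = true ∧ SAc N w p q

/-- members of a packed list -/
def enx (c : ℕ) : List ℕ := Nat.digits 1048576 c

theorem enx_zero : enx 0 = [] := Nat.digits_zero _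

theorem enx_pos {c : ℕ} (h : c ≠ 0) : enx c = c % 1048576 :: enx (c / 1048576) :=
  Nat.digits_def' (by norm_num) (Nat.pos_of_ne_zero h)

/-- `sel` gives the successors for the parity `p` -/
def SelOK (sel : SR → (ℕ → ℕ → ℕ → ℕ → Bool) → Bool) (p : ℕ) : Prop :=
  ∀ r k, sel r k = k (r.m p 1 <<< r.b) (r.m p 2 <<< r.b) (r.m p 3 <<< r.b) r.f

theorem selE_ok : SelOK selE 0 := fun _ _ => rfl

theorem selO_ok : SelOK selO 1 := fun _ _ => rfl

/-- result of a pass for one letter -/
def PR (N : BT SR) (p i c a A : ℕ) : Prop := ∀ t, A.testBit t = true ↔ a.testBit t = true ∨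
  ∃ q ∈ enx c, ∃ s, t = (N.get q).b + s ∧ ((N.get q).m p i).testBit s = true

/-- result of a pass for the final flag -/
def PF (N : BT SR) (c f G : ℕ) : Prop := G ≠ 0 ↔ f ≠ 0 ∨ ∃ q ∈ enx c, (N.get q).f ≠ 0

theorem PR.zero (N : BT SR) (p i a : ℕ) : PR N p i 0 a a := by
  intro t
  rw [enx_zero]
  constructor
  · intro h; exact Or.inl h
  · rintro (h | ⟨q, h, -⟩)
    · exact h
    · exact absurd h (by simp)

theorem PF.zero (N : BT SR) (f : ℕ) : PF N 0 f f := by
  unfold PF
  rw [enx_zero]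
  constructor
  · intro h; exact Or.inl h
  · rintro (h | ⟨q, h, -⟩)
    · exact h
    · exact absurd h (by simp)

theorem PR.step {N : BT SR} {p i c a A : ℕ} (hc : c ≠ 0)
    (h : PR N p i (c / 1048576)
      (a ||| ((N.get (c % 1048576)).m p i <<< (N.get (c % 1048576)).b)) A) : PR N p i c a A := by
  intro t
  rw [h t, enx_pos hc, Nat.testBit_or, Bool.or_eq_true, Nat.testBit_shiftLeft, Bool.and_eq_true,
    decide_eq_true_eq]
  constructor
  · rintro ((h1 | ⟨h1, h2⟩) | ⟨q, h1, h2⟩)
    · exact Or.inl h1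
    · refine Or.inr ⟨c % 1048576, by simp, t - (N.get (c % 1048576)).b, by omega, h2⟩
    · exact Or.inr ⟨q, List.mem_cons_of_mem _ h1, h2⟩
  · rintro (h1 | ⟨q, h1, s, h2, h3⟩)
    · exact Or.inl (Or.inl h1)
    · rcases List.mem_cons.1 h1 with h4 | h4
      · subst h4
        left; right
        refine ⟨by omega, ?_⟩
        rw [h2, Nat.add_sub_cancel_left]; exact h3
      · exact Or.inr ⟨q, h4, s, h2, h3⟩

theorem lor_ne_zero {a b : ℕ} : a ||| b ≠ 0 ↔ a ≠ 0 ∨ b ≠ 0 := by
  constructor
  · intro h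
    by_contra h2
    push Not at h2
    rw [h2.1, h2.2] at h
    exact h rfl
  · rintro h h2
    have key : ∀ x : ℕ, x ≠ 0 → (∀ i, x.testBit i = true → (a ||| b).testBit i = true) → False := by
      intro x hx hi
      obtain ⟨i, h3⟩ := Nat.exists_testBit_of_ne_zero hx
      have := hi i h3
      rw [h2, Nat.zero_testBit] at this
      exact Bool.noConfusion this
    rcases h with h | h
    · exact key a h (fun i hi => by rw [Nat.testBit_or, hi]; rfl)
    · exact key b h (fun i hi => by rw [Nat.testBit_or, hi, Bool.or_true])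

theorem PF.step {N : BT SR} {c f G : ℕ} (hc : c ≠ 0)
    (h : PF N (c / 1048576) (f ||| (N.get (c % 1048576)).f) G) : PF N c f G := by
  unfold PF at h ⊢
  rw [h, enx_pos hc, lor_ne_zero]
  constructor
  · rintro ((h1 | h1) | ⟨q, h1, h2⟩)
    · exact Or.inl h1
    · exact Or.inr ⟨_, List.mem_cons_self, h1⟩
    · exact Or.inr ⟨q, List.mem_cons_of_mem _ h1, h2⟩
  · rintro (h1 | ⟨q, h1, h2⟩)
    · exact Or.inl (Or.inl h1)
    · rcases List.mem_cons.1 h1 with h4 | h4
      · subst h4
        exact Or.inl (Or.inr h2)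
      · exact Or.inr ⟨q, h4, h2⟩

theorem pas_spec {N : BT SR} {sel : SR → (ℕ → ℕ → ℕ → ℕ → Bool) → Bool} {p : ℕ}
    (hs : SelOK sel p) : ∀ (n c a1 a2 a3 f : ℕ) (k : ℕ → ℕ → ℕ → ℕ → Bool),
    pas N sel n c a1 a2 a3 f k = true → ∃ A1 A2 A3 G, k A1 A2 A3 G = true ∧ PR N p 1 c a1 A1 ∧
      PR N p 2 c a2 A2 ∧ PR N p 3 c a3 A3 ∧ PF N c f G := by
  intro n
  induction n with
  | zero => intro c a1 a2 a3 f k h; exact Bool.noConfusion (show false = true from h)
  | succ n ih =>
    intro c a1 a2 a3 f k h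
    rcases c with _ | c
    · exact ⟨a1, a2, a3, f, h, PR.zero _ _ _ _, PR.zero _ _ _ _, PR.zero _ _ _ _, PF.zero _ _⟩
    · have h' : sel (N.get ((c + 1) % 1048576)) (fun d1 d2 d3 g =>
          pas N sel n ((c + 1) / 1048576) (a1 ||| d1) (a2 ||| d2) (a3 ||| d3) (f ||| g) k)
          = true := h
      rw [hs] at h'
      obtain ⟨A1, A2, A3, G, e1, e2, e3, e4, e5⟩ := ih _ _ _ _ _ _ h'
      exact ⟨A1, A2, A3, G, e1, e2.step (by omega), e3.step (by omega), e4.step (by omega),
        e5.step (by omega)⟩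

/-- one step of a packed list -/
theorem PR.sam {N : BT SR} {p i c A : ℕ} (h : PR N p i c 0 A) (w : List ℕ) :
    SAM N w (1 - p) A ↔ SAL N (i :: w) p (enx c) := by
  constructor
  · rintro ⟨q, h1, h2⟩
    rcases (h q).1 h1 with h3 | ⟨r, h3, s, h4, h5⟩
    · rw [Nat.zero_testBit] at h3; exact Bool.noConfusion h3
    · exact ⟨r, h3, s, h5, by rw [← h4]; exact h2⟩
  · rintro ⟨r, h3, s, h5, h6⟩
    exact ⟨_, (h _).2 (Or.inr ⟨r, h3, s, rfl, h5⟩), h6⟩

theorem PF.fin {N : BT SR} {c G : ℕ} (h : PF N c 0 G) :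
    G ≠ 0 ↔ SAL N [] 1 (enx c) := by
  refine h.trans ?_
  constructor
  · rintro (h1 | ⟨q, h1, h2⟩)
    · exact absurd rfl h1
    · exact ⟨q, h1, rfl, h2⟩
  · rintro ⟨q, h1, -, h2⟩
    exact Or.inr ⟨q, h1, h2⟩

theorem ainN_spec {acc : ℕ} : ∀ (n c : ℕ), ainN acc n c = true →
    ∀ q ∈ enx c, acc.testBit q = true := by
  intro n
  induction n with
  | zero => intro c h; exact Bool.noConfusion (show false = true from h)
  | succ n ih =>
    intro c h q hq
    rcases c with _ | c
    · rw [enx_zero] at hq; exact absurd hq (by simp)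
    · have h' : band (tb acc ((c + 1) % 1048576)) (ainN acc n ((c + 1) / 1048576)) = true := h
      rw [band_iff, tb_eq] at h'
      rw [enx_pos (by omega)] at hq
      rcases List.mem_cons.1 hq with h4 | h4
      · rw [h4]; exact h'.1
      · exact ih _ h'.2 q h4

theorem addN_spec : ∀ (n c acc : ℕ) (k : ℕ → Bool), addN n c acc k = true →
    ∃ A, k A = true ∧ ∀ t, A.testBit t = true → acc.testBit t = true ∨ t ∈ enx c := by
  intro n
  induction n with
  | zero => intro c acc k h; exact Bool.noConfusion (show false = true from h)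
  | succ n ih =>
    intro c acc k h
    rcases c with _ | c
    · exact ⟨acc, h, fun t ht => Or.inl ht⟩
    · have h' : addN n ((c + 1) / 1048576) (acc ||| (1 <<< ((c + 1) % 1048576))) k = true := h
      obtain ⟨A, h1, h2⟩ := ih _ _ _ h'
      refine ⟨A, h1, fun t ht => ?_⟩
      rw [enx_pos (by omega)]
      rcases h2 t ht with h3 | h3
      · rw [Nat.testBit_or, Bool.or_eq_true] at h3
        rcases h3 with h3 | h3
        · exact Or.inl h3
        · right
          rw [Nat.testBit_shiftLeft, Bool.and_eq_true, decide_eq_true_eq] at h3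
          have h4 : t - (c + 1) % 1048576 = 0 := by
            have h5 := h3.2
            by_contra h6
            obtain ⟨z, hz⟩ := Nat.exists_eq_succ_of_ne_zero h6
            rw [hz, Nat.testBit_succ] at h5
            norm_num at h5
          have : t = (c + 1) % 1048576 := by omega
          rw [this]; exact List.mem_cons_self
      · exact Or.inr (List.mem_cons_of_mem _ h3)

/-- the meaning of a claim -/
def CW.Ok (N : BT SR) (X : List PE) (w : List ℕ) (r : CW) : Prop :=
  AcS X w (r.h % 2) (r.h / 4) → (r.h / 2 % 2 = 0 → SAL N w (r.h % 2) (enx r.L)) →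
    SAL N w (r.h % 2) (enx r.V)

/-- removal of the members of a mask -/
theorem xor_land_bit {a b s : ℕ} (ha : a.testBit s = true) (hb : b.testBit s = false) :
    (a ^^^ (a &&& b)).testBit s = true := by
  rw [Nat.testBit_xor, Nat.testBit_and, ha, hb]; rfl

theorem edx_spec {N : BT SR} {X : List PE} {w : List ℕ} {T : BT CW}
    (hT : ∀ j, (T.get j).Ok N X w) {g q x a L A s : ℕ} (hxs : Ac X w q s)
    (hL : a = 0 → SAM N w q L) : ∀ (n l need cm acc : ℕ), edx T g q x a L A n l need cm acc = true →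
      need.testBit s = true → (cm.testBit s = true → SAM N w q acc → SAM N w q A) →
      SAM N w q A := by
  intro n
  induction n with
  | zero => intro l need cm acc h; exact Bool.noConfusion (show false = true from h)
  | succ n ih =>
    intro l need cm acc h hn hc
    have hLa : Nat.land L acc = L → a = 0 → SAM N w q acc := by
      intro e1 e2
      obtain ⟨t, h1, h2⟩ := hL e2
      exact ⟨t, land_sub (beq_eq.2 e1) h1, h2⟩
    rcases l with _ | l
    · have h' : bor (Nat.beq need 0) (band (Nat.beq a 0) (band (Nat.beq (Nat.land L acc) L)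
        (Nat.beq (Nat.land need cm) need))) = true := h
      rw [bor_iff, band_iff, band_iff, beq_eq, beq_eq, beq_eq, beq_eq] at h'
      rcases h' with h' | ⟨e1, e2, e3⟩
      · rw [h', Nat.zero_testBit] at hn
        exact Bool.noConfusion hn
      · exact hc (land_sub (beq_eq.2 e3) hn) (hLa e2 e1)
    · have h' : Bool.rec (motive := fun _ => Bool)
        (CW.rec (motive := fun _ => Bool) (fun h L' V' _ _ _ =>
          band (Nat.beq (Nat.mod h 2) q) (band (ainN acc g V') (Nat.rec (motive := fun _ => Bool)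
            (addN g L' acc (fun acc' => edx T g q x a L A n ((l + 1) / 1048576) need
              (Nat.land cm (Nat.div h 4)) acc'))
            (fun _ _ => edx T g q x a L A n ((l + 1) / 1048576)
              (Nat.xor need (Nat.land need (Nat.land cm (Nat.div h 4)))) x A)
            (Nat.mod (Nat.div h 2) 2)))) (T.get ((l + 1) % 1048576)))
        (band (Nat.beq a 0) (band (Nat.beq (Nat.land L acc) L)
          (edx T g q x a L A n ((l + 1) / 1048576) (Nat.xor need (Nat.land need cm)) x A)))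
        (Nat.beq ((l + 1) % 1048576) 1048575) = true := h
      rcases hb : Nat.beq ((l + 1) % 1048576) 1048575 with _ | _
      · rw [hb] at h'
        have hj := hT ((l + 1) % 1048576)
        rcases hr : T.get ((l + 1) % 1048576) with ⟨h, L', V', k1, k2, k3⟩
        rw [hr] at h' hj
        have h'' : band (Nat.beq (h % 2) q) (band (ainN acc g V') (Nat.rec (motive := fun _ => Bool)
            (addN g L' acc (fun acc' => edx T g q x a L A n ((l + 1) / 1048576) need
              (Nat.land cm (h / 4)) acc'))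
            (fun _ _ => edx T g q x a L A n ((l + 1) / 1048576)
              (Nat.xor need (Nat.land need (Nat.land cm (h / 4)))) x A)
            (h / 2 % 2))) = true := h'
        rw [band_iff, band_iff, beq_eq] at h''
        obtain ⟨e1, e3, e4⟩ := h''
        have hx' : (h / 4).testBit s = true → AcS X w (h % 2) (h / 4) := fun e =>
          ⟨s, e, by rw [e1]; exact hxs⟩
        have hV : SAL N w (h % 2) (enx V') → SAM N w q acc := by
          rintro ⟨t, h1, h2⟩
          exact ⟨t, ainN_spec _ _ e3 _ h1, by rw [← e1]; exact h2⟩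
        rcases Nat.mod_two_eq_zero_or_one (h / 2) with e5 | e5
        · rw [e5] at e4
          have e4' : addN g L' acc (fun acc' => edx T g q x a L A n ((l + 1) / 1048576) need
              (cm &&& (h / 4)) acc') = true := e4
          obtain ⟨B, e6, e7⟩ := addN_spec _ _ _ _ e4'
          refine ih _ _ _ _ e6 hn (fun hcm => ?_)
          rw [Nat.testBit_and, Bool.and_eq_true] at hcm
          rintro ⟨t, h1, h2⟩
          rcases e7 _ h1 with h3 | h3
          · exact hc hcm.1 ⟨t, h3, h2⟩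
          · exact hc hcm.1 (hV (hj (hx' hcm.2) (fun _ => ⟨t, h3, by
              show SAc N w (h % 2) t; rw [e1]; exact h2⟩)))
        · rw [e5] at e4
          have e4' : edx T g q x a L A n ((l + 1) / 1048576)
              (need ^^^ (need &&& (cm &&& (h / 4)))) x A = true := e4
          rcases hcb : (cm &&& (h / 4)).testBit s with _ | _
          · exact ih _ _ _ _ e4' (xor_land_bit hn hcb) (fun _ hA => hA)
          · rw [Nat.testBit_and, Bool.and_eq_true] at hcb
            exact hc hcb.1 (hV (hj (hx' hcb.2) (fun h0 => by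
              have h0' : h / 2 % 2 = 0 := h0
              omega)))
      · rw [hb] at h'
        have h'' : band (Nat.beq a 0) (band (Nat.beq (Nat.land L acc) L)
          (edx T g q x a L A n ((l + 1) / 1048576) (need ^^^ (need &&& cm)) x A)) = true := h'
        rw [band_iff, band_iff, beq_eq, beq_eq] at h''
        obtain ⟨e1, e2, e3⟩ := h''
        rcases hcb : cm.testBit s with _ | _
        · exact ih _ _ _ _ e3 (xor_land_bit hn hcb) (fun _ hA => hA)
        · exact hc hcb (hLa e2 e1)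

theorem letx_spec {N : BT SR} {X : List PE} {w : List ℕ} {T : BT CW}
    (hT : ∀ j, (T.get j).Ok N X w) {g p q c st lt x a L A l L0 V0 : ℕ} (hM : MOf X p c st lt)
    (hq : q = 1 - p) (hL : PR N p c L0 0 L) (hV : PR N p c V0 0 A)
    (h : letx T g q st lt x a L A l = true) (hx : AcS X (c :: w) p x)
    (h1 : a = 0 → SAL N (c :: w) p (enx L0)) : SAL N (c :: w) p (enx V0) := by
  subst hq
  rw [← step_iff hM] at hx
  have h' : bor (Nat.beq (stpN st lt x) 0) (edx T g (1 - p) (stpN st lt x) a L A g l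
    (stpN st lt x) (stpN st lt x) A) = true := h
  rw [bor_iff, beq_eq] at h'
  obtain ⟨s, h2, h3⟩ := hx
  rcases h' with h' | h'
  · rw [h', Nat.zero_testBit] at h2
    exact Bool.noConfusion h2
  · rw [← hV.sam]
    exact edx_spec hT h3 (fun h0 => (hL.sam w).2 (h1 h0)) _ _ _ _ _ h' h2 (fun _ hA => hA)

variable {X : List PE} {s1 s2 s3 t1 t2 t3 u1 u2 u3 v1 v2 v3 fn : ℕ}

theorem cwB_spec (hM : MAll X s1 s2 s3 t1 t2 t3 u1 u2 u3 v1 v2 v3 fn) {N : BT SR} {T : BT CW}
    {g : ℕ} (h : ∀ j, cwB N T g s1 s2 s3 t1 t2 t3 u1 u2 u3 v1 v2 v3 fn (T.get j) = true) :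
    ∀ w : List ℕ, (∀ x ∈ w, 1 ≤ x ∧ x ≤ 3) → ∀ j, (T.get j).Ok N X w := by
  intro w
  induction w with
  | nil =>
    intro _ j
    have hj := h j
    rcases hr : T.get j with ⟨h, L, V, l1, l2, l3⟩
    rw [hr] at hj
    rintro ⟨s, k1, k2, k3⟩ hLL
    have hLL' : h / 2 % 2 = 0 → SAL N [] (h % 2) (enx L) := hLL
    have k1' : (h / 4).testBit s = true := k1
    have k2' : h % 2 = 1 := k2
    rw [k2'] at hLL'
    have hj' : Nat.rec (motive := fun _ => Bool)
      (pas N selE g L 0 0 0 0 fun L1 L2 L3 _ => pas N selE g V 0 0 0 0 fun V1 V2 V3 _ =>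
        band (letx T g 1 s1 t1 (h / 4) (h / 2 % 2) L1 V1 l1) (band
          (letx T g 1 s2 t2 (h / 4) (h / 2 % 2) L2 V2 l2)
          (letx T g 1 s3 t3 (h / 4) (h / 2 % 2) L3 V3 l3)))
      (fun _ _ =>
        pas N selO g L 0 0 0 0 fun L1 L2 L3 fL => pas N selO g V 0 0 0 0 fun V1 V2 V3 fV =>
        band (letx T g 0 u1 v1 (h / 4) (h / 2 % 2) L1 V1 l1) (band
          (letx T g 0 u2 v2 (h / 4) (h / 2 % 2) L2 V2 l2)
          (band (letx T g 0 u3 v3 (h / 4) (h / 2 % 2) L3 V3 l3)
          (bor (Nat.beq (Nat.land (Nat.mul 2 (h / 4)) fn) 0)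
            (bor (bnot (Nat.beq fV 0)) (band (Nat.beq (h / 2 % 2) 0) (Nat.beq fL 0)))))))
      (h % 2) = true := hj
    rw [k2'] at hj'
    obtain ⟨L1, L2, L3, fL, e1, -, -, -, e5⟩ := pas_spec selO_ok _ _ _ _ _ _ _ hj'
    obtain ⟨V1, V2, V3, fV, g1, -, -, -, g5⟩ := pas_spec selO_ok _ _ _ _ _ _ _ e1
    rw [band_iff, band_iff, band_iff, bor_iff, bor_iff, bnot_eq, band_iff, beq_eq, beq_eq] at g1
    obtain ⟨-, -, -, hf⟩ := g1
    show SAL N [] (h % 2) (enx V)
    rw [k2']
    have hxf : Nat.beq (Nat.land (Nat.mul 2 (h / 4)) fn) 0 = false :=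
      meets.2 ⟨s + 1, (testBit_dbl _ _).2 ⟨s, rfl, k1'⟩, (hM.f _).2 k3⟩
    rcases hf with hf | hf | ⟨hf1, hf2⟩
    · have hf' : Nat.beq (Nat.land (Nat.mul 2 (h / 4)) fn) 0 = true := by
        rw [beq_eq]; exact hf
      rw [hxf] at hf'; exact Bool.noConfusion hf'
    · refine g5.fin.1 ?_
      rw [Bool.not_eq_true', beq_ff] at hf
      exact hf
    · exact absurd (beq_eq.1 hf2) (e5.fin.2 (hLL' hf1))
  | cons c w ih =>
    intro hc j
    have hT := ih (fun x hx => hc x (List.mem_cons_of_mem _ hx))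
    have hc' := hc c (by simp)
    have hj := h j
    rcases hr : T.get j with ⟨h, L, V, l1, l2, l3⟩
    rw [hr] at hj
    intro hx0 hLL0
    have hx : AcS X (c :: w) (h % 2) (h / 4) := hx0
    have hLL : h / 2 % 2 = 0 → SAL N (c :: w) (h % 2) (enx L) := hLL0
    show SAL N (c :: w) (h % 2) (enx V)
    have hj' : Nat.rec (motive := fun _ => Bool)
      (pas N selE g L 0 0 0 0 fun L1 L2 L3 _ => pas N selE g V 0 0 0 0 fun V1 V2 V3 _ =>
        band (letx T g 1 s1 t1 (h / 4) (h / 2 % 2) L1 V1 l1) (band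
          (letx T g 1 s2 t2 (h / 4) (h / 2 % 2) L2 V2 l2)
          (letx T g 1 s3 t3 (h / 4) (h / 2 % 2) L3 V3 l3)))
      (fun _ _ =>
        pas N selO g L 0 0 0 0 fun L1 L2 L3 fL => pas N selO g V 0 0 0 0 fun V1 V2 V3 fV =>
        band (letx T g 0 u1 v1 (h / 4) (h / 2 % 2) L1 V1 l1) (band
          (letx T g 0 u2 v2 (h / 4) (h / 2 % 2) L2 V2 l2)
          (band (letx T g 0 u3 v3 (h / 4) (h / 2 % 2) L3 V3 l3)
          (bor (Nat.beq (Nat.land (Nat.mul 2 (h / 4)) fn) 0)
            (bor (bnot (Nat.beq fV 0)) (band (Nat.beq (h / 2 % 2) 0) (Nat.beq fL 0)))))))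
      (h % 2) = true := hj
    have hcc : c = 1 ∨ c = 2 ∨ c = 3 := by omega
    rcases Nat.mod_two_eq_zero_or_one h with k2 | k2
    · rw [k2] at hj' hx hLL ⊢
      obtain ⟨L1, L2, L3, fL, e1, e2, e3, e4, -⟩ := pas_spec selE_ok _ _ _ _ _ _ _ hj'
      obtain ⟨V1, V2, V3, fV, g1, g2, g3, g4, -⟩ := pas_spec selE_ok _ _ _ _ _ _ _ e1
      rw [band_iff, band_iff] at g1
      obtain ⟨q1, q2, q3⟩ := g1
      rcases hcc with rfl | rfl | rfl
      · exact letx_spec hT hM.a1 rfl e2 g2 q1 hx hLL
      · exact letx_spec hT hM.a2 rfl e3 g3 q2 hx hLL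
      · exact letx_spec hT hM.a3 rfl e4 g4 q3 hx hLL
    · rw [k2] at hj' hx hLL ⊢
      obtain ⟨L1, L2, L3, fL, e1, e2, e3, e4, -⟩ := pas_spec selO_ok _ _ _ _ _ _ _ hj'
      obtain ⟨V1, V2, V3, fV, g1, g2, g3, g4, -⟩ := pas_spec selO_ok _ _ _ _ _ _ _ e1
      rw [band_iff, band_iff, band_iff] at g1
      obtain ⟨q1, q2, q3, -⟩ := g1
      rcases hcc with rfl | rfl | rfl
      · exact letx_spec hT hM.b1 rfl e2 g2 q1 hx hLL
      · exact letx_spec hT hM.b2 rfl e3 g3 q2 hx hLL
      · exact letx_spec hT hM.b3 rfl e4 g4 q3 hx hLL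

end MPb6P
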