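import Pool.Agent.Lib.MP_b6d339_lc.Pos.XRole

/-!
# Erdős 592, positive side: tokens on patterns and the path checker
-/

namespace MPb6P

/-- a token: the entries from the current one on; the kind of the stop (`0`: at the letter of the
entry, `1`: the first letter after it, `2`: the last letter before the next entry); the index parity
of the current letter (`2`: the run is finished); bounds for the current letter; hosted -/
structure Tk where
  s : List PE
  t : ℕ
  e : ℕ
  l : ℕ
  h : ℕ
  f : Bool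

/-- a token at the first letter of the entries `s` -/
noncomputable def tkL (s : List PE) (k : Tk → Bool) : Bool :=
  match s with
  | [] => k ⟨[], 0, 2, 0, 0, false⟩
  | ⟨e, lo, hi, b⟩ :: s' => k ⟨⟨e, lo, hi, b⟩ :: s', 0, e, lo, hi, false⟩

/-- level of a block for a parity -/
noncomputable def lvB (b pe : ℕ) : ℕ := cond (Nat.beq pe 0) (Nat.div b 4) (Nat.mod b 4)

/-- maximum -/
noncomputable def mxB (a b : ℕ) : ℕ := cond (Nat.ble a b) b a

/-- a token at the first letter after the first entry -/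
noncomputable def tkF (s : List PE) (k : Tk → Bool) : Bool :=
  match s with
  | ⟨e, lo, hi, b⟩ :: ⟨e', lo', hi', b'⟩ :: s' =>
    frc (Nat.sub 1 e) fun pe => frc (lvB b pe) fun v =>
      frc (cond (bor (Nat.beq e e') (Nat.ble 4 lo')) v (mxB v hi')) fun h =>
        k ⟨⟨e, lo, hi, b⟩ :: ⟨e', lo', hi', b'⟩ :: s', 1, pe, 1, h, false⟩
  | _ => false

/-- a token at the last letter before the second entry -/
noncomputable def tkV (s : List PE) (k : Tk → Bool) : Bool :=
  match s with
  | ⟨e, lo, hi, b⟩ :: ⟨e', lo', hi', b'⟩ :: s' =>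
    frc (Nat.sub 1 e') fun pe => frc (lvB b pe) fun v =>
      frc (cond (bor (Nat.beq e e') (Nat.ble 4 lo)) v (mxB v hi)) fun h =>
        k ⟨⟨e, lo, hi, b⟩ :: ⟨e', lo', hi', b'⟩ :: s', 2, pe, 1, h, false⟩
  | _ => false

/-- pass one letter -/
noncomputable def one (s : List PE) (t : ℕ) (k : Tk → Bool) : Bool :=
  match s with
  | [] => false
  | ⟨e, lo, hi, b⟩ :: s' =>
    match t with
    | 0 => cond (Nat.beq b 0) (tkL s' k) (tkF (⟨e, lo, hi, b⟩ :: s') k)
    | 1 => false
    | _ + 2 => tkL s' k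

/-- pass a block up to its last letter -/
noncomputable def toV (s : List PE) (t : ℕ) (k : Tk → Bool) : Bool :=
  match s with
  | ⟨e, lo, hi, b⟩ :: ⟨e', lo', hi', b'⟩ :: s' =>
    match t with
    | 0 => cond (Nat.beq b 0) false (tkV (⟨e, lo, hi, b⟩ :: ⟨e', lo', hi', b'⟩ :: s') k)
    | 1 => cond (Nat.beq e e') (tkV (⟨e, lo, hi, b⟩ :: ⟨e', lo', hi', b'⟩ :: s') k) false
    | _ + 2 => false
  | _ => false

/-- pass a block -/
noncomputable def toJ (s : List PE) (t : ℕ) (k : Tk → Bool) : Bool :=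
  match s with
  | [] => false
  | ⟨_, _, _, b⟩ :: s' =>
    match t with
    | 0 => cond (Nat.beq b 0) false (tkL s' k)
    | 1 => tkL s' k
    | _ + 2 => false

/-- at least three entries -/
noncomputable def three (s : List PE) : Bool :=
  match s with
  | _ :: _ :: _ :: _ => true
  | _ => false

/-- the token is at one of the last two letters -/
noncomputable def lst2 (s : List PE) (t : ℕ) : Bool :=
  match t with
  | 0 =>
    match s with
    | [⟨_, _, _, b⟩] => Nat.beq b 0
    | [⟨_, _, _, b⟩, ⟨_, _, _, b'⟩] => band (Nat.beq b 0) (Nat.beq b' 0)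
    | _ => false
  | _ + 1 => false

/-- the block after the first entry is hosted by letters of values `lB`, `lC` -/
noncomputable def blkH (s : List PE) (lB lC : ℕ) : Bool :=
  match s with
  | [] => false
  | ⟨_, _, _, b⟩ :: _ => band (Nat.ble (Nat.div b 4) lB) (Nat.ble (Nat.mod b 4) lC)

/-- the semantics of the place of a token -/
def St (u : List ℕ) (s : List PE) (t i : ℕ) : Prop :=
  match s with
  | [] => i = u.length
  | x :: s' => (t = 0 ∧ Mt u (x :: s') i) ∨
      (t = 1 ∧ i % 2 = 1 - x.e ∧ ∃ j, i ≤ j ∧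
        (∀ m, i ≤ m → m < j → u.getD m 0 ≤ blv x.b m) ∧ Mt u s' j) ∨
      (2 ≤ t ∧ Mt u s' (i + 1))

/-- the semantics of a token -/
structure TkR (u : List ℕ) (X : Tk) (i : ℕ) : Prop where
  st : St u X.s X.t i
  e : (X.e < 2 ∧ i < u.length ∧ i % 2 = X.e) ∨ (X.e = 2 ∧ i = u.length)
  l : X.l ≤ u.getD i 0
  h : u.getD i 0 ≤ X.h ∨ 3 < u.getD i 0

section spec

variable {u : List ℕ}

theorem lvB_eq {b pe m : ℕ} (h : m % 2 = pe) : lvB b pe = blv b m := by
  unfold lvB blv
  by_cases h0 : pe = 0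
  · subst h0
    rw [if_pos h]; rfl
  · have : Nat.beq pe 0 = false := beq_ff.2 h0
    rw [this, if_neg (by omega)]; rfl

theorem mxB_left (a b : ℕ) : a ≤ mxB a b := by
  unfold mxB
  cases h : Nat.ble a b with
  | true => exact ble_eq'.1 h
  | false => exact le_refl _

theorem mxB_right (a b : ℕ) : b ≤ mxB a b := by
  unfold mxB
  cases h : Nat.ble a b with
  | true => exact le_refl _
  | false =>
    have : ¬ a ≤ b := by rw [← ble_eq', h]; simp
    show b ≤ a
    omega

theorem tkL_spec {s : List PE} {k : Tk → Bool} {i : ℕ} (h : tkL s k = true) (hm : Mt u s i) :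
    ∃ X, k X = true ∧ TkR u X i ∧ X.f = false := by
  rcases s with _ | ⟨⟨e, lo, hi, b⟩, s'⟩
  · refine ⟨_, h, ⟨hm, Or.inr ⟨rfl, hm⟩, Nat.zero_le _, Or.inl ?_⟩, rfl⟩
    have : i = u.length := hm
    rw [this]
    simp
  · have hm' := hm
    obtain ⟨h1, h2, h3, h4, _⟩ := hm
    exact ⟨_, h, ⟨Or.inl ⟨rfl, hm'⟩, Or.inl ⟨by
      have h2' : i % 2 = e := h2
      show e < 2; omega, h1, h2⟩, h3,
      Or.inl h4⟩, rfl⟩

theorem tkF_spec (hu : ∀ i < u.length, 1 ≤ u.getD i 0) {x : PE} {s' : List PE} {k : Tk → Bool} {i j : ℕ}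
    (h : tkF (x :: s') k = true) (hi : i % 2 = x.e) (hij : i < j)
    (hb : ∀ m, i < m → m < j → 1 ≤ u.getD m 0 ∧ u.getD m 0 ≤ blv x.b m) (hm : Mt u s' j) :
    ∃ X, k X = true ∧ TkR u X (i + 1) ∧ X.f = false := by
  obtain ⟨e, lo, hii, b⟩ := x
  rcases s' with _ | ⟨⟨e', lo', hi', b'⟩, s''⟩
  · exact absurd h (by simp [tkF])
  · obtain ⟨m1, m2, m3, m4, m5⟩ := hm
    simp only at m2 m3 m4 hi
    have hpe : (i + 1) % 2 = 1 - e := by omega
    refine ⟨_, h, ⟨Or.inr (Or.inl ⟨rfl, hpe, j, hij, fun m k1 k2 => (hb m k1 k2).2,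
      ⟨m1, m2, m3, m4, m5⟩⟩), Or.inl ⟨?_, ?_, hpe⟩, ?_, ?_⟩, rfl⟩
    · show 1 - e < 2
      omega
    · omega
    · exact hu _ (by omega)
    · show u.getD (i + 1) 0 ≤ cond (bor (Nat.beq e e') (Nat.ble 4 lo')) (lvB b (1 - e))
        (mxB (lvB b (1 - e)) hi') ∨ _
      rcases Nat.eq_or_lt_of_le (Nat.succ_le_of_lt hij) with h5 | h5
      · have hne : Nat.beq e e' = false := beq_ff.2 (by omega)
        have h6 : i + 1 = j := h5
        rw [h6]
        cases h7 : Nat.ble 4 lo' with
        | true =>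
          right
          have := ble_eq'.1 h7
          omega
        | false =>
          left
          rw [hne]
          exact le_trans m4 (mxB_right _ _)
      · left
        have h6 := (hb (i + 1) (by omega) h5).2
        have h7 : u.getD (i + 1) 0 ≤ lvB b (1 - e) := by rw [lvB_eq hpe]; exact h6
        cases bor (Nat.beq e e') (Nat.ble 4 lo') with
        | true => exact h7
        | false => exact le_trans h7 (mxB_left _ _)

theorem tkV_spec (hu : ∀ i < u.length, 1 ≤ u.getD i 0) {x : PE} {s' : List PE} {k : Tk → Bool} {i : ℕ}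
    (h : tkV (x :: s') k = true) (hm : Mt u s' (i + 1))
    (hv : u.getD i 0 ≤ blv x.b i ∨ (i % 2 = x.e ∧ x.lo ≤ u.getD i 0 ∧ u.getD i 0 ≤ x.hi)) :
    ∃ X, k X = true ∧ TkR u X i ∧ X.f = false := by
  obtain ⟨e, lo, hii, b⟩ := x
  rcases s' with _ | ⟨⟨e', lo', hi', b'⟩, s''⟩
  · exact absurd h (by simp [tkV])
  · obtain ⟨m1, m2, m3, m4, m5⟩ := hm
    simp only at m2 m3 m4 hv
    have hpe : i % 2 = 1 - e' := by omega
    refine ⟨_, h, ⟨Or.inr (Or.inr ⟨le_refl _, ⟨m1, m2, m3, m4, m5⟩⟩),
      Or.inl ⟨?_, ?_, hpe⟩, ?_, ?_⟩, rfl⟩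
    · show 1 - e' < 2
      omega
    · omega
    · exact hu _ (by omega)
    · show u.getD i 0 ≤ cond (bor (Nat.beq e e') (Nat.ble 4 lo)) (lvB b (1 - e'))
        (mxB (lvB b (1 - e')) hii) ∨ _
      rcases hv with h6 | ⟨h6, h7, h8⟩
      · left
        have h7 : u.getD i 0 ≤ lvB b (1 - e') := by rw [lvB_eq hpe]; exact h6
        cases bor (Nat.beq e e') (Nat.ble 4 lo) with
        | true => exact h7
        | false => exact le_trans h7 (mxB_left _ _)
      · have hne : Nat.beq e e' = false := beq_ff.2 (by omega)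
        cases h9 : Nat.ble 4 lo with
        | true =>
          right
          have := ble_eq'.1 h9
          omega
        | false =>
          left
          rw [hne]
          exact le_trans h8 (mxB_right _ _)

theorem one_spec (hu : ∀ i < u.length, 1 ≤ u.getD i 0) {s : List PE} {t : ℕ} {k : Tk → Bool} {i : ℕ} (h : one s t k = true)
    (hs : St u s t i) : ∃ X, k X = true ∧ TkR u X (i + 1) ∧ X.f = false := by
  rcases s with _ | ⟨x, s'⟩
  · exact absurd h (by simp [one])
  · rcases hs with ⟨rfl, hs⟩ | ⟨rfl, hs⟩ | ⟨ht, hs⟩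
    · obtain ⟨h1, h2, h3, h4, h5⟩ := hs
      have h' : cond (Nat.beq x.b 0) (tkL s' k) (tkF (x :: s') k) = true := h
      rcases h5 with ⟨h6, h7⟩ | ⟨h6, j, h7, h8, h9⟩
      · rw [h6] at h'
        exact tkL_spec h' h7
      · rw [beq_ff.2 h6] at h'
        exact tkF_spec hu h' h2 h7 h8 h9
    · exact absurd h (by simp [one])
    · obtain ⟨t', rfl⟩ : ∃ t', t = t' + 2 := ⟨t - 2, by omega⟩
      exact tkL_spec (k := k) h hs

theorem three_spec {s : List PE} {t i : ℕ} (h : three s = true) (hs : St u s t i) :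
    i + 2 < u.length ∨ (t = 1 ∧ i + 1 < u.length) := by
  rcases s with _ | ⟨x, _ | ⟨y, _ | ⟨z, s'⟩⟩⟩
  · exact absurd h (by simp [three])
  · exact absurd h (by simp [three])
  · exact absurd h (by simp [three])
  · have key : ∀ j, Mt u (y :: z :: s') j → j + 1 < u.length := by
      intro j hj
      obtain ⟨_, _, _, _, hj⟩ := hj
      rcases hj with ⟨_, hj⟩ | ⟨_, j', h1, _, hj⟩
      · exact hj.1
      · have := hj.1; omega
    rcases hs with ⟨_, hs⟩ | ⟨ht, _, j, h1, _, hs⟩ | ⟨ht, hs⟩
    · left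
      obtain ⟨_, _, _, _, hj⟩ := hs
      rcases hj with ⟨_, hj⟩ | ⟨_, j', h1, _, hj⟩
      · have := key _ hj; omega
      · have := key _ hj; omega
    · right
      have := key _ hs
      exact ⟨ht, by omega⟩
    · left
      have := key _ hs
      omega

theorem lst2_spec {s : List PE} {t i : ℕ} (h : lst2 s t = true) (hs : St u s t i) :
    u.length ≤ i + 2 := by
  rcases t with _ | t
  · rcases s with _ | ⟨⟨e, lo, hi, b⟩, _ | ⟨⟨e', lo', hi', b'⟩, _ | ⟨z, s'⟩⟩⟩
    · exact absurd h (by simp [lst2])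
    · have h1 : b = 0 := beq_eq.1 h
      rcases hs with ⟨_, hs⟩ | ⟨ht, _⟩ | ⟨ht, _⟩
      · obtain ⟨_, _, _, _, hj⟩ := hs
        rcases hj with ⟨_, hj⟩ | ⟨h2, _⟩
        · have : i + 1 = u.length := hj
          omega
        · exact absurd h1 h2
      · omega
      · omega
    · have h1 : band (Nat.beq b 0) (Nat.beq b' 0) = true := h
      rw [band_eq, Bool.and_eq_true, beq_eq, beq_eq] at h1
      rcases hs with ⟨_, hs⟩ | ⟨ht, _⟩ | ⟨ht, _⟩
      · obtain ⟨_, _, _, _, hj⟩ := hs
        rcases hj with ⟨_, hj⟩ | ⟨h2, _⟩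
        · obtain ⟨_, _, _, _, hj⟩ := hj
          rcases hj with ⟨_, hj⟩ | ⟨h2, _⟩
          · have : i + 1 + 1 = u.length := hj
            omega
          · exact absurd h1.2 h2
        · exact absurd h1.1 h2
      · omega
      · omega
    · exact absurd h (by simp [lst2])
  · exact absurd h (by simp [lst2])

theorem blkH_spec {x : PE} {s : List PE} {lB lC m : ℕ} (h : blkH (x :: s) lB lC = true) :
    blv x.b m ≤ (if m % 2 = 0 then lB else lC) := by
  obtain ⟨e, lo, hi, b⟩ := x
  have h1 : band (Nat.ble (Nat.div b 4) lB) (Nat.ble (Nat.mod b 4) lC) = true := h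
  rw [band_eq, Bool.and_eq_true, ble_eq', ble_eq'] at h1
  unfold blv
  split_ifs
  · exact h1.1
  · exact h1.2

/-- passing a block up to its last letter -/
theorem toV_spec (hu : ∀ i < u.length, 1 ≤ u.getD i 0) {s : List PE} {t : ℕ} {k : Tk → Bool}
    {i : ℕ} (h : toV s t k = true) (hs : St u s t i) (h3 : three s = true) : ∃ X i', k X = true ∧ TkR u X i' ∧ X.f = false ∧
      ((t = 0 ∧ i' = i) ∨ (i + (if t = 0 then 1 else 0) ≤ i' ∧
        ∀ m, i + (if t = 0 then 1 else 0) ≤ m → m < i' →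
          ∀ x ∈ s.head?, u.getD m 0 ≤ blv x.b m)) ∧ i' + 2 < u.length := by
  rcases s with _ | ⟨x, _ | ⟨y, s'⟩⟩
  · exact absurd h (by simp [toV])
  · exact absurd h (by simp [toV])
  · have key : ∀ j, Mt u (y :: s') j → j + 1 < u.length := by
      intro j hj
      rcases s' with _ | ⟨z, s''⟩
      · exact absurd h3 (by simp [three])
      · obtain ⟨_, _, _, _, hj⟩ := hj
        rcases hj with ⟨_, hj⟩ | ⟨_, j', h1, _, hj⟩
        · exact hj.1
        · have := hj.1; omega
    rcases hs with ⟨rfl, hs⟩ | ⟨rfl, h9, j, h5, h6, hs⟩ | ⟨ht, _⟩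
    · have h' : cond (Nat.beq x.b 0) false (tkV (x :: y :: s') k) = true := h
      obtain ⟨g1, g2, g3, g4, g5⟩ := hs
      rcases g5 with ⟨g6, _⟩ | ⟨g6, j, g7, g8, g9⟩
      · rw [g6] at h'
        exact absurd h' (by simp [Nat.beq])
      · rw [beq_ff.2 g6] at h'
        have h' : tkV (x :: y :: s') k = true := h'
        have g10 : Mt u (y :: s') (j - 1 + 1) := by rw [Nat.sub_add_cancel (by omega)]; exact g9
        have gj := key j g9
        rcases Nat.eq_or_lt_of_le (Nat.succ_le_of_lt g7) with g11 | g11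
        · have g12 : j - 1 = i := by omega
          obtain ⟨X, q1, q2, q3⟩ := tkV_spec hu h' g10 (Or.inr (by rw [g12]; exact ⟨g2, g3, g4⟩))
          exact ⟨X, j - 1, q1, q2, q3, Or.inl ⟨rfl, g12⟩, by omega⟩
        · obtain ⟨X, q1, q2, q3⟩ := tkV_spec hu h' g10 (Or.inl (g8 _ (by omega) (by omega)).2)
          refine ⟨X, j - 1, q1, q2, q3, Or.inr ⟨?_, ?_⟩, by omega⟩
          · rw [if_pos rfl]; omega
          · intro m m1 m2 x' hx'
            rw [if_pos rfl] at m1
            have : x = x' := by simpa using hx'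
            rw [← this]
            exact (g8 m (by omega) (by omega)).2
    · have h' : cond (Nat.beq x.e y.e) (tkV (x :: y :: s') k) false = true := h
      cases h7 : Nat.beq x.e y.e with
      | false => rw [h7] at h'; exact absurd h' (by simp)
      | true =>
        rw [h7] at h'
        have h' : tkV (x :: y :: s') k = true := h'
        have h8 : x.e = y.e := beq_eq.1 h7
        have h10 := hs.2.1
        have gj := key j hs
        have h11 : i < j := by
          rcases Nat.eq_or_lt_of_le h5 with h | h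
          · omega
          · exact h
        have g10 : Mt u (y :: s') (j - 1 + 1) := by rw [Nat.sub_add_cancel (by omega)]; exact hs
        obtain ⟨X, q1, q2, q3⟩ := tkV_spec hu h' g10 (Or.inl (h6 _ (by omega) (by omega)))
        refine ⟨X, j - 1, q1, q2, q3, Or.inr ⟨?_, ?_⟩, by omega⟩
        · rw [if_neg (by omega)]; omega
        · intro m m1 m2 x' hx'
          rw [if_neg (by omega)] at m1
          have : x = x' := by simpa using hx'
          rw [← this]
          exact h6 m (by omega) (by omega)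
    · obtain ⟨t', rfl⟩ : ∃ t', t = t' + 2 := ⟨t - 2, by omega⟩
      exact absurd h (by simp [toV])

/-- passing a block -/
theorem toJ_spec {s : List PE} {t : ℕ} {k : Tk → Bool}
    {i : ℕ} (h : toJ s t k = true) (hs : St u s t i)
    (h3 : three s = true) : ∃ X i', k X = true ∧ TkR u X i' ∧ X.f = false ∧
      (i + (if t = 0 then 1 else 0) ≤ i' ∧ ∀ m, i + (if t = 0 then 1 else 0) ≤ m → m < i' →
          ∀ x ∈ s.head?, u.getD m 0 ≤ blv x.b m) ∧ i' + 1 < u.length := by
  rcases s with _ | ⟨x, _ | ⟨y, s'⟩⟩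
  · exact absurd h (by simp [toJ])
  · exact absurd h3 (by simp [three])
  · have key : ∀ j, Mt u (y :: s') j → j + 1 < u.length := by
      intro j hj
      rcases s' with _ | ⟨z, s''⟩
      · exact absurd h3 (by simp [three])
      · obtain ⟨_, _, _, _, hj⟩ := hj
        rcases hj with ⟨_, hj⟩ | ⟨_, j', h1, _, hj⟩
        · exact hj.1
        · have := hj.1; omega
    rcases hs with ⟨rfl, hs⟩ | ⟨rfl, _, j, h5, h6, hs⟩ | ⟨ht, _⟩
    · have h' : cond (Nat.beq x.b 0) false (tkL (y :: s') k) = true := h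
      obtain ⟨g1, g2, g3, g4, g5⟩ := hs
      rcases g5 with ⟨g6, _⟩ | ⟨g6, j, g7, g8, g9⟩
      · rw [g6] at h'
        exact absurd h' (by simp [Nat.beq])
      · rw [beq_ff.2 g6] at h'
        have h' : tkL (y :: s') k = true := h'
        obtain ⟨X, q1, q2, q3⟩ := tkL_spec h' g9
        refine ⟨X, j, q1, q2, q3, ⟨?_, ?_⟩, key j g9⟩
        · rw [if_pos rfl]; omega
        · intro m m1 m2 x' hx'
          rw [if_pos rfl] at m1
          have : x = x' := by simpa using hx'
          rw [← this]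
          exact (g8 m (by omega) (by omega)).2
    · have h' : tkL (y :: s') k = true := h
      obtain ⟨X, q1, q2, q3⟩ := tkL_spec h' hs
      refine ⟨X, j, q1, q2, q3, ⟨?_, ?_⟩, key j hs⟩
      · rw [if_neg (by omega)]; omega
      · intro m m1 m2 x' hx'
        have : x = x' := by simpa using hx'
        rw [← this]
        exact h6 m (by simpa using m1) m2
    · obtain ⟨t', rfl⟩ : ∃ t', t = t' + 2 := ⟨t - 2, by omega⟩
      exact absurd h (by simp [toJ])

end spec

end MPb6P
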