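import Pool.Agent.Lib.MP_b6d339_lc.Pos.XPath

/-!
# Erdős 592, positive side: the path checker
-/

namespace MPb6P

/-- evaluation of the argument before the function is called -/
noncomputable def frcB (b : Bool) (k : Bool → Bool) : Bool :=
  Bool.rec (motive := fun _ => Bool) (k false) (k true) b

theorem frcB_eq (b : Bool) (k : Bool → Bool) : frcB b k = k b := by cases b <;> rfl

/-- the letter may be passed -/
noncomputable def hstd (f : Bool) (l : ℕ) : Bool := bor f (Nat.ble 4 l)

/-- the letter of the entry may be passed, if the token is there -/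
noncomputable def hst0 (t : ℕ) (f : Bool) (l : ℕ) : Bool :=
  match t with
  | 0 => hstd f l
  | _ + 1 => true

/-- a move of the active run: `1` one letter, `2` to the last letter of the block, `3` across the
block -/
noncomputable def swp (d : ℕ) (s : List PE) (t l : ℕ) (f : Bool) (lB lC : ℕ) (k : Tk → Bool) :
    Bool :=
  band (three s) (match d with
    | 0 => false
    | 1 => band (hstd f l) (one s t k)
    | 2 => band (blkH s lB lC) (band (hst0 t f l) (toV s t k))
    | _ + 3 => band (blkH s lB lC) (band (hst0 t f l) (toJ s t k)))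

/-- both tokens are at one of the last two letters, or both are not -/
noncomputable def lstOK (s s' : List PE) (t t' : ℕ) : Bool :=
  bor (band (three s) (three s')) (band (lst2 s t) (lst2 s' t'))

/-- expected parities of the partners -/
noncomputable def ePn (rho : ℕ) : ℕ := cond (Nat.beq rho 2) 1 0

/-- expected parities of the partners -/
noncomputable def eQn (rho : ℕ) : ℕ := cond (Nat.beq rho 0) 0 1

/-- no entries left -/
noncomputable def nilB (s : List PE) : Bool :=
  match s with
  | [] => true
  | _ :: _ => false

/-- continuations: path, cuts left, active run, the tokens of the active run and its partners -/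
abbrev Kt : Type := ℕ → ℕ → ℕ → Tk → Tk → Tk → Bool

/-- a cut with the even partner -/
noncomputable def cutP (ih : Kt) (path n rho : ℕ) (sA : List PE) (tA lA : ℕ) (fa : Bool)
    (sB : List PE) (tB lB : ℕ) (fb : Bool) (C : Tk) : Bool :=
  match n with
  | 0 => false
  | n' + 1 => band (hstd fa lA) (band (hstd fb lB) (band (lstOK sA sB tA tB)
      (one sA tA fun A' => one sB tB fun B' =>
        cond (Nat.beq rho 0) (ih path n' 2 C A' B')
          (cond (Nat.beq rho 1) (ih path n' 2 C B' A') (ih path n' 1 C B' A')))))

/-- a cut with the odd partner -/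
noncomputable def cutQ (ih : Kt) (path n rho : ℕ) (sA : List PE) (tA lA : ℕ) (fa : Bool)
    (sC : List PE) (tC lC : ℕ) (fc : Bool) (B : Tk) : Bool :=
  match n with
  | 0 => false
  | n' + 1 => band (hstd fa lA) (band (hstd fc lC) (band (lstOK sA sC tA tC)
      (one sA tA fun A' => one sC tC fun C' =>
        cond (Nat.beq rho 0) (ih path n' 1 B A' C')
          (cond (Nat.beq rho 1) (ih path n' 0 B A' C') (ih path n' 0 B C' A')))))

/-- one step of the checker -/
noncomputable def playB (ih : Kt) (path n rho : ℕ) (A B C : Tk) : Bool :=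
  match A with
  | ⟨sA, tA, eA, lA, hA, fA⟩ =>
  match B with
  | ⟨sB, tB, eB, lB, hB, fB⟩ =>
  match C with
  | ⟨sC, tC, eC, lC, hC, fC⟩ =>
  frc (Nat.mod path 8) fun d => frc (Nat.div path 8) fun path' =>
  match d with
  | 0 => band (nilB sA) (band (nilB sB) (nilB sC))
  | d' + 1 =>
    match eA with
    | 0 => band (Nat.beq eB (ePn rho)) (frcB (bor fA (Nat.ble hA lB)) fun fa =>
        frcB (bor fB (Nat.ble hB lA)) fun fb =>
          cond (Nat.beq d' 3)
            (cutP ih path' n rho sA tA lA fa sB tB lB fb ⟨sC, tC, eC, lC, hC, fC⟩)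
            (band (Nat.beq eC (eQn rho)) (swp (d' + 1) sA tA lA fa lB lC fun A' =>
              ih path' n rho A' ⟨sB, tB, eB, lB, hB, fb⟩ ⟨sC, tC, eC, lC, hC, fC⟩)))
    | 1 => band (Nat.beq eC (eQn rho)) (frcB (bor fA (Nat.ble hA lC)) fun fa =>
        frcB (bor fC (Nat.ble hC lA)) fun fc =>
          cond (Nat.beq d' 3)
            (cutQ ih path' n rho sA tA lA fa sC tC lC fc ⟨sB, tB, eB, lB, hB, fB⟩)
            (band (Nat.beq eB (ePn rho)) (swp (d' + 1) sA tA lA fa lB lC fun A' =>
              ih path' n rho A' ⟨sB, tB, eB, lB, hB, fB⟩ ⟨sC, tC, eC, lC, hC, fc⟩)))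
    | _ + 2 => false

/-- the path checker -/
noncomputable def play (fuel : ℕ) : Kt :=
  Nat.rec (motive := fun _ => Kt) (fun _ _ _ _ _ _ => false) (fun _ ih => playB ih) fuel

theorem play_succ (fuel : ℕ) : play (fuel + 1) = playB (play fuel) := rfl

/-- the run with a number -/
def rF (rho : ℕ) : Fin 3 := if rho = 0 then 0 else if rho = 1 then 1 else 2

theorem ePn_eq {rho : ℕ} (h : rho < 3) : ePn rho = eP (rF rho) := by
  interval_cases rho <;> rfl

theorem eQn_eq {rho : ℕ} (h : rho < 3) : eQn rho = eQ (rF rho) := by
  interval_cases rho <;> rfl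

section spec

variable {u : List ℕ}

theorem hstd_spec {f : Bool} {l v : ℕ} (h : hstd f l = true) (hl : l ≤ v) :
    f = true ∨ 3 < v := by
  unfold hstd at h
  rw [bor_eq, Bool.or_eq_true, ble_eq'] at h
  rcases h with h | h
  · exact Or.inl h
  · right; omega

theorem canF {n : ℕ} {r : Fin 3} {a b c : ℕ} {fb fc : Bool} (f : Bool)
    (h : Can u n r (P3 r a b c) (P3 r false fb fc)) :
    Can u n r (P3 r a b c) (P3 r f fb fc) := by
  refine Can.flag h ?_
  intro R hR
  rcases r3 r R with e | e | e
  · subst e; rw [P3_r] at hR; exact absurd hR (by simp)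
  · subst e; rw [P3_P] at hR ⊢; exact hR
  · subst e; rw [P3_Q] at hR ⊢; exact hR

theorem swp_spec (hu : ∀ i < u.length, 1 ≤ u.getD i 0) {r : Fin 3} {a b c n : ℕ}
    (hp : Part u r b c) {d : ℕ} {s : List PE} {t l : ℕ} {f : Bool} {lB lC : ℕ} {k : Tk → Bool}
    {fb fc : Bool} (h : swp d s t l f lB lC k = true) (hs : St u s t a) (hl : l ≤ u.getD a 0)
    (hB : lB ≤ u.getD b 0) (hC : lC ≤ u.getD c 0) :
    ∃ X a', k X = true ∧ TkR u X a' ∧ X.f = false ∧
      (Can u n r (P3 r a' b c) (P3 r false fb fc) → Can u n r (P3 r a b c) (P3 r f fb fc)) := by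
  unfold swp at h
  rw [band_eq, Bool.and_eq_true] at h
  obtain ⟨h3, h⟩ := h
  have key : ∀ a', (a + (if t = 0 then 1 else 0) ≤ a' ∧ ∀ m, a + (if t = 0 then 1 else 0) ≤ m →
      m < a' → ∀ x ∈ s.head?, u.getD m 0 ≤ blv x.b m) → a' + 1 < u.length →
      blkH s lB lC = true → hst0 t f l = true →
      (Can u n r (P3 r a' b c) (P3 r false fb fc) → Can u n r (P3 r a b c) (P3 r f fb fc)) := by
    intro a' h1 h2 h4 h5 hc
    rcases s with _ | ⟨x, s'⟩
    · exact absurd h3 (by simp [three])
    · have h6 : ∀ m, a + (if t = 0 then 1 else 0) ≤ m → m < a' →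
          u.getD m 0 ≤ (if m % 2 = 0 then u.getD b 0 else u.getD c 0) := by
        intro m m1 m2
        have g1 := h1.2 m m1 m2 x (by simp)
        have g2 := blkH_spec (m := m) h4
        split_ifs at g2 ⊢ <;> omega
      rcases t with _ | t
      · rw [if_pos rfl] at h1 h6
        have h7 := three_spec h3 hs
        have h8 : Can u n r (P3 r (a + 1) b c) (P3 r false fb fc) := by
          refine canB hp (d := a' - (a + 1)) (by omega) (fun m m1 m2 => h6 m m1 (by omega)) ?_
          rw [show a + 1 + (a' - (a + 1)) = a' from by omega]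
          exact hc
        exact canS hp (by omega) (hstd_spec h5 hl) h8
      · rw [if_neg (by omega)] at h1 h6
        refine canF f ?_
        refine canB hp (d := a' - a) (by omega) (fun m m1 m2 => h6 m (by omega) (by omega)) ?_
        rw [show a + (a' - a) = a' from by omega]
        exact hc
  rcases d with _ | _ | _ | d
  · exact absurd h (by simp)
  · have h' : band (hstd f l) (one s t k) = true := h
    rw [band_eq, Bool.and_eq_true] at h'
    obtain ⟨X, q1, q2, q3⟩ := one_spec hu h'.2 hs
    refine ⟨X, a + 1, q1, q2, q3, fun hc => ?_⟩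
    have h7 := three_spec h3 hs
    have h8 : a + 2 < u.length := by
      rcases h7 with h7 | ⟨h7, _⟩
      · exact h7
      · exfalso
        rw [h7] at h'
        rcases s with _ | ⟨x, s'⟩
        · exact absurd h3 (by simp [three])
        · exact absurd h'.2 (by simp [one])
    exact canS hp h8 (hstd_spec h'.1 hl) hc
  · have h' : band (blkH s lB lC) (band (hst0 t f l) (toV s t k)) = true := h
    rw [band_eq, Bool.and_eq_true, band_eq, Bool.and_eq_true] at h'
    obtain ⟨X, a', q1, q2, q3, q4, q5⟩ := toV_spec hu h'.2.2 hs h3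
    refine ⟨X, a', q1, q2, q3, ?_⟩
    rcases q4 with ⟨_, rfl⟩ | q4
    · exact fun hc => canF f hc
    · exact key a' q4 (by omega) h'.1 h'.2.1
  · have h' : band (blkH s lB lC) (band (hst0 t f l) (toJ s t k)) = true := h
    rw [band_eq, Bool.and_eq_true, band_eq, Bool.and_eq_true] at h'
    obtain ⟨X, a', q1, q2, q3, q4, q5⟩ := toJ_spec h'.2.2 hs h3
    exact ⟨X, a', q1, q2, q3, key a' q4 q5 h'.1 h'.2.1⟩

theorem lstOK_spec {s s' : List PE} {t t' a b : ℕ} (h : lstOK s s' t t' = true) (hs : St u s t a)
    (hs' : St u s' t' b) (h1 : t ≠ 1) (h2 : t' ≠ 1) : u.length ≤ a + 2 ↔ u.length ≤ b + 2 := by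
  unfold lstOK at h
  rw [bor_eq, Bool.or_eq_true, band_eq, Bool.and_eq_true, band_eq, Bool.and_eq_true] at h
  rcases h with h | h
  · have g1 := three_spec h.1 hs
    have g2 := three_spec h.2 hs'
    omega
  · have g1 := lst2_spec h.1 hs
    have g2 := lst2_spec h.2 hs'
    omega

theorem one_net {s : List PE} {t : ℕ} {k : Tk → Bool} (h : one s t k = true) : t ≠ 1 := by
  rintro rfl
  rcases s with _ | ⟨x, s'⟩
  · exact absurd h (by simp [one])
  · exact absurd h (by simp [one])

theorem play_spec (hu : ∀ i < u.length, 1 ≤ u.getD i 0) (fuel : ℕ) :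
    ∀ (path n rho : ℕ) (A B C : Tk) (a b c : ℕ), play fuel path n rho A B C = true → rho < 3 →
      TkR u A a → TkR u B b → TkR u C c →
      Can u n (rF rho) (P3 (rF rho) a b c) (P3 (rF rho) A.f B.f C.f) := by
  induction fuel with
  | zero => intro path n rho A B C a b c h; exact absurd h (by simp [play])
  | succ fuel ih =>
    intro path n rho A B C a b c h hr hA hB hC
    rw [play_succ] at h
    obtain ⟨sA, tA, eA, lA, hhA, fA⟩ := A
    obtain ⟨sB, tB, eB, lB, hhB, fB⟩ := B
    obtain ⟨sC, tC, eC, lC, hhC, fC⟩ := C
    simp only [playB, frc_eq] at h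
    set d := Nat.mod path 8 with hd
    clear_value d
    set path' := Nat.div path 8 with hpath
    clear_value path'
    show Can u n (rF rho) (P3 (rF rho) a b c) (P3 (rF rho) fA fB fC)
    have eP1 := ePn_eq hr
    have eQ1 := eQn_eq hr
    rcases d with _ | d
    · have h' : band (nilB sA) (band (nilB sB) (nilB sC)) = true := h
      rw [band_eq, Bool.and_eq_true, band_eq, Bool.and_eq_true] at h'
      have nl : ∀ s : List PE, nilB s = true → s = [] := by
        intro s hs
        rcases s with _ | ⟨x, s⟩
        · rfl
        · exact absurd hs (by simp [nilB])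
      have e1 := nl _ h'.1
      have e2 := nl _ h'.2.1
      have e3 := nl _ h'.2.2
      subst e1 e2 e3
      have g1 : a = u.length := hA.st
      have g2 : b = u.length := hB.st
      have g3 : c = u.length := hC.st
      refine Can.done ?_
      intro R
      rcases r3 (rF rho) R with e | e | e
      · rw [e, P3_r]; exact g1
      · rw [e, P3_P]; exact g2
      · rw [e, P3_Q]; exact g3
    · rcases eA with _ | _ | eA
      · -- the even partner
        have h' := h
        simp only [frcB_eq, band_eq, bor_eq, Bool.and_eq_true, beq_eq] at h'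
        obtain ⟨k1, k2⟩ := h'
        have a1 : a < u.length ∧ a % 2 = 0 := by
          rcases hA.e with ⟨_, q2, q3⟩ | ⟨q1, _⟩
          · exact ⟨q2, q3⟩
          · exact absurd q1 (by simp)
        have b1 : b < u.length ∧ b % 2 = eP (rF rho) := by
          have hlt : eP (rF rho) < 2 := by unfold eP; split_ifs <;> omega
          rcases hB.e with ⟨_, q2, q3⟩ | ⟨q1, _⟩
          · exact ⟨q2, by rw [q3, ← eP1]; exact k1⟩
          · have q1' : eB = 2 := q1
            rw [q1', eP1] at k1
            omega
        have lA1 : lA ≤ u.getD a 0 := hA.l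
        have lB1 : lB ≤ u.getD b 0 := hB.l
        have lC1 : lC ≤ u.getD c 0 := hC.l
        have hA1 : u.getD a 0 ≤ hhA ∨ 3 < u.getD a 0 := hA.h
        have hB1 : u.getD b 0 ≤ hhB ∨ 3 < u.getD b 0 := hB.h
        refine canHP (xa := Nat.ble hhA lB) (xb := Nat.ble hhB lA) a1.1 b1.1 a1.2 b1.2 ?_ ?_ ?_
        · intro hx
          have := ble_eq'.1 hx
          omega
        · intro hx
          have := ble_eq'.1 hx
          omega
        · set fa := (fA || Nat.ble hhA lB) with hfa
          clear_value fa
          set fb := (fB || Nat.ble hhB lA) with hfb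
          clear_value fb
          cases hd3 : Nat.beq d 3 with
          | true =>
            rw [hd3] at k2
            have k2 : cutP (play fuel) path' n rho sA tA lA fa sB tB lB fb
              ⟨sC, tC, eC, lC, hhC, fC⟩ = true := k2
            rcases n with _ | n
            · exact absurd k2 (by simp [cutP])
            · simp only [cutP, band_eq, Bool.and_eq_true] at k2
              obtain ⟨m1, m2, m3, m4⟩ := k2
              obtain ⟨X, q1, q2, q3⟩ := one_spec hu m4 hA.st
              obtain ⟨Y, p1, p2, p3⟩ := one_spec hu q1 hB.st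
              have hN := lstOK_spec m3 hA.st hB.st (one_net m4) (one_net q1)
              have w1 := hstd_spec m1 lA1
              have w2 := hstd_spec m2 lB1
              have hr3 : rho = 0 ∨ rho = 1 ∨ rho = 2 := by omega
              rcases hr3 with rfl | rfl | rfl
              · have := ih path' n 2 _ X Y c (a + 1) (b + 1) p1 (by omega) hC q2 p2
                rw [q3, p3] at this
                exact canCP a1.1 b1.1 a1.2 b1.2 w1 w2 hN rfl rfl this
              · have := ih path' n 2 _ Y X c (b + 1) (a + 1) p1 (by omega) hC p2 q2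
                rw [q3, p3] at this
                exact canCP a1.1 b1.1 a1.2 b1.2 w1 w2 hN rfl rfl this
              · have := ih path' n 1 _ Y X c (b + 1) (a + 1) p1 (by omega) hC p2 q2
                rw [q3, p3] at this
                exact canCP a1.1 b1.1 a1.2 b1.2 w1 w2 hN rfl rfl this
          | false =>
            rw [hd3] at k2
            simp only [cond_false, Bool.and_eq_true, beq_eq] at k2
            obtain ⟨k3, k4⟩ := k2
            have c1 : c < u.length ∧ c % 2 = eQ (rF rho) := by
              have hlt : eQ (rF rho) < 2 := by unfold eQ; split_ifs <;> omega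
              rcases hC.e with ⟨_, q2, q3⟩ | ⟨q1, _⟩
              · exact ⟨q2, by rw [q3, ← eQ1]; exact k3⟩
              · have q1' : eC = 2 := q1
                rw [q1', eQ1] at k3
                omega
            obtain ⟨X, a', q1, q2, q3, q4⟩ := swp_spec (n := n) (fb := fb) (fc := fC) hu
              ⟨b1.1, c1.1, b1.2, c1.2⟩ k4 hA.st lA1 lB1 lC1
            refine q4 ?_
            have := ih path' n rho X _ _ a' b c q1 hr q2
              ⟨hB.st, hB.e, hB.l, hB.h⟩ hC
            rw [q3] at this
            exact this
      · -- the odd partner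
        have h' := h
        simp only [frcB_eq, band_eq, bor_eq, Bool.and_eq_true, beq_eq] at h'
        obtain ⟨k1, k2⟩ := h'
        have a1 : a < u.length ∧ a % 2 = 1 := by
          rcases hA.e with ⟨_, q2, q3⟩ | ⟨q1, _⟩
          · exact ⟨q2, q3⟩
          · exact absurd q1 (by simp)
        have c1 : c < u.length ∧ c % 2 = eQ (rF rho) := by
          have hlt : eQ (rF rho) < 2 := by unfold eQ; split_ifs <;> omega
          rcases hC.e with ⟨_, q2, q3⟩ | ⟨q1, _⟩
          · exact ⟨q2, by rw [q3, ← eQ1]; exact k1⟩
          · have q1' : eC = 2 := q1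
            rw [q1', eQ1] at k1
            omega
        have lA1 : lA ≤ u.getD a 0 := hA.l
        have lB1 : lB ≤ u.getD b 0 := hB.l
        have lC1 : lC ≤ u.getD c 0 := hC.l
        have hA1 : u.getD a 0 ≤ hhA ∨ 3 < u.getD a 0 := hA.h
        have hC1 : u.getD c 0 ≤ hhC ∨ 3 < u.getD c 0 := hC.h
        refine canHQ (xa := Nat.ble hhA lC) (xc := Nat.ble hhC lA) a1.1 c1.1 a1.2 c1.2 ?_ ?_ ?_
        · intro hx
          have := ble_eq'.1 hx
          omega
        · intro hx
          have := ble_eq'.1 hx
          omega
        · set fa := (fA || Nat.ble hhA lC) with hfa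
          clear_value fa
          set fc := (fC || Nat.ble hhC lA) with hfc
          clear_value fc
          cases hd3 : Nat.beq d 3 with
          | true =>
            rw [hd3] at k2
            have k2 : cutQ (play fuel) path' n rho sA tA lA fa sC tC lC fc
              ⟨sB, tB, eB, lB, hhB, fB⟩ = true := k2
            rcases n with _ | n
            · exact absurd k2 (by simp [cutQ])
            · simp only [cutQ, band_eq, Bool.and_eq_true] at k2
              obtain ⟨m1, m2, m3, m4⟩ := k2
              obtain ⟨X, q1, q2, q3⟩ := one_spec hu m4 hA.st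
              obtain ⟨Y, p1, p2, p3⟩ := one_spec hu q1 hC.st
              have hN := lstOK_spec m3 hA.st hC.st (one_net m4) (one_net q1)
              have w1 := hstd_spec m1 lA1
              have w2 := hstd_spec m2 lC1
              have hr3 : rho = 0 ∨ rho = 1 ∨ rho = 2 := by omega
              rcases hr3 with rfl | rfl | rfl
              · have := ih path' n 1 _ X Y b (a + 1) (c + 1) p1 (by omega) hB q2 p2
                rw [q3, p3] at this
                exact canCQ a1.1 c1.1 a1.2 c1.2 w1 w2 hN rfl rfl this
              · have := ih path' n 0 _ X Y b (a + 1) (c + 1) p1 (by omega) hB q2 p2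
                rw [q3, p3] at this
                exact canCQ a1.1 c1.1 a1.2 c1.2 w1 w2 hN rfl rfl this
              · have := ih path' n 0 _ Y X b (c + 1) (a + 1) p1 (by omega) hB p2 q2
                rw [q3, p3] at this
                exact canCQ a1.1 c1.1 a1.2 c1.2 w1 w2 hN rfl rfl this
          | false =>
            rw [hd3] at k2
            simp only [cond_false, Bool.and_eq_true, beq_eq] at k2
            obtain ⟨k3, k4⟩ := k2
            have b1 : b < u.length ∧ b % 2 = eP (rF rho) := by
              have hlt : eP (rF rho) < 2 := by unfold eP; split_ifs <;> omega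
              rcases hB.e with ⟨_, q2, q3⟩ | ⟨q1, _⟩
              · exact ⟨q2, by rw [q3, ← eP1]; exact k3⟩
              · have q1' : eB = 2 := q1
                rw [q1', eP1] at k3
                omega
            obtain ⟨X, a', q1, q2, q3, q4⟩ := swp_spec (n := n) (fb := fB) (fc := fc) hu
              ⟨b1.1, c1.1, b1.2, c1.2⟩ k4 hA.st lA1 lB1 lC1
            refine q4 ?_
            have := ih path' n rho X _ _ a' b c q1 hr q2 hB
              ⟨hC.st, hC.e, hC.l, hC.h⟩
            rw [q3] at this
            exact this
      · exact absurd h (by simp)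

end spec

/-- evaluation of the numbers of a pattern -/
noncomputable def nrmP (p : List PE) : (List PE → Bool) → Bool :=
  List.rec (motive := fun _ => (List PE → Bool) → Bool) (fun k => k [])
    (fun x _ ih k => frc x.e fun e => frc x.lo fun lo => frc x.hi fun hi => frc x.b fun b =>
      ih fun s => k (⟨e, lo, hi, b⟩ :: s)) p

theorem nrmP_eq (p : List PE) (k : List PE → Bool) : nrmP p k = k p := by
  induction p generalizing k with
  | nil => rfl
  | cons x s ih => exact ih (fun s => k (x :: s))

/-- the path checker for a pattern in normal form -/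
noncomputable def chkPN (K path : ℕ) (p : List PE) : Bool :=
  tkL p fun A => tkL p fun B => tkL p fun C => play 120 path K 0 A B C

/-- the path checker for a pattern -/
noncomputable def chkPath (K path : ℕ) (p : List PE) : Bool := nrmP p (chkPN K path)

theorem chkPN_spec {K path : ℕ} {p : List PE} (h : chkPN K path p = true) :
    POK (2 * K + 1) p := by
  intro w hw hm
  have hu : ∀ i < (cw w).length, 1 ≤ (cw w).getD i 0 := by
    intro i hi
    have h1 : (cw w).getD i 0 ∈ cw w := by
      rw [List.getD_eq_getElem _ _ hi]; exact List.getElem_mem hi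
    have h2 : ∀ x ∈ cw w, 1 ≤ x := by
      intro x hx
      unfold cw at hx
      simp only [List.mem_append, List.mem_cons, List.not_mem_nil, or_false] at hx
      rcases hx with (h | h) | h
      · omega
      · exact (hw x h).1
      · omega
    exact h2 _ h1
  obtain ⟨A, a1, a2, a3⟩ := tkL_spec h hm
  obtain ⟨B, b1, b2, b3⟩ := tkL_spec a1 hm
  obtain ⟨C, c1, c2, c3⟩ := tkL_spec b1 hm
  have := play_spec hu 120 path K 0 A B C 0 0 0 c1 (by omega) a2 b2 c2
  rw [a3, b3, c3] at this
  refine Can.lab3 (h := P3 (rF 0) false false false) ?_ ?_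
  · intro R; unfold P3; split_ifs <;> rfl
  · have e2 : P3 (rF 0) (0 : ℕ) 0 0 = fun _ => 0 := by funext R; unfold P3; split_ifs <;> rfl
    rw [e2] at this
    exact this

theorem chkPath_spec {K path : ℕ} {p : List PE} (h : chkPath K path p = true) :
    POK (2 * K + 1) p := by
  unfold chkPath at h
  rw [nrmP_eq] at h
  exact chkPN_spec h

end MPb6P
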