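import Pool.Agent.Lib.MP_b6d339_lc.Pos.XGame

/-!
# Erdős 592, positive side: the game in terms of the active run and its two partners
-/

namespace MPb6P

open Function

/-- partner of the active run for its letters of even index -/
def rP (r : Fin 3) : Fin 3 := if r = 0 then 1 else 0

/-- partner of the active run for its letters of odd index -/
def rQ (r : Fin 3) : Fin 3 := if r = 2 then 1 else 2

/-- parity of the current letter of the partner `rP` -/
def eP (r : Fin 3) : ℕ := if r = 2 then 1 else 0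

/-- parity of the current letter of the partner `rQ` -/
def eQ (r : Fin 3) : ℕ := if r = 0 then 0 else 1

/-- a function on the runs given by its values at the active run and its partners -/
def P3 {α : Type} (r : Fin 3) (a b c : α) : Fin 3 → α :=
  fun R => if R = r then a else if R = rP r then b else c

theorem P3_r {α : Type} (r : Fin 3) (a b c : α) : P3 r a b c r = a := by simp [P3]

theorem rP_ne (r : Fin 3) : rP r ≠ r := by revert r; decide

theorem rQ_ne (r : Fin 3) : rQ r ≠ r := by revert r; decide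

theorem rQ_ne_rP (r : Fin 3) : rQ r ≠ rP r := by revert r; decide

theorem r3 (r R : Fin 3) : R = r ∨ R = rP r ∨ R = rQ r := by revert r R; decide

theorem P3_P {α : Type} (r : Fin 3) (a b c : α) : P3 r a b c (rP r) = b := by
  simp [P3, rP_ne r]

theorem P3_Q {α : Type} (r : Fin 3) (a b c : α) : P3 r a b c (rQ r) = c := by
  simp [P3, rQ_ne r, rQ_ne_rP r]

theorem P3_upd {α : Type} (r : Fin 3) (a b c a' : α) :
    update (P3 r a b c) r a' = P3 r a' b c := by
  funext R
  by_cases h : R = r
  · subst h; rw [update_self, P3_r]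
  · rw [update_of_ne h]; simp [P3, h]

theorem P3_updP {α : Type} (r : Fin 3) (a b c b' : α) :
    update (P3 r a b c) (rP r) b' = P3 r a b' c := by
  funext R
  rcases r3 r R with h | h | h
  · subst h; rw [update_of_ne (Ne.symm (rP_ne R)), P3_r, P3_r]
  · subst h; rw [update_self, P3_P]
  · subst h; rw [update_of_ne (rQ_ne_rP r), P3_Q, P3_Q]

theorem P3_updQ {α : Type} (r : Fin 3) (a b c c' : α) :
    update (P3 r a b c) (rQ r) c' = P3 r a b c' := by
  funext R
  rcases r3 r R with h | h | h
  · subst h; rw [update_of_ne (Ne.symm (rQ_ne R)), P3_r, P3_r]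
  · subst h; rw [update_of_ne (Ne.symm (rQ_ne_rP r)), P3_P, P3_P]
  · subst h; rw [update_self, P3_Q]

theorem plrP0 : ∀ r : Fin 3, plr (rP r) (eP r) = plr r 0 := by decide

theorem plrQ0 : ∀ r : Fin 3, plr (rQ r) (eQ r) = plr r 1 := by decide

theorem plr_P (r : Fin 3) {a b : ℕ} (ha : a % 2 = 0) (hb : b % 2 = eP r) :
    plr (rP r) b = plr r a := by
  rw [plr_mod _ a, plr_mod _ b, ha, hb]
  exact plrP0 r

theorem plr_Q (r : Fin 3) {a c : ℕ} (ha : a % 2 = 1) (hc : c % 2 = eQ r) :
    plr (rQ r) c = plr r a := by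
  rw [plr_mod _ a, plr_mod _ c, ha, hc]
  exact plrQ0 r

variable {u : List ℕ} {n : ℕ} {r : Fin 3} {a b c : ℕ} {fa fb fc : Bool}

/-- hosting of the active letter is not needed for boundary letters -/
theorem Can.hst4 {rho : Fin 3} {p : Fin 3 → ℕ} {h : Fin 3 → Bool} {R : Fin 3}
    (hv : 3 < u.getD (p R) 0) (hc : Can u n rho p (update h R true)) : Can u n rho p h := by
  intro T hT
  obtain ⟨lab, hl⟩ := hc T hT
  refine ⟨lab, hl.lbd, hl.mono, hl.common, hl.timing, ?_⟩
  intro Q Q' hQ i h1 h2 h3 h4 h5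
  refine hl.host Q Q' hQ i h1 h2 h3 ?_ h5
  rintro ⟨h6, h7⟩
  by_cases hQR : Q = R
  · subst hQR; rw [h6] at h3; omega
  · rw [update_of_ne hQR] at h7
    exact h4 ⟨h6, h7⟩

/-- hosting between the active run and its even partner -/
theorem canHP (ha : a < u.length) (hb : b < u.length) (ha2 : a % 2 = 0) (hb2 : b % 2 = eP r)
    {xa xb : Bool}
    (hxa : xa = true → u.getD a 0 ≤ u.getD b 0 ∨ 3 < u.getD a 0)
    (hxb : xb = true → u.getD b 0 ≤ u.getD a 0 ∨ 3 < u.getD b 0)
    (hc : Can u n r (P3 r a b c) (P3 r (fa || xa) (fb || xb) fc)) :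
    Can u n r (P3 r a b c) (P3 r fa fb fc) := by
  have s1 : Can u n r (P3 r a b c) (P3 r fa (fb || xb) fc) := by
    cases xa with
    | false => simpa using hc
    | true =>
      rw [Bool.or_true] at hc
      rcases hxa rfl with h | h
      · refine Can.hst (R := r) (R' := rP r) (Ne.symm (rP_ne r)) ?_ ?_ ?_ ?_
        · rw [P3_P]; exact hb
        · rw [P3_P, P3_r]; exact plr_P r ha2 hb2
        · rw [P3_P, P3_r]; exact h
        · rw [P3_upd]; exact hc
      · refine Can.hst4 (R := r) ?_ ?_
        · rw [P3_r]; exact h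
        · rw [P3_upd]; exact hc
  cases xb with
  | false => simpa using s1
  | true =>
    rw [Bool.or_true] at s1
    rcases hxb rfl with h | h
    · refine Can.hst (R := rP r) (R' := r) (rP_ne r) ?_ ?_ ?_ ?_
      · rw [P3_r]; exact ha
      · rw [P3_P, P3_r]; exact (plr_P r ha2 hb2).symm
      · rw [P3_P, P3_r]; exact h
      · rw [P3_updP]; exact s1
    · refine Can.hst4 (R := rP r) ?_ ?_
      · rw [P3_P]; exact h
      · rw [P3_updP]; exact s1

/-- hosting between the active run and its odd partner -/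
theorem canHQ (ha : a < u.length) (hc : c < u.length) (ha2 : a % 2 = 1) (hc2 : c % 2 = eQ r)
    {xa xc : Bool}
    (hxa : xa = true → u.getD a 0 ≤ u.getD c 0 ∨ 3 < u.getD a 0)
    (hxc : xc = true → u.getD c 0 ≤ u.getD a 0 ∨ 3 < u.getD c 0)
    (hcn : Can u n r (P3 r a b c) (P3 r (fa || xa) fb (fc || xc))) :
    Can u n r (P3 r a b c) (P3 r fa fb fc) := by
  have s1 : Can u n r (P3 r a b c) (P3 r fa fb (fc || xc)) := by
    cases xa with
    | false => simpa using hcn
    | true =>
      rw [Bool.or_true] at hcn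
      rcases hxa rfl with h | h
      · refine Can.hst (R := r) (R' := rQ r) (Ne.symm (rQ_ne r)) ?_ ?_ ?_ ?_
        · rw [P3_Q]; exact hc
        · rw [P3_Q, P3_r]; exact plr_Q r ha2 hc2
        · rw [P3_Q, P3_r]; exact h
        · rw [P3_upd]; exact hcn
      · refine Can.hst4 (R := r) ?_ ?_
        · rw [P3_r]; exact h
        · rw [P3_upd]; exact hcn
  cases xc with
  | false => simpa using s1
  | true =>
    rw [Bool.or_true] at s1
    rcases hxc rfl with h | h
    · refine Can.hst (R := rQ r) (R' := r) (rQ_ne r) ?_ ?_ ?_ ?_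
      · rw [P3_r]; exact ha
      · rw [P3_Q, P3_r]; exact (plr_Q r ha2 hc2).symm
      · rw [P3_Q, P3_r]; exact h
      · rw [P3_updQ]; exact s1
    · refine Can.hst4 (R := rQ r) ?_ ?_
      · rw [P3_Q]; exact h
      · rw [P3_updQ]; exact s1

/-- the partners are where they should be -/
structure Part (u : List ℕ) (r : Fin 3) (b c : ℕ) : Prop where
  hb : b < u.length
  hc : c < u.length
  eb : b % 2 = eP r
  ec : c % 2 = eQ r

/-- the active run passes its letter -/
theorem canS (hp : Part u r b c) (ha : a + 2 < u.length) (hf : fa = true ∨ 3 < u.getD a 0)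
    (hcn : Can u n r (P3 r (a + 1) b c) (P3 r false fb fc)) :
    Can u n r (P3 r a b c) (P3 r fa fb fc) := by
  rcases Nat.mod_two_eq_zero_or_one a with h | h
  · refine Can.sweep (R' := rP r) (Ne.symm (rP_ne r)) ?_ ?_ ?_ ?_ ?_
    · rw [P3_r]; exact ha
    · rw [P3_P]; exact hp.hb
    · rw [P3_P, P3_r]; exact plr_P r h hp.eb
    · rw [P3_r, P3_r]; exact hf
    · rw [P3_upd, P3_upd, P3_r]; exact hcn
  · refine Can.sweep (R' := rQ r) (Ne.symm (rQ_ne r)) ?_ ?_ ?_ ?_ ?_
    · rw [P3_r]; exact ha
    · rw [P3_Q]; exact hp.hc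
    · rw [P3_Q, P3_r]; exact plr_Q r h hp.ec
    · rw [P3_r, P3_r]; exact hf
    · rw [P3_upd, P3_upd, P3_r]; exact hcn

/-- the active run passes a hosted block -/
theorem canB (hp : Part u r b c) {d : ℕ} (hd : a + d + 1 < u.length)
    (h : ∀ m, a ≤ m → m < a + d → u.getD m 0 ≤ (if m % 2 = 0 then u.getD b 0 else u.getD c 0))
    (hcn : Can u n r (P3 r (a + d) b c) (P3 r false fb fc)) :
    Can u n r (P3 r a b c) (P3 r false fb fc) := by
  induction d generalizing a with
  | zero => exact hcn
  | succ d ih =>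
    have h1 := ih (a := a + 1) (by omega) (fun m h1 h2 => h m (by omega) (by omega))
      (by rw [show a + 1 + d = a + (d + 1) from by omega]; exact hcn)
    have h2 : Can u n r (P3 r a b c) (P3 r true fb fc) :=
      canS hp (by omega) (Or.inl rfl) h1
    have h3 := h a (le_refl _) (by omega)
    rcases Nat.mod_two_eq_zero_or_one a with h4 | h4
    · rw [if_pos h4] at h3
      have := canHP (xa := true) (xb := false) (fa := false) (fb := fb) (fc := fc) (r := r)
        (a := a) (b := b) (c := c) (n := n) (u := u) (by omega) hp.hb h4 hp.eb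
        (fun _ => Or.inl h3) (by simp) (by simpa using h2)
      exact this
    · rw [if_neg (by omega)] at h3
      have := canHQ (xa := true) (xc := false) (fa := false) (fb := fb) (fc := fc) (r := r)
        (a := a) (b := b) (c := c) (n := n) (u := u) (by omega) hp.hc h4 hp.ec
        (fun _ => Or.inl h3) (by simp) (by simpa using h2)
      exact this

/-- the new active run, and the positions, after a cut with the even partner -/
def nrP (r : Fin 3) : Fin 3 := if r = 2 then 1 else 2

/-- the new active run after a cut with the odd partner -/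
def nrQ (r : Fin 3) : Fin 3 := if r = 0 then 1 else 0

theorem nrP_eq : ∀ r : Fin 3, nrP r = rQ r := by decide

theorem nrQ_eq : ∀ r : Fin 3, nrQ r = rP r := by decide

/-- a cut with the even partner; the odd partner becomes active -/
theorem canCP {b' a' : ℕ} (ha : a < u.length) (hb : b < u.length) (ha2 : a % 2 = 0)
    (hb2 : b % 2 = eP r) (hfa : fa = true ∨ 3 < u.getD a 0) (hfb : fb = true ∨ 3 < u.getD b 0)
    (hN : u.length ≤ a + 2 ↔ u.length ≤ b + 2)
    (h' : a' = (if r = 0 then a + 1 else b + 1)) (h'' : b' = (if r = 0 then b + 1 else a + 1))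
    (hcn : Can u n (nrP r) (P3 (nrP r) c a' b') (P3 (nrP r) fc false false)) :
    Can u (n + 1) r (P3 r a b c) (P3 r fa fb fc) := by
  refine Can.cut (R := r) (R' := rP r) (rho' := rQ r) (Ne.symm (rP_ne r)) (rQ_ne r)
    (rQ_ne_rP r) ?_ ?_ ?_ ?_ ?_ ?_ ?_
  · rw [P3_r]; exact ha
  · rw [P3_P]; exact hb
  · rw [P3_r, P3_P]; exact (plr_P r ha2 hb2).symm
  · rw [P3_r, P3_r]; exact hfa
  · rw [P3_P, P3_P]; exact hfb
  · rw [P3_P, P3_r]; exact hN
  · have e1 : nrP r = rQ r := nrP_eq r
    rw [e1] at hcn
    convert hcn using 1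
    · funext R
      subst h' h''
      fin_cases r <;> fin_cases R <;> rfl
    · funext R
      fin_cases r <;> fin_cases R <;> rfl

/-- a cut with the odd partner; the even partner becomes active -/
theorem canCQ {b' a' : ℕ} (ha : a < u.length) (hc : c < u.length) (ha2 : a % 2 = 1)
    (hc2 : c % 2 = eQ r) (hfa : fa = true ∨ 3 < u.getD a 0) (hfc : fc = true ∨ 3 < u.getD c 0)
    (hN : u.length ≤ a + 2 ↔ u.length ≤ c + 2)
    (h' : a' = (if r = 2 then c + 1 else a + 1)) (h'' : b' = (if r = 2 then a + 1 else c + 1))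
    (hcn : Can u n (nrQ r) (P3 (nrQ r) b a' b') (P3 (nrQ r) fb false false)) :
    Can u (n + 1) r (P3 r a b c) (P3 r fa fb fc) := by
  refine Can.cut (R := r) (R' := rQ r) (rho' := rP r) (Ne.symm (rQ_ne r)) (rP_ne r)
    (Ne.symm (rQ_ne_rP r)) ?_ ?_ ?_ ?_ ?_ ?_ ?_
  · rw [P3_r]; exact ha
  · rw [P3_Q]; exact hc
  · rw [P3_r, P3_Q]; exact (plr_Q r ha2 hc2).symm
  · rw [P3_r, P3_r]; exact hfa
  · rw [P3_Q, P3_Q]; exact hfc
  · rw [P3_Q, P3_r]; exact hN
  · have e1 : nrQ r = rP r := nrQ_eq r
    rw [e1] at hcn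
    convert hcn using 1
    · funext R
      subst h' h''
      fin_cases r <;> fin_cases R <;> rfl
    · funext R
      fin_cases r <;> fin_cases R <;> rfl

end MPb6P
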