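import Pool.Agent.Lib.MP_b6d339_lc.Pos.XPlay
import Pool.Agent.Lib.MP_b6d339_lc.Pos.WCov

/-!
# Erdős 592, positive side: decision trees of patterns

A node of the tree is a pattern. A split rule replaces a block (or the range of a letter) by at most
three alternatives, a leaf is a path (`chkPN`), a template whose automaton accepts all words of the
pattern, or a pattern which is known already.
-/

namespace MPb6P

theorem POK.mono {M M' : ℕ} (h : M ≤ M') {p : List PE} (hp : POK M p) : POK M' p :=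
  fun w hw hm => (hp w hw hm).mono h

/-! ## the word with a core -/

theorem cw_length (w : List ℕ) : (cw w).length = w.length + 4 := by
  unfold cw; simp

theorem cw_getD_two {w : List ℕ} {i : ℕ} (h1 : 2 ≤ i) (h2 : i < w.length + 2) :
    (cw w).getD i 0 = w.getD (i - 2) 0 := by
  have h3 : i < (cw w).length := by rw [cw_length]; omega
  rw [List.getD_eq_getElem _ _ h3, List.getD_eq_getElem _ _ (by omega)]
  unfold cw at h3 ⊢
  rw [List.getElem_append_left (by simp; omega), List.getElem_append_right (by simp; omega)]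
  congr 1

theorem cw_getD_four {w : List ℕ} {i : ℕ} (h1 : i < 2 ∨ w.length + 2 ≤ i) (h2 : i < w.length + 4) :
    (cw w).getD i 0 = 4 := by
  have h3 : i < (cw w).length := by rw [cw_length]; omega
  rw [List.getD_eq_getElem _ _ h3]
  unfold cw at h3 ⊢
  rcases h1 with h1 | h1
  · rw [List.getElem_append_left (by simp; omega), List.getElem_append_left (by simp; omega)]
    have : i = 0 ∨ i = 1 := by omega
    rcases this with rfl | rfl <;> rfl
  · rw [List.getElem_append_right (by simp; omega)]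
    have : i - ([4, 4] ++ w).length = 0 ∨ i - ([4, 4] ++ w).length = 1 := by
      simp only [List.length_append, List.length_cons, List.length_nil]; omega
    rcases this with h | h <;> simp only [h] <;> rfl

theorem cw_pos {w : List ℕ} (hw : ∀ x ∈ w, 1 ≤ x ∧ x ≤ 3) {i : ℕ} (hi : i < (cw w).length) :
    1 ≤ (cw w).getD i 0 := by
  rw [cw_length] at hi
  by_cases h : i < 2 ∨ w.length + 2 ≤ i
  · rw [cw_getD_four h hi]; norm_num
  · rw [cw_getD_two (by omega) (by omega), List.getD_eq_getElem _ _ (by omega)]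
    exact (hw _ (List.getElem_mem _)).1

/-! ## split rules -/

section mt

variable {u : List ℕ}

/-- the gap after the letter `i` -/
def Gap (u : List ℕ) (b i : ℕ) (P : ℕ → Prop) : Prop :=
  (b = 0 ∧ P (i + 1)) ∨ (b ≠ 0 ∧ ∃ j, i < j ∧
    (∀ m, i < m → m < j → 1 ≤ u.getD m 0 ∧ u.getD m 0 ≤ blv b m) ∧ P j)

theorem Mt_cons {x : PE} {s : List PE} {i : ℕ} : Mt u (x :: s) i ↔ i < u.length ∧ i % 2 = x.e ∧
    x.lo ≤ u.getD i 0 ∧ u.getD i 0 ≤ x.hi ∧ Gap u x.b i (Mt u s) := Iff.rfl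

theorem Mt_le {s : List PE} {i : ℕ} (h : Mt u s i) : i ≤ u.length := by
  rcases s with _ | ⟨x, s⟩
  · exact le_of_eq h
  · exact le_of_lt h.1

theorem blv_e {be bo m : ℕ} (hbo : bo < 4) (h : m % 2 = 0) : blv (4 * be + bo) m = be := by
  unfold blv; rw [if_pos h]; omega

theorem blv_o {be bo m : ℕ} (hbo : bo < 4) (h : ¬ m % 2 = 0) : blv (4 * be + bo) m = bo := by
  unfold blv; rw [if_neg h]; omega

/-- the first marked letter of a gap -/
theorem first_mark {b i j : ℕ} (P : ℕ → Prop) (hij : i < j) :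
    (∀ m, i < m → m < j → ¬ P m) ∨ ∃ m, i < m ∧ m < j ∧ P m ∧ ∀ m', i < m' → m' < m → ¬ P m' := by
  classical
  by_cases h : ∃ m, i < m ∧ m < j ∧ P m
  · right
    obtain ⟨h1, h2, h3⟩ := Nat.find_spec h
    exact ⟨Nat.find h, h1, h2, h3, fun m' h4 h5 h6 => Nat.find_min h h5 ⟨h4, by omega, h6⟩⟩
  · left
    intro m h1 h2 h3
    exact h ⟨m, h1, h2, h3⟩

/-- the last marked letter of a gap -/
theorem last_mark {i j : ℕ} (P : ℕ → Prop) :
    (∀ m, i < m → m < j → ¬ P m) ∨ ∃ m, i < m ∧ m < j ∧ P m ∧ ∀ m', m < m' → m' < j → ¬ P m' := by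
  classical
  induction j with
  | zero => left; intro m _ h; omega
  | succ j ih =>
    by_cases hj : i < j ∧ P j
    · right
      exact ⟨j, hj.1, by omega, hj.2, fun m' h1 h2 => by omega⟩
    · rcases ih with ih | ⟨m, h1, h2, h3, h4⟩
      · left
        intro m h1 h2 h3
        rcases Nat.lt_succ_iff_lt_or_eq.1 h2 with h | h
        · exact ih m h1 h h3
        · subst h; exact hj ⟨h1, h3⟩
      · right
        refine ⟨m, h1, by omega, h3, ?_⟩
        intro m' h5 h6 h7
        rcases Nat.lt_succ_iff_lt_or_eq.1 h6 with h | h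
        · exact h4 m' h5 h h7
        · subst h; exact hj ⟨by omega, h7⟩

end mt

/-- the letter is marked: even index and at least `k`, or odd index and at least `l` -/
def Mark (u : List ℕ) (k l m : ℕ) : Prop := (if m % 2 = 0 then k else l) ≤ u.getD m 0

/-- children: number and suffix -/
abbrev KC : Type := ℕ → List PE → Bool

/-- first even letter at least `k` -/
noncomputable def fE (k : ℕ) (x : PE) (s : List PE) (K : KC) : Bool :=
  match x with
  | ⟨e, lo, hi, b⟩ =>
    frc (Nat.div b 4) fun be => frc (Nat.add (Nat.mul 4 (Nat.pred k)) (Nat.mod b 4)) fun b1 =>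
      band (K 0 (⟨e, lo, hi, b1⟩ :: s)) (K 1 (⟨e, lo, hi, b1⟩ :: ⟨0, k, be, b⟩ :: s))

/-- last even letter at least `k` -/
noncomputable def lE (k : ℕ) (x : PE) (s : List PE) (K : KC) : Bool :=
  match x with
  | ⟨e, lo, hi, b⟩ =>
    frc (Nat.div b 4) fun be => frc (Nat.add (Nat.mul 4 (Nat.pred k)) (Nat.mod b 4)) fun b1 =>
      band (K 0 (⟨e, lo, hi, b1⟩ :: s)) (K 1 (⟨e, lo, hi, b⟩ :: ⟨0, k, be, b1⟩ :: s))

/-- first odd letter at least `l` -/
noncomputable def fO (l : ℕ) (x : PE) (s : List PE) (K : KC) : Bool :=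
  match x with
  | ⟨e, lo, hi, b⟩ =>
    frc (Nat.mod b 4) fun bo =>
      frc (Nat.add (Nat.mul 4 (Nat.div b 4)) (Nat.pred l)) fun b1 =>
      band (K 0 (⟨e, lo, hi, b1⟩ :: s)) (K 1 (⟨e, lo, hi, b1⟩ :: ⟨1, l, bo, b⟩ :: s))

/-- last odd letter at least `l` -/
noncomputable def lO (l : ℕ) (x : PE) (s : List PE) (K : KC) : Bool :=
  match x with
  | ⟨e, lo, hi, b⟩ =>
    frc (Nat.mod b 4) fun bo =>
      frc (Nat.add (Nat.mul 4 (Nat.div b 4)) (Nat.pred l)) fun b1 =>
      band (K 0 (⟨e, lo, hi, b1⟩ :: s)) (K 1 (⟨e, lo, hi, b⟩ :: ⟨1, l, bo, b1⟩ :: s))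

/-- first marked letter -/
noncomputable def fM (k l : ℕ) (x : PE) (s : List PE) (K : KC) : Bool :=
  match x with
  | ⟨e, lo, hi, b⟩ =>
    frc (Nat.div b 4) fun be => frc (Nat.mod b 4) fun bo =>
      frc (Nat.add (Nat.mul 4 (Nat.pred k)) (Nat.pred l)) fun b1 =>
      band (K 0 (⟨e, lo, hi, b1⟩ :: s)) (band (K 1 (⟨e, lo, hi, b1⟩ :: ⟨0, k, be, b⟩ :: s))
        (K 2 (⟨e, lo, hi, b1⟩ :: ⟨1, l, bo, b⟩ :: s)))

/-- last marked letter -/
noncomputable def lM (k l : ℕ) (x : PE) (s : List PE) (K : KC) : Bool :=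
  match x with
  | ⟨e, lo, hi, b⟩ =>
    frc (Nat.div b 4) fun be => frc (Nat.mod b 4) fun bo =>
      frc (Nat.add (Nat.mul 4 (Nat.pred k)) (Nat.pred l)) fun b1 =>
      band (K 0 (⟨e, lo, hi, b1⟩ :: s)) (band (K 1 (⟨e, lo, hi, b⟩ :: ⟨0, k, be, b1⟩ :: s))
        (K 2 (⟨e, lo, hi, b⟩ :: ⟨1, l, bo, b1⟩ :: s)))

/-- reveal the first letter of a block -/
noncomputable def rvF (x : PE) (s : List PE) (K : KC) : Bool :=
  match x with
  | ⟨e, lo, hi, b⟩ =>
    match s with
    | [] => false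
    | ⟨e', lo', hi', b'⟩ :: s' =>
      frc (Nat.sub 1 e) fun pe => frc (lvB b pe) fun v =>
        cond (Nat.beq e e')
          (K 0 (⟨e, lo, hi, 0⟩ :: ⟨pe, 1, v, b⟩ :: ⟨e', lo', hi', b'⟩ :: s'))
          (band (K 0 (⟨e, lo, hi, 0⟩ :: ⟨e', lo', hi', b'⟩ :: s'))
            (K 1 (⟨e, lo, hi, 0⟩ :: ⟨pe, 1, v, b⟩ :: ⟨e', lo', hi', b'⟩ :: s')))

/-- reveal the last letter of a block -/
noncomputable def rvL (x : PE) (s : List PE) (K : KC) : Bool :=
  match x with
  | ⟨e, lo, hi, b⟩ =>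
    match s with
    | [] => false
    | ⟨e', lo', hi', b'⟩ :: s' =>
      frc (Nat.sub 1 e') fun pe => frc (lvB b pe) fun v =>
        cond (Nat.beq e e')
          (K 0 (⟨e, lo, hi, b⟩ :: ⟨pe, 1, v, 0⟩ :: ⟨e', lo', hi', b'⟩ :: s'))
          (band (K 0 (⟨e, lo, hi, 0⟩ :: ⟨e', lo', hi', b'⟩ :: s'))
            (K 1 (⟨e, lo, hi, b⟩ :: ⟨pe, 1, v, 0⟩ :: ⟨e', lo', hi', b'⟩ :: s')))

/-- split the range of the next letter -/
noncomputable def vS (k : ℕ) (x : PE) (s : List PE) (K : KC) : Bool :=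
  match s with
  | [] => false
  | ⟨e', lo', hi', b'⟩ :: s' => frc (Nat.pred k) fun k' =>
      band (K 0 (x :: ⟨e', lo', k', b'⟩ :: s')) (K 1 (x :: ⟨e', k, hi', b'⟩ :: s'))

/-- block rules -/
noncomputable def rulB (g m r : ℕ) (x : PE) (s : List PE) (K : KC) : Bool :=
  match g with
  | 0 => fE m x s K
  | 1 => lE m x s K
  | 2 => fO m x s K
  | 3 => lO m x s K
  | 4 => fM 2 m x s K
  | 5 => fM 3 m x s K
  | 6 => lM 2 m x s K
  | 7 => lM 3 m x s K
  | _ + 8 => cond (Nat.beq r 0) (rvF x s K) (rvL x s K)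

/-- a split rule: kinds `0, 1` first even letter at least `2, 3`, `2, 3` last even letter,
`4, 5` first odd letter, `6, 7` last odd letter, `8, 9, 10, 11` first marked letter
`(2, 2), (2, 3), (3, 2), (3, 3)`, `12, 13, 14, 15` last marked letter, `16` first letter, `17` last
letter of the block after the entry `x`; `18, 19` range of the letter after `x` -/
noncomputable def rul (kd : ℕ) (x : PE) (s : List PE) (K : KC) : Bool :=
  frc (Nat.div kd 2) fun g => frc (Nat.mod kd 2) fun r => frc (Nat.add 2 r) fun m =>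
    cond (Nat.beq g 9) (vS m x s K)
      (match x with
        | ⟨e, lo, hi, b⟩ => cond (Nat.beq b 0) false (rulB g m r ⟨e, lo, hi, b⟩ s K))

section rules

variable {u : List ℕ}

/-- a mark at the letter `m` -/
theorem first_spec {e lo hi b k l i : ℕ} {s : List PE} {K : KC} (hb : b ≠ 0)
    (hk : 1 ≤ k) (hl : 1 ≤ l) (hl4 : l ≤ 4) (b1 : ℕ) (hb1 : b1 = 4 * (k - 1) + (l - 1)) (hb10 : b1 ≠ 0)
    (h0 : K 0 (⟨e, lo, hi, b1⟩ :: s) = true)
    (hE : k ≤ b / 4 → ∃ n, K n (⟨e, lo, hi, b1⟩ :: ⟨0, k, b / 4, b⟩ :: s) = true)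
    (hO : l ≤ b % 4 → ∃ n, K n (⟨e, lo, hi, b1⟩ :: ⟨1, l, b % 4, b⟩ :: s) = true)
    (hm : Mt u (⟨e, lo, hi, b⟩ :: s) i) : ∃ n c, K n c = true ∧ Mt u c i := by
  obtain ⟨m1, m2, m3, m4, m5⟩ := hm
  rcases m5 with ⟨m5, _⟩ | ⟨_, j, m6, m7, m8⟩
  · exact absurd m5 hb
  · have hj := Mt_le m8
    have hbl : ∀ m, u.getD m 0 ≤ blv b m → ¬ Mark u k l m → u.getD m 0 ≤ blv b1 m := by
      intro m q1 q2
      unfold Mark at q2
      rw [hb1]
      by_cases he : m % 2 = 0
      · rw [blv_e (by omega) he]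
        rw [if_pos he] at q2
        omega
      · rw [blv_o (by omega) he]
        rw [if_neg he] at q2
        omega
    rcases first_mark (b := b) (Mark u k l) m6 with h | ⟨m, n1, n2, n3, n4⟩
    · refine ⟨0, _, h0, m1, m2, m3, m4, Or.inr ⟨hb10, j, m6, ?_, m8⟩⟩
      intro m q1 q2
      exact ⟨(m7 m q1 q2).1, hbl m (m7 m q1 q2).2 (h m q1 q2)⟩
    · have q3 := m7 m n1 n2
      have pre : ∀ x : PE, Mt u (x :: s) m → Mt u (⟨e, lo, hi, b1⟩ :: x :: s) i := by
        intro x hx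
        refine ⟨m1, m2, m3, m4, Or.inr ⟨hb10, m, n1, ?_, hx⟩⟩
        intro m' q1 q2
        have q4 := m7 m' q1 (by omega)
        exact ⟨q4.1, hbl m' q4.2 (n4 m' q1 q2)⟩
      have suf : Gap u b m (Mt u s) :=
        Or.inr ⟨hb, j, n2, fun m' q1 q2 => m7 m' (by omega) q2, m8⟩
      unfold Mark at n3
      by_cases he : m % 2 = 0
      · rw [if_pos he] at n3
        have q5 : blv b m = b / 4 := by unfold blv; rw [if_pos he]
        rw [q5] at q3
        obtain ⟨n, hn⟩ := hE (by omega)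
        exact ⟨n, _, hn, pre _ ⟨by omega, he, n3, q3.2, suf⟩⟩
      · rw [if_neg he] at n3
        have q5 : blv b m = b % 4 := by unfold blv; rw [if_neg he]
        rw [q5] at q3
        obtain ⟨n, hn⟩ := hO (by omega)
        exact ⟨n, _, hn, pre _ ⟨by omega, by show m % 2 = 1; omega, n3, q3.2, suf⟩⟩

theorem last_spec {e lo hi b k l i : ℕ} {s : List PE} {K : KC} (hb : b ≠ 0)
    (hk : 1 ≤ k) (hl : 1 ≤ l) (hl4 : l ≤ 4) (b1 : ℕ) (hb1 : b1 = 4 * (k - 1) + (l - 1)) (hb10 : b1 ≠ 0)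
    (h0 : K 0 (⟨e, lo, hi, b1⟩ :: s) = true)
    (hE : k ≤ b / 4 → ∃ n, K n (⟨e, lo, hi, b⟩ :: ⟨0, k, b / 4, b1⟩ :: s) = true)
    (hO : l ≤ b % 4 → ∃ n, K n (⟨e, lo, hi, b⟩ :: ⟨1, l, b % 4, b1⟩ :: s) = true)
    (hm : Mt u (⟨e, lo, hi, b⟩ :: s) i) : ∃ n c, K n c = true ∧ Mt u c i := by
  obtain ⟨m1, m2, m3, m4, m5⟩ := hm
  rcases m5 with ⟨m5, _⟩ | ⟨_, j, m6, m7, m8⟩
  · exact absurd m5 hb
  · have hj := Mt_le m8
    have hbl : ∀ m, u.getD m 0 ≤ blv b m → ¬ Mark u k l m → u.getD m 0 ≤ blv b1 m := by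
      intro m q1 q2
      unfold Mark at q2
      rw [hb1]
      by_cases he : m % 2 = 0
      · rw [blv_e (by omega) he]
        rw [if_pos he] at q2
        omega
      · rw [blv_o (by omega) he]
        rw [if_neg he] at q2
        omega
    rcases last_mark (i := i) (j := j) (Mark u k l) with h | ⟨m, n1, n2, n3, n4⟩
    · refine ⟨0, _, h0, m1, m2, m3, m4, Or.inr ⟨hb10, j, m6, ?_, m8⟩⟩
      intro m q1 q2
      exact ⟨(m7 m q1 q2).1, hbl m (m7 m q1 q2).2 (h m q1 q2)⟩
    · have q3 := m7 m n1 n2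
      have pre : ∀ x : PE, Mt u (x :: s) m → Mt u (⟨e, lo, hi, b⟩ :: x :: s) i := by
        intro x hx
        exact ⟨m1, m2, m3, m4, Or.inr ⟨hb, m, n1, fun m' q1 q2 => m7 m' q1 (by omega), hx⟩⟩
      have suf : Gap u b1 m (Mt u s) := by
        refine Or.inr ⟨hb10, j, n2, fun m' q1 q2 => ?_, m8⟩
        have q4 := m7 m' (by omega) q2
        exact ⟨q4.1, hbl m' q4.2 (n4 m' q1 q2)⟩
      unfold Mark at n3
      by_cases he : m % 2 = 0
      · rw [if_pos he] at n3
        have q5 : blv b m = b / 4 := by unfold blv; rw [if_pos he]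
        rw [q5] at q3
        obtain ⟨n, hn⟩ := hE (by omega)
        exact ⟨n, _, hn, pre _ ⟨by omega, he, n3, q3.2, suf⟩⟩
      · rw [if_neg he] at n3
        have q5 : blv b m = b % 4 := by unfold blv; rw [if_neg he]
        rw [q5] at q3
        obtain ⟨n, hn⟩ := hO (by omega)
        exact ⟨n, _, hn, pre _ ⟨by omega, by show m % 2 = 1; omega, n3, q3.2, suf⟩⟩

theorem rvF_spec {x : PE} {s : List PE} {K : KC} {i : ℕ} (hb : x.b ≠ 0)
    (h : rvF x s K = true) (hm : Mt u (x :: s) i) : ∃ n c, K n c = true ∧ Mt u c i := by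
  obtain ⟨e, lo, hi, b⟩ := x
  rcases s with _ | ⟨⟨e', lo', hi', b'⟩, s'⟩
  · exact absurd h (by simp [rvF])
  · obtain ⟨m1, m2, m3, m4, m5⟩ := hm
    simp only at m2 m3 m4 hb
    rcases m5 with ⟨m5, _⟩ | ⟨_, j, m6, m7, m8⟩
    · exact absurd m5 hb
    · have h' : cond (Nat.beq e e')
          (K 0 (⟨e, lo, hi, 0⟩ :: ⟨1 - e, 1, lvB b (1 - e), b⟩ :: ⟨e', lo', hi', b'⟩ :: s'))
          (band (K 0 (⟨e, lo, hi, 0⟩ :: ⟨e', lo', hi', b'⟩ :: s'))
            (K 1 (⟨e, lo, hi, 0⟩ :: ⟨1 - e, 1, lvB b (1 - e), b⟩ :: ⟨e', lo', hi', b'⟩ :: s')))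
          = true := h
      have h8 := m8.2.1
      simp only at h8
      have hj := Mt_le m8
      -- the letter child
      have key : i + 1 < j → Mt u (⟨e, lo, hi, 0⟩ :: ⟨1 - e, 1, lvB b (1 - e), b⟩ ::
          ⟨e', lo', hi', b'⟩ :: s') i := by
        intro h5
        have h6 := m7 (i + 1) (by omega) h5
        refine ⟨m1, m2, m3, m4, Or.inl ⟨rfl, by omega, by show (i + 1) % 2 = 1 - e; omega, h6.1,
          ?_, Or.inr ⟨hb, j, h5, fun m q1 q2 => m7 m (by omega) q2, m8⟩⟩⟩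
        show u.getD (i + 1) 0 ≤ lvB b (1 - e)
        rw [lvB_eq (m := i + 1) (by omega)]
        exact h6.2
      cases hee : Nat.beq e e' with
      | true =>
        rw [hee] at h'
        have : e = e' := beq_eq.1 hee
        have h5 : i + 1 < j := by
          rcases Nat.eq_or_lt_of_le (Nat.succ_le_of_lt m6) with h | h
          · omega
          · exact h
        exact ⟨0, _, h', key h5⟩
      | false =>
        rw [hee] at h'
        simp only [cond_false, band_eq, Bool.and_eq_true] at h'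
        rcases Nat.eq_or_lt_of_le (Nat.succ_le_of_lt m6) with h5 | h5
        · refine ⟨0, _, h'.1, m1, m2, m3, m4, Or.inl ⟨rfl, ?_⟩⟩
          rw [show i + 1 = j from h5]
          exact m8
        · exact ⟨1, _, h'.2, key h5⟩

theorem rvL_spec {x : PE} {s : List PE} {K : KC} {i : ℕ} (hb : x.b ≠ 0)
    (h : rvL x s K = true) (hm : Mt u (x :: s) i) : ∃ n c, K n c = true ∧ Mt u c i := by
  obtain ⟨e, lo, hi, b⟩ := x
  rcases s with _ | ⟨⟨e', lo', hi', b'⟩, s'⟩
  · exact absurd h (by simp [rvL])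
  · obtain ⟨m1, m2, m3, m4, m5⟩ := hm
    simp only at m2 m3 m4 hb
    rcases m5 with ⟨m5, _⟩ | ⟨_, j, m6, m7, m8⟩
    · exact absurd m5 hb
    · have h' : cond (Nat.beq e e')
          (K 0 (⟨e, lo, hi, b⟩ :: ⟨1 - e', 1, lvB b (1 - e'), 0⟩ :: ⟨e', lo', hi', b'⟩ :: s'))
          (band (K 0 (⟨e, lo, hi, 0⟩ :: ⟨e', lo', hi', b'⟩ :: s'))
            (K 1 (⟨e, lo, hi, b⟩ :: ⟨1 - e', 1, lvB b (1 - e'), 0⟩ :: ⟨e', lo', hi', b'⟩ :: s')))
          = true := h
      have h8 := m8.2.1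
      simp only at h8
      have hj := Mt_le m8
      have key : i + 1 < j → Mt u (⟨e, lo, hi, b⟩ :: ⟨1 - e', 1, lvB b (1 - e'), 0⟩ ::
          ⟨e', lo', hi', b'⟩ :: s') i := by
        intro h5
        have h6 := m7 (j - 1) (by omega) (by omega)
        refine ⟨m1, m2, m3, m4, Or.inr ⟨hb, j - 1, by omega, fun m q1 q2 => m7 m q1 (by omega),
          by omega, by show (j - 1) % 2 = 1 - e'; omega, h6.1, ?_, Or.inl ⟨rfl, ?_⟩⟩⟩
        · show u.getD (j - 1) 0 ≤ lvB b (1 - e')
          rw [lvB_eq (m := j - 1) (by omega)]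
          exact h6.2
        · rw [show j - 1 + 1 = j from by omega]
          exact m8
      cases hee : Nat.beq e e' with
      | true =>
        rw [hee] at h'
        have : e = e' := beq_eq.1 hee
        have h5 : i + 1 < j := by
          rcases Nat.eq_or_lt_of_le (Nat.succ_le_of_lt m6) with h | h
          · omega
          · exact h
        exact ⟨0, _, h', key h5⟩
      | false =>
        rw [hee] at h'
        simp only [cond_false, band_eq, Bool.and_eq_true] at h'
        rcases Nat.eq_or_lt_of_le (Nat.succ_le_of_lt m6) with h5 | h5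
        · refine ⟨0, _, h'.1, m1, m2, m3, m4, Or.inl ⟨rfl, ?_⟩⟩
          rw [show i + 1 = j from h5]
          exact m8
        · exact ⟨1, _, h'.2, key h5⟩

theorem vS_spec {k : ℕ} {x : PE} {s : List PE} {K : KC} {i : ℕ}
    (h : vS k x s K = true) (hm : Mt u (x :: s) i) : ∃ n c, K n c = true ∧ Mt u c i := by
  rcases s with _ | ⟨⟨e', lo', hi', b'⟩, s'⟩
  · exact absurd h (by simp [vS])
  · have h' : band (K 0 (x :: ⟨e', lo', k - 1, b'⟩ :: s')) (K 1 (x :: ⟨e', k, hi', b'⟩ :: s'))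
        = true := h
    rw [band_eq, Bool.and_eq_true] at h'
    rw [Mt_cons] at hm
    obtain ⟨m1, m2, m3, m4, m5⟩ := hm
    have key : ∀ j, Mt u (⟨e', lo', hi', b'⟩ :: s') j → Mt u (⟨e', lo', k - 1, b'⟩ :: s') j ∨
        Mt u (⟨e', k, hi', b'⟩ :: s') j := by
      intro j hj
      obtain ⟨n1, n2, n3, n4, n5⟩ := hj
      simp only at n2 n3 n4
      by_cases hv : k ≤ u.getD j 0
      · exact Or.inr ⟨n1, n2, hv, n4, n5⟩
      · exact Or.inl ⟨n1, n2, n3, by show u.getD j 0 ≤ k - 1; omega, n5⟩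
    rcases m5 with ⟨m5, m6⟩ | ⟨m5, j, m6, m7, m8⟩
    · rcases key _ m6 with hk | hk
      · exact ⟨0, _, h'.1, m1, m2, m3, m4, Or.inl ⟨m5, hk⟩⟩
      · exact ⟨1, _, h'.2, m1, m2, m3, m4, Or.inl ⟨m5, hk⟩⟩
    · rcases key _ m8 with hk | hk
      · exact ⟨0, _, h'.1, m1, m2, m3, m4, Or.inr ⟨m5, j, m6, m7, hk⟩⟩
      · exact ⟨1, _, h'.2, m1, m2, m3, m4, Or.inr ⟨m5, j, m6, m7, hk⟩⟩

theorem rulB_spec {g m r : ℕ} (hm2 : 2 ≤ m) (hm3 : m ≤ 3) {e lo hi b i : ℕ} {s : List PE} {K : KC}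
    (hb : b ≠ 0) (h : rulB g m r ⟨e, lo, hi, b⟩ s K = true) (hm : Mt u (⟨e, lo, hi, b⟩ :: s) i) :
    ∃ n c, K n c = true ∧ Mt u c i := by
  have hbo : b % 4 < 4 := Nat.mod_lt _ (by norm_num)
  have gE : fE m ⟨e, lo, hi, b⟩ s K = true → ∃ n c, K n c = true ∧ Mt u c i := by
    intro h
    have h' : band (K 0 (⟨e, lo, hi, 4 * (m - 1) + b % 4⟩ :: s))
      (K 1 (⟨e, lo, hi, 4 * (m - 1) + b % 4⟩ :: ⟨0, m, b / 4, b⟩ :: s)) = true := h
    rw [band_eq, Bool.and_eq_true] at h'
    exact first_spec (k := m) (l := b % 4 + 1) hb (by omega) (by omega) (by omega)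
      (4 * (m - 1) + b % 4) (by omega) (by omega) h'.1 (fun _ => ⟨1, h'.2⟩) (fun h => by omega) hm
  have gE' : lE m ⟨e, lo, hi, b⟩ s K = true → ∃ n c, K n c = true ∧ Mt u c i := by
    intro h
    have h' : band (K 0 (⟨e, lo, hi, 4 * (m - 1) + b % 4⟩ :: s))
      (K 1 (⟨e, lo, hi, b⟩ :: ⟨0, m, b / 4, 4 * (m - 1) + b % 4⟩ :: s)) = true := h
    rw [band_eq, Bool.and_eq_true] at h'
    exact last_spec (k := m) (l := b % 4 + 1) hb (by omega) (by omega) (by omega)
      (4 * (m - 1) + b % 4) (by omega) (by omega) h'.1 (fun _ => ⟨1, h'.2⟩) (fun h => by omega) hm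
  have gO : fO m ⟨e, lo, hi, b⟩ s K = true → ∃ n c, K n c = true ∧ Mt u c i := by
    intro h
    have h' : band (K 0 (⟨e, lo, hi, 4 * (b / 4) + (m - 1)⟩ :: s))
      (K 1 (⟨e, lo, hi, 4 * (b / 4) + (m - 1)⟩ :: ⟨1, m, b % 4, b⟩ :: s)) = true := h
    rw [band_eq, Bool.and_eq_true] at h'
    exact first_spec (k := b / 4 + 1) (l := m) hb (by omega) (by omega) (by omega)
      (4 * (b / 4) + (m - 1)) (by omega) (by omega) h'.1 (fun h => by omega) (fun _ => ⟨1, h'.2⟩) hm
  have gO' : lO m ⟨e, lo, hi, b⟩ s K = true → ∃ n c, K n c = true ∧ Mt u c i := by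
    intro h
    have h' : band (K 0 (⟨e, lo, hi, 4 * (b / 4) + (m - 1)⟩ :: s))
      (K 1 (⟨e, lo, hi, b⟩ :: ⟨1, m, b % 4, 4 * (b / 4) + (m - 1)⟩ :: s)) = true := h
    rw [band_eq, Bool.and_eq_true] at h'
    exact last_spec (k := b / 4 + 1) (l := m) hb (by omega) (by omega) (by omega)
      (4 * (b / 4) + (m - 1)) (by omega) (by omega) h'.1 (fun h => by omega) (fun _ => ⟨1, h'.2⟩) hm
  have gM : ∀ k, 2 ≤ k → fM k m ⟨e, lo, hi, b⟩ s K = true → ∃ n c, K n c = true ∧ Mt u c i := by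
    intro k hk h
    have h' : band (K 0 (⟨e, lo, hi, 4 * (k - 1) + (m - 1)⟩ :: s))
      (band (K 1 (⟨e, lo, hi, 4 * (k - 1) + (m - 1)⟩ :: ⟨0, k, b / 4, b⟩ :: s))
        (K 2 (⟨e, lo, hi, 4 * (k - 1) + (m - 1)⟩ :: ⟨1, m, b % 4, b⟩ :: s))) = true := h
    rw [band_eq, Bool.and_eq_true, band_eq, Bool.and_eq_true] at h'
    exact first_spec (k := k) (l := m) hb (by omega) (by omega) (by omega)
      (4 * (k - 1) + (m - 1)) (by omega) (by omega) h'.1 (fun _ => ⟨1, h'.2.1⟩)
      (fun _ => ⟨2, h'.2.2⟩) hm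
  have gM' : ∀ k, 2 ≤ k → lM k m ⟨e, lo, hi, b⟩ s K = true → ∃ n c, K n c = true ∧ Mt u c i := by
    intro k hk h
    have h' : band (K 0 (⟨e, lo, hi, 4 * (k - 1) + (m - 1)⟩ :: s))
      (band (K 1 (⟨e, lo, hi, b⟩ :: ⟨0, k, b / 4, 4 * (k - 1) + (m - 1)⟩ :: s))
        (K 2 (⟨e, lo, hi, b⟩ :: ⟨1, m, b % 4, 4 * (k - 1) + (m - 1)⟩ :: s))) = true := h
    rw [band_eq, Bool.and_eq_true, band_eq, Bool.and_eq_true] at h'
    exact last_spec (k := k) (l := m) hb (by omega) (by omega) (by omega)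
      (4 * (k - 1) + (m - 1)) (by omega) (by omega) h'.1 (fun _ => ⟨1, h'.2.1⟩)
      (fun _ => ⟨2, h'.2.2⟩) hm
  rcases g with _ | _ | _ | _ | _ | _ | _ | _ | g
  · exact gE h
  · exact gE' h
  · exact gO h
  · exact gO' h
  · exact gM 2 (by omega) h
  · exact gM 3 (by omega) h
  · exact gM' 2 (by omega) h
  · exact gM' 3 (by omega) h
  · have h' : cond (Nat.beq r 0) (rvF ⟨e, lo, hi, b⟩ s K) (rvL ⟨e, lo, hi, b⟩ s K) = true := h
    cases hr : Nat.beq r 0 with
    | true => rw [hr] at h'; exact rvF_spec (x := ⟨e, lo, hi, b⟩) hb h' hm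
    | false => rw [hr] at h'; exact rvL_spec (x := ⟨e, lo, hi, b⟩) hb h' hm

theorem rul_spec {kd : ℕ} {x : PE} {s : List PE} {K : KC} {i : ℕ}
    (h : rul kd x s K = true) (hm : Mt u (x :: s) i) : ∃ n c, K n c = true ∧ Mt u c i := by
  obtain ⟨e, lo, hi, b⟩ := x
  have h' : cond (Nat.beq (kd / 2) 9) (vS (2 + kd % 2) ⟨e, lo, hi, b⟩ s K)
      (cond (Nat.beq b 0) false (rulB (kd / 2) (2 + kd % 2) (kd % 2) ⟨e, lo, hi, b⟩ s K)) = true := h
  cases h9 : Nat.beq (kd / 2) 9 with
  | true => rw [h9] at h'; exact vS_spec h' hm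
  | false =>
    rw [h9] at h'
    cases hb : Nat.beq b 0 with
    | true => rw [hb] at h'; exact absurd h' (by simp)
    | false =>
      rw [hb] at h'
      exact rulB_spec (by omega) (by omega) (beq_ff.1 hb) h' hm

end rules

/-- a rule is applied after `n` entries -/
noncomputable def walk (n : ℕ) : ℕ → List PE → KC → Bool :=
  Nat.rec (motive := fun _ => ℕ → List PE → KC → Bool)
    (fun kd s K => match s with
      | [] => false
      | x :: s' => rul kd x s' K)
    (fun _ ih kd s K => match s with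
      | [] => false
      | x :: s' => ih kd s' fun j c => K j (x :: c)) n

theorem walk_spec {u : List ℕ} {n : ℕ} : ∀ {kd : ℕ} {s : List PE} {K : KC} {i : ℕ},
    walk n kd s K = true → Mt u s i → ∃ j c, K j c = true ∧ Mt u c i := by
  induction n with
  | zero =>
    intro kd s K i h hm
    rcases s with _ | ⟨x, s'⟩
    · exact absurd (show false = true from h) (by simp)
    · exact rul_spec (show rul kd x s' K = true from h) hm
  | succ n ih =>
    intro kd s K i h hm
    rcases s with _ | ⟨x, s'⟩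
    · exact absurd (show false = true from h) (by simp)
    · have h' : walk n kd s' (fun j c => K j (x :: c)) = true := h
      rw [Mt_cons] at hm
      obtain ⟨m1, m2, m3, m4, m5⟩ := hm
      rcases m5 with ⟨m5, m6⟩ | ⟨m5, j, m6, m7, m8⟩
      · obtain ⟨k, c, hk, hc⟩ := ih h' m6
        exact ⟨k, _, hk, m1, m2, m3, m4, Or.inl ⟨m5, hc⟩⟩
      · obtain ⟨k, c, hk, hc⟩ := ih h' m8
        exact ⟨k, _, hk, m1, m2, m3, m4, Or.inr ⟨m5, j, m6, m7, hc⟩⟩

/-! ## equality and reversal of patterns -/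

/-- equality of entries -/
noncomputable def eqE (x y : PE) : Bool :=
  match x with
  | ⟨e, lo, hi, b⟩ => match y with
    | ⟨e', lo', hi', b'⟩ =>
      band (Nat.beq lo lo') (band (Nat.beq b b') (band (Nat.beq hi hi') (Nat.beq e e')))

theorem eqE_spec {x y : PE} (h : eqE x y = true) : x = y := by
  obtain ⟨e, lo, hi, b⟩ := x
  obtain ⟨e', lo', hi', b'⟩ := y
  simp only [eqE, band_eq, Bool.and_eq_true, beq_eq] at h
  obtain ⟨rfl, rfl, rfl, rfl⟩ := h
  rfl

/-- equality of patterns -/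
noncomputable def eqP (p : List PE) : List PE → Bool :=
  List.rec (motive := fun _ => List PE → Bool)
    (fun q => match q with
      | [] => true
      | _ :: _ => false)
    (fun x _ ih q => match q with
      | [] => false
      | y :: q' => band (eqE x y) (ih q')) p

theorem eqP_spec {p : List PE} : ∀ {q : List PE}, eqP p q = true → p = q := by
  induction p with
  | nil =>
    intro q h
    rcases q with _ | ⟨y, q'⟩
    · rfl
    · exact absurd (show false = true from h) (by simp)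
  | cons x p ih =>
    intro q h
    rcases q with _ | ⟨y, q'⟩
    · exact absurd (show false = true from h) (by simp)
    · have h' : band (eqE x y) (eqP p q') = true := h
      rw [band_eq, Bool.and_eq_true] at h'
      rw [eqE_spec h'.1, ih h'.2]

/-- the reversed pattern, put before `acc`; `b` is the block before `s` -/
def revA : ℕ → List PE → List PE → List PE
  | _, [], acc => acc
  | b, x :: s, acc => revA x.b s (⟨x.e, x.lo, x.hi, b⟩ :: acc)

/-- the block after the last entry -/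
def lastb : ℕ → List PE → ℕ
  | b, [] => b
  | _, x :: s => lastb x.b s

theorem revA_spec {u : List ℕ} (hN : u.length % 2 = 1) (s : List PE) : ∀ (b : ℕ) (acc : List PE)
    (i : ℕ), s ≠ [] → lastb b s = 0 → Mt u s i →
    Gap u.reverse b (u.length - 1 - i) (Mt u.reverse acc) → Mt u.reverse (revA b s acc) 0 := by
  induction s with
  | nil => intro b acc i h; exact absurd rfl h
  | cons x s ih =>
    intro b acc i _ hl hm hg
    rw [Mt_cons] at hm
    obtain ⟨m1, m2, m3, m4, m5⟩ := hm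
    have hrev : ∀ m, m < u.length → u.reverse.getD (u.length - 1 - m) 0 = u.getD m 0 := by
      intro m hm
      rw [List.getD_eq_getElem _ _ (by rw [List.length_reverse]; omega),
        List.getD_eq_getElem _ _ hm, List.getElem_reverse]
      congr 1
      omega
    have hpar : ∀ m, m < u.length → (u.length - 1 - m) % 2 = m % 2 := by intro m hm; omega
    have hx : Mt u.reverse (⟨x.e, x.lo, x.hi, b⟩ :: acc) (u.length - 1 - i) := by
      rw [Mt_cons]
      refine ⟨by rw [List.length_reverse]; omega, ?_, ?_, ?_, hg⟩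
      · rw [hpar i m1]; exact m2
      · rw [hrev i m1]; exact m3
      · rw [hrev i m1]; exact m4
    have hl' : lastb x.b s = 0 := hl
    show Mt u.reverse (revA x.b s (⟨x.e, x.lo, x.hi, b⟩ :: acc)) 0
    by_cases hs : s = []
    · subst hs
      have hb0 : x.b = 0 := hl'
      rcases m5 with ⟨_, m6⟩ | ⟨m5, _⟩
      · have h6 : i + 1 = u.length := m6
        show Mt u.reverse (⟨x.e, x.lo, x.hi, b⟩ :: acc) 0
        rw [show u.length - 1 - i = 0 from by omega] at hx
        exact hx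
      · exact absurd hb0 m5
    · rcases m5 with ⟨m5, m6⟩ | ⟨m5, j, m6, m7, m8⟩
      · refine ih x.b _ (i + 1) hs hl' m6 (Or.inl ⟨m5, ?_⟩)
        have h7 : i + 1 < u.length := by
          rcases s with _ | ⟨y, s'⟩
          · exact absurd rfl hs
          · exact m6.1
        rw [show u.length - 1 - (i + 1) + 1 = u.length - 1 - i from by omega]
        exact hx
      · have h7 : j < u.length := by
          rcases s with _ | ⟨y, s'⟩
          · exact absurd rfl hs
          · exact m8.1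
        refine ih x.b _ j hs hl' m8 (Or.inr ⟨m5, u.length - 1 - i, by omega, ?_, hx⟩)
        intro m q1 q2
        have q3 := m7 (u.length - 1 - m) (by omega) (by omega)
        have q4 := hrev (u.length - 1 - m) (by omega)
        rw [show u.length - 1 - (u.length - 1 - m) = m from by omega] at q4
        rw [q4]
        refine ⟨q3.1, ?_⟩
        have q5 : blv x.b (u.length - 1 - m) = blv x.b m := by
          unfold blv
          rw [hpar m (by omega)]
        rw [← q5]
        exact q3.2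

/-- reversed patterns -/
theorem POK.rev {M : ℕ} {p q : List PE} (hp : POK M p) (hq : q ≠ []) (hl : lastb 0 q = 0)
    (h : revA 0 q [] = p) : POK (2 * M + 8) q := by
  intro w hw hm
  rcases Nat.mod_two_eq_zero_or_one w.length with he | ho
  · exact (Lab3.of_even he).mono (by omega)
  · have hN : (cw w).length % 2 = 1 := by rw [cw_length]; omega
    have h1 := revA_spec hN q 0 [] 0 hq hl hm (Or.inl ⟨rfl, by
      show (cw w).length - 1 - 0 + 1 = (cw w).reverse.length
      rw [List.length_reverse]; omega⟩)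
    rw [h, ← cw_reverse] at h1
    have h2 := hp w.reverse (fun x hx => hw x (List.mem_reverse.1 hx)) h1
    have h3 := Lab3.rev (by rw [List.length_reverse]; exact ho) h2
    rw [List.reverse_reverse] at h3
    exact h3.mono (by omega)

/-- the reversed pattern, for the kernel -/
noncomputable def revK (s : List PE) : ℕ → List PE → (List PE → Bool) → Bool :=
  List.rec (motive := fun _ => ℕ → List PE → (List PE → Bool) → Bool)
    (fun b acc k => band (Nat.beq b 0) (k acc))
    (fun x _ ih b acc k => match x with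
      | ⟨e, lo, hi, b'⟩ => ih b' (⟨e, lo, hi, b⟩ :: acc) k) s

theorem revK_spec (s : List PE) : ∀ (b : ℕ) (acc : List PE) (k : List PE → Bool),
    revK s b acc k = true → lastb b s = 0 ∧ k (revA b s acc) = true := by
  induction s with
  | nil =>
    intro b acc k h
    have h' : band (Nat.beq b 0) (k acc) = true := h
    rw [band_eq, Bool.and_eq_true, beq_eq] at h'
    exact h'
  | cons x s ih =>
    intro b acc k h
    obtain ⟨e, lo, hi, b'⟩ := x
    exact ih b' _ k h

/-- `q` is the reversed pattern of `p` -/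
noncomputable def isRev (p q : List PE) : Bool :=
  match q with
  | [] => false
  | x :: q' => revK (x :: q') 0 [] fun r => eqP r p

theorem POK.rev' {M : ℕ} {p q : List PE} (hp : POK M p) (h : isRev p q = true) :
    POK (2 * M + 8) q := by
  rcases q with _ | ⟨x, q'⟩
  · exact absurd (show false = true from h) (by simp)
  · obtain ⟨h1, h2⟩ := revK_spec (x :: q') 0 [] _ h
    exact hp.rev (by simp) h1 (eqP_spec h2)

end MPb6P
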