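import Pool.Agent.Lib.MP_b6d339_lc.Pos.YItem

/-!
# Erdős 592, positive side: packed covering certificates
-/

namespace MPb6P

/-! ### The table of states -/

theorem nM_bd (w r i : ℕ) : Bd w (nM w r i) := by
  intro t ht
  have h : ((r >>> (23 + w * i)) % 2 ^ w).testBit t = true := ht
  rw [Nat.testBit_mod_two_pow, Bool.and_eq_true, decide_eq_true_eq] at h
  exact h.1

theorem ng_bd (w : ℕ) (N : BT ℕ) (q p c : ℕ) : Bd w ((ng w N q).m p c) := by
  unfold SR.m ng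
  split_ifs
  all_goals exact nM_bd _ _ _

theorem nb_spec {w W : ℕ} {N : BT ℕ} (h : nbB w W N = true) (q : ℕ) :
    (ng w N q).b + w ≤ W := by
  have h1 := BT.Fa_get (BT.Fa_of_all h) (q / 64)
  have h2 : allB (fun k => Nat.ble ((N.get (q / 64) >>> ((23 + 3 * w) * k)) % 65536 + w) W) 64
    = true := h1
  have h3 := allB_spec h2 (Nat.mod_lt q (by norm_num : 64 > 0))
  rw [ble_eq'] at h3
  have h4 : (ng w N q).b = ((N.get (q / 64) >>> ((23 + 3 * w) * (q % 64))) % 2 ^ (23 + 3 * w))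
    % 65536 := rfl
  rw [h4, Nat.mod_mod_of_dvd _ (show 65536 ∣ 2 ^ (23 + 3 * w) from
    ⟨2 ^ (7 + 3 * w), by rw [show (65536 : ℕ) = 2 ^ 16 by norm_num, ← pow_add]; congr 1; omega⟩)]
  exact h3

theorem shl_bit {m b t : ℕ} : (m <<< b).testBit t = true ↔
    ∃ u, t = b + u ∧ m.testBit u = true := by
  rw [Nat.testBit_shiftLeft, Bool.and_eq_true, decide_eq_true_eq]
  constructor
  · rintro ⟨h1, h2⟩
    exact ⟨t - b, by omega, h2⟩
  · rintro ⟨u, rfl, h⟩
    exact ⟨Nat.le_add_right _ _, by rw [Nat.add_sub_cancel_left]; exact h⟩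

theorem shl_bd {w W b m : ℕ} (hm : Bd w m) (hb : b + w ≤ W) : Bd W (m <<< b) := by
  intro t ht
  obtain ⟨u, rfl, h⟩ := shl_bit.1 ht
  have := hm u h
  omega

theorem spkE {g : ℕ → SR} {w W : ℕ} (hm : ∀ q p c, Bd w ((g q).m p c))
    (hb : ∀ q, (g q).b + w ≤ W) : SPk g W 0 (fun q => sE W (g q)) := by
  constructor
  · intro q i t _ ht
    have h1 := hm q _ _ t ht
    have h2 := hb q
    omega
  · intro q i t hi ht
    have h1 := hm q 0
    have h2 := hb q
    show (sE W (g q)).testBit (i * W + t) = true ↔ _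
    generalize g q = r at h1 h2
    obtain ⟨b, f, m1, m2, m3, m4, m5, m6⟩ := r
    show (pk3 W (m1 <<< b) (m2 <<< b) (m3 <<< b)).testBit (i * W + t) = true ↔ _
    have b1 : Bd W (m1 <<< b) := shl_bd (w := w) (h1 1) h2
    have b2 : Bd W (m2 <<< b) := shl_bd (w := w) (h1 2) h2
    rw [pk3_bit b1 b2 hi ht, ← s3_map (fun m => m <<< b)]
    rcases i with _ | _ | _ | i
    · exact shl_bit
    · exact shl_bit
    · exact shl_bit
    · omega
  · intro h; omega

theorem spkO {g : ℕ → SR} {w W : ℕ} (hm : ∀ q p c, Bd w ((g q).m p c))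
    (hb : ∀ q, (g q).b + w ≤ W) (hf : ∀ q, (g q).f < 2) :
    SPk g W 1 (fun q => sO W (g q)) := by
  constructor
  · intro q i t _ ht
    have h1 := hm q _ _ t ht
    have h2 := hb q
    omega
  · intro q i t hi ht
    have h1 := hm q 1
    have h2 := hb q
    show (sO W (g q)).testBit (i * W + t) = true ↔ _
    generalize g q = r at h1 h2
    obtain ⟨b, f, m1, m2, m3, m4, m5, m6⟩ := r
    show (pk4 W (m4 <<< b) (m5 <<< b) (m6 <<< b) f).testBit (i * W + t) = true ↔ _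
    have b1 : Bd W (m4 <<< b) := shl_bd (w := w) (h1 1) h2
    have b2 : Bd W (m5 <<< b) := shl_bd (w := w) (h1 2) h2
    rw [pk4_bit b1 b2 hi ht, ← s3_map (fun m => m <<< b)]
    rcases i with _ | _ | _ | i
    · exact shl_bit
    · exact shl_bit
    · exact shl_bit
    · omega
  · intro _ q
    have h1 := hm q 1
    have h2 := hb q
    have h3 := hf q
    show (sO W (g q)).testBit (3 * W) = true ↔ _
    generalize g q = r at h1 h2 h3
    obtain ⟨b, f, m1, m2, m3, m4, m5, m6⟩ := r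
    show (pk4 W (m4 <<< b) (m5 <<< b) (m6 <<< b) f).testBit (3 * W + 0) = true ↔ f ≠ 0
    have h3' : f < 2 := h3
    have b1 : Bd W (m4 <<< b) := shl_bd (w := w) (h1 1) h2
    have b2 : Bd W (m5 <<< b) := shl_bd (w := w) (h1 2) h2
    have b3 : Bd W (m6 <<< b) := shl_bd (w := w) (h1 3) h2
    rw [pk4_top b1 b2 b3, Nat.testBit_zero, decide_eq_true_eq]
    omega

/-! ### The pattern -/

theorem blv_zero (p : ℕ) : blv 0 p = 0 := by
  unfold blv
  split_ifs <;> rfl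

theorem fe_big {X : List PE} {g : ℕ} (h : X.length ≤ g) : fe X g = ⟨2, 5, 0, 0⟩ := by
  unfold fe
  rw [List.getD_eq_getElem?_getD, List.getElem?_eq_none h]
  rfl

theorem MOf.bd {X : List PE} {p c st lt : ℕ} (h : MOf X p c st lt) (hp : p < 2) (hc : 1 ≤ c)
    (hX : X.length ≤ 27) : Bd 27 st ∧ Bd 27 lt := by
  constructor
  · intro g hg
    by_contra h1
    have := (h.s g).1 hg
    rw [fe_big (by omega), blv_zero] at this
    omega
  · intro g hg
    by_contra h1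
    have := (h.l g).1 hg
    rw [fe_big (by omega)] at this
    have h2 : 2 = p := this.1
    omega

theorem pdata_y {X : List PE} {p : ℕ} (hp : p < 2) (hX : X.length ≤ 27) :
    ∀ z, z < 268435456 → ∀ i, i < 3 → ∀ w, AcS X ((i + 1) :: w) p (z / 2) →
    ∃ s, Ac X w (1 - p) s ∧ s < 27 ∧ (yst (cS p X) (cU p X) z).testBit (i * 28 + (s + 1))
      = true := by
  intro z hz i hi w h
  have h1 := mof_mask X (c := 1) hp (le_refl _)
  have h2 := mof_mask X (c := 2) hp (by norm_num)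
  have h3 := mof_mask X (c := 3) hp (by norm_num)
  obtain ⟨a1, b1⟩ := h1.bd hp (le_refl _) hX
  obtain ⟨a2, b2⟩ := h2.bd hp (by norm_num) hX
  obtain ⟨a3, b3⟩ := h3.bd hp (by norm_num) hX
  have key : ∀ s, (stpN (s3 (mskL (fS p 1) X 0) (mskL (fS p 2) X 0) (mskL (fS p 3) X 0) i)
      (s3 (mskL (fL p 1) X 0) (mskL (fL p 2) X 0) (mskL (fL p 3) X 0) i) (z / 2)).testBit s = true →
      s < 27 ∧ (yst (cS p X) (cU p X) z).testBit (i * 28 + (s + 1)) = true :=
    fun s hs => yst_spec hz a1 a2 b1 b2 b3 a3 hi hs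
  have h4 : AcS X w (1 - p) (stpN (s3 (mskL (fS p 1) X 0) (mskL (fS p 2) X 0)
      (mskL (fS p 3) X 0) i) (s3 (mskL (fL p 1) X 0) (mskL (fL p 2) X 0)
      (mskL (fL p 3) X 0) i) (z / 2)) := by
    rcases i with _ | _ | _ | i
    · exact (step_iff h1 _ _).2 h
    · exact (step_iff h2 _ _).2 h
    · exact (step_iff h3 _ _).2 h
    · omega
  obtain ⟨s, h5, h6⟩ := h4
  obtain ⟨h7, h8⟩ := key s h5
  exact ⟨s, h6, h7, h8⟩

theorem pdata_k {X : List PE} {p : ℕ} (hp : p < 2) (hX : X.length ≤ 27) (U : ℕ) :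
    ∀ z, z < 268435456 → ∀ i, i < 3 → z.testBit 0 = true →
    (yst (cS p X) U z).testBit (i * 28 + 0) = true := by
  intro z hz i hi h
  have h1 := mof_mask X (c := 1) hp (le_refl _)
  have h2 := mof_mask X (c := 2) hp (by norm_num)
  obtain ⟨a1, b1⟩ := h1.bd hp (le_refl _) hX
  obtain ⟨a2, b2⟩ := h2.bd hp (by norm_num) hX
  exact yst_zero hz a1 a2 hi h

theorem pdata0 {X : List PE} (hX : X.length ≤ 27) : PData X 0 (cS 0 X) (cU 0 X) 0 := by
  refine ⟨pdata_y (by norm_num) hX, pdata_k (by norm_num) hX _, ?_⟩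
  rintro z ⟨g, -, h, -⟩
  exact absurd h (by norm_num)

theorem pdata1 {X : List PE} (hX : X.length ≤ 27) : PData X 1 (cS 1 X) (cU 1 X) (cF X) := by
  refine ⟨pdata_y (by norm_num) hX, pdata_k (by norm_num) hX _, ?_⟩
  rintro z ⟨g, h1, -, h2⟩
  refine ⟨rfl, ?_⟩
  rw [half_bit] at h1
  have h3 := (fn_mask X (g + 1)).2 h2
  have h4 : (cF X).testBit (g + 1) = true := by
    show (2 * (mskL fF X 0 / 2)).testBit (g + 1) = true
    refine (testBit_dbl _ _).2 ⟨g, rfl, ?_⟩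
    rw [half_bit]; exact h3
  intro h5
  have h6 : (z &&& cF X).testBit (g + 1) = true := by
    rw [Nat.testBit_and, h1, h4]; rfl
  rw [show z &&& cF X = 0 from h5, Nat.zero_testBit] at h6
  exact Bool.noConfusion h6

/-! ### All claims -/

theorem lorL_spec (f : ℕ → ℕ) : ∀ n, Nat.rec (motive := fun _ => ℕ) 0
    (fun k ih => Nat.lor ih (f k)) n = 0 → ∀ k, k < n → f k = 0 := by
  intro n
  induction n with
  | zero => intro _ k hk; omega
  | succ n ih =>
    intro h k hk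
    obtain ⟨h1, h2⟩ := lor_zero h
    rcases Nat.lt_succ_iff_lt_or_eq.1 hk with h3 | h3
    · exact ih h1 k h3
    · rw [h3]; exact h2

theorem cyC_spec {f : ℕ → ℕ → ℕ} {b : ℕ} (h : cyC f b = true) {k : ℕ} (hk : k < 64) :
    f b ((b >>> (149 * k)) % 2 ^ 149) = 0 := by
  have h' : Nat.beq (Nat.rec (motive := fun _ => ℕ) 0 (fun k ih => Nat.lor ih
    (f b ((b >>> (149 * k)) % 2 ^ 149))) 64) 0 = true := h
  rw [beq_eq] at h'
  exact lorL_spec (fun k => f b ((b >>> (149 * k)) % 2 ^ 149)) 64 h' k hk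

/-- check of a literal with even claims -/
noncomputable def cb0 (w W : ℕ) (N T C : BT ℕ) (X : List PE) (b : ℕ) : Bool :=
  cyC (cyR W T C (fun q => sE W (ng w N q)) (cS 0 X) (cU 0 X) 0) b

/-- check of a literal with odd claims -/
noncomputable def cb1 (w W : ℕ) (N T C : BT ℕ) (X : List PE) (b : ℕ) : Bool :=
  cyC (cyR W T C (fun q => sO W (ng w N q)) (cS 1 X) (cU 1 X) (cF X)) b

theorem cyE_spec {w W : ℕ} {N T C : BT ℕ} {X : List PE} {t : BT ℕ}
    (h : cyE w W N T C X t = true) : t.Fa (fun b => cb0 w W N T C X b = true) :=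
  BT.Fa_of_all (p := cb0 w W N T C X) h

theorem cyO_spec {w W : ℕ} {N T C : BT ℕ} {X : List PE} {t : BT ℕ}
    (h : cyO w W N T C X t = true) : t.Fa (fun b => cb1 w W N T C X b = true) :=
  BT.Fa_of_all (p := cb1 w W N T C X) h

theorem claims_ok {g : ℕ → SR} {W : ℕ} (hW : 0 < W) {T C0 C1 : BT ℕ} {X : List PE}
    {s0 s1 : ℕ → ℕ} {S0 U0 f0 S1 U1 f1 : ℕ} (hs0 : SPk g W 0 s0) (hs1 : SPk g W 1 s1)
    (hD0 : PData X 0 S0 U0 f0) (hD1 : PData X 1 S1 U1 f1)
    (h0 : ∀ j, ∃ b, cyR W T C1 s0 S0 U0 f0 b (r64 149 C0 j) = 0)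
    (h1 : ∀ j, ∃ b, cyR W T C0 s1 S1 U1 f1 b (r64 149 C1 j) = 0) :
    ∀ w : List ℕ, (∀ x ∈ w, 1 ≤ x ∧ x ≤ 3) → CAll g T C0 W X w 0 ∧ CAll g T C1 W X w 1 := by
  intro w
  induction w with
  | nil =>
    intro _
    constructor
    · intro j
      obtain ⟨b, hb⟩ := h0 j
      exact cyL_nil hW hs0 hD0 hb
    · intro j
      obtain ⟨b, hb⟩ := h1 j
      exact cyL_nil hW hs1 hD1 hb
  | cons c w ih =>
    intro hc
    obtain ⟨i0, i1⟩ := ih (fun x hx => hc x (List.mem_cons_of_mem _ hx))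
    have hc' := hc c (by simp)
    obtain ⟨i, rfl⟩ : ∃ i, c = i + 1 := ⟨c - 1, by omega⟩
    constructor
    · intro j
      obtain ⟨b, hb⟩ := h0 j
      exact cyL_cons hW hs0 hD0 hb (by omega) i1
    · intro j
      obtain ⟨b, hb⟩ := h1 j
      exact cyL_cons hW hs1 hD1 hb (by omega) i0

theorem lenN_eq (X : List PE) : lenN X = X.length := by
  induction X with
  | nil => rfl
  | cons x X ih =>
    show Nat.succ (lenN X) = _
    rw [ih]
    rfl

/-- **packed covering certificate** -/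
theorem y_pok {M w W : ℕ} {N T C0 C1 : BT ℕ} {X : List PE} {I : BT Itm}
    (h1 : topY W T C0 X I = true) (h2 : nbB w W N = true)
    (h3 : I.Fa (fun i => itB (ng w N) i = true))
    (h4 : C0.Fa (fun b => cb0 w W N T C1 X b = true))
    (h5 : C1.Fa (fun b => cb1 w W N T C0 X b = true)) (h6 : I.Fa (Itm.ok M)) : POK M X := by
  intro v hv hX
  unfold topY at h1
  rw [frc_eq, band_iff, band_iff, band_iff, band_iff, band_iff, lenN_eq, ble_eq', ble_eq',
    beq_eq, tb_eq, beq_eq] at h1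
  obtain ⟨e1, e2, e3, e4, e5, e6⟩ := h1
  have hb := nb_spec h2
  have hm := ng_bd w N
  have hs0 := spkE hm hb
  have hs1 := spkO hm hb (fun q => Nat.mod_lt _ (by norm_num))
  have h0 : ∀ j, ∃ b, cyR W T C1 (fun q => sE W (ng w N q)) (cS 0 X) (cU 0 X) 0 b
      (r64 149 C0 j) = 0 := fun j =>
    ⟨_, cyC_spec (BT.Fa_get h4 (j / 64)) (Nat.mod_lt j (by norm_num : 64 > 0))⟩
  have h0' : ∀ j, ∃ b, cyR W T C0 (fun q => sO W (ng w N q)) (cS 1 X) (cU 1 X) (cF X) b
      (r64 149 C1 j) = 0 := fun j =>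
    ⟨_, cyC_spec (BT.Fa_get h5 (j / 64)) (Nat.mod_lt j (by norm_num : 64 > 0))⟩
  have hok := (claims_ok e3 hs0 hs1 (pdata0 e2) (pdata1 e2) h0 h0' v hv).1 2
  have hstart : Ac X v 0 1 := (mt_iff_ac (pre := []) (post := []) (by simp) e1 hv).1 hX
  have hx : AcS X v 0 (r64 149 C0 2 % 268435456 / 2) := by
    refine ⟨1, ?_, hstart⟩
    rw [half_bit, show (268435456 : ℕ) = 2 ^ 28 by norm_num, mod_bit (by norm_num)]
    exact e5
  have e4' : r64 149 C0 2 % 2 = 1 := e4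
  obtain ⟨q, h7, h8⟩ := hok hx (fun h => by omega)
  have h9 := dsb_spec e6 (mV_bit.2 h7)
  rcases stM_bit hv h3 h6 h9 h8 with h | h
  · rw [Nat.zero_testBit] at h
    exact Bool.noConfusion h
  · exact h

/-! ### Items of the certificates -/

theorem itf {M b n : ℕ} {t : TC} (h : tcOK 99 t = true) (hM : 99 ≤ M) :
    (Itm.fwd b n t.df).ok M := (tcOK_spec h).mono hM

theorem itb {M b n : ℕ} {t : TC} (h : tcOK 99 t = true) (hM : 206 ≤ M) :
    (Itm.bwd b n t.df).ok M := ⟨99, tcOK_spec h, hM⟩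

theorem itf206 {b n : ℕ} {t : TC} (h : tcOK 99 t = true) : (Itm.fwd b n t.df).ok 206 :=
  itf h (by norm_num)

theorem itb206 {b n : ℕ} {t : TC} (h : tcOK 99 t = true) : (Itm.bwd b n t.df).ok 206 :=
  itb h (le_refl _)

end MPb6P
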