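import Pool.Agent.Lib.MP_b6d339_lc.Pos.YRec

/-!
# Erdős 592, positive side: the items of a table of states
-/

namespace MPb6P

theorem bits3 {v t : ℕ} (hv : v < 4) (h : v.testBit t = true) :
    (t = 0 ∧ v % 2 = 1) ∨ (t = 1 ∧ v / 2 % 2 = 1) := by
  rcases t with _ | _ | t
  · rw [Nat.testBit_zero, decide_eq_true_eq] at h
    exact Or.inl ⟨rfl, h⟩
  · rw [Nat.testBit_succ, Nat.testBit_zero, decide_eq_true_eq] at h
    exact Or.inr ⟨rfl, h⟩
  · rw [Nat.testBit_succ, Nat.testBit_succ, show v / 2 / 2 = 0 by omega, Nat.zero_testBit] at h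
    exact Bool.noConfusion h

theorem xm_bit {p c : ℕ} {x y : PE} {t : ℕ} (h : (xm p c x y).testBit t = true) :
    (t = 0 ∧ fS p c x = true) ∨ (t = 1 ∧ fL p c y = true) := by
  unfold xm at h
  generalize fS p c x = a at h ⊢
  generalize fL p c y = b at h ⊢
  cases a <;> cases b
  · have h' : (0 : ℕ).testBit t = true := h
    rw [Nat.zero_testBit] at h'
    exact Bool.noConfusion h'
  · have h' : (2 : ℕ).testBit t = true := h
    rcases bits3 (by norm_num) h' with ⟨h1, h2⟩ | ⟨h1, h2⟩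
    · omega
    · exact Or.inr ⟨h1, rfl⟩
  · have h' : (1 : ℕ).testBit t = true := h
    rcases bits3 (by norm_num) h' with ⟨h1, h2⟩ | ⟨h1, h2⟩
    · exact Or.inl ⟨h1, rfl⟩
    · omega
  · have h' : (3 : ℕ).testBit t = true := h
    rcases bits3 (by norm_num) h' with ⟨h1, h2⟩ | ⟨h1, h2⟩
    · exact Or.inl ⟨h1, rfl⟩
    · exact Or.inr ⟨h1, rfl⟩

/-- what is checked for a state of a pattern -/
structure PSt (x y : PE) (q : ℕ) (r : SR) : Prop where
  b : r.b = q
  f : r.f ≠ 0 → y.lo = 4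
  m : ∀ p c t, p < 2 → 1 ≤ c → c ≤ 3 → (r.m p c).testBit t = true →
    (t = 0 ∧ c ≤ blv x.b p) ∨ (t = 1 ∧ y.e = p ∧ y.lo ≤ c ∧ c ≤ y.hi)

theorem fS_iff {p c : ℕ} {x : PE} (hp : p < 2) : fS p c x = true ↔ c ≤ blv x.b p := by
  obtain ⟨e, lo, hi, b⟩ := x
  have : fS p c ⟨e, lo, hi, b⟩ = Nat.ble c (blv b p) := by
    rcases p with _ | _ | p
    · rfl
    · rfl
    · omega
  rw [this, ble_eq']

theorem fL_iff {p c : ℕ} {x : PE} : fL p c x = true ↔ x.e = p ∧ x.lo ≤ c ∧ c ≤ x.hi := by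
  obtain ⟨e, lo, hi, b⟩ := x
  show band (Nat.beq e p) (band (Nat.ble lo c) (Nat.ble c hi)) = true ↔ _
  rw [band_iff, band_iff, beq_eq, ble_eq', ble_eq']

theorem fF_iff {x : PE} : fF x = true ↔ x.lo = 4 := by
  obtain ⟨e, lo, hi, b⟩ := x
  show Nat.beq lo 4 = true ↔ _
  rw [beq_eq]

theorem psB_spec {x y : PE} {q : ℕ} {r : SR} (h : psB x y q r = true) : PSt x y q r := by
  obtain ⟨b, f, m1, m2, m3, m4, m5, m6⟩ := r
  have h' : band (Nat.beq b q)
    (band (bor (Nat.beq f 0) (fF y)) (band (subN m1 (xm 0 1 x y)) (band (subN m2 (xm 0 2 x y))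
      (band (subN m3 (xm 0 3 x y)) (band (subN m4 (xm 1 1 x y)) (band (subN m5 (xm 1 2 x y))
        (subN m6 (xm 1 3 x y)))))))) = true := h
  rw [band_iff, band_iff, band_iff, band_iff, band_iff, band_iff, band_iff, bor_iff, beq_eq,
    beq_eq, fF_iff] at h'
  obtain ⟨h1, h2, e1, e2, e3, e4, e5, e6⟩ := h'
  refine ⟨h1, fun hf => ?_, ?_⟩
  · rcases h2 with h2 | h2
    · exact absurd h2 hf
    · exact h2
  · have key : ∀ p c m, p < 2 → subN m (xm p c x y) = true → ∀ t, m.testBit t = true →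
        (t = 0 ∧ c ≤ blv x.b p) ∨ (t = 1 ∧ y.e = p ∧ y.lo ≤ c ∧ c ≤ y.hi) := by
      intro p c m hp hm t ht
      have := xm_bit (land_sub hm ht)
      rw [fS_iff hp, fL_iff] at this
      exact this
    intro p c t hp hc1 hc3 ht
    have hpp : p = 0 ∨ p = 1 := by omega
    have hcc : c = 1 ∨ c = 2 ∨ c = 3 := by omega
    rcases hpp with rfl | rfl <;> rcases hcc with rfl | rfl | rfl
    · exact key 0 1 m1 (by norm_num) e1 t ht
    · exact key 0 2 m2 (by norm_num) e2 t ht
    · exact key 0 3 m3 (by norm_num) e3 t ht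
    · exact key 1 1 m4 (by norm_num) e4 t ht
    · exact key 1 2 m5 (by norm_num) e5 t ht
    · exact key 1 3 m6 (by norm_num) e6 t ht

theorem patB_spec {N : ℕ → SR} {F : List PE} {w : List ℕ} (hw : ∀ y ∈ w, 1 ≤ y ∧ y ≤ 3) :
    ∀ {pre s : List PE} {x : PE} {p q : ℕ}, F = pre ++ x :: s → patB N (x :: s) q = true →
      p < 2 → SG N w p q → Ac F w p pre.length := by
  induction w with
  | nil =>
    intro pre s x p q hF h hp hs
    rcases s with _ | ⟨y, s⟩
    · exact Bool.noConfusion (show false = true from h)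
    · have h' : band (psB x y q (N q)) (bor (fF y) (patB N (y :: s) (q + 1))) = true := h
      rw [band_iff] at h'
      obtain ⟨e1, e2⟩ := hs
      refine ⟨e1, ?_⟩
      have : fe F (pre.length + 1) = y := by
        rw [hF, fe_append]; rfl
      rw [this]
      exact (psB_spec h'.1).f e2
  | cons c w ih =>
    intro pre s x p q hF h hp hs
    have hc := hw c (by simp)
    have hw' : ∀ y ∈ w, 1 ≤ y ∧ y ≤ 3 := fun y hy => hw y (List.mem_cons_of_mem _ hy)
    rcases s with _ | ⟨y, s⟩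
    · exact Bool.noConfusion (show false = true from h)
    · have h0 := h
      have h' : band (psB x y q (N q)) (bor (fF y) (patB N (y :: s) (q + 1))) = true := h
      rw [band_iff, bor_iff, fF_iff] at h'
      obtain ⟨h1, h2⟩ := h'
      have hS := psB_spec h1
      obtain ⟨t, ht, hr⟩ := hs
      rw [hS.b] at hr
      have hfx : fe F pre.length = x := by
        have := fe_append pre (x :: y :: s) 0
        rw [Nat.add_zero, ← hF] at this
        exact this
      have hfy : fe F (pre.length + 1) = y := by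
        rw [hF, fe_append]; rfl
      show (c ≤ blv (fe F pre.length).b p ∧ Ac F w (1 - p) pre.length) ∨
        ((fe F (pre.length + 1)).e = p ∧ (fe F (pre.length + 1)).lo ≤ c ∧
          c ≤ (fe F (pre.length + 1)).hi ∧ Ac F w (1 - p) (pre.length + 1))
      rw [hfx, hfy]
      rcases hS.m p c t hp hc.1 hc.2 ht with ⟨rfl, h3⟩ | ⟨rfl, h3, h4, h5⟩
      · left
        exact ⟨h3, ih hw' hF h0 (by omega) hr⟩
      · right
        refine ⟨h3, h4, h5, ?_⟩
        rcases h2 with h2 | h2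
        · omega
        · have hF' : F = (pre ++ [x]) ++ y :: s := by rw [hF]; simp
          have := ih hw' hF' h2 (p := 1 - p) (by omega) hr
          rw [List.length_append, List.length_singleton] at this
          exact this

theorem itP_spec {N : ℕ → SR} {b M : ℕ} {p : List PE} (h : itP N b p = true) (hp : POK M p)
    {w : List ℕ} (hw : ∀ y ∈ w, 1 ≤ y ∧ y ≤ 3) (hs : SG N w 0 b) : Lab3 M w := by
  have h1 : band (wfP p) (List.rec (motive := fun _ => Bool) false (fun _ s _ => patB N s b) p)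
    = true := h
  rw [band_iff] at h1
  obtain ⟨h2, h3⟩ := h1
  apply hp w hw
  rw [mt_iff_ac (F := p) (pre := []) (post := []) (by simp) h2 hw]
  obtain ⟨b0, s, -, -, rfl⟩ := wfP_spec h2
  exact patB_spec hw (pre := [⟨0, 4, 4, 0⟩]) rfl h3 (by norm_num) hs

theorem oneB_spec {n m y t : ℕ} (h : oneB n m y = true) (ht : m.testBit t = true) :
    t = y ∧ y < n := by
  have h' : bor (Nat.beq m 0) (band (Nat.ble (Nat.succ y) n) (Nat.beq m (2 ^ y))) = true := h
  rw [bor_iff, band_iff, beq_eq, bles_eq, beq_eq] at h'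
  rcases h' with h' | ⟨h1, h2⟩
  · rw [h', Nat.zero_testBit] at ht; exact Bool.noConfusion ht
  · rw [h2, Nat.testBit_two_pow, decide_eq_true_eq] at ht
    exact ⟨ht.symm, h1⟩

theorem fwS_spec {n b : ℕ} {nx : ℕ → ℕ} {acc : Bool} {r : SR}
    (h : fwS n b (nx 1) (nx 2) (nx 3) acc r = true) : r.b = b ∧ (r.f ≠ 0 → acc = true) ∧
      ∀ p c t, 1 ≤ c → c ≤ 3 → (r.m p c).testBit t = true → t = nx c ∧ nx c < n := by
  obtain ⟨b', f, m1, m2, m3, m4, m5, m6⟩ := r
  have h' : band (Nat.beq b' b)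
    (band (bor (Nat.beq f 0) acc) (band (oneB n m1 (nx 1)) (band (oneB n m2 (nx 2))
      (band (oneB n m3 (nx 3)) (band (oneB n m4 (nx 1)) (band (oneB n m5 (nx 2))
        (oneB n m6 (nx 3)))))))) = true := h
  rw [band_iff, band_iff, band_iff, band_iff, band_iff, band_iff, band_iff, bor_iff, beq_eq,
    beq_eq] at h'
  obtain ⟨h1, h2, e1, e2, e3, e4, e5, e6⟩ := h'
  refine ⟨h1, fun hf => ?_, ?_⟩
  · rcases h2 with h2 | h2
    · exact absurd h2 hf
    · exact h2
  · intro p c t hc1 hc3 ht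
    have hcc : c = 1 ∨ c = 2 ∨ c = 3 := by omega
    rcases p with _ | p <;> rcases hcc with rfl | rfl | rfl
    · exact oneB_spec e1 ht
    · exact oneB_spec e2 ht
    · exact oneB_spec e3 ht
    · exact oneB_spec e4 ht
    · exact oneB_spec e5 ht
    · exact oneB_spec e6 ht

theorem itF_spec {N : ℕ → SR} {b n : ℕ} {nx : ℕ → ℕ → ℕ} {ac : ℕ} (h : itF N b n nx ac = true)
    {w : List ℕ} (hw : ∀ y ∈ w, 1 ≤ y ∧ y ≤ 3) : ∀ {p s : ℕ}, s < n → SG N w p (b + s) →
      ac.testBit (w.foldl nx s) = true := by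
  have h' : band (Nat.ble 1 n) (allB (fun s => fwS n b (nx s 1) (nx s 2) (nx s 3) (tb ac s)
    (N (b + s))) n) = true := h
  rw [band_iff] at h'
  have h1 : ∀ s, s < n → fwS n b (nx s 1) (nx s 2) (nx s 3) (tb ac s) (N (b + s)) = true :=
    fun s hs => allB_spec h'.2 hs
  induction w with
  | nil =>
    intro p s hs hS
    have h2 := (fwS_spec (nx := nx s) (h1 s hs)).2.1 hS.2
    rw [tb_eq] at h2
    exact h2
  | cons c w ih =>
    intro p s hs hS
    have hc := hw c (by simp)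
    obtain ⟨t, ht, hr⟩ := hS
    obtain ⟨e1, -, e3⟩ := fwS_spec (nx := nx s) (h1 s hs)
    obtain ⟨e4, e5⟩ := e3 p c t hc.1 hc.2 ht
    rw [e1, e4] at hr
    exact ih (fun y hy => hw y (List.mem_cons_of_mem _ hy)) e5 hr

/-! ### Automata, reversed -/

theorem relN_bit (nx : ℕ → ℕ) : ∀ n u, (relN nx n).testBit u = true →
    ∃ t, t < n ∧ u = 64 * nx t + t := by
  intro n
  induction n with
  | zero =>
    intro u h
    have h' : (0 : ℕ).testBit u = true := h
    rw [Nat.zero_testBit] at h'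
    exact Bool.noConfusion h'
  | succ n ih =>
    intro u h
    have h' : (relN nx n ||| 1 <<< (64 * nx n + n)).testBit u = true := h
    rw [Nat.testBit_or, Bool.or_eq_true, one_shl_bit] at h'
    rcases h' with h' | h'
    · obtain ⟨t, h1, h2⟩ := ih u h'
      exact ⟨t, by omega, h2⟩
    · exact ⟨n, by omega, h'⟩

theorem slN_bit {nx : ℕ → ℕ} {n s t : ℕ} (hn : n ≤ 64)
    (h : (slN (relN nx n) s).testBit t = true) : t < n ∧ nx t = s := by
  have h' : (((relN nx n) >>> (64 * s)) % 2 ^ 64).testBit t = true := h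
  rw [Nat.testBit_mod_two_pow, Bool.and_eq_true, decide_eq_true_eq, Nat.testBit_shiftRight] at h'
  obtain ⟨h1, h2⟩ := h'
  obtain ⟨t', h3, h4⟩ := relN_bit nx n _ h2
  have h5 : t = t' := by omega
  subst h5
  exact ⟨h3, by omega⟩

theorem bwS_spec {n b : ℕ} (hn : n ≤ 64) {nx : ℕ → ℕ → ℕ} {s : ℕ} {r : SR}
    (h : bwS b (relN (fun t => nx t 1) n) (relN (fun t => nx t 2) n) (relN (fun t => nx t 3) n)
      s r = true) : r.b = b ∧ (r.f ≠ 0 → s = 0) ∧
      ∀ p c t, 1 ≤ c → c ≤ 3 → (r.m p c).testBit t = true → t < n ∧ nx t c = s := by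
  obtain ⟨b', f, m1, m2, m3, m4, m5, m6⟩ := r
  generalize hr1 : relN (fun t => nx t 1) n = r1 at h
  generalize hr2 : relN (fun t => nx t 2) n = r2 at h
  generalize hr3 : relN (fun t => nx t 3) n = r3 at h
  have h' : band (Nat.beq b' b)
    (band (bor (Nat.beq f 0) (Nat.beq s 0)) (band (subN m1 (slN r1 s)) (band (subN m2 (slN r2 s))
      (band (subN m3 (slN r3 s)) (band (subN m4 (slN r1 s)) (band (subN m5 (slN r2 s))
        (subN m6 (slN r3 s)))))))) = true := h
  rw [band_iff, band_iff, band_iff, band_iff, band_iff, band_iff, band_iff, bor_iff, beq_eq,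
    beq_eq, beq_eq] at h'
  obtain ⟨h1, h2, e1, e2, e3, e4, e5, e6⟩ := h'
  refine ⟨h1, fun hf => ?_, ?_⟩
  · rcases h2 with h2 | h2
    · exact absurd h2 hf
    · exact h2
  · have key : ∀ (c m r : ℕ), relN (fun t => nx t c) n = r → subN m (slN r s) = true →
        ∀ t, m.testBit t = true → t < n ∧ nx t c = s := by
      intro c m r hr hm t ht
      subst hr
      exact slN_bit (nx := fun t => nx t c) hn (land_sub hm ht)
    intro p c t hc1 hc3 ht
    have hcc : c = 1 ∨ c = 2 ∨ c = 3 := by omega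
    rcases p with _ | p <;> rcases hcc with rfl | rfl | rfl
    · exact key 1 m1 r1 hr1 e1 t ht
    · exact key 2 m2 r2 hr2 e2 t ht
    · exact key 3 m3 r3 hr3 e3 t ht
    · exact key 1 m4 r1 hr1 e4 t ht
    · exact key 2 m5 r2 hr2 e5 t ht
    · exact key 3 m6 r3 hr3 e6 t ht

theorem itR_spec {N : ℕ → SR} {b n : ℕ} {nx : ℕ → ℕ → ℕ} (h : itR N b n nx = true)
    {w : List ℕ} (hw : ∀ y ∈ w, 1 ≤ y ∧ y ≤ 3) : ∀ {p s : ℕ}, s < n → SG N w p (b + s) →
      w.reverse.foldl nx 0 = s := by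
  unfold itR at h
  rw [frc_eq, frc_eq, frc_eq, band_iff, ble_eq'] at h
  obtain ⟨hn, h0⟩ := h
  have h1 : ∀ s, s < n → bwS b (relN (fun t => nx t 1) n) (relN (fun t => nx t 2) n)
      (relN (fun t => nx t 3) n) s (N (b + s)) = true := fun s hs => allB_spec h0 hs
  induction w with
  | nil =>
    intro p s hs hS
    exact ((bwS_spec hn (h1 s hs)).2.1 hS.2).symm
  | cons c w ih =>
    intro p s hs hS
    have hc := hw c (by simp)
    obtain ⟨t, ht, hr⟩ := hS
    obtain ⟨e1, -, e3⟩ := bwS_spec hn (h1 s hs)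
    obtain ⟨e4, e5⟩ := e3 p c t hc.1 hc.2 ht
    rw [e1] at hr
    have h2 := ih (fun y hy => hw y (List.mem_cons_of_mem _ hy)) e4 hr
    rw [List.reverse_cons, List.foldl_append, h2]
    exact e5

/-! ### Items -/

/-- an item consists of words with labels -/
def Itm.ok (M : ℕ) : Itm → Prop
  | .pat _ p => POK M p
  | .fwd _ _ d => d.ok M
  | .bwd _ _ d => ∃ M', d.ok M' ∧ 2 * M' + 8 ≤ M

theorem shl1 {b q : ℕ} (h : (1 <<< b).testBit q = true) : q = b := by
  rw [Nat.testBit_shiftLeft, Bool.and_eq_true, decide_eq_true_eq] at h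
  have h5 := h.2
  by_contra h6
  obtain ⟨z, hz⟩ := Nat.exists_eq_succ_of_ne_zero (show q - b ≠ 0 by omega)
  rw [hz, Nat.testBit_succ] at h5
  norm_num at h5

theorem shlm {b n a q : ℕ} (h : ((a % 2 ^ n) <<< b).testBit q = true) :
    ∃ s, q = b + s ∧ s < n ∧ a.testBit s = true := by
  rw [Nat.testBit_shiftLeft, Bool.and_eq_true, decide_eq_true_eq, Nat.testBit_mod_two_pow,
    Bool.and_eq_true, decide_eq_true_eq] at h
  exact ⟨q - b, by omega, h.2.1, h.2.2⟩

theorem rev_lab {M M' : ℕ} (hM : 2 * M' + 8 ≤ M) {w : List ℕ} (h : Lab3 M' w.reverse) :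
    Lab3 M w := by
  rcases Nat.mod_two_eq_zero_or_one w.length with h2 | h2
  · exact (Lab3.of_even h2).mono (by omega)
  · have h5 := h.rev (by rw [List.length_reverse]; exact h2)
    rw [List.reverse_reverse] at h5
    exact h5.mono (by omega)

theorem itB_spec {N : ℕ → SR} {M : ℕ} {i : Itm} (h : itB N i = true) (hi : i.ok M) {q : ℕ}
    (hq : (itS i).testBit q = true) {w : List ℕ} (hw : ∀ y ∈ w, 1 ≤ y ∧ y ≤ 3)
    (hs : SG N w 0 q) : Lab3 M w := by
  rcases i with ⟨b, p⟩ | ⟨b, n, ⟨dl, ac⟩⟩ | ⟨b, n, ⟨dl, ac⟩⟩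
  · have hqb := shl1 hq
    subst hqb
    exact itP_spec h hi hw hs
  · have hqb := shl1 hq
    subst hqb
    have h' : itF N q n (nxS dl) ac = true := h
    have hn : 0 < n := by
      have h'' : band (Nat.ble 1 n) _ = true := h'
      rw [band_iff, ble_eq'] at h''
      exact h''.1
    exact hi w hw (itF_spec h' hw (s := 0) hn hs)
  · obtain ⟨s, rfl, h2, h3⟩ := shlm hq
    obtain ⟨M', h4, h5⟩ := hi
    have h6 := itR_spec (show itR N b n (nxS dl) = true from h) hw h2 hs
    refine rev_lab h5 (h4 w.reverse (fun y hy => hw y (List.mem_reverse.1 hy)) ?_)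
    rw [show (DF.mk dl ac).run w.reverse = w.reverse.foldl (nxS dl) 0 from rfl, h6]
    exact h3

theorem stM_bit {N : ℕ → SR} {M : ℕ} {w : List ℕ} (hw : ∀ y ∈ w, 1 ≤ y ∧ y ≤ 3) {t : BT Itm} :
    ∀ {acc q : ℕ}, t.Fa (fun i => itB N i = true) → t.Fa (Itm.ok M) →
      (stM t acc).testBit q = true → SG N w 0 q → acc.testBit q = true ∨ Lab3 M w := by
  induction t with
  | leaf i =>
    intro acc q h1 h2 h3 h4
    have h3' : (acc ||| itS i).testBit q = true := h3
    rw [Nat.testBit_or, Bool.or_eq_true] at h3'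
    rcases h3' with h5 | h5
    · exact Or.inl h5
    · exact Or.inr (itB_spec h1 h2 h5 hw h4)
  | node l r ihl ihr =>
    intro acc q h1 h2 h3 h4
    have h3' : (stM r (stM l acc)).testBit q = true := h3
    rcases ihr h1.2 h2.2 h3' h4 with h5 | h5
    · exact ihl h1.1 h2.1 h5 h4
    · exact Or.inr h5

end MPb6P
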